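import Pool.Agent.Lib.MP_2b3e36_an.Re.Defs3

/-!
D1. Signs of a solution on the real diameter.

Proof. `f x` is real for real `x` (`real` at `z = x`), so `φ x = (f x).re` is continuous on `(-r,r)` with
derivative `(deriv f x).re`, and `(deriv f x).im = 0` (the difference quotients along the reals are real).
`φ x = 0` only for `x = 0`, `φ x = 1` only for `x = b₁, b₂`.
`(0,b₁)`: if `φ x ≥ 1` the intermediate value theorem on `[0,x]` gives a point of `(0,x]` with `φ = 1`; if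
`φ x ≤ 0` then on `[x,b₁]` a point of `[x,b₁)` with `φ = 0`. So `0 < φ < 1`; hence `φ' 0 ≥ 0`, `φ' b₁ ≥ 0`, and
they are `≠ 0` (`deriv_zero`, `deriv_b1`, imaginary part zero). So `φ > 1` for some (all) `x` slightly above `b₁` and
`φ ≠ 1` on `(b₁,b₂)`: `φ > 1` on `(b₁,b₂)` (intermediate value theorem). So `φ' b₂ ≤ 0`, `< 0`; `φ < 1` slightly
above `b₂`, `φ ≠ 0, 1` on `(b₂,r)`: `0 < φ < 1` there (a value `≤ 0` gives a zero in `[b₂,x]`). `φ < 0` slightly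
below `0` and `φ ≠ 0` on `(-r,0)`: `φ < 0`.
-/

set_option autoImplicit false

open Complex Set Filter Topology Metric

namespace Pool.Agent.Choc

theorem d1_im {b₁ b₂ r : ℝ} {f : ℂ → ℂ} (h : Sol2 b₁ b₂ r f) {x : ℝ} (hx : |x| < r) :
    (f x).im = 0 := by
  have hm : (x : ℂ) ∈ ball (0 : ℂ) r := by
    rw [mem_ball_zero_iff, Complex.norm_real]
    exact hx
  have h1 := congrArg Complex.im (h.real x hm)
  rw [Complex.conj_ofReal, Complex.conj_im] at h1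
  linarith

theorem d1_ofReal {b₁ b₂ r : ℝ} {f : ℂ → ℂ} (h : Sol2 b₁ b₂ r f) {x : ℝ} (hx : |x| < r) :
    f x = ((f x).re : ℂ) := by
  apply Complex.ext
  · rw [Complex.ofReal_re]
  · rw [Complex.ofReal_im]
    exact d1_im h hx

theorem d1_pos {φ : ℝ → ℝ} {φ' x : ℝ} (h : HasDerivAt φ φ' x) (hp : 0 < φ') :
    ∃ δ > 0, ∀ t, 0 < t → t < δ → φ x < φ (x + t) ∧ φ (x - t) < φ x := by
  have h1 := hasDerivAt_iff_tendsto_slope_zero.1 h
  have h2 := h1.eventually (lt_mem_nhds hp)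
  rw [eventually_nhdsWithin_iff, Metric.eventually_nhds_iff] at h2
  obtain ⟨δ, hδ, h3⟩ := h2
  refine ⟨δ, hδ, fun t ht ht' => ⟨?_, ?_⟩⟩
  · have h4 := h3 (y := t) (by rw [Real.dist_eq, sub_zero, abs_of_pos ht]; exact ht') ht.ne'
    rw [smul_eq_mul] at h4
    have h5 := (mul_pos_iff_of_pos_left (inv_pos.2 ht)).1 h4
    linarith
  · have h4 := h3 (y := -t) (by rw [Real.dist_eq, sub_zero, abs_neg, abs_of_pos ht]; exact ht')
      (neg_ne_zero.2 ht.ne')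
    rw [smul_eq_mul, ← sub_eq_add_neg] at h4
    have h6 : (-t)⁻¹ < 0 := inv_neg''.2 (by linarith)
    have h5 : φ (x - t) - φ x < 0 := by
      by_contra hcon
      have h7 := mul_nonpos_of_nonpos_of_nonneg h6.le (not_lt.1 hcon)
      linarith
    linarith

theorem d1_neg {φ : ℝ → ℝ} {φ' x : ℝ} (h : HasDerivAt φ φ' x) (hp : φ' < 0) :
    ∃ δ > 0, ∀ t, 0 < t → t < δ → φ (x + t) < φ x ∧ φ x < φ (x - t) := by
  obtain ⟨δ, hδ, h1⟩ := d1_pos h.neg (neg_pos.2 hp)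
  refine ⟨δ, hδ, fun t ht ht' => ?_⟩
  obtain ⟨h2, h3⟩ := h1 t ht ht'
  simp only [Pi.neg_apply] at h2 h3
  exact ⟨by linarith, by linarith⟩

theorem d1_deriv {b₁ b₂ r : ℝ} {f : ℂ → ℂ} (h : Sol2 b₁ b₂ r f) {x : ℝ} (hx : |x| < r) :
    HasDerivAt (fun y : ℝ => (f y).re) (deriv f x).re x ∧ (deriv f x).im = 0 := by
  have hm : (x : ℂ) ∈ ball (0 : ℂ) r := by
    rw [mem_ball_zero_iff, Complex.norm_real]
    exact hx
  have h1 : HasDerivAt f (deriv f x) x :=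
    (h.diff.differentiableAt (isOpen_ball.mem_nhds hm)).hasDerivAt
  have h2 : HasDerivAt (fun y : ℝ => (f y).re) (deriv f x).re x := h1.real_of_complex
  refine ⟨h2, ?_⟩
  have h3 : HasDerivAt (fun y : ℝ => f y) (deriv f x) x := h1.comp_ofReal
  have h4 : HasDerivAt (fun y : ℝ => ((f y).re : ℂ)) ((deriv f x).re : ℂ) x := h2.ofReal_comp
  have h5 : (fun y : ℝ => f y) =ᶠ[𝓝 x] fun y : ℝ => ((f y).re : ℂ) := by
    have h6 : ∀ᶠ y : ℝ in 𝓝 x, |y| < r := (continuous_abs.tendsto x).eventually_lt_const hx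
    filter_upwards [h6] with y hy using d1_ofReal h hy
  have h7 := h3.unique (h4.congr_of_eventuallyEq h5)
  rw [h7, Complex.ofReal_im]

theorem d1_core {b₁ b₂ r : ℝ} {φ : ℝ → ℝ} (h0 : 0 < b₁) (h1 : b₁ < b₂) (h2 : b₂ < r)
    (hc : ContinuousOn φ (Ioo (-r) r)) (hz : ∀ x, -r < x → x < r → φ x = 0 → x = 0)
    (ho : ∀ x, -r < x → x < r → φ x = 1 → x = b₁ ∨ x = b₂) (p0 : φ 0 = 0) (p1 : φ b₁ = 1)
    (p2 : φ b₂ = 1) {d0 d1 d2 : ℝ} (hd0 : HasDerivAt φ d0 0) (hd1 : HasDerivAt φ d1 b₁)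
    (hd2 : HasDerivAt φ d2 b₂) (n0 : d0 ≠ 0) (n1 : d1 ≠ 0) (n2 : d2 ≠ 0) :
    ((∀ x : ℝ, -r < x → x < 0 → φ x < 0) ∧
    (∀ x : ℝ, 0 < x → x < b₁ → 0 < φ x ∧ φ x < 1) ∧
    (∀ x : ℝ, b₁ < x → x < b₂ → 1 < φ x) ∧
    (∀ x : ℝ, b₂ < x → x < r → 0 < φ x ∧ φ x < 1)) ∧ 0 < d0 ∧ 0 < d1 ∧ d2 < 0 := by
  have hcc : ∀ a b, -r < a → b < r → ContinuousOn φ (Icc a b) := fun a b ha hb =>
    hc.mono fun y hy => ⟨ha.trans_le hy.1, hy.2.trans_lt hb⟩
  have up : ∀ a b c, -r < a → a ≤ b → b < r → φ a ≤ c → c ≤ φ b → ∃ y, a ≤ y ∧ y ≤ b ∧ φ y = c := by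
    intro a b c ha hab hb h3 h4
    obtain ⟨y, hy, hy'⟩ := intermediate_value_Icc hab (hcc a b ha hb) ⟨h3, h4⟩
    exact ⟨y, hy.1, hy.2, hy'⟩
  have dn : ∀ a b c, -r < a → a ≤ b → b < r → φ b ≤ c → c ≤ φ a → ∃ y, a ≤ y ∧ y ≤ b ∧ φ y = c := by
    intro a b c ha hab hb h3 h4
    obtain ⟨y, hy, hy'⟩ := intermediate_value_Icc' hab (hcc a b ha hb) ⟨h3, h4⟩
    exact ⟨y, hy.1, hy.2, hy'⟩
  have A : ∀ x : ℝ, 0 < x → x < b₁ → 0 < φ x ∧ φ x < 1 := by
    intro x hx hx'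
    constructor
    · by_contra hcon
      obtain ⟨y, y1, y2, y3⟩ := up x b₁ 0 (by linarith) hx'.le (by linarith) (not_lt.1 hcon)
        (by rw [p1]; exact zero_le_one)
      have := hz y (by linarith) (by linarith) y3
      linarith
    · by_contra hcon
      obtain ⟨y, y1, y2, y3⟩ := up 0 x 1 (by linarith) hx.le (by linarith)
        (by rw [p0]; exact zero_le_one) (not_lt.1 hcon)
      rcases ho y (by linarith) (by linarith) y3 with h | h <;> linarith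
  have D0 : 0 < d0 := by
    by_contra hcon
    obtain ⟨δ, hδ, h3⟩ := d1_neg hd0 (lt_of_le_of_ne (not_lt.1 hcon) n0)
    have ht : 0 < min (δ / 2) (b₁ / 2) := lt_min (by linarith) (by linarith)
    have h4 := (h3 _ ht (by linarith [min_le_left (δ / 2) (b₁ / 2)])).1
    rw [p0, zero_add] at h4
    have h5 := (A _ ht (by linarith [min_le_right (δ / 2) (b₁ / 2)])).1
    linarith
  have D1 : 0 < d1 := by
    by_contra hcon
    obtain ⟨δ, hδ, h3⟩ := d1_neg hd1 (lt_of_le_of_ne (not_lt.1 hcon) n1)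
    have ht : 0 < min (δ / 2) (b₁ / 2) := lt_min (by linarith) (by linarith)
    have h4 := (h3 _ ht (by linarith [min_le_left (δ / 2) (b₁ / 2)])).2
    rw [p1] at h4
    have h5 := (A (b₁ - min (δ / 2) (b₁ / 2))
      (by linarith [min_le_right (δ / 2) (b₁ / 2)]) (by linarith)).2
    linarith
  have B : ∀ x : ℝ, b₁ < x → x < b₂ → 1 < φ x := by
    intro x hx hx'
    by_contra hcon
    obtain ⟨δ, hδ, h3⟩ := d1_pos hd1 D1
    have ht : 0 < min (δ / 2) ((x - b₁) / 2) := lt_min (by linarith) (by linarith)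
    have h6 := min_le_right (δ / 2) ((x - b₁) / 2)
    have h4 := (h3 _ ht (by linarith [min_le_left (δ / 2) ((x - b₁) / 2)])).1
    rw [p1] at h4
    obtain ⟨y, y1, y2, y3⟩ := dn (b₁ + min (δ / 2) ((x - b₁) / 2)) x 1 (by linarith) (by linarith)
      (by linarith) (not_lt.1 hcon) h4.le
    rcases ho y (by linarith) (by linarith) y3 with h | h <;> linarith
  have D2 : d2 < 0 := by
    by_contra hcon
    obtain ⟨δ, hδ, h3⟩ := d1_pos hd2 (lt_of_le_of_ne (not_lt.1 hcon) n2.symm)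
    have ht : 0 < min (δ / 2) ((b₂ - b₁) / 2) := lt_min (by linarith) (by linarith)
    have h6 := min_le_right (δ / 2) ((b₂ - b₁) / 2)
    have h4 := (h3 _ ht (by linarith [min_le_left (δ / 2) ((b₂ - b₁) / 2)])).2
    rw [p2] at h4
    have h5 := B (b₂ - min (δ / 2) ((b₂ - b₁) / 2)) (by linarith) (by linarith)
    linarith
  refine ⟨⟨?_, A, B, ?_⟩, D0, D1, D2⟩
  · intro x hx hx'
    by_contra hcon
    obtain ⟨δ, hδ, h3⟩ := d1_pos hd0 D0
    have ht : 0 < min (δ / 2) ((-x) / 2) := lt_min (by linarith) (by linarith)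
    have h6 := min_le_right (δ / 2) ((-x) / 2)
    have h4 := (h3 _ ht (by linarith [min_le_left (δ / 2) ((-x) / 2)])).2
    rw [p0, zero_sub] at h4
    obtain ⟨y, y1, y2, y3⟩ := dn x (-min (δ / 2) ((-x) / 2)) 0 hx (by linarith)
      (by linarith) h4.le (not_lt.1 hcon)
    have := hz y (by linarith) (by linarith) y3
    linarith
  · intro x hx hx'
    constructor
    · by_contra hcon
      obtain ⟨y, y1, y2, y3⟩ := dn b₂ x 0 (by linarith) hx.le hx' (not_lt.1 hcon)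
        (by rw [p2]; exact zero_le_one)
      have := hz y (by linarith) (by linarith) y3
      linarith
    · by_contra hcon
      obtain ⟨δ, hδ, h3⟩ := d1_neg hd2 D2
      have ht : 0 < min (δ / 2) ((x - b₂) / 2) := lt_min (by linarith) (by linarith)
      have h6 := min_le_right (δ / 2) ((x - b₂) / 2)
      have h4 := (h3 _ ht (by linarith [min_le_left (δ / 2) ((x - b₂) / 2)])).1
      rw [p2] at h4
      obtain ⟨y, y1, y2, y3⟩ := up (b₂ + min (δ / 2) ((x - b₂) / 2)) x 1 (by linarith) (by linarith)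
        hx' h4.le (not_lt.1 hcon)
      rcases ho y (by linarith) (by linarith) y3 with h | h <;> linarith

theorem d1_all {b₁ b₂ r : ℝ} {f : ℂ → ℂ} (h : Sol2 b₁ b₂ r f) :
    ((∀ x : ℝ, -r < x → x < 0 → (f x).re < 0) ∧
    (∀ x : ℝ, 0 < x → x < b₁ → 0 < (f x).re ∧ (f x).re < 1) ∧
    (∀ x : ℝ, b₁ < x → x < b₂ → 1 < (f x).re) ∧
    (∀ x : ℝ, b₂ < x → x < r → 0 < (f x).re ∧ (f x).re < 1)) ∧
    0 < (deriv f (0 : ℝ)).re ∧ 0 < (deriv f (b₁ : ℝ)).re ∧ (deriv f (b₂ : ℝ)).re < 0 := by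
  have hr := h.one_lt
  have h0 := h.b1_pos
  have h1 := h.b_lt
  have h2 := h.b2_lt
  have hmem : ∀ x : ℝ, |x| < r → (x : ℂ) ∈ ball (0 : ℂ) r := by
    intro x hx
    rw [mem_ball_zero_iff, Complex.norm_real]
    exact hx
  have a0 : |(0 : ℝ)| < r := by rw [abs_zero]; linarith
  have a1 : |b₁| < r := by rw [abs_of_pos h0]; linarith
  have a2 : |b₂| < r := by rw [abs_of_pos (h0.trans h1)]; linarith
  have hne : ∀ x : ℝ, |x| < r → deriv f x ≠ 0 → (deriv f x).re ≠ 0 := by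
    intro x hx hd h3
    exact hd (Complex.ext h3 (d1_deriv h hx).2)
  refine d1_core (φ := fun x : ℝ => (f x).re) h0 h1 (by linarith) ?_ ?_ ?_ ?_ ?_ ?_ (d1_deriv h a0).1 (d1_deriv h a1).1
    (d1_deriv h a2).1 (hne _ a0 ?_) (hne _ a1 h.deriv_b1) (hne _ a2 h.deriv_b2)
  · refine Complex.continuous_re.comp_continuousOn (h.diff.continuousOn.comp
      Complex.continuous_ofReal.continuousOn fun x hx => hmem x (abs_lt.2 hx))
  · intro x x1 x2 h3
    have hx : |x| < r := abs_lt.2 ⟨x1, x2⟩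
    have h4 : f x = 0 := by
      rw [d1_ofReal h hx]
      replace h3 : (f (x : ℂ)).re = _ := h3
      rw [h3, Complex.ofReal_zero]
    have h5 := (h.zero x (hmem x hx)).1 h4
    exact_mod_cast h5
  · intro x x1 x2 h3
    have hx : |x| < r := abs_lt.2 ⟨x1, x2⟩
    have h4 : f x = 1 := by
      rw [d1_ofReal h hx]
      replace h3 : (f (x : ℂ)).re = _ := h3
      rw [h3, Complex.ofReal_one]
    have h5 := (h.one x (hmem x hx)).1 h4
    rcases h5 with h5 | h5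
    · left; exact_mod_cast h5
    · right; exact_mod_cast h5
  · rw [(h.zero _ (hmem 0 a0)).2 Complex.ofReal_zero, Complex.zero_re]
  · rw [(h.one _ (hmem b₁ a1)).2 (Or.inl rfl), Complex.one_re]
  · rw [(h.one _ (hmem b₂ a2)).2 (Or.inr rfl), Complex.one_re]
  · rw [Complex.ofReal_zero]
    exact h.deriv_zero

theorem sol2_sign {b₁ b₂ r : ℝ} {f : ℂ → ℂ} (h : Sol2 b₁ b₂ r f) :
    (∀ x : ℝ, |x| < r → (f x).im = 0) ∧
    (∀ x : ℝ, -r < x → x < 0 → (f x).re < 0) ∧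
    (∀ x : ℝ, 0 < x → x < b₁ → 0 < (f x).re ∧ (f x).re < 1) ∧
    (∀ x : ℝ, b₁ < x → x < b₂ → 1 < (f x).re) ∧
    (∀ x : ℝ, b₂ < x → x < r → 0 < (f x).re ∧ (f x).re < 1) :=
  ⟨fun _ hx => d1_im h hx, (d1_all h).1⟩

theorem sol2_deriv {b₁ b₂ r : ℝ} {f : ℂ → ℂ} (h : Sol2 b₁ b₂ r f) :
    ((deriv f 0).im = 0 ∧ 0 < (deriv f 0).re) ∧
    ((deriv f b₁).im = 0 ∧ 0 < (deriv f b₁).re) ∧
    ((deriv f b₂).im = 0 ∧ (deriv f b₂).re < 0) := by
  obtain ⟨-, h3, h4, h5⟩ := d1_all h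
  have hr := h.one_lt
  have h0 := h.b1_pos
  have h1 := h.b_lt
  have h2 := h.b2_lt
  have a0 : |(0 : ℝ)| < r := by rw [abs_zero]; linarith
  have a1 : |b₁| < r := by rw [abs_of_pos h0]; linarith
  have a2 : |b₂| < r := by rw [abs_of_pos (h0.trans h1)]; linarith
  have h6 := (d1_deriv h a0).2
  rw [Complex.ofReal_zero] at h3 h6
  exact ⟨⟨h6, h3⟩, ⟨(d1_deriv h a1).2, h4⟩, ⟨(d1_deriv h a2).2, h5⟩⟩

end Pool.Agent.Choc
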