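import Pool.Agent.Lib.MP_2b3e36_an.Re.Defs3
import Pool.Agent.Lib.MP_2b3e36_an.Ex.L4
import Pool.Agent.Lib.MP_2b3e36_an.Ex.T5

/-!
D2. Real lifts (compare C2).

Proof. `lift_exists` gives `G` on `Ω` with `‖G‖ < 1`, `J (G z) = F z`, `G c = 0`. `z ↦ conj (G (conj z))` is
another lift (`J_conj`, `hs`, `hreal`), equal to `G` by `lift_unique`. If `G z = 0` then `F z = J 0 = 1` (`J_zero`), so
`z = c`. `der`: `lift_deriv`. `sgn`: at a real `x ∈ Ω`, `G x = conj (G x)` is a real number `t`, `|t| < 1`,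
`J t = F x`. If `(F x).re < 1`: `t ≠ 0` (`J 0 = 1`) and not `t < 0` (`J_Ioo_neg` gives real part `> 1`), so `t > 0`.
If `(F x).re > 1`: `t ≠ 0`, not `t > 0` (`J_Ioo`), so `t < 0`.
-/

set_option autoImplicit false

open Complex Set Filter Topology Metric

namespace Pool.Agent.Choc

theorem rlift_exists {Ω : Set ℂ} (hc : Convex ℝ Ω) (ho : IsOpen Ω)
    (hs : ∀ z ∈ Ω, starRingEnd ℂ z ∈ Ω) {c : ℝ} (hcΩ : (c : ℂ) ∈ Ω) {F : ℂ → ℂ}
    (hF : DifferentiableOn ℂ F Ω)
    (hreal : ∀ z ∈ Ω, F (starRingEnd ℂ z) = starRingEnd ℂ (F z))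
    (h0 : ∀ z ∈ Ω, F z ≠ 0) (h1 : ∀ z ∈ Ω, F z = 1 ↔ z = c) :
    ∃ G : ℂ → ℂ, RLift Ω c F G := by
  obtain ⟨G, hp1, hp2, hp3⟩ := lift_exists hc ho hcΩ hF h0 h1
  have hGr : ∀ z ∈ Ω, G (starRingEnd ℂ z) = starRingEnd ℂ (G z) := by
    have hqd : DifferentiableOn ℂ (fun z => starRingEnd ℂ (G (starRingEnd ℂ z))) Ω := by
      intro z hz
      have h3 : DifferentiableAt ℂ G (starRingEnd ℂ z) :=
        hp1.differentiableAt (ho.mem_nhds (hs z hz))
      have h4 := h3.conj_conj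
      rw [Complex.conj_conj] at h4
      exact h4.differentiableWithinAt
    have h3 := lift_unique ho hc.isPreconnected hcΩ hp1 hqd (fun z hz => (hp2 z hz).1)
      (fun z hz => by
        rw [Complex.norm_conj]
        exact (hp2 _ (hs z hz)).1)
      (fun z hz => by
        rw [J_conj, (hp2 _ (hs z hz)).2, (hp2 z hz).2, hreal z hz, Complex.conj_conj])
      hp3 (by simp [hp3])
    intro z hz
    rw [h3 z hz, Complex.conj_conj]
  have hzero : ∀ z ∈ Ω, G z = 0 ↔ z = c := by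
    intro z hz
    constructor
    · intro h3
      have h4 := (hp2 z hz).2
      rw [h3, J_zero] at h4
      exact (h1 z hz).1 h4.symm
    · intro h3
      rw [h3, hp3]
  refine ⟨G, ⟨hp1, fun z hz => (hp2 z hz).1, fun z hz => (hp2 z hz).2, hGr, hzero,
    lift_deriv ho hcΩ hp1 (fun z hz => (hp2 z hz).1) (fun z hz => (hp2 z hz).2) hp3, ?_⟩⟩
  intro x hx
  have him : (G x).im = 0 := by
    have h3 := hGr x hx
    rw [Complex.conj_ofReal] at h3
    have h4 := congrArg Complex.im h3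
    rw [Complex.conj_im] at h4
    linarith
  obtain ⟨t, ht⟩ : ∃ t : ℝ, G x = t := ⟨(G x).re, Complex.ext rfl (by rw [him, Complex.ofReal_im])⟩
  have hlt : |t| < 1 := by
    have h3 := (hp2 x hx).1
    rw [ht, Complex.norm_real] at h3
    exact h3
  have hJ : J t = F x := by
    rw [← ht]
    exact (hp2 x hx).2
  obtain ⟨hl1, hl2⟩ := abs_lt.1 hlt
  refine ⟨him, fun h3 => ?_, fun h3 => ?_⟩
  · rw [ht, Complex.ofReal_re]
    rcases lt_trichotomy t 0 with h4 | h4 | h4
    · have h5 := (J_Ioo_neg hl1 h4).2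
      rw [hJ] at h5
      linarith
    · rw [h4, Complex.ofReal_zero, J_zero] at hJ
      rw [← hJ, Complex.one_re] at h3
      exact absurd h3 (lt_irrefl _)
    · exact h4
  · rw [ht, Complex.ofReal_re]
    rcases lt_trichotomy t 0 with h4 | h4 | h4
    · exact h4
    · rw [h4, Complex.ofReal_zero, J_zero] at hJ
      rw [← hJ, Complex.one_re] at h3
      exact absurd h3 (lt_irrefl _)
    · have h5 := (J_Ioo h4 hl2).2.2
      rw [hJ] at h5
      linarith

end Pool.Agent.Choc
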