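import Pool.Agent.Lib.MP_2b3e36_an.Re.Defs3
import Pool.Agent.Lib.MP_2b3e36_an.Ex.C4

/-!
D3. The logarithm of a real function with one simple zero, on the upper half of its domain.

Proof. (1) `near`: `G` is real on the reals and `G' c > 0`, so on a small ball `Re G' > 0`; for `z = x + iy`,
`y > 0`, in this ball `Im G z = Im (G z - G x) = ∫_0^y Re G' (x+is) ds > 0` (or: `s ↦ Im G (x+is)` is strictly
increasing; compare `c4_im_pos` in C4, which uses the strict derivative at the point). So `log (G z)` is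
holomorphic on the upper half of the ball.
(2) `Ω ∩ UH` is convex, open, contains points near `c`; `G ≠ 0` there; `exists_log` (L0) at a point `z₀` of the
small half ball with the value `log (G z₀)` gives `l` with `exp l = G`. On the small half ball (convex)
`l - log G` is continuous with values in `2 pi i ℤ`, so constant, `= 0` (the logarithm is unique: its
derivative `G'/G` is the same for both).
(3) `right`: for real `x > c` in `Ω`: `(G x).re > 0` (no zeros on the interval `(c, x] ⊆ Ω`, positive near `c` because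
`G' c > 0`). `Ω⁺ = Ω ∩ {Re z > c}` is convex and open, `G ≠ 0` on it. Let `x₀ ∈ (c, x]` be real in the small ball of
(1). `exists_log` on `Ω⁺` at `x₀` with the value `log (G x₀)` (a real number) gives `m`. On the reals of `Ω⁺`:
`exp (m u) = G u > 0`, so `(m u).im ∈ 2 pi ℤ`, continuous on an interval, `0` at `x₀`: it is `0`. Near `x₀`
`m = log ∘ G` (both logarithms of `G`, `G x₀ > 0` is in the slit plane, same value at `x₀`), and `l = log ∘ G` on
the upper part; so `l = m` on an open subset of `Ω⁺ ∩ UH` (convex), so on `Ω⁺ ∩ UH` (identity theorem).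
(4) `left`: `G x < 0` for real `x < c` in `Ω`. On `Ω⁻ = Ω ∩ {Re z < c}` take `m = m' + pi i` with `m'` the logarithm
of `-G` that is real on the reals (as in (3)). Near a real `x₀` of the small ball, `x₀ < c`: for `Im G z > 0`
`log (G z) = log (- G z) + pi i` (`Im (-G z) < 0`), so `l = m` on the upper part.
-/

set_option autoImplicit false

open Complex Set Filter Topology Metric

namespace Pool.Agent.Choc

theorem d3_im_pos {Ω : Set ℂ} (ho : IsOpen Ω) {c : ℝ} (hcΩ : (c : ℂ) ∈ Ω)
    {G : ℂ → ℂ} (hG : DifferentiableOn ℂ G Ω) (hreal : ∀ x : ℝ, (x : ℂ) ∈ Ω → (G x).im = 0)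
    (hd : 0 < (deriv G c).re) (hd' : (deriv G c).im = 0) :
    ∃ ε > 0, ball (c : ℂ) ε ⊆ Ω ∧ ∀ z ∈ ball (c : ℂ) ε, 0 < z.im → 0 < (G z).im := by
  have ha : AnalyticAt ℂ G c := hG.analyticAt (ho.mem_nhds hcΩ)
  have hs : HasStrictDerivAt G (deriv G c) c := ha.hasStrictDerivAt
  obtain ⟨κ, hκ⟩ : ∃ κ : ℝ, κ = (deriv G c).re := ⟨_, rfl⟩
  have hκ0 : 0 < κ := by rw [hκ]; exact hd
  have he : deriv G c = (κ : ℂ) := by
    apply Complex.ext
    · simp [hκ]
    · simp [hd']
  rw [he] at hs
  have hb := hs.hasStrictFDerivAt.isLittleO.def (c := κ / 2) (by positivity)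
  obtain ⟨ε, hε, H⟩ := Metric.eventually_nhds_iff.1 hb
  obtain ⟨ε', hε', H'⟩ := Metric.isOpen_iff.1 ho c hcΩ
  refine ⟨min ε ε', lt_min hε hε', (ball_subset_ball (min_le_right _ _)).trans H', ?_⟩
  intro z hz him
  have hz1 : dist z c < ε := lt_of_lt_of_le hz (min_le_left _ _)
  have hz2 : dist z c < ε' := lt_of_lt_of_le hz (min_le_right _ _)
  have hre : dist (z.re : ℂ) c ≤ dist z c := by
    rw [dist_eq_norm, dist_eq_norm, ← Complex.ofReal_sub, Complex.norm_real]
    have h1 := Complex.abs_re_le_norm (z - c)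
    rwa [Complex.sub_re, Complex.ofReal_re] at h1
  have hd : dist ((z, (z.re : ℂ)) : ℂ × ℂ) ((c : ℂ), (c : ℂ)) < ε := by
    rw [Prod.dist_eq]
    exact max_lt hz1 (hre.trans_lt hz1)
  have H1 := H hd
  have hr0 : (G (z.re : ℂ)).im = 0 := hreal _ (H' (hre.trans_lt hz2))
  have e1 : z - (z.re : ℂ) = (z.im : ℂ) * I := by
    apply Complex.ext <;> simp
  have H2 : ‖G z - G (z.re : ℂ) - (z - (z.re : ℂ)) * (κ : ℂ)‖ ≤ κ / 2 * ‖z - (z.re : ℂ)‖ := by
    simpa using H1
  rw [e1] at H2
  have H3 : ‖(z.im : ℂ) * I‖ = z.im := by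
    rw [norm_mul, Complex.norm_I, mul_one, Complex.norm_real, Real.norm_of_nonneg him.le]
  rw [H3] at H2
  have H4 := (Complex.abs_im_le_norm _).trans H2
  have e2 : (G z - G (z.re : ℂ) - (z.im : ℂ) * I * (κ : ℂ)).im = (G z).im - z.im * κ := by
    simp [hr0]
  rw [e2] at H4
  have H5 := (abs_le.1 H4).1
  nlinarith

theorem d3_const {g : ℝ → ℝ} (hg : ContinuousOn g (Icc 0 1)) (h0 : g 0 = 0)
    (hs : ∀ t ∈ Icc (0 : ℝ) 1, Real.sin (g t) = 0) : g 1 = 0 := by
  have hpi := Real.pi_gt_three
  by_contra hcon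
  rcases lt_or_gt_of_ne hcon with h | h
  · have h1 := intermediate_value_Icc' zero_le_one hg
    have h2 : max (g 1) (-1) ∈ Icc (g 1) (g 0) := by
      rw [h0]
      exact ⟨le_max_left _ _, max_le h.le (by norm_num)⟩
    obtain ⟨t, ht, ht'⟩ := h1 h2
    have h3 := hs t ht
    rw [ht'] at h3
    have h4 := Real.sin_neg_of_neg_of_neg_pi_lt (x := max (g 1) (-1))
      (max_lt h (by norm_num)) (by
        have := le_max_right (g 1) (-1)
        linarith)
    linarith
  · have h1 := intermediate_value_Icc zero_le_one hg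
    have h2 : min (g 1) 1 ∈ Icc (g 0) (g 1) := by
      rw [h0]
      exact ⟨le_min h.le zero_le_one, min_le_left _ _⟩
    obtain ⟨t, ht, ht'⟩ := h1 h2
    have h3 := hs t ht
    rw [ht'] at h3
    have h4 := Real.sin_pos_of_pos_of_lt_pi (x := min (g 1) 1)
      (lt_min h zero_lt_one) (by
        have := min_le_right (g 1) 1
        linarith)
    linarith

/-- the part of the logarithm without the zero -/
theorem d3_log {Ω : Set ℂ} (hc : Convex ℝ Ω) (ho : IsOpen Ω) {c : ℝ} (hcΩ : (c : ℂ) ∈ Ω)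
    {G : ℂ → ℂ} (hG : DifferentiableOn ℂ G Ω)
    (hreal : ∀ x : ℝ, (x : ℂ) ∈ Ω → (G x).im = 0)
    (hz : ∀ z ∈ Ω, G z = 0 ↔ z = c) (hd : 0 < (deriv G c).re) (hd' : (deriv G c).im = 0) :
    ∃ k : ℂ → ℂ, DifferentiableOn ℂ k Ω ∧ (∀ z ∈ Ω, (z - c) * exp (k z) = G z) ∧
      ∀ x : ℝ, (x : ℂ) ∈ Ω → (k x).im = 0 := by
  have hK : DifferentiableOn ℂ (dslope G c) Ω :=
    (Complex.differentiableOn_dslope (ho.mem_nhds hcΩ)).2 hG
  have hGc : G c = 0 := (hz c hcΩ).2 rfl
  have hKne : ∀ z : ℂ, z ≠ c → dslope G c z = G z / (z - c) := by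
    intro z h
    rw [dslope_of_ne _ h, slope_def_field, hGc, sub_zero]
  have hKc : dslope G c c = ((deriv G c).re : ℂ) := by
    rw [dslope_same]
    apply Complex.ext
    · rw [Complex.ofReal_re]
    · rw [Complex.ofReal_im, hd']
  have hKG : ∀ z : ℂ, (z - c) * dslope G c z = G z := by
    intro z
    by_cases h : z = c
    · rw [h, sub_self, zero_mul, hGc]
    · rw [hKne z h, mul_div_cancel₀ _ (sub_ne_zero.2 h)]
  have hK0 : ∀ z ∈ Ω, dslope G c z ≠ 0 := by
    intro z hzΩ h
    have h1 := hKG z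
    rw [h, mul_zero] at h1
    have h2 := (hz z hzΩ).1 h1.symm
    rw [h2, hKc] at h
    exact hd.ne' (by exact_mod_cast h)
  have hKr : ∀ x : ℝ, (x : ℂ) ∈ Ω → (dslope G c x).im = 0 := by
    intro x hx
    by_cases h : (x : ℂ) = c
    · rw [h, hKc, Complex.ofReal_im]
    · have h1 : G x = ((G x).re : ℂ) := by
        apply Complex.ext
        · rw [Complex.ofReal_re]
        · rw [Complex.ofReal_im]
          exact hreal x hx
      rw [hKne _ h, h1, ← Complex.ofReal_sub, ← Complex.ofReal_div, Complex.ofReal_im]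
  obtain ⟨k, hk1, hk2, hk3⟩ := exists_log ho hcΩ (hc.starConvex hcΩ) hK hK0
    (c := ((Real.log (deriv G c).re : ℝ) : ℂ)) (by rw [← Complex.ofReal_exp, Real.exp_log hd, hKc])
  refine ⟨k, hk1, fun z hzΩ => by rw [hk2 z hzΩ, hKG], fun x hx => ?_⟩
  have hseg : ∀ t ∈ Icc (0 : ℝ) 1, (((1 - t) * c + t * x : ℝ) : ℂ) ∈ Ω := by
    intro t ht
    have h1 := hc hcΩ hx (sub_nonneg.2 ht.2) ht.1 (sub_add_cancel 1 t)
    have h2 : (1 - t) • (c : ℂ) + t • (x : ℂ) = (((1 - t) * c + t * x : ℝ) : ℂ) := by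
      rw [Complex.real_smul, Complex.real_smul]
      push_cast
      ring
    rwa [h2] at h1
  have h1 := d3_const (g := fun t : ℝ => (k (((1 - t) * c + t * x : ℝ) : ℂ)).im) ?_ ?_ ?_
  · simpa using h1
  · refine Complex.continuous_im.comp_continuousOn (hk1.continuousOn.comp ?_ hseg)
    exact (Complex.continuous_ofReal.comp (by fun_prop)).continuousOn
  · simp only [sub_zero, one_mul, zero_mul, add_zero]
    rw [hk3, Complex.ofReal_im]
  · intro t ht
    have h2 := hk2 _ (hseg t ht)
    have h3 := hKr _ (hseg t ht)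
    rw [← h2, Complex.exp_im] at h3
    exact (mul_eq_zero.1 h3).resolve_left (Real.exp_pos _).ne'

theorem d3_left {w : ℂ} (h1 : 0 < w.re) (h2 : w.im < 0) : log (-w) = log w + Real.pi * I := by
  have h0 : w ≠ 0 := by
    intro h
    rw [h, Complex.zero_re] at h1
    exact lt_irrefl _ h1
  have h3 : exp (log w + Real.pi * I) = -w := by
    rw [exp_add, exp_log h0, exp_pi_mul_I, mul_neg_one]
  have h4 : (log w + Real.pi * I).im = arg w + Real.pi := by
    rw [Complex.add_im, Complex.log_im, Complex.im_ofReal_mul, Complex.I_im, mul_one]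
  have h5 : arg w < 0 := Complex.arg_neg_iff.2 h2
  have h6 := Complex.neg_pi_lt_arg w
  have h7 := Real.pi_pos
  rw [← h3, Complex.log_exp]
  · rw [h4]; linarith
  · rw [h4]; linarith

theorem llift_exists {Ω : Set ℂ} (hc : Convex ℝ Ω) (ho : IsOpen Ω) {c : ℝ} (hcΩ : (c : ℂ) ∈ Ω)
    {G : ℂ → ℂ} (hG : DifferentiableOn ℂ G Ω)
    (hreal : ∀ x : ℝ, (x : ℂ) ∈ Ω → (G x).im = 0)
    (hz : ∀ z ∈ Ω, G z = 0 ↔ z = c) (hd : 0 < (deriv G c).re) (hd' : (deriv G c).im = 0) :
    ∃ l : ℂ → ℂ, LLift Ω c G l := by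
  obtain ⟨k, hk1, hk2, hk3⟩ := d3_log hc ho hcΩ hG hreal hz hd hd'
  obtain ⟨ρ₁, hρ₁, hρ₁', him⟩ := d3_im_pos ho hcΩ hG hreal hd hd'
  have hkd : ∀ z ∈ Ω, DifferentiableAt ℂ k z := fun z hzΩ =>
    hk1.differentiableAt (ho.mem_nhds hzΩ)
  have hne : ∀ z : ℂ, z - c ∈ slitPlane → exp (log (z - c) + k z) = (z - c) * exp (k z) := by
    intro z h
    rw [exp_add, exp_log (slitPlane_ne_zero h)]
  have hup : ∀ z : ℂ, 0 < z.im → z - c ∈ slitPlane := by
    intro z h
    rw [Complex.mem_slitPlane_iff]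
    right
    rw [Complex.sub_im, Complex.ofReal_im, sub_zero]
    exact h.ne'
  refine ⟨fun z => log (z - c) + k z, ?_, ?_, ?_, ?_, ?_⟩
  · intro z hzz
    refine DifferentiableAt.differentiableWithinAt ?_
    exact ((differentiableAt_id.sub_const _).clog (hup z hzz.2)).add (hkd z hzz.1)
  · intro z hzz
    rw [hne z (hup z hzz.2), hk2 z hzz.1]
  · have h1 : ∀ᶠ z in 𝓝 (c : ℂ), |(k z).im| < 1 := by
      have h2 : ContinuousAt (fun z => |(k z).im|) (c : ℂ) :=
        (Complex.continuous_im.continuousAt.comp (hkd _ hcΩ).continuousAt).abs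
      have h3 : |(k c).im| < 1 := by
        rw [hk3 c hcΩ, abs_zero]
        exact one_pos
      exact h2.eventually_lt_const h3
    obtain ⟨ρ₂, hρ₂, h2⟩ := Metric.eventually_nhds_iff.1 h1
    refine ⟨min ρ₁ ρ₂, lt_min hρ₁ hρ₂, (ball_subset_ball (min_le_left _ _)).trans hρ₁', ?_⟩
    intro z hzb hzi
    have hz1 : z ∈ ball (c : ℂ) ρ₁ := ball_subset_ball (min_le_left _ _) hzb
    have hz2 := abs_lt.1 (h2 (y := z) (lt_of_lt_of_le hzb (min_le_right _ _)))
    have h3 := him z hz1 hzi
    refine ⟨h3, ?_⟩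
    have h4 : exp (log (z - c) + k z) = G z := by
      rw [hne z (hup z hzi), hk2 z (hρ₁' hz1)]
    have h5 : (log (z - c) + k z).im = arg (z - c) + (k z).im := by
      rw [Complex.add_im, Complex.log_im]
    have h6 : 0 ≤ arg (z - c) := by
      rw [Complex.arg_nonneg_iff, Complex.sub_im, Complex.ofReal_im, sub_zero]
      exact hzi.le
    have h7 := Complex.arg_le_pi (z - c)
    have hpi := Real.pi_gt_three
    rw [← h4, Complex.exp_im] at h3
    have h8 := (mul_pos_iff_of_pos_left (Real.exp_pos _)).1 h3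
    rw [← h4, Complex.log_exp]
    · rw [h5]; linarith
    · by_contra hcon
      have h9 : 0 < Real.sin ((log (z - c) + k z).im - Real.pi) :=
        Real.sin_pos_of_pos_of_lt_pi (by linarith) (by rw [h5]; linarith)
      rw [Real.sin_sub_pi] at h9
      linarith
  · intro x hx hcx
    obtain ⟨ρ, hρ, hρ'⟩ := Metric.isOpen_iff.1 ho x hx
    have hsl : ∀ z ∈ ball (x : ℂ) (min ρ (x - c)), z - c ∈ slitPlane := by
      intro z hzb
      rw [Complex.mem_slitPlane_iff]
      left
      have h1 := Complex.abs_re_le_norm (z - x)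
      rw [← dist_eq_norm, Complex.sub_re, Complex.ofReal_re] at h1
      have h2 : dist z x < x - c := lt_of_lt_of_le hzb (min_le_right _ _)
      rw [Complex.sub_re, Complex.ofReal_re]
      linarith [(abs_le.1 h1).1]
    refine ⟨min ρ (x - c), lt_min hρ (by linarith),
      (ball_subset_ball (min_le_left _ _)).trans hρ', fun z => log (z - c) + k z, ?_, ?_, ?_, ?_⟩
    · intro z hzb
      refine DifferentiableAt.differentiableWithinAt ?_
      exact ((differentiableAt_id.sub_const _).clog (hsl z hzb)).add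
        (hkd z (hρ' (ball_subset_ball (min_le_left _ _) hzb)))
    · intro z hzb
      change exp (log (z - c) + k z) = G z
      rw [hne z (hsl z hzb), hk2 z (hρ' (ball_subset_ball (min_le_left _ _) hzb))]
    · intro z _ _
      rfl
    · intro u hu
      have h1 : 0 ≤ u - c := by
        have h2 := hsl u hu
        have h3 := Complex.abs_re_le_norm ((u : ℂ) - x)
        rw [← dist_eq_norm, Complex.sub_re, Complex.ofReal_re, Complex.ofReal_re] at h3
        have h4 : dist (u : ℂ) x < x - c := lt_of_lt_of_le hu (min_le_right _ _)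
        linarith [(abs_le.1 h3).1]
      change (log ((u : ℂ) - c) + k u).im = 0
      rw [Complex.add_im, Complex.log_im, ← Complex.ofReal_sub, Complex.arg_ofReal_of_nonneg h1,
        hk3 u (hρ' (ball_subset_ball (min_le_left _ _) hu)), add_zero]
  · intro x hx hcx
    obtain ⟨ρ, hρ, hρ'⟩ := Metric.isOpen_iff.1 ho x hx
    have hre : ∀ z ∈ ball (x : ℂ) (min ρ (c - x)), 0 < ((c : ℂ) - z).re := by
      intro z hzb
      have h1 := Complex.abs_re_le_norm (z - x)
      rw [← dist_eq_norm, Complex.sub_re, Complex.ofReal_re] at h1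
      have h2 : dist z x < c - x := lt_of_lt_of_le hzb (min_le_right _ _)
      rw [Complex.sub_re, Complex.ofReal_re]
      linarith [(abs_le.1 h1).2]
    have hsl : ∀ z ∈ ball (x : ℂ) (min ρ (c - x)), (c : ℂ) - z ∈ slitPlane := fun z hzb =>
      Complex.mem_slitPlane_iff.2 (Or.inl (hre z hzb))
    refine ⟨min ρ (c - x), lt_min hρ (by linarith),
      (ball_subset_ball (min_le_left _ _)).trans hρ',
      fun z => log (c - z) + Real.pi * I + k z, ?_, ?_, ?_, ?_⟩
    · intro z hzb
      refine DifferentiableAt.differentiableWithinAt ?_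
      exact ((((differentiableAt_const _).sub differentiableAt_id).clog (hsl z hzb)).add_const
        _).add (hkd z (hρ' (ball_subset_ball (min_le_left _ _) hzb)))
    · intro z hzb
      change exp (log (c - z) + Real.pi * I + k z) = G z
      rw [exp_add, exp_add, exp_log (slitPlane_ne_zero (hsl z hzb)), exp_pi_mul_I,
        ← hk2 z (hρ' (ball_subset_ball (min_le_left _ _) hzb))]
      ring
    · intro z hzb hzi
      change log (z - c) + k z = log (c - z) + Real.pi * I + k z
      rw [← d3_left (hre z hzb) (by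
        rw [Complex.sub_im, Complex.ofReal_im]
        linarith), neg_sub]
    · intro u hu
      have h1 : 0 ≤ c - u := by
        have h2 := hre u hu
        rw [← Complex.ofReal_sub, Complex.ofReal_re] at h2
        exact h2.le
      change (log ((c : ℂ) - u) + Real.pi * I + k u).im = Real.pi
      rw [Complex.add_im, Complex.add_im, Complex.log_im, ← Complex.ofReal_sub,
        Complex.arg_ofReal_of_nonneg h1,
        hk3 u (hρ' (ball_subset_ball (min_le_left _ _) hu)), Complex.im_ofReal_mul, Complex.I_im]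
      ring

end Pool.Agent.Choc
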