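import Pool.Agent.Lib.MP_2b3e36_an.Re.D1
import Pool.Agent.Lib.MP_2b3e36_an.Re.D2
import Pool.Agent.Lib.MP_2b3e36_an.Re.D3

/-!
D4. The lifts of a solution on the three pieces of the disc.
-/

set_option autoImplicit false

open Complex Set Filter Topology Metric

namespace Pool.Agent.Choc

theorem sl_open (b r : ℝ) : IsOpen (SL b r) :=
  (isOpen_lt continuous_norm continuous_const).inter (isOpen_lt continuous_re continuous_const)

theorem sm_open (b r : ℝ) : IsOpen (SM b r) :=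
  (isOpen_lt continuous_norm continuous_const).inter
    ((isOpen_lt continuous_const continuous_re).inter (isOpen_lt continuous_re continuous_const))

theorem sr_open (b r : ℝ) : IsOpen (SR b r) :=
  (isOpen_lt continuous_norm continuous_const).inter (isOpen_lt continuous_const continuous_re)

theorem d4_ball (r : ℝ) : Convex ℝ {z : ℂ | ‖z‖ < r} := by
  have h : {z : ℂ | ‖z‖ < r} = ball 0 r := by
    ext z
    simp
  rw [h]
  exact convex_ball 0 r

theorem sl_convex (b r : ℝ) : Convex ℝ (SL b r) :=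
  (d4_ball r).inter (convex_halfSpace_re_lt b)

theorem sm_convex (b r : ℝ) : Convex ℝ (SM b r) :=
  (d4_ball r).inter ((convex_halfSpace_re_gt 0).inter (convex_halfSpace_re_lt b))

theorem sr_convex (b r : ℝ) : Convex ℝ (SR b r) :=
  (d4_ball r).inter (convex_halfSpace_re_gt b)

theorem d4_deriv {a b : ℂ} (h : a = -16 * b) : b.re = -a.re / 16 ∧ b.im = -a.im / 16 := by
  have h1 := congrArg re h
  have h2 := congrArg im h
  simp only [mul_re, mul_im, neg_re, neg_im] at h1 h2
  have e1 : (16 : ℂ).re = 16 := rfl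
  have e2 : (16 : ℂ).im = 0 := rfl
  rw [e1, e2] at h1 h2
  constructor <;> linarith

theorem pieces_exist {b₁ b₂ r : ℝ} {f : ℂ → ℂ} (h : Sol2 b₁ b₂ r f) :
    ∃ p G₁ G₂ l₀ l₁ l₂ : ℂ → ℂ, Pieces b₁ b₂ r f p G₁ G₂ l₀ l₁ l₂ := by
  have hr := h.one_lt
  have hb1 := h.b1_pos
  have hb12 := h.b_lt
  have hb2 := h.b2_lt
  obtain ⟨⟨d0i, d0r⟩, ⟨d1i, d1r⟩, ⟨d2i, d2r⟩⟩ := sol2_deriv h
  have mem : ∀ z : ℂ, ‖z‖ < r → z ∈ ball (0 : ℂ) r := fun z hz => by simpa using hz
  have nconj : ∀ z : ℂ, ‖(starRingEnd ℂ) z‖ = ‖z‖ := fun z => norm_conj z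
  have hSL : SL b₁ r ⊆ ball (0 : ℂ) r := fun z hz => mem z hz.1
  have hSM : SM b₂ r ⊆ ball (0 : ℂ) r := fun z hz => mem z hz.1
  have hSR : SR b₁ r ⊆ ball (0 : ℂ) r := fun z hz => mem z hz.1
  have c0 : ((0 : ℝ) : ℂ) ∈ SL b₁ r := by
    refine ⟨?_, ?_⟩
    · rw [ofReal_zero, norm_zero]
      linarith
    · rw [ofReal_re]
      exact hb1
  have c1 : ((b₁ : ℝ) : ℂ) ∈ SM b₂ r := by
    refine ⟨?_, ?_, ?_⟩
    · rw [norm_real, Real.norm_of_nonneg hb1.le]
      linarith
    · rw [ofReal_re]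
      exact hb1
    · rw [ofReal_re]
      exact hb12
  have c2 : ((b₂ : ℝ) : ℂ) ∈ SR b₁ r := by
    refine ⟨?_, ?_⟩
    · rw [norm_real, Real.norm_of_nonneg (by linarith)]
      linarith
    · rw [ofReal_re]
      exact hb12
  have df0 : DifferentiableAt ℂ f 0 :=
    h.diff.differentiableAt (isOpen_ball.mem_nhds (mem 0 (by rw [norm_zero]; linarith)))
  obtain ⟨p, hp⟩ := rlift_exists (sl_convex b₁ r) (sl_open b₁ r)
    (fun z hz => ⟨by rw [nconj]; exact hz.1, by rw [conj_re]; exact hz.2⟩) c0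
    (F := fun z => 1 - f z) ((differentiableOn_const 1).sub (h.diff.mono hSL))
    (fun z hz => by
      show 1 - f ((starRingEnd ℂ) z) = (starRingEnd ℂ) (1 - f z)
      rw [h.real z (hSL hz), map_sub, map_one])
    (fun z hz he => by
      have h1 : f z = 1 := (sub_eq_zero.mp he).symm
      rcases (h.one z (hSL hz)).mp h1 with h2 | h2
      · have := hz.2
        rw [h2, ofReal_re] at this
        linarith
      · have := hz.2
        rw [h2, ofReal_re] at this
        linarith)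
    (fun z hz => by
      show 1 - f z = 1 ↔ _
      rw [ofReal_zero, ← h.zero z (hSL hz)]
      constructor
      · intro h1
        linear_combination -h1
      · intro h1
        rw [h1, sub_zero])
  obtain ⟨G₁, hG₁⟩ := rlift_exists (sm_convex b₂ r) (sm_open b₂ r)
    (fun z hz => ⟨by rw [nconj]; exact hz.1, by rw [conj_re]; exact hz.2.1,
      by rw [conj_re]; exact hz.2.2⟩) c1
    (F := f) (h.diff.mono hSM)
    (fun z hz => h.real z (hSM hz))
    (fun z hz he => by
      have h1 := (h.zero z (hSM hz)).mp he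
      have := hz.2.1
      rw [h1, zero_re] at this
      linarith)
    (fun z hz => by
      rw [h.one z (hSM hz)]
      refine or_iff_left (fun h1 => ?_)
      have := hz.2.2
      rw [h1, ofReal_re] at this
      linarith)
  obtain ⟨G₂, hG₂⟩ := rlift_exists (sr_convex b₁ r) (sr_open b₁ r)
    (fun z hz => ⟨by rw [nconj]; exact hz.1, by rw [conj_re]; exact hz.2⟩) c2
    (F := f) (h.diff.mono hSR)
    (fun z hz => h.real z (hSR hz))
    (fun z hz he => by
      have h1 := (h.zero z (hSR hz)).mp he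
      have := hz.2
      rw [h1, zero_re] at this
      linarith)
    (fun z hz => by
      rw [h.one z (hSR hz)]
      refine or_iff_right (fun h1 => ?_)
      have := hz.2
      rw [h1, ofReal_re] at this
      linarith)
  -- derivatives
  have e0 : deriv (fun z => 1 - f z) ((0 : ℝ) : ℂ) = -deriv f 0 := by
    rw [ofReal_zero, deriv_const_sub]
  have t0 := hp.der
  rw [e0] at t0
  obtain ⟨p1, p2⟩ := d4_deriv t0
  obtain ⟨q1, q2⟩ := d4_deriv hG₁.der
  obtain ⟨s1, s2⟩ := d4_deriv hG₂.der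
  obtain ⟨l₀, hl₀⟩ := llift_exists (sl_convex b₁ r) (sl_open b₁ r) c0 hp.diff
    (fun x hx => (hp.sgn x hx).1) hp.zero
    (by rw [p1, neg_re]; linarith) (by rw [p2, neg_im, d0i]; norm_num)
  have e1 : deriv (fun z => -G₁ z) (b₁ : ℂ) = -deriv G₁ b₁ := deriv.fun_neg
  obtain ⟨l₁, hl₁⟩ := llift_exists (sm_convex b₂ r) (sm_open b₂ r) c1
    (G := fun z => -G₁ z) hG₁.diff.neg
    (fun x hx => by
      show (-G₁ x).im = 0
      rw [neg_im, (hG₁.sgn x hx).1, neg_zero])
    (fun z hz => by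
      show -G₁ z = 0 ↔ _
      rw [neg_eq_zero]
      exact hG₁.zero z hz)
    (by rw [e1, neg_re, q1]; linarith) (by rw [e1, neg_im, q2, d1i]; norm_num)
  obtain ⟨l₂, hl₂⟩ := llift_exists (sr_convex b₁ r) (sr_open b₁ r) c2 hG₂.diff
    (fun x hx => (hG₂.sgn x hx).1) hG₂.zero
    (by rw [s1]; linarith) (by rw [s2, d2i]; norm_num)
  exact ⟨p, G₁, G₂, l₀, l₁, l₂, hp, hG₁, hG₂, hl₀, hl₁, hl₂⟩

end Pool.Agent.Choc
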