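import Pool.Agent.Lib.MP_2b3e36_an.Re.D4

/-!
D5. The exponents on the three pieces agree on the overlaps.

`agree_upper`. `U` open and convex, `x ∈ U` real, `g₁, g₂` holomorphic on `U ∩ UH`, equal on the upper part of a
ball about `x` to functions `m₁, m₂` holomorphic on the ball; if `m₁ = m₂` at the real points of the ball then
`m₁ = m₂` on the ball (identity theorem, `c4_real_eq` in C4), so `g₁ = g₂` near a point of `U ∩ UH`, which is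
convex: `g₁ = g₂` on `U ∩ UH`.

`match01`. `U = SL b₁ r ∩ SM b₂ r`, `x = b₁/2`. Let `m₀` be from `k0.right` (`0 < x`; `Im m₀ = 0` on the reals), `m₁`
from `k1.left` (`x < b₁`; `Im m₁ = pi` on the reals), on balls inside `U`. At a real `u` of the smaller ball
(`0 < u < b₁` as the balls are inside `SL`, `SM`): `m₀ u = A` real, `exp A = p u`, `A < 0` as `|p u| < 1`;
`m₁ u = B + pi i`, `exp (m₁ u) = - G₁ u`, so `G₁ u = exp B ∈ (0,1)`, `B < 0`. `J (exp B) = f u` and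
`J (exp (pi^2/A)) = J (nome (-(pi i)/A)) = 1 - J (exp A) = 1 - J (p u) = f u` (`c4_J`). `J_inj_Ioo`:
`exp B = exp (pi^2/A)`, `B = pi^2/A`. So `m₁ u/(pi i) - 1 = B/(pi i) = pi/(i A) = -(pi i)/A = -(pi i)/m₀ u`.
Apply `agree_upper` to `-(pi i)/l₀` and `l₁/(pi i) - 1` (`l₀ ≠ 0`: `exp l₀ = p ≠ 1` as `‖p‖ < 1`).

`match12`. `U = SM b₂ r ∩ SR b₁ r`, `x = (b₁+b₂)/2`. `m₁` from `k1.right` (real on the reals), `m₂` from `k2.left`
(`Im = pi`). At real `u ∈ (b₁,b₂)`: `m₁ u = A`, `-G₁ u = exp A ∈ (0,1)`; `m₂ u = B + pi i`, `G₂ u = - exp B`,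
`exp B ∈ (0,1)`. `J (G₁ u) = f u = J (G₂ u)`, `J_neg`: `J (exp A) = (f u)⁻¹ = J (exp B)`, so `A = B`
(`J_inj_Ioo`). `m₁/(pi i) - 1 = m₂/(pi i) - 2` at `u`.
-/

set_option autoImplicit false

open Complex Set Filter Topology Metric

namespace Pool.Agent.Choc

theorem agree_upper {U : Set ℂ} (hc : Convex ℝ U) (ho : IsOpen U) {x : ℝ} (hx : (x : ℂ) ∈ U)
    {g₁ g₂ m₁ m₂ : ℂ → ℂ} (h₁ : DifferentiableOn ℂ g₁ (U ∩ UH))
    (h₂ : DifferentiableOn ℂ g₂ (U ∩ UH)) {ρ : ℝ} (hρ : 0 < ρ)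
    (d₁ : DifferentiableOn ℂ m₁ (ball (x : ℂ) ρ)) (d₂ : DifferentiableOn ℂ m₂ (ball (x : ℂ) ρ))
    (e₁ : ∀ z ∈ ball (x : ℂ) ρ, 0 < z.im → g₁ z = m₁ z)
    (e₂ : ∀ z ∈ ball (x : ℂ) ρ, 0 < z.im → g₂ z = m₂ z)
    (he : ∀ u : ℝ, (u : ℂ) ∈ ball (x : ℂ) ρ → m₁ u = m₂ u) :
    ∀ z ∈ U ∩ UH, g₁ z = g₂ z := by
  have hUH : IsOpen UH := isOpen_lt continuous_const Complex.continuous_im
  have hUHc : Convex ℝ UH := convex_halfSpace_im_gt 0
  have hb : ball (x : ℂ) ρ ∈ 𝓝 (x : ℂ) := ball_mem_nhds _ hρ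
  have a₁ : AnalyticAt ℂ m₁ x := d₁.analyticAt hb
  have a₂ : AnalyticAt ℂ m₂ x := d₂.analyticAt hb
  have hev : m₁ =ᶠ[𝓝 (x : ℂ)] m₂ := by
    apply c4_real_eq a₁ a₂
    have h3 : ∀ᶠ u : ℝ in 𝓝 x, (u : ℂ) ∈ ball (x : ℂ) ρ :=
      (Complex.continuous_ofReal.tendsto x).eventually hb
    filter_upwards [h3] with u hu
    exact he u hu
  obtain ⟨ε, hε, hball⟩ := Metric.mem_nhds_iff.1
    (Filter.inter_mem (Filter.inter_mem hev hb) (ho.mem_nhds hx))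
  have hz₀b : (x : ℂ) + ((ε / 2 : ℝ) : ℂ) * I ∈ ball (x : ℂ) ε := by
    rw [mem_ball, dist_eq_norm, add_sub_cancel_left, norm_mul, Complex.norm_real, Complex.norm_I,
      mul_one, Real.norm_eq_abs, abs_of_pos (by positivity)]
    linarith
  have hz₀i : 0 < ((x : ℂ) + ((ε / 2 : ℝ) : ℂ) * I).im := by
    simp only [Complex.add_im, Complex.ofReal_im, Complex.mul_im, Complex.I_im, Complex.I_re,
      Complex.ofReal_re]
    linarith
  have hD : IsOpen (U ∩ UH) := ho.inter hUH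
  have key : EqOn g₁ g₂ (U ∩ UH) := by
    refine (h₁.analyticOnNhd hD).eqOn_of_preconnected_of_eventuallyEq (h₂.analyticOnNhd hD)
      (hc.inter hUHc).isPreconnected ⟨(hball hz₀b).2, hz₀i⟩ ?_
    filter_upwards [isOpen_ball.mem_nhds hz₀b, hUH.mem_nhds hz₀i] with z hz1 hz2
    have h3 := hball hz1
    rw [e₁ z h3.1.2 hz2, e₂ z h3.1.2 hz2]
    exact h3.1.1
  exact fun z hz => key hz

theorem d5_re_neg {w q : ℂ} (h : exp w = q) (hq : ‖q‖ < 1) : w.re < 0 := by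
  rw [← h, Complex.norm_exp] at hq
  exact Real.exp_lt_one_iff.1 hq

theorem d5_ne {w q : ℂ} (h : exp w = q) (hq : ‖q‖ < 1) : w ≠ 0 := by
  intro h0
  have := d5_re_neg h hq
  rw [h0] at this
  simp at this

theorem d5_piI : (Real.pi : ℂ) * I ≠ 0 :=
  mul_ne_zero (Complex.ofReal_ne_zero.2 Real.pi_ne_zero) Complex.I_ne_zero

/-- `exp (B + pi i) = - exp B`. -/
theorem d5_exp_pi {w : ℂ} (h : w.im = Real.pi) : exp w = -((Real.exp w.re : ℝ) : ℂ) := by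
  have e : w = (w.re : ℂ) + Real.pi * I := by
    apply Complex.ext <;> simp [h]
  rw [e, Complex.exp_add, Complex.exp_pi_mul_I, ← Complex.ofReal_exp]
  simp

theorem d5_exp_real {w : ℂ} (h : w.im = 0) : exp w = ((Real.exp w.re : ℝ) : ℂ) := by
  have e : w = (w.re : ℂ) := by
    apply Complex.ext <;> simp [h]
  rw [e, ← Complex.ofReal_exp]
  simp

theorem match01 {b₁ b₂ r : ℝ} {f p G₁ G₂ l₀ l₁ l₂ : ℂ → ℂ} (h : Sol2 b₁ b₂ r f)
    (hP : Pieces b₁ b₂ r f p G₁ G₂ l₀ l₁ l₂) {z : ℂ} (hz : z ∈ Om r) (h0 : 0 < z.re)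
    (h1 : z.re < b₁) : -(Real.pi * I) / l₀ z = l₁ z / (Real.pi * I) - 1 := by
  have hb1 := h.b1_pos
  have hb := h.b_lt
  have hb2 := h.b2_lt
  have hr := h.one_lt
  obtain ⟨x, hx⟩ : ∃ x : ℝ, x = b₁ / 2 := ⟨_, rfl⟩
  have hx0 : 0 < x := by rw [hx]; linarith
  have hx1 : x < b₁ := by rw [hx]; linarith
  have hxn : ‖(x : ℂ)‖ < r := by
    rw [Complex.norm_real, Real.norm_eq_abs, abs_of_pos hx0]; linarith
  have hxL : (x : ℂ) ∈ SL b₁ r := ⟨hxn, by simpa using hx1⟩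
  have hxM : (x : ℂ) ∈ SM b₂ r := ⟨hxn, by simpa using hx0, by
    rw [Complex.ofReal_re]; linarith⟩
  obtain ⟨ρ₀, hρ₀, hs₀, m₀, hd₀, he₀, hl₀, hr₀⟩ := hP.k0.right x hxL hx0
  obtain ⟨ρ₁, hρ₁, hs₁, m₁, hd₁, he₁, hl₁, hr₁⟩ := hP.k1.left x hxM hx1
  have hρ : 0 < min ρ₀ ρ₁ := lt_min hρ₀ hρ₁
  have hs0 : ball (x : ℂ) (min ρ₀ ρ₁) ⊆ ball (x : ℂ) ρ₀ := ball_subset_ball (min_le_left _ _)
  have hs1 : ball (x : ℂ) (min ρ₀ ρ₁) ⊆ ball (x : ℂ) ρ₁ := ball_subset_ball (min_le_right _ _)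
  refine agree_upper (U := SL b₁ r ∩ SM b₂ r) ((sl_convex _ _).inter (sm_convex _ _))
    ((sl_open _ _).inter (sm_open _ _)) (x := x) ⟨hxL, hxM⟩
    (g₁ := fun z => -(Real.pi * I) / l₀ z) (g₂ := fun z => l₁ z / (Real.pi * I) - 1)
    (m₁ := fun z => -(Real.pi * I) / m₀ z) (m₂ := fun z => m₁ z / (Real.pi * I) - 1)
    ?_ ?_ hρ ?_ ?_ ?_ ?_ ?_ z ⟨⟨⟨hz.1, h1⟩, ⟨hz.1, h0, by linarith⟩⟩, hz.2⟩
  · refine DifferentiableOn.div (differentiableOn_const _)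
      (hP.k0.diff.mono fun w hw => ⟨hw.1.1, hw.2⟩) fun w hw => ?_
    exact d5_ne (hP.k0.exp w ⟨hw.1.1, hw.2⟩) (hP.hp.lt_one w hw.1.1)
  · exact ((hP.k1.diff.mono fun w hw => ⟨hw.1.2, hw.2⟩).div_const _).sub_const _
  · refine DifferentiableOn.div (differentiableOn_const _) (hd₀.mono hs0) fun w hw => ?_
    exact d5_ne (he₀ w (hs0 hw)) (hP.hp.lt_one w (hs₀ (hs0 hw)))
  · exact ((hd₁.mono hs1).div_const _).sub_const _
  · intro w hw hi
    simp only [hl₀ w (hs0 hw) hi]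
  · intro w hw hi
    simp only [hl₁ w (hs1 hw) hi]
  · intro u hu
    have huL := hs₀ (hs0 hu)
    have huM := hs₁ (hs1 hu)
    have i0 := hr₀ u (hs0 hu)
    have i1 := hr₁ u (hs1 hu)
    have E0 := he₀ u (hs0 hu)
    have E1 := he₁ u (hs1 hu)
    have n0 := hP.hp.lt_one u huL
    have n1 := hP.h1.lt_one u huM
    have A0 := d5_re_neg E0 n0
    have B0 := d5_re_neg E1 (by rw [norm_neg]; exact n1)
    obtain ⟨A, hA⟩ : ∃ A : ℝ, A = (m₀ u).re := ⟨_, rfl⟩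
    obtain ⟨B, hB⟩ : ∃ B : ℝ, B = (m₁ u).re := ⟨_, rfl⟩
    have eA : m₀ u = (A : ℂ) := by apply Complex.ext <;> simp [hA, i0]
    have eB : m₁ u = (B : ℂ) + Real.pi * I := by apply Complex.ext <;> simp [hB, i1]
    rw [← hA] at A0
    rw [← hB] at B0
    have g1 : G₁ u = ((Real.exp B : ℝ) : ℂ) := by
      have := d5_exp_pi i1
      rw [E1, ← hB] at this
      exact neg_injective this
    have j1 : J ((Real.exp B : ℝ) : ℂ) = f u := by
      rw [← g1]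
      exact hP.h1.lift u huM
    have j0 : J (nome (-(Real.pi * I) / (A : ℂ))) = f u := by
      have h3 := c4_J (L := (A : ℂ)) (by simpa using A0)
      rw [h3, ← eA, E0, hP.hp.lift u huL]
      ring
    have hAc : (A : ℂ) ≠ 0 := by exact_mod_cast A0.ne
    have en : nome (-(Real.pi * I) / (A : ℂ)) = ((Real.exp (Real.pi ^ 2 / A) : ℝ) : ℂ) := by
      unfold nome
      rw [Complex.ofReal_exp]
      congr 1
      push_cast
      field_simp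
      linear_combination (-(1 : ℂ)) * Complex.I_sq
    rw [en, ← j1] at j0
    have hneg : Real.pi ^ 2 / A < 0 := div_neg_of_pos_of_neg (by positivity) A0
    have h4 := J_inj_Ioo (Real.exp_pos _) (Real.exp_lt_one_iff.2 hneg) (Real.exp_pos _)
      (Real.exp_lt_one_iff.2 B0) j0
    have h5 : Real.pi ^ 2 / A = B := Real.exp_injective h4
    have h6 : (B : ℂ) = (Real.pi : ℂ) ^ 2 / A := by
      rw [← h5]
      push_cast
      rfl
    have hpi := d5_piI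
    have hpc : (Real.pi : ℂ) ≠ 0 := Complex.ofReal_ne_zero.2 Real.pi_ne_zero
    simp only [eA, eB, h6]
    field_simp
    linear_combination (-(Real.pi : ℂ)) * Complex.I_sq

theorem match12 {b₁ b₂ r : ℝ} {f p G₁ G₂ l₀ l₁ l₂ : ℂ → ℂ} (h : Sol2 b₁ b₂ r f)
    (hP : Pieces b₁ b₂ r f p G₁ G₂ l₀ l₁ l₂) {z : ℂ} (hz : z ∈ Om r) (h0 : b₁ < z.re)
    (h1 : z.re < b₂) : l₁ z / (Real.pi * I) - 1 = l₂ z / (Real.pi * I) - 2 := by
  have hb1 := h.b1_pos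
  have hb := h.b_lt
  have hb2 := h.b2_lt
  have hr := h.one_lt
  obtain ⟨x, hx⟩ : ∃ x : ℝ, x = (b₁ + b₂) / 2 := ⟨_, rfl⟩
  have hx0 : b₁ < x := by rw [hx]; linarith
  have hx1 : x < b₂ := by rw [hx]; linarith
  have hxn : ‖(x : ℂ)‖ < r := by
    rw [Complex.norm_real, Real.norm_eq_abs, abs_of_pos (by linarith)]; linarith
  have hxM : (x : ℂ) ∈ SM b₂ r := ⟨hxn, by rw [Complex.ofReal_re]; linarith, by
    rw [Complex.ofReal_re]; linarith⟩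
  have hxR : (x : ℂ) ∈ SR b₁ r := ⟨hxn, by simpa using hx0⟩
  obtain ⟨ρ₀, hρ₀, hs₀, m₀, hd₀, he₀, hl₀, hr₀⟩ := hP.k1.right x hxM hx0
  obtain ⟨ρ₁, hρ₁, hs₁, m₁, hd₁, he₁, hl₁, hr₁⟩ := hP.k2.left x hxR hx1
  have hρ : 0 < min ρ₀ ρ₁ := lt_min hρ₀ hρ₁
  have hs0 : ball (x : ℂ) (min ρ₀ ρ₁) ⊆ ball (x : ℂ) ρ₀ := ball_subset_ball (min_le_left _ _)
  have hs1 : ball (x : ℂ) (min ρ₀ ρ₁) ⊆ ball (x : ℂ) ρ₁ := ball_subset_ball (min_le_right _ _)
  refine agree_upper (U := SM b₂ r ∩ SR b₁ r) ((sm_convex _ _).inter (sr_convex _ _))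
    ((sm_open _ _).inter (sr_open _ _)) (x := x) ⟨hxM, hxR⟩
    (g₁ := fun z => l₁ z / (Real.pi * I) - 1) (g₂ := fun z => l₂ z / (Real.pi * I) - 2)
    (m₁ := fun z => m₀ z / (Real.pi * I) - 1) (m₂ := fun z => m₁ z / (Real.pi * I) - 2)
    ?_ ?_ hρ ?_ ?_ ?_ ?_ ?_ z ⟨⟨⟨hz.1, by linarith, h1⟩, ⟨hz.1, h0⟩⟩, hz.2⟩
  · exact ((hP.k1.diff.mono fun w hw => ⟨hw.1.1, hw.2⟩).div_const _).sub_const _
  · exact ((hP.k2.diff.mono fun w hw => ⟨hw.1.2, hw.2⟩).div_const _).sub_const _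
  · exact ((hd₀.mono hs0).div_const _).sub_const _
  · exact ((hd₁.mono hs1).div_const _).sub_const _
  · intro w hw hi
    simp only [hl₀ w (hs0 hw) hi]
  · intro w hw hi
    simp only [hl₁ w (hs1 hw) hi]
  · intro u hu
    have huM := hs₀ (hs0 hu)
    have huR := hs₁ (hs1 hu)
    have i0 := hr₀ u (hs0 hu)
    have i1 := hr₁ u (hs1 hu)
    have E0 := he₀ u (hs0 hu)
    have E1 := he₁ u (hs1 hu)
    have n0 := hP.h1.lt_one u huM
    have n1 := hP.h2.lt_one u huR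
    have A0 := d5_re_neg E0 (by rw [norm_neg]; exact n0)
    have B0 := d5_re_neg E1 n1
    obtain ⟨A, hA⟩ : ∃ A : ℝ, A = (m₀ u).re := ⟨_, rfl⟩
    obtain ⟨B, hB⟩ : ∃ B : ℝ, B = (m₁ u).re := ⟨_, rfl⟩
    have eA : m₀ u = (A : ℂ) := by apply Complex.ext <;> simp [hA, i0]
    have eB : m₁ u = (B : ℂ) + Real.pi * I := by apply Complex.ext <;> simp [hB, i1]
    rw [← hA] at A0
    rw [← hB] at B0
    have g1 : G₁ u = -((Real.exp A : ℝ) : ℂ) := by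
      have := d5_exp_real i0
      rw [E0, ← hA] at this
      rw [← this, neg_neg]
    have g2 : G₂ u = -((Real.exp B : ℝ) : ℂ) := by
      have := d5_exp_pi i1
      rw [E1, ← hB] at this
      exact this
    have j1 : (J ((Real.exp A : ℝ) : ℂ))⁻¹ = f u := by
      rw [← J_neg, ← g1]
      exact hP.h1.lift u huM
    have j2 : (J ((Real.exp B : ℝ) : ℂ))⁻¹ = f u := by
      rw [← J_neg, ← g2]
      exact hP.h2.lift u huR
    have j3 : J ((Real.exp A : ℝ) : ℂ) = J ((Real.exp B : ℝ) : ℂ) :=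
      inv_injective (j1.trans j2.symm)
    have h4 := J_inj_Ioo (Real.exp_pos _) (Real.exp_lt_one_iff.2 A0) (Real.exp_pos _)
      (Real.exp_lt_one_iff.2 B0) j3
    have h5 : A = B := Real.exp_injective h4
    have hpi := d5_piI
    have hpc : (Real.pi : ℂ) ≠ 0 := Complex.ofReal_ne_zero.2 Real.pi_ne_zero
    simp only [eA, eB, h5]
    rw [add_div, div_self hpi]
    ring

end Pool.Agent.Choc
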