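import Pool.Agent.Lib.MP_2b3e36_an.Re.D5

/-!
D6. The exponent of a solution on the upper half disc.

Proof. Let `t z = -(pi i)/l₀ z` for `Re z < b₁/2`, `t z = l₁ z/(pi i) - 1` for `b₁/2 ≤ Re z < (b₁+b₂)/2`,
`t z = l₂ z/(pi i) - 2` for `(b₁+b₂)/2 ≤ Re z`. By `match01`, `match12`: on `Om r` the first formula holds for
`Re z < b₁`, the second for `0 < Re z < b₂`, the third for `b₁ < Re z`. These are three open sets covering `Om r`,
so `t` is holomorphic (`l₀ ≠ 0` since `exp l₀ = p ≠ 1`). `Im t > 0`: `Re l₀ = log ‖p‖ < 0` (`p ≠ 0` off `0`),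
`c4_im_tau`; `Im (l/(pi i)) = - Re l/pi = - log ‖G‖/pi > 0`.
`neg` (`-r < x < 0`): `k0.left`: `m` with `Im m = pi` on the reals, `Re m < 0` there; `τ = -(pi i)/m` (shrink the ball
so that `m ≠ 0`); `τ u ∈ Sig` by `c4_sig`.
`s0`: `k0.right`, `τ = -(pi i)/m`, `m u` real negative: `Re τ = 0`, `Im τ > 0`.
`s1`: `k1.right`, `τ = m/(pi i) - 1`, `m u` real negative: `Re τ = -1`, `Im τ > 0`.
`s2`: `k2.right`, `τ = m/(pi i) - 2`.
`c1`: `Q = -G₁`, `k1.near`; `Q' b₁ = deriv f b₁/16`, real positive (`h1.der`, `sol2_deriv`); `‖Q‖ < 1`.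
`c2`: `Q = G₂`, `k2.near`. `zero`: `p`, `k0.near`. In all cases shrink the ball so that it lies in the piece and in
`ball 0 r`.
-/

set_option autoImplicit false

open Complex Set Filter Topology Metric

namespace Pool.Agent.Choc

/-- The exponent. -/
noncomputable def d6_t (b₁ b₂ : ℝ) (l₀ l₁ l₂ : ℂ → ℂ) (z : ℂ) : ℂ :=
  if z.re < b₁ / 2 then -(Real.pi * I) / l₀ z
  else if z.re < (b₁ + b₂) / 2 then l₁ z / (Real.pi * I) - 1
  else l₂ z / (Real.pi * I) - 2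

theorem d6_f0 {b₁ b₂ r : ℝ} {f p G₁ G₂ l₀ l₁ l₂ : ℂ → ℂ} (h : Sol2 b₁ b₂ r f)
    (hP : Pieces b₁ b₂ r f p G₁ G₂ l₀ l₁ l₂) {z : ℂ} (hz : z ∈ SL b₁ r) (hi : 0 < z.im) :
    d6_t b₁ b₂ l₀ l₁ l₂ z = -(Real.pi * I) / l₀ z := by
  have hb1 := h.b1_pos
  have hb := h.b_lt
  unfold d6_t
  by_cases h1 : z.re < b₁ / 2
  · rw [if_pos h1]
  · have h2 := hz.2
    rw [if_neg h1, if_pos (by linarith)]
    exact (match01 h hP ⟨hz.1, hi⟩ (by linarith) h2).symm

theorem d6_f1 {b₁ b₂ r : ℝ} {f p G₁ G₂ l₀ l₁ l₂ : ℂ → ℂ} (h : Sol2 b₁ b₂ r f)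
    (hP : Pieces b₁ b₂ r f p G₁ G₂ l₀ l₁ l₂) {z : ℂ} (hz : z ∈ SM b₂ r) (hi : 0 < z.im) :
    d6_t b₁ b₂ l₀ l₁ l₂ z = l₁ z / (Real.pi * I) - 1 := by
  have hb1 := h.b1_pos
  have hb := h.b_lt
  have h2 := hz.2.1
  have h3 := hz.2.2
  unfold d6_t
  by_cases h1 : z.re < b₁ / 2
  · rw [if_pos h1]
    exact match01 h hP ⟨hz.1, hi⟩ h2 (by linarith)
  · rw [if_neg h1]
    by_cases h4 : z.re < (b₁ + b₂) / 2
    · rw [if_pos h4]
    · rw [if_neg h4]
      exact (match12 h hP ⟨hz.1, hi⟩ (by linarith) h3).symm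

theorem d6_f2 {b₁ b₂ r : ℝ} {f p G₁ G₂ l₀ l₁ l₂ : ℂ → ℂ} (h : Sol2 b₁ b₂ r f)
    (hP : Pieces b₁ b₂ r f p G₁ G₂ l₀ l₁ l₂) {z : ℂ} (hz : z ∈ SR b₁ r) (hi : 0 < z.im) :
    d6_t b₁ b₂ l₀ l₁ l₂ z = l₂ z / (Real.pi * I) - 2 := by
  have hb1 := h.b1_pos
  have hb := h.b_lt
  have h2 := hz.2
  unfold d6_t
  rw [if_neg (by linarith)]
  by_cases h4 : z.re < (b₁ + b₂) / 2
  · rw [if_pos h4]
    exact match12 h hP ⟨hz.1, hi⟩ h2 (by linarith)
  · rw [if_neg h4]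

theorem d6_div (w : ℂ) : w / (Real.pi * I) = ((w.im / Real.pi : ℝ) : ℂ) +
    ((-w.re / Real.pi : ℝ) : ℂ) * I := by
  have hpc : (Real.pi : ℂ) ≠ 0 := Complex.ofReal_ne_zero.2 Real.pi_ne_zero
  rw [div_eq_iff d5_piI]
  have e : w = (w.re : ℂ) + w.im * I := (Complex.re_add_im w).symm
  have e2 : (((w.im / Real.pi : ℝ) : ℂ) + ((-w.re / Real.pi : ℝ) : ℂ) * I) * (Real.pi * I)
      = (w.im : ℂ) * I - w.re * I ^ 2 := by
    push_cast
    field_simp
    ring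
  rw [e2, Complex.I_sq]
  linear_combination e

theorem d6_re (w : ℂ) (c : ℝ) : (w / (Real.pi * I) - (c : ℂ)).re = w.im / Real.pi - c := by
  rw [d6_div]
  simp

theorem d6_im (w : ℂ) (c : ℝ) : (w / (Real.pi * I) - (c : ℂ)).im = -w.re / Real.pi := by
  rw [d6_div]
  simp

theorem d6_im_pos {w : ℂ} (c : ℝ) (h : w.re < 0) : 0 < (w / (Real.pi * I) - (c : ℂ)).im := by
  rw [d6_im]
  exact div_pos (by linarith) Real.pi_pos

theorem d6_vert {w : ℂ} (c : ℝ) (h : w.re < 0) (hi : w.im = 0) :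
    w / (Real.pi * I) - (c : ℂ) ∈ Vert (-c) := by
  refine ⟨?_, d6_im_pos c h⟩
  rw [d6_re, hi]
  simp

theorem d6_at {t g : ℂ → ℂ} {U : Set ℂ} (hU : IsOpen U) {z : ℂ} (hz : z ∈ U)
    (h : ∀ w ∈ U, t w = g w) (hg : DifferentiableOn ℂ g U) : DifferentiableAt ℂ t z := by
  have h1 : DifferentiableAt ℂ g z := hg.differentiableAt (hU.mem_nhds hz)
  refine h1.congr_of_eventuallyEq ?_
  filter_upwards [hU.mem_nhds hz] with w hw
  exact h w hw

theorem d6_uh : IsOpen UH := isOpen_lt continuous_const Complex.continuous_im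

theorem tlift_exists {b₁ b₂ r : ℝ} {f : ℂ → ℂ} (h : Sol2 b₁ b₂ r f) :
    ∃ t : ℂ → ℂ, TLift b₁ b₂ r t := by
  obtain ⟨p, G₁, G₂, l₀, l₁, l₂, hP⟩ := pieces_exist h
  have hb1 := h.b1_pos
  have hb := h.b_lt
  have hb2 := h.b2_lt
  have hr := h.one_lt
  obtain ⟨⟨dz, dz'⟩, ⟨dy, dy'⟩, ⟨dx, dx'⟩⟩ := sol2_deriv h
  -- negativity of the real parts
  have n0 : ∀ z ∈ SL b₁ r, ∀ w : ℂ, exp w = p z → w.re < 0 := fun z hz w hw =>
    d5_re_neg hw (hP.hp.lt_one z hz)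
  have n1 : ∀ z ∈ SM b₂ r, ∀ w : ℂ, exp w = -G₁ z → w.re < 0 := fun z hz w hw =>
    d5_re_neg hw (by rw [norm_neg]; exact hP.h1.lt_one z hz)
  have n2 : ∀ z ∈ SR b₁ r, ∀ w : ℂ, exp w = G₂ z → w.re < 0 := fun z hz w hw =>
    d5_re_neg hw (hP.h2.lt_one z hz)
  have mem : ∀ z ∈ Om r, z ∈ SL b₁ r ∨ z ∈ SM b₂ r ∨ z ∈ SR b₁ r := by
    intro z hz
    rcases lt_or_ge z.re b₁ with h1 | h1
    · exact Or.inl ⟨hz.1, h1⟩
    · rcases lt_or_ge z.re b₂ with h2 | h2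
      · exact Or.inr (Or.inl ⟨hz.1, by linarith, h2⟩)
      · exact Or.inr (Or.inr ⟨hz.1, by linarith⟩)
  have one1 : ∀ w : ℂ, w / (Real.pi * I) - 1 = w / (Real.pi * I) - ((1 : ℝ) : ℂ) := fun w => by
    simp
  have two1 : ∀ w : ℂ, w / (Real.pi * I) - 2 = w / (Real.pi * I) - ((2 : ℝ) : ℂ) := fun w => by
    simp
  refine ⟨d6_t b₁ b₂ l₀ l₁ l₂, hr, hb1, hb, hb2, ?_, ?_, ?_, ?_, ?_, ?_, ?_, ?_, ?_⟩
  · -- holomorphic
    intro z hz
    apply DifferentiableAt.differentiableWithinAt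
    rcases mem z hz with h1 | h1 | h1
    · refine d6_at ((sl_open b₁ r).inter d6_uh) ⟨h1, hz.2⟩ (fun w hw => d6_f0 h hP hw.1 hw.2) ?_
      refine DifferentiableOn.div (differentiableOn_const _) hP.k0.diff fun w hw => ?_
      exact d5_ne (hP.k0.exp w hw) (hP.hp.lt_one w hw.1)
    · refine d6_at ((sm_open b₂ r).inter d6_uh) ⟨h1, hz.2⟩ (fun w hw => d6_f1 h hP hw.1 hw.2) ?_
      exact (hP.k1.diff.div_const _).sub_const _
    · refine d6_at ((sr_open b₁ r).inter d6_uh) ⟨h1, hz.2⟩ (fun w hw => d6_f2 h hP hw.1 hw.2) ?_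
      exact (hP.k2.diff.div_const _).sub_const _
  · -- positive imaginary part
    intro z hz
    rcases mem z hz with h1 | h1 | h1
    · rw [d6_f0 h hP h1 hz.2]
      exact c4_im_tau (n0 z h1 _ (hP.k0.exp z ⟨h1, hz.2⟩))
    · rw [d6_f1 h hP h1 hz.2, one1]
      exact d6_im_pos 1 (n1 z h1 _ (hP.k1.exp z ⟨h1, hz.2⟩))
    · rw [d6_f2 h hP h1 hz.2, two1]
      exact d6_im_pos 2 (n2 z h1 _ (hP.k2.exp z ⟨h1, hz.2⟩))
  · -- negative side
    intro x hx1 hx2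
    have hxL : (x : ℂ) ∈ SL b₁ r := ⟨by
      rw [Complex.norm_real, Real.norm_eq_abs, abs_lt]; exact ⟨hx1, by linarith⟩, by
      rw [Complex.ofReal_re]; linarith⟩
    obtain ⟨ρ, hρ, hs, m, hd, he, hl, him⟩ := hP.k0.left x hxL hx2
    refine ⟨ρ, hρ, fun z => -(Real.pi * I) / m z, ?_, ?_, ?_⟩
    · refine DifferentiableOn.div (differentiableOn_const _) hd fun w hw => ?_
      exact d5_ne (he w hw) (hP.hp.lt_one w (hs hw))
    · intro v hv hi
      rw [d6_f0 h hP (hs hv) hi, hl v hv hi]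
    · intro u hu
      have h1 := n0 _ (hs hu) _ (he u hu)
      have e : m u = ((m u).re : ℂ) + Real.pi * I := by
        apply Complex.ext <;> simp [him u hu]
      simp only
      rw [e]
      exact c4_sig h1
  · -- first side
    intro x hx1 hx2
    have hxL : (x : ℂ) ∈ SL b₁ r := ⟨by
      rw [Complex.norm_real, Real.norm_eq_abs, abs_of_pos hx1]; linarith, by
      rw [Complex.ofReal_re]; linarith⟩
    obtain ⟨ρ, hρ, hs, m, hd, he, hl, him⟩ := hP.k0.right x hxL hx1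
    refine ⟨ρ, hρ, fun z => -(Real.pi * I) / m z, ?_, ?_, ?_⟩
    · refine DifferentiableOn.div (differentiableOn_const _) hd fun w hw => ?_
      exact d5_ne (he w hw) (hP.hp.lt_one w (hs hw))
    · intro v hv hi
      rw [d6_f0 h hP (hs hv) hi, hl v hv hi]
    · intro u hu
      have h1 := n0 _ (hs hu) _ (he u hu)
      have e : m u = ((m u).re : ℂ) := by
        apply Complex.ext <;> simp [him u hu]
      refine ⟨?_, c4_im_tau h1⟩
      simp only
      rw [e, ← neg_mul, mul_div_assoc, mul_comm, ← Complex.ofReal_neg, mul_comm,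
        show (((-Real.pi : ℝ) : ℂ)) * (I / ((m u).re : ℂ)) = ((-Real.pi / (m u).re : ℝ) : ℂ) * I by
          push_cast; ring]
      simp
  · -- second side
    intro x hx1 hx2
    have hxM : (x : ℂ) ∈ SM b₂ r := ⟨by
      rw [Complex.norm_real, Real.norm_eq_abs, abs_of_pos (by linarith)]; linarith, by
      rw [Complex.ofReal_re]; linarith, by rw [Complex.ofReal_re]; linarith⟩
    obtain ⟨ρ, hρ, hs, m, hd, he, hl, him⟩ := hP.k1.right x hxM hx1
    refine ⟨ρ, hρ, fun z => m z / (Real.pi * I) - 1, (hd.div_const _).sub_const _, ?_, ?_⟩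
    · intro v hv hi
      rw [d6_f1 h hP (hs hv) hi, hl v hv hi]
    · intro u hu
      simp only
      rw [one1]
      exact d6_vert 1 (n1 _ (hs hu) _ (he u hu)) (him u hu)
  · -- third side
    intro x hx1 hx2
    have hxR : (x : ℂ) ∈ SR b₁ r := ⟨by
      rw [Complex.norm_real, Real.norm_eq_abs, abs_of_pos (by linarith)]; linarith, by
      rw [Complex.ofReal_re]; linarith⟩
    obtain ⟨ρ, hρ, hs, m, hd, he, hl, him⟩ := hP.k2.right x hxR hx1
    refine ⟨ρ, hρ, fun z => m z / (Real.pi * I) - 2, (hd.div_const _).sub_const _, ?_, ?_⟩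
    · intro v hv hi
      rw [d6_f2 h hP (hs hv) hi, hl v hv hi]
    · intro u hu
      simp only
      rw [two1]
      exact d6_vert 2 (n2 _ (hs hu) _ (he u hu)) (him u hu)
  · -- first cusp
    obtain ⟨ρ, hρ, hs, hn⟩ := hP.k1.near
    refine ⟨ρ, hρ, fun z => -G₁ z, (hP.h1.diff.mono hs).neg, ?_, ?_, ?_, ?_⟩
    · simp only
      rw [(hP.h1.zero _ (hs (mem_ball_self hρ))).2 rfl, neg_zero]
    · refine ⟨(deriv f b₁).re / 16, by positivity, ?_⟩
      have h1 := hP.h1.der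
      have h2 : deriv f b₁ = ((deriv f b₁).re : ℂ) := by
        apply Complex.ext <;> simp [dy]
      rw [show deriv (fun z => -G₁ z) (b₁ : ℂ) = -deriv G₁ b₁ from deriv.fun_neg ..]
      push_cast
      rw [← h2, h1]
      ring
    · intro u hu
      have hu' : (u : ℂ) ∈ ball (b₁ : ℂ) ρ := by
        rw [mem_ball, dist_eq_norm, ← Complex.ofReal_sub, Complex.norm_real, Real.norm_eq_abs]
        exact hu
      simp only [Complex.neg_im]
      rw [(hP.h1.sgn u (hs hu')).1, neg_zero]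
    · intro v hv hi
      obtain ⟨h1, h2⟩ := hn v hv hi
      refine ⟨h1, ?_, ?_⟩
      · rw [norm_neg]
        exact hP.h1.lt_one v (hs hv)
      · rw [d6_f1 h hP (hs hv) hi, h2, one1]
  · -- second cusp
    obtain ⟨ρ, hρ, hs, hn⟩ := hP.k2.near
    refine ⟨ρ, hρ, G₂, hP.h2.diff.mono hs, ?_, ?_, ?_, ?_⟩
    · exact (hP.h2.zero _ (hs (mem_ball_self hρ))).2 rfl
    · refine ⟨-(deriv f b₂).re / 16, by linarith, ?_⟩
      have h1 := hP.h2.der
      have h2 : deriv f b₂ = ((deriv f b₂).re : ℂ) := by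
        apply Complex.ext <;> simp [dx]
      push_cast
      rw [← h2, h1]
      ring
    · intro u hu
      have hu' : (u : ℂ) ∈ ball (b₂ : ℂ) ρ := by
        rw [mem_ball, dist_eq_norm, ← Complex.ofReal_sub, Complex.norm_real, Real.norm_eq_abs]
        exact hu
      exact (hP.h2.sgn u (hs hu')).1
    · intro v hv hi
      obtain ⟨h1, h2⟩ := hn v hv hi
      refine ⟨h1, hP.h2.lt_one v (hs hv), ?_⟩
      rw [d6_f2 h hP (hs hv) hi, h2, two1]
  · -- the zero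
    obtain ⟨ρ, hρ, hs, hn⟩ := hP.k0.near
    rw [Complex.ofReal_zero] at hs hn
    refine ⟨ρ, hρ, p, hP.hp.diff.mono hs, ?_, ?_, ?_, ?_⟩
    · refine (hP.hp.zero _ (hs (mem_ball_self hρ))).2 ?_
      rw [Complex.ofReal_zero]
    · refine ⟨(deriv f 0).re / 16, by positivity, ?_⟩
      have h1 := hP.hp.der
      rw [Complex.ofReal_zero] at h1
      have h2 : deriv f 0 = ((deriv f 0).re : ℂ) := by
        apply Complex.ext <;> simp [dz]
      have h3 : deriv (fun z => 1 - f z) (0 : ℂ) = -deriv f 0 := by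
        rw [deriv_const_sub]
      rw [h3] at h1
      push_cast
      rw [← h2]
      linear_combination ((1 : ℂ) / 16) * h1
    · intro u hu
      have hu' : (u : ℂ) ∈ ball (0 : ℂ) ρ := by
        rw [mem_ball, dist_zero_right, Complex.norm_real, Real.norm_eq_abs]
        exact hu
      exact (hP.hp.sgn u (hs hu')).1
    · intro v hv hi
      obtain ⟨h1, h2⟩ := hn v hv hi
      refine ⟨h1, hP.hp.lt_one v (hs hv), ?_⟩
      rw [d6_f0 h hP (hs hv) hi, h2]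

end Pool.Agent.Choc
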