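import Pool.Agent.Lib.MP_2b3e36_an.Re.W5

/-!
D7. The competitor in the upper half plane: `g = t ∘ jinv` (compare R0 and its lemma `r0_local`).

Proof. `jinv` maps `UH` holomorphically into `Om 1 ⊆ Om r` (`jinv_mem`, `jinv_diff`). `lt1`, `lt2`: `jr_strict`,
`jr_lt`. Real `x < -1`: `jinv x = jb x` (`jinv_ofReal`), `jb` increasing, `jb (jr b) = b`; so `x < jr b₁` gives
`jb x ∈ (0,b₁)` etc.; `jinv` is holomorphic near `x` (`jinv_diffAt`), maps the upper part of a small ball about `x`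
into the upper half plane (`jinv_mem`) and real points to real points. So `SideAt` for `t` at `jb x` gives
`SideAt` for `g` at `x` (compose `τ` with `jinv`, small ball): `side0` from `s0`, `side1` from `s1`, `side2` from `s2`.
`arc`: `x > 1`: `jinv x ∈ (-1,0)` (`jinv_right`), `neg`.
`inner` (`-1 ≤ x ≤ 1`): `jinv v → z₁ = -x + i sqrt (1-x^2)` (`jinv_inner`). If `|x| < 1`: `z₁ ∈ Om r` (`‖z₁‖ = 1 < r`), `t` is
continuous at `z₁`, `ℓ = t z₁`. `x = -1`: `z₁ = 1 ∈ (b₂, r)`: `s2` at `1`: `t = τ` on the upper part of a ball,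
`jinv v` is in it eventually (`jinv_mem`), `ℓ = τ 1 ∈ Vert (-2)`. `x = 1`: `z₁ = -1`: `neg` at `-1`, `ℓ = τ (-1) ∈ Sig`.
`cusp1`: `Q ∘ jinv` with `Q` from `c1`; `jinv v₁ = b₁`; derivative `κ κ'` with `jinv_deriv_left`; `cusp2` the same.
`infty`: `jinv (-1/u) = jaux u`; `p ∘ jaux` with `p` from `zero`, `jaux_zero`, `jaux_hasDerivAt` (derivative
`κ/2`), `jaux_im`; `jaux u` is real for real small `u` (`jaux_slit`).
-/

set_option autoImplicit false

open Complex Set Filter Topology Metric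

namespace Pool.Agent.Choc

lemma d7_sq {x : ℝ} (h : x ^ 2 = 1) : x = 1 ∨ x = -1 := by
  have h1 : (x - 1) * (x + 1) = 0 := by ring_nf; linarith [h]
  rcases mul_eq_zero.1 h1 with h2 | h2
  · left; linarith
  · right; linarith

lemma d7_real {z : ℂ} (hz : z.im = 0) : z = ((z.re : ℝ) : ℂ) := by
  apply Complex.ext <;> simp [hz]

/-- transport of one sided data by `jinv` -/
lemma d7_side {t : ℂ → ℂ} {S : Set ℂ} {x y : ℝ}
    (hd : DifferentiableAt ℂ jinv x) (hxy : jinv x = (y : ℂ))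
    (hoff : ∃ ρ > 0, ∀ v ∈ ball (x : ℂ) ρ, DifferentiableAt ℂ jinv v)
    (hre : ∃ ρ > 0, ∀ u : ℝ, (u : ℂ) ∈ ball (x : ℂ) ρ → (jinv u).im = 0)
    (h : SideAt t S y) : SideAt (fun v => t (jinv v)) S x := by
  obtain ⟨ε, hε, τ, hτd, hτe, hτr⟩ := h
  obtain ⟨ρ₁, hρ₁, h1⟩ := hoff
  obtain ⟨ρ₂, hρ₂, h2⟩ := hre
  obtain ⟨ρ₃, hρ₃, h3⟩ := Metric.continuousAt_iff.1 hd.continuousAt ε hε
  rw [hxy] at h3
  have hmap : ∀ v ∈ ball (x : ℂ) (min ρ₁ (min ρ₂ ρ₃)), jinv v ∈ ball (y : ℂ) ε := by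
    intro v hv
    apply h3
    exact lt_of_lt_of_le hv ((min_le_right _ _).trans (min_le_right _ _))
  refine ⟨min ρ₁ (min ρ₂ ρ₃), lt_min hρ₁ (lt_min hρ₂ hρ₃), fun v => τ (jinv v), ?_, ?_, ?_⟩
  · intro v hv
    have hd1 : DifferentiableAt ℂ jinv v := h1 v (ball_subset_ball (min_le_left _ _) hv)
    have hd2 : DifferentiableAt ℂ τ (jinv v) :=
      (hτd (jinv v) (hmap v hv)).differentiableAt (isOpen_ball.mem_nhds (hmap v hv))
    exact (hd2.comp v hd1).differentiableWithinAt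
  · intro v hv hvi
    exact hτe _ (hmap v hv) (jinv_mem hvi).2
  · intro u hu
    have h4 : (jinv u).im = 0 :=
      h2 u (ball_subset_ball ((min_le_right _ _).trans (min_le_left _ _)) hu)
    have h5 := d7_real h4
    have h6 := hmap _ hu
    show τ (jinv u) ∈ S
    rw [h5] at h6 ⊢
    exact hτr _ h6

lemma d7_off_left {x : ℝ} (hx : x < -1) :
    ∃ ρ > 0, ∀ v ∈ ball (x : ℂ) ρ, DifferentiableAt ℂ jinv v := by
  refine ⟨-1 - x, by linarith, fun v hv => jinv_diffAt ?_⟩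
  rintro ⟨h3, h4⟩
  rw [mem_ball, dist_eq_norm] at hv
  have h5 := (Complex.abs_re_le_norm (v - x)).trans_lt hv
  rw [Complex.sub_re, Complex.ofReal_re] at h5
  have h6 := (abs_lt.1 h5).2
  have h7 := (abs_le.1 h4).1
  linarith

lemma d7_re_left {x : ℝ} (hx : x < -1) :
    ∃ ρ > 0, ∀ u : ℝ, (u : ℂ) ∈ ball (x : ℂ) ρ → (jinv u).im = 0 := by
  refine ⟨-1 - x, by linarith, fun u hu => ?_⟩
  rw [mem_ball, dist_eq_norm, ← Complex.ofReal_sub, Complex.norm_real, Real.norm_eq_abs] at hu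
  exact (jinv_left (x := u) (by linarith [(abs_lt.1 hu).2])).2.1

lemma d7_side_left {t : ℂ → ℂ} {S : Set ℂ} {x : ℝ} (hx : x < -1) (h : SideAt t S (jb x)) :
    SideAt (fun v => t (jinv v)) S x :=
  d7_side (jinv_left hx).1 (jinv_ofReal hx) (d7_off_left hx) (d7_re_left hx) h

lemma d7_cusp {t : ℂ → ℂ} {x m : ℝ} (hx : x < -1) (h : CuspAt t (jb x) m) :
    CuspAt (fun v => t (jinv v)) x m := by
  obtain ⟨ε, hε, Q, hQd, hQ0, ⟨κ, hκ, hQκ⟩, hQr, hQu⟩ := h
  obtain ⟨ρ₁, hρ₁, h1⟩ := d7_off_left hx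
  obtain ⟨ρ₂, hρ₂, h2⟩ := d7_re_left hx
  have hxy := jinv_ofReal hx
  have hd := (jinv_left hx).1
  obtain ⟨ρ₃, hρ₃, h3⟩ := Metric.continuousAt_iff.1 hd.continuousAt ε hε
  rw [hxy] at h3
  have hmap : ∀ v ∈ ball (x : ℂ) (min ρ₁ (min ρ₂ ρ₃)), jinv v ∈ ball (jb x : ℂ) ε := by
    intro v hv
    apply h3
    exact lt_of_lt_of_le hv ((min_le_right _ _).trans (min_le_right _ _))
  refine ⟨min ρ₁ (min ρ₂ ρ₃), lt_min hρ₁ (lt_min hρ₂ hρ₃), fun v => Q (jinv v), ?_, ?_, ?_, ?_, ?_⟩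
  · intro v hv
    have hd1 : DifferentiableAt ℂ jinv v := h1 v (ball_subset_ball (min_le_left _ _) hv)
    have hd2 : DifferentiableAt ℂ Q (jinv v) :=
      (hQd (jinv v) (hmap v hv)).differentiableAt (isOpen_ball.mem_nhds (hmap v hv))
    exact (hd2.comp v hd1).differentiableWithinAt
  · show Q (jinv x) = 0
    rw [hxy, hQ0]
  · obtain ⟨κ', hκ', hj⟩ := jinv_deriv_left hx
    refine ⟨κ * κ', mul_pos hκ hκ', ?_⟩
    have hd2 : HasDerivAt Q (κ : ℂ) (jinv x) := by
      rw [hxy, ← hQκ]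
      exact ((hQd _ (mem_ball_self hε)).differentiableAt
        (isOpen_ball.mem_nhds (mem_ball_self hε))).hasDerivAt
    have h4 : deriv (fun v => Q (jinv v)) (x : ℂ) = (κ : ℂ) * (κ' : ℂ) :=
      (hd2.comp (x : ℂ) hj).deriv
    rw [h4]
    push_cast
    rfl
  · intro u hu
    have hub : (u : ℂ) ∈ ball (x : ℂ) (min ρ₁ (min ρ₂ ρ₃)) := by
      rw [mem_ball, dist_eq_norm, ← Complex.ofReal_sub, Complex.norm_real, Real.norm_eq_abs]
      exact hu
    have h4 : (jinv u).im = 0 :=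
      h2 u (ball_subset_ball ((min_le_right _ _).trans (min_le_left _ _)) hub)
    have h5 := d7_real h4
    have h6 := hmap _ hub
    rw [h5, mem_ball, dist_eq_norm, ← Complex.ofReal_sub, Complex.norm_real,
      Real.norm_eq_abs] at h6
    have h7 := hQr _ h6
    show (Q (jinv u)).im = 0
    rw [h5]
    exact h7
  · intro v hv hvi
    exact hQu _ (hmap v hv) (jinv_mem hvi).2

theorem lift2_of_tlift {b₁ b₂ r : ℝ} {t : ℂ → ℂ} (h : TLift b₁ b₂ r t) :
    Lift2 (jr b₁) (jr b₂) (fun v => t (jinv v)) := by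
  have hb1 : b₁ < 1 := h.b_lt.trans h.b2_lt
  have hb2 : 0 < b₂ := h.b1_pos.trans h.b_lt
  have j1 : jr b₁ < -1 := jr_lt h.b1_pos hb1
  have j2 : jr b₂ < -1 := jr_lt hb2 h.b2_lt
  have e1 : jb (jr b₁) = b₁ := jb_jr h.b1_pos hb1
  have e2 : jb (jr b₂) = b₂ := jb_jr hb2 h.b2_lt
  have hr := h.one_lt
  have hOo : IsOpen (Om r) :=
    (isOpen_lt continuous_norm continuous_const).inter
      (isOpen_lt continuous_const Complex.continuous_im)
  have hmem : ∀ v : ℂ, 0 < v.im → jinv v ∈ Om r := by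
    intro v hv
    obtain ⟨h1, h2⟩ := jinv_mem hv
    exact ⟨h1.trans hr, h2⟩
  refine ⟨jr_strict h.b1_pos h.b_lt h.b2_lt.le, j2, ?_, ?_, ?_, ?_, ?_, ?_, ?_, ?_, ?_, ?_⟩
  · exact h.diff.comp jinv_diff (fun v hv => hmem v hv)
  · intro v hv
    exact h.im_pos _ (hmem v hv)
  · intro x hx
    have hx1 : x < -1 := hx.trans j1
    have h1 := jb_lt hx j1
    rw [e1] at h1
    exact d7_side_left hx1 (h.s0 _ (jb_mem hx1).1 h1)
  · intro x hx hx'
    have hx1 : x < -1 := hx'.trans j2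
    have h1 := jb_lt hx hx1
    have h2 := jb_lt hx' j2
    rw [e1] at h1
    rw [e2] at h2
    exact d7_side_left hx1 (h.s1 _ h1 h2)
  · intro x hx hx1
    have h1 := jb_lt hx hx1
    rw [e2] at h1
    exact d7_side_left hx1 (h.s2 _ h1 ((jb_mem hx1).2.1.trans hr))
  · intro x hx
    obtain ⟨hd, him, h1, h2⟩ := jinv_right hx
    refine d7_side hd (d7_real him) ?_ ?_ (h.neg _ (by linarith) h2)
    · refine ⟨x - 1, by linarith, fun v hv => jinv_diffAt ?_⟩
      rintro ⟨h3, h4⟩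
      rw [mem_ball, dist_eq_norm] at hv
      have h5 := (Complex.abs_re_le_norm (v - x)).trans_lt hv
      rw [Complex.sub_re, Complex.ofReal_re] at h5
      have h6 := (abs_lt.1 h5).1
      have h7 := (abs_le.1 h4).2
      linarith
    · refine ⟨x - 1, by linarith, fun u hu => ?_⟩
      rw [mem_ball, dist_eq_norm, ← Complex.ofReal_sub, Complex.norm_real, Real.norm_eq_abs] at hu
      exact (jinv_right (x := u) (by linarith [(abs_lt.1 hu).1])).2.1
  · -- inner
    intro x hx1 hx2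
    have hx2' : 0 ≤ 1 - x ^ 2 := by nlinarith
    have hev : ∀ᶠ v in 𝓝[UH] (x : ℂ), 0 < v.im := self_mem_nhdsWithin
    have hside : ∀ (y : ℝ) (S : Set ℂ), (∀ s ∈ S, 0 < s.im) → SideAt t S y →
        Tendsto jinv (𝓝[UH] (x : ℂ)) (𝓝 (y : ℂ)) →
        ∃ ℓ : ℂ, 0 < ℓ.im ∧ Tendsto (fun v => t (jinv v)) (𝓝[UH] (x : ℂ)) (𝓝 ℓ) := by
      intro y S hS hs ht
      obtain ⟨ε, hε, τ, hτd, hτe, hτr⟩ := hs
      refine ⟨τ y, hS _ (hτr y (mem_ball_self hε)), ?_⟩
      have hc : ContinuousAt τ (y : ℂ) :=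
        ((hτd _ (mem_ball_self hε)).differentiableAt
          (isOpen_ball.mem_nhds (mem_ball_self hε))).continuousAt
      have h3 : Tendsto (fun v => τ (jinv v)) (𝓝[UH] (x : ℂ)) (𝓝 (τ y)) := hc.tendsto.comp ht
      refine h3.congr' ?_
      filter_upwards [ht.eventually (isOpen_ball.mem_nhds (mem_ball_self hε)), hev] with v hv hvi
      exact (hτe _ hv (jinv_mem hvi).2).symm
    have hin := jinv_inner hx1 hx2
    by_cases h0 : 0 < Real.sqrt (1 - x ^ 2)
    · set z₁ : ℂ := -x + Real.sqrt (1 - x ^ 2) * I with hz₁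
      have hre : z₁.re = -x := by simp [hz₁]
      have him : z₁.im = Real.sqrt (1 - x ^ 2) := by simp [hz₁]
      have hn : ‖z₁‖ = 1 := by
        have h3 : Complex.normSq z₁ = 1 := by
          rw [Complex.normSq_apply, hre, him, Real.mul_self_sqrt hx2']
          ring
        rw [Complex.norm_def, h3, Real.sqrt_one]
      have hz : z₁ ∈ Om r := ⟨by rw [hn]; exact hr, by rw [him]; exact h0⟩
      refine ⟨t z₁, h.im_pos _ hz, ?_⟩
      have hc : ContinuousAt t z₁ :=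
        ((h.diff z₁ hz).differentiableAt (hOo.mem_nhds hz)).continuousAt
      exact hc.tendsto.comp hin
    · have h2 : Real.sqrt (1 - x ^ 2) = 0 := le_antisymm (not_lt.1 h0) (Real.sqrt_nonneg _)
      have h4 : x ^ 2 = 1 := by
        have := (Real.sqrt_eq_zero hx2').1 h2
        linarith
      rw [h2] at hin
      rcases (d7_sq h4) with h5 | h5
      · refine hside (-1) Sig (fun s hs => hs.1) (h.neg _ (by linarith) (by norm_num)) ?_
        rw [h5] at hin ⊢
        simpa using hin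
      · refine hside 1 (Vert (-2)) (fun s hs => hs.2) (h.s2 _ h.b2_lt hr) ?_
        rw [h5] at hin ⊢
        simpa using hin
  · refine d7_cusp j1 ?_
    rw [e1]
    exact h.c1
  · refine d7_cusp j2 ?_
    rw [e2]
    exact h.c2
  · -- infinity
    obtain ⟨ε, hε, p, hpd, hp0, ⟨κ, hκ, hpκ⟩, hpr, hpu⟩ := h.zero
    have hcont : ContinuousAt jaux 0 := jaux_hasDerivAt.continuousAt
    obtain ⟨ρ, hρ, hball⟩ := Metric.continuousAt_iff.1 hcont _ hε
    rw [jaux_zero] at hball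
    have hsmall : ∀ u : ℂ, u ∈ ball (0 : ℂ) (min ρ 1) → jaux u ∈ ball (0 : ℂ) ε := by
      intro u hu
      exact hball (lt_of_lt_of_le hu (min_le_left _ _))
    refine ⟨min ρ 1, lt_min hρ one_pos, fun u => p (jaux u), ?_, ?_, ?_, ?_, ?_⟩
    · intro u hu
      have hu1 : u ∈ ball (0 : ℂ) 1 := ball_subset_ball (min_le_right _ _) hu
      have hd1 : DifferentiableAt ℂ jaux u :=
        (jaux_diff u hu1).differentiableAt (isOpen_ball.mem_nhds hu1)
      have hd2 : DifferentiableAt ℂ p (jaux u) :=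
        (hpd _ (hsmall u hu)).differentiableAt (isOpen_ball.mem_nhds (hsmall u hu))
      exact (hd2.comp u hd1).differentiableWithinAt
    · show p (jaux 0) = 0
      rw [jaux_zero, hp0]
    · refine ⟨κ / 2, by linarith, ?_⟩
      have hd2 : HasDerivAt p (κ : ℂ) (jaux 0) := by
        rw [jaux_zero, ← hpκ]
        exact ((hpd _ (mem_ball_self hε)).differentiableAt
          (isOpen_ball.mem_nhds (mem_ball_self hε))).hasDerivAt
      have h1 : deriv (fun u => p (jaux u)) 0 = (κ : ℂ) * (1 / 2) :=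
        (hd2.comp (0 : ℂ) jaux_hasDerivAt).deriv
      rw [h1]
      push_cast
      ring
    · intro u hu
      have hu' : (u : ℂ) ∈ ball (0 : ℂ) (min ρ 1) := by
        rw [mem_ball, dist_zero_right, Complex.norm_real, Real.norm_eq_abs]; exact hu
      have hu1 : |u| < 1 := hu.trans_le (min_le_right _ _)
      have h1 := (jaux_slit (u := (u : ℂ)) (fun h2 => by
        have := h2.2
        rw [Complex.ofReal_re] at this
        linarith)).2.2.2.1
      rw [Complex.conj_ofReal] at h1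
      have h3 : (jaux u).im = 0 := Complex.conj_eq_iff_im.1 h1.symm
      have h5 := d7_real h3
      have h6 := hsmall _ hu'
      rw [h5, mem_ball, dist_zero_right, Complex.norm_real, Real.norm_eq_abs] at h6
      show (p (jaux u)).im = 0
      rw [h5]
      exact hpr _ h6
    · intro v hv hvi
      obtain ⟨h2, h3, h4⟩ := hpu (jaux v) (hsmall v hv) (jaux_im hvi).1
      refine ⟨h2, h3, ?_⟩
      have h5 : jinv (-1 / v) = jaux v := by
        unfold jinv
        congr 1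
        have hv0 : v ≠ 0 := by
          intro h6; rw [h6] at hvi; simp at hvi
        field_simp
      show t (jinv (-1 / v)) = _
      rw [h5]
      exact h4

end Pool.Agent.Choc
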