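import Pool.Agent.Lib.MP_2b3e36_an.Re.D6
import Pool.Agent.Lib.MP_2b3e36_an.Re.D7

/-!
D8. The data of a competitor.
-/

set_option autoImplicit false

open Complex Set Filter Topology Metric

namespace Pool.Agent.Choc

theorem lift2_exists {b₁ b₂ r : ℝ} {f : ℂ → ℂ} (h : Sol2 b₁ b₂ r f) :
    ∃ g : ℂ → ℂ, Lift2 (jr b₁) (jr b₂) g := by
  obtain ⟨t, ht⟩ := tlift_exists h
  exact ⟨_, lift2_of_tlift ht⟩

end Pool.Agent.Choc
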