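import Pool.Agent.Lib.MP_2b3e36_an.Ex.Defs

/-!
# One zero and two real ones: definitions

`Wd η` is the region `-2 < Re τ < 0` above the geodesic from `-1` to `0` without the slit
`{-1 + i t : t ≥ η}`. Its boundary, in the positive sense: the imaginary axis from `0` to `i ∞`, the
slit from `i ∞` down to `-1 + i η` and back, the line `Re τ = -2` from `i ∞` to `-2`, the real segment
from `-2` to `-1` (the free part), the geodesic from `-1` to `0`.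
-/

set_option autoImplicit false

open Complex Set Filter Topology Metric

namespace Pool.Agent.Choc

noncomputable section

/-- The slit region in the upper half plane. -/
def Wd (η : ℝ) : Set ℂ :=
  {τ | 0 < τ.im ∧ -2 < τ.re ∧ τ.re < 0 ∧ 1 / 2 < ‖τ + 1 / 2‖ ∧ ¬(τ.re = -1 ∧ η ≤ τ.im)}

/-- A vertical half line. -/
def Vert (c : ℝ) : Set ℂ := {τ | τ.re = c ∧ 0 < τ.im}

/-- A solution of the interpolation problem with the simple zero `0` and the simple real ones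
`b₁ < b₂` in `(0,1)`, holomorphic in the disc of radius `r > 1`. -/
structure Sol2 (b₁ b₂ r : ℝ) (f : ℂ → ℂ) : Prop where
  one_lt : 1 < r
  b1_pos : 0 < b₁
  b_lt : b₁ < b₂
  b2_lt : b₂ < 1
  diff : DifferentiableOn ℂ f (ball 0 r)
  real : ∀ z ∈ ball (0 : ℂ) r, f (starRingEnd ℂ z) = starRingEnd ℂ (f z)
  zero : ∀ z ∈ ball (0 : ℂ) r, f z = 0 ↔ z = 0
  one : ∀ z ∈ ball (0 : ℂ) r, f z = 1 ↔ z = b₁ ∨ z = b₂
  deriv_zero : deriv f 0 ≠ 0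
  deriv_b1 : deriv f b₁ ≠ 0
  deriv_b2 : deriv f b₂ ≠ 0

/-- The pair `({0}, {b₁, b₂})` is realisable. -/
def Realp2 (b₁ b₂ : ℝ) : Prop := ∃ (r : ℝ) (f : ℂ → ℂ), Sol2 b₁ b₂ r f

/-- `T` extends holomorphically to a neighbourhood of the real point `x`, with real points mapped
into `S`. -/
def SideAt (T : ℂ → ℂ) (S : Set ℂ) (x : ℝ) : Prop :=
  ∃ r > 0, ∃ τ : ℂ → ℂ, DifferentiableOn ℂ τ (ball (x : ℂ) r) ∧
    (∀ v ∈ ball (x : ℂ) r, 0 < v.im → T v = τ v) ∧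
    (∀ u : ℝ, (u : ℂ) ∈ ball (x : ℂ) r → τ u ∈ S)

/-- The same with a nonvanishing derivative. -/
def SideNd (T : ℂ → ℂ) (S : Set ℂ) (x : ℝ) : Prop :=
  ∃ r > 0, ∃ τ : ℂ → ℂ, DifferentiableOn ℂ τ (ball (x : ℂ) r) ∧
    (∀ v ∈ ball (x : ℂ) r, 0 < v.im → T v = τ v) ∧
    (∀ u : ℝ, (u : ℂ) ∈ ball (x : ℂ) r → τ u ∈ S) ∧ deriv τ x ≠ 0

/-- Behaviour at a real point `x` mapped to `i ∞`: `T = log Q / (pi i) - m`. -/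
def CuspAt (T : ℂ → ℂ) (x m : ℝ) : Prop :=
  ∃ r > 0, ∃ Q : ℂ → ℂ, DifferentiableOn ℂ Q (ball (x : ℂ) r) ∧ Q x = 0 ∧
    (∃ κ : ℝ, 0 < κ ∧ deriv Q x = κ) ∧ (∀ u : ℝ, |u - x| < r → (Q u).im = 0) ∧
    (∀ v ∈ ball (x : ℂ) r, 0 < v.im → 0 < (Q v).im ∧ ‖Q v‖ < 1 ∧
      T v = log (Q v) / (Real.pi * I) - m)

/-- Behaviour at infinity, mapped to `0`. -/
def InfAt (T : ℂ → ℂ) : Prop :=
  ∃ r > 0, ∃ p : ℂ → ℂ, DifferentiableOn ℂ p (ball (0 : ℂ) r) ∧ p 0 = 0 ∧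
    (∃ κ : ℝ, 0 < κ ∧ deriv p 0 = κ) ∧ (∀ u : ℝ, |u| < r → (p u).im = 0) ∧
    (∀ v ∈ ball (0 : ℂ) r, 0 < v.im → 0 < (p v).im ∧ ‖p v‖ < 1 ∧
      T (-1 / v) = -(Real.pi * I) / log (p v))

/-- The conformal map of the upper half plane onto `Wd η` with its boundary data: `v₁`, `v₂` are mapped
to `i ∞` (right and left of the slit), `vc` to the tip, `-1` to `-2`, `1` to `-1`, `∞` to `0`. -/
structure Model2 (η : ℝ) (T : ℂ → ℂ) (v₁ v₂ vc : ℝ) : Prop where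
  eta_pos : 0 < η
  lt1 : v₁ < vc
  lt2 : vc < v₂
  lt3 : v₂ < -1
  diff : DifferentiableOn ℂ T UH
  inj : InjOn T UH
  deriv_ne : ∀ v ∈ UH, deriv T v ≠ 0
  img : T '' UH = Wd η
  side0 : ∀ x : ℝ, x < v₁ → SideNd T (Vert 0) x
  slit : ∀ x : ℝ, v₁ < x → x < v₂ → ∃ r > 0, ∃ τ : ℂ → ℂ, DifferentiableOn ℂ τ (ball (x : ℂ) r) ∧
    (∀ v ∈ ball (x : ℂ) r, 0 < v.im → T v = τ v) ∧
    (∀ u : ℝ, (u : ℂ) ∈ ball (x : ℂ) r → (τ u).re = -1 ∧ η ≤ (τ u).im) ∧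
    (x ≠ vc → deriv τ x ≠ 0) ∧
    (x = vc → deriv τ x = 0 ∧ deriv (deriv τ) x ≠ 0 ∧ τ x = -1 + η * I)
  side2 : ∀ x : ℝ, v₂ < x → x < -1 → SideNd T (Vert (-2)) x
  free : ∀ x : ℝ, -1 < x → x < 1 → ∃ r > 0, ∃ τ : ℂ → ℂ, DifferentiableOn ℂ τ (ball (x : ℂ) r) ∧
    (∀ v ∈ ball (x : ℂ) r, 0 < v.im → T v = τ v) ∧
    (∀ u : ℝ, (u : ℂ) ∈ ball (x : ℂ) r → (τ u).im = 0 ∧ -2 < (τ u).re ∧ (τ u).re < -1) ∧
    ∃ κ : ℝ, 0 < κ ∧ deriv τ x = κ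
  arc : ∀ x : ℝ, 1 < x → ∃ r > 0, ∃ τ : ℂ → ℂ, DifferentiableOn ℂ τ (ball (x : ℂ) r) ∧
    (∀ v ∈ ball (x : ℂ) r, 0 < v.im → T v = τ v) ∧
    (∀ u : ℝ, (u : ℂ) ∈ ball (x : ℂ) r → τ u ∈ Sig) ∧
    ∃ κ : ℝ, 0 < κ ∧ deriv τ x = -(κ * I) * (τ x + 1 / 2)
  cusp1 : CuspAt T v₁ 1
  cusp2 : CuspAt T v₂ 2
  negOne : ∃ r > 0, ∃ α : ℂ → ℂ, DifferentiableOn ℂ α (ball (-1 : ℂ) r) ∧ α (-1) = 0 ∧
    (∃ κ : ℝ, 0 < κ ∧ deriv α (-1) = κ) ∧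
    (∀ v ∈ ball (-1 : ℂ) r, 0 < v.im → 0 < (α v).im ∧ T v = -2 + (α v) ^ ((1 : ℂ) / 2))
  posOne : ∃ r > 0, ∃ α : ℂ → ℂ, DifferentiableOn ℂ α (ball (1 : ℂ) r) ∧ α 1 = 0 ∧
    (∃ κ : ℝ, 0 < κ ∧ deriv α 1 = κ) ∧
    (∀ v ∈ ball (1 : ℂ) r, 0 < v.im → 0 < (α v).im ∧
      T v = -1 / (1 + I * (α v) ^ ((1 : ℂ) / 2)))
  infty : InfAt T

/-- The data of a competitor in the coordinate of the upper half plane. -/
structure Lift2 (v₁ v₂ : ℝ) (g : ℂ → ℂ) : Prop where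
  lt1 : v₁ < v₂
  lt2 : v₂ < -1
  diff : DifferentiableOn ℂ g UH
  im_pos : ∀ v ∈ UH, 0 < (g v).im
  side0 : ∀ x : ℝ, x < v₁ → SideAt g (Vert 0) x
  side1 : ∀ x : ℝ, v₁ < x → x < v₂ → SideAt g (Vert (-1)) x
  side2 : ∀ x : ℝ, v₂ < x → x < -1 → SideAt g (Vert (-2)) x
  arc : ∀ x : ℝ, 1 < x → SideAt g Sig x
  inner : ∀ x : ℝ, -1 ≤ x → x ≤ 1 → ∃ ℓ : ℂ, 0 < ℓ.im ∧ Tendsto g (𝓝[UH] (x : ℂ)) (𝓝 ℓ)
  cusp1 : CuspAt g v₁ 1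
  cusp2 : CuspAt g v₂ 2
  infty : InfAt g

/-- The first invariant of the marked points `v₁ < v₂ < -1 < 1`. -/
def ea (v₁ v₂ : ℝ) : ℝ := (-1 - v₁) / (v₂ - v₁)

/-- The second invariant. -/
def ec (v₁ v₂ : ℝ) : ℝ := (1 - v₁) / (v₂ - v₁)

/-- `F` is a conformal map of the upper half plane onto `Wd η`, `0` and `1` are mapped to `i ∞`, `x` to
`-2`, `w` to `-1` and `∞` to `0`. -/
structure IsEnds (η x w : ℝ) (F : ℂ → ℂ) : Prop where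
  one_lt : 1 < x
  x_lt : x < w
  diff : DifferentiableOn ℂ F UH
  inj : InjOn F UH
  img : F '' UH = Wd η
  zero : Tendsto (fun v => (F v).im) (𝓝[UH] (0 : ℂ)) atTop
  one : Tendsto (fun v => (F v).im) (𝓝[UH] (1 : ℂ)) atTop
  atx : Tendsto F (𝓝[UH] (x : ℂ)) (𝓝 (-2))
  atw : Tendsto F (𝓝[UH] (w : ℂ)) (𝓝 (-1))
  infty : Tendsto F (cocompact ℂ ⊓ 𝓟 UH) (𝓝 0)

/-- `x`, `w` are the positions of the ends `-2` and `-1` of `Wd η`. -/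
def Ends (η x w : ℝ) : Prop := ∃ F : ℂ → ℂ, IsEnds η x w F

/-- The Joukowski coordinate of a real point. -/
def jr (b : ℝ) : ℝ := -(b + b⁻¹) / 2

/-- The criterion for the zero `0` and the ones `0 < b₁ < b₂ < 1`. -/
def Crit2 (b₁ b₂ : ℝ) : Prop :=
  ∃ η x w : ℝ, 0 < η ∧ Ends η x w ∧ ea (jr b₁) (jr b₂) < x ∧ w < ec (jr b₁) (jr b₂)

end

end Pool.Agent.Choc
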