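import Pool.Agent.Lib.MP_2b3e36_an.Re.Defs2

/-!
# One zero and two real ones: auxiliary definitions for the competitor and for rational functions
-/

set_option autoImplicit false

open Complex Set Filter Topology Metric Polynomial

namespace Pool.Agent.Choc

noncomputable section

/-- A real lift: `J ∘ G = F` on `Ω`, `G` is real on the reals and vanishes only at the real point
`c`. -/
structure RLift (Ω : Set ℂ) (c : ℝ) (F G : ℂ → ℂ) : Prop where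
  diff : DifferentiableOn ℂ G Ω
  lt_one : ∀ z ∈ Ω, ‖G z‖ < 1
  lift : ∀ z ∈ Ω, J (G z) = F z
  real : ∀ z ∈ Ω, G (starRingEnd ℂ z) = starRingEnd ℂ (G z)
  zero : ∀ z ∈ Ω, G z = 0 ↔ z = c
  der : deriv F c = -16 * deriv G c
  sgn : ∀ x : ℝ, (x : ℂ) ∈ Ω → (G x).im = 0 ∧ ((F x).re < 1 → 0 < (G x).re) ∧
    (1 < (F x).re → (G x).re < 0)

/-- A logarithm `l` of `G` on the upper half of `Ω`, where `G` is real on the reals, vanishes only at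
the real point `c` and has a positive derivative there. -/
structure LLift (Ω : Set ℂ) (c : ℝ) (G l : ℂ → ℂ) : Prop where
  diff : DifferentiableOn ℂ l (Ω ∩ UH)
  exp : ∀ z ∈ Ω ∩ UH, exp (l z) = G z
  near : ∃ ρ > 0, ball (c : ℂ) ρ ⊆ Ω ∧ ∀ z ∈ ball (c : ℂ) ρ, 0 < z.im →
    0 < (G z).im ∧ l z = log (G z)
  right : ∀ x : ℝ, (x : ℂ) ∈ Ω → c < x → ∃ ρ > 0, ball (x : ℂ) ρ ⊆ Ω ∧ ∃ m : ℂ → ℂ,
    DifferentiableOn ℂ m (ball (x : ℂ) ρ) ∧ (∀ z ∈ ball (x : ℂ) ρ, Complex.exp (m z) = G z) ∧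
    (∀ z ∈ ball (x : ℂ) ρ, 0 < z.im → l z = m z) ∧
    (∀ u : ℝ, (u : ℂ) ∈ ball (x : ℂ) ρ → (m u).im = 0)
  left : ∀ x : ℝ, (x : ℂ) ∈ Ω → x < c → ∃ ρ > 0, ball (x : ℂ) ρ ⊆ Ω ∧ ∃ m : ℂ → ℂ,
    DifferentiableOn ℂ m (ball (x : ℂ) ρ) ∧ (∀ z ∈ ball (x : ℂ) ρ, Complex.exp (m z) = G z) ∧
    (∀ z ∈ ball (x : ℂ) ρ, 0 < z.im → l z = m z) ∧
    (∀ u : ℝ, (u : ℂ) ∈ ball (x : ℂ) ρ → (m u).im = Real.pi)

/-- Left part of the disc. -/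
def SL (b r : ℝ) : Set ℂ := {z | ‖z‖ < r ∧ z.re < b}

/-- Middle part of the disc. -/
def SM (b r : ℝ) : Set ℂ := {z | ‖z‖ < r ∧ 0 < z.re ∧ z.re < b}

/-- Right part of the disc. -/
def SR (b r : ℝ) : Set ℂ := {z | ‖z‖ < r ∧ b < z.re}

/-- The lifts of a solution on the three pieces and their logarithms. -/
structure Pieces (b₁ b₂ r : ℝ) (f p G₁ G₂ l₀ l₁ l₂ : ℂ → ℂ) : Prop where
  hp : RLift (SL b₁ r) 0 (fun z => 1 - f z) p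
  h1 : RLift (SM b₂ r) b₁ f G₁
  h2 : RLift (SR b₁ r) b₂ f G₂
  k0 : LLift (SL b₁ r) 0 p l₀
  k1 : LLift (SM b₂ r) b₁ (fun z => -G₁ z) l₁
  k2 : LLift (SR b₁ r) b₂ G₂ l₂

/-- The exponent of a solution on the upper half disc. -/
structure TLift (b₁ b₂ r : ℝ) (t : ℂ → ℂ) : Prop where
  one_lt : 1 < r
  b1_pos : 0 < b₁
  b_lt : b₁ < b₂
  b2_lt : b₂ < 1
  diff : DifferentiableOn ℂ t (Om r)
  im_pos : ∀ z ∈ Om r, 0 < (t z).im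
  neg : ∀ x : ℝ, -r < x → x < 0 → SideAt t Sig x
  s0 : ∀ x : ℝ, 0 < x → x < b₁ → SideAt t (Vert 0) x
  s1 : ∀ x : ℝ, b₁ < x → x < b₂ → SideAt t (Vert (-1)) x
  s2 : ∀ x : ℝ, b₂ < x → x < r → SideAt t (Vert (-2)) x
  c1 : CuspAt t b₁ 1
  c2 : CuspAt t b₂ 2
  zero : ∃ ρ > 0, ∃ p : ℂ → ℂ, DifferentiableOn ℂ p (ball (0 : ℂ) ρ) ∧ p 0 = 0 ∧
    (∃ κ : ℝ, 0 < κ ∧ deriv p 0 = κ) ∧ (∀ u : ℝ, |u| < ρ → (p u).im = 0) ∧
    (∀ z ∈ ball (0 : ℂ) ρ, 0 < z.im → 0 < (p z).im ∧ ‖p z‖ < 1 ∧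
      t z = -(Real.pi * I) / log (p z))

/-- The point of `(0,1)` with the Joukowski coordinate `v < -1`. -/
def jb (v : ℝ) : ℝ := -v - Real.sqrt (v ^ 2 - 1)

/-- There is a stable real rational function `P/Q` whose zeros in the closed unit disc are exactly the
simple zero `a` and whose ones there are exactly the simple ones `b₁`, `b₂`. -/
def StableSol2 (a b₁ b₂ : ℝ) : Prop :=
  ∃ P Q : ℝ[X], (∀ z : ℂ, ‖z‖ ≤ 1 → aeval z Q ≠ 0) ∧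
    (∀ z : ℂ, ‖z‖ ≤ 1 → (aeval z P = 0 ↔ z = a)) ∧
    (∀ z : ℂ, ‖z‖ ≤ 1 → (aeval z P = aeval z Q ↔ z = b₁ ∨ z = b₂)) ∧
    aeval (a : ℂ) (derivative P) ≠ 0 ∧
    aeval (b₁ : ℂ) (derivative (P - Q)) ≠ 0 ∧
    aeval (b₂ : ℂ) (derivative (P - Q)) ≠ 0

/-- A holomorphic solution in a larger disc for the zero `a` and the ones `b₁`, `b₂`. -/
structure SolA2 (a b₁ b₂ r : ℝ) (f : ℂ → ℂ) : Prop where
  one_lt : 1 < r
  diff : DifferentiableOn ℂ f (ball 0 r)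
  real : ∀ z ∈ ball (0 : ℂ) r, f (starRingEnd ℂ z) = starRingEnd ℂ (f z)
  zero : ∀ z ∈ ball (0 : ℂ) r, f z = 0 ↔ z = a
  one : ∀ z ∈ ball (0 : ℂ) r, f z = 1 ↔ z = b₁ ∨ z = b₂
  deriv_a : deriv f a ≠ 0
  deriv_b1 : deriv f b₁ ≠ 0
  deriv_b2 : deriv f b₂ ≠ 0

/-- The real Moebius map moving `a` to `0`. -/
def mo (a b : ℝ) : ℝ := (b - a) / (1 - a * b)

/-- The limits of the ends of `Wd η` as `η → 0` and `η → ∞`. -/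
structure EndsLim : Prop where
  small : ∀ ε : ℝ, 0 < ε → ∃ η x w : ℝ, 0 < η ∧ Ends η x w ∧ x ≤ 1 + ε ∧ w ≤ 1 + ε
  large : ∀ M : ℝ, ∃ η x w : ℝ, 0 < η ∧ Ends η x w ∧ M ≤ x

end

end Pool.Agent.Choc
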