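import Pool.Agent.Lib.MP_2b3e36_an.Re.W5
import Pool.Agent.Lib.MP_2b3e36_an.Ex.F1

/-!
F2. The extremal function near the real diameter (`F1Loc`, `f1_build`, `f1_loc_zero` are in F1; here
`X v = nome (T v)`, so `f1_g X z = J (nome (T (jou z)))`).

Proof. `jou x = jr x` for real `x ≠ 0`. `loc2_pos`: `0 < x < 1`, `jr x < -1`, `jr x ≠ v₁, v₂` (`jb_jr`). If `jr x < v₁`:
`side0`, `τ u ∈ Vert 0`; `v₁ < jr x < v₂`: `slit`, `Re τ u = -1`; `v₂ < jr x < -1`: `side2`, `Re τ u = -2`. `f1_build` with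
`F z = J (nome (τ (jou z)))`: `nome (i s) = exp (- pi s) ∈ (0,1)`, `nome (-1 + i s) ∈ (-1,0)`,
`nome (-2 + i s) ∈ (0,1)`: `J` is real there (`J_Ioo`, `J_Ioo_neg`) and `≠ 0, 1`.
`loc2_neg`: `-1 < x < 0`, `jr x > 1`, `arc`, `J_geo` (see `f1_loc_neg`).
`loc2_one₁`: `cusp1`: `nome (T v) = exp (log Q - pi i) = - Q v`; `F z = J (- Q (jou z))`, `F (jb v₁) = J 0 = 1`, derivative
`-16 * (- κ) * jou' (jb v₁) ≠ 0` (`J_hasDerivAt_zero`; `jou' b = -(1 - 1/b^2)/2`); real on the reals since `Q` is real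
and `‖Q‖ < 1` near `v₁` (`Q v₁ = 0`), `J_conj`. `loc2_one₂`: `cusp2`: `nome (T v) = exp (log Q - 2 pi i) = Q v`.
`loc2_zero`: as `f1_loc_zero`: for `z` near `0` in `UH`, `jou z = -1/u`, `u = 2z/(1+z^2)`, `infty`,
`F z = 1 - J (p (2z/(1+z^2)))`.
-/

set_option autoImplicit false

open Complex Set Filter Topology Metric

namespace Pool.Agent.Choc

theorem f2_real {τ : ℂ} {k : ℤ} (h : τ.re = k) : (J (nome τ)).im = 0 := by
  have h1 : (nome τ).im = 0 := by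
    unfold nome
    rw [Complex.exp_im]
    have h2 : ((Real.pi : ℂ) * I * τ).im = k * Real.pi := by
      simp [h, mul_comm]
    rw [h2, Real.sin_int_mul_pi, mul_zero]
  have h2 := J_conj (nome τ)
  rw [Complex.conj_eq_iff_im.2 h1] at h2
  exact Complex.conj_eq_iff_im.1 h2.symm

theorem f2_build {T τ : ℂ → ℂ} {x w r : ℝ} (hx0 : x ≠ 0) (hx1 : |x| < 1)
    (hw : jou x = w) (hr : 0 < r) (hτ : DifferentiableOn ℂ τ (ball (w : ℂ) r))
    (hT : ∀ v ∈ ball (w : ℂ) r, 0 < v.im → T v = τ v)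
    (hS : ∀ u : ℝ, (u : ℂ) ∈ ball (w : ℂ) r → 0 < (τ u).im ∧ (J (nome (τ u))).im = 0) :
    ∃ ρ F, F1Loc (fun v => nome (T v)) x ρ F ∧ F x ≠ 0 ∧ F x ≠ 1 := by
  have hwb : (w : ℂ) ∈ ball (w : ℂ) r := mem_ball_self hr
  obtain ⟨ρ, hF⟩ := f1_build (X := fun v => nome (T v)) hx0 hx1 hw hr hτ
    (fun v hv hvi => by
      show nome (T v) = nome (τ v)
      rw [hT v hv hvi]) (hS _ hwb).1 (fun u hu => (hS u hu).2)
  refine ⟨ρ, _, hF, ?_, ?_⟩
  · show J (nome (τ (jou x))) ≠ 0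
    rw [hw]
    exact J_ne_zero (nome_norm_lt (hS _ hwb).1)
  · show J (nome (τ (jou x))) ≠ 1
    rw [hw]
    intro h
    have h2 := (J_eq_one_iff (nome_norm_lt (hS _ hwb).1)).1 h
    exact Complex.exp_ne_zero _ h2

theorem f2_jr_neg {x : ℝ} (h0 : -1 < x) (h1 : x < 0) : 1 < jr x := by
  have h2 := jr_lt (b := -x) (by linarith) (by linarith)
  have h3 : jr (-x) = -jr x := by
    unfold jr
    rw [inv_neg]
    ring
  linarith

theorem f2_cusp {T : ℂ → ℂ} {v m s : ℝ} (hv : v < -1) (hs0 : s ≠ 0)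
    (hs : exp (-(Real.pi * I * m)) = (s : ℂ)) (hs1 : |s| = 1) (h : CuspAt T v m) :
    ∃ ρ F, F1Loc (fun v => nome (T v)) (jb v) ρ F ∧ F (jb v) = 1 ∧ deriv F (jb v) ≠ 0 := by
  obtain ⟨r, hr, Q, hQd, hQ0, ⟨κ, hκ, hQκ⟩, hQr, hQu⟩ := h
  obtain ⟨hb0, hb1, hbv⟩ := jb_mem hv
  have hw : jou (jb v : ℂ) = (v : ℂ) := by rw [jou_ofReal, hbv]
  have hx0' : (jb v : ℂ) ≠ 0 := Complex.ofReal_ne_zero.2 hb0.ne'
  have hcj : ContinuousAt jou (jb v : ℂ) := (f1_jou_diff hx0').continuousAt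
  have hwb : (v : ℂ) ∈ ball (v : ℂ) r := mem_ball_self hr
  have hQw : DifferentiableAt ℂ Q v := (hQd _ hwb).differentiableAt (isOpen_ball.mem_nhds hwb)
  have hct : ContinuousAt (fun z => Q (jou z)) (jb v : ℂ) := by
    apply ContinuousAt.comp (g := Q) (f := jou)
    · rw [hw]
      exact hQw.continuousAt
    · exact hcj
  have e1 : ∀ᶠ z in 𝓝 (jb v : ℂ), z ≠ 0 := eventually_ne_nhds hx0'
  have e2 : ∀ᶠ z in 𝓝 (jb v : ℂ), ‖z‖ < 1 :=
    (isOpen_lt continuous_norm continuous_const).eventually_mem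
      (by
        show ‖(jb v : ℂ)‖ < 1
        rw [Complex.norm_real, Real.norm_eq_abs, abs_of_pos hb0]
        exact hb1)
  have e3 : ∀ᶠ z in 𝓝 (jb v : ℂ), jou z ∈ ball (v : ℂ) r :=
    hcj.eventually (by rw [hw]; exact isOpen_ball.mem_nhds hwb)
  have e4 : ∀ᶠ z in 𝓝 (jb v : ℂ), ‖Q (jou z)‖ < 1 := by
    apply hct.eventually (p := fun w : ℂ => ‖w‖ < 1)
    apply (isOpen_lt continuous_norm continuous_const).mem_nhds
    show ‖Q (jou (jb v))‖ < 1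
    rw [hw, hQ0, norm_zero]
    exact one_pos
  obtain ⟨ρ, hρ, hball⟩ := Metric.eventually_nhds_iff_ball.1 (e1.and (e2.and (e3.and e4)))
  have hns : ∀ q : ℂ, ‖q‖ < 1 → ‖(s : ℂ) * q‖ < 1 := by
    intro q hq
    rw [norm_mul, Complex.norm_real, Real.norm_eq_abs, hs1, one_mul]
    exact hq
  refine ⟨ρ, fun z => J ((s : ℂ) * Q (jou z)), ⟨hρ, ?_, ?_, ?_⟩, ?_, ?_⟩
  · intro z hz
    obtain ⟨h1, h2, h3, h4⟩ := hball z hz
    apply DifferentiableAt.differentiableWithinAt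
    have hd1 : DifferentiableAt ℂ Q (jou z) :=
      (hQd _ h3).differentiableAt (isOpen_ball.mem_nhds h3)
    have hd2 : DifferentiableAt ℂ (fun z => Q (jou z)) z := hd1.comp z (f1_jou_diff h1)
    have hd3 : DifferentiableAt ℂ (fun z => (s : ℂ) * Q (jou z)) z := hd2.const_mul _
    exact (f1_J_diff (hns _ h4)).comp z hd3
  · intro z hz him
    obtain ⟨h1, h2, h3, h4⟩ := hball z hz
    obtain ⟨h5, h6, h7⟩ := hQu _ h3 (jou_im h2 him)
    show J ((s : ℂ) * Q (jou z)) = J (nome (T (jou z)))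
    have hQne : Q (jou z) ≠ 0 := by
      intro h
      rw [h] at h5
      simp at h5
    have h8 : nome (T (jou z)) = (s : ℂ) * Q (jou z) := by
      unfold nome
      rw [h7]
      have hpi : (Real.pi : ℂ) * I ≠ 0 :=
        mul_ne_zero (Complex.ofReal_ne_zero.2 Real.pi_ne_zero) Complex.I_ne_zero
      have e : (Real.pi : ℂ) * I * (log (Q (jou z)) / (Real.pi * I) - m) =
          -(Real.pi * I * m) + log (Q (jou z)) := by
        field_simp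
        ring
      rw [e, Complex.exp_add, Complex.exp_log hQne, hs]
    rw [h8]
  · intro u hu
    obtain ⟨h1, h2, h3, h4⟩ := hball _ hu
    show (J ((s : ℂ) * Q (jou u))).im = 0
    rw [jou_ofReal] at h3 ⊢
    have h5 : |jr u - v| < r := by
      rw [mem_ball, dist_eq_norm, ← Complex.ofReal_sub, Complex.norm_real,
        Real.norm_eq_abs] at h3
      exact h3
    have h6 : ((s : ℂ) * Q (jr u)).im = 0 := by
      rw [Complex.im_ofReal_mul, hQr _ h5, mul_zero]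
    have h7 := J_conj ((s : ℂ) * Q (jr u))
    rw [Complex.conj_eq_iff_im.2 h6] at h7
    exact Complex.conj_eq_iff_im.1 h7.symm
  · show J ((s : ℂ) * Q (jou (jb v))) = 1
    rw [hw, hQ0, mul_zero, J_zero]
  · have hj : HasDerivAt jou (-(1 + -(((jb v : ℂ)) ^ 2)⁻¹) / 2) (jb v : ℂ) := by
      have h5 := ((hasDerivAt_id (jb v : ℂ)).add (hasDerivAt_inv hx0')).neg.div_const 2
      exact h5
    have hQ' : HasDerivAt Q (κ : ℂ) (jou (jb v : ℂ)) := by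
      rw [hw, ← hQκ]
      exact hQw.hasDerivAt
    have h4 : HasDerivAt (fun z => Q (jou z)) ((κ : ℂ) * (-(1 + -(((jb v : ℂ)) ^ 2)⁻¹) / 2))
        (jb v : ℂ) := HasDerivAt.comp (h₂ := Q) (h := jou) _ hQ' hj
    have h5 := h4.const_mul (s : ℂ)
    have hJ' : HasDerivAt J (-16) ((s : ℂ) * Q (jou (jb v : ℂ))) := by
      rw [hw, hQ0, mul_zero]
      exact J_hasDerivAt_zero
    have h6 : HasDerivAt (fun z => J ((s : ℂ) * Q (jou z)))
        (-16 * ((s : ℂ) * ((κ : ℂ) * (-(1 + -(((jb v : ℂ)) ^ 2)⁻¹) / 2)))) (jb v : ℂ) :=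
      HasDerivAt.comp (h₂ := J) (h := fun z => (s : ℂ) * Q (jou z)) _ hJ' h5
    rw [h6.deriv]
    apply mul_ne_zero (by norm_num)
    apply mul_ne_zero (Complex.ofReal_ne_zero.2 hs0)
    apply mul_ne_zero (Complex.ofReal_ne_zero.2 hκ.ne')
    intro h7
    have h8 : (jb v : ℂ) ^ 2 = 1 := by
      have h9 : ((jb v : ℂ) ^ 2)⁻¹ = 1 := by linear_combination 2 * h7
      exact inv_eq_one.1 h9
    have h10 : (jb v) ^ 2 = 1 := by exact_mod_cast h8
    nlinarith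

theorem loc2_pos {η : ℝ} {T : ℂ → ℂ} {v₁ v₂ vc : ℝ} (hT : Model2 η T v₁ v₂ vc) {x : ℝ}
    (h0 : 0 < x) (h1 : x < 1) (n₁ : x ≠ jb v₁) (n₂ : x ≠ jb v₂) :
    ∃ ρ F, F1Loc (fun v => nome (T v)) x ρ F ∧ F x ≠ 0 ∧ F x ≠ 1 := by
  have hw := jr_lt h0 h1
  have hjb := jb_jr h0 h1
  have m₁ : jr x ≠ v₁ := by
    intro h
    rw [h] at hjb
    exact n₁ hjb.symm
  have m₂ : jr x ≠ v₂ := by
    intro h
    rw [h] at hjb
    exact n₂ hjb.symm
  have hax : |x| < 1 := by rw [abs_of_pos h0]; exact h1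
  rcases lt_or_gt_of_ne m₁ with h2 | h2
  · obtain ⟨r, hr, τ, hτ, hTτ, hS, -⟩ := hT.side0 _ h2
    refine f2_build h0.ne' hax (jou_ofReal x) hr hτ hTτ (fun u hu => ?_)
    obtain ⟨h3, h4⟩ := hS u hu
    exact ⟨h4, f2_real (k := 0) (by rw [h3]; simp)⟩
  · rcases lt_or_gt_of_ne m₂ with h3 | h3
    · obtain ⟨r, hr, τ, hτ, hTτ, hS, -, -⟩ := hT.slit _ h2 h3
      refine f2_build h0.ne' hax (jou_ofReal x) hr hτ hTτ (fun u hu => ?_)
      obtain ⟨h4, h5⟩ := hS u hu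
      exact ⟨lt_of_lt_of_le hT.eta_pos h5, f2_real (k := -1) (by rw [h4]; simp)⟩
    · obtain ⟨r, hr, τ, hτ, hTτ, hS, -⟩ := hT.side2 _ h3 hw
      refine f2_build h0.ne' hax (jou_ofReal x) hr hτ hTτ (fun u hu => ?_)
      obtain ⟨h4, h5⟩ := hS u hu
      exact ⟨h5, f2_real (k := -2) (by rw [h4]; simp)⟩

theorem loc2_neg {η : ℝ} {T : ℂ → ℂ} {v₁ v₂ vc : ℝ} (hT : Model2 η T v₁ v₂ vc) {x : ℝ}
    (h0 : -1 < x) (h1 : x < 0) :
    ∃ ρ F, F1Loc (fun v => nome (T v)) x ρ F ∧ F x ≠ 0 ∧ F x ≠ 1 := by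
  obtain ⟨r, hr, τ, hτ, hTτ, hS, -⟩ := hT.arc _ (f2_jr_neg h0 h1)
  refine f2_build h1.ne (by rw [abs_of_neg h1]; linarith) (jou_ofReal x) hr hτ hTτ
    (fun u hu => ?_)
  exact ⟨(hS u hu).1, (J_geo (hS u hu)).1⟩

theorem loc2_one₁ {η : ℝ} {T : ℂ → ℂ} {v₁ v₂ vc : ℝ} (hT : Model2 η T v₁ v₂ vc) :
    ∃ ρ F, F1Loc (fun v => nome (T v)) (jb v₁) ρ F ∧ F (jb v₁) = 1 ∧ deriv F (jb v₁) ≠ 0 := by
  refine f2_cusp (s := -1) ((hT.lt1.trans hT.lt2).trans hT.lt3) (by norm_num) ?_ (by norm_num)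
    hT.cusp1
  rw [Complex.exp_neg]
  have e : (Real.pi : ℂ) * I * ((1 : ℝ) : ℂ) = Real.pi * I := by push_cast; ring
  rw [e, Complex.exp_pi_mul_I]
  push_cast
  norm_num

theorem loc2_one₂ {η : ℝ} {T : ℂ → ℂ} {v₁ v₂ vc : ℝ} (hT : Model2 η T v₁ v₂ vc) :
    ∃ ρ F, F1Loc (fun v => nome (T v)) (jb v₂) ρ F ∧ F (jb v₂) = 1 ∧ deriv F (jb v₂) ≠ 0 := by
  refine f2_cusp (s := 1) hT.lt3 (by norm_num) ?_ (by norm_num) hT.cusp2
  rw [Complex.exp_neg]
  have e : (Real.pi : ℂ) * I * ((2 : ℝ) : ℂ) = 2 * Real.pi * I := by push_cast; ring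
  rw [e, Complex.exp_two_pi_mul_I]
  push_cast
  norm_num

theorem f2_loc_zero {T : ℂ → ℂ} (hT : InfAt T) :
    ∃ ρ F, F1Loc (fun v => nome (T v)) 0 ρ F ∧ F 0 = 0 ∧
      ∃ κ : ℝ, 0 < κ ∧ HasDerivAt F (κ : ℂ) 0 := by
  obtain ⟨r, hr, p, hp, hp0, ⟨κ, hκ, hpκ⟩, hpre, hup⟩ := hT
  have hpd : ∀ u ∈ ball (0 : ℂ) r, DifferentiableAt ℂ p u := fun u hu =>
    (hp u hu).differentiableAt (isOpen_ball.mem_nhds hu)
  have h0b : (0 : ℂ) ∈ ball (0 : ℂ) r := mem_ball_self hr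
  have hud : ∀ z : ℂ, ‖z‖ < 1 → DifferentiableAt ℂ (fun z : ℂ => 2 * z / (1 + z ^ 2)) z := by
    intro z hz
    have hne : 1 + z ^ 2 ≠ 0 := by
      intro h
      have h2 : z ^ 2 = -1 := by linear_combination h
      have h3 : ‖z‖ ^ 2 = 1 := by rw [← norm_pow, h2, norm_neg, norm_one]
      nlinarith [norm_nonneg z]
    fun_prop (disch := assumption)
  have hc : ContinuousAt (fun z : ℂ => 2 * z / (1 + z ^ 2)) 0 := (hud 0 (by simp)).continuousAt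
  have hval : (2 * (0 : ℂ) / (1 + 0 ^ 2)) = 0 := by simp
  have hcp : ContinuousAt (fun z : ℂ => p (2 * z / (1 + z ^ 2))) 0 := by
    apply ContinuousAt.comp (g := p) (f := fun z : ℂ => 2 * z / (1 + z ^ 2))
    · rw [hval]
      exact (hpd 0 h0b).continuousAt
    · exact hc
  have e1 : ∀ᶠ z in 𝓝 (0 : ℂ), ‖z‖ < 1 :=
    (isOpen_lt continuous_norm continuous_const).eventually_mem
      (by show ‖(0 : ℂ)‖ < 1; rw [norm_zero]; exact one_pos)
  have e2 : ∀ᶠ z in 𝓝 (0 : ℂ), 2 * z / (1 + z ^ 2) ∈ ball (0 : ℂ) r :=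
    hc.eventually (p := fun w : ℂ => w ∈ ball (0 : ℂ) r)
      (by
        show ball (0 : ℂ) r ∈ 𝓝 (2 * (0 : ℂ) / (1 + 0 ^ 2))
        rw [hval]
        exact isOpen_ball.mem_nhds h0b)
  have e3 : ∀ᶠ z in 𝓝 (0 : ℂ), ‖p (2 * z / (1 + z ^ 2))‖ < 1 := by
    apply hcp.eventually (p := fun w : ℂ => ‖w‖ < 1)
    apply (isOpen_lt continuous_norm continuous_const).mem_nhds
    show ‖p (2 * 0 / (1 + 0 ^ 2))‖ < 1
    rw [hval, hp0, norm_zero]
    exact one_pos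
  obtain ⟨ρ, hρ, hball⟩ := Metric.eventually_nhds_iff_ball.1 (e1.and (e2.and e3))
  refine ⟨ρ, fun z => 1 - J (p (2 * z / (1 + z ^ 2))), ⟨hρ, ?_, ?_, ?_⟩, ?_, 32 * κ,
    by positivity, ?_⟩
  · intro z hz
    rw [Complex.ofReal_zero] at hz
    obtain ⟨h1, h2, h3⟩ := hball z hz
    apply DifferentiableAt.differentiableWithinAt
    have hd1 : DifferentiableAt ℂ (fun z => p (2 * z / (1 + z ^ 2))) z :=
      DifferentiableAt.comp (g := p) (f := fun z : ℂ => 2 * z / (1 + z ^ 2)) z (hpd _ h2)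
        (hud z h1)
    exact (DifferentiableAt.comp (g := J) z (f1_J_diff h3) hd1).const_sub 1
  · intro z hz him
    rw [Complex.ofReal_zero] at hz
    obtain ⟨h1, h2, h3⟩ := hball z hz
    have hz0 : z ≠ 0 := by
      intro h
      rw [h] at him
      simp at him
    have hj := jou_im h1 him
    have hne : 1 + z ^ 2 ≠ 0 := by
      intro h
      have h2 : z ^ 2 = -1 := by linear_combination h
      have h3 : ‖z‖ ^ 2 = 1 := by rw [← norm_pow, h2, norm_neg, norm_one]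
      nlinarith [norm_nonneg z]
    have hjne : jou z ≠ 0 := by
      intro h
      rw [h] at hj
      simp at hj
    have ej : jou z = -1 / (2 * z / (1 + z ^ 2)) := by
      unfold jou
      field_simp
      ring
    have eu : 2 * z / (1 + z ^ 2) = -1 / jou z := by
      rw [ej]
      field_simp
    have hui : 0 < (2 * z / (1 + z ^ 2)).im := by
      rw [eu, Complex.div_im]
      have hn : 0 < Complex.normSq (jou z) := Complex.normSq_pos.2 hjne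
      simp only [Complex.neg_im, Complex.one_im, Complex.neg_re, Complex.one_re, neg_zero,
        zero_mul, zero_div, zero_sub]
      have := div_pos hj hn
      have e5 : -(-1 * (jou z).im / Complex.normSq (jou z)) =
          (jou z).im / Complex.normSq (jou z) := by ring
      rw [e5]
      exact this
    obtain ⟨h4, h5, h6⟩ := hup _ h2 hui
    show 1 - J (p (2 * z / (1 + z ^ 2))) = J (nome (T (jou z)))
    rw [ej, h6]
    have hpne : p (2 * z / (1 + z ^ 2)) ≠ 0 := by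
      intro h
      rw [h] at h4
      simp at h4
    have hlre : (log (p (2 * z / (1 + z ^ 2)))).re < 0 := by
      rw [Complex.log_re]
      exact Real.log_neg (norm_pos_iff.2 hpne) h5
    rw [f1_J hlre, exp_log hpne]
  · intro u hu
    rw [Complex.ofReal_zero] at hu
    obtain ⟨h1, h2, h3⟩ := hball _ hu
    have e : (2 * (u : ℂ) / (1 + (u : ℂ) ^ 2)) = ((2 * u / (1 + u ^ 2) : ℝ) : ℂ) := by
      push_cast
      ring
    show (1 - J (p (2 * (u : ℂ) / (1 + (u : ℂ) ^ 2)))).im = 0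
    rw [e] at h2 ⊢
    have h4 : |2 * u / (1 + u ^ 2)| < r := by
      rw [mem_ball, dist_zero_right, Complex.norm_real] at h2
      exact h2
    have h5 := hpre _ h4
    have h6 := J_conj (p ((2 * u / (1 + u ^ 2) : ℝ) : ℂ))
    rw [Complex.conj_eq_iff_im.2 h5] at h6
    have h7 := Complex.conj_eq_iff_im.1 h6.symm
    rw [Complex.sub_im, Complex.one_im, h7, sub_zero]
  · show 1 - J (p (2 * 0 / (1 + 0 ^ 2))) = 0
    rw [hval, hp0, J_zero, sub_self]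
  · have hu' : HasDerivAt (fun z : ℂ => 2 * z / (1 + z ^ 2)) 2 0 := by
      have h1 : HasDerivAt (fun z : ℂ => 2 * z) (2 * 1) 0 := (hasDerivAt_id (0 : ℂ)).const_mul 2
      have h2 : HasDerivAt (fun z : ℂ => 1 + z ^ 2) (((2 : ℕ) : ℂ) * 0 ^ (2 - 1)) 0 :=
        (hasDerivAt_pow 2 (0 : ℂ)).const_add 1
      have h3 := h1.div h2 (by simp)
      have e : (2 * 1 * (1 + (0 : ℂ) ^ 2) - 2 * 0 * (((2 : ℕ) : ℂ) * 0 ^ (2 - 1))) /
          (1 + (0 : ℂ) ^ 2) ^ 2 = 2 := by norm_num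
      rw [e] at h3
      exact h3
    have hp' : HasDerivAt p (κ : ℂ) (2 * (0 : ℂ) / (1 + 0 ^ 2)) := by
      rw [hval, ← hpκ]
      exact (hpd 0 h0b).hasDerivAt
    have hpu : HasDerivAt (fun z : ℂ => p (2 * z / (1 + z ^ 2))) ((κ : ℂ) * 2) 0 :=
      HasDerivAt.comp (h₂ := p) (h := fun z : ℂ => 2 * z / (1 + z ^ 2)) 0 hp' hu'
    have hJ' : HasDerivAt J (-16) (p (2 * (0 : ℂ) / (1 + 0 ^ 2))) := by
      rw [hval, hp0]
      exact J_hasDerivAt_zero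
    have hJp : HasDerivAt (fun z : ℂ => J (p (2 * z / (1 + z ^ 2)))) (-16 * ((κ : ℂ) * 2)) 0 :=
      HasDerivAt.comp (h₂ := J) (h := fun z : ℂ => p (2 * z / (1 + z ^ 2))) 0 hJ' hpu
    have hF := hJp.const_sub 1
    have e : -(-16 * ((κ : ℂ) * 2)) = ((32 * κ : ℝ) : ℂ) := by
      push_cast
      ring
    rw [e] at hF
    exact hF

theorem loc2_zero {η : ℝ} {T : ℂ → ℂ} {v₁ v₂ vc : ℝ} (hT : Model2 η T v₁ v₂ vc) :
    ∃ ρ F, F1Loc (fun v => nome (T v)) 0 ρ F ∧ F 0 = 0 ∧ deriv F 0 ≠ 0 := by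
  obtain ⟨ρ, F, hF, h0, κ, hκ, hd⟩ := f2_loc_zero hT.infty
  refine ⟨ρ, F, hF, h0, ?_⟩
  rw [hd.deriv]
  exact Complex.ofReal_ne_zero.2 hκ.ne'

end Pool.Agent.Choc
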