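import Pool.Agent.Lib.MP_2b3e36_an.Re.F2

/-!
F3. The extremal function.

Proof. `f = f1_f X` with `X v = nome (T v)` (F1): `J (X (jou z))` on the upper half disc, reflected on the lower
one, limits on the reals. By `f1_eq` it equals `F` near every real point of `(-1,1)` (F2). On the upper half disc it
is holomorphic (`T (jou z) ∈ Wd η`, so `0 < Im`, `‖X‖ < 1`, `X ≠ 0`) and `≠ 0` (`J_ne_zero`), `≠ 1` (`J_eq_one_iff`). The
same on the lower half disc by conjugation. So `f` is holomorphic, real (`f (conj z) = conj (f z)`: off the reals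
by definition, on the reals because `F u` is real), zero only at `0`, one only at `jb v₁`, `jb v₂`, with nonzero
derivatives.
`realp2_extremal`: `z ↦ f (ρ z)` on `ball 0 (1/ρ)`.
-/

set_option autoImplicit false

open Complex Set Filter Topology Metric

namespace Pool.Agent.Choc

theorem f3_xlt {η : ℝ} {T : ℂ → ℂ} {v₁ v₂ vc : ℝ} (hT : Model2 η T v₁ v₂ vc) {z : ℂ}
    (h1 : ‖z‖ < 1) (h2 : 0 < z.im) : ‖nome (T (jou z))‖ < 1 := by
  have h3 : T (jou z) ∈ T '' UH := ⟨jou z, jou_im h1 h2, rfl⟩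
  rw [hT.img] at h3
  exact nome_norm_lt h3.1

theorem f3_g_diff {η : ℝ} {T : ℂ → ℂ} {v₁ v₂ vc : ℝ} (hT : Model2 η T v₁ v₂ vc) {z : ℂ}
    (h1 : ‖z‖ < 1) (h2 : 0 < z.im) : DifferentiableAt ℂ (f1_g (fun v => nome (T v))) z := by
  have hz : z ≠ 0 := by
    intro h
    rw [h] at h2
    simp at h2
  have hopen : IsOpen UH := isOpen_lt continuous_const Complex.continuous_im
  have h3 : DifferentiableAt ℂ T (jou z) :=
    (hT.diff _ (jou_im h1 h2)).differentiableAt (hopen.mem_nhds (jou_im h1 h2))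
  have h4 : DifferentiableAt ℂ (fun z => T (jou z)) z := h3.comp z (f1_jou_diff hz)
  have h5 : DifferentiableAt ℂ (fun z => nome (T (jou z))) z := (f1_nome_diff _).comp z h4
  exact (f1_J_diff (f3_xlt hT h1 h2)).comp z h5

theorem f3_g_ne {η : ℝ} {T : ℂ → ℂ} {v₁ v₂ vc : ℝ} (hT : Model2 η T v₁ v₂ vc) {z : ℂ}
    (h1 : ‖z‖ < 1) (h2 : 0 < z.im) : f1_g (fun v => nome (T v)) z ≠ 0 :=
  J_ne_zero (f3_xlt hT h1 h2)

theorem f3_g_one {η : ℝ} {T : ℂ → ℂ} {v₁ v₂ vc : ℝ} (hT : Model2 η T v₁ v₂ vc) {z : ℂ}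
    (h1 : ‖z‖ < 1) (h2 : 0 < z.im) : f1_g (fun v => nome (T v)) z ≠ 1 := by
  intro h
  have h3 : nome (T (jou z)) = 0 := (J_eq_one_iff (f3_xlt hT h1 h2)).1 h
  exact Complex.exp_ne_zero _ h3

theorem f3_jb_pos {η : ℝ} {T : ℂ → ℂ} {v₁ v₂ vc : ℝ} (hT : Model2 η T v₁ v₂ vc) :
    (0 < jb v₁ ∧ jb v₁ < 1) ∧ (0 < jb v₂ ∧ jb v₂ < 1) ∧ jb v₁ < jb v₂ := by
  have h1 : v₁ < v₂ := hT.lt1.trans hT.lt2
  have h2 := jb_mem (h1.trans hT.lt3)
  have h3 := jb_mem hT.lt3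
  exact ⟨⟨h2.1, h2.2.1⟩, ⟨h3.1, h3.2.1⟩, jb_lt h1 hT.lt3⟩

/-- A local function at every real point. -/
theorem f3_loc {η : ℝ} {T : ℂ → ℂ} {v₁ v₂ vc : ℝ} (hT : Model2 η T v₁ v₂ vc) {x : ℝ}
    (h0 : -1 < x) (h1 : x < 1) :
    ∃ ρ F, F1Loc (fun v => nome (T v)) x ρ F ∧ (F x = 0 ↔ x = 0) ∧
      (F x = 1 ↔ x = jb v₁ ∨ x = jb v₂) := by
  obtain ⟨⟨p1, -⟩, ⟨p2, -⟩, -⟩ := f3_jb_pos hT
  rcases lt_trichotomy x 0 with h | h | h
  · obtain ⟨ρ, F, hF, hn0, hn1⟩ := loc2_neg hT h0 h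
    refine ⟨ρ, F, hF, ⟨fun h2 => absurd h2 hn0, fun h2 => absurd h2 h.ne⟩,
      ⟨fun h2 => absurd h2 hn1, ?_⟩⟩
    rintro (h2 | h2)
    · linarith
    · linarith
  · obtain ⟨ρ, F, hF, hn, -⟩ := loc2_zero hT
    rw [h]
    refine ⟨ρ, F, hF, ⟨fun _ => rfl, fun _ => ?_⟩, ⟨fun h2 => ?_, ?_⟩⟩
    · rw [Complex.ofReal_zero]
      exact hn
    · rw [Complex.ofReal_zero, hn] at h2
      exact absurd h2 zero_ne_one
    · rintro (h2 | h2)
      · linarith
      · linarith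
  · by_cases n1 : x = jb v₁
    · obtain ⟨ρ, F, hF, hn, -⟩ := loc2_one₁ hT
      rw [n1]
      refine ⟨ρ, F, hF, ⟨fun h2 => ?_, fun h2 => ?_⟩, ⟨fun _ => Or.inl rfl, fun _ => hn⟩⟩
      · rw [hn] at h2
        exact absurd h2 one_ne_zero
      · linarith
    · by_cases n2 : x = jb v₂
      · obtain ⟨ρ, F, hF, hn, -⟩ := loc2_one₂ hT
        rw [n2]
        refine ⟨ρ, F, hF, ⟨fun h2 => ?_, fun h2 => ?_⟩, ⟨fun _ => Or.inr rfl, fun _ => hn⟩⟩
        · rw [hn] at h2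
          exact absurd h2 one_ne_zero
        · linarith
      · obtain ⟨ρ, F, hF, hn0, hn1⟩ := loc2_pos hT h h1 n1 n2
        refine ⟨ρ, F, hF, ⟨fun h2 => absurd h2 hn0, fun h2 => absurd h2 h.ne'⟩,
          ⟨fun h2 => absurd h2 hn1, ?_⟩⟩
        rintro (h2 | h2)
        · exact absurd h2 n1
        · exact absurd h2 n2

theorem extremal2 {η : ℝ} {T : ℂ → ℂ} {v₁ v₂ vc : ℝ} (hT : Model2 η T v₁ v₂ vc) :
    ∃ f : ℂ → ℂ, DifferentiableOn ℂ f (ball 0 1) ∧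
      (∀ z ∈ ball (0 : ℂ) 1, f (starRingEnd ℂ z) = starRingEnd ℂ (f z)) ∧
      (∀ z ∈ ball (0 : ℂ) 1, f z = 0 ↔ z = 0) ∧
      (∀ z ∈ ball (0 : ℂ) 1, f z = 1 ↔ z = jb v₁ ∨ z = jb v₂) ∧
      deriv f 0 ≠ 0 ∧ deriv f (jb v₁) ≠ 0 ∧ deriv f (jb v₂) ≠ 0 := by
  have hn : ∀ z : ℂ, z ∈ ball (0 : ℂ) 1 ↔ ‖z‖ < 1 := fun z => by
    rw [mem_ball, dist_zero_right]
  have hcn : ∀ z : ℂ, ‖z‖ < 1 → ‖starRingEnd ℂ z‖ < 1 := fun z hz => by
    rw [Complex.norm_conj]
    exact hz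
  have hder : ∀ {x ρ : ℝ} {F : ℂ → ℂ}, F1Loc (fun v => nome (T v)) x ρ F → deriv F x ≠ 0 →
      deriv (f1_f (fun v => nome (T v))) (x : ℂ) ≠ 0 := by
    intro x ρ F hF hd
    have h4 : f1_f (fun v => nome (T v)) =ᶠ[𝓝 (x : ℂ)] F := by
      filter_upwards [isOpen_ball.mem_nhds (mem_ball_self hF.pos)] with w hw
      exact f1_eq hF w hw
    rw [h4.deriv_eq]
    exact hd
  refine ⟨f1_f (fun v => nome (T v)), ?_, ?_, ?_, ?_, ?_, ?_, ?_⟩
  · intro z hz
    rw [hn] at hz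
    apply DifferentiableAt.differentiableWithinAt
    rcases lt_trichotomy z.im 0 with h1 | h1 | h1
    · have h2 : f1_f (fun v => nome (T v)) =ᶠ[𝓝 z]
          fun w => starRingEnd ℂ (f1_g (fun v => nome (T v)) (starRingEnd ℂ w)) := by
        have : ∀ᶠ w in 𝓝 z, w.im < 0 :=
          (isOpen_lt Complex.continuous_im continuous_const).eventually_mem h1
        filter_upwards [this] with w hw
        exact f1_neg hw
      apply DifferentiableAt.congr_of_eventuallyEq _ h2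
      have hd : DifferentiableAt ℂ (f1_g (fun v => nome (T v))) (starRingEnd ℂ z) :=
        f3_g_diff hT (hcn z hz) (by rw [Complex.conj_im]; linarith)
      have hd2 := hd.conj_conj
      rw [Complex.conj_conj] at hd2
      exact hd2
    · obtain ⟨e, h2, h3⟩ := f1_real_pt hz h1
      obtain ⟨ρ, F, hF, -, -⟩ := f3_loc hT h2 h3
      have hzb : z ∈ ball (z.re : ℂ) ρ := by
        rw [← e]
        exact mem_ball_self hF.pos
      have h4 : f1_f (fun v => nome (T v)) =ᶠ[𝓝 z] F := by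
        filter_upwards [isOpen_ball.mem_nhds hzb] with w hw
        exact f1_eq hF w hw
      exact ((hF.diff z hzb).differentiableAt (isOpen_ball.mem_nhds hzb)).congr_of_eventuallyEq h4
    · have h2 : f1_f (fun v => nome (T v)) =ᶠ[𝓝 z] f1_g (fun v => nome (T v)) := by
        have : ∀ᶠ w in 𝓝 z, 0 < w.im :=
          (isOpen_lt continuous_const Complex.continuous_im).eventually_mem h1
        filter_upwards [this] with w hw
        exact f1_pos hw
      exact (f3_g_diff hT hz h1).congr_of_eventuallyEq h2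
  · intro z hz
    rw [hn] at hz
    rcases lt_trichotomy z.im 0 with h1 | h1 | h1
    · rw [f1_neg h1, f1_pos (by rw [Complex.conj_im]; linarith), Complex.conj_conj]
    · obtain ⟨e, h2, h3⟩ := f1_real_pt hz h1
      obtain ⟨ρ, F, hF, -, -⟩ := f3_loc hT h2 h3
      have hzb : (z.re : ℂ) ∈ ball (z.re : ℂ) ρ := mem_ball_self hF.pos
      rw [Complex.conj_eq_iff_im.2 h1, e, f1_eq hF _ hzb]
      exact (Complex.conj_eq_iff_im.2 (hF.real _ hzb)).symm
    · rw [f1_pos h1, f1_neg (by rw [Complex.conj_im]; linarith), Complex.conj_conj]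
  · intro z hz
    rw [hn] at hz
    rcases lt_trichotomy z.im 0 with h1 | h1 | h1
    · have h2 := f3_g_ne hT (hcn z hz) (by rw [Complex.conj_im]; linarith)
      rw [f1_neg h1]
      constructor
      · intro h3
        exact absurd ((map_eq_zero _).1 h3) h2
      · intro h3
        rw [h3] at h1
        simp at h1
    · obtain ⟨e, h2, h3⟩ := f1_real_pt hz h1
      obtain ⟨ρ, F, hF, h4, -⟩ := f3_loc hT h2 h3
      have hzb : (z.re : ℂ) ∈ ball (z.re : ℂ) ρ := mem_ball_self hF.pos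
      rw [e, f1_eq hF _ hzb, h4, Complex.ofReal_eq_zero]
    · have h2 := f3_g_ne hT hz h1
      rw [f1_pos h1]
      constructor
      · intro h3
        exact absurd h3 h2
      · intro h3
        rw [h3] at h1
        simp at h1
  · intro z hz
    rw [hn] at hz
    rcases lt_trichotomy z.im 0 with h1 | h1 | h1
    · have h2 := f3_g_one hT (hcn z hz) (by rw [Complex.conj_im]; linarith)
      rw [f1_neg h1]
      constructor
      · intro h3
        have h4 : f1_g (fun v => nome (T v)) (starRingEnd ℂ z) = 1 := by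
          have := congrArg (starRingEnd ℂ) h3
          rwa [Complex.conj_conj, map_one] at this
        exact absurd h4 h2
      · rintro (h3 | h3)
        · rw [h3, Complex.ofReal_im] at h1
          exact absurd h1 (lt_irrefl _)
        · rw [h3, Complex.ofReal_im] at h1
          exact absurd h1 (lt_irrefl _)
    · obtain ⟨e, h2, h3⟩ := f1_real_pt hz h1
      obtain ⟨ρ, F, hF, -, h4⟩ := f3_loc hT h2 h3
      have hzb : (z.re : ℂ) ∈ ball (z.re : ℂ) ρ := mem_ball_self hF.pos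
      rw [e, f1_eq hF _ hzb, h4, Complex.ofReal_inj, Complex.ofReal_inj]
    · have h2 := f3_g_one hT hz h1
      rw [f1_pos h1]
      constructor
      · intro h3
        exact absurd h3 h2
      · rintro (h3 | h3)
        · rw [h3, Complex.ofReal_im] at h1
          exact absurd h1 (lt_irrefl _)
        · rw [h3, Complex.ofReal_im] at h1
          exact absurd h1 (lt_irrefl _)
  · obtain ⟨ρ, F, hF, -, hd⟩ := loc2_zero hT
    have h := hder hF (by rw [Complex.ofReal_zero]; exact hd)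
    rw [Complex.ofReal_zero] at h
    exact h
  · obtain ⟨ρ, F, hF, -, hd⟩ := loc2_one₁ hT
    exact hder hF hd
  · obtain ⟨ρ, F, hF, -, hd⟩ := loc2_one₂ hT
    exact hder hF hd

theorem realp2_extremal {η : ℝ} {T : ℂ → ℂ} {v₁ v₂ vc : ℝ} (hT : Model2 η T v₁ v₂ vc) {ρ : ℝ}
    (h1 : jb v₂ < ρ) (h2 : ρ < 1) : Realp2 (jb v₁ / ρ) (jb v₂ / ρ) := by
  obtain ⟨f, hf, hre, h0, hone, hd0, hd1, hd2⟩ := extremal2 hT
  obtain ⟨⟨p1, q1⟩, ⟨p2, q2⟩, p3⟩ := f3_jb_pos hT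
  have hρ : 0 < ρ := p2.trans h1
  have hρc : (ρ : ℂ) ≠ 0 := Complex.ofReal_ne_zero.2 hρ.ne'
  have hn : ∀ z : ℂ, z ∈ ball (0 : ℂ) (1 / ρ) → (ρ : ℂ) * z ∈ ball (0 : ℂ) 1 := by
    intro z hz
    rw [mem_ball, dist_zero_right] at hz ⊢
    rw [norm_mul, Complex.norm_real, Real.norm_of_nonneg hρ.le]
    rw [lt_div_iff₀ hρ] at hz
    linarith
  have hconj : ∀ z : ℂ, (ρ : ℂ) * starRingEnd ℂ z = starRingEnd ℂ ((ρ : ℂ) * z) := by
    intro z
    rw [map_mul, Complex.conj_ofReal]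
  have hder : ∀ z : ℂ, (ρ : ℂ) * z ∈ ball (0 : ℂ) 1 →
      HasDerivAt (fun z => f ((ρ : ℂ) * z)) (deriv f ((ρ : ℂ) * z) * (ρ : ℂ)) z := by
    intro z hz
    have h5 : HasDerivAt f (deriv f ((ρ : ℂ) * z)) ((ρ : ℂ) * z) :=
      ((hf _ hz).differentiableAt (isOpen_ball.mem_nhds hz)).hasDerivAt
    have h6 : HasDerivAt (fun z : ℂ => (ρ : ℂ) * z) (ρ : ℂ) z := by
      have := (hasDerivAt_id z).const_mul (ρ : ℂ)
      rw [mul_one] at this
      exact this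
    exact HasDerivAt.comp (h₂ := f) (h := fun z : ℂ => (ρ : ℂ) * z) z h5 h6
  have hbm : ∀ b : ℝ, (ρ : ℂ) * ((b / ρ : ℝ) : ℂ) = (b : ℂ) := by
    intro b
    rw [Complex.ofReal_div]
    exact mul_div_cancel₀ _ hρc
  have heq : ∀ (z : ℂ) (b : ℝ), (ρ : ℂ) * z = b ↔ z = ((b / ρ : ℝ) : ℂ) := by
    intro z b
    rw [Complex.ofReal_div, eq_div_iff hρc, mul_comm]
  have hdb : ∀ b : ℝ, 0 < b → b < 1 → deriv f (b : ℂ) ≠ 0 →
      deriv (fun z => f ((ρ : ℂ) * z)) ((b / ρ : ℝ) : ℂ) ≠ 0 := by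
    intro b hb hb1 hd
    have hbb : (ρ : ℂ) * ((b / ρ : ℝ) : ℂ) ∈ ball (0 : ℂ) 1 := by
      rw [hbm, mem_ball, dist_zero_right, Complex.norm_real, Real.norm_of_nonneg hb.le]
      exact hb1
    have h5 := hder ((b / ρ : ℝ) : ℂ) hbb
    rw [h5.deriv, hbm]
    exact mul_ne_zero hd hρc
  refine ⟨1 / ρ, fun z => f ((ρ : ℂ) * z), ?_⟩
  refine
    { one_lt := ?_, b1_pos := ?_, b_lt := ?_, b2_lt := ?_, diff := ?_, real := ?_, zero := ?_,
      one := ?_, deriv_zero := ?_, deriv_b1 := ?_, deriv_b2 := ?_ }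
  · rw [lt_div_iff₀ hρ]
    linarith
  · exact div_pos p1 hρ
  · exact div_lt_div_of_pos_right p3 hρ
  · rw [div_lt_one hρ]
    exact h1
  · intro z hz
    exact (hder z (hn z hz)).differentiableAt.differentiableWithinAt
  · intro z hz
    show f ((ρ : ℂ) * starRingEnd ℂ z) = starRingEnd ℂ (f ((ρ : ℂ) * z))
    rw [hconj, hre _ (hn z hz)]
  · intro z hz
    show f ((ρ : ℂ) * z) = 0 ↔ z = 0
    rw [h0 _ (hn z hz), mul_eq_zero]
    exact ⟨fun h => h.resolve_left hρc, fun h => Or.inr h⟩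
  · intro z hz
    show f ((ρ : ℂ) * z) = 1 ↔ z = ((jb v₁ / ρ : ℝ) : ℂ) ∨ z = ((jb v₂ / ρ : ℝ) : ℂ)
    rw [hone _ (hn z hz), heq, heq]
  · have h5 := hder 0 (by
      rw [mul_zero]
      exact mem_ball_self one_pos)
    rw [h5.deriv, mul_zero]
    exact mul_ne_zero hd0 hρc
  · exact hdb _ p1 q1 hd1
  · exact hdb _ p2 q2 hd2

end Pool.Agent.Choc
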