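import Pool.Agent.Lib.MP_2b3e36_an.Re.Defs2
import Pool.Agent.Lib.MP_2b3e36_an.Ex.A1

/-!
PA. Maximum principle on open subsets of the upper half plane (infinity is one more exceptional point).

Proof. `c z = (z - I)/(z + I)` maps `UH` into the unit disc, inverse `d w = I (1 + w)/(1 - w)`
(`w ≠ 1`). `Ω' = c '' Ω = {w | ‖w‖ < 1 ∧ d w ∈ Ω}` is open and bounded, `u' = u ∘ d` is harmonic on `Ω'`
(composition of a harmonic with a holomorphic function, `m1_comp` in Ex/M1 shows how), `u' ≤ M`. Apply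
`max_principle` (Ex/A1) with `F' = c '' F ∪ {1}`: a point `ζ' ∈ frontier Ω'`, `ζ' ≠ 1`, has
`ζ = d ζ' ∈ frontier Ω` (`d` is a homeomorphism from `{w ≠ 1}` to `{z ≠ -I}`; `ζ' ∈ closure Ω'` gives
`ζ ∈ closure Ω` by continuity of `d` at `ζ'`; if `ζ` were in the open set `Ω` then `ζ' = c ζ ∈ Ω'`,
but `Ω'` is open and `ζ'` is in its frontier), and `d` maps `𝓝[Ω'] ζ'` into `𝓝[Ω] ζ`.
-/

set_option autoImplicit false

open Complex Set Filter Topology Metric

namespace Pool.Agent.Choc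

theorem pa_comp {h : ℂ → ℝ} {g : ℂ → ℂ} {z : ℂ} (hh : InnerProductSpace.HarmonicAt h (g z))
    (hg : AnalyticAt ℂ g z) : InnerProductSpace.HarmonicAt (fun w => h (g w)) z := by
  obtain ⟨R, hR, hball⟩ := Metric.eventually_nhds_iff_ball.1 hh.eventually
  obtain ⟨F, hF1, hF2⟩ :=
    InnerProductSpace.HarmonicOnNhd.exists_analyticOnNhd_ball_re_eq (f := h) (z := g z) (R := R)
      (fun x hx => hball x hx)
  have h1 : AnalyticAt ℂ (fun w => F (g w)) z :=
    (hF1 (g z) (mem_ball_self hR)).fun_comp hg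
  have h2 := h1.harmonicAt_re
  have h3 : ∀ᶠ w in 𝓝 z, g w ∈ ball (g z) R :=
    hg.continuousAt.eventually (ball_mem_nhds (g z) hR)
  refine (InnerProductSpace.harmonicAt_congr_nhds ?_).1 h2
  filter_upwards [h3] with w hw
  exact hF2 hw

/-- the Cayley transform -/
noncomputable def pa_c (z : ℂ) : ℂ := (z - I) / (z + I)

/-- the inverse of the Cayley transform -/
noncomputable def pa_d (w : ℂ) : ℂ := I * (1 + w) / (1 - w)

theorem pa_cd {w : ℂ} (hw : w ≠ 1) : pa_c (pa_d w) = w := by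
  have h1 : (1 - w) ≠ 0 := sub_ne_zero.2 hw.symm
  unfold pa_c pa_d
  have e1 : I * (1 + w) / (1 - w) - I = 2 * I * w / (1 - w) := by
    field_simp
    ring
  have e2 : I * (1 + w) / (1 - w) + I = 2 * I / (1 - w) := by
    field_simp
    ring
  rw [e1, e2, div_div_div_cancel_right₀ h1]
  exact mul_div_cancel_left₀ w (mul_ne_zero two_ne_zero I_ne_zero)

theorem pa_dc {z : ℂ} (hz : 0 < z.im) : pa_d (pa_c z) = z := by
  have h1 : z + I ≠ 0 := by
    intro h
    have := congrArg Complex.im h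
    simp at this
    linarith
  unfold pa_c pa_d
  have e1 : 1 + (z - I) / (z + I) = 2 * z / (z + I) := by
    field_simp
    ring
  have e2 : 1 - (z - I) / (z + I) = 2 * I / (z + I) := by
    field_simp
    ring
  rw [e1, e2, ← mul_div_assoc, div_div_div_cancel_right₀ h1]
  rw [div_eq_iff (mul_ne_zero two_ne_zero I_ne_zero)]
  ring

theorem pa_c_norm {z : ℂ} (hz : 0 < z.im) : ‖pa_c z‖ < 1 := by
  have h1 : z + I ≠ 0 := by
    intro h
    have := congrArg Complex.im h
    simp at this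
    linarith
  unfold pa_c
  rw [norm_div, div_lt_one (norm_pos_iff.2 h1)]
  apply lt_of_pow_lt_pow_left₀ 2 (norm_nonneg _)
  rw [← Complex.normSq_eq_norm_sq, ← Complex.normSq_eq_norm_sq, Complex.normSq_apply,
    Complex.normSq_apply]
  simp
  nlinarith

theorem pa_c_ne {z : ℂ} (hz : 0 < z.im) : pa_c z ≠ 1 := by
  intro h
  have := pa_c_norm hz
  rw [h, norm_one] at this
  exact lt_irrefl _ this

theorem pa_an {w : ℂ} (hw : w ≠ 1) : AnalyticAt ℂ pa_d w := by
  have h1 : (1 - w) ≠ 0 := sub_ne_zero.2 hw.symm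
  exact (analyticAt_const.mul (analyticAt_const.add analyticAt_id)).div
    (analyticAt_const.sub analyticAt_id) h1

theorem max_uh {Ω : Set ℂ} (ho : IsOpen Ω) (hs : Ω ⊆ UH) {F : Set ℂ}
    (hF : F.Finite) {u : ℂ → ℝ} (hu : InnerProductSpace.HarmonicOnNhd u Ω) {M : ℝ}
    (hM : ∀ z ∈ Ω, u z ≤ M)
    (hbd : ∀ ζ ∈ frontier Ω, ζ ∉ F → ∀ ε > 0, ∀ᶠ z in 𝓝[Ω] ζ, u z < ε) :
    ∀ z ∈ Ω, u z ≤ 0 := by
  have hne : ∀ w : ℂ, ‖w‖ < 1 → w ≠ 1 := by
    intro w hw h
    rw [h, norm_one] at hw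
    exact lt_irrefl _ hw
  set Ω' : Set ℂ := {w | ‖w‖ < 1 ∧ pa_d w ∈ Ω} with hΩ'
  have hball : Ω' = ball 0 1 ∩ pa_d ⁻¹' Ω := by
    ext w
    simp [hΩ']
  have hcont : ContinuousOn pa_d (ball 0 1) := fun w hw =>
    (pa_an (hne w (by simpa using hw))).continuousAt.continuousWithinAt
  have ho' : IsOpen Ω' := by
    rw [hball]
    exact hcont.isOpen_inter_preimage isOpen_ball ho
  have hb' : Bornology.IsBounded Ω' := by
    refine (Metric.isBounded_ball (x := (0 : ℂ)) (r := 1)).subset ?_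
    rw [hball]
    exact inter_subset_left
  have hF' : (pa_c '' F ∪ {1}).Finite := (hF.image _).union (finite_singleton _)
  have key := max_principle ho' hb' hF' (u := fun w => u (pa_d w)) (M := M) ?_ ?_ ?_
  · intro z hz
    have hz' : 0 < z.im := hs hz
    have h1 := key (pa_c z) ⟨pa_c_norm hz', by rw [pa_dc hz']; exact hz⟩
    simp only [pa_dc hz'] at h1
    exact h1
  · intro w hw
    exact pa_comp (hu _ hw.2) (pa_an (hne w hw.1))
  · intro w hw
    exact hM _ hw.2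
  · intro ζ' hζ' hζF ε hε
    have hζ1 : ζ' ≠ 1 := fun h => hζF (Or.inr h)
    have hc : ContinuousAt pa_d ζ' := (pa_an hζ1).continuousAt
    have hmaps : Tendsto pa_d (𝓝[Ω'] ζ') (𝓝[Ω] (pa_d ζ')) := by
      refine tendsto_nhdsWithin_iff.2 ⟨hc.tendsto.mono_left nhdsWithin_le_nhds, ?_⟩
      filter_upwards [self_mem_nhdsWithin] with w hw
      exact hw.2
    have hcl : ζ' ∈ closure Ω' := frontier_subset_closure hζ'
    have hnb : (𝓝[Ω'] ζ').NeBot := mem_closure_iff_nhdsWithin_neBot.1 hcl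
    have hcl2 : pa_d ζ' ∈ closure Ω := by
      rw [mem_closure_iff_nhdsWithin_neBot]
      exact hmaps.neBot
    have hnot : pa_d ζ' ∉ Ω := by
      intro h
      have h1 : 0 < (pa_d ζ').im := hs h
      have h2 : ‖ζ'‖ < 1 := by
        have := pa_c_norm h1
        rwa [pa_cd hζ1] at this
      have h3 : ζ' ∈ Ω' := ⟨h2, h⟩
      rw [ho'.frontier_eq] at hζ'
      exact hζ'.2 h3
    have hfr : pa_d ζ' ∈ frontier Ω := by
      rw [ho.frontier_eq]
      exact ⟨hcl2, hnot⟩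
    have hnF : pa_d ζ' ∉ F := by
      intro h
      apply hζF
      left
      exact ⟨pa_d ζ', h, pa_cd hζ1⟩
    exact hmaps.eventually (hbd _ hfr hnF ε hε)

end Pool.Agent.Choc
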