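import Pool.Agent.Lib.MP_2b3e36_an.Re.Defs2

/-!
PB0. Definitions for the comparison of models.
-/

set_option autoImplicit false

open Complex Set Filter Topology Metric

namespace Pool.Agent.Choc

noncomputable section

/-- `pi` times the harmonic measure of `(-∞, p)` in the upper half plane. -/
def ang (p : ℝ) (w : ℂ) : ℝ := arg (w - p)

/-- The inverse of a model. -/
def sinv (T : ℂ → ℂ) : ℂ → ℂ := Function.invFunOn T UH

end

end Pool.Agent.Choc
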