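import Pool.Agent.Lib.MP_2b3e36_an.Re.PB0
import Pool.Agent.Lib.MP_2b3e36_an.Ex.W2

/-!
PB1. The angle functions `ang p w = arg (w - p)` on the upper half plane: simple facts.

Proofs. `Im (w - p) = Im w > 0`, so `0 < arg (w - p) < pi`. For `y = Im w`, `x = Re w`:
`arg (w - p) = pi/2 - arctan ((x-p)/y)`, or: the function `t ↦ arg (w - t)` of the real variable `t` has
the derivative `Im (-1/(w - t)) = y / ‖w - t‖^2 > 0` (`ang_hasDeriv`: `arg = Im log`, `w - t ∈ slitPlane`);
so it is strictly increasing. Harmonic: `ang p = π * (something of W2)`; `hA v = arg (v + 1)/π` is harmonic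
by `hA_harmonic` (Ex/W2), the same proof works for `p` in place of `-1` (imaginary part of the holomorphic
function `log (w - p)`). Limits: `arg` is continuous at `x - p > 0`; for `x < p` `arg (w - p) → pi` from above
(`hA_left`, `hA_right` in Ex/W2 with a shift).
-/

set_option autoImplicit false

open Complex Set Filter Topology Metric

namespace Pool.Agent.Choc

theorem pb1_im (p : ℝ) {w : ℂ} (hw : w ∈ UH) : 0 < (w - p).im := by
  have h : 0 < w.im := hw
  simpa using h

theorem pb1_slit (p : ℝ) {w : ℂ} (hw : w ∈ UH) : w - p ∈ slitPlane := by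
  rw [Complex.mem_slitPlane_iff]
  right
  exact (pb1_im p hw).ne'

theorem pb1_eq (p : ℝ) {w : ℂ} (hw : w ∈ UH) :
    ang p w = Real.pi / 2 - Real.arctan ((w - p).re / (w - p).im) := by
  unfold ang
  exact w2_arg (pb1_im p hw)

theorem ang_pos (p : ℝ) {w : ℂ} (hw : w ∈ UH) : 0 < ang p w := by
  rw [pb1_eq p hw]
  linarith [Real.arctan_lt_pi_div_two ((w - p).re / (w - p).im)]

theorem ang_lt (p : ℝ) {w : ℂ} (hw : w ∈ UH) : ang p w < Real.pi := by
  rw [pb1_eq p hw]
  linarith [Real.neg_pi_div_two_lt_arctan ((w - p).re / (w - p).im)]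

theorem ang_hasDeriv {w : ℂ} (hw : w ∈ UH) (t : ℝ) :
    HasDerivAt (fun s : ℝ => ang s w) (w.im / ‖w - t‖ ^ 2) t := by
  have hw' : 0 < w.im := hw
  have h0 : (fun s : ℝ => ang s w) =
      fun s : ℝ => Real.pi / 2 - Real.arctan ((w.re - s) / w.im) := by
    funext s
    rw [pb1_eq s hw]
    simp
  rw [h0]
  have h1 : HasDerivAt (fun s : ℝ => (w.re - s) / w.im) (-1 / w.im) t :=
    ((hasDerivAt_id t).const_sub w.re).div_const w.im
  have h2 := (h1.arctan).const_sub (Real.pi / 2)
  have h3 : ‖w - t‖ ^ 2 = (w.re - t) ^ 2 + w.im ^ 2 := by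
    rw [← Complex.normSq_eq_norm_sq, Complex.normSq_apply]
    simp
    ring
  have h4 : 0 < (w.re - t) ^ 2 + w.im ^ 2 := by positivity
  have h5 : 0 < 1 + ((w.re - t) / w.im) ^ 2 := by positivity
  have h6 : w.im / ‖w - t‖ ^ 2 = -(1 / (1 + ((w.re - t) / w.im) ^ 2) * (-1 / w.im)) := by
    rw [h3]
    field_simp
    ring
  rw [h6]
  exact h2

theorem ang_mono {p q : ℝ} (h : p < q) {w : ℂ} (hw : w ∈ UH) : ang p w < ang q w := by
  have hw' : 0 < w.im := hw
  rw [pb1_eq p hw, pb1_eq q hw]
  have h1 : (w - q).re / (w - q).im < (w - p).re / (w - p).im := by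
    have e1 : (w - q).im = w.im := by simp
    have e2 : (w - p).im = w.im := by simp
    have e3 : (w - q).re = w.re - q := by simp
    have e4 : (w - p).re = w.re - p := by simp
    rw [e1, e2, e3, e4, div_lt_div_iff_of_pos_right hw']
    linarith
  have h2 := Real.arctan_strictMono h1
  linarith

theorem ang_harm (p : ℝ) : InnerProductSpace.HarmonicOnNhd (ang p) UH := by
  intro v hv
  have h1 : AnalyticAt ℂ (fun v : ℂ => log (v - p)) v := by
    refine AnalyticAt.clog ?_ (pb1_slit p hv)
    fun_prop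
  have h2 := h1.harmonicAt_im
  have h3 : (fun z : ℂ => (log (z - p)).im) = ang p := by
    funext z
    rw [Complex.log_im]
    rfl
  rw [h3] at h2
  exact h2

theorem ang_cont (p : ℝ) : ContinuousOn (ang p) UH := by
  intro v hv
  refine ContinuousAt.continuousWithinAt ?_
  exact ContinuousAt.comp (f := fun v : ℂ => v - p) (Complex.continuousAt_arg (pb1_slit p hv))
    (by fun_prop)

theorem ang_right {p x : ℝ} (h : p < x) : Tendsto (ang p) (𝓝[UH] (x : ℂ)) (𝓝 0) := by
  have h1 := w2_arg_pos (c := -p) (x := x) (by linarith)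
  refine h1.congr fun v => ?_
  unfold ang
  push_cast
  rw [← sub_eq_add_neg]

theorem ang_left {p x : ℝ} (h : x < p) : Tendsto (ang p) (𝓝[UH] (x : ℂ)) (𝓝 Real.pi) := by
  have h1 := w2_arg_neg (c := -p) (x := x) (by linarith)
  refine h1.congr fun v => ?_
  unfold ang
  push_cast
  rw [← sub_eq_add_neg]

end Pool.Agent.Choc
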