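import Pool.Agent.Lib.MP_2b3e36_an.Re.PB1

/-!
PB2. Quotients of differences of angles.

(ratio) Mean value theorem with `ang_hasDeriv`: `ang q₂ w - ang q₁ w = (q₂ - q₁) Im w/‖w - t‖^2` with some
`t ∈ (q₁, q₂)`, and `ang p₂ w - ang p₁ w = (p₂ - p₁) Im w/‖w - s‖^2` with some `s ∈ (p₁, p₂)`. The quotient is
`(q₂-q₁)/(p₂-p₁) * ‖w - s‖^2/‖w - t‖^2`, and `‖w - s‖/‖w - t‖ → 1` as `‖w‖ → ∞` since `|s|, |t| ≤ L`
(`(‖w‖ - L)/(‖w‖ + L) ≤ ‖w - s‖/‖w - t‖ ≤ (‖w‖ + L)/(‖w‖ - L)`).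
(cross) with `x = Re w`, `y = Im w`, `φ_p = ang p w ∈ (0, pi)`: `(x - p) sin φ_p = y cos φ_p` and `sin φ_p > 0`,
so for `p < q`: `(q - p) sin φ_p sin φ_q = y (cos φ_p sin φ_q - cos φ_q sin φ_p) = y sin (φ_q - φ_p)`. Insert
`(a, b)` and `(b, c)` and divide.
-/

set_option autoImplicit false

open Complex Set Filter Topology Metric

namespace Pool.Agent.Choc

theorem pb2_mvt {p q : ℝ} (h : p < q) {w : ℂ} (hw : w ∈ UH) :
    ∃ t ∈ Ioo p q, ang q w - ang p w = (q - p) * (w.im / ‖w - t‖ ^ 2) := by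
  obtain ⟨t, ht, h1⟩ := exists_hasDerivAt_eq_slope (fun s : ℝ => ang s w)
    (fun t : ℝ => w.im / ‖w - t‖ ^ 2) h
    (fun t _ => (ang_hasDeriv hw t).continuousAt.continuousWithinAt)
    (fun t _ => ang_hasDeriv hw t)
  refine ⟨t, ht, ?_⟩
  have h2 : q - p ≠ 0 := (sub_pos.2 h).ne'
  rw [h1]
  field_simp

theorem pb2_dist {L t : ℝ} (ht : |t| ≤ L) (w : ℂ) : ‖w‖ - L ≤ ‖w - t‖ ∧ ‖w - t‖ ≤ ‖w‖ + L := by
  have h1 : ‖(t : ℂ)‖ ≤ L := by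
    rw [Complex.norm_real]
    exact ht
  constructor
  · have := norm_sub_norm_le w (t : ℂ)
    linarith
  · have := norm_sub_le w (t : ℂ)
    linarith

theorem pb2_norm : Tendsto (fun w : ℂ => ‖w‖) (cocompact ℂ ⊓ 𝓟 UH) atTop :=
  (tendsto_norm_cocompact_atTop (E := ℂ)).mono_left inf_le_left

theorem pb2_lim1 (L : ℝ) : Tendsto (fun w : ℂ => ((‖w‖ + L) / (‖w‖ - L)) ^ 2)
    (cocompact ℂ ⊓ 𝓟 UH) (𝓝 1) := by
  have h1 : Tendsto (fun x : ℝ => 1 + 2 * L * (x - L)⁻¹) atTop (𝓝 1) := by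
    have h2 : Tendsto (fun x : ℝ => x - L) atTop atTop :=
      tendsto_atTop_add_const_right atTop (-L) tendsto_id
    have h3 := ((tendsto_inv_atTop_zero.comp h2).const_mul (2 * L)).const_add 1
    rwa [mul_zero, add_zero] at h3
  have h4 : Tendsto (fun x : ℝ => (x + L) / (x - L)) atTop (𝓝 1) := by
    refine h1.congr' ?_
    filter_upwards [eventually_gt_atTop L] with x hx
    have : x - L ≠ 0 := (sub_pos.2 hx).ne'
    field_simp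
    ring
  have h5 := (h4.comp pb2_norm).pow 2
  rwa [one_pow] at h5

theorem pb2_lim2 (L : ℝ) : Tendsto (fun w : ℂ => ((‖w‖ - L) / (‖w‖ + L)) ^ 2)
    (cocompact ℂ ⊓ 𝓟 UH) (𝓝 1) := by
  have h := pb2_lim1 (-L)
  refine h.congr fun w => ?_
  rw [sub_neg_eq_add, ← sub_eq_add_neg]

theorem ang_ratio {p₁ p₂ q₁ q₂ : ℝ} (hp : p₁ < p₂) (hq : q₁ < q₂) :
    Tendsto (fun w => (ang q₂ w - ang q₁ w) / (ang p₂ w - ang p₁ w))
      (cocompact ℂ ⊓ 𝓟 UH) (𝓝 ((q₂ - q₁) / (p₂ - p₁))) := by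
  obtain ⟨L, hL⟩ : ∃ L : ℝ, L = |p₁| + |p₂| + |q₁| + |q₂| := ⟨_, rfl⟩
  have hp0 : 0 < p₂ - p₁ := sub_pos.2 hp
  have hq0 : 0 < q₂ - q₁ := sub_pos.2 hq
  have b : ∀ {a c t : ℝ}, |a| + |c| ≤ L → t ∈ Ioo a c → |t| ≤ L := fun {a c t} h ht => by
    have h1 := neg_abs_le a
    have h2 := le_abs_self c
    have h3 := abs_nonneg a
    have h4 := abs_nonneg c
    rw [abs_le]
    constructor
    · linarith [ht.1]
    · linarith [ht.2]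
  have hL1 : |p₁| + |p₂| ≤ L := by
    have := abs_nonneg q₁
    have := abs_nonneg q₂
    linarith
  have hL2 : |q₁| + |q₂| ≤ L := by
    have := abs_nonneg p₁
    have := abs_nonneg p₂
    linarith
  have hL0 : 0 ≤ L := le_trans (by positivity) hL1
  have hev : ∀ᶠ w in cocompact ℂ ⊓ 𝓟 UH, w ∈ UH ∧ L < ‖w‖ := by
    have h1 : ∀ᶠ v in cocompact ℂ ⊓ 𝓟 UH, v ∈ UH := mem_inf_of_right (mem_principal_self _)
    exact h1.and (pb2_norm.eventually_gt_atTop L)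
  have key : ∀ w ∈ UH, L < ‖w‖ → ∃ R : ℝ,
      (ang q₂ w - ang q₁ w) / (ang p₂ w - ang p₁ w) = (q₂ - q₁) / (p₂ - p₁) * R ∧
        ((‖w‖ - L) / (‖w‖ + L)) ^ 2 ≤ R ∧ R ≤ ((‖w‖ + L) / (‖w‖ - L)) ^ 2 := by
    intro w hw hwL
    obtain ⟨t, ht, e1⟩ := pb2_mvt hq hw
    obtain ⟨s, hs, e2⟩ := pb2_mvt hp hw
    have hwi : 0 < w.im := hw
    obtain ⟨t1, t2⟩ := pb2_dist (b hL2 ht) w
    obtain ⟨s1, s2⟩ := pb2_dist (b hL1 hs) w
    have ht0 : 0 < ‖w - t‖ := lt_of_lt_of_le (by linarith) t1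
    have hs0 : 0 < ‖w - s‖ := lt_of_lt_of_le (by linarith) s1
    have hm : 0 < ‖w‖ - L := by linarith
    refine ⟨(‖w - s‖ / ‖w - t‖) ^ 2, ?_, ?_, ?_⟩
    · rw [e1, e2]
      field_simp
    · refine pow_le_pow_left₀ (div_nonneg hm.le (by linarith)) ?_ 2
      exact div_le_div₀ hs0.le s1 ht0 t2
    · refine pow_le_pow_left₀ (div_nonneg hs0.le ht0.le) ?_ 2
      exact div_le_div₀ (by linarith) s2 hm t1
  have l1 := (pb2_lim2 L).const_mul ((q₂ - q₁) / (p₂ - p₁))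
  have l2 := (pb2_lim1 L).const_mul ((q₂ - q₁) / (p₂ - p₁))
  rw [mul_one] at l1 l2
  have hr : 0 ≤ (q₂ - q₁) / (p₂ - p₁) := (div_pos hq0 hp0).le
  refine tendsto_of_tendsto_of_tendsto_of_le_of_le' l1 l2 ?_ ?_
  · filter_upwards [hev] with w hw
    obtain ⟨R, h1, h2, -⟩ := key w hw.1 hw.2
    rw [h1]
    exact mul_le_mul_of_nonneg_left h2 hr
  · filter_upwards [hev] with w hw
    obtain ⟨R, h1, -, h2⟩ := key w hw.1 hw.2
    rw [h1]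
    exact mul_le_mul_of_nonneg_left h2 hr

theorem pb2_ne {w : ℂ} (hw : w ∈ UH) (p : ℝ) : w - p ≠ 0 := by
  intro h
  have h1 := congrArg Complex.im h
  have h2 : 0 < w.im := hw
  simp at h1
  linarith

theorem pb2_sin {w : ℂ} (p : ℝ) : Real.sin (ang p w) = w.im / ‖w - p‖ := by
  unfold ang
  rw [Complex.sin_arg]
  simp

theorem pb2_cos {w : ℂ} (hw : w ∈ UH) (p : ℝ) : Real.cos (ang p w) = (w.re - p) / ‖w - p‖ := by
  unfold ang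
  rw [Complex.cos_arg (pb2_ne hw p)]
  simp

theorem pb2_sub {w : ℂ} (hw : w ∈ UH) (p q : ℝ) :
    Real.sin (ang q w - ang p w) = w.im * (q - p) / (‖w - p‖ * ‖w - q‖) := by
  rw [Real.sin_sub, pb2_sin, pb2_sin, pb2_cos hw, pb2_cos hw]
  have h1 : ‖w - p‖ ≠ 0 := norm_ne_zero_iff.2 (pb2_ne hw p)
  have h2 : ‖w - q‖ ≠ 0 := norm_ne_zero_iff.2 (pb2_ne hw q)
  field_simp
  ring

theorem ang_cross {a b c : ℝ} (hab : a < b) (hbc : b < c) {w : ℂ} (hw : w ∈ UH) :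
    (c - b) / (b - a) = Real.sin (ang c w - ang b w) * Real.sin (ang a w) /
      (Real.sin (ang c w) * Real.sin (ang b w - ang a w)) := by
  rw [pb2_sub hw, pb2_sub hw, pb2_sin, pb2_sin]
  have h1 : ‖w - a‖ ≠ 0 := norm_ne_zero_iff.2 (pb2_ne hw a)
  have h2 : ‖w - b‖ ≠ 0 := norm_ne_zero_iff.2 (pb2_ne hw b)
  have h3 : ‖w - c‖ ≠ 0 := norm_ne_zero_iff.2 (pb2_ne hw c)
  have h4 : w.im ≠ 0 := (show 0 < w.im from hw).ne'
  have h5 : b - a ≠ 0 := (sub_pos.2 hab).ne'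
  field_simp

end Pool.Agent.Choc
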