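import Pool.Agent.Lib.MP_2b3e36_an.Re.PB2

/-!
PB3. If the four angles are close then the invariants are close.

Proof. By `ang_cross` with `(a, b, c) = (v₁, v₂, -1)` and `(v₁, v₂, 1)`: `ea v₁ v₂ - 1 = (-1-v₂)/(v₂-v₁)` and
`ec v₁ v₂ - 1 = (1-v₂)/(v₂-v₁)` are `G (ang v₁ w) (ang v₂ w) (ang (∓1) w)` with
`G α β γ = sin (γ-β) sin α/(sin γ sin (β-α))`. At `w = I` and `v₁, v₂` the denominators are not zero
(`0 < α < β < γ < pi`), `G` is continuous there: an `ε'` exists such that `|G - G'| ≤ ε` if the three arguments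
differ by at most `ε'`.
-/

set_option autoImplicit false

open Complex Set Filter Topology Metric

namespace Pool.Agent.Choc

/-- the function of the three angles -/
noncomputable def pb3G (q : ℝ × ℝ × ℝ) : ℝ :=
  Real.sin (q.2.2 - q.2.1) * Real.sin q.1 / (Real.sin q.2.2 * Real.sin (q.2.1 - q.1))

theorem pb3_cont {α β γ : ℝ} (h0 : 0 < α) (h1 : α < β) (h2 : β < γ) (h3 : γ < Real.pi) :
    ContinuousAt pb3G (α, β, γ) := by
  unfold pb3G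
  have hs1 : Real.sin γ ≠ 0 := (Real.sin_pos_of_pos_of_lt_pi (by linarith) h3).ne'
  have hs2 : Real.sin (β - α) ≠ 0 :=
    (Real.sin_pos_of_pos_of_lt_pi (by linarith) (by linarith)).ne'
  apply ContinuousAt.div
  · fun_prop
  · fun_prop
  · exact mul_ne_zero hs1 hs2

theorem pb3_close {α β γ : ℝ} (h0 : 0 < α) (h1 : α < β) (h2 : β < γ) (h3 : γ < Real.pi)
    {ε : ℝ} (hε : 0 < ε) : ∃ ε' > 0, ∀ α' β' γ' : ℝ, |α' - α| ≤ ε' → |β' - β| ≤ ε' →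
      |γ' - γ| ≤ ε' → |pb3G (α', β', γ') - pb3G (α, β, γ)| ≤ ε := by
  obtain ⟨δ, hδ, H⟩ := Metric.continuousAt_iff.1 (pb3_cont h0 h1 h2 h3) ε hε
  refine ⟨δ / 2, by positivity, ?_⟩
  intro α' β' γ' ha hb hc
  have hd : dist ((α', β', γ') : ℝ × ℝ × ℝ) (α, β, γ) < δ := by
    rw [Prod.dist_eq, Prod.dist_eq]
    simp only [Real.dist_eq]
    apply max_lt (by linarith) (max_lt (by linarith) (by linarith))
  have := H hd
  rw [Real.dist_eq] at this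
  exact this.le

theorem pb3_ea {u₁ u₂ : ℝ} (h1 : u₁ < u₂) (h2 : u₂ < -1) {w : ℂ} (hw : w ∈ UH) :
    ea u₁ u₂ = 1 + pb3G (ang u₁ w, ang u₂ w, ang (-1) w) := by
  have h3 := ang_cross h1 h2 hw
  unfold pb3G
  show ea u₁ u₂ = 1 + Real.sin (ang (-1) w - ang u₂ w) * Real.sin (ang u₁ w) /
    (Real.sin (ang (-1) w) * Real.sin (ang u₂ w - ang u₁ w))
  rw [← h3]
  unfold ea
  have : u₂ - u₁ ≠ 0 := by linarith
  field_simp
  ring

theorem pb3_ec {u₁ u₂ : ℝ} (h1 : u₁ < u₂) (h2 : u₂ < -1) {w : ℂ} (hw : w ∈ UH) :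
    ec u₁ u₂ = 1 + pb3G (ang u₁ w, ang u₂ w, ang 1 w) := by
  have h3 := ang_cross h1 (show u₂ < 1 by linarith) hw
  unfold pb3G
  show ec u₁ u₂ = 1 + Real.sin (ang 1 w - ang u₂ w) * Real.sin (ang u₁ w) /
    (Real.sin (ang 1 w) * Real.sin (ang u₂ w - ang u₁ w))
  rw [← h3]
  unfold ec
  have : u₂ - u₁ ≠ 0 := by linarith
  field_simp
  ring

theorem cross_close {v₁ v₂ : ℝ} (h1 : v₁ < v₂) (h2 : v₂ < -1) {ε : ℝ} (hε : 0 < ε) :
    ∃ ε' > 0, ∀ u₁ u₂ : ℝ, u₁ < u₂ → u₂ < -1 → ∀ w ∈ UH,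
      |ang u₁ w - ang v₁ I| ≤ ε' → |ang u₂ w - ang v₂ I| ≤ ε' →
      |ang (-1) w - ang (-1) I| ≤ ε' → |ang 1 w - ang 1 I| ≤ ε' →
      |ea u₁ u₂ - ea v₁ v₂| ≤ ε ∧ |ec u₁ u₂ - ec v₁ v₂| ≤ ε := by
  have hI : I ∈ UH := by
    show 0 < Complex.I.im
    rw [Complex.I_im]
    exact one_pos
  obtain ⟨ε₁, hε₁, H₁⟩ := pb3_close (ang_pos v₁ hI) (ang_mono h1 hI) (ang_mono h2 hI)
    (ang_lt _ hI) hε
  obtain ⟨ε₂, hε₂, H₂⟩ := pb3_close (ang_pos v₁ hI) (ang_mono h1 hI)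
    (ang_mono (show v₂ < 1 by linarith) hI) (ang_lt _ hI) hε
  refine ⟨min ε₁ ε₂, lt_min hε₁ hε₂, ?_⟩
  intro u₁ u₂ hu1 hu2 w hw a1 a2 a3 a4
  rw [pb3_ea hu1 hu2 hw, pb3_ea h1 h2 hI, pb3_ec hu1 hu2 hw, pb3_ec h1 h2 hI,
    add_sub_add_left_eq_sub, add_sub_add_left_eq_sub]
  exact ⟨H₁ _ _ _ (a1.trans (min_le_left _ _)) (a2.trans (min_le_left _ _))
    (a3.trans (min_le_left _ _)), H₂ _ _ _ (a1.trans (min_le_right _ _))
    (a2.trans (min_le_right _ _)) (a4.trans (min_le_right _ _))⟩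

end Pool.Agent.Choc
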