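import Pool.Agent.Lib.MP_2b3e36_an.Re.PB0

/-!
PC1. The boundary values of a model as limits.

Proofs. In the regular cases (`side0`, `slit`, `side2`, `free`, `arc`) `T = τ` on the upper part of a ball about
`x` and `τ` is continuous at `x`: the limit is `τ x` (put `u = x` in the third item). Slit: `τ x = -1 + t I` with
`t = (τ x).im ≥ η`; if `t = η` then the real function `u ↦ (τ u).im` has a local minimum at `x`, its derivative
`(deriv τ x).im` vanishes (`(τ u).re = -1` gives `(deriv τ x).re = 0` as well), so `deriv τ x = 0` and `x = vc`.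
`negOne`, `posOne`: `α v → 0`, so `(α v)^(1/2) → 0` (`‖z^(1/2)‖ = ‖z‖^(1/2)`). Infinity: for `v = -1/v'`,
`v' = -1/v → 0` in `UH`, `p v' → 0`, `‖log (p v')‖ ≥ -Real.log ‖p v'‖ → ∞`. Cusps: `Im T = Im (log Q/(pi i)) =
- Real.log ‖Q‖/pi → ∞` since `Q v → 0`, `Q v ≠ 0`.
`model_tip`: let `ρ > 0`. By `model_cusp1`, `model_cusp2` there is `s > 0` with `(T v).im > η + 1` for `v ∈ UH`,
`‖v - v₁‖ < s` or `‖v - v₂‖ < s`, so the limits there have `t ≥ η + 1`. On the compact set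
`{x : v₁ + s/2 ≤ x ≤ v₂ - s/2, ρ ≤ |x - vc|}` the limit function `t (x)` is continuous (locally it is
`(τ x).im`) and `> η`, so `≥ η + δ`. (The limit is unique: `𝓝[UH] x` is not trivial.)
-/

set_option autoImplicit false

open Complex Set Filter Topology Metric

namespace Pool.Agent.Choc

variable {η : ℝ} {T : ℂ → ℂ} {v₁ v₂ vc : ℝ}

theorem uh_neBot (x : ℝ) : (𝓝[UH] (x : ℂ)).NeBot := by
  refine mem_closure_iff_nhdsWithin_neBot.1 ?_
  rw [Metric.mem_closure_iff]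
  intro ε hε
  refine ⟨(x : ℂ) + (ε / 2 : ℝ) * I, ?_, ?_⟩
  · show 0 < ((x : ℂ) + (ε / 2 : ℝ) * I).im
    simp [hε]
  · rw [dist_eq_norm]
    have : (x : ℂ) - ((x : ℂ) + (ε / 2 : ℝ) * I) = -((ε / 2 : ℝ) * I) := by ring
    rw [this, norm_neg, norm_mul, Complex.norm_I, mul_one, Complex.norm_real, Real.norm_eq_abs,
      abs_of_pos (by linarith)]
    linarith

theorem pc1_lim {τ : ℂ → ℂ} {x : ℂ} {r : ℝ} (hr : 0 < r)
    (hτ : DifferentiableOn ℂ τ (ball x r)) (h : ∀ v ∈ ball x r, 0 < v.im → T v = τ v) :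
    Tendsto T (𝓝[UH] x) (𝓝 (τ x)) := by
  have h1 : ContinuousAt τ x := (hτ.differentiableAt (ball_mem_nhds x hr)).continuousAt
  have h2 : Tendsto τ (𝓝[UH] x) (𝓝 (τ x)) := h1.tendsto.mono_left nhdsWithin_le_nhds
  refine h2.congr' ?_
  filter_upwards [self_mem_nhdsWithin, mem_nhdsWithin_of_mem_nhds (ball_mem_nhds x hr)]
    with v hv hv2
  exact (h v hv2 hv).symm

theorem model_side0 (hT : Model2 η T v₁ v₂ vc) {x : ℝ} (hx : x < v₁) :
    ∃ τ₀ ∈ Vert 0, Tendsto T (𝓝[UH] (x : ℂ)) (𝓝 τ₀) := by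
  obtain ⟨r, hr, τ, hτ, h1, h2, -⟩ := hT.side0 x hx
  exact ⟨τ x, h2 x (mem_ball_self hr), pc1_lim hr hτ h1⟩

/-- a differentiable function, real derivative along the real axis -/
theorem pc1_real {τ : ℂ → ℂ} {x r : ℝ} (hr : 0 < r) (hτ : DifferentiableOn ℂ τ (ball (x : ℂ) r)) :
    HasDerivAt (fun u : ℝ => (τ u).re) (deriv τ x).re x ∧
      HasDerivAt (fun u : ℝ => (τ u).im) (deriv τ x).im x := by
  have h1 : HasDerivAt τ (deriv τ x) (x : ℂ) :=
    (hτ.differentiableAt (ball_mem_nhds _ hr)).hasDerivAt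
  have h2 : HasDerivAt (fun u : ℝ => τ u) (deriv τ x) x := h1.comp_ofReal
  exact ⟨(Complex.reCLM.hasFDerivAt.comp_hasDerivAt x h2),
    (Complex.imCLM.hasFDerivAt.comp_hasDerivAt x h2)⟩

theorem model_slit (hT : Model2 η T v₁ v₂ vc) {x : ℝ} (h1 : v₁ < x) (h2 : x < v₂) :
    ∃ t : ℝ, η ≤ t ∧ (t = η → x = vc) ∧ Tendsto T (𝓝[UH] (x : ℂ)) (𝓝 (-1 + t * I)) := by
  obtain ⟨r, hr, τ, hτ, h3, h4, h5, -⟩ := hT.slit x h1 h2
  have h6 := h4 x (mem_ball_self hr)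
  refine ⟨(τ x).im, h6.2, fun ht => ?_, ?_⟩
  · by_contra hne
    refine h5 hne ?_
    obtain ⟨d1, d2⟩ := pc1_real hr hτ
    have hmem : ∀ᶠ u : ℝ in 𝓝 x, (u : ℂ) ∈ ball (x : ℂ) r :=
      (Complex.continuous_ofReal.tendsto x).eventually (ball_mem_nhds _ hr)
    have e1 : (deriv τ x).re = 0 := by
      have hc : (fun u : ℝ => (τ u).re) =ᶠ[𝓝 x] fun _ => (-1 : ℝ) := by
        filter_upwards [hmem] with u hu
        exact (h4 u hu).1
      exact d1.unique ((hasDerivAt_const x (-1 : ℝ)).congr_of_eventuallyEq hc)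
    have e2 : (deriv τ x).im = 0 := by
      have hmin : IsLocalMin (fun u : ℝ => (τ u).im) x := by
        filter_upwards [hmem] with u hu
        rw [ht]
        exact (h4 u hu).2
      exact hmin.hasDerivAt_eq_zero d2
    exact Complex.ext e1 e2
  · have h7 : (-1 + ((τ x).im : ℂ) * I : ℂ) = τ x := by
      apply Complex.ext
      · simp [h6.1]
      · simp
    rw [h7]
    exact pc1_lim hr hτ h3

theorem model_side2 (hT : Model2 η T v₁ v₂ vc) {x : ℝ} (h1 : v₂ < x) (h2 : x < -1) :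
    ∃ τ₀ ∈ Vert (-2), Tendsto T (𝓝[UH] (x : ℂ)) (𝓝 τ₀) := by
  obtain ⟨r, hr, τ, hτ, h3, h4, -⟩ := hT.side2 x h1 h2
  exact ⟨τ x, h4 x (mem_ball_self hr), pc1_lim hr hτ h3⟩

theorem model_negOne (hT : Model2 η T v₁ v₂ vc) : Tendsto T (𝓝[UH] (-1 : ℂ)) (𝓝 (-2)) := by
  obtain ⟨r, hr, α, hα, h0, -, h⟩ := hT.negOne
  have h1 : ContinuousAt α (-1) := (hα.differentiableAt (ball_mem_nhds _ hr)).continuousAt
  have h2 : ContinuousAt (fun z : ℂ => z ^ ((1 : ℂ) / 2)) (α (-1)) := by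
    rw [h0]
    exact Complex.continuousAt_cpow_const_of_re_pos (Or.inl (by simp)) (by norm_num)
  have h7 : ContinuousAt (fun v => (α v) ^ ((1 : ℂ) / 2)) (-1) :=
    ContinuousAt.comp (g := fun z : ℂ => z ^ ((1 : ℂ) / 2)) (f := α) h2 h1
  have h3 : ContinuousAt (fun v => -2 + (α v) ^ ((1 : ℂ) / 2)) (-1) :=
    continuousAt_const.add h7
  have h4 : -2 + (α (-1)) ^ ((1 : ℂ) / 2) = -2 := by
    rw [h0, Complex.zero_cpow (by norm_num)]
    simp
  have h5 := h3.tendsto.mono_left (nhdsWithin_le_nhds (s := UH))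
  rw [h4] at h5
  refine h5.congr' ?_
  filter_upwards [self_mem_nhdsWithin, mem_nhdsWithin_of_mem_nhds (ball_mem_nhds (-1 : ℂ) hr)]
    with v hv hv2
  exact (h v hv2 hv).2.symm

theorem model_free (hT : Model2 η T v₁ v₂ vc) {x : ℝ} (h1 : -1 < x) (h2 : x < 1) :
    ∃ s : ℝ, -2 < s ∧ s < -1 ∧ Tendsto T (𝓝[UH] (x : ℂ)) (𝓝 (s : ℂ)) := by
  obtain ⟨r, hr, τ, hτ, h3, h4, -⟩ := hT.free x h1 h2
  have h6 := h4 x (mem_ball_self hr)
  refine ⟨(τ x).re, h6.2.1, h6.2.2, ?_⟩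
  have h7 : ((τ x).re : ℂ) = τ x := by
    apply Complex.ext
    · simp
    · simp [h6.1]
  rw [h7]
  exact pc1_lim hr hτ h3

theorem model_posOne (hT : Model2 η T v₁ v₂ vc) : Tendsto T (𝓝[UH] (1 : ℂ)) (𝓝 (-1)) := by
  obtain ⟨r, hr, α, hα, h0, -, h⟩ := hT.posOne
  have h1 : ContinuousAt α 1 := (hα.differentiableAt (ball_mem_nhds _ hr)).continuousAt
  have h2 : ContinuousAt (fun z : ℂ => z ^ ((1 : ℂ) / 2)) (α 1) := by
    rw [h0]
    exact Complex.continuousAt_cpow_const_of_re_pos (Or.inl (by simp)) (by norm_num)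
  have h6 : ContinuousAt (fun z : ℂ => -1 / (1 + I * z)) ((α 1) ^ ((1 : ℂ) / 2)) := by
    rw [h0, Complex.zero_cpow (by norm_num)]
    refine ContinuousAt.div continuousAt_const (by fun_prop) (by simp)
  have h7 : ContinuousAt (fun v => (α v) ^ ((1 : ℂ) / 2)) 1 :=
    ContinuousAt.comp (g := fun z : ℂ => z ^ ((1 : ℂ) / 2)) (f := α) h2 h1
  have h8 : ContinuousAt (fun v => -1 / (1 + I * (α v) ^ ((1 : ℂ) / 2))) 1 :=
    ContinuousAt.comp (g := fun z : ℂ => -1 / (1 + I * z))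
      (f := fun v => (α v) ^ ((1 : ℂ) / 2)) h6 h7
  have h4 : -1 / (1 + I * (α 1) ^ ((1 : ℂ) / 2)) = -1 := by
    rw [h0, Complex.zero_cpow (by norm_num)]
    simp
  have h5 := h8.tendsto.mono_left (nhdsWithin_le_nhds (s := UH))
  rw [h4] at h5
  refine h5.congr' ?_
  filter_upwards [self_mem_nhdsWithin, mem_nhdsWithin_of_mem_nhds (ball_mem_nhds (1 : ℂ) hr)]
    with v hv hv2
  exact (h v hv2 hv).2.symm

theorem model_arc (hT : Model2 η T v₁ v₂ vc) {x : ℝ} (hx : 1 < x) :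
    ∃ τ₀ ∈ Sig, Tendsto T (𝓝[UH] (x : ℂ)) (𝓝 τ₀) := by
  obtain ⟨r, hr, τ, hτ, h3, h4, -⟩ := hT.arc x hx
  exact ⟨τ x, h4 x (mem_ball_self hr), pc1_lim hr hτ h3⟩

theorem pc1_inv : Tendsto (fun v : ℂ => -1 / v) (cocompact ℂ ⊓ 𝓟 UH) (𝓝[UH] (0 : ℂ)) := by
  refine tendsto_nhdsWithin_iff.2 ⟨?_, ?_⟩
  · have h1 : Tendsto (fun v : ℂ => v⁻¹) (cocompact ℂ) (𝓝 0) := by
      rw [← Metric.cobounded_eq_cocompact]
      exact tendsto_inv₀_cobounded
    have h2 : Tendsto (fun v : ℂ => -1 / v) (cocompact ℂ) (𝓝 0) := by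
      have h3 := h1.const_mul (-1 : ℂ)
      rw [mul_zero] at h3
      refine h3.congr fun v => ?_
      rw [div_eq_mul_inv]
    exact h2.mono_left inf_le_left
  · have h4 : ∀ᶠ v in cocompact ℂ ⊓ 𝓟 UH, v ∈ UH := mem_inf_of_right (mem_principal_self _)
    filter_upwards [h4] with v hv
    have hv' : 0 < v.im := hv
    show 0 < (-1 / v).im
    have h5 : 0 < normSq v := normSq_pos.2 fun h => by
      rw [h] at hv'
      simp at hv'
    rw [neg_div, one_div, neg_im, inv_im]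
    have : 0 < v.im / normSq v := div_pos hv' h5
    rw [neg_div]
    linarith

theorem model_infty (hT : Model2 η T v₁ v₂ vc) : Tendsto T (cocompact ℂ ⊓ 𝓟 UH) (𝓝 0) := by
  obtain ⟨r, hr, p, hp, h0, -, -, h⟩ := hT.infty
  have h1 : ContinuousAt p 0 := (hp.differentiableAt (ball_mem_nhds _ hr)).continuousAt
  have hev : ∀ᶠ v in 𝓝[UH] (0 : ℂ), v ∈ UH ∧ v ∈ ball (0 : ℂ) r := by
    filter_upwards [self_mem_nhdsWithin, mem_nhdsWithin_of_mem_nhds (ball_mem_nhds (0 : ℂ) hr)]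
      with v hv hv2
    exact ⟨hv, hv2⟩
  have h2 : Tendsto (fun v => ‖p v‖) (𝓝[UH] (0 : ℂ)) (𝓝[>] 0) := by
    refine tendsto_nhdsWithin_iff.2 ⟨?_, ?_⟩
    · have := (h1.norm.tendsto).mono_left (nhdsWithin_le_nhds (s := UH))
      rwa [h0, norm_zero] at this
    · filter_upwards [hev] with v hv
      have h3 := (h v hv.2 hv.1).1
      refine norm_pos_iff.2 fun h4 => ?_
      rw [h4] at h3
      simp at h3
  have h3 : Tendsto (fun v => |Real.log ‖p v‖|) (𝓝[UH] (0 : ℂ)) atTop :=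
    (tendsto_abs_atBot_atTop.comp Real.tendsto_log_nhdsGT_zero).comp h2
  have h4 : Tendsto (fun v => ‖log (p v)‖) (𝓝[UH] (0 : ℂ)) atTop := by
    refine tendsto_atTop_mono (fun v => ?_) h3
    have := Complex.abs_re_le_norm (log (p v))
    rwa [Complex.log_re] at this
  have h5 : Tendsto (fun v => -(Real.pi * I) / log (p v)) (𝓝[UH] (0 : ℂ)) (𝓝 0) := by
    rw [tendsto_zero_iff_norm_tendsto_zero]
    have h6 : (fun v => ‖-(Real.pi * I) / log (p v)‖) =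
        fun v => ‖(-(Real.pi * I) : ℂ)‖ * (‖log (p v)‖)⁻¹ := by
      funext v
      rw [norm_div, div_eq_mul_inv]
    rw [h6]
    have h7 := (tendsto_inv_atTop_zero.comp h4).const_mul ‖(-(Real.pi * I) : ℂ)‖
    rwa [mul_zero] at h7
  have h8 : Tendsto (fun v => T (-1 / v)) (𝓝[UH] (0 : ℂ)) (𝓝 0) := by
    refine h5.congr' ?_
    filter_upwards [hev] with v hv
    exact (h v hv.2 hv.1).2.2.symm
  refine (h8.comp pc1_inv).congr' ?_
  have h9 : ∀ᶠ v in cocompact ℂ ⊓ 𝓟 UH, v ∈ UH := mem_inf_of_right (mem_principal_self _)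
  filter_upwards [h9] with v hv
  have hv' : 0 < v.im := hv
  have hv0 : v ≠ 0 := fun h => by
    rw [h] at hv'
    simp at hv'
  show T (-1 / (-1 / v)) = T v
  congr 1
  field_simp

theorem pc1_cusp {x m : ℝ} (hx : CuspAt T x m) :
    Tendsto (fun v => (T v).im) (𝓝[UH] (x : ℂ)) atTop := by
  obtain ⟨r, hr, Q, hQ, h0, -, -, h⟩ := hx
  have h1 : ContinuousAt Q x := (hQ.differentiableAt (ball_mem_nhds _ hr)).continuousAt
  have hev : ∀ᶠ v in 𝓝[UH] (x : ℂ), v ∈ UH ∧ v ∈ ball (x : ℂ) r := by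
    filter_upwards [self_mem_nhdsWithin, mem_nhdsWithin_of_mem_nhds (ball_mem_nhds (x : ℂ) hr)]
      with v hv hv2
    exact ⟨hv, hv2⟩
  have h2 : Tendsto (fun v => ‖Q v‖) (𝓝[UH] (x : ℂ)) (𝓝[>] 0) := by
    refine tendsto_nhdsWithin_iff.2 ⟨?_, ?_⟩
    · have := (h1.norm.tendsto).mono_left (nhdsWithin_le_nhds (s := UH))
      rwa [h0, norm_zero] at this
    · filter_upwards [hev] with v hv
      have h3 := (h v hv.2 hv.1).1
      refine norm_pos_iff.2 fun h4 => ?_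
      rw [h4] at h3
      simp at h3
  have h3 : Tendsto (fun v => Real.log ‖Q v‖) (𝓝[UH] (x : ℂ)) atBot :=
    Real.tendsto_log_nhdsGT_zero.comp h2
  have h4 : Tendsto (fun v => Real.log ‖Q v‖ * (-(Real.pi)⁻¹)) (𝓝[UH] (x : ℂ)) atTop :=
    h3.atBot_mul_const_of_neg (by
      have := inv_pos.2 Real.pi_pos
      linarith)
  refine h4.congr' ?_
  filter_upwards [hev] with v hv
  rw [(h v hv.2 hv.1).2.2, sub_im, ofReal_im, sub_zero]
  have h5 : log (Q v) / (Real.pi * I) = ((Real.pi)⁻¹ : ℝ) * (-(I * log (Q v))) := by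
    have hπ : (Real.pi : ℂ) ≠ 0 := by exact_mod_cast Real.pi_pos.ne'
    push_cast
    field_simp
    rw [I_sq]
    ring
  rw [h5, im_ofReal_mul, neg_im, I_mul_im, Complex.log_re]
  ring

theorem model_cusp1 (hT : Model2 η T v₁ v₂ vc) :
    Tendsto (fun v => (T v).im) (𝓝[UH] (v₁ : ℂ)) atTop := pc1_cusp hT.cusp1

theorem model_cusp2 (hT : Model2 η T v₁ v₂ vc) :
    Tendsto (fun v => (T v).im) (𝓝[UH] (v₂ : ℂ)) atTop := pc1_cusp hT.cusp2

end Pool.Agent.Choc
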