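import Pool.Agent.Lib.MP_2b3e36_an.Re.PC1

/-!
PC2. Away from `vc` the boundary value on the slit is above the tip, uniformly.

Proof. Let `ρ > 0`. By `model_cusp1`, `model_cusp2` there is `s > 0` with `(T v).im > η + 1` for `v ∈ UH`,
`‖v - v₁‖ < s` or `‖v - v₂‖ < s`, so the limits there have `t ≥ η + 1`. On the compact set
`{x : v₁ + s/2 ≤ x ≤ v₂ - s/2, ρ ≤ |x - vc|}` every point `x` has a limit `-1 + t I` with `t > η`
(`model_slit`), and by `Model2.slit` (`T = τ`, `τ` continuous) there are a ball about `x` and a number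
`δ_x > 0` such that all limits at real points of the ball have `t ≥ η + δ_x` (continuity of `τ`). By
compactness finitely many balls suffice. (The limit is unique: `𝓝[UH] x` is not trivial.)
-/

set_option autoImplicit false

open Complex Set Filter Topology Metric

namespace Pool.Agent.Choc

variable {η : ℝ} {T : ℂ → ℂ} {v₁ v₂ vc : ℝ}

theorem pc2_cusp {p : ℝ} (h : Tendsto (fun v => (T v).im) (𝓝[UH] (p : ℂ)) atTop) :
    ∃ s > 0, ∀ x : ℝ, |x - p| < s → ∀ t : ℝ,
      Tendsto T (𝓝[UH] (x : ℂ)) (𝓝 (-1 + t * I)) → η + 1 ≤ t := by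
  have h1 : ∀ᶠ v in 𝓝[UH] (p : ℂ), η + 1 ≤ (T v).im := h.eventually_ge_atTop _
  rw [eventually_nhdsWithin_iff] at h1
  obtain ⟨s, hs, H⟩ := Metric.eventually_nhds_iff_ball.1 h1
  refine ⟨s, hs, ?_⟩
  intro x hx t ht
  have hx' : (x : ℂ) ∈ ball (p : ℂ) s := by
    rw [mem_ball, dist_eq_norm, ← Complex.ofReal_sub, Complex.norm_real]
    exact hx
  have := uh_neBot x
  have ht2 : Tendsto (fun v => (T v).im) (𝓝[UH] (x : ℂ)) (𝓝 t) := by
    have := (Complex.continuous_im.tendsto _).comp ht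
    simpa [Function.comp_def] using this
  apply ge_of_tendsto ht2
  filter_upwards [nhdsWithin_le_nhds (isOpen_ball.mem_nhds hx'), self_mem_nhdsWithin] with v hv1 hv2
  exact H v hv1 hv2

theorem model_tip (hT : Model2 η T v₁ v₂ vc) {ρ : ℝ} (hρ : 0 < ρ) :
    ∃ δ > 0, ∀ x : ℝ, v₁ < x → x < v₂ → ρ ≤ |x - vc| → ∀ t : ℝ,
      Tendsto T (𝓝[UH] (x : ℂ)) (𝓝 (-1 + t * I)) → η + δ ≤ t := by
  have key : ∃ δ > 0, ∀ x ∈ Icc v₁ v₂, v₁ < x → x < v₂ → ρ ≤ |x - vc| → ∀ t : ℝ,
      Tendsto T (𝓝[UH] (x : ℂ)) (𝓝 (-1 + t * I)) → η + δ ≤ t := by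
    refine isCompact_Icc.induction_on (p := fun s : Set ℝ => ∃ δ > 0, ∀ x ∈ s, v₁ < x →
      x < v₂ → ρ ≤ |x - vc| → ∀ t : ℝ,
      Tendsto T (𝓝[UH] (x : ℂ)) (𝓝 (-1 + t * I)) → η + δ ≤ t) ?_ ?_ ?_ ?_
    · exact ⟨1, one_pos, fun x hx => absurd hx (Set.notMem_empty x)⟩
    · rintro s t hst ⟨δ, hδ, H⟩
      exact ⟨δ, hδ, fun x hx => H x (hst hx)⟩
    · rintro s t ⟨δ, hδ, H⟩ ⟨δ', hδ', H'⟩
      refine ⟨min δ δ', lt_min hδ hδ', ?_⟩
      rintro x (hx | hx) h1 h2 h3 u hu
      · have := H x hx h1 h2 h3 u hu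
        linarith [min_le_left δ δ']
      · have := H' x hx h1 h2 h3 u hu
        linarith [min_le_right δ δ']
    · intro x hx
      have hball : ∀ s : ℝ, 0 < s → {y : ℝ | |y - x| < s} ∈ 𝓝[Icc v₁ v₂] x := by
        intro s hs
        apply nhdsWithin_le_nhds
        have h4 : {y : ℝ | |y - x| < s} = ball x s := by
          ext y
          rw [mem_ball, Real.dist_eq]
          rfl
        rw [h4]
        exact ball_mem_nhds x hs
      rcases eq_or_lt_of_le hx.1 with h1 | h1
      · obtain ⟨s, hs, H⟩ := pc2_cusp (η := η) (model_cusp1 hT)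
        refine ⟨_, hball s hs, 1, one_pos, ?_⟩
        intro y hy _ _ _ t ht
        apply H y _ t ht
        rw [h1]
        exact hy
      rcases eq_or_lt_of_le hx.2 with h2 | h2
      · obtain ⟨s, hs, H⟩ := pc2_cusp (η := η) (model_cusp2 hT)
        refine ⟨_, hball s hs, 1, one_pos, ?_⟩
        intro y hy _ _ _ t ht
        apply H y _ t ht
        rw [← h2]
        exact hy
      rcases lt_or_ge (|x - vc|) ρ with h3 | h3
      · refine ⟨_, hball (ρ - |x - vc|) (by linarith), 1, one_pos, ?_⟩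
        intro y hy _ _ h4 t _
        have h5 : |y - x| < ρ - |x - vc| := hy
        have h6 := abs_sub_le y x vc
        linarith
      · obtain ⟨r, hr, τ, hτd, hτ, hre, -, -⟩ := hT.slit x h1 h2
        have hxb : (x : ℂ) ∈ ball (x : ℂ) r := mem_ball_self hr
        have hcτ : ∀ v ∈ ball (x : ℂ) r, ContinuousAt τ v := fun v hv =>
          ((hτd v hv).differentiableAt (isOpen_ball.mem_nhds hv)).continuousAt
        have hlim : ∀ u : ℝ, (u : ℂ) ∈ ball (x : ℂ) r → Tendsto T (𝓝[UH] (u : ℂ)) (𝓝 (τ u)) := by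
          intro u hu
          have h4 : Tendsto τ (𝓝[UH] (u : ℂ)) (𝓝 (τ u)) :=
            (hcτ _ hu).tendsto.mono_left nhdsWithin_le_nhds
          apply h4.congr'
          filter_upwards [nhdsWithin_le_nhds (isOpen_ball.mem_nhds hu), self_mem_nhdsWithin]
            with v hv1 hv2
          exact (hτ v hv1 hv2).symm
        have hun : ∀ u : ℝ, (u : ℂ) ∈ ball (x : ℂ) r → ∀ t : ℝ,
            Tendsto T (𝓝[UH] (u : ℂ)) (𝓝 (-1 + t * I)) → t = (τ u).im := by
          intro u hu t ht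
          have := uh_neBot u
          have h4 := tendsto_nhds_unique ht (hlim u hu)
          have h5 := congrArg Complex.im h4
          simpa using h5
        have hgt : η < (τ x).im := by
          obtain ⟨t, ht1, ht2, ht3⟩ := model_slit hT h1 h2
          have h4 := hun x hxb t ht3
          rw [← h4]
          apply lt_of_le_of_ne ht1
          intro h5
          have h6 := ht2 h5.symm
          rw [h6, sub_self, abs_zero] at h3
          linarith
        have hev : ∀ᶠ v in 𝓝 (x : ℂ), v ∈ ball (x : ℂ) r ∧ η + ((τ x).im - η) / 2 < (τ v).im := by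
          apply (isOpen_ball.eventually_mem hxb).and
          have hci : ContinuousAt (fun v => (τ v).im) x :=
            Complex.continuous_im.continuousAt.comp (hcτ _ hxb)
          apply hci.eventually (p := fun y : ℝ => η + ((τ x).im - η) / 2 < y)
          apply lt_mem_nhds
          show η + ((τ x).im - η) / 2 < (τ x).im
          linarith
        obtain ⟨s, hs, H⟩ := Metric.eventually_nhds_iff_ball.1 hev
        refine ⟨_, hball s hs, ((τ x).im - η) / 2, by linarith, ?_⟩
        intro y hy _ _ _ t ht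
        have hy' : (y : ℂ) ∈ ball (x : ℂ) s := by
          rw [mem_ball, dist_eq_norm, ← Complex.ofReal_sub, Complex.norm_real]
          exact hy
        obtain ⟨h4, h5⟩ := H _ hy'
        rw [hun y h4 t ht]
        exact h5.le
  obtain ⟨δ, hδ, H⟩ := key
  exact ⟨δ, hδ, fun x h1 h2 => H x ⟨h1.le, h2.le⟩ h1 h2⟩

end Pool.Agent.Choc
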