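import Pool.Agent.Lib.MP_2b3e36_an.Re.PC1

/-!
PD. Classification of the limits: if `T` converges along an ultrafilter of the upper half plane, then the
ultrafilter converges to infinity, to an interior point or to a real point with the right boundary value.

Proof. If `F` is not finer than `cocompact ℂ` then a compact set is in `F`, so `F ≤ 𝓝 p` for some `p`
(`IsCompact.ultrafilter_le_nhds`), and `0 ≤ p.im` since `UH ∈ F` (`p` is in the closure of `UH`). If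
`p ∈ UH` then `T` is continuous at `p` and the limits are equal (Hausdorff). If `p = x` is real then
`F ≤ 𝓝[UH] x` and PC1 gives the limit of `T` at `x` in each case: `x < v₁`, `x = v₁` (impossible:
`Im T → ∞`), `v₁ < x < v₂`, `x = v₂` (impossible), `v₂ < x < -1`, `x = -1`, `-1 < x < 1`, `x = 1`, `1 < x`; it
equals `τ₀` by uniqueness of limits along `F`. If `F ≤ cocompact ℂ` then `F ≤ cocompact ℂ ⊓ 𝓟 UH` and `T → 0`.
`cluster_top`: the same with `Im T → ∞` along `F`: only `v₁`, `v₂` remain (in all the other cases `T`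
converges).
-/

set_option autoImplicit false

open Complex Set Filter Topology Metric

namespace Pool.Agent.Choc

variable {η : ℝ} {T : ℂ → ℂ} {v₁ v₂ vc : ℝ}

theorem pd_cases {F : Ultrafilter ℂ} (hF : UH ∈ F) :
    ((F : Filter ℂ) ≤ cocompact ℂ ⊓ 𝓟 UH) ∨ (∃ p ∈ UH, (F : Filter ℂ) ≤ 𝓝 p) ∨
    ∃ x : ℝ, (F : Filter ℂ) ≤ 𝓝[UH] (x : ℂ) := by
  by_cases h : ∃ K : Set ℂ, IsCompact K ∧ K ∈ F
  · obtain ⟨K, hK, hKF⟩ := h
    obtain ⟨p, -, hp⟩ := hK.ultrafilter_le_nhds F (le_principal_iff.2 hKF)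
    right
    have hp0 : 0 ≤ p.im := by
      by_contra hcon
      push Not at hcon
      have h1 : {z : ℂ | z.im < 0} ∈ 𝓝 p :=
        (isOpen_lt Complex.continuous_im continuous_const).mem_nhds hcon
      have h2 : {z : ℂ | z.im < 0} ∩ UH ∈ (F : Filter ℂ) := inter_mem (hp h1) hF
      obtain ⟨z, hz1, hz2⟩ := F.neBot.nonempty_of_mem h2
      have h3 : z.im < 0 := hz1
      have h4 : 0 < z.im := hz2
      linarith
    rcases lt_or_eq_of_le hp0 with h1 | h1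
    · exact Or.inl ⟨p, h1, hp⟩
    · right
      refine ⟨p.re, ?_⟩
      have e : ((p.re : ℝ) : ℂ) = p := Complex.ext (by simp) (by simp [← h1])
      rw [e, nhdsWithin]
      exact le_inf hp (le_principal_iff.2 hF)
  · left
    refine le_inf ?_ (le_principal_iff.2 hF)
    rw [Filter.hasBasis_cocompact.ge_iff]
    intro K hK
    rw [Ultrafilter.mem_coe, Ultrafilter.compl_mem_iff_notMem]
    exact fun h1 => h ⟨K, hK, h1⟩

theorem pd_cont (hT : Model2 η T v₁ v₂ vc) {p : ℂ} (hp : p ∈ UH) : ContinuousAt T p := by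
  have ho : IsOpen UH := isOpen_lt continuous_const Complex.continuous_im
  exact (hT.diff.differentiableAt (ho.mem_nhds hp)).continuousAt

theorem pd_im {F : Ultrafilter ℂ} {f : ℂ → ℂ} {z : ℂ} (h : Tendsto f F (𝓝 z))
    (h' : Tendsto (fun v => (f v).im) F atTop) : False :=
  not_tendsto_nhds_of_tendsto_atTop h' _ ((Complex.continuous_im.tendsto z).comp h)

theorem cluster (hT : Model2 η T v₁ v₂ vc) {F : Ultrafilter ℂ} (hF : UH ∈ F) {τ₀ : ℂ}
    (h : Tendsto T F (𝓝 τ₀)) :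
    ((F : Filter ℂ) ≤ cocompact ℂ ∧ τ₀ = 0) ∨
    (∃ p ∈ UH, (F : Filter ℂ) ≤ 𝓝 p ∧ T p = τ₀) ∨
    ∃ x : ℝ, (F : Filter ℂ) ≤ 𝓝[UH] (x : ℂ) ∧ Tendsto T (𝓝[UH] (x : ℂ)) (𝓝 τ₀) ∧
      ((x < v₁ ∧ τ₀ ∈ Vert 0) ∨
       (v₁ < x ∧ x < v₂ ∧ τ₀.re = -1 ∧ η ≤ τ₀.im ∧ (τ₀.im = η → x = vc)) ∨
       (v₂ < x ∧ x < -1 ∧ τ₀ ∈ Vert (-2)) ∨
       (x = -1 ∧ τ₀ = -2) ∨
       (-1 < x ∧ x < 1 ∧ τ₀.im = 0 ∧ -2 < τ₀.re ∧ τ₀.re < -1) ∨
       (x = 1 ∧ τ₀ = -1) ∨
       (1 < x ∧ τ₀ ∈ Sig)) := by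
  rcases pd_cases hF with h1 | ⟨p, hp, h1⟩ | ⟨x, hx⟩
  · left
    exact ⟨h1.trans inf_le_left, tendsto_nhds_unique h ((model_infty hT).mono_left h1)⟩
  · right; left
    exact ⟨p, hp, h1, tendsto_nhds_unique ((pd_cont hT hp).tendsto.mono_left h1) h⟩
  · right; right
    have key : ∀ τ₁ : ℂ, Tendsto T (𝓝[UH] (x : ℂ)) (𝓝 τ₁) →
        τ₁ = τ₀ ∧ Tendsto T (𝓝[UH] (x : ℂ)) (𝓝 τ₀) := by
      intro τ₁ h1
      have h2 : τ₁ = τ₀ := tendsto_nhds_unique (h1.mono_left hx) h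
      exact ⟨h2, h2 ▸ h1⟩
    refine ⟨x, hx, ?_⟩
    rcases lt_trichotomy x v₁ with a1 | a1 | a1
    · obtain ⟨τ₁, hv, ht⟩ := model_side0 hT a1
      obtain ⟨e, ht'⟩ := key τ₁ ht
      exact ⟨ht', Or.inl ⟨a1, e ▸ hv⟩⟩
    · exfalso
      subst a1
      exact pd_im h ((model_cusp1 hT).mono_left hx)
    rcases lt_trichotomy x v₂ with a2 | a2 | a2
    · obtain ⟨t, h1, h2, ht⟩ := model_slit hT a1 a2
      obtain ⟨e, ht'⟩ := key _ ht
      refine ⟨ht', Or.inr (Or.inl ⟨a1, a2, ?_, ?_, ?_⟩)⟩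
      · rw [← e]; simp
      · rw [← e]; simpa using h1
      · rw [← e]; simpa using h2
    · exfalso
      subst a2
      exact pd_im h ((model_cusp2 hT).mono_left hx)
    rcases lt_trichotomy x (-1) with a3 | a3 | a3
    · obtain ⟨τ₁, hv, ht⟩ := model_side2 hT a2 a3
      obtain ⟨e, ht'⟩ := key τ₁ ht
      exact ⟨ht', Or.inr (Or.inr (Or.inl ⟨a2, a3, e ▸ hv⟩))⟩
    · have ht : Tendsto T (𝓝[UH] (x : ℂ)) (𝓝 (-2)) := by
        rw [a3]
        push_cast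
        exact model_negOne hT
      obtain ⟨e, ht'⟩ := key _ ht
      exact ⟨ht', Or.inr (Or.inr (Or.inr (Or.inl ⟨a3, e.symm⟩)))⟩
    rcases lt_trichotomy x 1 with a4 | a4 | a4
    · obtain ⟨s, h1, h2, ht⟩ := model_free hT a3 a4
      obtain ⟨e, ht'⟩ := key _ ht
      refine ⟨ht', Or.inr (Or.inr (Or.inr (Or.inr (Or.inl ⟨a3, a4, ?_, ?_, ?_⟩))))⟩
      · rw [← e]; simp
      · rw [← e]; simpa using h1
      · rw [← e]; simpa using h2
    · have ht : Tendsto T (𝓝[UH] (x : ℂ)) (𝓝 (-1)) := by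
        rw [a4]
        push_cast
        exact model_posOne hT
      obtain ⟨e, ht'⟩ := key _ ht
      exact ⟨ht', Or.inr (Or.inr (Or.inr (Or.inr (Or.inr (Or.inl ⟨a4, e.symm⟩)))))⟩
    · obtain ⟨τ₁, hv, ht⟩ := model_arc hT a4
      obtain ⟨e, ht'⟩ := key τ₁ ht
      exact ⟨ht', Or.inr (Or.inr (Or.inr (Or.inr (Or.inr (Or.inr ⟨a4, e ▸ hv⟩)))))⟩

theorem cluster_top (hT : Model2 η T v₁ v₂ vc) {F : Ultrafilter ℂ} (hF : UH ∈ F)
    (h : Tendsto (fun v => (T v).im) F atTop) :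
    (F : Filter ℂ) ≤ 𝓝[UH] (v₁ : ℂ) ∨ (F : Filter ℂ) ≤ 𝓝[UH] (v₂ : ℂ) := by
  rcases pd_cases hF with h1 | ⟨p, hp, h1⟩ | ⟨x, hx⟩
  · exact (pd_im ((model_infty hT).mono_left h1) h).elim
  · exact (pd_im ((pd_cont hT hp).tendsto.mono_left h1) h).elim
  · rcases lt_trichotomy x v₁ with a1 | a1 | a1
    · obtain ⟨τ₁, -, ht⟩ := model_side0 hT a1
      exact (pd_im (ht.mono_left hx) h).elim
    · left
      rw [← a1]
      exact hx
    rcases lt_trichotomy x v₂ with a2 | a2 | a2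
    · obtain ⟨t, -, -, ht⟩ := model_slit hT a1 a2
      exact (pd_im (ht.mono_left hx) h).elim
    · right
      rw [← a2]
      exact hx
    rcases lt_trichotomy x (-1) with a3 | a3 | a3
    · obtain ⟨τ₁, -, ht⟩ := model_side2 hT a2 a3
      exact (pd_im (ht.mono_left hx) h).elim
    · have ht : Tendsto T (𝓝[UH] (x : ℂ)) (𝓝 (-2)) := by
        rw [a3]
        push_cast
        exact model_negOne hT
      exact (pd_im (ht.mono_left hx) h).elim
    rcases lt_trichotomy x 1 with a4 | a4 | a4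
    · obtain ⟨s, -, -, ht⟩ := model_free hT a3 a4
      exact (pd_im (ht.mono_left hx) h).elim
    · have ht : Tendsto T (𝓝[UH] (x : ℂ)) (𝓝 (-1)) := by
        rw [a4]
        push_cast
        exact model_posOne hT
      exact (pd_im (ht.mono_left hx) h).elim
    · obtain ⟨τ₁, -, ht⟩ := model_arc hT a4
      exact (pd_im (ht.mono_left hx) h).elim

end Pool.Agent.Choc
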