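import Pool.Agent.Lib.MP_2b3e36_an.Re.PB0

/-!
PE. The region `Wd η` and the inverse `sinv T` of a model.

`wd_open`: `{re = -1 ∧ η ≤ im}` is closed. `wd_mono`: clear. `wd_frontier`: a point of the closure has
`0 ≤ im`, `-2 ≤ re ≤ 0`, `1/2 ≤ ‖τ + 1/2‖`; being outside the open set `Wd η`, one of the strict conditions
fails; if `im = 0` then `‖τ + 1/2‖ ≥ 1/2` gives `re ≤ -1` or `re = 0`. `wd_zero`: the points
`-ε^2 + I ε`, `ε → 0+`, are in `Wd η` (`‖τ + 1/2‖^2 = 1/4 + ε^4`). `sinv`: `Function.invFunOn`; `T` is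
injective on `UH` with image `Wd η`. Holomorphic: `T` has a nonvanishing derivative (strictly
differentiable) at `p = sinv T τ`, `HasStrictDerivAt.to_localInverse`/open mapping: the local inverse at
`τ` takes values in `UH` near `p`, so it agrees with `sinv T` near `τ`.
-/

set_option autoImplicit false

open Complex Set Filter Topology Metric

namespace Pool.Agent.Choc

variable {η : ℝ} {T : ℂ → ℂ} {v₁ v₂ vc : ℝ}

theorem pe_half {τ : ℂ} (h : 1 / 2 ≤ ‖τ + 1 / 2‖) : 0 ≤ τ.re ^ 2 + τ.re + τ.im ^ 2 := by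
  have h1 : ‖τ + 1 / 2‖ ^ 2 = (τ.re + 1 / 2) ^ 2 + τ.im ^ 2 := by
    rw [← Complex.normSq_eq_norm_sq, Complex.normSq_apply]
    simp
    ring
  nlinarith

theorem wd_open (η : ℝ) : IsOpen (Wd η) := by
  have h1 : IsOpen {τ : ℂ | 0 < τ.im} := isOpen_lt continuous_const continuous_im
  have h2 : IsOpen {τ : ℂ | -2 < τ.re} := isOpen_lt continuous_const continuous_re
  have h3 : IsOpen {τ : ℂ | τ.re < 0} := isOpen_lt continuous_re continuous_const
  have h4 : IsOpen {τ : ℂ | 1 / 2 < ‖τ + 1 / 2‖} :=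
    isOpen_lt continuous_const (continuous_id.add continuous_const).norm
  have h5 : IsOpen {τ : ℂ | ¬(τ.re = -1 ∧ η ≤ τ.im)} := by
    have h6 : IsClosed ({τ : ℂ | τ.re = -1} ∩ {τ : ℂ | η ≤ τ.im}) :=
      (isClosed_eq continuous_re continuous_const).inter
        (isClosed_le continuous_const continuous_im)
    exact h6.isOpen_compl
  exact h1.inter (h2.inter (h3.inter (h4.inter h5)))

theorem wd_subset (η : ℝ) : Wd η ⊆ UH := fun _ h => h.1

theorem wd_mono {η η' : ℝ} (h : η ≤ η') : Wd η ⊆ Wd η' := fun _ ht =>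
  ⟨ht.1, ht.2.1, ht.2.2.1, ht.2.2.2.1, fun hc => ht.2.2.2.2 ⟨hc.1, h.trans hc.2⟩⟩

theorem wd_frontier {η : ℝ} {τ₀ : ℂ} (h : τ₀ ∈ frontier (Wd η)) :
    τ₀ ∈ Vert 0 ∨ (τ₀.re = -1 ∧ 0 < τ₀.im ∧ η ≤ τ₀.im) ∨ τ₀ ∈ Vert (-2) ∨
      (τ₀.im = 0 ∧ -2 < τ₀.re ∧ τ₀.re < -1) ∨ τ₀ ∈ Sig ∨ τ₀ = 0 ∨ τ₀ = -1 ∨ τ₀ = -2 := by
  rw [(wd_open η).frontier_eq] at h
  obtain ⟨hc, hn⟩ := h
  have k1 : 0 ≤ τ₀.im := closure_minimal (s := Wd η) (t := {τ : ℂ | 0 ≤ τ.im})
    (fun τ h => le_of_lt h.1) (isClosed_le continuous_const continuous_im) hc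
  have k2 : -2 ≤ τ₀.re := closure_minimal (s := Wd η) (t := {τ : ℂ | -2 ≤ τ.re})
    (fun τ h => le_of_lt h.2.1) (isClosed_le continuous_const continuous_re) hc
  have k3 : τ₀.re ≤ 0 := closure_minimal (s := Wd η) (t := {τ : ℂ | τ.re ≤ 0})
    (fun τ h => le_of_lt h.2.2.1) (isClosed_le continuous_re continuous_const) hc
  have k4 : 1 / 2 ≤ ‖τ₀ + 1 / 2‖ := closure_minimal (s := Wd η) (t := {τ : ℂ | 1 / 2 ≤ ‖τ + 1 / 2‖})
    (fun τ h => le_of_lt h.2.2.2.1)
    (isClosed_le continuous_const (continuous_id.add continuous_const).norm) hc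
  have k5 := pe_half k4
  rcases k1.eq_or_lt with h0 | h0
  · rw [← h0] at k5
    rcases le_or_gt τ₀.re (-1) with h1 | h1
    · rcases k2.eq_or_lt with h2 | h2
      · have : τ₀ = -2 := by
          apply Complex.ext
          · simp [← h2]
          · simp [← h0]
        tauto
      · rcases h1.eq_or_lt with h3 | h3
        · have : τ₀ = -1 := by
            apply Complex.ext
            · simp [h3]
            · simp [← h0]
          tauto
        · exact Or.inr (Or.inr (Or.inr (Or.inl ⟨h0.symm, h2, h3⟩)))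
    · have h2 : τ₀.re = 0 := by
        by_contra hne
        have h3 : τ₀.re < 0 := lt_of_le_of_ne k3 hne
        nlinarith
      have : τ₀ = 0 := by
        apply Complex.ext
        · simp [h2]
        · simp [← h0]
      tauto
  · rcases k3.eq_or_lt with h1 | h1
    · exact Or.inl ⟨h1, h0⟩
    rcases k2.eq_or_lt with h2 | h2
    · exact Or.inr (Or.inr (Or.inl ⟨h2.symm, h0⟩))
    rcases k4.eq_or_lt with h3 | h3
    · exact Or.inr (Or.inr (Or.inr (Or.inr (Or.inl ⟨h0, h3.symm⟩))))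
    refine Or.inr (Or.inl ?_)
    by_contra h4
    exact hn ⟨h0, h2, h1, h3, fun h5 => h4 ⟨h5.1, h0, h5.2⟩⟩

theorem wd_zero {η : ℝ} : (𝓝[Wd η] (0 : ℂ)).NeBot := by
  rw [← mem_closure_iff_nhdsWithin_neBot, Metric.mem_closure_iff]
  intro ε hε
  obtain ⟨t, ht0, ht1, ht2⟩ : ∃ t : ℝ, 0 < t ∧ t ≤ 1 / 2 ∧ 2 * t < ε := by
    refine ⟨min (1 / 2) (ε / 4), lt_min (by norm_num) (by linarith), min_le_left _ _, ?_⟩
    have := min_le_right (1 / 2 : ℝ) (ε / 4)
    linarith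
  obtain ⟨z, hz⟩ : ∃ z : ℂ, z = ⟨-t ^ 2, t⟩ := ⟨_, rfl⟩
  have hre : z.re = -t ^ 2 := by rw [hz]
  have him : z.im = t := by rw [hz]
  refine ⟨z, ⟨by rw [him]; exact ht0, by rw [hre]; nlinarith, by rw [hre]; nlinarith, ?_, ?_⟩, ?_⟩
  · have h1 : ‖z + 1 / 2‖ ^ 2 = 1 / 4 + t ^ 4 := by
      rw [← Complex.normSq_eq_norm_sq, Complex.normSq_apply]
      simp [hre, him]
      ring
    have h2 : 0 < t ^ 4 := by positivity
    by_contra hc
    push Not at hc
    have h3 : ‖z + 1 / 2‖ ^ 2 ≤ (1 / 2) ^ 2 := pow_le_pow_left₀ (norm_nonneg _) hc 2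
    linarith
  · rintro ⟨h1, -⟩
    rw [hre] at h1
    nlinarith
  · rw [dist_eq_norm, zero_sub, norm_neg]
    have h1 : ‖z‖ ≤ |z.re| + |z.im| := Complex.norm_le_abs_re_add_abs_im z
    rw [hre, him, abs_of_pos ht0, abs_neg, abs_of_nonneg (sq_nonneg t)] at h1
    nlinarith

theorem sinv_mem (hT : Model2 η T v₁ v₂ vc) {τ : ℂ} (h : τ ∈ Wd η) : sinv T τ ∈ UH := by
  rw [← hT.img] at h
  exact Function.invFunOn_mem h

theorem model_sinv (hT : Model2 η T v₁ v₂ vc) {τ : ℂ} (h : τ ∈ Wd η) : T (sinv T τ) = τ := by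
  rw [← hT.img] at h
  exact Function.invFunOn_eq h

theorem sinv_model (hT : Model2 η T v₁ v₂ vc) {v : ℂ} (h : v ∈ UH) : sinv T (T v) = v :=
  hT.inj.leftInvOn_invFunOn h

theorem sinv_diff (hT : Model2 η T v₁ v₂ vc) : DifferentiableOn ℂ (sinv T) (Wd η) := by
  intro τ hτ
  have ho : IsOpen UH := isOpen_lt continuous_const continuous_im
  have hp := sinv_mem hT hτ
  have h1 : AnalyticAt ℂ T (sinv T τ) := hT.diff.analyticAt (ho.mem_nhds hp)
  have h2 : HasStrictDerivAt T (deriv T (sinv T τ)) (sinv T τ) := h1.hasStrictDerivAt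
  have h3 := h2.to_local_left_inverse (hT.deriv_ne _ hp) (g := sinv T) (by
    filter_upwards [ho.mem_nhds hp] with v hv
    exact sinv_model hT hv)
  rw [model_sinv hT hτ] at h3
  exact h3.hasDerivAt.differentiableAt.differentiableWithinAt

end Pool.Agent.Choc
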