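import Pool.Agent.Lib.MP_2b3e36_an.Re.PD
import Pool.Agent.Lib.MP_2b3e36_an.Re.PE
import Pool.Agent.Lib.MP_2b3e36_an.Re.PB1

/-!
PF1. The functions `ang p (sinv T τ)` on `Wd η` and their boundary values.

Proof. Harmonic: composition of `ang p` (harmonic on `UH`) with the holomorphic `sinv T` (see `m1_comp`, Ex/M1).
Boundary values: `Tendsto f (𝓝[Wd η] τ₀) (𝓝 c)` iff for every ultrafilter `g ≤ 𝓝[Wd η] τ₀` `f` tends to `c`
along `g` (`tendsto_iff_ultrafilter`). Let `F = g.map (sinv T)`: `UH ∈ F`, and `T → τ₀` along `F` since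
`T ∘ sinv T = id` on `Wd η`. `cluster` (PD) gives the position of the limit of `F`: the first alternative needs
`τ₀ = 0`, the second `τ₀ ∈ Wd η`, and the other ones fix the side of `x`. Then `ang_right`, `ang_left`.
The hypotheses below exclude all the other alternatives: e.g. for `τ₀ ∈ Vert 0` (`re = 0`, `im > 0`) the point
is not in `Wd η` (`re < 0`), not `0`, not on the slit (`re = -1`), ..., not in `Sig`
(`re = 0` and `‖τ₀ + 1/2‖ = 1/2` give `im = 0`).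
`bv_zero`: `F ≤ cocompact ℂ`. `bv_tip`: `τ₀ = -1 + η I`: `x = vc`.
-/

set_option autoImplicit false

open Complex Set Filter Topology Metric

namespace Pool.Agent.Choc

variable {η : ℝ} {T : ℂ → ℂ} {v₁ v₂ vc : ℝ}

theorem pf1_comp {h : ℂ → ℝ} {g : ℂ → ℂ} {z : ℂ} (hh : InnerProductSpace.HarmonicAt h (g z))
    (hg : AnalyticAt ℂ g z) : InnerProductSpace.HarmonicAt (fun w => h (g w)) z := by
  obtain ⟨R, hR, hball⟩ := Metric.eventually_nhds_iff_ball.1 hh.eventually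
  obtain ⟨F, hF1, hF2⟩ :=
    InnerProductSpace.HarmonicOnNhd.exists_analyticOnNhd_ball_re_eq (f := h) (z := g z) (R := R)
      (fun x hx => hball x hx)
  have h1 : AnalyticAt ℂ (fun w => F (g w)) z :=
    (hF1 (g z) (mem_ball_self hR)).fun_comp hg
  have h2 := h1.harmonicAt_re
  have h3 : ∀ᶠ w in 𝓝 z, g w ∈ ball (g z) R :=
    hg.continuousAt.eventually (ball_mem_nhds (g z) hR)
  refine (InnerProductSpace.harmonicAt_congr_nhds ?_).1 h2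
  filter_upwards [h3] with w hw
  exact hF2 hw

theorem pf1_key (hT : Model2 η T v₁ v₂ vc) {τ₀ : ℂ} {α : Type*} {f : ℂ → α} {l : Filter α}
    (H : ∀ F : Ultrafilter ℂ, UH ∈ F → Tendsto T F (𝓝 τ₀) → Tendsto f F l) :
    Tendsto (fun τ => f (sinv T τ)) (𝓝[Wd η] τ₀) l := by
  rw [tendsto_iff_ultrafilter]
  intro g hg
  have hW : Wd η ∈ g := hg self_mem_nhdsWithin
  have h1 : UH ∈ g.map (sinv T) := by
    rw [Ultrafilter.mem_map]
    exact Filter.mem_of_superset hW (fun τ hτ => sinv_mem hT hτ)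
  have h2 : Tendsto T (g.map (sinv T) : Ultrafilter ℂ) (𝓝 τ₀) := by
    rw [Ultrafilter.coe_map, tendsto_map'_iff]
    refine Tendsto.congr' ?_ (tendsto_id.mono_left (hg.trans nhdsWithin_le_nhds))
    filter_upwards [hW] with τ hτ using (model_sinv hT hτ).symm
  have h3 := H _ h1 h2
  rwa [Ultrafilter.coe_map, tendsto_map'_iff] at h3

theorem pf1_sig {τ₀ : ℂ} (h : τ₀ ∈ Sig) : 0 < τ₀.im ∧ -1 < τ₀.re ∧ τ₀.re < 0 := by
  obtain ⟨h1, h2⟩ := h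
  have h3 : ‖τ₀ + 1 / 2‖ ^ 2 = 1 / 4 := by rw [h2]; norm_num
  rw [← Complex.normSq_eq_norm_sq, Complex.normSq_apply] at h3
  have h4 : (τ₀ + 1 / 2).re = τ₀.re + 1 / 2 := by simp
  have h5 : (τ₀ + 1 / 2).im = τ₀.im := by simp
  rw [h4, h5] at h3
  refine ⟨h1, ?_, ?_⟩ <;> nlinarith [mul_pos h1 h1]

theorem pf1_third (hT : Model2 η T v₁ v₂ vc) {τ₀ : ℂ} (h1 : τ₀ ∉ Wd η) (h0 : τ₀ ≠ 0)
    {F : Ultrafilter ℂ} (hF : UH ∈ F) (h : Tendsto T F (𝓝 τ₀)) :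
    ∃ x : ℝ, (F : Filter ℂ) ≤ 𝓝[UH] (x : ℂ) ∧
      ((x < v₁ ∧ τ₀.re = 0 ∧ 0 < τ₀.im) ∨
       (v₁ < x ∧ x < v₂ ∧ τ₀.re = -1 ∧ η ≤ τ₀.im ∧ (τ₀.im = η → x = vc)) ∨
       (v₂ < x ∧ x < -1 ∧ τ₀.re = -2 ∧ 0 < τ₀.im) ∨
       (x = -1 ∧ τ₀.re = -2 ∧ τ₀.im = 0) ∨
       (-1 < x ∧ x < 1 ∧ τ₀.im = 0 ∧ -2 < τ₀.re ∧ τ₀.re < -1) ∨
       (x = 1 ∧ τ₀.re = -1 ∧ τ₀.im = 0) ∨
       (1 < x ∧ 0 < τ₀.im ∧ -1 < τ₀.re ∧ τ₀.re < 0)) := by
  rcases cluster hT hF h with h2 | ⟨p, hp, -, hp2⟩ | ⟨x, hx, -, h2⟩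
  · exact absurd h2.2 h0
  · refine absurd ?_ h1
    rw [← hT.img]
    exact ⟨p, hp, hp2⟩
  · refine ⟨x, hx, ?_⟩
    rcases h2 with h2 | h2 | h2 | h2 | h2 | h2 | h2
    · exact Or.inl ⟨h2.1, h2.2.1, h2.2.2⟩
    · exact Or.inr (Or.inl h2)
    · exact Or.inr (Or.inr (Or.inl ⟨h2.1, h2.2.1, h2.2.2.1, h2.2.2.2⟩))
    · refine Or.inr (Or.inr (Or.inr (Or.inl ⟨h2.1, ?_, ?_⟩)))
      · rw [h2.2]; simp
      · rw [h2.2]; simp
    · exact Or.inr (Or.inr (Or.inr (Or.inr (Or.inl h2))))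
    · refine Or.inr (Or.inr (Or.inr (Or.inr (Or.inr (Or.inl ⟨h2.1, ?_, ?_⟩)))))
      · rw [h2.2]; simp
      · rw [h2.2]; simp
    · exact Or.inr (Or.inr (Or.inr (Or.inr (Or.inr (Or.inr ⟨h2.1, pf1_sig h2.2⟩)))))

theorem bv_harm (hT : Model2 η T v₁ v₂ vc) (p : ℝ) :
    InnerProductSpace.HarmonicOnNhd (fun τ => ang p (sinv T τ)) (Wd η) := by
  intro τ hτ
  exact pf1_comp (ang_harm p _ (sinv_mem hT hτ))
    ((sinv_diff hT).analyticAt ((wd_open η).mem_nhds hτ))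

theorem bv_vert0 (hT : Model2 η T v₁ v₂ vc) {p : ℝ} (hp : v₁ ≤ p) {τ₀ : ℂ} (h : τ₀ ∈ Vert 0) :
    Tendsto (fun τ => ang p (sinv T τ)) (𝓝[Wd η] τ₀) (𝓝 Real.pi) := by
  obtain ⟨h1, h2⟩ := h
  refine pf1_key hT fun F hF hF2 => ?_
  have hW : τ₀ ∉ Wd η := fun hh => by have := hh.2.2.1; linarith
  have h0 : τ₀ ≠ 0 := fun hh => by rw [hh] at h2; simp at h2
  obtain ⟨x, hx, hc⟩ := pf1_third hT hW h0 hF hF2
  rcases hc with hc | hc | hc | hc | hc | hc | hc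
  · exact (ang_left (lt_of_lt_of_le hc.1 hp)).mono_left hx
  all_goals (exfalso; obtain ⟨a1, a2⟩ := hc)
  · linarith [a2.2.1]
  · linarith [a2.2.1]
  · linarith [a2.1]
  · linarith [a2.2.1]
  · linarith [a2.1]
  · linarith [a2.2.2]

theorem bv_slit0 (hT : Model2 η T v₁ v₂ vc) {p : ℝ} (hp : p ≤ v₁) {τ₀ : ℂ} (h : τ₀.re = -1)
    (h' : η ≤ τ₀.im) : Tendsto (fun τ => ang p (sinv T τ)) (𝓝[Wd η] τ₀) (𝓝 0) := by
  have he := hT.eta_pos
  refine pf1_key hT fun F hF hF2 => ?_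
  have hW : τ₀ ∉ Wd η := fun hh => hh.2.2.2.2 ⟨h, h'⟩
  have h0 : τ₀ ≠ 0 := fun hh => by rw [hh] at h; simp at h
  obtain ⟨x, hx, hc⟩ := pf1_third hT hW h0 hF hF2
  rcases hc with hc | hc | hc | hc | hc | hc | hc
  · exfalso; linarith [hc.2.1]
  · exact (ang_right (lt_of_le_of_lt hp hc.1)).mono_left hx
  · exfalso; linarith [hc.2.2.1]
  · exfalso; linarith [hc.2.1]
  · exfalso; linarith [hc.2.2.1]
  · exfalso; linarith [hc.2.2]
  · exfalso; linarith [hc.2.2.1]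

theorem bv_slit1 (hT : Model2 η T v₁ v₂ vc) {p : ℝ} (hp : v₂ ≤ p) {τ₀ : ℂ} (h : τ₀.re = -1)
    (h' : η ≤ τ₀.im) : Tendsto (fun τ => ang p (sinv T τ)) (𝓝[Wd η] τ₀) (𝓝 Real.pi) := by
  have he := hT.eta_pos
  refine pf1_key hT fun F hF hF2 => ?_
  have hW : τ₀ ∉ Wd η := fun hh => hh.2.2.2.2 ⟨h, h'⟩
  have h0 : τ₀ ≠ 0 := fun hh => by rw [hh] at h; simp at h
  obtain ⟨x, hx, hc⟩ := pf1_third hT hW h0 hF hF2
  rcases hc with hc | hc | hc | hc | hc | hc | hc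
  · exfalso; linarith [hc.2.1]
  · exact (ang_left (lt_of_lt_of_le hc.2.1 hp)).mono_left hx
  · exfalso; linarith [hc.2.2.1]
  · exfalso; linarith [hc.2.1]
  · exfalso; linarith [hc.2.2.1]
  · exfalso; linarith [hc.2.2]
  · exfalso; linarith [hc.2.2.1]

theorem bv_vert2_0 (hT : Model2 η T v₁ v₂ vc) {p : ℝ} (hp : p ≤ v₂) {τ₀ : ℂ} (h : τ₀ ∈ Vert (-2)) :
    Tendsto (fun τ => ang p (sinv T τ)) (𝓝[Wd η] τ₀) (𝓝 0) := by
  obtain ⟨h1, h2⟩ := h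
  refine pf1_key hT fun F hF hF2 => ?_
  have hW : τ₀ ∉ Wd η := fun hh => by have := hh.2.1; linarith
  have h0 : τ₀ ≠ 0 := fun hh => by rw [hh] at h2; simp at h2
  obtain ⟨x, hx, hc⟩ := pf1_third hT hW h0 hF hF2
  rcases hc with hc | hc | hc | hc | hc | hc | hc
  · exfalso; linarith [hc.2.1]
  · exfalso; linarith [hc.2.2.1]
  · exact (ang_right (lt_of_le_of_lt hp hc.1)).mono_left hx
  · exfalso; linarith [hc.2.2]
  · exfalso; linarith [hc.2.2.1]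
  · exfalso; linarith [hc.2.2]
  · exfalso; linarith [hc.2.2.1]

theorem bv_vert2_1 (hT : Model2 η T v₁ v₂ vc) {p : ℝ} (hp : -1 ≤ p) {τ₀ : ℂ} (h : τ₀ ∈ Vert (-2)) :
    Tendsto (fun τ => ang p (sinv T τ)) (𝓝[Wd η] τ₀) (𝓝 Real.pi) := by
  obtain ⟨h1, h2⟩ := h
  refine pf1_key hT fun F hF hF2 => ?_
  have hW : τ₀ ∉ Wd η := fun hh => by have := hh.2.1; linarith
  have h0 : τ₀ ≠ 0 := fun hh => by rw [hh] at h2; simp at h2
  obtain ⟨x, hx, hc⟩ := pf1_third hT hW h0 hF hF2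
  rcases hc with hc | hc | hc | hc | hc | hc | hc
  · exfalso; linarith [hc.2.1]
  · exfalso; linarith [hc.2.2.1]
  · exact (ang_left (lt_of_lt_of_le hc.2.1 hp)).mono_left hx
  · exfalso; linarith [hc.2.2]
  · exfalso; linarith [hc.2.2.1]
  · exfalso; linarith [hc.2.2]
  · exfalso; linarith [hc.2.2.1]

theorem bv_free0 (hT : Model2 η T v₁ v₂ vc) {p : ℝ} (hp : p ≤ -1) {τ₀ : ℂ} (h : τ₀.im = 0)
    (h1 : -2 < τ₀.re) (h2 : τ₀.re < -1) :
    Tendsto (fun τ => ang p (sinv T τ)) (𝓝[Wd η] τ₀) (𝓝 0) := by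
  refine pf1_key hT fun F hF hF2 => ?_
  have hW : τ₀ ∉ Wd η := fun hh => by have := hh.1; linarith
  have h0 : τ₀ ≠ 0 := fun hh => by rw [hh] at h2; norm_num at h2
  obtain ⟨x, hx, hc⟩ := pf1_third hT hW h0 hF hF2
  rcases hc with hc | hc | hc | hc | hc | hc | hc
  · exfalso; linarith [hc.2.2]
  · exfalso; linarith [hc.2.2.1]
  · exfalso; linarith [hc.2.2.1]
  · exfalso; linarith [hc.2.1]
  · exact (ang_right (lt_of_le_of_lt hp hc.1)).mono_left hx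
  · exfalso; linarith [hc.2.1]
  · exfalso; linarith [hc.2.1]

theorem bv_free1 (hT : Model2 η T v₁ v₂ vc) {p : ℝ} (hp : 1 ≤ p) {τ₀ : ℂ} (h : τ₀.im = 0)
    (h1 : -2 < τ₀.re) (h2 : τ₀.re < -1) :
    Tendsto (fun τ => ang p (sinv T τ)) (𝓝[Wd η] τ₀) (𝓝 Real.pi) := by
  refine pf1_key hT fun F hF hF2 => ?_
  have hW : τ₀ ∉ Wd η := fun hh => by have := hh.1; linarith
  have h0 : τ₀ ≠ 0 := fun hh => by rw [hh] at h2; norm_num at h2
  obtain ⟨x, hx, hc⟩ := pf1_third hT hW h0 hF hF2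
  rcases hc with hc | hc | hc | hc | hc | hc | hc
  · exfalso; linarith [hc.2.2]
  · exfalso; linarith [hc.2.2.1]
  · exfalso; linarith [hc.2.2.1]
  · exfalso; linarith [hc.2.1]
  · exact (ang_left (lt_of_lt_of_le hc.2.1 hp)).mono_left hx
  · exfalso; linarith [hc.2.1]
  · exfalso; linarith [hc.2.1]

theorem bv_arc (hT : Model2 η T v₁ v₂ vc) {p : ℝ} (hp : p ≤ 1) {τ₀ : ℂ} (h : τ₀ ∈ Sig) :
    Tendsto (fun τ => ang p (sinv T τ)) (𝓝[Wd η] τ₀) (𝓝 0) := by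
  obtain ⟨h1, h2, h3⟩ := pf1_sig h
  refine pf1_key hT fun F hF hF2 => ?_
  have hW : τ₀ ∉ Wd η := fun hh => by have := hh.2.2.2.1; rw [h.2] at this; linarith
  have h0 : τ₀ ≠ 0 := fun hh => by rw [hh] at h3; simp at h3
  obtain ⟨x, hx, hc⟩ := pf1_third hT hW h0 hF hF2
  rcases hc with hc | hc | hc | hc | hc | hc | hc
  · exfalso; linarith [hc.2.1]
  · exfalso; linarith [hc.2.2.1]
  · exfalso; linarith [hc.2.2.1]
  · exfalso; linarith [hc.2.2]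
  · exfalso; linarith [hc.2.2.1]
  · exfalso; linarith [hc.2.2]
  · exact (ang_right (lt_of_le_of_lt hp hc.1)).mono_left hx

theorem bv_zero (hT : Model2 η T v₁ v₂ vc) :
    Tendsto (sinv T) (𝓝[Wd η] (0 : ℂ)) (cocompact ℂ ⊓ 𝓟 UH) := by
  have he := hT.eta_pos
  refine pf1_key (f := fun w => w) hT fun F hF hF2 => ?_
  rcases cluster hT hF hF2 with h2 | ⟨p, hp, -, hp2⟩ | ⟨x, hx, -, h2⟩
  · refine le_inf h2.1 ?_
    simpa using hF
  · exfalso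
    have h3 : (0 : ℂ) ∈ Wd η := by
      rw [← hT.img]
      exact ⟨p, hp, hp2⟩
    exact lt_irrefl _ h3.1
  · exfalso
    rcases h2 with h2 | h2 | h2 | h2 | h2 | h2 | h2
    · exact lt_irrefl _ h2.2.2
    · have := h2.2.2.1
      norm_num at this
    · exact lt_irrefl _ h2.2.2.2
    · have := h2.2
      norm_num at this
    · have := h2.2.2.2.2
      norm_num at this
    · have := h2.2
      norm_num at this
    · exact lt_irrefl _ h2.2.1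

theorem bv_negTwo (hT : Model2 η T v₁ v₂ vc) :
    Tendsto (sinv T) (𝓝[Wd η] (-2 : ℂ)) (𝓝[UH] (-1 : ℂ)) := by
  have e1 : (-2 : ℂ).re = -2 := by simp
  have e2 : (-2 : ℂ).im = 0 := by simp
  refine pf1_key (f := fun w => w) hT fun F hF hF2 => ?_
  have hW : (-2 : ℂ) ∉ Wd η := fun hh => by have := hh.1; linarith
  obtain ⟨x, hx, hc⟩ := pf1_third hT hW (by norm_num) hF hF2
  rw [e1, e2] at hc
  rcases hc with hc | hc | hc | hc | hc | hc | hc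
  · exfalso; linarith [hc.2.1]
  · exfalso; linarith [hc.2.2.1]
  · exfalso; linarith [hc.2.2.2]
  · rw [hc.1] at hx
    have hx' : (F : Filter ℂ) ≤ 𝓝[UH] (-1 : ℂ) := by simpa using hx
    exact hx'
  · exfalso; linarith [hc.2.2.2.1]
  · exfalso; linarith [hc.2.1]
  · exfalso; linarith [hc.2.1]

theorem bv_negOne (hT : Model2 η T v₁ v₂ vc) :
    Tendsto (sinv T) (𝓝[Wd η] (-1 : ℂ)) (𝓝[UH] (1 : ℂ)) := by
  have e1 : (-1 : ℂ).re = -1 := by simp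
  have e2 : (-1 : ℂ).im = 0 := by simp
  have he := hT.eta_pos
  refine pf1_key (f := fun w => w) hT fun F hF hF2 => ?_
  have hW : (-1 : ℂ) ∉ Wd η := fun hh => by have := hh.1; linarith
  obtain ⟨x, hx, hc⟩ := pf1_third hT hW (by norm_num) hF hF2
  rw [e1, e2] at hc
  rcases hc with hc | hc | hc | hc | hc | hc | hc
  · exfalso; linarith [hc.2.1]
  · exfalso; linarith [hc.2.2.2.1]
  · exfalso; linarith [hc.2.2.2]
  · exfalso; linarith [hc.2.1]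
  · exfalso; linarith [hc.2.2.2.2]
  · rw [hc.1] at hx
    have hx' : (F : Filter ℂ) ≤ 𝓝[UH] (1 : ℂ) := by simpa using hx
    exact hx'
  · exfalso; linarith [hc.2.1]

theorem bv_tip (hT : Model2 η T v₁ v₂ vc) :
    Tendsto (sinv T) (𝓝[Wd η] (-1 + η * I : ℂ)) (𝓝[UH] (vc : ℂ)) := by
  have e1 : (-1 + η * I : ℂ).re = -1 := by simp
  have e2 : (-1 + η * I : ℂ).im = η := by simp
  have he := hT.eta_pos
  refine pf1_key (f := fun w => w) hT fun F hF hF2 => ?_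
  have hW : (-1 + η * I : ℂ) ∉ Wd η := fun hh => hh.2.2.2.2 ⟨e1, e2.ge⟩
  have h0 : (-1 + η * I : ℂ) ≠ 0 := fun hh => by rw [hh] at e1; simp at e1
  obtain ⟨x, hx, hc⟩ := pf1_third hT hW h0 hF hF2
  rw [e1, e2] at hc
  rcases hc with hc | hc | hc | hc | hc | hc | hc
  · exfalso; linarith [hc.2.1]
  · rw [hc.2.2.2.2 rfl] at hx
    exact hx
  · exfalso; linarith [hc.2.2.1]
  · exfalso; linarith [hc.2.1]
  · exfalso; linarith [hc.2.2.1]
  · exfalso; linarith [hc.2.2]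
  · exfalso; linarith [hc.2.2.1]

end Pool.Agent.Choc
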