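import Pool.Agent.Lib.MP_2b3e36_an.Re.PF1
import Pool.Agent.Lib.MP_2b3e36_an.Re.PC2

/-!
PF2. Boundary values near the tip.

Proof. As in PF1, with `τ₀ = -1 + t I`, `η ≤ t < η + δ`, `δ` from `model_tip` (PC2): the limit `x` of the
ultrafilter is in `(v₁, v₂)` (alternative 2 of the third case of `cluster`) and has the boundary value `τ₀`, so
`|x - vc| < ρ` (otherwise `η + δ ≤ t`). Hence `vc - ρ < x < vc + ρ`, `ang_right`, `ang_left`.
-/

set_option autoImplicit false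

open Complex Set Filter Topology Metric

namespace Pool.Agent.Choc

variable {η : ℝ} {T : ℂ → ℂ} {v₁ v₂ vc : ℝ}

theorem pf2_pos (hT : Model2 η T v₁ v₂ vc) {τ₀ : ℂ} (hre : τ₀.re = -1) (him : η ≤ τ₀.im)
    {g : Ultrafilter ℂ} (hg : (g : Filter ℂ) ≤ 𝓝[Wd η] τ₀) :
    ∃ x : ℝ, v₁ < x ∧ x < v₂ ∧ Tendsto (sinv T) g (𝓝[UH] (x : ℂ)) ∧
      Tendsto T (𝓝[UH] (x : ℂ)) (𝓝 (-1 + τ₀.im * I)) := by
  have hη := hT.eta_pos
  have e0 : (-1 + (τ₀.im : ℂ) * I : ℂ) = τ₀ := by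
    apply Complex.ext
    · simp [hre]
    · simp
  have hW : Wd η ∈ g := hg self_mem_nhdsWithin
  have hF : UH ∈ g.map (sinv T) := by
    rw [Ultrafilter.mem_map]
    filter_upwards [hW] with τ hτ
    exact sinv_mem hT hτ
  have hlim : Tendsto T (g.map (sinv T) : Ultrafilter ℂ) (𝓝 τ₀) := by
    rw [Ultrafilter.coe_map, tendsto_map'_iff]
    have h1 : Tendsto (fun τ : ℂ => τ) (g : Filter ℂ) (𝓝 τ₀) := hg.trans nhdsWithin_le_nhds
    apply h1.congr'
    filter_upwards [hW] with τ hτ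
    exact (model_sinv hT hτ).symm
  rcases cluster hT hF hlim with h | h | h
  · exfalso
    have := h.2
    rw [this] at hre
    simp at hre
  · exfalso
    obtain ⟨p, hp, -, h2⟩ := h
    have h3 : T p ∈ T '' UH := ⟨p, hp, rfl⟩
    rw [hT.img, h2] at h3
    exact h3.2.2.2.2 ⟨hre, him⟩
  · obtain ⟨x, hx1, hx2, hx3⟩ := h
    rcases hx3 with h | h | h | h | h | h | h
    · exfalso
      have h4 : τ₀.re = 0 := h.2.1
      rw [h4] at hre
      norm_num at hre
    · refine ⟨x, h.1, h.2.1, ?_, ?_⟩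
      · rw [Ultrafilter.coe_map] at hx1
        exact hx1
      · rw [e0]
        exact hx2
    · exfalso
      have h4 : τ₀.re = -2 := h.2.2.1
      rw [h4] at hre
      norm_num at hre
    · exfalso
      rw [h.2] at hre
      norm_num at hre
    · exfalso
      rw [h.2.2.1] at him
      linarith
    · exfalso
      rw [h.2] at him
      simp at him
      linarith
    · exfalso
      have h4 := h.2.2
      have h5 : ‖τ₀ + 1 / 2‖ ^ 2 = (1 / 2) ^ 2 := by rw [h4]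
      rw [Complex.sq_norm, Complex.normSq_apply] at h5
      have e1 : (τ₀ + 1 / 2).re = -1 / 2 := by
        simp [hre]
        norm_num
      have e2 : (τ₀ + 1 / 2).im = τ₀.im := by simp
      rw [e1, e2] at h5
      nlinarith

theorem bv_near_tip (hT : Model2 η T v₁ v₂ vc) {ρ : ℝ} (hρ : 0 < ρ) :
    ∃ δ > 0, ∀ τ₀ : ℂ, τ₀.re = -1 → η ≤ τ₀.im → τ₀.im < η + δ →
      Tendsto (fun τ => ang (vc + ρ) (sinv T τ)) (𝓝[Wd η] τ₀) (𝓝 Real.pi) ∧
      Tendsto (fun τ => ang (vc - ρ) (sinv T τ)) (𝓝[Wd η] τ₀) (𝓝 0) := by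
  obtain ⟨δ, hδ, H⟩ := model_tip hT hρ
  refine ⟨δ, hδ, ?_⟩
  intro τ₀ hre him hlt
  have hx : ∀ g : Ultrafilter ℂ, (g : Filter ℂ) ≤ 𝓝[Wd η] τ₀ →
      ∃ x : ℝ, vc - ρ < x ∧ x < vc + ρ ∧ Tendsto (sinv T) g (𝓝[UH] (x : ℂ)) := by
    intro g hg
    obtain ⟨x, h1, h2, h3, h4⟩ := pf2_pos hT hre him hg
    have h5 : |x - vc| < ρ := by
      by_contra hc
      push Not at hc
      have := H x h1 h2 hc _ h4
      linarith
    have h6 := abs_lt.1 h5
    exact ⟨x, by linarith, by linarith, h3⟩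
  constructor
  · rw [tendsto_iff_ultrafilter]
    intro g hg
    obtain ⟨x, h1, h2, h3⟩ := hx g hg
    exact (ang_left h2).comp h3
  · rw [tendsto_iff_ultrafilter]
    intro g hg
    obtain ⟨x, h1, h2, h3⟩ := hx g hg
    exact (ang_right h1).comp h3

end Pool.Agent.Choc
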