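import Pool.Agent.Lib.MP_2b3e36_an.Re.PA
import Pool.Agent.Lib.MP_2b3e36_an.Re.PF1

/-!
PG1. Comparison of two models on the smaller region.

Let `η ≤ η'`, `S = sinv T`, `S' = sinv T'`. Both are defined on `Wd η ⊆ Wd η'`. Apply `max_uh` with
`Ω = Wd η`, `F = {0, -1, -2}` to the differences; all functions are between `0` and `pi`. Boundary points
(`wd_frontier`) and values (PF1; `𝓝[Wd η] τ₀ ≤ 𝓝[Wd η'] τ₀`):
`Vert 0`: all four angles of both models tend to `pi`.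
slit of `Wd η`: `ang v₁ (S τ) → 0`, `ang v₂ (S τ) → pi`, `ang (∓1) (S τ) → pi`; the angles of `S'` are in `(0, pi)`.
`Vert (-2)`: `ang v₁, ang v₂ → 0`, `ang (-1), ang 1 → pi` for both.
free segment: `ang 1 → pi`, the other three `→ 0`, both models. `Sig`: all `→ 0`.
In each case the limit (or upper limit) of the difference is `≤ 0`. For `cmp_left`:
`u = (ang p (S τ) - ang v₂ (S τ)) - (ang p (S' τ) - ang u₂ (S' τ))`, on the slit the first bracket tends to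
`0` and the second is `≥ 0` (`ang_mono`).
-/

set_option autoImplicit false

open Complex Set Filter Topology Metric

namespace Pool.Agent.Choc

variable {η η' : ℝ} {T T' : ℂ → ℂ} {v₁ v₂ vc u₁ u₂ uc : ℝ}

theorem pg1_lim {f g : ℂ → ℝ} {l : Filter ℂ} {a b : ℝ} (hf : Tendsto f l (𝓝 a))
    (hg : Tendsto g l (𝓝 b)) (hab : a ≤ b) : ∀ ε > 0, ∀ᶠ z in l, (f - g) z < ε := by
  intro ε hε
  exact (hf.sub hg).eventually (gt_mem_nhds (show a - b < ε by linarith))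

theorem pg1_low {f g : ℂ → ℝ} {s : Set ℂ} {τ₀ : ℂ} {a : ℝ} (hf : Tendsto f (𝓝[s] τ₀) (𝓝 a))
    (hg : ∀ z ∈ s, a ≤ g z) : ∀ ε > 0, ∀ᶠ z in 𝓝[s] τ₀, (f - g) z < ε := by
  intro ε hε
  have h1 := hf.eventually (gt_mem_nhds (show a < a + ε by linarith))
  filter_upwards [h1, self_mem_nhdsWithin] with z hz hz'
  have := hg z hz'
  rw [Pi.sub_apply]
  linarith

theorem pg1_up {f g : ℂ → ℝ} {s : Set ℂ} {τ₀ : ℂ} {a : ℝ} (hf : ∀ z ∈ s, f z ≤ a)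
    (hg : Tendsto g (𝓝[s] τ₀) (𝓝 a)) : ∀ ε > 0, ∀ᶠ z in 𝓝[s] τ₀, (f - g) z < ε := by
  intro ε hε
  have h1 := hg.eventually (lt_mem_nhds (show a - ε < a by linarith))
  filter_upwards [h1, self_mem_nhdsWithin] with z hz hz'
  have := hf z hz'
  rw [Pi.sub_apply]
  linarith

theorem pg1_max {u : ℂ → ℝ} (hu : InnerProductSpace.HarmonicOnNhd u (Wd η)) {M : ℝ}
    (hM : ∀ z ∈ Wd η, u z ≤ M)
    (h0 : ∀ τ₀ ∈ Vert 0, ∀ ε > 0, ∀ᶠ z in 𝓝[Wd η] τ₀, u z < ε)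
    (h1 : ∀ τ₀ : ℂ, τ₀.re = -1 → η ≤ τ₀.im → ∀ ε > 0, ∀ᶠ z in 𝓝[Wd η] τ₀, u z < ε)
    (h2 : ∀ τ₀ ∈ Vert (-2), ∀ ε > 0, ∀ᶠ z in 𝓝[Wd η] τ₀, u z < ε)
    (h3 : ∀ τ₀ : ℂ, τ₀.im = 0 → -2 < τ₀.re → τ₀.re < -1 →
      ∀ ε > 0, ∀ᶠ z in 𝓝[Wd η] τ₀, u z < ε)
    (h4 : ∀ τ₀ ∈ Sig, ∀ ε > 0, ∀ᶠ z in 𝓝[Wd η] τ₀, u z < ε) : ∀ z ∈ Wd η, u z ≤ 0 := by
  refine max_uh (wd_open η) (wd_subset η) (F := {0, -1, -2}) (Set.toFinite _) hu hM ?_
  intro ζ hζ hF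
  rcases wd_frontier hζ with h | ⟨a, _, c⟩ | h | ⟨a, b, c⟩ | h | h | h | h
  · exact h0 ζ h
  · exact h1 ζ a c
  · exact h2 ζ h
  · exact h3 ζ a b c
  · exact h4 ζ h
  · exact absurd (by rw [h]; simp) hF
  · exact absurd (by rw [h]; simp) hF
  · exact absurd (by rw [h]; simp) hF

theorem pg1_pos (hT : Model2 η T v₁ v₂ vc) (p : ℝ) {z : ℂ} (hz : z ∈ Wd η) :
    0 ≤ ang p (sinv T z) := (ang_pos p (sinv_mem hT hz)).le

theorem pg1_le (hT : Model2 η T v₁ v₂ vc) (p : ℝ) {z : ℂ} (hz : z ∈ Wd η) :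
    ang p (sinv T z) ≤ Real.pi := (ang_lt p (sinv_mem hT hz)).le

theorem pg1_mono (hT : Model2 η T v₁ v₂ vc) {p q : ℝ} (h : p < q) {z : ℂ} (hz : z ∈ Wd η) :
    0 ≤ ang q (sinv T z) - ang p (sinv T z) :=
  sub_nonneg.2 (ang_mono h (sinv_mem hT hz)).le

theorem pg1_nhds (h : η ≤ η') (τ₀ : ℂ) : 𝓝[Wd η] τ₀ ≤ 𝓝[Wd η'] τ₀ :=
  nhdsWithin_mono _ (wd_mono h)

theorem cmp_v1 (hT : Model2 η T v₁ v₂ vc) (hT' : Model2 η' T' u₁ u₂ uc) (h : η ≤ η') {τ : ℂ}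
    (hτ : τ ∈ Wd η) : ang v₁ (sinv T τ) ≤ ang u₁ (sinv T' τ) := by
  have hv := (hT.lt1.trans hT.lt2).le
  have hv' := (hT.lt1.trans (hT.lt2.trans hT.lt3)).le
  have key := pg1_max (((bv_harm hT v₁)).sub ((bv_harm hT' u₁).mono (wd_mono h))) (M := Real.pi)
    (fun z hz => by
      have a := pg1_le hT v₁ hz
      have b := pg1_pos hT' u₁ (wd_mono h hz)
      rw [Pi.sub_apply]
      linarith)
    (fun τ₀ h0 => pg1_lim (bv_vert0 hT le_rfl h0) ((bv_vert0 hT' le_rfl h0).mono_left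
      (pg1_nhds h τ₀)) le_rfl)
    (fun τ₀ h1 h2 => pg1_low (bv_slit0 hT le_rfl h1 h2)
      (fun z hz => pg1_pos hT' u₁ (wd_mono h hz)))
    (fun τ₀ h1 => pg1_low (bv_vert2_0 hT hv h1)
      (fun z hz => pg1_pos hT' u₁ (wd_mono h hz)))
    (fun τ₀ h1 h2 h3 => pg1_low (bv_free0 hT hv' h1 h2 h3)
      (fun z hz => pg1_pos hT' u₁ (wd_mono h hz)))
    (fun τ₀ h1 => pg1_low (bv_arc hT (hv'.trans (by norm_num)) h1)
      (fun z hz => pg1_pos hT' u₁ (wd_mono h hz))) τ hτ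
  rw [Pi.sub_apply] at key
  linarith

theorem cmp_v2 (hT : Model2 η T v₁ v₂ vc) (hT' : Model2 η' T' u₁ u₂ uc) (h : η ≤ η') {τ : ℂ}
    (hτ : τ ∈ Wd η) : ang u₂ (sinv T' τ) ≤ ang v₂ (sinv T τ) := by
  have hv := (hT.lt1.trans hT.lt2).le
  have hu := hT'.lt3.le
  have key := pg1_max (((bv_harm hT' u₂).mono (wd_mono h)).sub (bv_harm hT v₂)) (M := Real.pi)
    (fun z hz => by
      have a := pg1_le hT' u₂ (wd_mono h hz)
      have b := pg1_pos hT v₂ hz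
      rw [Pi.sub_apply]
      linarith)
    (fun τ₀ h0 => pg1_up (fun z hz => pg1_le hT' u₂ (wd_mono h hz)) (bv_vert0 hT hv h0))
    (fun τ₀ h1 h2 => pg1_up (fun z hz => pg1_le hT' u₂ (wd_mono h hz))
      (bv_slit1 hT le_rfl h1 h2))
    (fun τ₀ h1 => pg1_low ((bv_vert2_0 hT' le_rfl h1).mono_left (pg1_nhds h τ₀))
      (fun z hz => pg1_pos hT v₂ hz))
    (fun τ₀ h1 h2 h3 => pg1_low ((bv_free0 hT' hu h1 h2 h3).mono_left (pg1_nhds h τ₀))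
      (fun z hz => pg1_pos hT v₂ hz))
    (fun τ₀ h1 => pg1_low ((bv_arc hT' (hu.trans (by norm_num)) h1).mono_left (pg1_nhds h τ₀))
      (fun z hz => pg1_pos hT v₂ hz)) τ hτ
  rw [Pi.sub_apply] at key
  linarith

theorem cmp_negOne (hT : Model2 η T v₁ v₂ vc) (hT' : Model2 η' T' u₁ u₂ uc) (h : η ≤ η') {τ : ℂ}
    (hτ : τ ∈ Wd η) : ang (-1) (sinv T' τ) ≤ ang (-1) (sinv T τ) := by
  have hv := (hT.lt1.trans (hT.lt2.trans hT.lt3)).le
  have key := pg1_max (((bv_harm hT' (-1)).mono (wd_mono h)).sub (bv_harm hT (-1)))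
    (M := Real.pi)
    (fun z hz => by
      have a := pg1_le hT' (-1) (wd_mono h hz)
      have b := pg1_pos hT (-1) hz
      rw [Pi.sub_apply]
      linarith)
    (fun τ₀ h0 => pg1_up (fun z hz => pg1_le hT' (-1) (wd_mono h hz)) (bv_vert0 hT hv h0))
    (fun τ₀ h1 h2 => pg1_up (fun z hz => pg1_le hT' (-1) (wd_mono h hz))
      (bv_slit1 hT hT.lt3.le h1 h2))
    (fun τ₀ h1 => pg1_up (fun z hz => pg1_le hT' (-1) (wd_mono h hz))
      (bv_vert2_1 hT le_rfl h1))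
    (fun τ₀ h1 h2 h3 => pg1_low ((bv_free0 hT' le_rfl h1 h2 h3).mono_left (pg1_nhds h τ₀))
      (fun z hz => pg1_pos hT (-1) hz))
    (fun τ₀ h1 => pg1_low ((bv_arc hT' (by norm_num) h1).mono_left (pg1_nhds h τ₀))
      (fun z hz => pg1_pos hT (-1) hz)) τ hτ
  rw [Pi.sub_apply] at key
  linarith

theorem cmp_one (hT : Model2 η T v₁ v₂ vc) (hT' : Model2 η' T' u₁ u₂ uc) (h : η ≤ η') {τ : ℂ}
    (hτ : τ ∈ Wd η) : ang 1 (sinv T' τ) ≤ ang 1 (sinv T τ) := by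
  have hv : v₁ ≤ 1 := (hT.lt1.trans (hT.lt2.trans hT.lt3)).le.trans (by norm_num)
  have hv2 : v₂ ≤ 1 := hT.lt3.le.trans (by norm_num)
  have key := pg1_max (((bv_harm hT' 1).mono (wd_mono h)).sub (bv_harm hT 1))
    (M := Real.pi)
    (fun z hz => by
      have a := pg1_le hT' 1 (wd_mono h hz)
      have b := pg1_pos hT 1 hz
      rw [Pi.sub_apply]
      linarith)
    (fun τ₀ h0 => pg1_up (fun z hz => pg1_le hT' 1 (wd_mono h hz)) (bv_vert0 hT hv h0))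
    (fun τ₀ h1 h2 => pg1_up (fun z hz => pg1_le hT' 1 (wd_mono h hz))
      (bv_slit1 hT hv2 h1 h2))
    (fun τ₀ h1 => pg1_up (fun z hz => pg1_le hT' 1 (wd_mono h hz))
      (bv_vert2_1 hT (by norm_num) h1))
    (fun τ₀ h1 h2 h3 => pg1_up (fun z hz => pg1_le hT' 1 (wd_mono h hz))
      (bv_free1 hT le_rfl h1 h2 h3))
    (fun τ₀ h1 => pg1_low ((bv_arc hT' le_rfl h1).mono_left (pg1_nhds h τ₀))
      (fun z hz => pg1_pos hT 1 hz)) τ hτ
  rw [Pi.sub_apply] at key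
  linarith

theorem cmp_left (hT : Model2 η T v₁ v₂ vc) (hT' : Model2 η' T' u₁ u₂ uc) (h : η ≤ η') {τ : ℂ}
    (hτ : τ ∈ Wd η) : ang (-1) (sinv T τ) - ang v₂ (sinv T τ)
      ≤ ang (-1) (sinv T' τ) - ang u₂ (sinv T' τ) := by
  have hv := (hT.lt1.trans hT.lt2).le
  have hv1 := (hT.lt1.trans (hT.lt2.trans hT.lt3)).le
  have hg : ∀ z ∈ Wd η, (0 : ℝ) ≤ ((fun τ => ang (-1) (sinv T' τ)) -
      fun τ => ang u₂ (sinv T' τ)) z := fun z hz => pg1_mono hT' hT'.lt3 (wd_mono h hz)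
  have key := pg1_max (((bv_harm hT (-1)).sub (bv_harm hT v₂)).sub
      (((bv_harm hT' (-1)).mono (wd_mono h)).sub ((bv_harm hT' u₂).mono (wd_mono h))))
    (M := Real.pi)
    (fun z hz => by
      have a := pg1_le hT (-1) hz
      have b := pg1_pos hT v₂ hz
      have c := hg z hz
      rw [Pi.sub_apply, Pi.sub_apply]
      linarith)
    (fun τ₀ h0 => pg1_low (by
      have := (bv_vert0 hT hv1 h0).sub (bv_vert0 hT hv h0)
      rw [sub_self] at this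
      exact this) hg)
    (fun τ₀ h1 h2 => pg1_low (by
      have := (bv_slit1 hT hT.lt3.le h1 h2).sub (bv_slit1 hT le_rfl h1 h2)
      rw [sub_self] at this
      exact this) hg)
    (fun τ₀ h1 => pg1_lim ((bv_vert2_1 hT le_rfl h1).sub (bv_vert2_0 hT le_rfl h1))
      (((bv_vert2_1 hT' le_rfl h1).sub (bv_vert2_0 hT' le_rfl h1)).mono_left
        (pg1_nhds h τ₀)) le_rfl)
    (fun τ₀ h1 h2 h3 => pg1_low (by
      have := (bv_free0 hT le_rfl h1 h2 h3).sub (bv_free0 hT hT.lt3.le h1 h2 h3)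
      rw [sub_self] at this
      exact this) hg)
    (fun τ₀ h1 => pg1_low (by
      have := (bv_arc hT (by norm_num : (-1 : ℝ) ≤ 1) h1).sub
        (bv_arc hT (hT.lt3.le.trans (by norm_num)) h1)
      rw [sub_self] at this
      exact this) hg) τ hτ
  rw [Pi.sub_apply, Pi.sub_apply, Pi.sub_apply] at key
  linarith

theorem cmp_leftfree (hT : Model2 η T v₁ v₂ vc) (hT' : Model2 η' T' u₁ u₂ uc) (h : η ≤ η') {τ : ℂ}
    (hτ : τ ∈ Wd η) : ang 1 (sinv T τ) - ang v₂ (sinv T τ)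
      ≤ ang 1 (sinv T' τ) - ang u₂ (sinv T' τ) := by
  have hv := (hT.lt1.trans hT.lt2).le
  have hv1 : v₁ ≤ 1 := (hT.lt1.trans (hT.lt2.trans hT.lt3)).le.trans (by norm_num)
  have hv2 : v₂ < 1 := hT.lt3.trans (by norm_num)
  have hu2 : u₂ < 1 := hT'.lt3.trans (by norm_num)
  have hg : ∀ z ∈ Wd η, (0 : ℝ) ≤ ((fun τ => ang 1 (sinv T' τ)) -
      fun τ => ang u₂ (sinv T' τ)) z := fun z hz => pg1_mono hT' hu2 (wd_mono h hz)
  have key := pg1_max (((bv_harm hT 1).sub (bv_harm hT v₂)).sub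
      (((bv_harm hT' 1).mono (wd_mono h)).sub ((bv_harm hT' u₂).mono (wd_mono h))))
    (M := Real.pi)
    (fun z hz => by
      have a := pg1_le hT 1 hz
      have b := pg1_pos hT v₂ hz
      have c := hg z hz
      rw [Pi.sub_apply, Pi.sub_apply]
      linarith)
    (fun τ₀ h0 => pg1_low (by
      have := (bv_vert0 hT hv1 h0).sub (bv_vert0 hT hv h0)
      rw [sub_self] at this
      exact this) hg)
    (fun τ₀ h1 h2 => pg1_low (by
      have := (bv_slit1 hT hv2.le h1 h2).sub (bv_slit1 hT le_rfl h1 h2)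
      rw [sub_self] at this
      exact this) hg)
    (fun τ₀ h1 => pg1_lim ((bv_vert2_1 hT (by norm_num : (-1 : ℝ) ≤ 1) h1).sub
        (bv_vert2_0 hT le_rfl h1))
      (((bv_vert2_1 hT' (by norm_num : (-1 : ℝ) ≤ 1) h1).sub
        (bv_vert2_0 hT' le_rfl h1)).mono_left (pg1_nhds h τ₀)) le_rfl)
    (fun τ₀ h1 h2 h3 => pg1_lim ((bv_free1 hT le_rfl h1 h2 h3).sub
        (bv_free0 hT hT.lt3.le h1 h2 h3))
      (((bv_free1 hT' le_rfl h1 h2 h3).sub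
        (bv_free0 hT' hT'.lt3.le h1 h2 h3)).mono_left (pg1_nhds h τ₀)) le_rfl)
    (fun τ₀ h1 => pg1_low (by
      have := (bv_arc hT (le_refl (1 : ℝ)) h1).sub (bv_arc hT hv2.le h1)
      rw [sub_self] at this
      exact this) hg) τ hτ
  rw [Pi.sub_apply, Pi.sub_apply, Pi.sub_apply] at key
  linarith

end Pool.Agent.Choc
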