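import Pool.Agent.Lib.MP_2b3e36_an.Re.PG1
import Pool.Agent.Lib.MP_2b3e36_an.Re.PB2

/-!
PG2. The ends are monotone in `η`.

Proof. For `τ ∈ Wd η` let `R τ = (ang (-1) (S τ) - ang v₂ (S τ))/(ang v₂ (S τ) - ang v₁ (S τ))` and `R'` the same
for the other model. By `cmp_left` and `cmp_v1`, `cmp_v2`: the numerator of `R` is at most the one of `R'`,
the denominator of `R` (positive) is at least the one of `R'` (positive): `R τ ≤ R' τ`. As `τ → 0` in `Wd η`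
(`wd_zero`: the filter is not trivial) `S τ → ∞` and `S' τ → ∞` (`bv_zero`), so by `ang_ratio`
`R τ → (-1 - v₂)/(v₂ - v₁) = ea v₁ v₂ - 1`, `R' τ → ea u₁ u₂ - 1`. The same with `1` in place of `-1` for `ec`.
-/

set_option autoImplicit false

open Complex Set Filter Topology Metric

namespace Pool.Agent.Choc

theorem pg2_key {η η' : ℝ} {T T' : ℂ → ℂ} {v₁ v₂ vc u₁ u₂ uc : ℝ} (hT : Model2 η T v₁ v₂ vc)
    (hT' : Model2 η' T' u₁ u₂ uc) (h : η ≤ η') (q : ℝ) (h1 : v₂ < q) (h2 : u₂ < q)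
    (h3 : ∀ τ ∈ Wd η, ang q (sinv T τ) - ang v₂ (sinv T τ) ≤
      ang q (sinv T' τ) - ang u₂ (sinv T' τ)) :
    (q - v₂) / (v₂ - v₁) ≤ (q - u₂) / (u₂ - u₁) := by
  have hv := hT.lt1.trans hT.lt2
  have hu := hT'.lt1.trans hT'.lt2
  have : (𝓝[Wd η] (0 : ℂ)).NeBot := wd_zero
  refine le_of_tendsto_of_tendsto ((ang_ratio hv h1).comp (bv_zero hT))
    ((ang_ratio hu h2).comp ((bv_zero hT').mono_left (pg1_nhds h 0))) ?_
  filter_upwards [self_mem_nhdsWithin] with τ hτ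
  have hτ' := wd_mono h hτ
  have a1 := cmp_v1 hT hT' h hτ
  have a2 := cmp_v2 hT hT' h hτ
  have a3 := ang_mono hu (sinv_mem hT' hτ')
  have a4 := ang_mono h2 (sinv_mem hT' hτ')
  have a5 := h3 τ hτ
  simp only [Function.comp]
  exact div_le_div₀ (by linarith) a5 (by linarith) (by linarith)

theorem ends_mono {η η' : ℝ} {T T' : ℂ → ℂ} {v₁ v₂ vc u₁ u₂ uc : ℝ} (hT : Model2 η T v₁ v₂ vc)
    (hT' : Model2 η' T' u₁ u₂ uc) (h : η ≤ η') : ea v₁ v₂ ≤ ea u₁ u₂ ∧ ec v₁ v₂ ≤ ec u₁ u₂ := by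
  have hv := hT.lt1.trans hT.lt2
  have hu := hT'.lt1.trans hT'.lt2
  have k1 := pg2_key hT hT' h (-1) hT.lt3 hT'.lt3 (fun τ hτ => cmp_left hT hT' h hτ)
  have k2 := pg2_key hT hT' h 1 (hT.lt3.trans (by norm_num)) (hT'.lt3.trans (by norm_num))
    (fun τ hτ => cmp_leftfree hT hT' h hτ)
  have e : ∀ (q a b : ℝ), a < b → (q - a) / (b - a) = (q - b) / (b - a) + 1 := by
    intro q a b hab
    have : b - a ≠ 0 := (sub_pos.2 hab).ne'
    field_simp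
    ring
  unfold ea ec
  rw [e _ _ _ hv, e _ _ _ hu, e _ _ _ hv, e _ _ _ hu]
  exact ⟨by linarith, by linarith⟩

end Pool.Agent.Choc
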