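import Pool.Agent.Lib.MP_2b3e36_an.Re.PG1
import Pool.Agent.Lib.MP_2b3e36_an.Re.PF2

/-!
PH1. Models with a slightly larger `η'`: the angles at the image of `I`.

Proof. Fix `T` (`η`), `ρ > 0` and `δ` from `bv_near_tip`. Let `η ≤ η' < η + δ`, `S = sinv T`, `S' = sinv T'`,
`ω τ = ang (vc + ρ) (S τ) - ang (vc - ρ) (S τ)`, `0 ≤ ω ≤ pi`. On `Wd η`:
`ang u₁ (S' τ) - ang v₁ (S τ) ≤ ω τ`, `ang v₂ (S τ) - ang u₂ (S' τ) ≤ ω τ`,
`ang (∓1) (S τ) - ang (∓1) (S' τ) ≤ ω τ`. Indeed `max_uh` with `F = {0, -1, -2}`; at the boundary points in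
`Vert 0`, `Vert (-2)`, the free segment, `Sig` the two angles have the same limit and `ω ≥ 0`; at `-1 + t I`,
`t ≥ η'`: also the same limits (slit of both regions); at `-1 + t I`, `η ≤ t < η'`: `ω → pi` and the left side is
`≤ pi`. Together with PG1 all differences at `τ = T I ∈ Wd η` are in `[0, ω (T I)]` in absolute value, `S (T I) = I`,
and `ω (T I) = ang (vc + ρ) I - ang (vc - ρ) I ≤ ε` for small `ρ` (`ang_hasDeriv` gives continuity).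
-/

set_option autoImplicit false

open Complex Set Filter Topology Metric

namespace Pool.Agent.Choc

/-- boundary values of a function on `Wd η` in the five parts of the boundary -/
def ph1_bv (η : ℝ) (f : ℂ → ℝ) (a b c : ℝ) : Prop :=
  (∀ τ₀ ∈ Vert 0, Tendsto f (𝓝[Wd η] τ₀) (𝓝 Real.pi)) ∧
  (∀ τ₀ : ℂ, τ₀.re = -1 → η ≤ τ₀.im → Tendsto f (𝓝[Wd η] τ₀) (𝓝 a)) ∧
  (∀ τ₀ ∈ Vert (-2), Tendsto f (𝓝[Wd η] τ₀) (𝓝 b)) ∧
  (∀ τ₀ : ℂ, τ₀.im = 0 → -2 < τ₀.re → τ₀.re < -1 → Tendsto f (𝓝[Wd η] τ₀) (𝓝 c)) ∧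
  (∀ τ₀ ∈ Sig, Tendsto f (𝓝[Wd η] τ₀) (𝓝 0))

theorem ph1_bv_v1 {η : ℝ} {T : ℂ → ℂ} {v₁ v₂ vc : ℝ} (hT : Model2 η T v₁ v₂ vc) :
    ph1_bv η (fun τ => ang v₁ (sinv T τ)) 0 0 0 := by
  have h1 := hT.lt1
  have h2 := hT.lt2
  have h3 := hT.lt3
  exact ⟨fun τ₀ h => bv_vert0 hT le_rfl h, fun τ₀ h h' => bv_slit0 hT le_rfl h h',
    fun τ₀ h => bv_vert2_0 hT (by linarith) h,
    fun τ₀ h h' h'' => bv_free0 hT (by linarith) h h' h'',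
    fun τ₀ h => bv_arc hT (by linarith) h⟩

theorem ph1_bv_v2 {η : ℝ} {T : ℂ → ℂ} {v₁ v₂ vc : ℝ} (hT : Model2 η T v₁ v₂ vc) :
    ph1_bv η (fun τ => ang v₂ (sinv T τ)) Real.pi 0 0 := by
  have h1 := hT.lt1
  have h2 := hT.lt2
  have h3 := hT.lt3
  exact ⟨fun τ₀ h => bv_vert0 hT (by linarith) h, fun τ₀ h h' => bv_slit1 hT le_rfl h h',
    fun τ₀ h => bv_vert2_0 hT le_rfl h,
    fun τ₀ h h' h'' => bv_free0 hT (by linarith) h h' h'',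
    fun τ₀ h => bv_arc hT (by linarith) h⟩

theorem ph1_bv_neg {η : ℝ} {T : ℂ → ℂ} {v₁ v₂ vc : ℝ} (hT : Model2 η T v₁ v₂ vc) :
    ph1_bv η (fun τ => ang (-1) (sinv T τ)) Real.pi Real.pi 0 := by
  have h1 := hT.lt1
  have h2 := hT.lt2
  have h3 := hT.lt3
  exact ⟨fun τ₀ h => bv_vert0 hT (by linarith) h, fun τ₀ h h' => bv_slit1 hT (by linarith) h h',
    fun τ₀ h => bv_vert2_1 hT le_rfl h,
    fun τ₀ h h' h'' => bv_free0 hT le_rfl h h' h'',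
    fun τ₀ h => bv_arc hT (by norm_num) h⟩

theorem ph1_bv_one {η : ℝ} {T : ℂ → ℂ} {v₁ v₂ vc : ℝ} (hT : Model2 η T v₁ v₂ vc) :
    ph1_bv η (fun τ => ang 1 (sinv T τ)) Real.pi Real.pi Real.pi := by
  have h1 := hT.lt1
  have h2 := hT.lt2
  have h3 := hT.lt3
  exact ⟨fun τ₀ h => bv_vert0 hT (by linarith) h, fun τ₀ h h' => bv_slit1 hT (by linarith) h h',
    fun τ₀ h => bv_vert2_1 hT (by norm_num) h,
    fun τ₀ h h' h'' => bv_free1 hT le_rfl h h' h'',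
    fun τ₀ h => bv_arc hT le_rfl h⟩

/-- two functions with the same boundary data on the smaller region -/
theorem ph1_same {η η' : ℝ} (h : η ≤ η') {f g : ℂ → ℝ} {a b c : ℝ} (hf : ph1_bv η f a b c)
    (hg : ph1_bv η' g a b c) {τ₀ : ℂ} (hτ : τ₀ ∈ frontier (Wd η)) (h0 : τ₀ ≠ 0) (h1 : τ₀ ≠ -1)
    (h2 : τ₀ ≠ -2) :
    (∃ x, Tendsto f (𝓝[Wd η] τ₀) (𝓝 x) ∧ Tendsto g (𝓝[Wd η] τ₀) (𝓝 x)) ∨
      (τ₀.re = -1 ∧ η ≤ τ₀.im ∧ τ₀.im < η') := by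
  have hle : 𝓝[Wd η] τ₀ ≤ 𝓝[Wd η'] τ₀ := nhdsWithin_mono _ (wd_mono h)
  rcases wd_frontier hτ with h3 | ⟨h3, -, h4⟩ | h3 | ⟨h3, h4, h5⟩ | h3 | h3 | h3 | h3
  · exact Or.inl ⟨_, hf.1 _ h3, (hg.1 _ h3).mono_left hle⟩
  · by_cases h5 : η' ≤ τ₀.im
    · exact Or.inl ⟨_, hf.2.1 _ h3 h4, (hg.2.1 _ h3 h5).mono_left hle⟩
    · exact Or.inr ⟨h3, h4, not_le.1 h5⟩
  · exact Or.inl ⟨_, hf.2.2.1 _ h3, (hg.2.2.1 _ h3).mono_left hle⟩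
  · exact Or.inl ⟨_, hf.2.2.2.1 _ h3 h4 h5, (hg.2.2.2.1 _ h3 h4 h5).mono_left hle⟩
  · exact Or.inl ⟨_, hf.2.2.2.2 _ h3, (hg.2.2.2.2 _ h3).mono_left hle⟩
  · exact absurd h3 h0
  · exact absurd h3 h1
  · exact absurd h3 h2

/-- maximum principle for a difference on `Wd η` -/
theorem ph1_max {η : ℝ} {f g ω : ℂ → ℝ} (hf : InnerProductSpace.HarmonicOnNhd f (Wd η))
    (hg : InnerProductSpace.HarmonicOnNhd g (Wd η)) (hω : InnerProductSpace.HarmonicOnNhd ω (Wd η))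
    (hfp : ∀ τ ∈ Wd η, f τ < Real.pi) (hg0 : ∀ τ ∈ Wd η, 0 < g τ) (hω0 : ∀ τ ∈ Wd η, 0 ≤ ω τ)
    (hbd : ∀ τ₀ ∈ frontier (Wd η), τ₀ ≠ 0 → τ₀ ≠ -1 → τ₀ ≠ -2 →
      (∃ x, Tendsto f (𝓝[Wd η] τ₀) (𝓝 x) ∧ Tendsto g (𝓝[Wd η] τ₀) (𝓝 x)) ∨
        ∀ e > 0, ∀ᶠ τ in 𝓝[Wd η] τ₀, f τ - g τ < ω τ + e) :
    ∀ τ ∈ Wd η, f τ - g τ ≤ ω τ := by
  have key := max_uh (wd_open η) (wd_subset η) (F := {0, -1, -2}) (by simp)
    (u := fun τ => f τ - g τ - ω τ) ((hf.sub hg).sub hω) (M := Real.pi) (fun z hz => by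
      have h1 := hfp z hz
      have h2 := hg0 z hz
      have h3 := hω0 z hz
      change f z - g z - ω z ≤ Real.pi
      linarith) (fun ζ hζ hF e he => by
      simp only [mem_insert_iff, mem_singleton_iff, not_or] at hF
      rcases hbd ζ hζ hF.1 hF.2.1 hF.2.2 with ⟨x, h1, h2⟩ | h1
      · have h3 : Tendsto (fun τ => f τ - g τ) (𝓝[Wd η] ζ) (𝓝 0) := by
          have := h1.sub h2
          rwa [sub_self] at this
        filter_upwards [h3.eventually_lt_const he, self_mem_nhdsWithin] with τ h4 h5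
        have := hω0 τ h5
        change f τ - g τ - ω τ < e
        linarith
      · filter_upwards [h1 e he] with τ h2
        change f τ - g τ - ω τ < e
        linarith)
  intro τ hτ
  have := key τ hτ
  change f τ - g τ - ω τ ≤ 0 at this
  linarith

theorem right_close {η : ℝ} {T : ℂ → ℂ} {v₁ v₂ vc : ℝ} (hT : Model2 η T v₁ v₂ vc) {ε : ℝ}
    (hε : 0 < ε) :
    ∃ δ > 0, ∀ (η' : ℝ) (T' : ℂ → ℂ) (u₁ u₂ uc : ℝ), η ≤ η' → η' < η + δ →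
      Model2 η' T' u₁ u₂ uc → ∃ w ∈ UH, |ang u₁ w - ang v₁ I| ≤ ε ∧ |ang u₂ w - ang v₂ I| ≤ ε ∧
      |ang (-1) w - ang (-1) I| ≤ ε ∧ |ang 1 w - ang 1 I| ≤ ε := by
  have hI : I ∈ UH := by
    change 0 < I.im
    simp
  -- the choice of `ρ`
  obtain ⟨ρ, hρ, hρε⟩ : ∃ ρ > 0, ang (vc + ρ) I - ang (vc - ρ) I ≤ ε := by
    have hc : ContinuousAt (fun s : ℝ => ang s I) vc := (ang_hasDeriv hI vc).continuousAt
    obtain ⟨r, hr, hr'⟩ := Metric.continuousAt_iff.1 hc (ε / 2) (by linarith)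
    refine ⟨r / 2, by linarith, ?_⟩
    have h1 := hr' (x := vc + r / 2) (by
      rw [Real.dist_eq]
      have : vc + r / 2 - vc = r / 2 := by ring
      rw [this, abs_of_pos (by linarith)]; linarith)
    have h2 := hr' (x := vc - r / 2) (by
      rw [Real.dist_eq]
      have : vc - r / 2 - vc = -(r / 2) := by ring
      rw [this, abs_neg, abs_of_pos (by linarith)]; linarith)
    rw [Real.dist_eq, abs_lt] at h1 h2
    linarith [h1.2, h2.1]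
  obtain ⟨δ, hδ, hδ'⟩ := bv_near_tip hT hρ
  refine ⟨δ, hδ, ?_⟩
  intro η' T' u₁ u₂ uc h h' hT'
  have hTI : T I ∈ Wd η := by
    rw [← hT.img]; exact mem_image_of_mem T hI
  have hS : sinv T (T I) = I := sinv_model hT hI
  have hm := wd_mono h
  refine ⟨sinv T' (T I), sinv_mem hT' (hm hTI), ?_⟩
  -- the comparison function
  have hωh : InnerProductSpace.HarmonicOnNhd
      (fun τ => ang (vc + ρ) (sinv T τ) - ang (vc - ρ) (sinv T τ)) (Wd η) :=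
    (bv_harm hT (vc + ρ)).sub (bv_harm hT (vc - ρ))
  have hω0 : ∀ τ ∈ Wd η, 0 ≤ ang (vc + ρ) (sinv T τ) - ang (vc - ρ) (sinv T τ) := by
    intro τ hτ
    have := ang_mono (show vc - ρ < vc + ρ by linarith) (sinv_mem hT hτ)
    linarith
  have gen : ∀ f g : ℂ → ℝ, InnerProductSpace.HarmonicOnNhd f (Wd η) →
      InnerProductSpace.HarmonicOnNhd g (Wd η) → (∀ τ ∈ Wd η, f τ < Real.pi) →
      (∀ τ ∈ Wd η, 0 < g τ) →
      (∀ τ₀ ∈ frontier (Wd η), τ₀ ≠ 0 → τ₀ ≠ -1 → τ₀ ≠ -2 →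
        (∃ x, Tendsto f (𝓝[Wd η] τ₀) (𝓝 x) ∧ Tendsto g (𝓝[Wd η] τ₀) (𝓝 x)) ∨
          (τ₀.re = -1 ∧ η ≤ τ₀.im ∧ τ₀.im < η')) → f (T I) - g (T I) ≤ ε := by
    intro f g hf hg hfp hg0 hbd
    have h1 := ph1_max hf hg hωh hfp hg0 hω0 (fun τ₀ hτ h0 h1 h2 => by
      rcases hbd τ₀ hτ h0 h1 h2 with h3 | ⟨h3, h4, h5⟩
      · exact Or.inl h3
      · refine Or.inr fun e he => ?_
        obtain ⟨h6, h7⟩ := hδ' τ₀ h3 h4 (by linarith)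
        have h8 := h6.sub h7
        rw [sub_zero] at h8
        filter_upwards [h8.eventually_const_lt (show Real.pi - e < Real.pi by linarith),
          self_mem_nhdsWithin] with τ h9 h10
        have h11 := hfp τ h10
        have h12 := hg0 τ h10
        linarith) (T I) hTI
    rw [hS] at h1
    linarith
  have hpos : ∀ p : ℝ, ∀ τ ∈ Wd η, 0 < ang p (sinv T τ) := fun p τ hτ =>
    ang_pos p (sinv_mem hT hτ)
  have hlt : ∀ p : ℝ, ∀ τ ∈ Wd η, ang p (sinv T τ) < Real.pi := fun p τ hτ =>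
    ang_lt p (sinv_mem hT hτ)
  have hpos' : ∀ p : ℝ, ∀ τ ∈ Wd η, 0 < ang p (sinv T' τ) := fun p τ hτ =>
    ang_pos p (sinv_mem hT' (hm hτ))
  have hlt' : ∀ p : ℝ, ∀ τ ∈ Wd η, ang p (sinv T' τ) < Real.pi := fun p τ hτ =>
    ang_lt p (sinv_mem hT' (hm hτ))
  have c1 := cmp_v1 hT hT' h hTI
  have c2 := cmp_v2 hT hT' h hTI
  have c3 := cmp_negOne hT hT' h hTI
  have c4 := cmp_one hT hT' h hTI
  have d1 := gen (fun τ => ang u₁ (sinv T' τ)) (fun τ => ang v₁ (sinv T τ))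
    ((bv_harm hT' u₁).mono hm) (bv_harm hT v₁) (hlt' u₁) (hpos v₁) (fun τ₀ hτ h0 h1 h2 => by
      rcases ph1_same h (ph1_bv_v1 hT) (ph1_bv_v1 hT') hτ h0 h1 h2 with ⟨x, h3, h4⟩ | h3
      · exact Or.inl ⟨x, h4, h3⟩
      · exact Or.inr h3)
  have d2 := gen (fun τ => ang v₂ (sinv T τ)) (fun τ => ang u₂ (sinv T' τ))
    (bv_harm hT v₂) ((bv_harm hT' u₂).mono hm) (hlt v₂) (hpos' u₂) (fun τ₀ hτ h0 h1 h2 =>
      ph1_same h (ph1_bv_v2 hT) (ph1_bv_v2 hT') hτ h0 h1 h2)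
  have d3 := gen (fun τ => ang (-1) (sinv T τ)) (fun τ => ang (-1) (sinv T' τ))
    (bv_harm hT (-1)) ((bv_harm hT' (-1)).mono hm) (hlt (-1)) (hpos' (-1))
    (fun τ₀ hτ h0 h1 h2 => ph1_same h (ph1_bv_neg hT) (ph1_bv_neg hT') hτ h0 h1 h2)
  have d4 := gen (fun τ => ang 1 (sinv T τ)) (fun τ => ang 1 (sinv T' τ))
    (bv_harm hT 1) ((bv_harm hT' 1).mono hm) (hlt 1) (hpos' 1)
    (fun τ₀ hτ h0 h1 h2 => ph1_same h (ph1_bv_one hT) (ph1_bv_one hT') hτ h0 h1 h2)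
  simp only [hS] at c1 c2 c3 c4 d1 d2 d3 d4
  refine ⟨abs_le.2 ⟨?_, ?_⟩, abs_le.2 ⟨?_, ?_⟩, abs_le.2 ⟨?_, ?_⟩, abs_le.2 ⟨?_, ?_⟩⟩ <;> linarith

end Pool.Agent.Choc
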