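import Pool.Agent.Lib.MP_2b3e36_an.Re.PG1
import Pool.Agent.Lib.MP_2b3e36_an.Re.PH1

/-!
PH2. Models with a slightly smaller `η'`: the angles at the image of `I`.

Proof. Fix `T` (`η`); let `η - δ < η' ≤ η`, `S = sinv T` on `Wd η`, `S' = sinv T'` on `Wd η' ⊆ Wd η`.
By `bv_tip` and `ang_right`, `ang_left` (`v₁ < vc < v₂`) there is `δ > 0` such that for `η - δ < t < η` (`t > 0`,
so `-1 + t I ∈ Wd η`): `ang v₁ (S (-1 + t I)) ≤ ε`, `ang v₂ (S (-1 + t I)) ≥ pi - ε`,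
`ang (∓1) (S (-1 + t I)) ≥ pi - ε`. Moreover `T I ∈ Wd η'` if `δ` is small (if `(T I).re = -1` then
`(T I).im < η`). On `Wd η'`: `ang v₁ (S τ) - ang u₁ (S' τ) ≤ ε`, `ang u₂ (S' τ) - ang v₂ (S τ) ≤ ε`,
`ang (∓1) (S' τ) - ang (∓1) (S τ) ≤ ε`: `max_uh` with `Ω = Wd η'`, `F = {0, -1, -2}` (subtract `ε`). At
`Vert 0`, `Vert (-2)`, free, `Sig` and at `-1 + t I`, `t ≥ η`, both angles have the same limit. At `-1 + t I`,
`η' ≤ t < η`: `ang u₁ (S' τ) → 0`, `ang u₂ (S' τ) → pi`, `S τ → S (-1 + t I)` (continuity at the interior point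
of `Wd η`), so the upper limit is `≤ ε`. Together with PG1 (`cmp_v1 hT' hT` etc.) all differences at
`τ = T I` are at most `ε` in absolute value; `S (T I) = I`, `w = S' (T I)`.
-/

set_option autoImplicit false

open Complex Set Filter Topology Metric

namespace Pool.Agent.Choc

theorem left_close {η : ℝ} {T : ℂ → ℂ} {v₁ v₂ vc : ℝ} (hT : Model2 η T v₁ v₂ vc) {ε : ℝ}
    (hε : 0 < ε) :
    ∃ δ > 0, ∀ (η' : ℝ) (T' : ℂ → ℂ) (u₁ u₂ uc : ℝ), η - δ < η' → η' ≤ η →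
      Model2 η' T' u₁ u₂ uc → ∃ w ∈ UH, |ang u₁ w - ang v₁ I| ≤ ε ∧ |ang u₂ w - ang v₂ I| ≤ ε ∧
      |ang (-1) w - ang (-1) I| ≤ ε ∧ |ang 1 w - ang 1 I| ≤ ε := by
  have hI : I ∈ UH := by
    change 0 < I.im
    simp
  have hl1 := hT.lt1
  have hl2 := hT.lt2
  have hl3 := hT.lt3
  have hTI : T I ∈ Wd η := by
    rw [← hT.img]; exact mem_image_of_mem T hI
  have hS : sinv T (T I) = I := sinv_model hT hI
  -- values near the tip
  have hev : ∀ᶠ τ in 𝓝[Wd η] (-1 + η * I : ℂ), ang v₁ (sinv T τ) < ε ∧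
      Real.pi - ε < ang v₂ (sinv T τ) ∧ Real.pi - ε < ang (-1) (sinv T τ) ∧
      Real.pi - ε < ang 1 (sinv T τ) := by
    have e1 := ((ang_right hl1).comp (bv_tip hT)).eventually_lt_const hε
    have e2 := ((ang_left hl2).comp (bv_tip hT)).eventually_const_lt
      (show Real.pi - ε < Real.pi by linarith)
    have e3 := ((ang_left (show vc < -1 by linarith)).comp (bv_tip hT)).eventually_const_lt
      (show Real.pi - ε < Real.pi by linarith)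
    have e4 := ((ang_left (show vc < 1 by linarith)).comp (bv_tip hT)).eventually_const_lt
      (show Real.pi - ε < Real.pi by linarith)
    filter_upwards [e1, e2, e3, e4] with τ h1 h2 h3 h4
    exact ⟨h1, h2, h3, h4⟩
  obtain ⟨r, hr, hball⟩ := Metric.mem_nhdsWithin_iff.1 hev
  -- the image of `I` stays in the smaller region
  obtain ⟨s, hs, hs'⟩ : ∃ s > 0, (T I).re = -1 → (T I).im ≤ η - s := by
    by_cases h1 : (T I).re = -1
    · have h2 : (T I).im < η := by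
        by_contra h3
        exact hTI.2.2.2.2 ⟨h1, not_lt.1 h3⟩
      exact ⟨η - (T I).im, by linarith, fun _ => by linarith⟩
    · exact ⟨1, one_pos, fun h => absurd h h1⟩
  refine ⟨min r s, lt_min hr hs, ?_⟩
  intro η' T' u₁ u₂ uc h' h hT'
  have hδr : min r s ≤ r := min_le_left _ _
  have hδs : min r s ≤ s := min_le_right _ _
  have hTI' : T I ∈ Wd η' := by
    refine ⟨hTI.1, hTI.2.1, hTI.2.2.1, hTI.2.2.2.1, ?_⟩
    rintro ⟨h1, h2⟩
    have := hs' h1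
    linarith
  have hm := wd_mono h
  refine ⟨sinv T' (T I), sinv_mem hT' hTI', ?_⟩
  -- points of the slit below the tip
  have hnear : ∀ τ₀ : ℂ, τ₀.re = -1 → η' ≤ τ₀.im → τ₀.im < η →
      ∀ᶠ τ in 𝓝[Wd η'] τ₀, ang v₁ (sinv T τ) < ε ∧
      Real.pi - ε < ang v₂ (sinv T τ) ∧ Real.pi - ε < ang (-1) (sinv T τ) ∧
      Real.pi - ε < ang 1 (sinv T τ) := by
    intro τ₀ h1 h2 h3
    have h4 : τ₀ ∈ ball (-1 + η * I : ℂ) r := by
      rw [mem_ball, dist_eq_norm]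
      have h5 : τ₀ - (-1 + η * I) = ((τ₀.im - η : ℝ) : ℂ) * I := by
        apply Complex.ext
        · simp [h1]
        · simp
      rw [h5, norm_mul, Complex.norm_I, mul_one, Complex.norm_real, Real.norm_eq_abs, abs_lt]
      constructor <;> linarith
    filter_upwards [self_mem_nhdsWithin,
      mem_nhdsWithin_of_mem_nhds (isOpen_ball.mem_nhds h4)] with τ h5 h6
    exact hball ⟨h6, hm h5⟩
  have gen : ∀ f g : ℂ → ℝ, InnerProductSpace.HarmonicOnNhd f (Wd η') →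
      InnerProductSpace.HarmonicOnNhd g (Wd η') → (∀ τ ∈ Wd η', f τ < Real.pi) →
      (∀ τ ∈ Wd η', 0 < g τ) →
      (∀ τ₀ ∈ frontier (Wd η'), τ₀ ≠ 0 → τ₀ ≠ -1 → τ₀ ≠ -2 →
        (∃ x, Tendsto f (𝓝[Wd η'] τ₀) (𝓝 x) ∧ Tendsto g (𝓝[Wd η'] τ₀) (𝓝 x)) ∨
          (∀ᶠ τ in 𝓝[Wd η'] τ₀, f τ - g τ < ε)) → f (T I) - g (T I) ≤ ε := by
    intro f g hf hg hfp hg0 hbd
    exact ph1_max (ω := fun _ => ε) hf hg (InnerProductSpace.harmonicOnNhd_const ε) hfp hg0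
      (fun _ _ => hε.le) (fun τ₀ hτ h0 h1 h2 => by
        rcases hbd τ₀ hτ h0 h1 h2 with h3 | h3
        · exact Or.inl h3
        · refine Or.inr fun e he => ?_
          filter_upwards [h3] with τ h4
          linarith) (T I) hTI'
  have hpos : ∀ p : ℝ, ∀ τ ∈ Wd η', 0 < ang p (sinv T τ) := fun p τ hτ =>
    ang_pos p (sinv_mem hT (hm hτ))
  have hlt : ∀ p : ℝ, ∀ τ ∈ Wd η', ang p (sinv T τ) < Real.pi := fun p τ hτ =>
    ang_lt p (sinv_mem hT (hm hτ))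
  have hpos' : ∀ p : ℝ, ∀ τ ∈ Wd η', 0 < ang p (sinv T' τ) := fun p τ hτ =>
    ang_pos p (sinv_mem hT' hτ)
  have hlt' : ∀ p : ℝ, ∀ τ ∈ Wd η', ang p (sinv T' τ) < Real.pi := fun p τ hτ =>
    ang_lt p (sinv_mem hT' hτ)
  have c1 := cmp_v1 hT' hT h hTI'
  have c2 := cmp_v2 hT' hT h hTI'
  have c3 := cmp_negOne hT' hT h hTI'
  have c4 := cmp_one hT' hT h hTI'
  have d1 := gen (fun τ => ang v₁ (sinv T τ)) (fun τ => ang u₁ (sinv T' τ))
    ((bv_harm hT v₁).mono hm) (bv_harm hT' u₁) (hlt v₁) (hpos' u₁) (fun τ₀ hτ h0 h1 h2 => by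
      rcases ph1_same h (ph1_bv_v1 hT') (ph1_bv_v1 hT) hτ h0 h1 h2 with ⟨x, h3, h4⟩ | ⟨h3, h4, h5⟩
      · exact Or.inl ⟨x, h4, h3⟩
      · refine Or.inr ?_
        filter_upwards [hnear τ₀ h3 h4 h5, self_mem_nhdsWithin] with τ h6 h7
        have h8 := hpos' u₁ τ h7
        linarith [h6.1])
  have d2 := gen (fun τ => ang u₂ (sinv T' τ)) (fun τ => ang v₂ (sinv T τ))
    (bv_harm hT' u₂) ((bv_harm hT v₂).mono hm) (hlt' u₂) (hpos v₂) (fun τ₀ hτ h0 h1 h2 => by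
      rcases ph1_same h (ph1_bv_v2 hT') (ph1_bv_v2 hT) hτ h0 h1 h2 with ⟨x, h3, h4⟩ | ⟨h3, h4, h5⟩
      · exact Or.inl ⟨x, h3, h4⟩
      · refine Or.inr ?_
        filter_upwards [hnear τ₀ h3 h4 h5, self_mem_nhdsWithin] with τ h6 h7
        have h8 := hlt' u₂ τ h7
        linarith [h6.2.1])
  have d3 := gen (fun τ => ang (-1) (sinv T' τ)) (fun τ => ang (-1) (sinv T τ))
    (bv_harm hT' (-1)) ((bv_harm hT (-1)).mono hm) (hlt' (-1)) (hpos (-1))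
    (fun τ₀ hτ h0 h1 h2 => by
      rcases ph1_same h (ph1_bv_neg hT') (ph1_bv_neg hT) hτ h0 h1 h2 with
        ⟨x, h3, h4⟩ | ⟨h3, h4, h5⟩
      · exact Or.inl ⟨x, h3, h4⟩
      · refine Or.inr ?_
        filter_upwards [hnear τ₀ h3 h4 h5, self_mem_nhdsWithin] with τ h6 h7
        have h8 := hlt' (-1) τ h7
        linarith [h6.2.2.1])
  have d4 := gen (fun τ => ang 1 (sinv T' τ)) (fun τ => ang 1 (sinv T τ))
    (bv_harm hT' 1) ((bv_harm hT 1).mono hm) (hlt' 1) (hpos 1)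
    (fun τ₀ hτ h0 h1 h2 => by
      rcases ph1_same h (ph1_bv_one hT') (ph1_bv_one hT) hτ h0 h1 h2 with
        ⟨x, h3, h4⟩ | ⟨h3, h4, h5⟩
      · exact Or.inl ⟨x, h3, h4⟩
      · refine Or.inr ?_
        filter_upwards [hnear τ₀ h3 h4 h5, self_mem_nhdsWithin] with τ h6 h7
        have h8 := hlt' 1 τ h7
        linarith [h6.2.2.2])
  simp only [hS] at c1 c2 c3 c4 d1 d2 d3 d4
  refine ⟨abs_le.2 ⟨?_, ?_⟩, abs_le.2 ⟨?_, ?_⟩, abs_le.2 ⟨?_, ?_⟩, abs_le.2 ⟨?_, ?_⟩⟩ <;> linarith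

end Pool.Agent.Choc
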