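import Pool.Agent.Lib.MP_2b3e36_an.Re.PH1
import Pool.Agent.Lib.MP_2b3e36_an.Re.PH2
import Pool.Agent.Lib.MP_2b3e36_an.Re.PB3

/-!
PH3. Continuity of the ends from the left and from the right.

Proof. `cross_close` (PB3) gives `ε'` for `ε`, `right_close`, `left_close` (PH1, PH2) give `δ` for `ε'`.
-/

set_option autoImplicit false

open Complex Set Filter Topology Metric

namespace Pool.Agent.Choc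

theorem ends_right {η : ℝ} {T : ℂ → ℂ} {v₁ v₂ vc : ℝ} (hT : Model2 η T v₁ v₂ vc) {ε : ℝ}
    (hε : 0 < ε) :
    ∃ δ > 0, ∀ (η' : ℝ) (T' : ℂ → ℂ) (u₁ u₂ uc : ℝ), η ≤ η' → η' < η + δ →
      Model2 η' T' u₁ u₂ uc → ea u₁ u₂ ≤ ea v₁ v₂ + ε ∧ ec u₁ u₂ ≤ ec v₁ v₂ + ε := by
  obtain ⟨ε', hε', hc⟩ := cross_close (hT.lt1.trans hT.lt2) hT.lt3 hε
  obtain ⟨δ, hδ, hr⟩ := right_close hT hε'
  refine ⟨δ, hδ, fun η' T' u₁ u₂ uc h1 h2 hT' => ?_⟩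
  obtain ⟨w, hw, a1, a2, a3, a4⟩ := hr η' T' u₁ u₂ uc h1 h2 hT'
  obtain ⟨b1, b2⟩ := hc u₁ u₂ (hT'.lt1.trans hT'.lt2) hT'.lt3 w hw a1 a2 a3 a4
  rw [abs_le] at b1 b2
  exact ⟨by linarith [b1.2], by linarith [b2.2]⟩

theorem ends_left {η : ℝ} {T : ℂ → ℂ} {v₁ v₂ vc : ℝ} (hT : Model2 η T v₁ v₂ vc) {ε : ℝ}
    (hε : 0 < ε) :
    ∃ δ > 0, ∀ (η' : ℝ) (T' : ℂ → ℂ) (u₁ u₂ uc : ℝ), η - δ < η' → η' ≤ η →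
      Model2 η' T' u₁ u₂ uc → ea v₁ v₂ - ε ≤ ea u₁ u₂ ∧ ec v₁ v₂ - ε ≤ ec u₁ u₂ := by
  obtain ⟨ε', hε', hc⟩ := cross_close (hT.lt1.trans hT.lt2) hT.lt3 hε
  obtain ⟨δ, hδ, hr⟩ := left_close hT hε'
  refine ⟨δ, hδ, fun η' T' u₁ u₂ uc h1 h2 hT' => ?_⟩
  obtain ⟨w, hw, a1, a2, a3, a4⟩ := hr η' T' u₁ u₂ uc h1 h2 hT'
  obtain ⟨b1, b2⟩ := hc u₁ u₂ (hT'.lt1.trans hT'.lt2) hT'.lt3 w hw a1 a2 a3 a4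
  rw [abs_le] at b1 b2
  exact ⟨by linarith [b1.1], by linarith [b2.1]⟩

end Pool.Agent.Choc
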