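import Pool.Agent.Lib.MP_2b3e36_an.Re.PA
import Pool.Agent.Lib.MP_2b3e36_an.Re.PF1

/-!
PK1. Small `η`: three bounds at the point `P = -1/2 + 2 I`.
-/

set_option autoImplicit false

open Complex Set Filter Topology Metric

namespace Pool.Agent.Choc

variable {η : ℝ} {T : ℂ → ℂ} {v₁ v₂ vc : ℝ}

/-- the maximum principle in the form used below -/
theorem pk1_key {Ω : Set ℂ} (ho : IsOpen Ω) (hs : Ω ⊆ Wd η) {F : Set ℂ}
    (hF : F.Finite) {u : ℂ → ℝ} (hu : InnerProductSpace.HarmonicOnNhd u Ω) {M : ℝ}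
    (hM : ∀ z ∈ Ω, u z ≤ M)
    (hbd : ∀ ζ ∈ closure Ω, ζ ∉ Ω → ζ ∉ F → ∃ c : ℝ, c ≤ 0 ∧ Tendsto u (𝓝[Ω] ζ) (𝓝 c)) :
    ∀ z ∈ Ω, u z ≤ 0 := by
  refine max_uh ho (hs.trans (wd_subset η)) hF hu hM (fun ζ hζ hζF ε hε => ?_)
  rw [ho.frontier_eq] at hζ
  obtain ⟨c, hc, ht⟩ := hbd ζ hζ.1 hζ.2 hζF
  exact ht.eventually (eventually_lt_nhds (by linarith : c < ε))

theorem pk1_cont (hT : Model2 η T v₁ v₂ vc) (p : ℝ) {Ω : Set ℂ} {ζ : ℂ} (hζ : ζ ∈ Wd η) :
    Tendsto (fun τ => ang p (sinv T τ)) (𝓝[Ω] ζ) (𝓝 (ang p (sinv T ζ))) :=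
  ((bv_harm hT p ζ hζ).1.continuousAt).tendsto.mono_left nhdsWithin_le_nhds

theorem pk1_pos (hT : Model2 η T v₁ v₂ vc) (p : ℝ) {ζ : ℂ} (hζ : ζ ∈ Wd η) :
    0 < ang p (sinv T ζ) := ang_pos p (sinv_mem hT hζ)

theorem pk1_lt (hT : Model2 η T v₁ v₂ vc) (p : ℝ) {ζ : ℂ} (hζ : ζ ∈ Wd η) :
    ang p (sinv T ζ) < Real.pi := ang_lt p (sinv_mem hT hζ)

theorem pk1_wd {τ : ℂ} (h1 : 1 / 2 < τ.im) (h2 : -2 < τ.re) (h3 : τ.re < 0)
    (h4 : ¬(τ.re = -1 ∧ η ≤ τ.im)) : τ ∈ Wd η := by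
  refine ⟨by linarith, h2, h3, ?_, h4⟩
  have h5 : |(τ + 1 / 2).im| ≤ ‖τ + 1 / 2‖ := abs_im_le_norm _
  have h6 : (τ + 1 / 2).im = τ.im := by
    simp
  rw [h6] at h5
  linarith [le_abs_self τ.im]

theorem small_mem (hη : 0 < η) : (-1 / 2 + 2 * I : ℂ) ∈ Wd η := by
  have e1 : (-1 / 2 + 2 * I : ℂ).im = 2 := by
    simp
  have e2 : (-1 / 2 + 2 * I : ℂ).re = -1 / 2 := by
    simp
  refine pk1_wd ?_ ?_ ?_ ?_
  · rw [e1]; norm_num
  · rw [e2]; norm_num
  · rw [e2]; norm_num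
  · rw [e2]; norm_num

/-- the centre is at distance at least `1/4` -/
theorem pk1_log_le {a R : ℝ} (hR : 1 < R) (h : 1 / R ≤ a) :
    -(Real.pi / Real.log R) * Real.log a ≤ Real.pi := by
  have h1 : 0 < Real.log R := Real.log_pos hR
  have h2 : Real.log (1 / R) ≤ Real.log a :=
    Real.log_le_log (by positivity) h
  rw [one_div, Real.log_inv] at h2
  have h3 : -(Real.pi / Real.log R) * Real.log a = Real.pi / Real.log R * (-Real.log a) := by ring
  rw [h3]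
  calc Real.pi / Real.log R * (-Real.log a) ≤ Real.pi / Real.log R * Real.log R :=
        mul_le_mul_of_nonneg_left (by linarith) (by positivity)
    _ = Real.pi := by field_simp

theorem pk1_harm_log {c ζ : ℂ} (h : ζ ≠ c) (A : ℝ) :
    InnerProductSpace.HarmonicAt (fun τ : ℂ => A * Real.log ‖τ - c‖) ζ := by
  have h1 : AnalyticAt ℂ (fun τ : ℂ => τ - c) ζ := analyticAt_id.sub analyticAt_const
  exact (h1.harmonicAt_log_norm (sub_ne_zero.mpr h)).const_smul (c := A)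

theorem small_slit (hT : Model2 η T v₁ v₂ vc) (hη : η ≤ 1) :
    Real.pi * (Real.log (4 / 3) / Real.log 4) ≤
      ang v₂ (sinv T (-1 / 2 + 2 * I)) - ang v₁ (sinv T (-1 / 2 + 2 * I)) := by
  set c : ℂ := -5 / 4 + 2 * I with hc
  have hcre : c.re = -5 / 4 := by
    simp [hc]
  have hcim : c.im = 2 := by
    simp [hc]
  set Ω : Set ℂ := {τ | -1 < τ.re} ∩ {τ | ‖τ - c‖ < 1} with hΩ
  have ho : IsOpen Ω := (isOpen_lt continuous_const continuous_re).inter
    (isOpen_lt (by fun_prop) continuous_const)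
  have hcl : closure Ω ⊆ {τ | -1 ≤ τ.re} ∩ {τ | ‖τ - c‖ ≤ 1} := by
    refine closure_minimal (fun τ h => ?_) ?_
    · have h1 : -1 < τ.re := h.1
      have h2 : ‖τ - c‖ < 1 := h.2
      exact ⟨h1.le, h2.le⟩
    · exact (isClosed_le continuous_const continuous_re).inter
        (isClosed_le (by fun_prop) continuous_const)
  have hbox : ∀ τ : ℂ, ‖τ - c‖ ≤ 1 → 1 ≤ τ.im ∧ τ.re ≤ -1 / 4 := by
    intro τ h
    have h1 := abs_re_le_norm (τ - c)
    have h2 := abs_im_le_norm (τ - c)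
    rw [sub_re, hcre] at h1
    rw [sub_im, hcim] at h2
    have h3 := abs_le.mp (h1.trans h)
    have h4 := abs_le.mp (h2.trans h)
    constructor <;> linarith
  have hdist : ∀ τ : ℂ, -1 ≤ τ.re → 1 / 4 ≤ ‖τ - c‖ := by
    intro τ h
    have h1 := abs_re_le_norm (τ - c)
    rw [sub_re, hcre] at h1
    linarith [le_abs_self (τ.re - -5 / 4)]
  have hin : ∀ τ : ℂ, -1 < τ.re → ‖τ - c‖ ≤ 1 → τ ∈ Wd η := by
    intro τ h1 h2
    obtain ⟨h3, h4⟩ := hbox τ h2
    exact pk1_wd (by linarith) (by linarith) (by linarith) (fun h => by linarith [h.1])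
  have hs : Ω ⊆ Wd η := fun τ h => hin τ h.1 (le_of_lt h.2)
  have hne : ∀ τ : ℂ, -1 ≤ τ.re → τ ≠ c := by
    intro τ h he
    rw [he, hcre] at h
    linarith
  set g : ℂ → ℝ := fun τ => -(Real.pi / Real.log 4) * Real.log ‖τ - c‖ with hg
  have hgle : ∀ τ : ℂ, -1 ≤ τ.re → g τ ≤ Real.pi := by
    intro τ h
    have h1 := hdist τ h
    exact pk1_log_le (by norm_num) h1
  have hmain : ∀ z ∈ Ω, (g z - ang v₂ (sinv T z)) + ang v₁ (sinv T z) ≤ 0 := by
    refine pk1_key (η := η) (F := ∅) (M := 2 * Real.pi)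
      (u := fun z => (g z - ang v₂ (sinv T z)) + ang v₁ (sinv T z)) ho hs Set.finite_empty ?_ ?_ ?_
    · intro z hz
      exact ((pk1_harm_log (hne z hz.1.le) _).sub (bv_harm hT v₂ z (hs hz))).add
        (bv_harm hT v₁ z (hs hz))
    · intro z hz
      have h1 := hgle z hz.1.le
      have h2 := pk1_pos hT v₂ (hs hz)
      have h3 := pk1_lt hT v₁ (hs hz)
      show (g z - ang v₂ (sinv T z)) + ang v₁ (sinv T z) ≤ _
      linarith
    · intro ζ hζ hζΩ _
      obtain ⟨h1, h2⟩ := hcl hζ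
      have h1' : -1 ≤ ζ.re := h1
      have h2' : ‖ζ - c‖ ≤ 1 := h2
      have hgt : Tendsto g (𝓝[Ω] ζ) (𝓝 (g ζ)) :=
        (pk1_harm_log (hne ζ h1') _).1.continuousAt.tendsto.mono_left nhdsWithin_le_nhds
      rcases eq_or_lt_of_le h1' with h3 | h3
      · have hη' : η ≤ ζ.im := by linarith [(hbox ζ h2').1]
        have t1 := (bv_slit1 hT (le_refl v₂) h3.symm hη').mono_left (nhdsWithin_mono ζ hs)
        have t2 := (bv_slit0 hT (le_refl v₁) h3.symm hη').mono_left (nhdsWithin_mono ζ hs)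
        exact ⟨_, by linarith [hgle ζ h1'], (hgt.sub t1).add t2⟩
      · have h4 : ‖ζ - c‖ = 1 := by
          refine le_antisymm h2' (not_lt.mp (fun h => hζΩ ⟨h3, h⟩))
        have h5 := hin ζ h3 h2'
        refine ⟨_, ?_, (hgt.sub (pk1_cont hT v₂ h5)).add (pk1_cont hT v₁ h5)⟩
        have h6 : g ζ = 0 := by
          rw [hg]
          simp only [h4, Real.log_one, mul_zero]
        have h7 := ang_mono (by linarith [hT.lt1, hT.lt2] : v₁ < v₂) (sinv_mem hT h5)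
        rw [h6]
        linarith
  have hPc : ‖(-1 / 2 + 2 * I : ℂ) - c‖ = 3 / 4 := by
    have e : (-1 / 2 + 2 * I : ℂ) - c = ((3 / 4 : ℝ) : ℂ) := by
      rw [hc]
      push_cast
      ring
    rw [e, norm_real, Real.norm_of_nonneg (by norm_num)]
  have hP : (-1 / 2 + 2 * I : ℂ) ∈ Ω := by
    refine ⟨?_, ?_⟩
    · show -1 < (-1 / 2 + 2 * I : ℂ).re
      simp
      norm_num
    · show ‖(-1 / 2 + 2 * I : ℂ) - c‖ < 1
      rw [hPc]
      norm_num
  have h1 := hmain _ hP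
  have h2 : g (-1 / 2 + 2 * I) = Real.pi * (Real.log (4 / 3) / Real.log 4) := by
    rw [hg]
    simp only [hPc]
    have e : Real.log (4 / 3) = -Real.log (3 / 4) := by
      rw [← Real.log_inv]
      norm_num
    rw [e]
    ring
  rw [h2] at h1
  linarith

/-- the half region on the right of the slit -/
def pk1_Om : Set ℂ := {τ | 0 < τ.im ∧ -1 < τ.re ∧ τ.re < 0 ∧ 1 / 2 < ‖τ + 1 / 2‖}

theorem pk1_normc : Continuous (fun τ : ℂ => ‖τ + 1 / 2‖) := by fun_prop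

theorem pk1_Om_open : IsOpen pk1_Om := by
  refine (isOpen_lt continuous_const continuous_im).inter
    ((isOpen_lt continuous_const continuous_re).inter
    ((isOpen_lt continuous_re continuous_const).inter
    (isOpen_lt continuous_const pk1_normc)))

theorem pk1_Om_sub : pk1_Om ⊆ Wd η := fun _ h =>
  ⟨h.1, by linarith [h.2.1], h.2.2.1, h.2.2.2, fun h' => by linarith [h.2.1, h'.1]⟩

theorem pk1_Om_cl {ζ : ℂ} (h : ζ ∈ closure pk1_Om) (hn : ζ ∉ pk1_Om) (h0 : ζ ≠ 0)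
    (h1 : ζ ≠ -1) : ζ ∈ Vert 0 ∨ (ζ.re = -1 ∧ η ≤ ζ.im) ∨
      (ζ.re = -1 ∧ 0 < ζ.im ∧ ζ.im < η ∧ ζ ∈ Wd η) ∨ (ζ ∈ Sig ∧ -1 < ζ.re ∧ ζ.re < 0) := by
  have hcl : closure pk1_Om ⊆ {τ | 0 ≤ τ.im ∧ -1 ≤ τ.re ∧ τ.re ≤ 0 ∧ 1 / 2 ≤ ‖τ + 1 / 2‖} := by
    refine closure_minimal (fun τ h => ⟨h.1.le, h.2.1.le, h.2.2.1.le, h.2.2.2.le⟩) ?_
    exact (isClosed_le continuous_const continuous_im).inter
      ((isClosed_le continuous_const continuous_re).inter
      ((isClosed_le continuous_re continuous_const).inter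
      (isClosed_le continuous_const pk1_normc)))
  obtain ⟨a1, a2, a3, a4⟩ := hcl h
  have hsq : ‖ζ + 1 / 2‖ ^ 2 = (ζ.re + 1 / 2) ^ 2 + ζ.im ^ 2 := by
    rw [← normSq_eq_norm_sq, normSq_apply]
    have e1 : (ζ + 1 / 2).re = ζ.re + 1 / 2 := by simp
    have e2 : (ζ + 1 / 2).im = ζ.im := by simp
    rw [e1, e2]
    ring
  rcases eq_or_lt_of_le a1 with b1 | b1
  · exfalso
    rw [← b1] at hsq
    have b2 : ζ.re = 0 ∨ ζ.re = -1 := by
      by_contra hcon
      push Not at hcon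
      have c1 : ζ.re < 0 := lt_of_le_of_ne a3 hcon.1
      have c2 : -1 < ζ.re := lt_of_le_of_ne a2 (Ne.symm hcon.2)
      nlinarith
    rcases b2 with b2 | b2
    · exact h0 (Complex.ext (by simp [b2]) (by simp [← b1]))
    · exact h1 (Complex.ext (by simp [b2]) (by simp [← b1]))
  · rcases eq_or_lt_of_le a3 with b2 | b2
    · exact Or.inl ⟨b2, b1⟩
    · rcases eq_or_lt_of_le a2 with b3 | b3
      · rcases le_or_gt η ζ.im with b4 | b4
        · exact Or.inr (Or.inl ⟨b3.symm, b4⟩)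
        · refine Or.inr (Or.inr (Or.inl ⟨b3.symm, b1, b4, b1, by linarith, b2, ?_, ?_⟩))
          · rw [← b3] at hsq
            have : 0 < ζ.im ^ 2 := by positivity
            nlinarith [norm_nonneg (ζ + 1 / 2)]
          · intro h'
            linarith [h'.2]
      · refine Or.inr (Or.inr (Or.inr ⟨⟨b1, ?_⟩, b3, b2⟩))
        exact le_antisymm (not_lt.mp (fun h' => hn ⟨b1, b3, b2, h'⟩)) a4

theorem pk1_P_mem : (-1 / 2 + 2 * I : ℂ) ∈ pk1_Om := by
  have e1 : (-1 / 2 + 2 * I : ℂ).im = 2 := by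
    simp
  have e2 : (-1 / 2 + 2 * I : ℂ).re = -1 / 2 := by
    simp
  have e3 : ‖(-1 / 2 + 2 * I : ℂ) + 1 / 2‖ = 2 := by
    have : (-1 / 2 + 2 * I : ℂ) + 1 / 2 = 2 * I := by ring
    rw [this]
    simp
  refine ⟨?_, ?_, ?_, ?_⟩
  · rw [e1]; norm_num
  · rw [e2]; norm_num
  · rw [e2]; norm_num
  · rw [e3]; norm_num

theorem pk1_exp_im (τ : ℂ) : (exp (Real.pi * I * τ)).im =
    Real.exp (-(Real.pi * τ.im)) * Real.sin (Real.pi * τ.re) := by
  rw [exp_im]
  have e1 : (Real.pi * I * τ).re = -(Real.pi * τ.im) := by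
    simp [mul_re, mul_im]
  have e2 : (Real.pi * I * τ).im = Real.pi * τ.re := by
    simp [mul_re, mul_im]
  rw [e1, e2]

theorem small_arc (hT : Model2 η T v₁ v₂ vc) :
    Real.pi * Real.exp (-(2 * Real.pi)) ≤ Real.pi - ang 1 (sinv T (-1 / 2 + 2 * I)) := by
  have hpi := Real.pi_pos
  set G : ℂ → ℂ := fun τ => ((-Real.pi : ℝ) : ℂ) * exp (Real.pi * I * τ) - (Real.pi : ℝ) * I
    with hG
  have hGim : ∀ τ, (G τ).im =
      -(Real.pi * (Real.exp (-(Real.pi * τ.im)) * Real.sin (Real.pi * τ.re))) - Real.pi := by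
    intro τ
    rw [hG]
    simp only []
    rw [sub_im, im_ofReal_mul, im_ofReal_mul, pk1_exp_im, I_im]
    ring
  have hGan : ∀ ζ, InnerProductSpace.HarmonicAt (fun τ => (G τ).im) ζ := by
    intro ζ
    have h1 : Differentiable ℂ G := by
      rw [hG]
      fun_prop
    exact (h1.analyticAt ζ).harmonicAt_im
  have hGle : ∀ τ : ℂ, 0 ≤ τ.im → -1 ≤ τ.re → τ.re ≤ 0 → (G τ).im ≤ 0 := by
    intro τ h1 h2 h3
    rw [hGim]
    have e1 : Real.exp (-(Real.pi * τ.im)) ≤ 1 := Real.exp_le_one_iff.mpr (by nlinarith)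
    have e2 := (Real.exp_pos (-(Real.pi * τ.im))).le
    have e3 : Real.sin (Real.pi * τ.re) ≤ 0 :=
      Real.sin_nonpos_of_nonpos_of_neg_pi_le (by nlinarith) (by nlinarith)
    have e4 := Real.neg_one_le_sin (Real.pi * τ.re)
    have e5 : -1 ≤ Real.exp (-(Real.pi * τ.im)) * Real.sin (Real.pi * τ.re) := by nlinarith
    nlinarith
  have hmain : ∀ z ∈ pk1_Om, ang 1 (sinv T z) + (G z).im ≤ 0 := by
    refine pk1_key (η := η) (F := {0, -1}) (M := Real.pi)
      (u := fun z => ang 1 (sinv T z) + (G z).im) pk1_Om_open pk1_Om_sub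
      (Set.toFinite _) ?_ ?_ ?_
    · intro z hz
      exact (bv_harm hT 1 z (pk1_Om_sub hz)).add (hGan z)
    · intro z hz
      have h1 := pk1_lt hT 1 (pk1_Om_sub hz)
      have h2 := hGle z hz.1.le hz.2.1.le hz.2.2.1.le
      show ang 1 (sinv T z) + (G z).im ≤ _
      linarith
    · intro ζ hζ hζΩ hF
      have h0 : ζ ≠ 0 := fun h => hF (by simp [h])
      have h1 : ζ ≠ -1 := fun h => hF (by simp [h])
      have hgt : Tendsto (fun τ => (G τ).im) (𝓝[pk1_Om] ζ) (𝓝 (G ζ).im) :=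
        (hGan ζ).1.continuousAt.tendsto.mono_left nhdsWithin_le_nhds
      have hmono := nhdsWithin_mono ζ (pk1_Om_sub (η := η))
      rcases pk1_Om_cl (η := η) hζ hζΩ h0 h1 with h2 | ⟨h2, h3⟩ | ⟨h2, h3, h4, h5⟩ | ⟨h2, h3, h4⟩
      · have t1 := (bv_vert0 hT (p := 1) (by linarith [hT.lt1, hT.lt2, hT.lt3]) h2).mono_left hmono
        refine ⟨_, ?_, t1.add hgt⟩
        rw [hGim, h2.1, mul_zero, Real.sin_zero]
        linarith
      · have t1 := (bv_slit1 hT (p := 1) (by linarith [hT.lt3]) h2 h3).mono_left hmono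
        refine ⟨_, ?_, t1.add hgt⟩
        rw [hGim, h2, mul_neg, mul_one, Real.sin_neg, Real.sin_pi]
        linarith
      · refine ⟨_, ?_, (pk1_cont hT 1 h5).add hgt⟩
        rw [hGim, h2, mul_neg, mul_one, Real.sin_neg, Real.sin_pi]
        linarith [pk1_lt hT 1 h5]
      · have t1 := (bv_arc hT (le_refl 1) h2).mono_left hmono
        refine ⟨_, ?_, t1.add hgt⟩
        have := hGle ζ h2.1.le h3.le h4.le
        linarith
  have h1 := hmain _ pk1_P_mem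
  have e1 : (-1 / 2 + 2 * I : ℂ).im = 2 := by
    simp
  have e2 : (-1 / 2 + 2 * I : ℂ).re = -1 / 2 := by
    simp
  rw [hGim, e1, e2] at h1
  have e3 : Real.sin (Real.pi * (-1 / 2)) = -1 := by
    have : Real.pi * (-1 / 2) = -(Real.pi / 2) := by ring
    rw [this, Real.sin_neg, Real.sin_pi_div_two]
  rw [e3, mul_comm Real.pi 2] at h1
  linarith

theorem small_left (hT : Model2 η T v₁ v₂ vc) :
    ang 1 (sinv T (-1 / 2 + 2 * I)) - ang v₂ (sinv T (-1 / 2 + 2 * I)) ≤ Real.pi * η := by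
  have hpi := Real.pi_pos
  have hη := hT.eta_pos
  have hne : ∀ ζ : ℂ, -1 ≤ ζ.re → ζ + 1 + η ≠ 0 := by
    intro ζ h he
    have h1 := congrArg re he
    simp only [add_re, one_re, ofReal_re, zero_re] at h1
    linarith
  have hre : ∀ ζ : ℂ, (1 / (ζ + 1 + η)).re = (ζ.re + 1 + η) / ((ζ.re + 1 + η) ^ 2 + ζ.im ^ 2) := by
    intro ζ
    rw [one_div, inv_re, normSq_apply]
    simp only [add_re, one_re, ofReal_re, add_im, one_im, ofReal_im, add_zero]
    congr 1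
    ring
  have hrpos : ∀ ζ : ℂ, -1 ≤ ζ.re → 0 ≤ (1 / (ζ + 1 + η)).re := by
    intro ζ h
    rw [hre]
    have : 0 < ζ.re + 1 + η := by linarith
    positivity
  set g : ℂ → ℝ := fun τ => (-(2 * Real.pi * η)) * (1 / (τ + 1 + η)).re with hg
  have hgan : ∀ ζ : ℂ, -1 ≤ ζ.re → InnerProductSpace.HarmonicAt g ζ := by
    intro ζ h
    have h1 : AnalyticAt ℂ (fun τ : ℂ => 1 / (τ + 1 + η)) ζ := by
      have h2 : AnalyticAt ℂ (fun τ : ℂ => τ + 1 + η) ζ :=
        (analyticAt_id.add analyticAt_const).add analyticAt_const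
      exact analyticAt_const.div h2 (hne ζ h)
    exact h1.harmonicAt_re.const_smul (c := -(2 * Real.pi * η))
  have hgle : ∀ ζ : ℂ, -1 ≤ ζ.re → g ζ ≤ 0 := by
    intro ζ h
    have h1 := hrpos ζ h
    rw [hg]
    have : 0 ≤ 2 * Real.pi * η := by positivity
    simp only []
    nlinarith
  have hmain : ∀ z ∈ pk1_Om, (ang 1 (sinv T z) - ang v₂ (sinv T z)) + g z ≤ 0 := by
    refine pk1_key (η := η) (F := {0, -1}) (M := Real.pi)
      (u := fun z => (ang 1 (sinv T z) - ang v₂ (sinv T z)) + g z) pk1_Om_open pk1_Om_sub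
      (Set.toFinite _) ?_ ?_ ?_
    · intro z hz
      exact ((bv_harm hT 1 z (pk1_Om_sub hz)).sub (bv_harm hT v₂ z (pk1_Om_sub hz))).add
        (hgan z hz.2.1.le)
    · intro z hz
      have h1 := pk1_lt hT 1 (pk1_Om_sub hz)
      have h2 := hgle z hz.2.1.le
      have h3 := pk1_pos hT v₂ (pk1_Om_sub hz)
      show (ang 1 (sinv T z) - ang v₂ (sinv T z)) + g z ≤ _
      linarith
    · intro ζ hζ hζΩ hF
      have h0 : ζ ≠ 0 := fun h => hF (by simp [h])
      have h1 : ζ ≠ -1 := fun h => hF (by simp [h])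
      have hmono := nhdsWithin_mono ζ (pk1_Om_sub (η := η))
      have hcases := pk1_Om_cl (η := η) hζ hζΩ h0 h1
      have hζre : -1 ≤ ζ.re := by
        rcases hcases with h2 | ⟨h2, h3⟩ | ⟨h2, h3, h4, h5⟩ | ⟨h2, h3, h4⟩
        · rw [h2.1]
          norm_num
        · exact h2.ge
        · exact h2.ge
        · exact h3.le
      have hgt : Tendsto g (𝓝[pk1_Om] ζ) (𝓝 (g ζ)) :=
        (hgan ζ hζre).1.continuousAt.tendsto.mono_left nhdsWithin_le_nhds
      rcases hcases with h2 | ⟨h2, h3⟩ | ⟨h2, h3, h4, h5⟩ | ⟨h2, h3, h4⟩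
      · have t1 := (bv_vert0 hT (p := 1) (by linarith [hT.lt1, hT.lt2, hT.lt3]) h2).mono_left hmono
        have t2 := (bv_vert0 hT (p := v₂) (by linarith [hT.lt1, hT.lt2]) h2).mono_left hmono
        exact ⟨_, by linarith [hgle ζ hζre], (t1.sub t2).add hgt⟩
      · have t1 := (bv_slit1 hT (p := 1) (by linarith [hT.lt3]) h2 h3).mono_left hmono
        have t2 := (bv_slit1 hT (le_refl v₂) h2 h3).mono_left hmono
        exact ⟨_, by linarith [hgle ζ hζre], (t1.sub t2).add hgt⟩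
      · refine ⟨_, ?_, ((pk1_cont hT 1 h5).sub (pk1_cont hT v₂ h5)).add hgt⟩
        have b1 := pk1_lt hT 1 h5
        have b2 := pk1_pos hT v₂ h5
        have b3 : Real.pi ≤ 2 * Real.pi * η * (1 / (ζ + 1 + η)).re := by
          rw [hre, h2]
          have e : (-1 + 1 + η) / ((-1 + 1 + η) ^ 2 + ζ.im ^ 2) = η / (η ^ 2 + ζ.im ^ 2) := by
            ring_nf
          rw [e, mul_div_assoc', le_div_iff₀ (by positivity)]
          have : ζ.im ^ 2 ≤ η ^ 2 := by nlinarith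
          nlinarith
        have b4 : g ζ = -(2 * Real.pi * η * (1 / (ζ + 1 + η)).re) := by
          rw [hg]
          ring
        rw [b4]
        linarith
      · have t1 := (bv_arc hT (le_refl 1) h2).mono_left hmono
        have t2 := (bv_arc hT (by linarith [hT.lt3] : v₂ ≤ 1) h2).mono_left hmono
        exact ⟨_, by linarith [hgle ζ hζre], (t1.sub t2).add hgt⟩
  have h1 := hmain _ pk1_P_mem
  have e1 : (-1 / 2 + 2 * I : ℂ).im = 2 := by
    simp
  have e2 : (-1 / 2 + 2 * I : ℂ).re = -1 / 2 := by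
    simp
  have b4 : g (-1 / 2 + 2 * I) = -(2 * Real.pi * η * (1 / ((-1 / 2 + 2 * I : ℂ) + 1 + η)).re) := by
    rw [hg]
    ring
  rw [b4, hre, e1, e2] at h1
  have b5 : (-1 / 2 + 1 + η) / ((-1 / 2 + 1 + η) ^ 2 + 2 ^ 2) ≤ 1 / 2 := by
    rw [div_le_iff₀ (by positivity)]
    nlinarith [sq_nonneg (-1 / 2 + 1 + η - 1)]
  have b6 : 2 * Real.pi * η * ((-1 / 2 + 1 + η) / ((-1 / 2 + 1 + η) ^ 2 + 2 ^ 2)) ≤
      2 * Real.pi * η * (1 / 2) := mul_le_mul_of_nonneg_left b5 (by positivity)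
  linarith

end Pool.Agent.Choc
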