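import Pool.Agent.Lib.MP_2b3e36_an.Re.PK1
import Pool.Agent.Lib.MP_2b3e36_an.Re.PB2

/-!
PK2. The ends tend to `1` as `η → 0`.

Proof. Let `w = sinv T (-1/2 + 2 I)`, `α = ang v₁ w < β = ang v₂ w < γ = ang 1 w` in `(0, pi)`. By PK1 (`η ≤ 1`)
`β - α ≥ a := pi log(4/3)/log 4 > 0`, `pi - γ ≥ b := pi exp (-2 pi)`, `γ - β ≤ pi η`. So `γ` and `β - α` are
in `[a, pi - b]` (`γ ≥ β - α ≥ a`, `β - α ≤ γ ≤ pi - b`), where `sin ≥ m := min (sin a) (sin b) > 0` (`sin` is
concave on `[0, pi]`, `sin (pi - b) = sin b`; `0 < a`, `b < pi`). `ang_cross` with `(v₁, v₂, 1)`: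
`ec v₁ v₂ - 1 = (1 - v₂)/(v₂ - v₁) = sin (γ-β) sin α/(sin γ sin (β-α)) ≤ pi η/m^2`. And `ea ≤ ec`
(`-1 - v₁ ≤ 1 - v₁`). Choose `η₀ = min 1 (ε m^2/pi)`.
-/

set_option autoImplicit false

open Complex Set Filter Topology Metric

namespace Pool.Agent.Choc

theorem pk2_sin {a b θ : ℝ} (ha : 0 < a) (hb : 0 < b) (h1 : a ≤ θ) (h2 : θ ≤ Real.pi - b) :
    min (Real.sin a) (Real.sin b) ≤ Real.sin θ := by
  rcases le_total θ (Real.pi / 2) with h | h
  · refine (min_le_left _ _).trans ?_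
    exact Real.sin_le_sin_of_le_of_le_pi_div_two (by linarith [Real.pi_pos]) h h1
  · refine (min_le_right _ _).trans ?_
    rw [← Real.sin_pi_sub θ]
    exact Real.sin_le_sin_of_le_of_le_pi_div_two (by linarith [Real.pi_pos]) (by linarith)
      (by linarith)

theorem ends_small {ε : ℝ} (hε : 0 < ε) :
    ∃ η₀ > 0, ∀ (η : ℝ) (T : ℂ → ℂ) (v₁ v₂ vc : ℝ), η < η₀ → Model2 η T v₁ v₂ vc →
      ea v₁ v₂ ≤ 1 + ε ∧ ec v₁ v₂ ≤ 1 + ε := by
  have hpi := Real.pi_pos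
  have hl4 : 0 < Real.log 4 := Real.log_pos (by norm_num)
  have hl43 : 0 < Real.log (4 / 3) := Real.log_pos (by norm_num)
  have hlt : Real.log (4 / 3) < Real.log 4 := Real.log_lt_log (by norm_num) (by norm_num)
  set a : ℝ := Real.pi * (Real.log (4 / 3) / Real.log 4) with ha
  set b : ℝ := Real.pi * Real.exp (-(2 * Real.pi)) with hb
  have ha0 : 0 < a := mul_pos hpi (div_pos hl43 hl4)
  have hb0 : 0 < b := mul_pos hpi (Real.exp_pos _)
  have hapi : a < Real.pi := by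
    have h1 : Real.log (4 / 3) / Real.log 4 < 1 := (div_lt_one hl4).mpr hlt
    calc a < Real.pi * 1 := mul_lt_mul_of_pos_left h1 hpi
      _ = Real.pi := mul_one _
  have hbpi : b < Real.pi := by
    have h1 : Real.exp (-(2 * Real.pi)) < 1 := Real.exp_lt_one_iff.mpr (by linarith)
    calc b < Real.pi * 1 := mul_lt_mul_of_pos_left h1 hpi
      _ = Real.pi := mul_one _
  set m : ℝ := min (Real.sin a) (Real.sin b) with hm
  have hm0 : 0 < m := lt_min (Real.sin_pos_of_pos_of_lt_pi ha0 hapi)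
    (Real.sin_pos_of_pos_of_lt_pi hb0 hbpi)
  refine ⟨min 1 (ε * m ^ 2 / Real.pi), lt_min one_pos (by positivity), ?_⟩
  intro η T v₁ v₂ vc hη hT
  have hη1 : η ≤ 1 := (hη.trans_le (min_le_left _ _)).le
  have hη2 : η < ε * m ^ 2 / Real.pi := hη.trans_le (min_le_right _ _)
  have hw := sinv_mem hT (small_mem hT.eta_pos)
  have s1 := small_slit hT hη1
  have s2 := small_arc hT
  have s3 := small_left hT
  set w := sinv T (-1 / 2 + 2 * I) with hwd
  have hv12 : v₁ < v₂ := hT.lt1.trans hT.lt2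
  have hv21 : v₂ < 1 := by linarith [hT.lt3]
  have α0 := ang_pos v₁ hw
  have αβ := ang_mono hv12 hw
  have βγ := ang_mono hv21 hw
  have γπ := ang_lt 1 hw
  have hsγ : m ≤ Real.sin (ang 1 w) := pk2_sin ha0 hb0 (by linarith) (by linarith)
  have hsβ : m ≤ Real.sin (ang v₂ w - ang v₁ w) := pk2_sin ha0 hb0 (by linarith) (by linarith)
  have hcr := ang_cross hv12 hv21 hw
  have hd : 0 < v₂ - v₁ := by linarith
  have h1 : Real.sin (ang 1 w - ang v₂ w) ≤ Real.pi * η :=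
    (Real.sin_le (by linarith)).trans s3
  have h10 : 0 ≤ Real.sin (ang 1 w - ang v₂ w) :=
    Real.sin_nonneg_of_nonneg_of_le_pi (by linarith) (by linarith [ang_pos v₂ hw])
  have h2 : Real.sin (ang 1 w - ang v₂ w) * Real.sin (ang v₁ w) ≤ Real.pi * η := by
    calc Real.sin (ang 1 w - ang v₂ w) * Real.sin (ang v₁ w)
        ≤ Real.sin (ang 1 w - ang v₂ w) * 1 :=
          mul_le_mul_of_nonneg_left (Real.sin_le_one _) h10
      _ ≤ Real.pi * η := by rw [mul_one]; exact h1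
  have h3 : m ^ 2 ≤ Real.sin (ang 1 w) * Real.sin (ang v₂ w - ang v₁ w) := by
    rw [sq]
    exact mul_le_mul hsγ hsβ hm0.le (hm0.le.trans hsγ)
  have h4 : (1 - v₂) / (v₂ - v₁) ≤ ε := by
    rw [hcr, div_le_iff₀ (lt_of_lt_of_le (by positivity) h3)]
    have h5 : Real.pi * η ≤ ε * m ^ 2 := by
      rw [lt_div_iff₀ hpi] at hη2
      linarith
    have h6 := mul_le_mul_of_nonneg_left h3 hε.le
    linarith
  have h5 : ec v₁ v₂ = 1 + (1 - v₂) / (v₂ - v₁) := by
    unfold ec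
    field_simp
    ring
  have h6 : ea v₁ v₂ ≤ ec v₁ v₂ := by
    unfold ea ec
    exact div_le_div_of_nonneg_right (by linarith) hd.le
  rw [h5] at h6 ⊢
  constructor <;> linarith

end Pool.Agent.Choc
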