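import Pool.Agent.Lib.MP_2b3e36_an.Re.PA
import Pool.Agent.Lib.MP_2b3e36_an.Re.PF1

/-!
PL1. Large `η`: three bounds at the point `P = -1 + 2 I`.
-/

set_option autoImplicit false

open Complex Set Filter Topology Metric

namespace Pool.Agent.Choc

variable {η : ℝ} {T : ℂ → ℂ} {v₁ v₂ vc : ℝ}

/-- the maximum principle in the form used below -/
theorem pl1_key {Ω : Set ℂ} (ho : IsOpen Ω) (hs : Ω ⊆ Wd η) {F : Set ℂ}
    (hF : F.Finite) {u : ℂ → ℝ} (hu : InnerProductSpace.HarmonicOnNhd u Ω) {M : ℝ}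
    (hM : ∀ z ∈ Ω, u z ≤ M)
    (hbd : ∀ ζ ∈ closure Ω, ζ ∉ Ω → ζ ∉ F → ∃ c : ℝ, c ≤ 0 ∧ Tendsto u (𝓝[Ω] ζ) (𝓝 c)) :
    ∀ z ∈ Ω, u z ≤ 0 := by
  refine max_uh ho (hs.trans (wd_subset η)) hF hu hM (fun ζ hζ hζF ε hε => ?_)
  rw [ho.frontier_eq] at hζ
  obtain ⟨c, hc, ht⟩ := hbd ζ hζ.1 hζ.2 hζF
  exact ht.eventually (eventually_lt_nhds (by linarith : c < ε))

theorem pl1_cont (hT : Model2 η T v₁ v₂ vc) (p : ℝ) {Ω : Set ℂ} {ζ : ℂ} (hζ : ζ ∈ Wd η) :
    Tendsto (fun τ => ang p (sinv T τ)) (𝓝[Ω] ζ) (𝓝 (ang p (sinv T ζ))) :=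
  ((bv_harm hT p ζ hζ).1.continuousAt).tendsto.mono_left nhdsWithin_le_nhds

theorem pl1_pos (hT : Model2 η T v₁ v₂ vc) (p : ℝ) {ζ : ℂ} (hζ : ζ ∈ Wd η) :
    0 < ang p (sinv T ζ) := ang_pos p (sinv_mem hT hζ)

theorem pl1_lt (hT : Model2 η T v₁ v₂ vc) (p : ℝ) {ζ : ℂ} (hζ : ζ ∈ Wd η) :
    ang p (sinv T ζ) < Real.pi := ang_lt p (sinv_mem hT hζ)

theorem pl1_wd {τ : ℂ} (h1 : 1 / 2 < τ.im) (h2 : -2 < τ.re) (h3 : τ.re < 0)
    (h4 : τ.im < η) : τ ∈ Wd η := by
  refine ⟨by linarith, h2, h3, ?_, fun h => by linarith [h.2]⟩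
  have h5 : |(τ + 1 / 2).im| ≤ ‖τ + 1 / 2‖ := abs_im_le_norm _
  have h6 : (τ + 1 / 2).im = τ.im := by
    simp
  rw [h6] at h5
  linarith [le_abs_self τ.im]

theorem pl1_re : (-1 + 2 * I : ℂ).re = -1 := by
  simp

theorem pl1_im : (-1 + 2 * I : ℂ).im = 2 := by
  simp

theorem large_mem (hη : 4 ≤ η) : (-1 + 2 * I : ℂ) ∈ Wd η := by
  refine pl1_wd ?_ ?_ ?_ ?_
  · rw [pl1_im]; norm_num
  · rw [pl1_re]; norm_num
  · rw [pl1_re]; norm_num
  · rw [pl1_im]; linarith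

theorem pl1_log_le {a R : ℝ} (hR : 1 < R) (h : 1 / R ≤ a) :
    -(Real.pi / Real.log R) * Real.log a ≤ Real.pi := by
  have h1 : 0 < Real.log R := Real.log_pos hR
  have h2 : Real.log (1 / R) ≤ Real.log a :=
    Real.log_le_log (by positivity) h
  rw [one_div, Real.log_inv] at h2
  have h3 : -(Real.pi / Real.log R) * Real.log a = Real.pi / Real.log R * (-Real.log a) := by ring
  rw [h3]
  calc Real.pi / Real.log R * (-Real.log a) ≤ Real.pi / Real.log R * Real.log R :=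
        mul_le_mul_of_nonneg_left (by linarith) (by positivity)
    _ = Real.pi := by field_simp

theorem pl1_harm_log {c ζ : ℂ} (h : ζ ≠ c) (A : ℝ) :
    InnerProductSpace.HarmonicAt (fun τ : ℂ => A * Real.log (‖τ - c‖ / (7 / 5))) ζ := by
  have h1 : AnalyticAt ℂ (fun τ : ℂ => (τ - c) / (7 / 5)) ζ :=
    (analyticAt_id.sub analyticAt_const).div analyticAt_const (by norm_num)
  have h2 : (ζ - c) / (7 / 5) ≠ 0 := div_ne_zero (sub_ne_zero.mpr h) (by norm_num)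
  have h3 := (h1.harmonicAt_log_norm h2).const_smul (c := A)
  have e : (fun τ : ℂ => A * Real.log (‖τ - c‖ / (7 / 5))) =
      A • (fun τ : ℂ => Real.log ‖(τ - c) / (7 / 5)‖) := by
    funext τ
    have e1 : ‖(τ - c) / (7 / 5)‖ = ‖τ - c‖ / (7 / 5) := by
      rw [norm_div]
      congr 1
      have : ((7 : ℂ) / 5) = ((7 / 5 : ℝ) : ℂ) := by
        push_cast
        ring
      rw [this, norm_real, Real.norm_of_nonneg (by norm_num)]
    simp only [Pi.smul_apply, smul_eq_mul]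
    rw [e1]
  rw [e]
  exact h3

/-- the comparison with the logarithm on a half disc -/
theorem pl1_half {c : ℂ} (hcim : c.im = 2)
    {H : Set ℂ} (hH : IsOpen H) {K : Set ℂ} (hK : IsClosed K) (hHK : H ⊆ K)
    (hdist : ∀ τ ∈ K, 1 / 4 ≤ ‖τ - c‖)
    (hre : ∀ τ ∈ H, ‖τ - c‖ ≤ 7 / 5 → -2 < τ.re ∧ τ.re < 0) (hη : 4 ≤ η)
    {f : ℂ → ℝ} (hf : InnerProductSpace.HarmonicOnNhd f (Wd η)) (hpos : ∀ τ ∈ Wd η, 0 < f τ)
    (hbd : ∀ τ ∈ K, τ ∉ H → ‖τ - c‖ ≤ 7 / 5 → 0 < τ.im → Tendsto f (𝓝[Wd η] τ) (𝓝 Real.pi))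
    {P : ℂ} (hP : P ∈ H) (hPc : ‖P - c‖ = 5 / 4) :
    Real.pi * (Real.log (28 / 25) / Real.log (28 / 5)) ≤ f P := by
  set Ω : Set ℂ := H ∩ {τ | ‖τ - c‖ < 7 / 5} with hΩ
  have ho : IsOpen Ω := hH.inter (isOpen_lt (by fun_prop) continuous_const)
  have hcl : closure Ω ⊆ K ∩ {τ | ‖τ - c‖ ≤ 7 / 5} := by
    refine closure_minimal (fun τ h => ?_) ?_
    · have h2 : ‖τ - c‖ < 7 / 5 := h.2
      exact ⟨hHK h.1, h2.le⟩
    · exact hK.inter (isClosed_le (by fun_prop) continuous_const)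
  have hbox : ∀ τ : ℂ, ‖τ - c‖ ≤ 7 / 5 → 3 / 5 ≤ τ.im ∧ τ.im ≤ 17 / 5 := by
    intro τ h
    have h2 := abs_im_le_norm (τ - c)
    rw [sub_im, hcim] at h2
    have h4 := abs_le.mp (h2.trans h)
    constructor <;> linarith
  have hin : ∀ τ : ℂ, τ ∈ H → ‖τ - c‖ ≤ 7 / 5 → τ ∈ Wd η := by
    intro τ h1 h2
    obtain ⟨h3, h4⟩ := hbox τ h2
    obtain ⟨h5, h6⟩ := hre τ h1 h2
    exact pl1_wd (by linarith) h5 h6 (by linarith)
  have hs : Ω ⊆ Wd η := fun τ h => hin τ h.1 (le_of_lt h.2)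
  have hne : ∀ τ ∈ K, τ ≠ c := by
    intro τ h he
    have := hdist τ h
    rw [he, sub_self, norm_zero] at this
    linarith
  set g : ℂ → ℝ := fun τ => -(Real.pi / Real.log (28 / 5)) * Real.log (‖τ - c‖ / (7 / 5)) with hg
  have hgle : ∀ τ ∈ K, g τ ≤ Real.pi := by
    intro τ h
    have h1 := hdist τ h
    refine pl1_log_le (by norm_num) ?_
    rw [le_div_iff₀ (by norm_num)]
    linarith
  have hmain : ∀ z ∈ Ω, g z - f z ≤ 0 := by
    refine pl1_key (η := η) (F := ∅) (M := Real.pi)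
      (u := fun z => g z - f z) ho hs Set.finite_empty ?_ ?_ ?_
    · intro z hz
      exact (pl1_harm_log (hne z (hHK hz.1)) _).sub (hf z (hs hz))
    · intro z hz
      have h1 := hgle z (hHK hz.1)
      have h2 := hpos z (hs hz)
      show g z - f z ≤ _
      linarith
    · intro ζ hζ hζΩ _
      obtain ⟨h1, h2⟩ := hcl hζ
      have h2' : ‖ζ - c‖ ≤ 7 / 5 := h2
      have hgt : Tendsto g (𝓝[Ω] ζ) (𝓝 (g ζ)) :=
        (pl1_harm_log (hne ζ h1) _).1.continuousAt.tendsto.mono_left nhdsWithin_le_nhds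
      by_cases h3 : ζ ∈ H
      · have h4 : ‖ζ - c‖ = 7 / 5 := by
          refine le_antisymm h2' (not_lt.mp (fun h => hζΩ ⟨h3, h⟩))
        have h5 := hin ζ h3 h2'
        refine ⟨_, ?_, hgt.sub
          ((hf ζ h5).1.continuousAt.tendsto.mono_left nhdsWithin_le_nhds)⟩
        have h6 : g ζ = 0 := by
          rw [hg]
          simp only [h4]
          rw [div_self (by norm_num), Real.log_one, mul_zero]
        have h7 := hpos ζ h5
        rw [h6]
        linarith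
      · have t1 := (hbd ζ h1 h3 h2' (by linarith [(hbox ζ h2').1])).mono_left
          (nhdsWithin_mono ζ hs)
        exact ⟨_, by linarith [hgle ζ h1], hgt.sub t1⟩
  have h1 := hmain P ⟨hP, by show ‖P - c‖ < 7 / 5; rw [hPc]; norm_num⟩
  have h2 : g P = Real.pi * (Real.log (28 / 25) / Real.log (28 / 5)) := by
    rw [hg]
    simp only [hPc]
    have e : Real.log (28 / 25) = -Real.log (5 / 4 / (7 / 5)) := by
      rw [← Real.log_inv]
      norm_num
    rw [e]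
    ring
  rw [h2] at h1
  linarith

theorem large_right (hT : Model2 η T v₁ v₂ vc) (hη : 4 ≤ η) :
    Real.pi * (Real.log (28 / 25) / Real.log (28 / 5)) ≤ ang v₁ (sinv T (-1 + 2 * I)) := by
  have hcre : (1 / 4 + 2 * I : ℂ).re = 1 / 4 := by
    simp
  have hcim : (1 / 4 + 2 * I : ℂ).im = 2 := by
    simp
  refine pl1_half (c := 1 / 4 + 2 * I) hcim (H := {τ | τ.re < 0}) (K := {τ | τ.re ≤ 0})
    (isOpen_lt continuous_re continuous_const) (isClosed_le continuous_re continuous_const)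
    (fun τ (h : τ.re < 0) => show τ.re ≤ 0 from h.le) ?_ ?_ hη (bv_harm hT v₁) (fun τ h => pl1_pos hT v₁ h) ?_ ?_ ?_
  · intro τ h
    have h' : τ.re ≤ 0 := h
    have h1 := abs_re_le_norm (τ - (1 / 4 + 2 * I))
    rw [sub_re, hcre] at h1
    linarith [neg_abs_le (τ.re - 1 / 4)]
  · intro τ h h2
    have h' : τ.re < 0 := h
    have h1 := abs_re_le_norm (τ - (1 / 4 + 2 * I))
    rw [sub_re, hcre] at h1
    exact ⟨by linarith [neg_abs_le (τ.re - 1 / 4)], h'⟩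
  · intro τ h1 h2 _ h4
    have e : τ.re = 0 := le_antisymm h1 (not_lt.mp h2)
    exact bv_vert0 hT (le_refl v₁) ⟨e, h4⟩
  · show (-1 + 2 * I : ℂ).re < 0
    rw [pl1_re]
    norm_num
  · have e : (-1 + 2 * I : ℂ) - (1 / 4 + 2 * I) = ((-(5 / 4) : ℝ) : ℂ) := by
      push_cast
      ring
    rw [e, norm_real, norm_neg, Real.norm_of_nonneg (by norm_num)]

theorem large_left (hT : Model2 η T v₁ v₂ vc) (hη : 4 ≤ η) :
    Real.pi * (Real.log (28 / 25) / Real.log (28 / 5)) ≤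
      ang (-1) (sinv T (-1 + 2 * I)) - ang v₂ (sinv T (-1 + 2 * I)) := by
  have hcre : (-9 / 4 + 2 * I : ℂ).re = -9 / 4 := by
    simp
  have hcim : (-9 / 4 + 2 * I : ℂ).im = 2 := by
    simp
  refine pl1_half (c := -9 / 4 + 2 * I) hcim (H := {τ | -2 < τ.re}) (K := {τ | -2 ≤ τ.re})
    (isOpen_lt continuous_const continuous_re) (isClosed_le continuous_const continuous_re)
    (fun τ (h : -2 < τ.re) => show -2 ≤ τ.re from h.le) ?_ ?_ hη
    (f := fun τ => ang (-1) (sinv T τ) - ang v₂ (sinv T τ))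
    ((bv_harm hT (-1)).sub (bv_harm hT v₂)) (fun τ h => ?_) ?_ ?_ ?_
  · intro τ h
    have h' : -2 ≤ τ.re := h
    have h1 := abs_re_le_norm (τ - (-9 / 4 + 2 * I))
    rw [sub_re, hcre] at h1
    linarith [le_abs_self (τ.re - -9 / 4)]
  · intro τ h h2
    have h' : -2 < τ.re := h
    have h1 := abs_re_le_norm (τ - (-9 / 4 + 2 * I))
    rw [sub_re, hcre] at h1
    exact ⟨h', by linarith [le_abs_self (τ.re - -9 / 4)]⟩
  · have := ang_mono hT.lt3 (sinv_mem hT h)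
    linarith
  · intro τ h1 h2 _ h4
    have e : τ.re = -2 := le_antisymm (not_lt.mp h2) h1
    have t1 := bv_vert2_1 hT (le_refl (-1)) (τ₀ := τ) ⟨e, h4⟩
    have t2 := bv_vert2_0 hT (le_refl v₂) (τ₀ := τ) ⟨e, h4⟩
    have t3 := t1.sub t2
    rw [sub_zero] at t3
    exact t3
  · show -2 < (-1 + 2 * I : ℂ).re
    rw [pl1_re]
    norm_num
  · have e : (-1 + 2 * I : ℂ) - (-9 / 4 + 2 * I) = ((5 / 4 : ℝ) : ℂ) := by
      push_cast
      ring
    rw [e, norm_real, Real.norm_of_nonneg (by norm_num)]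

theorem pl1_exp_im (τ : ℂ) : (exp (-(Real.pi * I / 2) * τ)).im =
    -(Real.exp (Real.pi * τ.im / 2) * Real.sin (Real.pi * τ.re / 2)) := by
  rw [exp_im]
  have e0 : -(Real.pi * I / 2) * τ = ((Real.pi * τ.im / 2 : ℝ) : ℂ) +
      ((-(Real.pi * τ.re / 2) : ℝ) : ℂ) * I := by
    apply Complex.ext
    · simp [mul_re, mul_im]
      ring
    · simp [mul_re, mul_im]
      ring
  have e1 : (-(Real.pi * I / 2) * τ).re = Real.pi * τ.im / 2 := by
    rw [e0]
    simp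
  have e2 : (-(Real.pi * I / 2) * τ).im = -(Real.pi * τ.re / 2) := by
    rw [e0]
    simp
  rw [e1, e2, Real.sin_neg]
  ring

theorem large_slit (hT : Model2 η T v₁ v₂ vc) (hη : 4 ≤ η) :
    ang v₂ (sinv T (-1 + 2 * I)) - ang v₁ (sinv T (-1 + 2 * I)) ≤
      Real.pi * Real.exp (Real.pi * (2 - η) / 2) := by
  have hpi := Real.pi_pos
  set G : ℂ → ℂ := fun τ => ((-(Real.pi * Real.exp (-(Real.pi * η / 2))) : ℝ) : ℂ) *
    exp (-(Real.pi * I / 2) * τ) with hG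
  have hGim : ∀ τ, (G τ).im =
      Real.pi * (Real.exp (Real.pi * (τ.im - η) / 2) * Real.sin (Real.pi * τ.re / 2)) := by
    intro τ
    rw [hG]
    simp only []
    rw [im_ofReal_mul, pl1_exp_im]
    have e : Real.exp (Real.pi * (τ.im - η) / 2) =
        Real.exp (-(Real.pi * η / 2)) * Real.exp (Real.pi * τ.im / 2) := by
      rw [← Real.exp_add]
      congr 1
      ring
    rw [e]
    ring
  have hGan : ∀ ζ, InnerProductSpace.HarmonicAt (fun τ => (G τ).im) ζ := by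
    intro ζ
    have h1 : Differentiable ℂ G := by
      rw [hG]
      fun_prop
    exact (h1.analyticAt ζ).harmonicAt_im
  have hGle : ∀ τ : ℂ, -2 ≤ τ.re → τ.re ≤ 0 → (G τ).im ≤ 0 := by
    intro τ h2 h3
    rw [hGim]
    have e2 := (Real.exp_pos (Real.pi * (τ.im - η) / 2)).le
    have e3 : Real.sin (Real.pi * τ.re / 2) ≤ 0 :=
      Real.sin_nonpos_of_nonpos_of_neg_pi_le (by nlinarith) (by nlinarith)
    have e4 : Real.exp (Real.pi * (τ.im - η) / 2) * Real.sin (Real.pi * τ.re / 2) ≤ 0 :=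
      mul_nonpos_of_nonneg_of_nonpos e2 e3
    exact mul_nonpos_of_nonneg_of_nonpos hpi.le e4
  have h12 : v₁ ≤ v₂ := by linarith [hT.lt1, hT.lt2]
  have hmain : ∀ z ∈ Wd η, (ang v₂ (sinv T z) - ang v₁ (sinv T z)) + (G z).im ≤ 0 := by
    refine pl1_key (η := η) (F := {0, -1, -2}) (M := Real.pi)
      (u := fun z => (ang v₂ (sinv T z) - ang v₁ (sinv T z)) + (G z).im) (wd_open η)
      (Set.Subset.refl _) (Set.toFinite _) ?_ ?_ ?_
    · intro z hz
      exact ((bv_harm hT v₂ z hz).sub (bv_harm hT v₁ z hz)).add (hGan z)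
    · intro z hz
      have h1 := pl1_lt hT v₂ hz
      have h2 := hGle z hz.2.1.le hz.2.2.1.le
      have h3 := pl1_pos hT v₁ hz
      show (ang v₂ (sinv T z) - ang v₁ (sinv T z)) + (G z).im ≤ _
      linarith
    · intro ζ hζ hζΩ hF
      have h0 : ζ ≠ 0 := fun h => hF (by simp [h])
      have h1 : ζ ≠ -1 := fun h => hF (by simp [h])
      have h2 : ζ ≠ -2 := fun h => hF (by simp [h])
      have hfr : ζ ∈ frontier (Wd η) := by
        rw [(wd_open η).frontier_eq]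
        exact ⟨hζ, hζΩ⟩
      have hgt : Tendsto (fun τ => (G τ).im) (𝓝[Wd η] ζ) (𝓝 (G ζ).im) :=
        (hGan ζ).1.continuousAt.tendsto.mono_left nhdsWithin_le_nhds
      rcases wd_frontier hfr with h3 | ⟨h3, h4, h5⟩ | h3 | ⟨h3, h4, h5⟩ | h3 | h3 | h3 | h3
      · refine ⟨_, ?_, ((bv_vert0 hT h12 h3).sub (bv_vert0 hT (le_refl v₁) h3)).add hgt⟩
        have := hGle ζ (by rw [h3.1]; norm_num) (by rw [h3.1])
        linarith
      · refine ⟨_, ?_, ((bv_slit1 hT (le_refl v₂) h3 h5).sub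
          (bv_slit0 hT (le_refl v₁) h3 h5)).add hgt⟩
        rw [hGim, h3]
        have e : Real.sin (Real.pi * -1 / 2) = -1 := by
          have : Real.pi * -1 / 2 = -(Real.pi / 2) := by ring
          rw [this, Real.sin_neg, Real.sin_pi_div_two]
        rw [e]
        have e2 : 1 ≤ Real.exp (Real.pi * (ζ.im - η) / 2) := by
          apply Real.one_le_exp
          have : 0 ≤ ζ.im - η := by linarith
          positivity
        nlinarith
      · refine ⟨_, ?_, ((bv_vert2_0 hT (le_refl v₂) h3).sub (bv_vert2_0 hT h12 h3)).add hgt⟩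
        have := hGle ζ (by rw [h3.1]) (by rw [h3.1]; norm_num)
        linarith
      · refine ⟨_, ?_, ((bv_free0 hT (by linarith [hT.lt3] : v₂ ≤ -1) h3 h4 h5).sub
          (bv_free0 hT (by linarith [hT.lt3] : v₁ ≤ -1) h3 h4 h5)).add hgt⟩
        have := hGle ζ h4.le (by linarith)
        linarith
      · refine ⟨_, ?_, ((bv_arc hT (by linarith [hT.lt3] : v₂ ≤ 1) h3).sub
          (bv_arc hT (by linarith [hT.lt3] : v₁ ≤ 1) h3)).add hgt⟩
        have h4 := abs_re_le_norm (ζ + 1 / 2)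
        rw [h3.2] at h4
        have h5 : (ζ + 1 / 2).re = ζ.re + 1 / 2 := by simp
        rw [h5] at h4
        have h6 := abs_le.mp h4
        have := hGle ζ (by linarith) (by linarith)
        linarith
      · exact absurd h3 h0
      · exact absurd h3 h1
      · exact absurd h3 h2
  have h1 := hmain _ (large_mem hη)
  rw [hGim, pl1_re, pl1_im] at h1
  have e : Real.sin (Real.pi * -1 / 2) = -1 := by
    have : Real.pi * -1 / 2 = -(Real.pi / 2) := by ring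
    rw [this, Real.sin_neg, Real.sin_pi_div_two]
  rw [e] at h1
  linarith

end Pool.Agent.Choc
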