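import Pool.Agent.Lib.MP_2b3e36_an.Re.PL1
import Pool.Agent.Lib.MP_2b3e36_an.Re.PB2

/-!
PL2. The ends tend to infinity as `η → ∞`.

Proof. Let `w = sinv T (-1 + 2 I)`, `α = ang v₁ w < β = ang v₂ w < γ = ang (-1) w` in `(0, pi)`. By PL1 (`η ≥ 4`)
`α ≥ a`, `γ - β ≥ a` with `a = pi log(28/25)/log(28/5) > 0`, `β - α ≤ pi exp (pi (2-η)/2)`. `α + (γ - β) < pi`, so
both are in `[a, pi - a]`, where `sin ≥ sin a > 0`. `ang_cross` with `(v₁, v₂, -1)`:
`ea v₁ v₂ - 1 = sin (γ-β) sin α/(sin γ sin (β-α)) ≥ (sin a)^2/(β - α) ≥ (sin a)^2/(pi exp (pi (2-η)/2))`, which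
tends to infinity with `η`.
-/

set_option autoImplicit false

open Complex Set Filter Topology Metric

namespace Pool.Agent.Choc

theorem pl2_sin {a x : ℝ} (ha : 0 ≤ a) (h1 : a ≤ x) (h2 : x ≤ Real.pi - a) :
    Real.sin a ≤ Real.sin x := by
  have hpi := Real.pi_pos
  rcases le_total x (Real.pi / 2) with h | h
  · exact Real.sin_le_sin_of_le_of_le_pi_div_two (by linarith) h h1
  · rw [← Real.sin_pi_sub x]
    exact Real.sin_le_sin_of_le_of_le_pi_div_two (by linarith) (by linarith) (by linarith)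

theorem pl2_tendsto : Tendsto (fun η : ℝ => Real.exp (Real.pi * (2 - η) / 2)) atTop (𝓝 0) := by
  refine Real.tendsto_exp_atBot.comp ?_
  rw [tendsto_atBot]
  intro b
  filter_upwards [eventually_ge_atTop (2 - 2 * b / Real.pi)] with η hη
  have hpi := Real.pi_pos
  have h1 : 2 - η ≤ 2 * b / Real.pi := by linarith
  have h2 : Real.pi * (2 - η) ≤ Real.pi * (2 * b / Real.pi) :=
    mul_le_mul_of_nonneg_left h1 hpi.le
  have h3 : Real.pi * (2 * b / Real.pi) = 2 * b := by field_simp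
  linarith

theorem ends_large (M : ℝ) :
    ∃ η₀ : ℝ, ∀ (η : ℝ) (T : ℂ → ℂ) (v₁ v₂ vc : ℝ), η₀ < η → Model2 η T v₁ v₂ vc →
      M ≤ ea v₁ v₂ ∧ M ≤ ec v₁ v₂ := by
  have hpi := Real.pi_pos
  obtain ⟨a, ha⟩ : ∃ a, a = Real.pi * (Real.log (28 / 25) / Real.log (28 / 5)) := ⟨_, rfl⟩
  have hl1 : 0 < Real.log (28 / 25) := Real.log_pos (by norm_num)
  have hl2 : Real.log (28 / 25) < Real.log (28 / 5) := Real.log_lt_log (by norm_num) (by norm_num)
  have ha0 : 0 < a := by
    rw [ha]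
    exact mul_pos hpi (div_pos hl1 (hl1.trans hl2))
  have ha1 : a < Real.pi := by
    rw [ha]
    have : Real.log (28 / 25) / Real.log (28 / 5) < 1 := by
      rw [div_lt_one (hl1.trans hl2)]
      exact hl2
    nlinarith
  have hs0 : 0 < Real.sin a := Real.sin_pos_of_pos_of_lt_pi ha0 ha1
  have hM0 : 0 < Real.pi * (|M| + 1) := by positivity
  have hev : ∀ᶠ η : ℝ in atTop, Real.exp (Real.pi * (2 - η) / 2) <
      Real.sin a ^ 2 / (Real.pi * (|M| + 1)) :=
    pl2_tendsto.eventually (gt_mem_nhds (div_pos (by positivity) hM0))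
  obtain ⟨η₁, hη₁⟩ := eventually_atTop.1 hev
  refine ⟨max η₁ 4, ?_⟩
  intro η T v₁ v₂ vc hη hT
  have hη4 : 4 ≤ η := ((le_max_right _ _).trans_lt hη).le
  have hδ := hη₁ η ((le_max_left _ _).trans_lt hη).le
  have hw : sinv T (-1 + 2 * I) ∈ UH := sinv_mem hT (large_mem hη4)
  have hr := large_right hT hη4
  have hl := large_left hT hη4
  have hsl := large_slit hT hη4
  rw [← ha] at hr hl
  have h12 : v₁ < v₂ := hT.lt1.trans hT.lt2
  have h3 := hT.lt3
  have hcross := ang_cross h12 h3 hw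
  have o1 := ang_mono h12 hw
  have o2 := ang_mono h3 hw
  have o3 := ang_lt (-1) hw
  have o0 := ang_pos v₁ hw
  generalize sinv T (-1 + 2 * I) = w at hw hr hl hsl hcross o1 o2 o3 o0
  generalize ang v₁ w = α at hr hl hsl hcross o1 o2 o3 o0
  generalize ang v₂ w = β at hr hl hsl hcross o1 o2 o3 o0
  generalize ang (-1) w = γ at hr hl hsl hcross o1 o2 o3 o0
  have s1 : Real.sin a ≤ Real.sin (γ - β) := pl2_sin ha0.le hl (by linarith)
  have s2 : Real.sin a ≤ Real.sin α := pl2_sin ha0.le hr (by linarith)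
  have s3 : 0 < Real.sin γ := Real.sin_pos_of_pos_of_lt_pi (by linarith) o3
  have s4 : Real.sin γ ≤ 1 := Real.sin_le_one γ
  have s5 : 0 < Real.sin (β - α) := Real.sin_pos_of_pos_of_lt_pi (by linarith) (by linarith)
  have s6 : Real.sin (β - α) ≤ β - α := Real.sin_le (by linarith)
  have s7 : β - α < Real.sin a ^ 2 / (|M| + 1) := by
    have e1 : Real.pi * Real.exp (Real.pi * (2 - η) / 2) <
        Real.pi * (Real.sin a ^ 2 / (Real.pi * (|M| + 1))) := mul_lt_mul_of_pos_left hδ hpi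
    have e2 : Real.pi * (Real.sin a ^ 2 / (Real.pi * (|M| + 1))) = Real.sin a ^ 2 / (|M| + 1) := by
      field_simp
    linarith
  have hM1 : 0 < |M| + 1 := by positivity
  have s8 : (|M| + 1) * (β - α) < Real.sin a ^ 2 := by
    rw [lt_div_iff₀ hM1] at s7
    linarith
  have key : |M| + 1 ≤ (-1 - v₂) / (v₂ - v₁) := by
    rw [hcross, le_div_iff₀ (mul_pos s3 s5)]
    have e3 : Real.sin γ * Real.sin (β - α) ≤ 1 * (β - α) :=
      mul_le_mul s4 s6 s5.le zero_le_one
    have e4 : Real.sin a * Real.sin a ≤ Real.sin (γ - β) * Real.sin α :=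
      mul_le_mul s1 s2 hs0.le (hs0.le.trans s1)
    have e5 : (|M| + 1) * (Real.sin γ * Real.sin (β - α)) ≤ (|M| + 1) * (1 * (β - α)) :=
      mul_le_mul_of_nonneg_left e3 hM1.le
    nlinarith
  have hd : 0 < v₂ - v₁ := by linarith
  have hea : M ≤ ea v₁ v₂ := by
    have e6 : ea v₁ v₂ = (-1 - v₂) / (v₂ - v₁) + 1 := by
      unfold ea
      field_simp
      ring
    rw [e6]
    have := le_abs_self M
    linarith
  refine ⟨hea, hea.trans ?_⟩
  unfold ea ec
  exact div_le_div_of_nonneg_right (by linarith) hd.le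

end Pool.Agent.Choc
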