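import Pool.Agent.Lib.MP_2b3e36_an.Re.PC1

/-!
PM. A model gives the ends.

Proof. `F v = T (v₁ + (v₂ - v₁) v)`. The affine map `A v = v₁ + (v₂ - v₁) v` (`v₂ - v₁ > 0`) is a bijection of
`UH`, maps `0, 1` to `v₁, v₂`, `ea v₁ v₂` to `-1` and `ec v₁ v₂` to `1`, and `𝓝[UH] x` into `𝓝[UH] (A x)`,
`cocompact ℂ ⊓ 𝓟 UH` into itself. `1 < ea` (`-1 - v₁ > v₂ - v₁`), `ea < ec`. Limits: PC1.
-/

set_option autoImplicit false

open Complex Set Filter Topology Metric

namespace Pool.Agent.Choc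

theorem pm_im {a c : ℝ} (v : ℂ) : ((a : ℂ) + (c : ℂ) * v).im = c * v.im := by
  simp

theorem pm_within {a c : ℝ} (hc : 0 < c) (x : ℂ) :
    Tendsto (fun v : ℂ => (a : ℂ) + (c : ℂ) * v) (𝓝[UH] x) (𝓝[UH] ((a : ℂ) + (c : ℂ) * x)) := by
  refine tendsto_nhdsWithin_iff.2 ⟨?_, ?_⟩
  · have h : Continuous (fun v : ℂ => (a : ℂ) + (c : ℂ) * v) := by fun_prop
    exact (h.tendsto x).mono_left nhdsWithin_le_nhds
  · filter_upwards [self_mem_nhdsWithin] with v hv
    show 0 < ((a : ℂ) + (c : ℂ) * v).im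
    rw [pm_im]
    exact mul_pos hc hv

theorem ends_of_model {η : ℝ} {T : ℂ → ℂ} {v₁ v₂ vc : ℝ} (hT : Model2 η T v₁ v₂ vc) :
    Ends η (ea v₁ v₂) (ec v₁ v₂) := by
  have hlt : v₁ < v₂ := hT.lt1.trans hT.lt2
  have hc : 0 < v₂ - v₁ := sub_pos.2 hlt
  have hcC : ((v₂ - v₁ : ℝ) : ℂ) ≠ 0 := by exact_mod_cast hc.ne'
  have h3 := hT.lt3
  obtain ⟨A, hA⟩ : ∃ A : ℂ → ℂ, A = fun v => (v₁ : ℂ) + ((v₂ - v₁ : ℝ) : ℂ) * v := ⟨_, rfl⟩
  have hAim : ∀ v, (A v).im = (v₂ - v₁) * v.im := fun v => by rw [hA]; exact pm_im v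
  have hAU : MapsTo A UH UH := fun v hv => by
    show 0 < (A v).im
    rw [hAim]
    exact mul_pos hc hv
  have hAd : Differentiable ℂ A := by rw [hA]; fun_prop
  have hAi : Function.Injective A := fun u v h => by
    rw [hA] at h
    exact mul_left_cancel₀ hcC (add_left_cancel h)
  have hAimg : A '' UH = UH := by
    apply Subset.antisymm
    · rintro _ ⟨v, hv, rfl⟩
      exact hAU hv
    · intro w hw
      refine ⟨(w - v₁) / ((v₂ - v₁ : ℝ) : ℂ), ?_, ?_⟩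
      · show 0 < ((w - v₁) / ((v₂ - v₁ : ℝ) : ℂ)).im
        rw [Complex.div_ofReal_im]
        have : 0 < w.im := hw
        simp only [sub_im, ofReal_im, sub_zero]
        exact div_pos this hc
      · rw [hA]
        show (v₁ : ℂ) + ((v₂ - v₁ : ℝ) : ℂ) * ((w - v₁) / ((v₂ - v₁ : ℝ) : ℂ)) = w
        rw [mul_div_cancel₀ _ hcC]
        ring
  have hw : ∀ (x y : ℂ), A x = y → Tendsto A (𝓝[UH] x) (𝓝[UH] y) := fun x y h => by
    rw [← h, hA]
    exact pm_within hc x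
  have hAc : Tendsto A (cocompact ℂ ⊓ 𝓟 UH) (cocompact ℂ ⊓ 𝓟 UH) := by
    have h1 : Tendsto A (cocompact ℂ) (cocompact ℂ) := by
      have := ((Homeomorph.mulLeft₀ ((v₂ - v₁ : ℝ) : ℂ) hcC).trans
        (Homeomorph.addLeft (v₁ : ℂ))).isClosedEmbedding.tendsto_cocompact
      rw [hA]
      exact this
    exact tendsto_inf.2 ⟨h1.mono_left inf_le_left,
      (tendsto_principal_principal.2 hAU).mono_left inf_le_right⟩
  refine ⟨fun v => T (A v), ?_, ?_, ?_, ?_, ?_, ?_, ?_, ?_, ?_, ?_⟩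
  · unfold ea
    rw [one_lt_div hc]
    linarith
  · unfold ea ec
    rw [div_lt_div_iff_of_pos_right hc]
    linarith
  · exact hT.diff.comp hAd.differentiableOn hAU
  · exact hT.inj.comp hAi.injOn hAU
  · have : (fun v => T (A v)) '' UH = T '' (A '' UH) := (image_image T A UH).symm
    rw [this, hAimg, hT.img]
  · exact (model_cusp1 hT).comp (hw 0 v₁ (by rw [hA]; simp))
  · exact (model_cusp2 hT).comp (hw 1 v₂ (by rw [hA]; simp))
  · refine (model_negOne hT).comp (hw _ (-1) ?_)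
    rw [hA]
    unfold ea
    push_cast
    have : ((v₂ : ℂ) - v₁) ≠ 0 := by
      push_cast at hcC
      exact hcC
    field_simp
    ring
  · refine (model_posOne hT).comp (hw _ 1 ?_)
    rw [hA]
    unfold ec
    push_cast
    have : ((v₂ : ℂ) - v₁) ≠ 0 := by
      push_cast at hcC
      exact hcC
    field_simp
    ring
  · exact (model_infty hT).comp hAc

end Pool.Agent.Choc
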