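import Pool.Agent.Lib.MP_2b3e36_an.Re.PB0

/-!
PN. Automorphisms of the upper half plane fixing infinity are affine.

Proof. Let `ψ, χ` be holomorphic on `UH`, mapping `UH` to `UH`, inverse to each other. `c z = (z - I)/(z + I)`,
`c_p z = (z - p)/(z - conj p)` map `UH` bijectively to the unit disc, `c_p p = 0`. With `p = ψ I`:
`f = c_p ∘ ψ ∘ c⁻¹` and `g = c ∘ χ ∘ c_p⁻¹` map the unit disc to itself, fix `0`, are inverse to each
other. Schwarz lemma for both (`Complex.norm_le_norm_of_mapsTo_ball` or the like): `‖f z‖ = ‖z‖`. Hence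
`f z = κ z`, `‖κ‖ = 1` (`f z/z` has a constant modulus: `dslope f 0` attains its maximum modulus in the ball,
`Complex.eqOn_of_isPreconnected_of_isMaxOn_norm`, or `affine_of_mapsTo_ball_of_exists_norm_dslope_eq_div`).
So `ψ v = c_p⁻¹ (κ c v)`, where `c_p⁻¹ u = (p - conj p u)/(1 - u)`. As `v → ∞` in `UH`, `c v → 1`, and
`ψ v → ∞` (hypothesis) means `c_p (ψ v) → 1`: `κ = 1`. So `(ψ v - p)/(ψ v - conj p) = (v - I)/(v + I)`, which
gives `ψ v = (p - conj p u)/(1 - u)`, `u = (v - I)/(v + I)`, `1 - u = 2I/(v + I)`: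
`ψ v = (p (v + I) - conj p (v - I))/(2 I) = Im p * v + Re p`. `α = Im p > 0`, `β = Re p`.
-/

set_option autoImplicit false

open Complex Set Filter Topology Metric

namespace Pool.Agent.Choc

/-- The Cayley map with the zero `a`. -/
noncomputable def pnC (a z : ℂ) : ℂ := (z - a) / (z - starRingEnd ℂ a)

/-- Its inverse. -/
noncomputable def pnD (a u : ℂ) : ℂ := (a - starRingEnd ℂ a * u) / (1 - u)

theorem pn_ne {a z : ℂ} (ha : a ∈ UH) (hz : z ∈ UH) : z - starRingEnd ℂ a ≠ 0 := by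
  intro h
  have h1 := congrArg Complex.im h
  have h2 : 0 < a.im := ha
  have h3 : 0 < z.im := hz
  rw [sub_im, conj_im, zero_im] at h1
  linarith

theorem pn_ne1 {u : ℂ} (hu : u ∈ ball (0 : ℂ) 1) : 1 - u ≠ 0 := by
  intro h
  rw [mem_ball_zero_iff] at hu
  have : u = 1 := by linear_combination -h
  rw [this, norm_one] at hu
  exact lt_irrefl _ hu

theorem pn_C_mem {a z : ℂ} (ha : a ∈ UH) (hz : z ∈ UH) : pnC a z ∈ ball (0 : ℂ) 1 := by
  rw [mem_ball_zero_iff]
  unfold pnC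
  have h0 := pn_ne ha hz
  rw [norm_div, div_lt_one (norm_pos_iff.2 h0)]
  have h1 : ‖z - a‖ ^ 2 < ‖z - starRingEnd ℂ a‖ ^ 2 := by
    rw [← Complex.normSq_eq_norm_sq, ← Complex.normSq_eq_norm_sq, Complex.normSq_apply,
      Complex.normSq_apply]
    simp only [sub_re, sub_im, conj_re, conj_im]
    have h2 : 0 < a.im := ha
    have h3 : 0 < z.im := hz
    nlinarith [mul_pos h2 h3]
  exact lt_of_pow_lt_pow_left₀ 2 (norm_nonneg _) h1

theorem pn_D_mem {a u : ℂ} (ha : a ∈ UH) (hu : u ∈ ball (0 : ℂ) 1) : pnD a u ∈ UH := by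
  have h0 := pn_ne1 hu
  have h1 : 0 < normSq (1 - u) := normSq_pos.2 h0
  have h2 : u.re ^ 2 + u.im ^ 2 < 1 := by
    rw [mem_ball_zero_iff] at hu
    have h3 : ‖u‖ ^ 2 < 1 := by
      have := norm_nonneg u
      nlinarith
    rw [← Complex.normSq_eq_norm_sq, Complex.normSq_apply] at h3
    nlinarith
  have h3 : 0 < a.im := ha
  show 0 < (pnD a u).im
  unfold pnD
  rw [Complex.div_im]
  have h4 : (a - starRingEnd ℂ a * u).im * (1 - u).re / normSq (1 - u)
      - (a - starRingEnd ℂ a * u).re * (1 - u).im / normSq (1 - u)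
      = (a.im * (1 - (u.re ^ 2 + u.im ^ 2))) / normSq (1 - u) := by
    rw [← sub_div]
    congr 1
    simp only [sub_re, sub_im, mul_re, mul_im, conj_re, conj_im, one_re, one_im]
    ring
  rw [h4]
  exact div_pos (mul_pos h3 (by linarith)) h1

theorem pn_CD {a u : ℂ} (ha : a ∈ UH) (hu : u ∈ ball (0 : ℂ) 1) : pnC a (pnD a u) = u := by
  have h0 := pn_ne1 hu
  have h1 := pn_ne ha (pn_D_mem ha hu)
  unfold pnC
  rw [div_eq_iff h1]
  unfold pnD
  field_simp
  ring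

theorem pn_DC {a z : ℂ} (ha : a ∈ UH) (hz : z ∈ UH) : pnD a (pnC a z) = z := by
  have h0 := pn_ne1 (pn_C_mem ha hz)
  have h1 := pn_ne ha hz
  unfold pnD
  rw [div_eq_iff h0]
  unfold pnC
  field_simp
  ring

theorem pn_C_self (a : ℂ) : pnC a a = 0 := by
  unfold pnC
  rw [sub_self, zero_div]

theorem pn_D_zero (a : ℂ) : pnD a 0 = a := by
  unfold pnD
  simp

theorem pn_C_diff {a : ℂ} (ha : a ∈ UH) : DifferentiableOn ℂ (pnC a) UH := fun z hz =>
  ((differentiableAt_id.sub_const a).div (differentiableAt_id.sub_const _)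
    (pn_ne ha hz)).differentiableWithinAt

theorem pn_D_diff (a : ℂ) : DifferentiableOn ℂ (pnD a) (ball (0 : ℂ) 1) := fun u hu =>
  DifferentiableAt.differentiableWithinAt (by
    unfold pnD
    exact DifferentiableAt.div (by fun_prop) (by fun_prop) (pn_ne1 hu))

theorem pn_inf_neBot : (cocompact ℂ ⊓ 𝓟 UH).NeBot := by
  have h : Tendsto (fun t : ℝ => (t : ℂ) * I) atTop (cocompact ℂ ⊓ 𝓟 UH) := by
    refine tendsto_inf.2 ⟨?_, tendsto_principal.2 ?_⟩
    · rw [← Metric.cobounded_eq_cocompact, ← tendsto_norm_atTop_iff_cobounded]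
      refine tendsto_atTop_mono (fun t => ?_) tendsto_id
      rw [norm_mul, Complex.norm_I, mul_one, Complex.norm_real]
      exact le_abs_self t
    · filter_upwards [eventually_gt_atTop 0] with t ht
      show 0 < ((t : ℂ) * I).im
      simpa using ht
  exact h.neBot

theorem pn_C_lim (a : ℂ) : Tendsto (pnC a) (cocompact ℂ ⊓ 𝓟 UH) (𝓝 1) := by
  have h1 : Tendsto (fun z : ℂ => z - starRingEnd ℂ a) (cocompact ℂ) (cocompact ℂ) :=
    (Homeomorph.addRight (-(starRingEnd ℂ a))).isClosedEmbedding.tendsto_cocompact.congr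
      fun _ => (sub_eq_add_neg _ _).symm
  have h2 : Tendsto (fun z : ℂ => (z - starRingEnd ℂ a)⁻¹) (cocompact ℂ) (𝓝 0) := by
    have h3 : Tendsto (fun z : ℂ => z⁻¹) (cocompact ℂ) (𝓝 0) := by
      rw [← Metric.cobounded_eq_cocompact]
      exact tendsto_inv₀_cobounded
    exact h3.comp h1
  have h3 : Tendsto (fun z : ℂ => 1 + (starRingEnd ℂ a - a) * (z - starRingEnd ℂ a)⁻¹)
      (cocompact ℂ) (𝓝 1) := by
    have := (h2.const_mul (starRingEnd ℂ a - a)).const_add 1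
    rwa [mul_zero, add_zero] at this
  refine (h3.congr' ?_).mono_left inf_le_left
  have h4 : ∀ᶠ z in cocompact ℂ, z ∈ ({starRingEnd ℂ a} : Set ℂ)ᶜ :=
    isCompact_singleton.compl_mem_cocompact
  filter_upwards [h4] with z hz
  have h5 : z - starRingEnd ℂ a ≠ 0 := fun h => hz (by
    rw [mem_singleton_iff]
    linear_combination h)
  unfold pnC
  field_simp
  ring

theorem aut_affine {ψ χ : ℂ → ℂ} (hψ : DifferentiableOn ℂ ψ UH) (hχ : DifferentiableOn ℂ χ UH)
    (h1 : ∀ v ∈ UH, ψ v ∈ UH) (h2 : ∀ v ∈ UH, χ v ∈ UH) (h3 : ∀ v ∈ UH, χ (ψ v) = v)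
    (h4 : ∀ v ∈ UH, ψ (χ v) = v)
    (h5 : Tendsto ψ (cocompact ℂ ⊓ 𝓟 UH) (cocompact ℂ ⊓ 𝓟 UH)) :
    ∃ α β : ℝ, 0 < α ∧ ∀ v ∈ UH, ψ v = α * v + β := by
  have hI : I ∈ UH := by
    show 0 < I.im
    simp
  obtain ⟨p, hp⟩ : ∃ p : ℂ, p = ψ I := ⟨_, rfl⟩
  have hpU : p ∈ UH := by rw [hp]; exact h1 I hI
  obtain ⟨f, hf⟩ : ∃ f : ℂ → ℂ, f = fun u => pnC p (ψ (pnD I u)) := ⟨_, rfl⟩
  obtain ⟨g, hg⟩ : ∃ g : ℂ → ℂ, g = fun u => pnC I (χ (pnD p u)) := ⟨_, rfl⟩
  have hDI : MapsTo (pnD I) (ball (0 : ℂ) 1) UH := fun u hu => pn_D_mem hI hu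
  have hDp : MapsTo (pnD p) (ball (0 : ℂ) 1) UH := fun u hu => pn_D_mem hpU hu
  have hfd : DifferentiableOn ℂ f (ball (0 : ℂ) 1) := by
    rw [hf]
    exact (pn_C_diff hpU).comp (hψ.comp (pn_D_diff I) hDI) fun u hu => h1 _ (hDI hu)
  have hgd : DifferentiableOn ℂ g (ball (0 : ℂ) 1) := by
    rw [hg]
    exact (pn_C_diff hI).comp (hχ.comp (pn_D_diff p) hDp) fun u hu => h2 _ (hDp hu)
  have hfm : MapsTo f (ball (0 : ℂ) 1) (ball (0 : ℂ) 1) := fun u hu => by
    rw [hf]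
    exact pn_C_mem hpU (h1 _ (hDI hu))
  have hgm : MapsTo g (ball (0 : ℂ) 1) (ball (0 : ℂ) 1) := fun u hu => by
    rw [hg]
    exact pn_C_mem hI (h2 _ (hDp hu))
  have hf0 : f 0 = 0 := by
    rw [hf]
    show pnC p (ψ (pnD I 0)) = 0
    rw [pn_D_zero, ← hp, pn_C_self]
  have hg0 : g 0 = 0 := by
    rw [hg]
    show pnC I (χ (pnD p 0)) = 0
    rw [pn_D_zero, hp, h3 I hI, pn_C_self]
  have hgf : ∀ u ∈ ball (0 : ℂ) 1, g (f u) = u := fun u hu => by
    rw [hg, hf]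
    show pnC I (χ (pnD p (pnC p (ψ (pnD I u))))) = u
    rw [pn_DC hpU (h1 _ (hDI hu)), h3 _ (hDI hu), pn_CD hI hu]
  have hnorm : ∀ u ∈ ball (0 : ℂ) 1, ‖f u‖ = ‖u‖ := fun u hu => by
    apply le_antisymm
    · exact Complex.norm_le_norm_of_mapsTo_ball hfd (hfm.mono_right ball_subset_closedBall) hf0
        (mem_ball_zero_iff.1 hu)
    · have h6 := Complex.norm_le_norm_of_mapsTo_ball hgd (hgm.mono_right ball_subset_closedBall)
        hg0 (mem_ball_zero_iff.1 (hfm hu))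
      rwa [hgf u hu] at h6
  have hhalf : (1 / 2 : ℂ) ∈ ball (0 : ℂ) 1 := by
    rw [mem_ball_zero_iff]
    norm_num
  obtain ⟨κ, -, hκ⟩ := Complex.affine_of_mapsTo_ball_of_exists_norm_dslope_eq_div' (R₂ := 1) hfd
    (by rw [hf0]; exact hfm.mono_right ball_subset_closedBall)
    ⟨1 / 2, hhalf, by
      rw [dslope_of_ne _ (by norm_num), slope_def_module, hf0, sub_zero, sub_zero, norm_smul,
        hnorm _ hhalf]
      norm_num⟩
  have hκ' : ∀ v ∈ UH, pnC p (ψ v) = pnC I v * κ := fun v hv => by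
    have h6 := hκ (pn_C_mem hI hv)
    simp only [hf0, sub_zero, zero_add, smul_eq_mul] at h6
    have h7 : pnC p (ψ (pnD I (pnC I v))) = pnC I v * κ := by
      rw [hf] at h6
      exact h6
    rwa [pn_DC hI hv] at h7
  have hκ1 : κ = 1 := by
    have := pn_inf_neBot
    have l1 : Tendsto (fun v => pnC p (ψ v)) (cocompact ℂ ⊓ 𝓟 UH) (𝓝 1) := (pn_C_lim p).comp h5
    have l2 : Tendsto (fun v => pnC I v * κ) (cocompact ℂ ⊓ 𝓟 UH) (𝓝 κ) := by
      have := (pn_C_lim I).mul_const κ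
      rwa [one_mul] at this
    have hev : ∀ᶠ v in cocompact ℂ ⊓ 𝓟 UH, v ∈ UH := mem_inf_of_right (mem_principal_self _)
    have l3 : Tendsto (fun v => pnC p (ψ v)) (cocompact ℂ ⊓ 𝓟 UH) (𝓝 κ) := by
      refine l2.congr' ?_
      filter_upwards [hev] with v hv
      exact (hκ' v hv).symm
    exact tendsto_nhds_unique l3 l1
  refine ⟨p.im, p.re, hpU, fun v hv => ?_⟩
  have h6 := hκ' v hv
  rw [hκ1, mul_one] at h6
  unfold pnC at h6
  rw [div_eq_div_iff (pn_ne hpU (h1 v hv)) (pn_ne hI hv), conj_I] at h6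
  have h7 : p = p.re + p.im * I := (re_add_im p).symm
  have h8 : starRingEnd ℂ p = p.re - p.im * I := by
    apply Complex.ext <;> simp
  rw [h8] at h6
  have h9 : (2 * I) * (ψ v - (p.im * v + p.re)) = 0 := by
    have h10 : (ψ v - p) * (v - -I) - (v - I) * (ψ v - (p.re - p.im * I)) = 0 := by
      rw [h6]
      ring
    rw [h7] at h10
    simp only [add_re, add_im, ofReal_re, ofReal_im, mul_re, mul_im, I_re, I_im] at h10
    simp only [mul_zero, zero_mul, mul_one, sub_zero, add_zero, zero_add, sub_self] at h10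
    linear_combination h10
  have h10 : ψ v - (p.im * v + p.re) = 0 := by
    rcases mul_eq_zero.1 h9 with h | h
    · exfalso
      simp at h
    · exact h
  linear_combination h10

end Pool.Agent.Choc
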