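import Pool.Agent.Lib.MP_2b3e36_an.Re.PN
import Pool.Agent.Lib.MP_2b3e36_an.Re.PF1
import Pool.Agent.Lib.MP_2b3e36_an.Ex.E1a

/-!
PO. Uniqueness of the ends.

Proof. Let `F` be as in `IsEnds`. `ψ = sinv T ∘ F`, `χ = invFunOn F UH ∘ T`: holomorphic (the inverse of an
injective holomorphic function on an open set is holomorphic: for `F` its derivative has no zero,
`AnalyticOnNhd`/`InjOn` gives nonvanishing derivative, see how stage 1 gets it (Ex/E4 or Mathlib
`deriv_ne_zero_of_injOn`), then as in PE), map `UH` to `UH`, inverse to each other. `F v → 0` as `v → ∞` and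
`bv_zero` give `ψ v → ∞`. So `ψ v = α v + β`, `α > 0` (PN). As `v → 0` in `UH`, `ψ v → β` and
`Im (T (ψ v)) = Im (F v) → ∞`; by `cluster_top` (take an ultrafilter finer than `𝓝[UH] 0`, map it by `ψ`)
`β ∈ {v₁, v₂}`; in the same way `α + β ∈ {v₁, v₂}`; as `α > 0`, `β = v₁`, `α + β = v₂`. As `v → x`:
`F v → -2` within `Wd η`, so `ψ v → -1` (`bv_negTwo`), `α x + β = -1`: `x = (-1 - v₁)/(v₂ - v₁)`. In the same way
`α w + β = 1` (`bv_negOne`).
-/

set_option autoImplicit false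

open Complex Set Filter Topology Metric

namespace Pool.Agent.Choc

theorem po_uh_open : IsOpen UH := isOpen_lt continuous_const Complex.continuous_im

theorem po_main {η : ℝ} {T : ℂ → ℂ} {v₁ v₂ vc x w : ℝ} {F : ℂ → ℂ} (hF : IsEnds η x w F)
    (hT : Model2 η T v₁ v₂ vc) :
    ∃ α β : ℝ, 0 < α ∧ ∀ v ∈ UH, sinv T (F v) = α * v + β := by
  have hFm : ∀ v ∈ UH, F v ∈ Wd η := fun v hv => by
    rw [← hF.img]
    exact ⟨v, hv, rfl⟩
  have hTm : ∀ v ∈ UH, T v ∈ F '' UH := fun v hv => by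
    rw [hF.img, ← hT.img]
    exact ⟨v, hv, rfl⟩
  have hleft : ∀ z ∈ UH, Function.invFunOn F UH (F z) = z := fun z hz =>
    hF.inj.leftInvOn_invFunOn hz
  apply aut_affine (ψ := fun v => sinv T (F v)) (χ := fun v => Function.invFunOn F UH (T v))
  · intro v hv
    exact ((sinv_diff hT).comp hF.diff hFm) v hv
  · intro v hv
    apply DifferentiableAt.differentiableWithinAt
    obtain ⟨z, hz, hzv⟩ := hTm v hv
    have h1 := e1a_inv po_uh_open hF.diff hF.inj hleft hz
    rw [hzv] at h1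
    have h2 : DifferentiableAt ℂ T v :=
      (hT.diff v hv).differentiableAt (po_uh_open.mem_nhds hv)
    exact DifferentiableAt.comp (g := Function.invFunOn F UH) (f := T) v h1.differentiableAt h2
  · intro v hv
    exact sinv_mem hT (hFm v hv)
  · intro v hv
    exact Function.invFunOn_mem (hTm v hv)
  · intro v hv
    show Function.invFunOn F UH (T (sinv T (F v))) = v
    rw [model_sinv hT (hFm v hv), hleft v hv]
  · intro v hv
    show sinv T (F (Function.invFunOn F UH (T v))) = v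
    rw [Function.invFunOn_eq (hTm v hv), sinv_model hT hv]
  · have h1 : Tendsto F (cocompact ℂ ⊓ 𝓟 UH) (𝓝[Wd η] (0 : ℂ)) := by
      apply tendsto_nhdsWithin_iff.2
      refine ⟨hF.infty, ?_⟩
      have : UH ∈ cocompact ℂ ⊓ 𝓟 UH := mem_inf_of_right (mem_principal_self _)
      filter_upwards [this] with v hv
      exact hFm v hv
    exact (bv_zero hT).comp h1

theorem po_affine {α β : ℝ} {ψ : ℂ → ℂ} (h : ∀ v ∈ UH, ψ v = α * v + β) (t : ℝ) :
    Tendsto ψ (𝓝[UH] (t : ℂ)) (𝓝 ((α * t + β : ℝ) : ℂ)) := by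
  have hc : Continuous fun v : ℂ => (α : ℂ) * v + β := by fun_prop
  have h1 : Tendsto (fun v : ℂ => (α : ℂ) * v + β) (𝓝[UH] (t : ℂ)) (𝓝 ((α : ℂ) * t + β)) :=
    (hc.tendsto _).mono_left nhdsWithin_le_nhds
  have e : ((α * t + β : ℝ) : ℂ) = (α : ℂ) * t + β := by push_cast; ring
  rw [e]
  apply h1.congr'
  filter_upwards [self_mem_nhdsWithin] with v hv
  exact (h v hv).symm

theorem po_top {η : ℝ} {T : ℂ → ℂ} {v₁ v₂ vc : ℝ} {F : ℂ → ℂ} (hT : Model2 η T v₁ v₂ vc)
    (hFm : ∀ v ∈ UH, F v ∈ Wd η) {α β t : ℝ} (hψ : ∀ v ∈ UH, sinv T (F v) = α * v + β)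
    (htop : Tendsto (fun v => (F v).im) (𝓝[UH] (t : ℂ)) atTop) :
    α * t + β = v₁ ∨ α * t + β = v₂ := by
  have hne := uh_neBot t
  obtain ⟨g, hg⟩ := Ultrafilter.exists_le (𝓝[UH] (t : ℂ))
  have hUg : UH ∈ g := hg self_mem_nhdsWithin
  have hU : UH ∈ g.map (fun v => sinv T (F v)) := by
    rw [Ultrafilter.mem_map]
    filter_upwards [hUg] with v hv
    exact sinv_mem hT (hFm v hv)
  have hlim : Tendsto (fun v => (T v).im) (g.map (fun v => sinv T (F v)) : Ultrafilter ℂ)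
      atTop := by
    rw [Ultrafilter.coe_map, tendsto_map'_iff]
    have h1 : Tendsto (fun v => (F v).im) (g : Filter ℂ) atTop := htop.mono_left hg
    apply h1.congr'
    filter_upwards [hUg] with v hv
    show (F v).im = (T (sinv T (F v))).im
    rw [model_sinv hT (hFm v hv)]
  have hto : Tendsto (fun v => sinv T (F v)) (g : Filter ℂ) (𝓝 ((α * t + β : ℝ) : ℂ)) :=
    (po_affine hψ t).mono_left hg
  rcases cluster_top hT hU hlim with h | h
  · left
    rw [Ultrafilter.coe_map] at h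
    have h2 : Tendsto (fun v => sinv T (F v)) (g : Filter ℂ) (𝓝 (v₁ : ℂ)) :=
      h.trans nhdsWithin_le_nhds
    exact Complex.ofReal_injective (tendsto_nhds_unique hto h2)
  · right
    rw [Ultrafilter.coe_map] at h
    have h2 : Tendsto (fun v => sinv T (F v)) (g : Filter ℂ) (𝓝 (v₂ : ℂ)) :=
      h.trans nhdsWithin_le_nhds
    exact Complex.ofReal_injective (tendsto_nhds_unique hto h2)

theorem ends_unique {η : ℝ} {T : ℂ → ℂ} {v₁ v₂ vc x w : ℝ} (h : Ends η x w)
    (hT : Model2 η T v₁ v₂ vc) : x = ea v₁ v₂ ∧ w = ec v₁ v₂ := by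
  obtain ⟨F, hF⟩ := h
  obtain ⟨α, β, hα, hψ⟩ := po_main hF hT
  have hFm : ∀ v ∈ UH, F v ∈ Wd η := fun v hv => by
    rw [← hF.img]
    exact ⟨v, hv, rfl⟩
  have h12 : v₁ < v₂ := hT.lt1.trans hT.lt2
  have h0 : α * 0 + β = v₁ ∨ α * 0 + β = v₂ := by
    apply po_top hT hFm hψ
    rw [Complex.ofReal_zero]
    exact hF.zero
  have h1 : α * 1 + β = v₁ ∨ α * 1 + β = v₂ := by
    apply po_top hT hFm hψ
    rw [Complex.ofReal_one]
    exact hF.one
  have hb : β = v₁ ∧ α + β = v₂ := by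
    rw [mul_zero, zero_add] at h0
    rw [mul_one] at h1
    rcases h0 with h0 | h0 <;> rcases h1 with h1 | h1
    · exfalso; linarith
    · exact ⟨h0, h1⟩
    · exfalso; linarith
    · exfalso; linarith
  have hxw : ∀ (t c : ℝ) (p : ℂ), Tendsto F (𝓝[UH] (t : ℂ)) (𝓝 p) →
      Tendsto (sinv T) (𝓝[Wd η] p) (𝓝[UH] (c : ℂ)) → α * t + β = c := by
    intro t c p h3 h4
    have hne := uh_neBot t
    have h5 : Tendsto F (𝓝[UH] (t : ℂ)) (𝓝[Wd η] p) := by
      apply tendsto_nhdsWithin_iff.2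
      refine ⟨h3, ?_⟩
      filter_upwards [self_mem_nhdsWithin] with v hv
      exact hFm v hv
    have h6 : Tendsto (fun v => sinv T (F v)) (𝓝[UH] (t : ℂ)) (𝓝 (c : ℂ)) :=
      (h4.comp h5).mono_right nhdsWithin_le_nhds
    exact Complex.ofReal_injective (tendsto_nhds_unique (po_affine hψ t) h6)
  have hx : α * x + β = -1 := by
    apply hxw x (-1) (-2) hF.atx
    have := bv_negTwo hT
    rw [Complex.ofReal_neg, Complex.ofReal_one]
    exact this
  have hw : α * w + β = 1 := by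
    apply hxw w 1 (-1) hF.atw
    have := bv_negOne hT
    rw [Complex.ofReal_one]
    exact this
  have ha : α = v₂ - v₁ := by linarith [hb.1, hb.2]
  unfold ea ec
  have hne : v₂ - v₁ ≠ 0 := by linarith
  constructor
  · rw [eq_div_iff hne, ← ha]
    linarith [hb.1]
  · rw [eq_div_iff hne, ← ha]
    linarith [hb.1]

end Pool.Agent.Choc
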