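import Pool.Agent.Lib.MP_2b3e36_an.Re.Defs2
import Pool.Agent.Lib.MP_2b3e36_an.Ex.R5

/-!
RA. Rigidity for two real ones: the function `Φ = (g - T) K / T'` and its boundary values.

`K v = (v - vc)/((1 - v^2)(v - v₁)(v - v₂))` is real on the reals, `K > 0` on `(-1,1)`, `K < 0` on `(1,∞)`.
On the vertical sides `g - T` and `T'` are imaginary: `Φ` has a real limit (the zero of `T'` at `vc` is
cancelled).  At the cusps `v₁`, `v₂` `g - T → log (κg/κT)/(π i)` and `(v - v₁) T' → 1/(π i)`: real limit.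
On `(-1,1)` the limit has a positive imaginary part.  On `(1,∞)` `Im Φ → (4 K/κ) Re ((a - b) conj (b + 1/2)) ≥ 0`
for the points `a, b ∈ Sig` (chord and tangent).
-/

set_option autoImplicit false

open Complex Set Filter Topology Metric

namespace Pool.Agent.Choc

noncomputable section

/-- the real factor without the zero at `vc` -/
def ra_M (v₁ v₂ : ℝ) (v : ℂ) : ℂ := 1 / ((1 - v ^ 2) * ((v - v₁) * (v - v₂)))

/-- the function of the Phragmen-Lindelöf argument -/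
def ra_Phi (T g : ℂ → ℂ) (v₁ v₂ vc : ℝ) (v : ℂ) : ℂ :=
  (g v - T v) * ((v - vc) * ra_M v₁ v₂ v) / deriv T v

lemma ra_sub_ne {v : ℂ} (hv : 0 < v.im) (x : ℝ) : v - (x : ℂ) ≠ 0 := by
  intro h
  have h1 : (v - (x : ℂ)).im = v.im := by simp
  rw [h] at h1
  simp at h1
  linarith

lemma ra_Phi_diff {η : ℝ} {T g : ℂ → ℂ} {v₁ v₂ vc : ℝ} (hT : Model2 η T v₁ v₂ vc)
    (hg : Lift2 v₁ v₂ g) : DifferentiableOn ℂ (ra_Phi T g v₁ v₂ vc) UH := by
  have hdd : DifferentiableOn ℂ (deriv T) UH := hT.diff.deriv r1_open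
  have hM : DifferentiableOn ℂ (ra_M v₁ v₂) UH := by
    unfold ra_M
    refine (differentiableOn_const _).div ?_ ?_
    · fun_prop
    · intro v hv
      exact mul_ne_zero (r4_one_sub hv) (mul_ne_zero (ra_sub_ne hv _) (ra_sub_ne hv _))
  unfold ra_Phi
  refine ((hg.diff.sub hT.diff).mul (DifferentiableOn.mul ?_ hM)).div hdd hT.deriv_ne
  fun_prop

lemma ra_M_cont {v₁ v₂ x : ℝ} (hx : 1 - x ^ 2 ≠ 0) (h1 : x ≠ v₁) (h2 : x ≠ v₂) :
    ContinuousAt (ra_M v₁ v₂) x := by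
  have e1 : (1 : ℂ) - (x : ℂ) ^ 2 ≠ 0 := by exact_mod_cast hx
  have e2 : (x : ℂ) - v₁ ≠ 0 := by exact_mod_cast sub_ne_zero.2 h1
  have e3 : (x : ℂ) - v₂ ≠ 0 := by exact_mod_cast sub_ne_zero.2 h2
  unfold ra_M
  refine continuousAt_const.div ?_ (mul_ne_zero e1 (mul_ne_zero e2 e3))
  fun_prop

lemma ra_M_real (v₁ v₂ x : ℝ) :
    ra_M v₁ v₂ x = ((1 / ((1 - x ^ 2) * ((x - v₁) * (x - v₂))) : ℝ) : ℂ) := by
  unfold ra_M
  push_cast
  rfl

/-- local equality gives equality of the derivatives -/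
lemma ra_deriv {T τ : ℂ → ℂ} {x : ℂ} {r : ℝ}
    (he : ∀ v ∈ ball x r, 0 < v.im → T v = τ v) {v : ℂ} (hv : v ∈ ball x r) (hvi : 0 < v.im) :
    deriv T v = deriv τ v := by
  have hev : T =ᶠ[𝓝 v] τ := by
    have h1 : ball x r ∈ 𝓝 v := isOpen_ball.mem_nhds hv
    have h2 : UH ∈ 𝓝 v := r1_open.mem_nhds hvi
    filter_upwards [h1, h2] with w hw1 hw2 using he w hw1 hw2
  exact hev.deriv_eq

lemma ra_ball {x r : ℝ} (hr : 0 < r) : ball (x : ℂ) r ∈ 𝓝[UH] (x : ℂ) :=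
  mem_nhdsWithin_of_mem_nhds (ball_mem_nhds _ hr)

/-- a local extension gives a limit -/
lemma ra_tendsto {T τ : ℂ → ℂ} {x r : ℝ} (hr : 0 < r)
    (hd : DifferentiableOn ℂ τ (ball (x : ℂ) r))
    (he : ∀ v ∈ ball (x : ℂ) r, 0 < v.im → T v = τ v) :
    Tendsto T (𝓝[UH] (x : ℂ)) (𝓝 (τ x)) := by
  have h1 : Tendsto τ (𝓝[UH] (x : ℂ)) (𝓝 (τ x)) :=
    ((hd.differentiableAt (ball_mem_nhds _ hr)).continuousAt.tendsto).mono_left
      nhdsWithin_le_nhds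
  refine h1.congr' ?_
  filter_upwards [ra_ball hr, self_mem_nhdsWithin] with v hv1 hv2
  exact (he v hv1 hv2).symm

/-- the limit of `Φ` at a point where `T'` does not vanish -/
lemma ra_lim {T g : ℂ → ℂ} {v₁ v₂ vc x r : ℝ} {τ : ℂ → ℂ} {ℓ : ℂ} (hr : 0 < r)
    (hd : DifferentiableOn ℂ τ (ball (x : ℂ) r))
    (he : ∀ v ∈ ball (x : ℂ) r, 0 < v.im → T v = τ v) (hne : deriv τ x ≠ 0)
    (hg : Tendsto g (𝓝[UH] (x : ℂ)) (𝓝 ℓ)) (hx : 1 - x ^ 2 ≠ 0) (h1 : x ≠ v₁) (h2 : x ≠ v₂) :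
    Tendsto (ra_Phi T g v₁ v₂ vc) (𝓝[UH] (x : ℂ))
      (𝓝 ((ℓ - τ x) * ((x - vc) * ra_M v₁ v₂ x) / deriv τ x)) := by
  have hT := ra_tendsto hr hd he
  have hK : Tendsto (fun v : ℂ => (v - vc) * ra_M v₁ v₂ v) (𝓝[UH] (x : ℂ))
      (𝓝 ((x - vc) * ra_M v₁ v₂ x)) :=
    (((continuousAt_id.sub continuousAt_const).mul (ra_M_cont hx h1 h2)).tendsto).mono_left
      nhdsWithin_le_nhds
  have hD : Tendsto (deriv T) (𝓝[UH] (x : ℂ)) (𝓝 (deriv τ x)) := by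
    have h3 : Tendsto (deriv τ) (𝓝[UH] (x : ℂ)) (𝓝 (deriv τ x)) :=
      (r4_dcont hr hd).tendsto.mono_left nhdsWithin_le_nhds
    refine h3.congr' ?_
    filter_upwards [ra_ball hr, self_mem_nhdsWithin] with v hv1 hv2
    exact (ra_deriv he hv1 hv2).symm
  exact ((hg.sub hT).mul hK).div hD hne

lemma ra_deriv_re {τ : ℂ → ℂ} {x r c : ℝ} (hr : 0 < r) (hd : DifferentiableAt ℂ τ x)
    (hre : ∀ u : ℝ, (u : ℂ) ∈ ball (x : ℂ) r → (τ u).re = c) : (deriv τ x).re = 0 := by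
  have h1 := r4_deriv_re (τ := fun v => τ v - c) hr (hd.sub_const _) (fun u hu => by
    rw [Complex.sub_re, hre u hu, Complex.ofReal_re, sub_self])
  rwa [deriv_sub_const] at h1

/-- `a k / b` is real for imaginary `a`, `b` and real `k` -/
lemma ra_real {a b : ℂ} (k : ℝ) (ha : a.re = 0) (hb : b.re = 0) : (a * k / b).im = 0 := by
  rw [Complex.div_im]
  simp [ha, hb]

lemma ra_zero_of_lim {Φ : ℂ → ℂ} {x : ℝ} {ν : ℂ} (h : Tendsto Φ (𝓝[UH] (x : ℂ)) (𝓝 ν))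
    (hν : 0 ≤ ν.im) : ∀ ε > 0, ∀ᶠ v in 𝓝[UH] (x : ℂ), -ε < (Φ v).im := by
  intro ε hε
  have h1 : Tendsto (fun v => (Φ v).im) (𝓝[UH] (x : ℂ)) (𝓝 ν.im) :=
    (Complex.continuous_im.tendsto _).comp h
  exact h1.eventually_const_lt (by linarith)

/-- vertical sides -/
lemma ra_vert {T g : ℂ → ℂ} {v₁ v₂ vc x c : ℝ} (hT : SideNd T (Vert c) x)
    (hg : SideAt g (Vert c) x) (hx : 1 - x ^ 2 ≠ 0) (h1 : x ≠ v₁) (h2 : x ≠ v₂) :
    ∃ ν : ℂ, ν.im = 0 ∧ Tendsto (ra_Phi T g v₁ v₂ vc) (𝓝[UH] (x : ℂ)) (𝓝 ν) := by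
  obtain ⟨r, hr, τ, hd, he, hS, hne⟩ := hT
  obtain ⟨s, hs, γ, hgd, hge, hgS⟩ := hg
  refine ⟨_, ?_, ra_lim hr hd he hne (ra_tendsto hs hgd hge) hx h1 h2⟩
  have e1 : ((x : ℂ) - vc) * ra_M v₁ v₂ x
      = (((x - vc) * (1 / ((1 - x ^ 2) * ((x - v₁) * (x - v₂)))) : ℝ) : ℂ) := by
    rw [ra_M_real]; push_cast; ring
  rw [e1]
  refine ra_real _ ?_ ?_
  · rw [Complex.sub_re, (hgS x (mem_ball_self hs)).1, (hS x (mem_ball_self hr)).1, sub_self]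
  · exact ra_deriv_re hr (hd.differentiableAt (ball_mem_nhds _ hr)) (fun u hu => (hS u hu).1)

/-- the slit -/
lemma ra_slit {η : ℝ} {T g : ℂ → ℂ} {v₁ v₂ vc : ℝ} (hT : Model2 η T v₁ v₂ vc)
    (hg : Lift2 v₁ v₂ g) {x : ℝ} (hx1 : v₁ < x) (hx2 : x < v₂) :
    ∃ ν : ℂ, ν.im = 0 ∧ Tendsto (ra_Phi T g v₁ v₂ vc) (𝓝[UH] (x : ℂ)) (𝓝 ν) := by
  obtain ⟨r, hr, τ, hd, he, hS, hne, htip⟩ := hT.slit x hx1 hx2
  have hx3 : x < -1 := hx2.trans hT.lt3
  have hx4 : 1 - x ^ 2 ≠ 0 := by nlinarith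
  have hgS1 := hg.side1 x hx1 hx2
  by_cases hxv : x = vc
  · obtain ⟨s, hs, γ, hgd, hge, hgS⟩ := hgS1
    obtain ⟨h6, h7, h7'⟩ := htip hxv
    have hd2 : HasDerivAt (deriv τ) (deriv (deriv τ) x) x :=
      ((hd.deriv isOpen_ball).differentiableAt (ball_mem_nhds _ hr)).hasDerivAt
    have hre : ∀ u : ℝ, (u : ℂ) ∈ ball (x : ℂ) r → (deriv τ u).re = 0 := by
      intro u hu
      have hu' : |u - x| < r := by
        rw [mem_ball, dist_eq_norm, ← Complex.ofReal_sub, Complex.norm_real,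
          Real.norm_eq_abs] at hu
        exact hu
      refine ra_deriv_re (r := r - |u - x|) (c := -1) (by linarith)
        (hd.differentiableAt (isOpen_ball.mem_nhds hu)) ?_
      intro w hw
      refine (hS w (r4_mem ?_)).1
      rw [mem_ball, dist_eq_norm, ← Complex.ofReal_sub, Complex.norm_real,
        Real.norm_eq_abs] at hw
      have h6 : |w - x| ≤ |w - u| + |u - x| := abs_sub_le _ _ _
      linarith
    have h8 : (deriv (deriv τ) x).re = 0 := r4_deriv_re hr hd2.differentiableAt hre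
    refine ⟨(γ x - τ x) * ra_M v₁ v₂ x / deriv (deriv τ) x, ?_, ?_⟩
    · rw [ra_M_real]
      refine ra_real _ ?_ h8
      rw [Complex.sub_re, (hgS x (mem_ball_self hs)).1, (hS x (mem_ball_self hr)).1, sub_self]
    · have h9 : Tendsto (slope (deriv τ) x) (𝓝[≠] (x : ℂ)) (𝓝 (deriv (deriv τ) x)) :=
        hasDerivAt_iff_tendsto_slope.1 hd2
      have hle : 𝓝[UH] (x : ℂ) ≤ 𝓝[≠] (x : ℂ) := by
        apply nhdsWithin_mono
        intro v hv h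
        have h10 : v = x := h
        have h11 : 0 < v.im := hv
        rw [h10] at h11; simp at h11
      have h10 := h9.mono_left hle
      have h11 := (((ra_tendsto hs hgd hge).sub (ra_tendsto hr hd he)).mul
        ((ra_M_cont hx4 hx1.ne' hx2.ne).tendsto.mono_left
          (nhdsWithin_le_nhds (s := UH)))).div h10 h7
      refine h11.congr' ?_
      filter_upwards [ra_ball hr, self_mem_nhdsWithin] with v hv1 hv2
      have h15 : v - (x : ℂ) ≠ 0 := ra_sub_ne hv2 x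
      have h13 : deriv T v = deriv τ v := ra_deriv he hv1 hv2
      have h14 : deriv τ v ≠ 0 := by rw [← h13]; exact hT.deriv_ne v hv2
      unfold ra_Phi
      rw [h13, ← hxv]
      show (g v - T v) * ra_M v₁ v₂ v / slope (deriv τ) (x : ℂ) v = _
      rw [slope_def_field, h6, sub_zero]
      field_simp
  · refine ra_vert (c := -1) ⟨r, hr, τ, hd, he, fun u hu => ?_, hne hxv⟩ hgS1 hx4 hx1.ne' hx2.ne
    obtain ⟨h3, h4⟩ := hS u hu
    exact ⟨h3, lt_of_lt_of_le hT.eta_pos h4⟩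

/-- the free arc -/
lemma ra_free {η : ℝ} {T g : ℂ → ℂ} {v₁ v₂ vc : ℝ} (hT : Model2 η T v₁ v₂ vc)
    (hg : Lift2 v₁ v₂ g) {x : ℝ} (hx1 : -1 < x) (hx2 : x < 1) :
    ∃ ν : ℂ, 0 < ν.im ∧ Tendsto (ra_Phi T g v₁ v₂ vc) (𝓝[UH] (x : ℂ)) (𝓝 ν) := by
  obtain ⟨r, hr, τ, hd, he, hS, κ, hκ, hκ'⟩ := hT.free x hx1 hx2
  obtain ⟨ℓ, hℓ, hℓ'⟩ := hg.inner x hx1.le hx2.le
  have h1 := hT.lt1
  have h2 := hT.lt2
  have h3 := hT.lt3
  have hx4 : 0 < 1 - x ^ 2 := by nlinarith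
  have hκ0 : (κ : ℂ) ≠ 0 := by exact_mod_cast hκ.ne'
  refine ⟨_, ?_, ra_lim hr hd he (by rw [hκ']; exact hκ0) hℓ' hx4.ne' (by linarith)
    (by linarith)⟩
  have e1 : (ℓ - τ x) * (((x : ℂ) - vc) * ra_M v₁ v₂ x) / deriv τ x
      = (((x - vc) * (1 / ((1 - x ^ 2) * ((x - v₁) * (x - v₂)))) / κ : ℝ) : ℂ) * (ℓ - τ x) := by
    rw [ra_M_real, hκ']; push_cast; ring
  rw [e1, Complex.im_ofReal_mul, Complex.sub_im, (hS x (mem_ball_self hr)).1, sub_zero]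
  refine mul_pos (div_pos (mul_pos (by linarith) ?_) hκ) hℓ
  exact one_div_pos.2 (mul_pos hx4 (mul_pos (by linarith) (by linarith)))

lemma ra_sig {a : ℂ} (ha : a ∈ Sig) : (a.re + 1 / 2) ^ 2 + a.im ^ 2 = 1 / 4 := by
  have hc : Complex.normSq (a + 1 / 2) = 1 / 4 := by
    rw [Complex.normSq_eq_norm_sq, ha.2]; norm_num
  rw [Complex.normSq_apply] at hc
  simp at hc
  nlinarith

/-- the geodesic -/
lemma ra_arc {η : ℝ} {T g : ℂ → ℂ} {v₁ v₂ vc : ℝ} (hT : Model2 η T v₁ v₂ vc)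
    (hg : Lift2 v₁ v₂ g) {x : ℝ} (hx : 1 < x) :
    ∃ ν : ℂ, 0 ≤ ν.im ∧ Tendsto (ra_Phi T g v₁ v₂ vc) (𝓝[UH] (x : ℂ)) (𝓝 ν) := by
  obtain ⟨r, hr, τ, hd, he, hS, κ, hκ, hκ'⟩ := hT.arc x hx
  obtain ⟨s, hs, γ, hgd, hge, hgS⟩ := hg.arc x hx
  have h1 := hT.lt1
  have h2 := hT.lt2
  have h3 := hT.lt3
  have hx4 : 1 - x ^ 2 < 0 := by nlinarith
  have hb := hS x (mem_ball_self hr)
  have ha := hgS x (mem_ball_self hs)
  set a := γ x with hadef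
  set b := τ x with hbdef
  have hb2 := ra_sig hb
  have ha2 := ra_sig ha
  have hκ0 : (κ : ℂ) ≠ 0 := by exact_mod_cast hκ.ne'
  have hc2 : (b + 1 / 2) * starRingEnd ℂ (b + 1 / 2) = 1 / 4 := by
    rw [Complex.mul_conj, Complex.normSq_eq_norm_sq, hb.2]; norm_num
  have hc0 : b + 1 / 2 ≠ 0 := by
    intro h
    rw [h] at hc2
    norm_num at hc2
  have hne : deriv τ x ≠ 0 := by
    rw [hκ']
    exact mul_ne_zero (neg_ne_zero.2 (mul_ne_zero hκ0 Complex.I_ne_zero)) hc0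
  refine ⟨_, ?_, ra_lim hr hd he hne (ra_tendsto hs hgd hge) hx4.ne (by linarith)
    (by linarith)⟩
  set k : ℝ := (x - vc) * (1 / ((1 - x ^ 2) * ((x - v₁) * (x - v₂)))) with hk
  have hk0 : k < 0 := by
    rw [hk]
    refine mul_neg_of_pos_of_neg (by linarith) ?_
    exact one_div_neg.2 (mul_neg_of_neg_of_pos hx4 (mul_pos (by linarith) (by linarith)))
  have e1 : (a - b) * (((x : ℂ) - vc) * ra_M v₁ v₂ x) / deriv τ x
      = ((4 * k / κ : ℝ) : ℂ) * (I * ((a - b) * starRingEnd ℂ (b + 1 / 2))) := by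
    have h8 : starRingEnd ℂ (b + 1 / 2) = 1 / (4 * (b + 1 / 2)) := by
      rw [eq_div_iff (mul_ne_zero (by norm_num) hc0)]
      linear_combination 4 * hc2
    have h9 : ((x : ℂ) - vc) * ra_M v₁ v₂ x = (k : ℂ) := by
      rw [ra_M_real, hk]; push_cast; ring
    rw [h8, h9, hκ']
    push_cast
    have hI := Complex.I_ne_zero
    field_simp
    rw [Complex.I_sq]
    ring
  rw [e1, Complex.im_ofReal_mul]
  have e2 : (I * ((a - b) * starRingEnd ℂ (b + 1 / 2))).im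
      = (a.re - b.re) * (b.re + 1 / 2) + (a.im - b.im) * b.im := by
    simp
  rw [e2]
  have h5 : 4 * k / κ ≤ 0 := div_nonpos_of_nonpos_of_nonneg (by linarith) hκ.le
  have h6 : (a.re - b.re) * (b.re + 1 / 2) + (a.im - b.im) * b.im ≤ 0 := by
    nlinarith [sq_nonneg (a.re - b.re), sq_nonneg (a.im - b.im)]
  exact mul_nonneg_of_nonpos_of_nonpos h5 h6

/-- difference of logarithms in the upper half plane -/
lemma ra_log_sub {z w : ℂ} (hz : 0 < z.im) (hw : 0 < w.im) : log z - log w = log (z / w) := by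
  have hz0 : z ≠ 0 := Complex.slitPlane_ne_zero (r1_slitPlane hz)
  have hw0 : w ≠ 0 := Complex.slitPlane_ne_zero (r1_slitPlane hw)
  have h1 : exp (log z - log w) = z / w := by
    rw [Complex.exp_sub, Complex.exp_log hz0, Complex.exp_log hw0]
  have h2 : (log z - log w).im = arg z - arg w := by
    rw [Complex.sub_im, Complex.log_im, Complex.log_im]
  have h3 := Complex.arg_nonneg_iff.2 hz.le
  have h4 := Complex.arg_nonneg_iff.2 hw.le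
  have h5 := Complex.arg_le_pi z
  have h6 := Complex.arg_le_pi w
  have h7 : arg w ≠ Real.pi := by
    intro h
    rw [Complex.arg_eq_pi_iff] at h
    exact hw.ne' h.2
  have h8 : arg w < Real.pi := lt_of_le_of_ne h6 h7
  rw [← h1, Complex.log_exp (by rw [h2]; linarith) (by rw [h2]; linarith)]

/-- the cusps -/
lemma ra_cusp {T g : ℂ → ℂ} {a m : ℝ} {N : ℂ → ℂ} (hN : ContinuousAt N a) (hNr : (N a).im = 0)
    (hT : CuspAt T a m) (hg : CuspAt g a m) :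
    ∃ ν : ℂ, ν.im = 0 ∧
      Tendsto (fun v => (g v - T v) * (N v / (v - a)) / deriv T v) (𝓝[UH] (a : ℂ)) (𝓝 ν) := by
  obtain ⟨r, hr, Q, hQd, hQ0, ⟨κ, hκ, hκ'⟩, _, hQe⟩ := hT
  obtain ⟨s, hs, R, hRd, hR0, ⟨μ, hμ, hμ'⟩, _, hRe⟩ := hg
  have hpi := r3_pi
  have hslope : ∀ {P : ℂ → ℂ} {t : ℝ}, 0 < t → DifferentiableOn ℂ P (ball (a : ℂ) t) → P a = 0 →
      Tendsto (fun v => P v / (v - a)) (𝓝[UH] (a : ℂ)) (𝓝 (deriv P a)) := by
    intro P t ht hPd hP0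
    have h1 : HasDerivAt P (deriv P a) a := (hPd.differentiableAt (ball_mem_nhds _ ht)).hasDerivAt
    have h2 := hasDerivAt_iff_tendsto_slope.1 h1
    have hle : 𝓝[UH] (a : ℂ) ≤ 𝓝[≠] (a : ℂ) := by
      apply nhdsWithin_mono
      intro v hv h
      have h10 : v = a := h
      have h11 : 0 < v.im := hv
      rw [h10] at h11; simp at h11
    refine (h2.mono_left hle).congr (fun v => ?_)
    rw [slope_def_field, hP0, sub_zero]
  have hQs := hslope hr hQd hQ0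
  have hRs := hslope hs hRd hR0
  rw [hκ'] at hQs
  rw [hμ'] at hRs
  have hκ0 : (κ : ℂ) ≠ 0 := by exact_mod_cast hκ.ne'
  have hμ0 : (μ : ℂ) ≠ 0 := by exact_mod_cast hμ.ne'
  -- the quotient
  have hquo : Tendsto (fun v => R v / Q v) (𝓝[UH] (a : ℂ)) (𝓝 ((μ : ℂ) / κ)) := by
    refine (hRs.div hQs hκ0).congr' ?_
    filter_upwards [self_mem_nhdsWithin] with v hv
    have h1 := ra_sub_ne hv a
    show R v / (v - a) / (Q v / (v - a)) = R v / Q v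
    rw [div_div_div_cancel_right₀ h1]
  have hmk : ((μ : ℂ) / κ) = ((μ / κ : ℝ) : ℂ) := by push_cast; rfl
  have hlog : Tendsto (fun v => log (R v / Q v)) (𝓝[UH] (a : ℂ)) (𝓝 (log ((μ : ℂ) / κ))) := by
    refine hquo.clog ?_
    rw [hmk]
    exact Complex.ofReal_mem_slitPlane.2 (div_pos hμ hκ)
  have hQ' : Tendsto (deriv Q) (𝓝[UH] (a : ℂ)) (𝓝 (κ : ℂ)) := by
    have h1 := (r4_dcont hr hQd).tendsto.mono_left (nhdsWithin_le_nhds (s := UH))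
    rwa [hκ'] at h1
  have hmain : Tendsto (fun v => log (R v / Q v) / (Real.pi * I) * N v *
      ((Real.pi * I) * (Q v / (v - a)) / deriv Q v)) (𝓝[UH] (a : ℂ))
      (𝓝 (log ((μ : ℂ) / κ) / (Real.pi * I) * N a * ((Real.pi * I) * (κ : ℂ) / κ))) :=
    (((hlog.div_const _).mul (hN.tendsto.mono_left nhdsWithin_le_nhds))).mul
      ((tendsto_const_nhds.mul hQs).div hQ' hκ0)
  refine ⟨_, ?_, hmain.congr' ?_⟩
  · have e1 : log ((μ : ℂ) / κ) / (Real.pi * I) * N a * ((Real.pi * I) * (κ : ℂ) / κ)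
        = log ((μ : ℂ) / κ) * N a := by
      field_simp
    rw [e1, hmk, ← Complex.ofReal_log (div_pos hμ hκ).le, Complex.im_ofReal_mul, hNr, mul_zero]
  · filter_upwards [ra_ball hr, ra_ball hs, self_mem_nhdsWithin] with v hv1 hv2 hv3
    have hvi : 0 < v.im := hv3
    obtain ⟨q1, q2, q3⟩ := hQe v hv1 hvi
    obtain ⟨p1, p2, p3⟩ := hRe v hv2 hvi
    have hQv : Q v ≠ 0 := Complex.slitPlane_ne_zero (r1_slitPlane q1)
    have hd : deriv T v = deriv Q v / Q v / (Real.pi * I) := by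
      have h1 : HasDerivAt Q (deriv Q v) v :=
        (hQd.differentiableAt (isOpen_ball.mem_nhds hv1)).hasDerivAt
      have h2 : HasDerivAt (fun w => log (Q w) / (Real.pi * I) - m)
          (deriv Q v / Q v / (Real.pi * I)) v :=
        ((h1.clog (r1_slitPlane q1)).div_const _).sub_const _
      rw [← h2.deriv]
      exact ra_deriv (fun w hw hwi => (hQe w hw hwi).2.2) hv1 hvi
    have h3 := ra_sub_ne hvi a
    rw [hd, q3, p3, ← ra_log_sub p1 q1]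
    by_cases h4 : deriv Q v = 0
    · rw [h4]; simp
    · field_simp
      ring

lemma ra_cusp1 {η : ℝ} {T g : ℂ → ℂ} {v₁ v₂ vc : ℝ} (hT : Model2 η T v₁ v₂ vc)
    (hg : Lift2 v₁ v₂ g) :
    ∃ ν : ℂ, ν.im = 0 ∧ Tendsto (ra_Phi T g v₁ v₂ vc) (𝓝[UH] (v₁ : ℂ)) (𝓝 ν) := by
  have h1 := hT.lt1
  have h2 := hT.lt2
  have h3 := hT.lt3
  have e1 : 1 - v₁ ^ 2 ≠ 0 := by nlinarith
  have e1c : (1 : ℂ) - (v₁ : ℂ) ^ 2 ≠ 0 := by exact_mod_cast e1
  have e2c : (v₁ : ℂ) - v₂ ≠ 0 := by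
    have : v₁ - v₂ ≠ 0 := by linarith
    exact_mod_cast this
  obtain ⟨ν, hν, h⟩ := ra_cusp (N := fun v : ℂ => (v - vc) / ((1 - v ^ 2) * (v - v₂)))
    ((by fun_prop : ContinuousAt (fun v : ℂ => v - vc) v₁).div
      (by fun_prop : ContinuousAt (fun v : ℂ => (1 - v ^ 2) * (v - v₂)) v₁)
      (mul_ne_zero e1c e2c)) (by
        have : ((v₁ : ℂ) - vc) / ((1 - (v₁ : ℂ) ^ 2) * (v₁ - v₂))
          = (((v₁ - vc) / ((1 - v₁ ^ 2) * (v₁ - v₂)) : ℝ) : ℂ) := by push_cast; rfl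
        show (((v₁ : ℂ) - vc) / ((1 - (v₁ : ℂ) ^ 2) * (v₁ - v₂))).im = 0
        rw [this, Complex.ofReal_im]) hT.cusp1 hg.cusp1
  refine ⟨ν, hν, h.congr' ?_⟩
  filter_upwards [self_mem_nhdsWithin] with v hv
  have hvi : 0 < v.im := hv
  have h4 := ra_sub_ne hvi v₁
  have h5 := ra_sub_ne hvi v₂
  have h6 := r4_one_sub hvi
  unfold ra_Phi ra_M
  field_simp

lemma ra_cusp2 {η : ℝ} {T g : ℂ → ℂ} {v₁ v₂ vc : ℝ} (hT : Model2 η T v₁ v₂ vc)
    (hg : Lift2 v₁ v₂ g) :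
    ∃ ν : ℂ, ν.im = 0 ∧ Tendsto (ra_Phi T g v₁ v₂ vc) (𝓝[UH] (v₂ : ℂ)) (𝓝 ν) := by
  have h1 := hT.lt1
  have h2 := hT.lt2
  have h3 := hT.lt3
  have e1 : 1 - v₂ ^ 2 ≠ 0 := by nlinarith
  have e1c : (1 : ℂ) - (v₂ : ℂ) ^ 2 ≠ 0 := by exact_mod_cast e1
  have e2c : (v₂ : ℂ) - v₁ ≠ 0 := by
    have : v₂ - v₁ ≠ 0 := by linarith
    exact_mod_cast this
  obtain ⟨ν, hν, h⟩ := ra_cusp (N := fun v : ℂ => (v - vc) / ((1 - v ^ 2) * (v - v₁)))
    ((by fun_prop : ContinuousAt (fun v : ℂ => v - vc) v₂).div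
      (by fun_prop : ContinuousAt (fun v : ℂ => (1 - v ^ 2) * (v - v₁)) v₂)
      (mul_ne_zero e1c e2c)) (by
        have : ((v₂ : ℂ) - vc) / ((1 - (v₂ : ℂ) ^ 2) * (v₂ - v₁))
          = (((v₂ - vc) / ((1 - v₂ ^ 2) * (v₂ - v₁)) : ℝ) : ℂ) := by push_cast; rfl
        show (((v₂ : ℂ) - vc) / ((1 - (v₂ : ℂ) ^ 2) * (v₂ - v₁))).im = 0
        rw [this, Complex.ofReal_im]) hT.cusp2 hg.cusp2
  refine ⟨ν, hν, h.congr' ?_⟩
  filter_upwards [self_mem_nhdsWithin] with v hv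
  have hvi : 0 < v.im := hv
  have h4 := ra_sub_ne hvi v₁
  have h5 := ra_sub_ne hvi v₂
  have h6 := r4_one_sub hvi
  unfold ra_Phi ra_M
  field_simp

/-- the boundary condition of the Phragmen-Lindelöf argument -/
theorem ra_real_axis {η : ℝ} {T g : ℂ → ℂ} {v₁ v₂ vc : ℝ} (hT : Model2 η T v₁ v₂ vc)
    (hg : Lift2 v₁ v₂ g) (x : ℝ) (hx1 : x ≠ 1) (hx2 : x ≠ -1) :
    ∀ ε > 0, ∀ᶠ v in 𝓝[UH] (x : ℂ), -ε < (ra_Phi T g v₁ v₂ vc v).im := by
  have h1 := hT.lt1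
  have h2 := hT.lt2
  have h3 := hT.lt3
  have key : ∃ ν : ℂ, 0 ≤ ν.im ∧ Tendsto (ra_Phi T g v₁ v₂ vc) (𝓝[UH] (x : ℂ)) (𝓝 ν) := by
    rcases lt_trichotomy x v₁ with h | h | h
    · obtain ⟨ν, hν, h'⟩ := ra_vert (vc := vc) (hT.side0 x h) (hg.side0 x h)
        (by nlinarith) h.ne (by linarith : x < v₂).ne
      exact ⟨ν, hν.ge, h'⟩
    · obtain ⟨ν, hν, h'⟩ := ra_cusp1 hT hg
      rw [h]
      exact ⟨ν, hν.ge, h'⟩
    · rcases lt_trichotomy x v₂ with h' | h' | h'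
      · obtain ⟨ν, hν, h''⟩ := ra_slit hT hg h h'
        exact ⟨ν, hν.ge, h''⟩
      · obtain ⟨ν, hν, h''⟩ := ra_cusp2 hT hg
        rw [h']
        exact ⟨ν, hν.ge, h''⟩
      · rcases lt_trichotomy x (-1) with h4 | h4 | h4
        · obtain ⟨ν, hν, h''⟩ := ra_vert (vc := vc) (hT.side2 x h' h4) (hg.side2 x h' h4)
            (by nlinarith) h.ne' h'.ne'
          exact ⟨ν, hν.ge, h''⟩
        · exact absurd h4 hx2
        · rcases lt_trichotomy x 1 with h5 | h5 | h5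
          · obtain ⟨ν, hν, h''⟩ := ra_free hT hg h4 h5
            exact ⟨ν, hν.le, h''⟩
          · exact absurd h5 hx1
          · exact ra_arc hT hg h5
  obtain ⟨ν, hν, h⟩ := key
  exact ra_zero_of_lim h hν

end

end Pool.Agent.Choc
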