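import Pool.Agent.Lib.MP_2b3e36_an.Re.RA

/-!
RB. Rigidity for two real ones: bounds near `±1` and near infinity.

Near `±1`: `g` and `T` are bounded, `T = c + α^(1/2)` (resp. `-1/(1 + i α^(1/2))`), so
`‖T'‖ ≥ A ‖v ∓ 1‖^(-1/2)` and `K/T' = O (‖v ∓ 1‖^(-1/2))`. Near infinity: `g - T = O (1/log^2)`,
`K/T' = O (log^2/‖v‖^2)`, as in Ex/R3, Ex/R5.
-/

set_option autoImplicit false

open Complex Set Filter Topology Metric

namespace Pool.Agent.Choc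

/-- bound at a corner -/
lemma rb_corner {T : ℂ → ℂ} {v₁ v₂ vc : ℝ} {x : ℝ} (hx : x ^ 2 = 1) (hx1 : x ≠ v₁)
    (hx2 : x ≠ v₂) {δ A : ℝ} (hδ : 0 < δ) (hA : 0 < A)
    (h : ∀ v ∈ ball (x : ℂ) δ, 0 < v.im → ∃ d : ℂ, HasDerivAt T d v ∧
      A ≤ ‖d‖ * Real.sqrt ‖v - x‖) :
    ∃ C r : ℝ, 0 < r ∧ ∀ v ∈ UH, ‖v - x‖ < r →
      ‖(v - vc) * ra_M v₁ v₂ v / deriv T v‖ ≤ C * ‖v - x‖ ^ (-(1 : ℝ) / 2) := by
  have hx0 : x ≠ 0 := fun h => by rw [h] at hx; norm_num at hx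
  let G : ℂ → ℂ := fun v => (v - vc) / ((v + x) * ((v - v₁) * (v - v₂)))
  have hG : ContinuousAt G x := by
    have h1 : (x : ℂ) + x ≠ 0 := by
      rw [← two_mul]
      exact mul_ne_zero two_ne_zero (by exact_mod_cast hx0)
    have h2 : (x : ℂ) - v₁ ≠ 0 := by exact_mod_cast sub_ne_zero.2 hx1
    have h3 : (x : ℂ) - v₂ ≠ 0 := by exact_mod_cast sub_ne_zero.2 hx2
    refine ContinuousAt.div (by fun_prop) (by fun_prop) (mul_ne_zero h1 (mul_ne_zero h2 h3))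
  have h1 : ∀ᶠ v in 𝓝 (x : ℂ), ‖G v‖ < ‖G x‖ + 1 :=
    hG.norm.eventually_lt_const (by linarith)
  obtain ⟨ρ, hρ, h2⟩ := Metric.eventually_nhds_iff_ball.1 h1
  refine ⟨(‖G x‖ + 1) / A, min ρ δ, lt_min hρ hδ, fun v hv hvr => ?_⟩
  have hvi : 0 < v.im := hv
  have hvb : ∀ ε, min ρ δ ≤ ε → v ∈ ball (x : ℂ) ε := fun ε hε => by
    rw [mem_ball, dist_eq_norm]; exact hvr.trans_le hε
  obtain ⟨d, h3, h5⟩ := h v (hvb _ (min_le_right _ _)) hvi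
  have h8 := h2 v (hvb _ (min_le_left _ _))
  have hvx : v - (x : ℂ) ≠ 0 := ra_sub_ne hvi x
  have hvp : 0 < ‖v - (x : ℂ)‖ := norm_pos_iff.2 hvx
  have hsp : 0 < Real.sqrt ‖v - (x : ℂ)‖ := Real.sqrt_pos.2 hvp
  have hd : 0 < ‖d‖ := by
    rcases (norm_nonneg d).lt_or_eq with h | h
    · exact h
    · rw [← h, zero_mul] at h5
      linarith
  have h9 : (v - vc) * ra_M v₁ v₂ v = -(G v / (v - x)) := by
    have e1 : (1 : ℂ) - v ^ 2 = -((v - x) * (v + x)) := by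
      have e2 : (x : ℂ) ^ 2 = 1 := by exact_mod_cast hx
      linear_combination (-1 : ℂ) * e2
    have e2 : v + (x : ℂ) ≠ 0 := by
      have h10 := ra_sub_ne hvi (-x)
      push_cast at h10
      rwa [sub_neg_eq_add] at h10
    show (v - vc) * (1 / ((1 - v ^ 2) * ((v - v₁) * (v - v₂))))
      = -((v - vc) / ((v + x) * ((v - v₁) * (v - v₂))) / (v - x))
    rw [e1]
    have e3 := ra_sub_ne hvi v₁
    have e4 := ra_sub_ne hvi v₂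
    field_simp
  have h10 : ‖(v - vc) * ra_M v₁ v₂ v / deriv T v‖ = ‖G v‖ / ‖v - x‖ / ‖d‖ := by
    rw [h3.deriv, h9, norm_div, norm_neg, norm_div]
  have h11 : ‖v - (x : ℂ)‖ ^ (-(1 : ℝ) / 2) = 1 / Real.sqrt ‖v - (x : ℂ)‖ := by
    rw [neg_div, Real.rpow_neg hvp.le, ← Real.sqrt_eq_rpow, one_div]
  rw [h10, h11]
  have h12 : ‖v - (x : ℂ)‖ = Real.sqrt ‖v - (x : ℂ)‖ * Real.sqrt ‖v - (x : ℂ)‖ :=
    (Real.mul_self_sqrt hvp.le).symm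
  set s := Real.sqrt ‖v - (x : ℂ)‖ with hs
  rw [h12, div_div, div_mul_div_comm, mul_one]
  rw [div_le_div_iff₀ (by positivity) (by positivity)]
  have h13 : ‖G v‖ * A ≤ (‖G x‖ + 1) * (‖d‖ * s) :=
    mul_le_mul h8.le h5 hA.le (by positivity)
  calc ‖G v‖ * (A * s) = (‖G v‖ * A) * s := by ring
    _ ≤ ((‖G x‖ + 1) * (‖d‖ * s)) * s := by gcongr
    _ = (‖G x‖ + 1) * (s * s * ‖d‖) := by ring

/-- combination of a bounded function and the corner bound -/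
lemma rb_combine {T g : ℂ → ℂ} {v₁ v₂ vc : ℝ} {x : ℝ} {t ℓ : ℂ}
    (hg : Tendsto g (𝓝[UH] (x : ℂ)) (𝓝 ℓ)) (hT : Tendsto T (𝓝[UH] (x : ℂ)) (𝓝 t))
    (h : ∃ C r : ℝ, 0 < r ∧ ∀ v ∈ UH, ‖v - x‖ < r →
      ‖(v - vc) * ra_M v₁ v₂ v / deriv T v‖ ≤ C * ‖v - x‖ ^ (-(1 : ℝ) / 2)) :
    ∃ C r : ℝ, 0 < r ∧ ∀ v ∈ UH, ‖v - x‖ < r →
      ‖ra_Phi T g v₁ v₂ vc v‖ ≤ C * ‖v - x‖ ^ (-(1 : ℝ) / 2) := by
  obtain ⟨C, r, hr, h1⟩ := h
  have h2 : ∀ᶠ v in 𝓝[UH] (x : ℂ), ‖g v - T v‖ < ‖ℓ - t‖ + 1 :=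
    (hg.sub hT).norm.eventually_lt_const (by linarith)
  obtain ⟨ρ, hρ, h3⟩ := Metric.mem_nhdsWithin_iff.1 h2
  refine ⟨(‖ℓ - t‖ + 1) * C, min r ρ, lt_min hr hρ, fun v hv hvr => ?_⟩
  have h4 : ‖g v - T v‖ < ‖ℓ - t‖ + 1 :=
    h3 ⟨by rw [mem_ball, dist_eq_norm]; exact hvr.trans_le (min_le_right _ _), hv⟩
  have h5 := h1 v hv (hvr.trans_le (min_le_left _ _))
  have h6 : ra_Phi T g v₁ v₂ vc v = (g v - T v) * ((v - vc) * ra_M v₁ v₂ v / deriv T v) := by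
    unfold ra_Phi
    ring
  rw [h6, norm_mul, mul_assoc]
  exact mul_le_mul h4.le h5 (norm_nonneg _) (by positivity)

lemma rb_negOne {η : ℝ} {T g : ℂ → ℂ} {v₁ v₂ vc : ℝ} (hT : Model2 η T v₁ v₂ vc)
    (hg : Lift2 v₁ v₂ g) :
    ∃ C r : ℝ, 0 < r ∧ ∀ v ∈ UH, ‖v - ((-1 : ℝ) : ℂ)‖ < r →
      ‖ra_Phi T g v₁ v₂ vc v‖ ≤ C * ‖v - ((-1 : ℝ) : ℂ)‖ ^ (-(1 : ℝ) / 2) := by
  have l1 := hT.lt1
  have l2 := hT.lt2
  have l3 := hT.lt3
  obtain ⟨ℓ, _, hℓ⟩ := hg.inner (-1) le_rfl (by norm_num)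
  obtain ⟨r, hr, α, h1, h2, ⟨κ, hκ, h3⟩, h4⟩ := hT.negOne
  have e : ((-1 : ℝ) : ℂ) = -1 := by simp
  obtain ⟨c1, c2, c3⟩ := r3_sqrt hr h1 h2 (fun v hv hvi => (h4 v hv hvi).1)
  have hlim : Tendsto T (𝓝[UH] ((-1 : ℝ) : ℂ)) (𝓝 (-2 + (α (-1)) ^ ((1 : ℂ) / 2))) := by
    rw [e]
    have h5 : Tendsto (fun v => -2 + (α v) ^ ((1 : ℂ) / 2)) (𝓝[UH] (-1 : ℂ))
        (𝓝 (-2 + (α (-1)) ^ ((1 : ℂ) / 2))) :=
      (c2.tendsto.mono_left nhdsWithin_le_nhds).const_add _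
    refine h5.congr' ?_
    have h6 : ball (-1 : ℂ) r ∈ 𝓝[UH] (-1 : ℂ) := mem_nhdsWithin_of_mem_nhds (ball_mem_nhds _ hr)
    filter_upwards [h6, self_mem_nhdsWithin] with v hv1 hv2
    exact ((h4 v hv1 hv2).2).symm
  refine rb_combine hℓ hlim ?_
  obtain ⟨A, δ, hA, hδ, hδr, h5⟩ := r5_sqrt hr h1 h2 (by rw [h3]; exact_mod_cast hκ.ne')
    (fun v hv hvi => (h4 v hv hvi).1)
  refine rb_corner (by norm_num) (by linarith) (by linarith) hδ hA ?_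
  rw [e]
  intro v hv hvi
  obtain ⟨b, h6, _, h7⟩ := h5 v hv hvi
  refine ⟨b, ?_, h7⟩
  have h8 : ball (-1 : ℂ) r ∈ 𝓝 v := isOpen_ball.mem_nhds (ball_subset_ball hδr hv)
  have h9 : UH ∈ 𝓝 v := r1_open.mem_nhds hvi
  refine (h6.const_add (-2)).congr_of_eventuallyEq ?_
  filter_upwards [h8, h9] with w hw1 hw2 using (h4 w hw1 hw2).2

lemma rb_posOne {η : ℝ} {T g : ℂ → ℂ} {v₁ v₂ vc : ℝ} (hT : Model2 η T v₁ v₂ vc)
    (hg : Lift2 v₁ v₂ g) :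
    ∃ C r : ℝ, 0 < r ∧ ∀ v ∈ UH, ‖v - ((1 : ℝ) : ℂ)‖ < r →
      ‖ra_Phi T g v₁ v₂ vc v‖ ≤ C * ‖v - ((1 : ℝ) : ℂ)‖ ^ (-(1 : ℝ) / 2) := by
  have l1 := hT.lt1
  have l2 := hT.lt2
  have l3 := hT.lt3
  obtain ⟨ℓ, _, hℓ⟩ := hg.inner 1 (by norm_num) le_rfl
  obtain ⟨r, hr, α, h1, h2, ⟨κ, hκ, h3⟩, h4⟩ := hT.posOne
  have e : ((1 : ℝ) : ℂ) = 1 := by simp
  obtain ⟨c1, c2, c3⟩ := r3_sqrt hr h1 h2 (fun v hv hvi => (h4 v hv hvi).1)
  have hlim : Tendsto T (𝓝[UH] ((1 : ℝ) : ℂ)) (𝓝 (-1 / (1 + I * (α 1) ^ ((1 : ℂ) / 2)))) := by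
    rw [e]
    have h5 : Tendsto (fun v => -1 / (1 + I * (α v) ^ ((1 : ℂ) / 2))) (𝓝[UH] (1 : ℂ))
        (𝓝 (-1 / (1 + I * (α 1) ^ ((1 : ℂ) / 2)))) := by
      have h6 : ContinuousAt (fun v => -1 / (1 + I * (α v) ^ ((1 : ℂ) / 2))) (1 : ℂ) := by
        refine continuousAt_const.div (continuousAt_const.add (continuousAt_const.mul c2)) ?_
        show 1 + I * (α 1) ^ ((1 : ℂ) / 2) ≠ 0
        rw [c3]
        simp
      exact h6.tendsto.mono_left nhdsWithin_le_nhds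
    refine h5.congr' ?_
    have h6 : ball (1 : ℂ) r ∈ 𝓝[UH] (1 : ℂ) := mem_nhdsWithin_of_mem_nhds (ball_mem_nhds _ hr)
    filter_upwards [h6, self_mem_nhdsWithin] with v hv1 hv2
    exact ((h4 v hv1 hv2).2).symm
  refine rb_combine hℓ hlim ?_
  obtain ⟨A, δ, hA, hδ, hδr, h5⟩ := r5_sqrt hr h1 h2 (by rw [h3]; exact_mod_cast hκ.ne')
    (fun v hv hvi => (h4 v hv hvi).1)
  refine rb_corner (by norm_num) (by linarith) (by linarith) hδ (A := A / 4) (by positivity) ?_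
  rw [e]
  intro v hv hvi
  obtain ⟨b, h6, h6', h7⟩ := h5 v hv hvi
  have h8 : ball (1 : ℂ) r ∈ 𝓝 v := isOpen_ball.mem_nhds (ball_subset_ball hδr hv)
  have h9 : UH ∈ 𝓝 v := r1_open.mem_nhds hvi
  set q := (α v) ^ ((1 : ℂ) / 2) with hq
  have hne : 1 + I * q ≠ 0 := by
    intro h
    have h10 : I * q = -1 := by linear_combination h
    have h11 : ‖I * q‖ = 1 := by rw [h10]; simp
    rw [norm_mul, Complex.norm_I, one_mul] at h11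
    linarith
  have h10 : HasDerivAt (fun w => -1 / (1 + I * (α w) ^ ((1 : ℂ) / 2)))
      ((0 * (1 + I * q) - (-1) * (I * b)) / (1 + I * q) ^ 2) v := by
    have h11 : HasDerivAt (fun w => 1 + I * (α w) ^ ((1 : ℂ) / 2)) (I * b) v :=
      (h6.const_mul I).const_add 1
    exact (hasDerivAt_const v (-1 : ℂ)).fun_div h11 hne
  refine ⟨_, h10.congr_of_eventuallyEq ?_, ?_⟩
  · filter_upwards [h8, h9] with w hw1 hw2 using (h4 w hw1 hw2).2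
  · have h11 : ‖(0 * (1 + I * q) - (-1) * (I * b)) / (1 + I * q) ^ 2‖
        = ‖b‖ / ‖1 + I * q‖ ^ 2 := by
      rw [norm_div, norm_pow]
      congr 1
      have : 0 * (1 + I * q) - (-1) * (I * b) = I * b := by ring
      rw [this, norm_mul, Complex.norm_I, one_mul]
    rw [h11]
    have h12 : ‖1 + I * q‖ ≤ 2 := by
      calc ‖1 + I * q‖ ≤ ‖(1 : ℂ)‖ + ‖I * q‖ := norm_add_le _ _
        _ = 1 + ‖q‖ := by rw [norm_one, norm_mul, Complex.norm_I, one_mul]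
        _ ≤ 2 := by linarith
    have h13 : 0 < ‖1 + I * q‖ := norm_pos_iff.2 hne
    have h14 : ‖1 + I * q‖ ^ 2 ≤ 4 := by nlinarith
    have h15 : ‖b‖ / 4 ≤ ‖b‖ / ‖1 + I * q‖ ^ 2 :=
      div_le_div_of_nonneg_left (norm_nonneg _) (by positivity) h14
    calc A / 4 ≤ ‖b‖ * Real.sqrt ‖v - 1‖ / 4 := by linarith
      _ = ‖b‖ / 4 * Real.sqrt ‖v - 1‖ := by ring
      _ ≤ ‖b‖ / ‖1 + I * q‖ ^ 2 * Real.sqrt ‖v - 1‖ :=
        mul_le_mul_of_nonneg_right h15 (Real.sqrt_nonneg _)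

lemma rb_infData {T : ℂ → ℂ} (h : InfAt T) : ∃ (r : ℝ) (p : ℂ → ℂ),
    InfData (fun v => nome (T v)) r p ∧
    ∀ v ∈ ball (0 : ℂ) r, 0 < v.im → T (-1 / v) = -(Real.pi * I) / log (p v) := by
  obtain ⟨r, hr, p, hp1, hp2, hp3, hp4, hp5⟩ := h
  refine ⟨r, p, ⟨hr, hp1, hp2, hp3, hp4, fun v hv hvi => ?_⟩, fun v hv hvi => (hp5 v hv hvi).2.2⟩
  obtain ⟨h1, h2, h3⟩ := hp5 v hv hvi
  exact ⟨h1, h2, by simp only [h3]⟩

theorem rb_sub_infty {T g : ℂ → ℂ} (hT : InfAt T) (hg : InfAt g) :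
    ∃ C R : ℝ, 0 ≤ C ∧ 1 < R ∧ ∀ v ∈ UH, R < ‖v‖ → ‖g v - T v‖ ≤ C / Real.log ‖v‖ ^ 2 := by
  obtain ⟨r, pX, iX, hX⟩ := rb_infData hT
  obtain ⟨r', pg, ig, hG⟩ := rb_infData hg
  obtain ⟨A, δ, hA, hδ, hδr, hA'⟩ := r3_log iX
  obtain ⟨B, ε, hB, hε, hεr, hB'⟩ := r3_log ig
  have hm : 0 < min δ ε := lt_min hδ hε
  set R := max (1 / min δ ε) (Real.exp (2 * (A + B) + 1)) with hR
  have hR1 : 1 < R := by
    refine lt_of_lt_of_le ?_ (le_max_right _ _)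
    exact Real.one_lt_exp_iff.2 (by linarith)
  have hpi := Real.pi_pos
  refine ⟨4 * Real.pi * (A + B + 2 * Real.pi), R, by positivity, hR1, fun v hv hvR => ?_⟩
  have hv0 : v ≠ 0 := fun h => by
    have h3 : 0 < v.im := hv
    rw [h] at h3; simp at h3
  have hvp : 0 < ‖v‖ := norm_pos_iff.2 hv0
  set u := -1 / v with hu
  have huv : -1 / u = v := by rw [hu]; field_simp
  have hui : 0 < u.im := r1_inv_im hv
  have hun : ‖u‖ = 1 / ‖v‖ := by rw [hu, norm_div, norm_neg, norm_one]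
  have hum : ‖u‖ < min δ ε := by
    rw [hun, div_lt_iff₀ hvp]
    have h1 : 1 / min δ ε < ‖v‖ := lt_of_le_of_lt (le_max_left _ _) hvR
    rw [div_lt_iff₀ hm] at h1
    linarith
  have huδ : u ∈ ball (0 : ℂ) δ := by
    rw [mem_ball, dist_zero_right]; exact hum.trans_le (min_le_left _ _)
  have huε : u ∈ ball (0 : ℂ) ε := by
    rw [mem_ball, dist_zero_right]; exact hum.trans_le (min_le_right _ _)
  have hur : u ∈ ball (0 : ℂ) r := ball_subset_ball hδr huδ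
  have hur' : u ∈ ball (0 : ℂ) r' := ball_subset_ball hεr huε
  have h1 := hA' u huδ hui
  have h2 := hB' u huε hui
  have hlu : Real.log ‖u‖ = -Real.log ‖v‖ := by
    rw [hun, one_div, Real.log_inv]
  rw [hlu] at h1 h2
  have hlv : 2 * (A + B) + 1 < Real.log ‖v‖ := by
    rw [Real.lt_log_iff_exp_lt hvp]
    exact lt_of_le_of_lt (le_max_right _ _) hvR
  set l := Real.log ‖v‖ with hl
  have hl0 : 0 < l := by linarith
  have hX1 : l / 2 ≤ ‖log (pX u)‖ := by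
    have h3 := Complex.abs_re_le_norm (log (pX u))
    rw [Complex.log_re] at h3
    rw [abs_le] at h1
    have h4 := neg_abs_le (Real.log ‖pX u‖)
    linarith [h1.2]
  have hg1 : l / 2 ≤ ‖log (pg u)‖ := by
    have h3 := Complex.abs_re_le_norm (log (pg u))
    rw [Complex.log_re] at h3
    rw [abs_le] at h2
    have h4 := neg_abs_le (Real.log ‖pg u‖)
    linarith [h2.2]
  have hX0 : log (pX u) ≠ 0 := norm_pos_iff.1 (lt_of_lt_of_le (by linarith) hX1)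
  have hg0 : log (pg u) ≠ 0 := norm_pos_iff.1 (lt_of_lt_of_le (by linarith) hg1)
  have h3 : g v - T v
      = (Real.pi * I) * (log (pg u) - log (pX u)) / (log (pg u) * log (pX u)) := by
    have h4 := hX u hur hui
    have h5 := hG u hur' hui
    rw [huv] at h4 h5
    rw [h4, h5]
    field_simp
    ring
  have h4 : ‖log (pg u) - log (pX u)‖ ≤ A + B + 2 * Real.pi := by
    have h5 := Complex.norm_le_abs_re_add_abs_im (log (pg u) - log (pX u))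
    rw [Complex.sub_re, Complex.sub_im, Complex.log_re, Complex.log_re, Complex.log_im,
      Complex.log_im] at h5
    have h6 := Complex.abs_arg_le_pi (pg u)
    have h7 := Complex.abs_arg_le_pi (pX u)
    have h8 : |Real.log ‖pg u‖ - Real.log ‖pX u‖| ≤ A + B := by
      rw [abs_le] at h1 h2 ⊢
      constructor <;> linarith [h1.1, h1.2, h2.1, h2.2]
    have h9 : |arg (pg u) - arg (pX u)| ≤ |arg (pg u)| + |arg (pX u)| := abs_sub _ _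
    linarith
  rw [h3, norm_div, norm_mul, norm_mul, norm_mul, Complex.norm_I, mul_one, Complex.norm_real,
    Real.norm_eq_abs, abs_of_pos Real.pi_pos]
  rw [div_le_div_iff₀ (mul_pos (by linarith) (by linarith)) (by positivity)]
  have h5 : (l / 2) * (l / 2) ≤ ‖log (pg u)‖ * ‖log (pX u)‖ :=
    mul_le_mul hg1 hX1 (by linarith) (norm_nonneg _)
  have h6 : 0 ≤ A + B + 2 * Real.pi := by positivity
  have h7 : Real.pi * ‖log (pg u) - log (pX u)‖ * l ^ 2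
      ≤ Real.pi * (A + B + 2 * Real.pi) * l ^ 2 := by
    gcongr
  have h8 : 4 * Real.pi * (A + B + 2 * Real.pi) * ((l / 2) * (l / 2))
      ≤ 4 * Real.pi * (A + B + 2 * Real.pi) * (‖log (pg u)‖ * ‖log (pX u)‖) := by
    apply mul_le_mul_of_nonneg_left h5
    positivity
  have h9 : Real.pi * (A + B + 2 * Real.pi) * l ^ 2
      = 4 * Real.pi * (A + B + 2 * Real.pi) * ((l / 2) * (l / 2)) := by ring
  linarith

theorem rb_mult_infty {T : ℂ → ℂ} (hT : InfAt T) (v₁ v₂ vc : ℝ) :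
    ∃ C R : ℝ, 0 ≤ C ∧ 1 < R ∧ ∀ v ∈ UH, R < ‖v‖ →
      ‖(v - vc) * ra_M v₁ v₂ v / deriv T v‖ ≤ C * Real.log ‖v‖ ^ 2 / ‖v‖ ^ 2 := by
  obtain ⟨r, hr, p, hp1, hp2, ⟨κ, hκ, hp3⟩, hp4, hp5⟩ := hT
  have iX : InfData (fun v => nome (T v)) r p := ⟨hr, hp1, hp2, ⟨κ, hκ, hp3⟩, hp4,
    fun v hv hvi => ⟨(hp5 v hv hvi).1, (hp5 v hv hvi).2.1, by simp only [(hp5 v hv hvi).2.2]⟩⟩
  obtain ⟨A, δ, hA, hδ, hδr, hA'⟩ := r3_log iX
  obtain ⟨c, C, ε, hc, hC, hε, hεr, hb⟩ := r3_simple hr hp1 hp2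
    (by rw [hp3]; exact_mod_cast hκ.ne')
  have hm : 0 < min δ ε := lt_min hδ hε
  set R := max (max (1 / min δ ε) (Real.exp (A + Real.pi + 1)))
    (max (max (2 * ‖(v₁ : ℂ)‖) (2 * ‖(v₂ : ℂ)‖)) (max 2 (1 + ‖(vc : ℂ)‖))) with hR
  have hR1 : 1 < R := by
    refine lt_of_lt_of_le ?_ (le_max_left _ _)
    refine lt_of_lt_of_le ?_ (le_max_right _ _)
    have := Real.pi_pos
    exact Real.one_lt_exp_iff.2 (by linarith)
  have hpi := Real.pi_pos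
  refine ⟨64 * C / (Real.pi * c), R, by positivity, hR1, fun v hv hvR => ?_⟩
  have hvi : 0 < v.im := hv
  have hv0 : v ≠ 0 := fun h => by rw [h] at hvi; simp at hvi
  have hvp : 0 < ‖v‖ := norm_pos_iff.2 hv0
  set u := -1 / v with hu
  have huv : -1 / u = v := by rw [hu]; field_simp
  have hui : 0 < u.im := r1_inv_im hv
  have hu0 : u ≠ 0 := fun h => by rw [h] at hui; simp at hui
  have hun : ‖u‖ = 1 / ‖v‖ := by rw [hu, norm_div, norm_neg, norm_one]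
  have hR2 : 1 / min δ ε < ‖v‖ :=
    lt_of_le_of_lt ((le_max_left _ _).trans (le_max_left _ _)) hvR
  have hR3 : Real.exp (A + Real.pi + 1) < ‖v‖ :=
    lt_of_le_of_lt ((le_max_right _ _).trans (le_max_left _ _)) hvR
  have hR4 : 2 * ‖(v₁ : ℂ)‖ < ‖v‖ :=
    lt_of_le_of_lt (((le_max_left _ _).trans (le_max_left _ _)).trans (le_max_right _ _)) hvR
  have hR4' : 2 * ‖(v₂ : ℂ)‖ < ‖v‖ :=
    lt_of_le_of_lt (((le_max_right _ _).trans (le_max_left _ _)).trans (le_max_right _ _)) hvR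
  have hR6 : 2 < ‖v‖ :=
    lt_of_le_of_lt (((le_max_left _ _).trans (le_max_right _ _)).trans (le_max_right _ _)) hvR
  have hR5 : 1 + ‖(vc : ℂ)‖ < ‖v‖ :=
    lt_of_le_of_lt (((le_max_right _ _).trans (le_max_right _ _)).trans (le_max_right _ _)) hvR
  have hum : ‖u‖ < min δ ε := by
    rw [hun, div_lt_iff₀ hvp]
    rw [div_lt_iff₀ hm] at hR2
    linarith
  have huδ : u ∈ ball (0 : ℂ) δ := by
    rw [mem_ball, dist_zero_right]; exact hum.trans_le (min_le_left _ _)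
  have huε : u ∈ ball (0 : ℂ) ε := by
    rw [mem_ball, dist_zero_right]; exact hum.trans_le (min_le_right _ _)
  have hur : u ∈ ball (0 : ℂ) r := ball_subset_ball hδr huδ
  have h1 := hA' u huδ hui
  obtain ⟨h2, h3, h4, h5⟩ := hb u huε
  rw [sub_zero] at h2 h3
  have hlu : Real.log ‖u‖ = -Real.log ‖v‖ := by rw [hun, one_div, Real.log_inv]
  rw [hlu] at h1
  have hlv : A + Real.pi + 1 < Real.log ‖v‖ := by
    rw [Real.lt_log_iff_exp_lt hvp]; exact hR3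
  set l := Real.log ‖v‖ with hl
  have hl0 : 0 < l := by linarith
  obtain ⟨hpi1, hpi2, _⟩ := hp5 u hur hui
  have hpu0 : p u ≠ 0 := Complex.slitPlane_ne_zero (r1_slitPlane hpi1)
  have hlog0 : log (p u) ≠ 0 := r1_log_ne hpi1 hpi2
  have hlogle : ‖log (p u)‖ ≤ 2 * l := by
    have h6 := Complex.norm_le_abs_re_add_abs_im (log (p u))
    rw [Complex.log_re, Complex.log_im] at h6
    have h7 := Complex.abs_arg_le_pi (p u)
    have h8 : |Real.log ‖p u‖| ≤ l + A := by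
      rw [abs_le] at h1 ⊢
      constructor <;> linarith [h1.1, h1.2]
    linarith
  have hdu : HasDerivAt (fun w : ℂ => -1 / w) (1 / v ^ 2) v := by
    have h6 : HasDerivAt (fun w : ℂ => -1 / w) ((0 * v - (-1) * 1) / v ^ 2) v :=
      (hasDerivAt_const v (-1 : ℂ)).fun_div (hasDerivAt_id v) hv0
    have e : (0 * v - (-1) * 1) / v ^ 2 = 1 / v ^ 2 := by ring
    rwa [e] at h6
  have hpd : HasDerivAt p (deriv p u) u :=
    (hp1.differentiableAt (isOpen_ball.mem_nhds hur)).hasDerivAt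
  have hpc : HasDerivAt (fun w : ℂ => p (-1 / w)) (deriv p u * (1 / v ^ 2)) v :=
    HasDerivAt.comp v (h₂ := p) (h := fun w : ℂ => -1 / w) hpd hdu
  have hlc : HasDerivAt (fun w : ℂ => log (p (-1 / w)))
      (deriv p u * (1 / v ^ 2) / p u) v := hpc.clog (r1_slitPlane hpi1)
  have hT : HasDerivAt (fun w : ℂ => -(Real.pi * I) / log (p (-1 / w)))
      ((0 * log (p u) - (-(Real.pi * I)) * (deriv p u * (1 / v ^ 2) / p u))
        / log (p u) ^ 2) v :=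
    (hasDerivAt_const v (-((Real.pi : ℂ) * I))).fun_div hlc hlog0
  have hev : T =ᶠ[𝓝 v] fun w => -(Real.pi * I) / log (p (-1 / w)) := by
    have h6 : UH ∈ 𝓝 v := r1_open.mem_nhds hvi
    have h7 : ∀ᶠ w in 𝓝 v, -1 / w ∈ ball (0 : ℂ) r :=
      hdu.continuousAt.eventually (isOpen_ball.mem_nhds hur)
    filter_upwards [h6, h7] with w hw1 hw2
    have hw0 : w ≠ 0 := fun h => by
      have h8 : 0 < w.im := hw1
      rw [h] at h8; simp at h8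
    have h8 := (hp5 (-1 / w) hw2 (r1_inv_im hw1)).2.2
    have h9 : -1 / (-1 / w) = w := by field_simp
    rw [h9] at h8
    exact h8
  have hderiv := (hT.congr_of_eventuallyEq hev).deriv
  have hd : ‖(0 * log (p u) - (-(Real.pi * I)) * (deriv p u * (1 / v ^ 2) / p u))
        / log (p u) ^ 2‖ = Real.pi * ‖deriv p u‖ / (‖v‖ ^ 2 * ‖p u‖ * ‖log (p u)‖ ^ 2) := by
    have e : (0 * log (p u) - (-(Real.pi * I)) * (deriv p u * (1 / v ^ 2) / p u))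
        / log (p u) ^ 2 = Real.pi * I * deriv p u / (v ^ 2 * p u * log (p u) ^ 2) := by
      field_simp
      ring
    rw [e, norm_div, norm_mul, norm_mul, norm_mul, norm_mul, norm_pow, norm_pow, Complex.norm_I,
      mul_one, Complex.norm_real, Real.norm_eq_abs, abs_of_pos hpi]
  have hM : ‖(v - vc) * ra_M v₁ v₂ v‖ ≤ 16 / ‖v‖ ^ 3 := by
    have h6 : ‖v - (vc : ℂ)‖ ≤ 2 * ‖v‖ := (norm_sub_le _ _).trans (by linarith)
    have h7 : ‖v‖ ^ 2 / 2 ≤ ‖(1 : ℂ) - v ^ 2‖ := by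
      have h8 := norm_sub_norm_le (v ^ 2) (1 : ℂ)
      rw [norm_pow, norm_one] at h8
      rw [norm_sub_rev]
      nlinarith
    have h8 : ‖v‖ / 2 ≤ ‖v - v₁‖ := by
      have h9 := norm_sub_norm_le v v₁
      linarith
    have h9 : ‖v‖ / 2 ≤ ‖v - v₂‖ := by
      have h10 := norm_sub_norm_le v v₂
      linarith
    unfold ra_M
    rw [mul_one_div, norm_div, norm_mul, norm_mul]
    have h10 : 0 < ‖v‖ ^ 2 / 2 * (‖v‖ / 2 * (‖v‖ / 2)) := by positivity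
    have h11 : ‖v‖ ^ 2 / 2 * (‖v‖ / 2 * (‖v‖ / 2))
        ≤ ‖(1 : ℂ) - v ^ 2‖ * (‖v - v₁‖ * ‖v - v₂‖) := by
      gcongr
    calc ‖v - (vc : ℂ)‖ / (‖(1 : ℂ) - v ^ 2‖ * (‖v - v₁‖ * ‖v - v₂‖))
        ≤ 2 * ‖v‖ / (‖v‖ ^ 2 / 2 * (‖v‖ / 2 * (‖v‖ / 2))) := by gcongr
      _ = 16 / ‖v‖ ^ 3 := by field_simp; norm_num
  have hpup : 0 < ‖p u‖ := norm_pos_iff.2 hpu0
  have hlp : 0 < ‖log (p u)‖ := norm_pos_iff.2 hlog0
  have hdp : 0 < ‖deriv p u‖ := lt_of_lt_of_le hc h4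
  rw [hderiv, norm_div, hd]
  have h6 : ‖v‖ ^ 2 * ‖p u‖ * ‖log (p u)‖ ^ 2 / (Real.pi * ‖deriv p u‖)
      ≤ ‖v‖ ^ 2 * (C * (1 / ‖v‖)) * (2 * l) ^ 2 / (Real.pi * c) := by
    rw [hun] at h3
    gcongr
  calc ‖(v - vc) * ra_M v₁ v₂ v‖
        / (Real.pi * ‖deriv p u‖ / (‖v‖ ^ 2 * ‖p u‖ * ‖log (p u)‖ ^ 2))
      = ‖(v - vc) * ra_M v₁ v₂ v‖ * (‖v‖ ^ 2 * ‖p u‖ * ‖log (p u)‖ ^ 2
          / (Real.pi * ‖deriv p u‖)) := by
        rw [div_div_eq_mul_div, mul_div_assoc]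
    _ ≤ 16 / ‖v‖ ^ 3 * (‖v‖ ^ 2 * (C * (1 / ‖v‖)) * (2 * l) ^ 2 / (Real.pi * c)) := by
        gcongr
    _ = 64 * C / (Real.pi * c) * l ^ 2 / ‖v‖ ^ 2 := by
        field_simp
        norm_num

theorem rb_infty {η : ℝ} {T g : ℂ → ℂ} {v₁ v₂ vc : ℝ} (hT : Model2 η T v₁ v₂ vc)
    (hg : Lift2 v₁ v₂ g) :
    ∃ C R : ℝ, 1 < R ∧ ∀ v ∈ UH, R < ‖v‖ → ‖ra_Phi T g v₁ v₂ vc v‖ ≤ C / ‖v‖ ^ 2 := by
  obtain ⟨C₁, R₁, hC₁, hR₁, h1⟩ := rb_sub_infty hT.infty hg.infty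
  obtain ⟨C₂, R₂, hC₂, hR₂, h2⟩ := rb_mult_infty hT.infty v₁ v₂ vc
  refine ⟨C₁ * C₂, max R₁ R₂, lt_of_lt_of_le hR₁ (le_max_left _ _), fun v hv hvR => ?_⟩
  have h3 := h1 v hv (lt_of_le_of_lt (le_max_left _ _) hvR)
  have h4 := h2 v hv (lt_of_le_of_lt (le_max_right _ _) hvR)
  have h5 : 1 < ‖v‖ := hR₁.trans_le ((le_max_left _ _).trans hvR.le)
  have h6 : 0 < Real.log ‖v‖ := Real.log_pos h5
  have h7 : ra_Phi T g v₁ v₂ vc v = (g v - T v) * ((v - vc) * ra_M v₁ v₂ v / deriv T v) := by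
    unfold ra_Phi
    ring
  rw [h7, norm_mul]
  calc ‖g v - T v‖ * ‖(v - vc) * ra_M v₁ v₂ v / deriv T v‖
      ≤ (C₁ / Real.log ‖v‖ ^ 2) * (C₂ * Real.log ‖v‖ ^ 2 / ‖v‖ ^ 2) := by gcongr
    _ = C₁ * C₂ / ‖v‖ ^ 2 := by
        have h8 : Real.log ‖v‖ ^ 2 ≠ 0 := by positivity
        field_simp

end Pool.Agent.Choc
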