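import Pool.Agent.Lib.MP_2b3e36_an.Re.RB
import Pool.Agent.Lib.MP_2b3e36_an.Ex.A3

/-!
RC. Rigidity for two real ones. `Φ = (g - T) K/T'` vanishes identically by the Phragmen-Lindelöf argument, so
`g = T` in the upper half plane, but at `0` `g` has a limit in the upper half plane and `T` a real one.
-/

set_option autoImplicit false

open Complex Set Filter Topology Metric

namespace Pool.Agent.Choc

theorem rigidity2 {η : ℝ} {T g : ℂ → ℂ} {v₁ v₂ vc : ℝ} (hT : Model2 η T v₁ v₂ vc)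
    (hg : Lift2 v₁ v₂ g) : False := by
  obtain ⟨C₁, r₁, hr₁, h1⟩ := rb_negOne hT hg
  obtain ⟨C₂, r₂, hr₂, h2⟩ := rb_posOne hT hg
  obtain ⟨C₃, R, hR, h3⟩ := rb_infty hT hg
  have e1 : ∀ v : ℂ, v - ((-1 : ℝ) : ℂ) = v + 1 := fun v => by push_cast; ring
  have e2 : ∀ v : ℂ, v - ((1 : ℝ) : ℂ) = v - 1 := fun v => by push_cast; ring
  have h4 : ∀ v ∈ UH, ra_Phi T g v₁ v₂ vc v = 0 := by
    refine phragmen (C := max C₁ (max C₂ C₃)) (r := min r₁ r₂) (R := R) (ra_Phi_diff hT hg)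
      (fun x hx1 hx2 => ra_real_axis hT hg x hx1 hx2) (lt_min hr₁ hr₂) ?_ ?_ ?_
    · intro v hv h
      have h5 := h2 v hv (by rw [e2]; exact h.trans_le (min_le_right _ _))
      rw [e2] at h5
      exact h5.trans (mul_le_mul_of_nonneg_right ((le_max_left _ _).trans (le_max_right _ _))
        (Real.rpow_nonneg (norm_nonneg _) _))
    · intro v hv h
      have h5 := h1 v hv (by rw [e1]; exact h.trans_le (min_le_left _ _))
      rw [e1] at h5
      exact h5.trans (mul_le_mul_of_nonneg_right (le_max_left _ _)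
        (Real.rpow_nonneg (norm_nonneg _) _))
    · intro v hv h
      refine (h3 v hv h).trans ?_
      exact div_le_div_of_nonneg_right ((le_max_right _ _).trans (le_max_right _ _))
        (by positivity)
  have l1 := hT.lt1
  have l2 := hT.lt2
  have l3 := hT.lt3
  have h5 : ∀ v ∈ UH, v ≠ vc → g v = T v := by
    intro v hv _
    have hvi : 0 < v.im := hv
    have h6 := h4 v hv
    unfold ra_Phi ra_M at h6
    have h7 := hT.deriv_ne v hv
    have h8 := ra_sub_ne hvi v₁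
    have h9 := ra_sub_ne hvi v₂
    have h10 := ra_sub_ne hvi vc
    have h11 := r4_one_sub hvi
    have h12 : (v - (vc : ℂ)) * (1 / ((1 - v ^ 2) * ((v - v₁) * (v - v₂)))) ≠ 0 :=
      mul_ne_zero h10 (one_div_ne_zero (mul_ne_zero h11 (mul_ne_zero h8 h9)))
    rw [div_eq_zero_iff, mul_eq_zero] at h6
    rcases h6 with (h6 | h6) | h6
    · exact sub_eq_zero.1 h6
    · exact absurd h6 h12
    · exact absurd h6 h7
  obtain ⟨ℓ, hℓ, hlim⟩ := hg.inner 0 (by norm_num) (by norm_num)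
  obtain ⟨r, hr, τ, hd, he, hS, _⟩ := hT.free 0 (by norm_num) (by norm_num)
  have hτ : Tendsto T (𝓝[UH] ((0 : ℝ) : ℂ)) (𝓝 (τ ((0 : ℝ) : ℂ))) := by
    have h6 : Tendsto τ (𝓝[UH] ((0 : ℝ) : ℂ)) (𝓝 (τ ((0 : ℝ) : ℂ))) :=
      ((hd.differentiableAt (ball_mem_nhds _ hr)).continuousAt.tendsto).mono_left
        nhdsWithin_le_nhds
    refine h6.congr' ?_
    have h7 : ball ((0 : ℝ) : ℂ) r ∈ 𝓝[UH] ((0 : ℝ) : ℂ) :=
      mem_nhdsWithin_of_mem_nhds (ball_mem_nhds _ hr)
    filter_upwards [h7, self_mem_nhdsWithin] with v hv1 hv2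
    exact (he v hv1 hv2).symm
  have hgT : Tendsto g (𝓝[UH] ((0 : ℝ) : ℂ)) (𝓝 (τ ((0 : ℝ) : ℂ))) := by
    refine hτ.congr' ?_
    filter_upwards [self_mem_nhdsWithin] with v hv
    refine (h5 v hv ?_).symm
    intro h
    have h6 : 0 < v.im := hv
    rw [h] at h6
    simp at h6
  have hne : (𝓝[UH] ((0 : ℝ) : ℂ)).NeBot := by
    rw [← mem_closure_iff_nhdsWithin_neBot]
    refine mem_closure_of_tendsto (f := fun t : ℝ => ((0 : ℝ) : ℂ) + t * I) (b := 𝓝[>] (0 : ℝ)) ?_ ?_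
    · have h6 : Continuous (fun t : ℝ => ((0 : ℝ) : ℂ) + t * I) := by fun_prop
      have h7 := h6.tendsto 0
      simp only [Complex.ofReal_zero, zero_mul, add_zero] at h7
      simp only [Complex.ofReal_zero]
      exact h7.mono_left nhdsWithin_le_nhds
    · filter_upwards [self_mem_nhdsWithin] with t ht
      show 0 < (((0 : ℝ) : ℂ) + t * I).im
      simpa using ht
  have h6 := tendsto_nhds_unique hlim hgT
  have h7 := (hS 0 (mem_ball_self hr)).1
  rw [h6] at hℓ
  rw [h7] at hℓ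
  exact lt_irrefl _ hℓ

end Pool.Agent.Choc
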