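import Pool.Agent.Lib.MP_2b3e36_an.Re.Defs3
import Pool.Agent.Lib.MP_2b3e36_an.Ex.S2

/-!
S5. Rational and holomorphic solutions are equivalent (variant of S2 in Ex: replace `b`, `conj b` by
the real points `b₁`, `b₂`; the library file `Ex/S2.lean` may be copied and adapted).

(→) `P, Q` as in `StableSol2`. `Q`, `P`, `P - Q` are nonzero polynomials with finitely many zeros, so there is
`r > 1` such that in `1 < ‖z‖ < r` none of them vanishes. `f = P/Q` on `ball 0 r`. `deriv f a = P'(a)/Q(a)`,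
`deriv f bᵢ = (P-Q)'(bᵢ)/Q(bᵢ)`.
(←) Let `f` be as in `SolA2`, `|a|, |b₁|, |b₂| < 1`. Let `1 < s < r`, `P_n` the Taylor polynomials of `f` at `0`: real
coefficients, `P_n → f` uniformly on `closedBall 0 s` with derivatives. Let `E_n` be the real polynomial of degree
`≤ 2` with `E_n(a) = P_n(a)`, `E_n(bᵢ) = P_n(bᵢ) - 1` (three distinct points: `f a = 0`, `f bᵢ = 1`, `b₁ ≠ b₂`):
`E_n → 0` coefficientwise. `P = P_n - E_n` satisfies `P(a) = 0`, `P(bᵢ) = 1`, tends to `f`. For large `n` `P` has no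
other zeros and ones in the closed unit disc: write `f z = (z - a) u z`, `f z - 1 = (z-b₁)(z-b₂) w z`, `u, w`
nonvanishing on the closed disc, `P = (z-a) u_n`, `P - 1 = (z-b₁)(z-b₂) w_n` with `u_n → u`, `w_n → w` uniformly on
the closed unit disc (on `‖z‖ = s` clear, inside by the maximum principle). `Q = 1`.
`stable2_scale`: as `stable_scale` in Z3: `P.comp (C r⁻¹ * X)`.
-/

set_option autoImplicit false

open Complex Set Filter Topology Metric Polynomial

namespace Pool.Agent.Choc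

theorem s5_mem {x r : ℝ} (hx : |x| < 1) (hr : 1 < r) : (x : ℂ) ∈ ball (0 : ℂ) r := by
  rw [mem_ball_zero_iff, Complex.norm_real, Real.norm_eq_abs]
  linarith

theorem solA2_of_stable {a b₁ b₂ : ℝ} (ha : |a| < 1) (h1 : |b₁| < 1) (h2 : |b₂| < 1)
    (h : StableSol2 a b₁ b₂) : ∃ (r : ℝ) (f : ℂ → ℂ), SolA2 a b₁ b₂ r f := by
  classical
  obtain ⟨P, Q, hQ, hP, hPQ, hPa, hPb1, hPb2⟩ := h
  have hP0 : P ≠ 0 := by
    rintro rfl
    simp at hPa
  have hQ0 : Q ≠ 0 := by
    rintro rfl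
    exact hQ 0 (by simp) (by simp)
  have hPQ0 : P - Q ≠ 0 := by
    intro h0
    rw [h0] at hPb1
    simp at hPb1
  have hR0 : P * Q * (P - Q) ≠ 0 := mul_ne_zero (mul_ne_zero hP0 hQ0) hPQ0
  set R : ℂ[X] := (P * Q * (P - Q)).map (algebraMap ℝ ℂ) with hR
  have hR1 : R ≠ 0 := (Polynomial.map_ne_zero_iff (algebraMap ℝ ℂ).injective).2 hR0
  obtain ⟨r, hr, hrT⟩ := s2_radius (R.roots.toFinset.filter (fun z => 1 < ‖z‖))
    (fun z hz => (Finset.mem_filter.1 hz).2)
  have key : ∀ z ∈ ball (0 : ℂ) r, aeval z (P * Q * (P - Q)) = 0 → ‖z‖ ≤ 1 := by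
    intro z hz h0
    by_contra hcon
    push Not at hcon
    have h1 : z ∈ R.roots.toFinset.filter (fun z => 1 < ‖z‖) := by
      rw [Finset.mem_filter, Multiset.mem_toFinset, Polynomial.mem_roots hR1]
      refine ⟨?_, hcon⟩
      rw [Polynomial.IsRoot, hR, Polynomial.eval_map_algebraMap]
      exact h0
    have h2 := hrT z h1
    rw [mem_ball_zero_iff] at hz
    linarith
  have kQ : ∀ z ∈ ball (0 : ℂ) r, aeval z Q ≠ 0 := by
    intro z hz h0
    exact hQ z (key z hz (by rw [map_mul, map_mul, h0]; ring)) h0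
  have kP : ∀ z ∈ ball (0 : ℂ) r, (aeval z P = 0 ↔ z = a) := by
    intro z hz
    constructor
    · intro h0
      exact (hP z (key z hz (by rw [map_mul, map_mul, h0]; ring))).1 h0
    · rintro rfl
      exact (hP a (by rw [Complex.norm_real, Real.norm_eq_abs]; exact ha.le)).2 rfl
  have kPQ : ∀ z ∈ ball (0 : ℂ) r, (aeval z P = aeval z Q ↔ z = b₁ ∨ z = b₂) := by
    intro z hz
    constructor
    · intro h0
      exact (hPQ z (key z hz (by rw [map_mul, map_sub, h0]; ring))).1 h0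
    · intro h3
      refine (hPQ z ?_).2 h3
      rcases h3 with rfl | rfl
      · rw [Complex.norm_real, Real.norm_eq_abs]
        exact h1.le
      · rw [Complex.norm_real, Real.norm_eq_abs]
        exact h2.le
  have har := s5_mem ha hr
  have hb1r := s5_mem h1 hr
  have hb2r := s5_mem h2 hr
  have hder : ∀ z ∈ ball (0 : ℂ) r, HasDerivAt (fun z => aeval z P / aeval z Q)
      ((aeval z (derivative P) * aeval z Q - aeval z P * aeval z (derivative Q)) /
        (aeval z Q) ^ 2) z := fun z hz =>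
    (P.hasDerivAt_aeval z).div (Q.hasDerivAt_aeval z) (kQ z hz)
  have hderb : ∀ b ∈ ball (0 : ℂ) r, aeval b P = aeval b Q → aeval b (derivative (P - Q)) ≠ 0 →
      deriv (fun z => aeval z P / aeval z Q) b ≠ 0 := by
    intro b hb hb1 hb2
    rw [(hder _ hb).deriv, hb1]
    rw [derivative_sub, map_sub] at hb2
    refine div_ne_zero ?_ (pow_ne_zero 2 (kQ _ hb))
    have e : aeval b (derivative P) * aeval b Q - aeval b Q * aeval b (derivative Q) =
      (aeval b (derivative P) - aeval b (derivative Q)) * aeval b Q := by ring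
    rw [e]
    exact mul_ne_zero hb2 (kQ _ hb)
  refine ⟨r, fun z => aeval z P / aeval z Q, hr, ?_, ?_, ?_, ?_, ?_, ?_, ?_⟩
  · intro z hz
    exact (hder z hz).differentiableAt.differentiableWithinAt
  · intro z hz
    rw [s2_aeval_conj, s2_aeval_conj, ← map_div₀]
  · intro z hz
    rw [div_eq_zero_iff, or_iff_left (kQ z hz), kP z hz]
  · intro z hz
    rw [div_eq_one_iff_eq (kQ z hz), kPQ z hz]
  · rw [(hder _ har).deriv, (kP _ har).2 rfl, zero_mul, sub_zero]
    exact div_ne_zero (mul_ne_zero hPa (kQ _ har)) (pow_ne_zero 2 (kQ _ har))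
  · exact hderb _ hb1r ((kPQ _ hb1r).2 (Or.inl rfl)) hPb1
  · exact hderb _ hb2r ((kPQ _ hb2r).2 (Or.inr rfl)) hPb2

/-- A polynomial solution. -/
theorem poly_of_solA2 {a b₁ b₂ : ℝ} (ha : |a| < 1) (h1 : |b₁| < 1) (h2 : |b₂| < 1)
    (hb : b₁ ≠ b₂) {r : ℝ} {f : ℂ → ℂ} (h : SolA2 a b₁ b₂ r f) : ∃ U W : ℝ[X],
    (∀ z : ℂ, ‖z‖ ≤ 1 → aeval z U ≠ 0) ∧ (∀ z : ℂ, ‖z‖ ≤ 1 → aeval z W ≠ 0) ∧
    (X - C a) * U - ((X - C b₁) * (X - C b₂)) * W = 1 := by
  have hr := h.one_lt
  have har := s5_mem ha hr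
  have hbr := s5_mem h1 hr
  have hb'r := s5_mem h2 hr
  have hbb : (b₂ : ℂ) ≠ b₁ := by
    intro h3
    exact hb (by exact_mod_cast h3.symm)
  have hfa : f a = 0 := (h.zero _ har).2 rfl
  have hfb : f b₁ = 1 := (h.one _ hbr).2 (Or.inl rfl)
  have hfb' : f b₂ = 1 := (h.one _ hb'r).2 (Or.inr rfl)
  have hab : (a : ℂ) ≠ b₁ := by
    intro h3
    rw [← h3, hfa] at hfb
    exact zero_ne_one hfb
  have hab' : (a : ℂ) ≠ b₂ := by
    intro h3
    rw [← h3, hfa] at hfb'
    exact zero_ne_one hfb'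
  -- the function u
  set u : ℂ → ℂ := dslope f a with hu
  have hud : DifferentiableOn ℂ u (ball 0 r) :=
    (Complex.differentiableOn_dslope (isOpen_ball.mem_nhds har)).2 h.diff
  have hueq : ∀ z, (z - a) * u z = f z := by
    intro z
    have := sub_smul_dslope f (a : ℂ) z
    rw [smul_eq_mul, hfa, sub_zero] at this
    exact this
  have hu0 : ∀ z ∈ ball (0 : ℂ) r, u z ≠ 0 := by
    intro z hz h0
    by_cases hza : z = a
    · rw [hza, hu, dslope_same] at h0
      exact h.deriv_a h0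
    · have h1 := hueq z
      rw [h0, mul_zero] at h1
      exact hza ((h.zero z hz).1 h1.symm)
  -- the function w
  set g : ℂ → ℂ := fun z => f z - 1 with hg
  have hgd : DifferentiableOn ℂ g (ball 0 r) := h.diff.sub_const 1
  set g1 : ℂ → ℂ := dslope g b₁ with hg1
  have hg1d : DifferentiableOn ℂ g1 (ball 0 r) :=
    (Complex.differentiableOn_dslope (isOpen_ball.mem_nhds hbr)).2 hgd
  have hg1eq : ∀ z, (z - b₁) * g1 z = g z := by
    intro z
    have h1 := sub_smul_dslope g b₁ z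
    have h2 : g b₁ = 0 := by
      rw [hg]
      simp [hfb]
    rw [smul_eq_mul, h2, sub_zero] at h1
    exact h1
  have hg1b' : g1 b₂ = 0 := by
    have h1 := hg1eq b₂
    have h2 : g b₂ = 0 := by
      rw [hg]
      simp [hfb']
    rw [h2] at h1
    exact (mul_eq_zero.1 h1).resolve_left (sub_ne_zero.2 hbb)
  set w : ℂ → ℂ := dslope g1 b₂ with hw
  have hwd : DifferentiableOn ℂ w (ball 0 r) :=
    (Complex.differentiableOn_dslope (isOpen_ball.mem_nhds hb'r)).2 hg1d
  have hweq1 : ∀ z, (z - b₂) * w z = g1 z := by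
    intro z
    have h1 := sub_smul_dslope g1 b₂ z
    rw [smul_eq_mul, hg1b', sub_zero] at h1
    exact h1
  have hweq : ∀ z, (z - b₁) * (z - b₂) * w z = f z - 1 := by
    intro z
    rw [mul_assoc, hweq1, hg1eq]
  have hgderiv : ∀ z, deriv g z = deriv f z := fun z => deriv_sub_const (f := f) (x := z) 1
  have hw0 : ∀ z ∈ ball (0 : ℂ) r, w z ≠ 0 := by
    intro z hz h0
    by_cases hzb : z = b₁
    · have h1 := hweq1 b₁
      rw [← hzb, h0, mul_zero, hzb, hg1, dslope_same, hgderiv] at h1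
      exact h.deriv_b1 h1.symm
    · by_cases hzb' : z = b₂
      · rw [hzb', hw, dslope_same] at h0
        have h1 : HasDerivAt g1 (deriv g1 b₂) b₂ :=
          (hg1d.differentiableAt (isOpen_ball.mem_nhds hb'r)).hasDerivAt
        have h2 : HasDerivAt (fun z => (z - b₁) * g1 z) (1 * g1 b₂ + (b₂ - b₁) * deriv g1 b₂) b₂ :=
          ((hasDerivAt_id' (b₂ : ℂ)).sub_const (b₁ : ℂ)).mul h1
        have h3 : (fun z => (z - b₁) * g1 z) = g := funext hg1eq
        rw [h3, h0, hg1b', mul_zero, mul_zero, add_zero] at h2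
        have h4 := h2.deriv
        rw [hgderiv] at h4
        exact h.deriv_b2 h4
      · have h1 := hweq z
        rw [h0, mul_zero] at h1
        have h2 : f z = 1 := by linear_combination -h1
        rcases (h.one z hz).1 h2 with h3 | h3
        · exact hzb h3
        · exact hzb' h3
  have hne : ∀ (z : ℂ) (x : ℝ), ‖z‖ = 1 → |x| < 1 → z - x ≠ 0 := by
    intro z x hz hx h4
    have h5 : ‖z‖ = ‖(x : ℂ)‖ := by rw [sub_eq_zero.1 h4]
    rw [Complex.norm_real, Real.norm_eq_abs] at h5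
    linarith
  have hwreal : ∀ z : ℂ, ‖z‖ = 1 → w (starRingEnd ℂ z) = starRingEnd ℂ (w z) := by
    intro z hz
    have hzr : z ∈ ball (0 : ℂ) r := by
      rw [mem_ball_zero_iff, hz]
      exact hr
    have h3 := hweq z
    have h4 := hweq (starRingEnd ℂ z)
    rw [h.real z hzr] at h4
    have h5 := congrArg (starRingEnd ℂ) h3
    rw [map_mul, map_mul, map_sub, map_sub, map_sub, map_one, Complex.conj_ofReal,
      Complex.conj_ofReal] at h5
    have hz' : ‖starRingEnd ℂ z‖ = 1 := by rw [Complex.norm_conj, hz]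
    apply mul_left_cancel₀ (mul_ne_zero (hne _ b₁ hz' h1) (hne _ b₂ hz' h2))
    rw [h4, h5]
  obtain ⟨δu, hδu, hmu⟩ := s2_min hr hud hu0
  obtain ⟨δw, hδw, hmw⟩ := s2_min hr hwd hw0
  have h1a : 0 < 1 - |a| := by linarith
  -- the precision
  obtain ⟨ε, hε, hε1, hε2⟩ : ∃ ε > 0, 2 * ε < δw ∧ 8 * ε < δu * (1 - |a|) := by
    refine ⟨min (δw / 4) (δu * (1 - |a|) / 16), by positivity, ?_, ?_⟩
    · have := min_le_left (δw / 4) (δu * (1 - |a|) / 16)
      linarith
    · have := min_le_right (δw / 4) (δu * (1 - |a|) / 16)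
      have := mul_pos hδu h1a
      linarith
  obtain ⟨W₀, hW₀⟩ := s2_approx_real hr hwd hwreal hε
  -- the quadratic polynomial
  set q : ℝ[X] := (X - C b₁) * (X - C b₂) with hq
  have hqz : ∀ z : ℂ, aeval z q = (z - b₁) * (z - b₂) := by
    intro z
    rw [hq, map_mul, map_sub, map_sub, aeval_X, aeval_C, aeval_C, Complex.coe_algebraMap]
  have hqa : ((eval a q : ℝ) : ℂ) = ((a : ℂ) - b₁) * (a - b₂) := by
    rw [← hqz, ← Complex.coe_algebraMap, Polynomial.aeval_algebraMap_apply, ]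
    simp
  have hqa0 : eval a q ≠ 0 := by
    intro h0
    rw [h0, Complex.ofReal_zero] at hqa
    exact mul_ne_zero (sub_ne_zero.2 hab) (sub_ne_zero.2 hab') hqa.symm
  set κ : ℝ := -1 / eval a q - eval a W₀ with hκ
  set W : ℝ[X] := W₀ + C κ with hW
  have hWa : 1 + eval a q * eval a W = 0 := by
    have h1 : eval a W = -1 / eval a q := by
      rw [hW, eval_add, eval_C, hκ]
      exact add_sub_cancel _ _
    rw [h1, mul_div_cancel₀ _ hqa0]
    norm_num
  have hwa : w a = ((-1 / eval a q : ℝ) : ℂ) := by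
    have h1 := hweq a
    rw [hfa, ← hqa] at h1
    have h2 : ((eval a q : ℝ) : ℂ) ≠ 0 := by exact_mod_cast hqa0
    push_cast
    rw [eq_div_iff h2]
    linear_combination h1
  have hW₀a : (aeval (a : ℂ) W₀) = ((eval a W₀ : ℝ) : ℂ) := by
    rw [← Complex.coe_algebraMap, Polynomial.aeval_algebraMap_apply]
    simp
  have hWd : ∀ P : ℝ[X], DifferentiableOn ℂ (fun z : ℂ => aeval z P) (ball 0 r) :=
    fun P => P.differentiable_aeval.differentiableOn
  have hκε : |κ| ≤ ε := by
    have h1 := s2_max hr ((hWd W₀).sub hwd) (c := ε) (fun z hz => (hW₀ z hz).le) (a : ℂ)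
      (by rw [Complex.norm_real, Real.norm_eq_abs]; exact ha.le)
    simp only [Pi.sub_apply] at h1
    rw [hwa, hW₀a, ← Complex.ofReal_sub, Complex.norm_real, Real.norm_eq_abs, abs_sub_comm] at h1
    exact h1
  have hWw1 : ∀ z : ℂ, ‖z‖ = 1 → ‖aeval z W - w z‖ ≤ 2 * ε := by
    intro z hz
    have h1 := (hW₀ z hz).le
    have e : aeval z W - w z = (aeval z W₀ - w z) + (κ : ℂ) := by
      rw [hW, map_add, aeval_C, Complex.coe_algebraMap]
      ring
    rw [e]
    refine (norm_add_le _ _).trans ?_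
    rw [Complex.norm_real, Real.norm_eq_abs]
    linarith
  have hWw : ∀ z : ℂ, ‖z‖ ≤ 1 → ‖aeval z W - w z‖ ≤ 2 * ε :=
    s2_max hr ((hWd W).sub hwd) hWw1
  -- the polynomial U
  obtain ⟨U, hU⟩ : (X - C a) ∣ (1 + q * W) := by
    rw [Polynomial.dvd_iff_isRoot, Polynomial.IsRoot, eval_add, eval_one, eval_mul]
    exact hWa
  have hUz : ∀ z : ℂ, (z - a) * aeval z U = 1 + (z - b₁) * (z - b₂) * aeval z W := by
    intro z
    have h1 := congrArg (fun p : ℝ[X] => aeval z p) hU
    simp only [map_add, map_mul, map_sub, map_one, aeval_X, aeval_C, Complex.coe_algebraMap] at h1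
    rw [hqz] at h1
    exact h1.symm
  have hUu1 : ∀ z : ℂ, ‖z‖ = 1 → ‖aeval z U - u z‖ ≤ 8 * ε / (1 - |a|) := by
    intro z hz
    have h3 : (z - a) * (aeval z U - u z) = (z - b₁) * (z - b₂) * (aeval z W - w z) := by
      have h2 := hUz z
      have h3 := hueq z
      have h4 := hweq z
      linear_combination h2 - h3 + h4
    have h4 := congrArg norm h3
    rw [norm_mul, norm_mul, norm_mul] at h4
    have h5 : 1 - |a| ≤ ‖z - a‖ := by
      have := norm_sub_norm_le z (a : ℂ)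
      rwa [hz, Complex.norm_real, Real.norm_eq_abs] at this
    have h6 : ‖z - b₁‖ ≤ 2 := by
      refine (norm_sub_le _ _).trans ?_
      rw [hz, Complex.norm_real, Real.norm_eq_abs]
      linarith
    have h7 : ‖z - b₂‖ ≤ 2 := by
      refine (norm_sub_le _ _).trans ?_
      rw [hz, Complex.norm_real, Real.norm_eq_abs]
      linarith
    have h8 := hWw1 z hz
    rw [le_div_iff₀ h1a]
    have h9 : ‖z - b₁‖ * ‖z - b₂‖ * ‖aeval z W - w z‖ ≤ 2 * 2 * (2 * ε) := by
      apply mul_le_mul (mul_le_mul h6 h7 (norm_nonneg _) (by norm_num)) h8 (norm_nonneg _)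
        (by norm_num)
    have h10 : ‖aeval z U - u z‖ * (1 - |a|) ≤ ‖z - a‖ * ‖aeval z U - u z‖ := by
      rw [mul_comm]
      exact mul_le_mul_of_nonneg_right h5 (norm_nonneg _)
    linarith
  have hUu : ∀ z : ℂ, ‖z‖ ≤ 1 → ‖aeval z U - u z‖ ≤ 8 * ε / (1 - |a|) :=
    s2_max hr ((hWd U).sub hud) hUu1
  refine ⟨U, W, fun z hz h0 => ?_, fun z hz h0 => ?_, ?_⟩
  · have h1 := hUu z hz
    rw [h0, zero_sub, norm_neg, le_div_iff₀ h1a] at h1
    have h2 := mul_le_mul_of_nonneg_right (hmu z hz) h1a.le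
    linarith
  · have h1 := hWw z hz
    rw [h0, zero_sub, norm_neg] at h1
    have h2 := hmw z hz
    linarith
  · rw [← hU]
    ring

theorem stable_of_solA2 {a b₁ b₂ r : ℝ} {f : ℂ → ℂ} (ha : |a| < 1) (h1 : |b₁| < 1)
    (h2 : |b₂| < 1) (hb : b₁ ≠ b₂) (h : SolA2 a b₁ b₂ r f) : StableSol2 a b₁ b₂ := by
  obtain ⟨U, W, hU, hW, hUW⟩ := poly_of_solA2 ha h1 h2 hb h
  set q : ℝ[X] := (X - C b₁) * (X - C b₂) with hq
  have hqz : ∀ z : ℂ, aeval z q = (z - b₁) * (z - b₂) := by
    intro z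
    rw [hq, map_mul, map_sub, map_sub, aeval_X, aeval_C, aeval_C, Complex.coe_algebraMap]
  have hPz : ∀ z : ℂ, aeval z ((X - C a) * U) = (z - a) * aeval z U := by
    intro z
    rw [map_mul, map_sub, aeval_X, aeval_C, Complex.coe_algebraMap]
  have hP1 : (X - C a) * U - 1 = q * W := by
    rw [← hUW]
    ring
  have hP1z : ∀ z : ℂ, aeval z ((X - C a) * U) - 1 =
      (z - b₁) * (z - b₂) * aeval z W := by
    intro z
    have h1 : aeval z ((X - C a) * U - 1) = aeval z (q * W) := by rw [hP1]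
    rw [map_sub, map_one, map_mul (aeval z) q W, hqz] at h1
    exact h1
  have hn : ∀ x : ℝ, |x| < 1 → ‖(x : ℂ)‖ ≤ 1 := by
    intro x hx
    rw [Complex.norm_real, Real.norm_eq_abs]
    exact hx.le
  have hder : ∀ b : ℂ, aeval b q = 0 → aeval b (derivative (q * W)) =
      ((b - b₁) + (b - b₂)) * aeval b W := by
    intro b hb
    have h1 := q.hasDerivAt_aeval b
    have h2 : HasDerivAt (fun z : ℂ => (z - b₁) * (z - b₂))
        (1 * (b - b₂) + (b - b₁) * 1) b :=
      ((hasDerivAt_id' b).sub_const (b₁ : ℂ)).mul ((hasDerivAt_id' b).sub_const (b₂ : ℂ))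
    have h3 : (fun z : ℂ => aeval z q) = fun z : ℂ => (z - b₁) * (z - b₂) :=
      funext hqz
    rw [h3] at h1
    have h4 : derivative (q * W) = derivative q * W + q * derivative W := derivative_mul
    rw [h4, map_add, map_mul (aeval b) (derivative q) W, map_mul (aeval b) q (derivative W), hb,
      zero_mul, add_zero, h1.unique h2]
    ring
  have hbb : (b₁ : ℂ) - b₂ ≠ 0 := by
    intro h3
    exact hb (by exact_mod_cast sub_eq_zero.1 h3)
  refine ⟨(X - C a) * U, 1, ?_, ?_, ?_, ?_, ?_, ?_⟩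
  · intro z _
    rw [map_one]
    exact one_ne_zero
  · intro z hz
    rw [hPz, mul_eq_zero, or_iff_left (hU z hz), sub_eq_zero]
  · intro z hz
    rw [map_one, ← sub_eq_zero, hP1z, mul_eq_zero, or_iff_left (hW z hz), mul_eq_zero,
      sub_eq_zero, sub_eq_zero]
  · rw [derivative_mul, map_add, map_mul, map_mul, derivative_sub, derivative_X, derivative_C,
      sub_zero, map_one, one_mul, map_sub, aeval_X, aeval_C, Complex.coe_algebraMap, sub_self,
      zero_mul, add_zero]
    exact hU a (hn a ha)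
  · rw [hP1, hder _ (by rw [hqz, sub_self, zero_mul]), sub_self, zero_add]
    exact mul_ne_zero hbb (hW _ (hn _ h1))
  · rw [hP1, hder _ (by rw [hqz, sub_self, mul_zero]), sub_self, add_zero]
    refine mul_ne_zero ?_ (hW _ (hn _ h2))
    rw [← neg_sub]
    exact neg_ne_zero.2 hbb

end Pool.Agent.Choc
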