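import Pool.Agent.Lib.MP_2b3e36_an.Re.Defs3
import Pool.Agent.Lib.MP_2b3e36_an.Ex.S3

/-!
S6. Moebius transformation to the zero `0` (compare S3: `s3_radius`, `s3_inj`, `s3_deriv`, `s3_den`).

`mo_mem`: `1 - a b > 0`, `(b - a)/(1 - ab) < 1` iff `b - a < 1 - ab` iff `(1+a)(1-b) > 0`. `mo_lt`:
`mo a b₂ - mo a b₁ = (b₂-b₁)(1-a^2)/((1-ab₁)(1-ab₂))`.
`solA2_iff`: `m z = (z + a)/(1 + a z)` maps `ball 0 s` into `ball 0 r` for `s > 1` close to `1` (`s3_radius`), is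
injective, real, `m 0 = a`, `m (mo a bᵢ) = bᵢ`, derivative `≠ 0`. If `SolA2 a b₁ b₂ r f` then `f ∘ m` satisfies
`Sol2 (mo a b₁) (mo a b₂) s`. Conversely with `(z - a)/(1 - a z)` (which maps `a` to `0`, `bᵢ` to `mo a bᵢ`).
-/

set_option autoImplicit false

open Complex Set Filter Topology Metric

namespace Pool.Agent.Choc

theorem s6_den {a b : ℝ} (ha : -1 < a) (h : a < b) (hb : b < 1) : 0 < 1 - a * b := by
  nlinarith

theorem mo_mem {a b : ℝ} (ha : -1 < a) (h : a < b) (hb : b < 1) : 0 < mo a b ∧ mo a b < 1 := by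
  have hd := s6_den ha h hb
  refine ⟨div_pos (by linarith) hd, ?_⟩
  rw [mo, div_lt_one hd]
  nlinarith

theorem mo_lt {a b₁ b₂ : ℝ} (ha : -1 < a) (h0 : a < b₁) (h1 : b₁ < b₂) (h2 : b₂ < 1) :
    mo a b₁ < mo a b₂ := by
  have hd1 := s6_den ha h0 (h1.trans h2)
  have hd2 := s6_den ha (h0.trans h1) h2
  have ha1 : a < 1 := by linarith
  rw [mo, mo, div_lt_div_iff₀ hd1 hd2]
  have e : (b₂ - a) * (1 - a * b₁) - (b₁ - a) * (1 - a * b₂) = (b₂ - b₁) * ((1 - a) * (1 + a)) := by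
    ring
  have : 0 < (b₂ - b₁) * ((1 - a) * (1 + a)) :=
    mul_pos (by linarith) (mul_pos (by linarith) (by linarith))
  linarith

theorem s6_transfer {c a a' b₁ b₁' b₂ b₂' : ℝ} (hc : |c| < 1) (ha' : |a'| < 1) (hb1' : |b₁'| < 1)
    (hb2' : |b₂'| < 1) (ea : ((a' : ℂ) + c) / (1 + c * a') = a)
    (eb1 : ((b₁' : ℂ) + c) / (1 + c * b₁') = b₁) (eb2 : ((b₂' : ℂ) + c) / (1 + c * b₂') = b₂)
    {r : ℝ} {f : ℂ → ℂ} (h : SolA2 a b₁ b₂ r f) :
    ∃ (s : ℝ) (F : ℂ → ℂ), SolA2 a' b₁' b₂' s F := by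
  have hc2 := s3_sq_lt hc
  obtain ⟨s, hs, hcs, hm⟩ := s3_radius hc h.one_lt
  set m : ℂ → ℂ := fun z => (z + c) / (1 + c * z) with hmdef
  have hmb : ∀ z ∈ ball (0 : ℂ) s, m z ∈ ball (0 : ℂ) r := by
    intro z hz
    rw [mem_ball_zero_iff] at hz ⊢
    exact (hm z hz).2
  have hmem : ∀ x : ℝ, |x| < 1 → (x : ℂ) ∈ ball (0 : ℂ) s := by
    intro x hx
    rw [mem_ball_zero_iff, Complex.norm_real, Real.norm_eq_abs]
    linarith
  have ha's := hmem _ ha'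
  have hb1's := hmem _ hb1'
  have hb2's := hmem _ hb2'
  have hden : ∀ z ∈ ball (0 : ℂ) s, (1 : ℂ) + c * z ≠ 0 := by
    intro z hz
    rw [mem_ball_zero_iff] at hz
    exact (hm z hz).1
  have hmconj : ∀ z, m (starRingEnd ℂ z) = starRingEnd ℂ (m z) := by
    intro z
    rw [hmdef]
    simp only
    rw [map_div₀, map_add, map_add, map_one, map_mul, Complex.conj_ofReal]
  have hmd : ∀ z ∈ ball (0 : ℂ) s, HasDerivAt m ((1 - c ^ 2) / (1 + c * z) ^ 2) z :=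
    fun z hz => s3_deriv (hden z hz)
  have hmd0 : ∀ z ∈ ball (0 : ℂ) s, (1 - (c : ℂ) ^ 2) / (1 + c * z) ^ 2 ≠ 0 := by
    intro z hz
    refine div_ne_zero ?_ (pow_ne_zero 2 (hden z hz))
    have h1 : (1 - c ^ 2 : ℝ) ≠ 0 := by linarith
    exact_mod_cast h1
  have hFd : ∀ z ∈ ball (0 : ℂ) s, HasDerivAt (fun z => f (m z))
      (deriv f (m z) * ((1 - c ^ 2) / (1 + c * z) ^ 2)) z := by
    intro z hz
    have h1 : HasDerivAt f (deriv f (m z)) (m z) :=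
      (h.diff.differentiableAt (isOpen_ball.mem_nhds (hmb z hz))).hasDerivAt
    exact h1.comp z (hmd z hz)
  have hma : m a' = a := ea
  have hmb1 : m b₁' = b₁ := eb1
  have hmb2 : m b₂' = b₂ := eb2
  refine ⟨s, fun z => f (m z), ⟨hs, ?_, ?_, ?_, ?_, ?_, ?_, ?_⟩⟩
  · intro z hz
    exact (hFd z hz).differentiableAt.differentiableWithinAt
  · intro z hz
    rw [hmconj, h.real _ (hmb z hz)]
  · intro z hz
    rw [h.zero _ (hmb z hz), ← hma]
    exact s3_inj hc (hden z hz) (hden _ ha's)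
  · intro z hz
    rw [h.one _ (hmb z hz), ← hmb1, ← hmb2]
    exact or_congr (s3_inj hc (hden z hz) (hden _ hb1's)) (s3_inj hc (hden z hz) (hden _ hb2's))
  · rw [(hFd _ ha's).deriv, hma]
    exact mul_ne_zero h.deriv_a (hmd0 _ ha's)
  · rw [(hFd _ hb1's).deriv, hmb1]
    exact mul_ne_zero h.deriv_b1 (hmd0 _ hb1's)
  · rw [(hFd _ hb2's).deriv, hmb2]
    exact mul_ne_zero h.deriv_b2 (hmd0 _ hb2's)

theorem s6_inv {a b : ℝ} (ha : -1 < a) (h : a < b) (hb : b < 1) :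
    ((mo a b : ℂ) + a) / (1 + a * mo a b) = b := by
  have hd := s6_den ha h hb
  have ha1 : a < 1 := by linarith
  have e1 : mo a b + a = b * (1 - a ^ 2) / (1 - a * b) := by
    rw [mo, eq_div_iff hd.ne', add_mul, div_mul_cancel₀ _ hd.ne']
    ring
  have e2 : 1 + a * mo a b = (1 - a ^ 2) / (1 - a * b) := by
    rw [mo, eq_div_iff hd.ne', add_mul, mul_assoc, div_mul_cancel₀ _ hd.ne']
    ring
  have h3 : (1 - a ^ 2) ≠ 0 := by
    have : 0 < (1 - a) * (1 + a) := mul_pos (by linarith) (by linarith)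
    nlinarith
  have e3 : (mo a b + a) / (1 + a * mo a b) = b := by
    rw [e1, e2, div_div_div_cancel_right₀ hd.ne', mul_div_cancel_right₀ _ h3]
  exact_mod_cast congrArg (fun x : ℝ => (x : ℂ)) e3

theorem solA2_iff {a b₁ b₂ : ℝ} (ha : -1 < a) (h0 : a < b₁) (h1 : b₁ < b₂) (h2 : b₂ < 1) :
    (∃ (r : ℝ) (f : ℂ → ℂ), SolA2 a b₁ b₂ r f) ↔ Realp2 (mo a b₁) (mo a b₂) := by
  have hm1 := mo_mem ha h0 (h1.trans h2)
  have hm2 := mo_mem ha (h0.trans h1) h2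
  have hlt := mo_lt ha h0 h1 h2
  have haa : |a| < 1 := abs_lt.2 ⟨ha, by linarith⟩
  have hb1 : |b₁| < 1 := abs_lt.2 ⟨by linarith, by linarith⟩
  have hb2 : |b₂| < 1 := abs_lt.2 ⟨by linarith, by linarith⟩
  constructor
  · rintro ⟨r, f, h⟩
    obtain ⟨s, F, hF⟩ := s6_transfer (c := a) (a' := 0) (b₁' := mo a b₁) (b₂' := mo a b₂) haa
      (by simp) (abs_lt.2 ⟨by linarith [hm1.1], hm1.2⟩) (abs_lt.2 ⟨by linarith [hm2.1], hm2.2⟩)
      (by simp) (s6_inv ha h0 (h1.trans h2)) (s6_inv ha (h0.trans h1) h2) h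
    refine ⟨s, F, ⟨hF.one_lt, hm1.1, hlt, hm2.2, hF.diff, hF.real, ?_, hF.one, ?_, hF.deriv_b1,
      hF.deriv_b2⟩⟩
    · intro z hz
      have := hF.zero z hz
      rwa [Complex.ofReal_zero] at this
    · have := hF.deriv_a
      rwa [Complex.ofReal_zero] at this
  · rintro ⟨r, f, h⟩
    have h' : SolA2 0 (mo a b₁) (mo a b₂) r f := by
      refine ⟨h.one_lt, h.diff, h.real, ?_, h.one, ?_, h.deriv_b1, h.deriv_b2⟩
      · intro z hz
        rw [Complex.ofReal_zero]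
        exact h.zero z hz
      · rw [Complex.ofReal_zero]
        exact h.deriv_zero
    refine s6_transfer (c := -a) (a' := a) (b₁' := b₁) (b₂' := b₂) (by rw [abs_neg]; exact haa)
      haa hb1 hb2 ?_ ?_ ?_ h'
    · push_cast
      rw [add_neg_cancel, zero_div]
    · rw [mo]
      push_cast
      congr 1
      ring
    · rw [mo]
      push_cast
      congr 1
      ring

end Pool.Agent.Choc
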