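import Pool.Agent.Lib.MP_2b3e36_an.Re.Defs3

/-!
S7. Scaling, reflection, and the case of a zero between the ones.

`stable2_scale`: `P.comp (C r⁻¹ * X)`, `Q.comp (C r⁻¹ * X)` (exactly as `stable_scale` in Z3).
`stable2_neg`: `P.comp (-X)`, `Q.comp (-X)`; note that the ones `-b₂ < -b₁` are interchanged.
`not_stable2_between`: let `P, Q` be a solution, `-1 ≤ b₁ < a < b₂ ≤ 1`; for real `x ∈ [-1,1]` put
`g x = P(x)/Q(x)` (real, continuous as `Q ≠ 0`; write `P.eval x`). `g b₁ = g b₂ = 1`, `g a = 0`, `P'(a) ≠ 0`, so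
`g' (a) = P'(a)/Q(a) ≠ 0`. If `g'(a) > 0` then `g < 0` at some `x ∈ (b₁,a)`, and the intermediate value theorem on
`[b₁,x]` gives a zero of `g`, so of `P`, in `[b₁,x]`, different from `a`: contradiction. If `g'(a) < 0` then `g < 0` at
some `x ∈ (a,b₂)`, and a zero in `[x,b₂]`.
-/

set_option autoImplicit false

open Complex Set Filter Topology Metric Polynomial

namespace Pool.Agent.Choc

theorem stable2_scale {a b₁ b₂ r : ℝ} (hr : 1 ≤ r) (h : StableSol2 (a / r) (b₁ / r) (b₂ / r)) :
    StableSol2 a b₁ b₂ := by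
  have hr0 : (0 : ℝ) < r := by linarith
  have hrc : (r : ℂ) ≠ 0 := by exact_mod_cast hr0.ne'
  obtain ⟨P, Q, h1, h2, h3, h4, h5, h6⟩ := h
  have hsc : ∀ z : ℂ, ‖z‖ ≤ 1 → ‖z / r‖ ≤ 1 := by
    intro z hz
    rw [norm_div, Complex.norm_real, Real.norm_eq_abs, abs_of_pos hr0]
    exact (div_le_one hr0).mpr (by linarith)
  have hev : ∀ (R : ℝ[X]) (z : ℂ), aeval z (R.comp (C r⁻¹ * X)) = aeval (z / r) R := by
    intro R z
    rw [aeval_comp]
    congr 1
    simp [div_eq_inv_mul]
  have hder : ∀ (R : ℝ[X]) (z : ℂ), aeval z (derivative (R.comp (C r⁻¹ * X))) =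
      (r : ℂ)⁻¹ * aeval (z / r) (derivative R) := by
    intro R z
    rw [derivative_comp, map_mul, hev]
    simp
  refine ⟨P.comp (C r⁻¹ * X), Q.comp (C r⁻¹ * X), ?_, ?_, ?_, ?_, ?_, ?_⟩
  · intro z hz
    rw [hev]
    exact h1 _ (hsc z hz)
  · intro z hz
    rw [hev, h2 _ (hsc z hz)]
    push_cast
    rw [div_left_inj' hrc]
  · intro z hz
    rw [hev, hev, h3 _ (hsc z hz)]
    push_cast
    rw [div_left_inj' hrc, div_left_inj' hrc]
  · rw [hder]
    refine mul_ne_zero (inv_ne_zero hrc) ?_
    have : ((a / r : ℝ) : ℂ) = (a : ℂ) / r := by push_cast; rfl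
    rw [← this]
    exact h4
  · rw [← sub_comp, hder]
    refine mul_ne_zero (inv_ne_zero hrc) ?_
    have : ((b₁ / r : ℝ) : ℂ) = (b₁ : ℂ) / r := by push_cast; rfl
    rw [← this]
    exact h5
  · rw [← sub_comp, hder]
    refine mul_ne_zero (inv_ne_zero hrc) ?_
    have : ((b₂ / r : ℝ) : ℂ) = (b₂ : ℂ) / r := by push_cast; rfl
    rw [← this]
    exact h6

theorem stable2_neg {a b₁ b₂ : ℝ} (h : StableSol2 a b₁ b₂) : StableSol2 (-a) (-b₂) (-b₁) := by
  obtain ⟨P, Q, h1, h2, h3, h4, h5, h6⟩ := h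
  have hsc : ∀ z : ℂ, ‖z‖ ≤ 1 → ‖-z‖ ≤ 1 := by
    intro z hz
    rwa [norm_neg]
  have hev : ∀ (R : ℝ[X]) (z : ℂ), aeval z (R.comp (-X)) = aeval (-z) R := by
    intro R z
    rw [aeval_comp]
    congr 1
    simp
  have hder : ∀ (R : ℝ[X]) (z : ℂ), aeval z (derivative (R.comp (-X))) =
      -aeval (-z) (derivative R) := by
    intro R z
    rw [derivative_comp, map_mul, hev]
    simp
  have hiff : ∀ (z : ℂ) (x : ℝ), -z = x ↔ z = ((-x : ℝ) : ℂ) := by
    intro z x
    push_cast
    exact neg_eq_iff_eq_neg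
  refine ⟨P.comp (-X), Q.comp (-X), ?_, ?_, ?_, ?_, ?_, ?_⟩
  · intro z hz
    rw [hev]
    exact h1 _ (hsc z hz)
  · intro z hz
    rw [hev, h2 _ (hsc z hz)]
    exact hiff z a
  · intro z hz
    rw [hev, hev, h3 _ (hsc z hz), hiff z b₁, hiff z b₂]
    exact or_comm
  · rw [hder]
    refine neg_ne_zero.mpr ?_
    have : -((-a : ℝ) : ℂ) = (a : ℂ) := by push_cast; ring
    rw [this]
    exact h4
  · rw [← sub_comp, hder]
    refine neg_ne_zero.mpr ?_
    have : -((-b₂ : ℝ) : ℂ) = (b₂ : ℂ) := by push_cast; ring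
    rw [this]
    exact h6
  · rw [← sub_comp, hder]
    refine neg_ne_zero.mpr ?_
    have : -((-b₁ : ℝ) : ℂ) = (b₁ : ℂ) := by push_cast; ring
    rw [this]
    exact h5

theorem not_stable2_between {a b₁ b₂ : ℝ} (h0 : -1 ≤ b₁) (h1 : b₁ < a) (h2 : a < b₂)
    (h3 : b₂ ≤ 1) : ¬ StableSol2 a b₁ b₂ := by
  rintro ⟨P, Q, k1, k2, k3, k4, k5, k6⟩
  have haev : ∀ (R : ℝ[X]) (x : ℝ), aeval (x : ℂ) R = ((R.eval x : ℝ) : ℂ) := by
    intro R x
    rw [← Complex.ofRealAm_coe, Polynomial.aeval_algHom_apply]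
    simp
  have hn : ∀ x : ℝ, -1 ≤ x → x ≤ 1 → ‖(x : ℂ)‖ ≤ 1 := by
    intro x hx hx'
    rw [Complex.norm_real, Real.norm_eq_abs]
    exact abs_le.mpr ⟨hx, hx'⟩
  have q1 : ∀ x : ℝ, -1 ≤ x → x ≤ 1 → Q.eval x ≠ 0 := by
    intro x hx hx' e
    apply k1 x (hn x hx hx')
    rw [haev, e]
    simp
  have q2 : ∀ x : ℝ, -1 ≤ x → x ≤ 1 → P.eval x = 0 → x = a := by
    intro x hx hx' e
    have := (k2 x (hn x hx hx')).mp (by rw [haev, e]; simp)
    exact_mod_cast this
  have q2' : P.eval a = 0 := by
    have := (k2 a (hn a (by linarith) (by linarith))).mpr rfl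
    rw [haev] at this
    exact_mod_cast this
  have q3 : P.eval b₁ = Q.eval b₁ := by
    have := (k3 b₁ (hn b₁ h0 (by linarith))).mpr (Or.inl rfl)
    rw [haev, haev] at this
    exact_mod_cast this
  have q4 : P.eval b₂ = Q.eval b₂ := by
    have := (k3 b₂ (hn b₂ (by linarith) h3)).mpr (Or.inr rfl)
    rw [haev, haev] at this
    exact_mod_cast this
  have q5 : (derivative P).eval a ≠ 0 := by
    intro e
    apply k4
    rw [haev, e]
    simp
  set g : ℝ → ℝ := fun x => P.eval x / Q.eval x with hg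
  have gc : ContinuousOn g (Icc (-1) 1) := by
    intro x hx
    exact (P.continuous.continuousAt.div Q.continuous.continuousAt
      (q1 x hx.1 hx.2)).continuousWithinAt
  have ga : g a = 0 := by simp [hg, q2']
  have gb1 : g b₁ = 1 := by
    simp only [hg, q3]
    exact div_self (q1 b₁ h0 (by linarith))
  have gb2 : g b₂ = 1 := by
    simp only [hg, q4]
    exact div_self (q1 b₂ (by linarith) h3)
  have qa := q1 a (by linarith) (by linarith)
  have gd : HasDerivAt g ((derivative P).eval a / Q.eval a) a := by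
    have this := (P.hasDerivAt a).div (Q.hasDerivAt a) qa
    have e : (eval a (derivative P) * eval a Q - eval a P * eval a (derivative Q)) / eval a Q ^ 2 =
        (derivative P).eval a / Q.eval a := by
      rw [q2', zero_mul, sub_zero]
      field_simp
    rw [e] at this
    exact this
  -- a negative value leads to a second zero
  have key : ∀ x : ℝ, -1 ≤ x → x ≤ 1 → x ≠ a → g x < 0 → (x < a → False) ∧ (a < x → False) := by
    intro x hx hx' hne hneg
    constructor
    · intro hxa
      -- x < a ; b₁ < x or x < b₁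
      rcases le_or_gt b₁ x with hbx | hbx
      · have := intermediate_value_Icc' hbx (gc.mono (Icc_subset_Icc h0 hx'))
        obtain ⟨y, hy, hy0⟩ := this ⟨hneg.le, by rw [gb1]; norm_num⟩
        have hy1 : P.eval y = 0 := by
          have := q1 y (by linarith [hy.1]) (by linarith [hy.2])
          simp only [hg] at hy0
          rcases div_eq_zero_iff.mp hy0 with h | h
          · exact h
          · exact absurd h this
        have := q2 y (by linarith [hy.1]) (by linarith [hy.2]) hy1
        linarith [hy.2]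
      · have := intermediate_value_Icc hbx.le (gc.mono (Icc_subset_Icc hx (by linarith)))
        obtain ⟨y, hy, hy0⟩ := this ⟨hneg.le, by rw [gb1]; norm_num⟩
        have hy1 : P.eval y = 0 := by
          have := q1 y (by linarith [hy.1]) (by linarith [hy.2])
          simp only [hg] at hy0
          rcases div_eq_zero_iff.mp hy0 with h | h
          · exact h
          · exact absurd h this
        have := q2 y (by linarith [hy.1]) (by linarith [hy.2]) hy1
        linarith [hy.2]
    · intro hxa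
      rcases le_or_gt x b₂ with hbx | hbx
      · have := intermediate_value_Icc hbx (gc.mono (Icc_subset_Icc hx h3))
        obtain ⟨y, hy, hy0⟩ := this ⟨hneg.le, by rw [gb2]; norm_num⟩
        have hy1 : P.eval y = 0 := by
          have := q1 y (by linarith [hy.1]) (by linarith [hy.2])
          simp only [hg] at hy0
          rcases div_eq_zero_iff.mp hy0 with h | h
          · exact h
          · exact absurd h this
        have := q2 y (by linarith [hy.1]) (by linarith [hy.2]) hy1
        linarith [hy.1]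
      · have := intermediate_value_Icc' hbx.le (gc.mono (Icc_subset_Icc (by linarith) hx'))
        obtain ⟨y, hy, hy0⟩ := this ⟨hneg.le, by rw [gb2]; norm_num⟩
        have hy1 : P.eval y = 0 := by
          have := q1 y (by linarith [hy.1]) (by linarith [hy.2])
          simp only [hg] at hy0
          rcases div_eq_zero_iff.mp hy0 with h | h
          · exact h
          · exact absurd h this
        have := q2 y (by linarith [hy.1]) (by linarith [hy.2]) hy1
        linarith [hy.1]
  -- existence of a negative value near `a`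
  have hex : ∃ x : ℝ, -1 ≤ x ∧ x ≤ 1 ∧ x ≠ a ∧ g x < 0 := by
    by_contra hno
    push Not at hno
    have hmin : IsLocalMin g a := by
      have hmem : Icc (-1 : ℝ) 1 ∈ 𝓝 a := Icc_mem_nhds (by linarith) (by linarith)
      filter_upwards [hmem] with x hx
      rw [ga]
      by_cases hxa : x = a
      · rw [hxa, ga]
      · exact hno x hx.1 hx.2 hxa
    have := hmin.hasDerivAt_eq_zero gd
    rcases div_eq_zero_iff.mp this with h | h
    · exact q5 h
    · exact qa h
  obtain ⟨x, hx, hx', hne, hneg⟩ := hex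
  obtain ⟨c1, c2⟩ := key x hx hx' hne hneg
  rcases lt_or_gt_of_ne hne with h | h
  · exact c1 h
  · exact c2 h

end Pool.Agent.Choc
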