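import Pool.Agent.Lib.MP_2b3e36_an.Re.W5
import Pool.Agent.Lib.MP_2b3e36_an.Re.S6

/-!
S8. The criterion near the boundary of the disc (pure real analysis; `ea`, `ec`, `jr`, `mo` are
rational functions).

For `0 < β₁ < β₂ < 1`: `ea (jr β₁) (jr β₂) = (1-β₁)^2 β₂/((β₂-β₁)(1-β₁β₂))`,
`ec (jr β₁) (jr β₂) = (1+β₁)^2 β₂/((β₂-β₁)(1-β₁β₂))` (`ea_radius`, `ec_radius` with `s = 1`).
`crit2_outer` (`b₂ = 1`): as `r → 1+`, `mo (a/r) (b₁/r) → β = mo a b₁ ∈ (0,1)`, `mo (a/r) (1/r) → mo a 1 = 1`, so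
`ea → (1-β)^2/((1-β)(1-β)) = 1` and `ec → (1+β)^2/(1-β)^2 > 1`. Choose `ε > 0` with `1 + ε < (1+β)^2/(1-β)^2` and
`η, x, w` from `H.small ε`. `Ends η x w` contains `1 < x` (`IsEnds.one_lt`); `w ≤ 1 + ε`. So `ea < x` and `w < ec` for `r`
close to `1`.
`crit2_inner` (`a = -1`): `βᵢ = mo (-1/r) (bᵢ/r) = r (bᵢ+1)/(r^2+bᵢ)`, `1 - βᵢ = (r-1)(r-bᵢ)/(r^2+bᵢ)`, so
`-1 - jr βᵢ = (1-βᵢ)^2/(2βᵢ) = (r-1)^2 wᵢ/(2r)`, `wᵢ = (r-bᵢ)^2/((bᵢ+1)(r^2+bᵢ)) → Wᵢ = (1-bᵢ)^2/(1+bᵢ)^2`, `W₁ > W₂ ≥ 0`.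
`ea = w₁/(w₁-w₂) → W₁/(W₁-W₂) = E`, `ec = (2 + (r-1)^2 w₁/(2r))/((r-1)^2 (w₁-w₂)/(2r)) → ∞`. Take `η, x, w` from
`H.large (E+1)`.
-/

set_option autoImplicit false

open Complex Set Filter Topology Metric

namespace Pool.Agent.Choc

theorem s8_cont {a b : ℝ} (h : 1 - a * b ≠ 0) :
    ContinuousAt (fun r : ℝ => mo (a / r) (b / r)) 1 := by
  unfold mo
  have h1 : ContinuousAt (fun r : ℝ => a / r) 1 :=
    continuousAt_const.div continuousAt_id one_ne_zero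
  have h2 : ContinuousAt (fun r : ℝ => b / r) 1 :=
    continuousAt_const.div continuousAt_id one_ne_zero
  exact (h2.sub h1).div (continuousAt_const.sub (h1.mul h2)) (by simpa using h)

theorem crit2_outer (H : EndsLim) {a b₁ : ℝ} (ha : -1 < a) (h0 : a < b₁) (h1 : b₁ < 1) :
    ∀ᶠ r : ℝ in 𝓝[>] 1, Crit2 (mo (a / r) (b₁ / r)) (mo (a / r) (1 / r)) := by
  obtain ⟨β, hβ⟩ : ∃ β : ℝ, β = mo a b₁ := ⟨_, rfl⟩
  have hβm := mo_mem ha h0 h1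
  rw [← hβ] at hβm
  obtain ⟨hβ0, hβ1⟩ := hβm
  have ha1 : a < 1 := h0.trans h1
  have hab : 1 - a * b₁ ≠ 0 := by
    have : 0 < 1 - a * b₁ := by
      rcases le_or_gt 0 a with h | h
      · nlinarith
      · nlinarith
    exact this.ne'
  have ha0 : 1 - a * 1 ≠ 0 := by
    have : 0 < 1 - a * 1 := by linarith
    exact this.ne'
  have c1 := s8_cont hab
  have c2 := s8_cont ha0
  have v1 : mo (a / 1) (b₁ / 1) = β := by rw [div_one, div_one, hβ]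
  have v2 : mo (a / 1) (1 / 1) = 1 := by
    rw [div_one, div_one]
    unfold mo
    rw [mul_one] at ha0 ⊢
    exact div_self ha0
  have t1 : Tendsto (fun r : ℝ => mo (a / r) (b₁ / r)) (𝓝[>] 1) (𝓝 β) := by
    have := c1.tendsto.mono_left (nhdsWithin_le_nhds (s := Ioi (1 : ℝ)))
    rwa [v1] at this
  have t2 : Tendsto (fun r : ℝ => mo (a / r) (1 / r)) (𝓝[>] 1) (𝓝 1) := by
    have := c2.tendsto.mono_left (nhdsWithin_le_nhds (s := Ioi (1 : ℝ)))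
    rwa [v2] at this
  have hb : 0 < 1 - β := by linarith
  have tden : Tendsto (fun r : ℝ => (mo (a / r) (1 / r) - mo (a / r) (b₁ / r)) *
      (1 - mo (a / r) (b₁ / r) * mo (a / r) (1 / r))) (𝓝[>] 1) (𝓝 ((1 - β) * (1 - β * 1))) :=
    (t2.sub t1).mul ((t1.mul t2).const_sub 1)
  have hden : (1 - β) * (1 - β * 1) ≠ 0 := by
    rw [mul_one]
    exact (mul_pos hb hb).ne'
  have tE : Tendsto (fun r : ℝ => (1 - mo (a / r) (b₁ / r)) ^ 2 * mo (a / r) (1 / r) /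
      ((mo (a / r) (1 / r) - mo (a / r) (b₁ / r)) *
      (1 - mo (a / r) (b₁ / r) * mo (a / r) (1 / r)))) (𝓝[>] 1)
      (𝓝 ((1 - β) ^ 2 * 1 / ((1 - β) * (1 - β * 1)))) :=
    (((t1.const_sub 1).pow 2).mul t2).div tden hden
  have tC : Tendsto (fun r : ℝ => (1 + mo (a / r) (b₁ / r)) ^ 2 * mo (a / r) (1 / r) /
      ((mo (a / r) (1 / r) - mo (a / r) (b₁ / r)) *
      (1 - mo (a / r) (b₁ / r) * mo (a / r) (1 / r)))) (𝓝[>] 1)
      (𝓝 ((1 + β) ^ 2 * 1 / ((1 - β) * (1 - β * 1)))) :=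
    (((t1.const_add 1).pow 2).mul t2).div tden hden
  have e1 : (1 - β) ^ 2 * 1 / ((1 - β) * (1 - β * 1)) = 1 := by
    rw [mul_one, mul_one, ← sq, div_self (pow_pos hb 2).ne']
  have e2 : 1 < (1 + β) ^ 2 * 1 / ((1 - β) * (1 - β * 1)) := by
    rw [mul_one, mul_one, one_lt_div (mul_pos hb hb)]
    nlinarith
  rw [e1] at tE
  obtain ⟨L, hL⟩ : ∃ L : ℝ, L = (1 + β) ^ 2 * 1 / ((1 - β) * (1 - β * 1)) := ⟨_, rfl⟩
  rw [← hL] at e2 tC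
  obtain ⟨η, x, w, hη, hE, hx, hw⟩ := H.small ((L - 1) / 2) (by linarith)
  have hx1 : 1 < x := by
    obtain ⟨F, hF⟩ := hE
    exact hF.one_lt
  have hwL : w < L := by linarith
  filter_upwards [tE.eventually_lt_const hx1, tC.eventually_const_lt hwL, self_mem_nhdsWithin]
    with r k1 k2 k3
  have hr : (1 : ℝ) < r := k3
  have hr0 : 0 < r := by linarith
  have ha' : -1 < a / r := by
    rw [lt_div_iff₀ hr0]
    linarith
  have h0' : a / r < b₁ / r := by gcongr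
  have h1' : b₁ / r < 1 / r := by gcongr
  have h2' : 1 / r < 1 := by
    rw [div_lt_one hr0]
    exact hr
  have m1 := mo_mem ha' h0' (h1'.trans h2')
  have m2 := mo_mem ha' (h0'.trans h1') h2'
  have m3 := mo_lt ha' h0' h1' h2'
  have f1 := ea_radius m1.1 m3 m2.2
  have f2 := ec_radius m1.1 m3 m2.2
  rw [div_one, div_one, one_pow] at f1 f2
  exact ⟨η, x, w, hη, hE, by rw [f1]; exact k1, by rw [f2]; exact k2⟩

theorem s8_W {r b : ℝ} (hr : 1 < r) (hb : -1 < b) :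
    -1 - jr (mo (-1 / r) (b / r))
      = (r - 1) ^ 2 / (2 * r) * ((r - b) ^ 2 / ((b + 1) * (r ^ 2 + b))) := by
  have h1 : r ≠ 0 := by positivity
  have h2 : b + 1 ≠ 0 := by
    have : 0 < b + 1 := by linarith
    exact this.ne'
  have h3 : r ^ 2 + b ≠ 0 := by
    have : 0 < r ^ 2 + b := by nlinarith
    exact this.ne'
  have h4 : mo (-1 / r) (b / r) = r * (b + 1) / (r ^ 2 + b) := by
    unfold mo
    have h5 : 1 - -1 / r * (b / r) = (r ^ 2 + b) / r ^ 2 := by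
      field_simp
      ring
    rw [h5]
    field_simp
    ring
  rw [h4]
  unfold jr
  field_simp
  ring

theorem s8_ea {A B : ℝ} {x y : ℝ} (hx : -1 - x = A) (hy : -1 - y = B) :
    ea x y = A / (A - B) ∧ ec x y = (2 + A) / (A - B) := by
  have h1 : x = -1 - A := by linarith
  have h2 : y = -1 - B := by linarith
  unfold ea ec
  rw [h1, h2]
  constructor
  · congr 1 <;> ring
  · congr 1 <;> ring

theorem crit2_inner (H : EndsLim) {b₁ b₂ : ℝ} (h0 : -1 < b₁) (h1 : b₁ < b₂) (h2 : b₂ ≤ 1) :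
    ∀ᶠ r : ℝ in 𝓝[>] 1, Crit2 (mo (-1 / r) (b₁ / r)) (mo (-1 / r) (b₂ / r)) := by
  have h0' : -1 < b₂ := h0.trans h1
  have cw : ∀ {b : ℝ}, -1 < b → Tendsto (fun r : ℝ => (r - b) ^ 2 / ((b + 1) * (r ^ 2 + b)))
      (𝓝[>] 1) (𝓝 ((1 - b) ^ 2 / ((b + 1) * (1 ^ 2 + b)))) := fun {b} hb => by
    have h3 : (b + 1) * ((1 : ℝ) ^ 2 + b) ≠ 0 := by
      have : 0 < (b + 1) * ((1 : ℝ) ^ 2 + b) := mul_pos (by linarith) (by linarith)
      exact this.ne'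
    have h4 : ContinuousAt (fun r : ℝ => (r - b) ^ 2 / ((b + 1) * (r ^ 2 + b))) 1 :=
      ContinuousAt.div (by fun_prop) (by fun_prop) h3
    exact h4.tendsto.mono_left nhdsWithin_le_nhds
  obtain ⟨W₁, hW1⟩ : ∃ W : ℝ, W = (1 - b₁) ^ 2 / ((b₁ + 1) * (1 ^ 2 + b₁)) := ⟨_, rfl⟩
  obtain ⟨W₂, hW2⟩ : ∃ W : ℝ, W = (1 - b₂) ^ 2 / ((b₂ + 1) * (1 ^ 2 + b₂)) := ⟨_, rfl⟩
  have t1 := cw h0
  have t2 := cw h0'
  rw [← hW1] at t1
  rw [← hW2] at t2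
  have hWW : W₂ < W₁ := by
    rw [hW1, hW2, div_lt_div_iff₀ (mul_pos (by linarith) (by linarith))
      (mul_pos (by linarith) (by linarith))]
    have k1 : (1 - b₂) * (1 + b₁) < (1 - b₁) * (1 + b₂) := by nlinarith
    have k2 : 0 ≤ (1 - b₂) * (1 + b₁) := mul_nonneg (by linarith) (by linarith)
    nlinarith
  have tq : Tendsto (fun r : ℝ => (r - 1) ^ 2 / (2 * r)) (𝓝[>] 1) (𝓝 0) := by
    have h4 : ContinuousAt (fun r : ℝ => (r - 1) ^ 2 / (2 * r)) 1 :=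
      ContinuousAt.div (by fun_prop) (by fun_prop) (by norm_num)
    have h5 := h4.tendsto.mono_left (nhdsWithin_le_nhds (s := Ioi (1 : ℝ)))
    have h6 : ((1 : ℝ) - 1) ^ 2 / (2 * 1) = 0 := by norm_num
    rwa [h6] at h5
  obtain ⟨E, hE⟩ : ∃ E : ℝ, E = W₁ / (W₁ - W₂) := ⟨_, rfl⟩
  obtain ⟨η, x, w, hη, hEnds, hx⟩ := H.large (E + 1)
  have hd : W₁ - W₂ ≠ 0 := (sub_pos.2 hWW).ne'
  have tE := t1.div (t1.sub t2) hd
  rw [← hE] at tE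
  have k1 := tE.eventually_lt_const (show E < x by linarith)
  have k2 := (t1.sub t2).eventually_const_lt (sub_pos.2 hWW)
  have tw : Tendsto (fun r : ℝ => 2 + (r - 1) ^ 2 / (2 * r) * ((r - b₁) ^ 2 / ((b₁ + 1) * (r ^ 2 + b₁)))
      - w * ((r - 1) ^ 2 / (2 * r) * ((r - b₁) ^ 2 / ((b₁ + 1) * (r ^ 2 + b₁))
        - (r - b₂) ^ 2 / ((b₂ + 1) * (r ^ 2 + b₂))))) (𝓝[>] 1)
      (𝓝 (2 + 0 * W₁ - w * (0 * (W₁ - W₂)))) :=
    ((tq.mul t1).const_add 2).sub ((tq.mul (t1.sub t2)).const_mul w)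
  have k3 := tw.eventually_const_lt (show (0 : ℝ) < 2 + 0 * W₁ - w * (0 * (W₁ - W₂)) by
    rw [zero_mul, zero_mul, mul_zero]
    norm_num)
  filter_upwards [k1, k2, k3, self_mem_nhdsWithin] with r g1 g2 g3 g4
  have hr : (1 : ℝ) < r := g4
  have hr0 : 0 < r := by linarith
  obtain ⟨q, hq⟩ : ∃ q : ℝ, q = (r - 1) ^ 2 / (2 * r) := ⟨_, rfl⟩
  obtain ⟨u, hu⟩ : ∃ u : ℝ, u = (r - b₁) ^ 2 / ((b₁ + 1) * (r ^ 2 + b₁)) := ⟨_, rfl⟩
  obtain ⟨v, hv⟩ : ∃ v : ℝ, v = (r - b₂) ^ 2 / ((b₂ + 1) * (r ^ 2 + b₂)) := ⟨_, rfl⟩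
  have hq0 : 0 < q := by
    rw [hq]
    have : 0 < r - 1 := by linarith
    positivity
  have e1 := s8_W hr h0
  have e2 := s8_W hr h0'
  rw [← hq, ← hu] at e1
  rw [← hq, ← hv] at e2
  obtain ⟨f1, f2⟩ := s8_ea e1 e2
  simp only [Pi.div_apply] at g1
  simp only [← hu, ← hv] at g1 g2 g3
  rw [← hq] at g3
  have hqd : 0 < q * u - q * v := by
    have := mul_pos hq0 g2
    linarith
  refine ⟨η, x, w, hη, hEnds, ?_, ?_⟩
  · rw [f1, ← mul_sub, mul_div_mul_left _ _ hq0.ne']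
    exact g1
  · rw [f2, lt_div_iff₀ hqd]
    linarith

end Pool.Agent.Choc
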