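import Pool.Agent.Lib.MP_2b3e36_an.Re.S5
import Pool.Agent.Lib.MP_2b3e36_an.Re.S6
import Pool.Agent.Lib.MP_2b3e36_an.Re.S7
import Pool.Agent.Lib.MP_2b3e36_an.Re.S8

/-!
S9. Rational functions with one real zero and two real ones in the closed disc: everything in terms of
the criterion for the zero `0` (assembly).
-/

set_option autoImplicit false

open Complex Set Filter Topology Metric

namespace Pool.Agent.Choc

theorem stable2_interior
    (hC : ∀ b₁ b₂ : ℝ, 0 < b₁ → b₁ < b₂ → b₂ < 1 → (Realp2 b₁ b₂ ↔ Crit2 b₁ b₂))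
    {a b₁ b₂ : ℝ} (ha : -1 < a) (h0 : a < b₁) (h1 : b₁ < b₂) (h2 : b₂ < 1) :
    StableSol2 a b₁ b₂ ↔ Crit2 (mo a b₁) (mo a b₂) := by
  have ha' : |a| < 1 := abs_lt.2 ⟨ha, by linarith⟩
  have hb₁ : |b₁| < 1 := abs_lt.2 ⟨by linarith, by linarith⟩
  have hb₂ : |b₂| < 1 := abs_lt.2 ⟨by linarith, h2⟩
  have e1 : StableSol2 a b₁ b₂ ↔ ∃ (r : ℝ) (f : ℂ → ℂ), SolA2 a b₁ b₂ r f := by
    constructor
    · exact solA2_of_stable ha' hb₁ hb₂
    · rintro ⟨r, f, hf⟩
      exact stable_of_solA2 ha' hb₁ hb₂ h1.ne hf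
  rw [e1, solA2_iff ha h0 h1 h2]
  exact hC _ _ (mo_mem ha h0 (by linarith)).1 (mo_lt ha h0 h1 h2)
    (mo_mem ha (by linarith) h2).2

theorem stable2_left
    (hC : ∀ b₁ b₂ : ℝ, 0 < b₁ → b₁ < b₂ → b₂ < 1 → (Realp2 b₁ b₂ ↔ Crit2 b₁ b₂))
    (H : EndsLim) {a b₁ b₂ : ℝ} (ha : -1 ≤ a) (h0 : a < b₁) (h1 : b₁ < b₂) (h2 : b₂ ≤ 1) :
    StableSol2 a b₁ b₂ ↔ (a = -1 ∨ b₂ = 1 ∨ Crit2 (mo a b₁) (mo a b₂)) := by
  -- a scaled solution
  have key : (∀ᶠ r : ℝ in 𝓝[>] 1, Crit2 (mo (a / r) (b₁ / r)) (mo (a / r) (b₂ / r))) →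
      StableSol2 a b₁ b₂ := by
    intro hev
    obtain ⟨r, hr, hr1⟩ := (hev.and self_mem_nhdsWithin).exists
    have hr1' : (1 : ℝ) < r := hr1
    have hr0 : (0 : ℝ) < r := by linarith
    refine stable2_scale hr1'.le ?_
    refine (stable2_interior hC ?_ ?_ ?_ ?_).2 hr
    · rw [lt_div_iff₀ hr0]; linarith
    · exact div_lt_div_of_pos_right h0 hr0
    · exact div_lt_div_of_pos_right h1 hr0
    · rw [div_lt_one hr0]; linarith
  rcases ha.lt_or_eq with ha1 | ha1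
  · rcases h2.lt_or_eq with h21 | h21
    · rw [stable2_interior hC ha1 h0 h1 h21]
      constructor
      · exact fun h => Or.inr (Or.inr h)
      · rintro (h | h | h)
        · exact absurd h ha1.ne'
        · exact absurd h h21.ne
        · exact h
    · refine ⟨fun _ => Or.inr (Or.inl h21), fun _ => key ?_⟩
      rw [h21]
      exact crit2_outer H ha1 h0 (by linarith)
  · refine ⟨fun _ => Or.inl ha1.symm, fun _ => key ?_⟩
    rw [← ha1]
    exact crit2_inner H (by linarith) h1 h2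

theorem mo_neg (a b : ℝ) : mo (-a) (-b) = mo b a := by
  unfold mo
  congr 1 <;> ring

/-- The complete answer for one real zero and two real ones. -/
theorem stable2_iff
    (hC : ∀ b₁ b₂ : ℝ, 0 < b₁ → b₁ < b₂ → b₂ < 1 → (Realp2 b₁ b₂ ↔ Crit2 b₁ b₂))
    (H : EndsLim) {a b₁ b₂ : ℝ} (ha : |a| ≤ 1) (h0 : -1 ≤ b₁) (h1 : b₁ < b₂) (h2 : b₂ ≤ 1)
    (n1 : a ≠ b₁) (n2 : a ≠ b₂) :
    StableSol2 a b₁ b₂ ↔
      ((a < b₁ ∧ (a = -1 ∨ b₂ = 1 ∨ Crit2 (mo a b₁) (mo a b₂))) ∨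
       (b₂ < a ∧ (a = 1 ∨ b₁ = -1 ∨ Crit2 (mo b₂ a) (mo b₁ a)))) := by
  have ha' := abs_le.1 ha
  rcases lt_trichotomy a b₁ with h | h | h
  · rw [stable2_left hC H ha'.1 h h1 h2]
    constructor
    · exact fun h' => Or.inl ⟨h, h'⟩
    · rintro (⟨_, h'⟩ | ⟨h', _⟩)
      · exact h'
      · exact absurd h' (by linarith)
  · exact absurd h n1
  · rcases lt_trichotomy a b₂ with h' | h' | h'
    · constructor
      · exact fun hs => absurd hs (not_stable2_between h0 h h' h2)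
      · rintro (⟨h'', _⟩ | ⟨h'', _⟩)
        · exact absurd h'' (by linarith)
        · exact absurd h'' (by linarith)
    · exact absurd h' n2
    · have e : StableSol2 a b₁ b₂ ↔ StableSol2 (-a) (-b₂) (-b₁) := by
        constructor
        · exact stable2_neg
        · intro hs
          have := stable2_neg hs
          simpa using this
      rw [e, stable2_left hC H (by linarith) (by linarith) (by linarith) (by linarith),
        mo_neg, mo_neg]
      constructor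
      · rintro (h3 | h3 | h3)
        · exact Or.inr ⟨h', Or.inl (by linarith)⟩
        · exact Or.inr ⟨h', Or.inr (Or.inl (by linarith))⟩
        · exact Or.inr ⟨h', Or.inr (Or.inr h3)⟩
      · rintro (⟨h3, _⟩ | ⟨_, (h3 | h3 | h3)⟩)
        · exact absurd h3 (by linarith)
        · exact Or.inl (by linarith)
        · exact Or.inr (Or.inl (by linarith))
        · exact Or.inr (Or.inr h3)

end Pool.Agent.Choc
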