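import Pool.Agent.Lib.MP_2b3e36_an.Re.Defs3
import Pool.Agent.Lib.MP_2b3e36_an.Ex.W1

/-!
W5. The Joukowski coordinate of real points, and the invariants `ea`, `ec` as functions of the radius.

`jr b = -(b + 1/b)/2`. `jr_lt`: `b + 1/b > 2`. `jr_strict`: `jr b' - jr b = (b'-b)(1/(b b') - 1)/2 > 0`.
`jb_mem`: with `s = sqrt (v^2-1)`, `0 < s < -v`, `jb v = -v - s > 0`, `(-v-s)(-v+s) = 1`, so `jb v < 1` (`-v+s > 1`) and
`jb v + 1/jb v = -2v`. `jb_jr`: `jr b ^2 - 1 = ((1/b - b)/2)^2`. `jb_lt`: by `jr_strict` and injectivity.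
`jinv_ofReal`: `jinv v = jaux (-1/v)`, `1 - 1/v^2 > 0`, its principal root is `sqrt (v^2-1)/(-v)`.
`jinv_deriv_left`: with `u = -1/v ∈ (0,1)`, `z = jaux u ∈ (0,1)`: from `2 z = u (1+z^2)` (`jaux_slit`):
`z' = (1+z^2)/(2(1-u z)) > 0`, and `d(-1/v)/dv = 1/v^2`.
`ea_radius`, `ec_radius`: direct computation: `-1 - jr (b₁/s) = (s-b₁)^2/(2 s b₁)`, `1 - jr (b₁/s) = (s+b₁)^2/(2 s b₁)`,
`jr (b₂/s) - jr (b₁/s) = (b₂-b₁)(s^2-b₁b₂)/(2 s b₁b₂)`.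
`ea_strict`: `(t-b₁)^2 (s^2-b₁b₂) - (s-b₁)^2 (t^2-b₁b₂) = b₁ (t-s) [2 s t - ... ] > 0`: the derivative of
`(s-b₁)^2/(s^2-b₁b₂)` has the sign of `2 (s-b₁) b₁ (s-b₂) > 0`, that of `(s+b₁)^2/(s^2-b₁b₂)` the sign of
`-2 (s+b₁) b₁ (s+b₂) < 0`. `ea_cont`: rational functions.
-/

set_option autoImplicit false

open Complex Set Filter Topology Metric

namespace Pool.Agent.Choc

theorem jou_ofReal (b : ℝ) : jou (b : ℂ) = (jr b : ℂ) := by
  unfold jou jr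
  push_cast
  rfl

theorem jr_lt {b : ℝ} (h0 : 0 < b) (h1 : b < 1) : jr b < -1 := by
  have h2 : b + b⁻¹ - 2 = b⁻¹ * (1 - b) ^ 2 := by
    field_simp
    ring
  have h3 : 0 < b⁻¹ * (1 - b) ^ 2 := mul_pos (inv_pos.2 h0) (pow_pos (by linarith) 2)
  unfold jr
  linarith

theorem jr_strict {b b' : ℝ} (h0 : 0 < b) (h : b < b') (h1 : b' ≤ 1) : jr b < jr b' := by
  have hb' : 0 < b' := h0.trans h
  have h2 : jr b' - jr b = (b' - b) * (1 - b * b') / (2 * (b * b')) := by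
    unfold jr
    field_simp
    ring
  have h3 : 0 < (b' - b) * (1 - b * b') / (2 * (b * b')) := by
    refine div_pos (mul_pos (by linarith) ?_) (by positivity)
    nlinarith
  linarith

theorem w5_sqrt {v : ℝ} (hv : v < -1) : 0 < Real.sqrt (v ^ 2 - 1) ∧
    Real.sqrt (v ^ 2 - 1) ^ 2 = v ^ 2 - 1 ∧ Real.sqrt (v ^ 2 - 1) < -v := by
  have h1 : 0 < v ^ 2 - 1 := by nlinarith
  have h2 := Real.sq_sqrt h1.le
  have h3 := Real.sqrt_pos.2 h1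
  refine ⟨h3, h2, ?_⟩
  nlinarith

theorem w5_inv {v : ℝ} (hv : v < -1) : (jb v)⁻¹ = -v + Real.sqrt (v ^ 2 - 1) := by
  obtain ⟨h1, h2, h3⟩ := w5_sqrt hv
  refine inv_eq_of_mul_eq_one_right ?_
  unfold jb
  nlinarith

theorem jb_mem {v : ℝ} (hv : v < -1) : 0 < jb v ∧ jb v < 1 ∧ jr (jb v) = v := by
  obtain ⟨h1, h2, h3⟩ := w5_sqrt hv
  have h4 : 0 < jb v := by
    unfold jb
    linarith
  refine ⟨h4, ?_, ?_⟩
  · have h5 : jb v * (-v + Real.sqrt (v ^ 2 - 1)) = 1 := by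
      unfold jb
      nlinarith
    nlinarith
  · unfold jr
    rw [w5_inv hv]
    unfold jb
    ring

theorem jb_jr {b : ℝ} (h0 : 0 < b) (h1 : b < 1) : jb (jr b) = b := by
  have h2 : jr b ^ 2 - 1 = ((b⁻¹ - b) / 2) ^ 2 := by
    unfold jr
    field_simp
    ring
  have h3 : 0 ≤ (b⁻¹ - b) / 2 := by
    have h4 : 1 < b⁻¹ := (one_lt_inv₀ h0).2 h1
    linarith
  unfold jb
  rw [h2, Real.sqrt_sq h3]
  unfold jr
  ring

theorem jb_lt {v v' : ℝ} (h : v < v') (hv : v' < -1) : jb v < jb v' := by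
  obtain ⟨a1, a2, a3⟩ := jb_mem (h.trans hv)
  obtain ⟨b1, b2, b3⟩ := jb_mem hv
  by_contra hcon
  rcases (not_lt.1 hcon).lt_or_eq with h1 | h1
  · have h2 := jr_strict b1 h1 a2.le
    rw [a3, b3] at h2
    linarith
  · rw [h1, a3] at b3
    linarith

theorem w5_real {v : ℝ} (hv : v < -1) : jaux ((-1 / v : ℝ) : ℂ) = (jb v : ℂ) := by
  obtain ⟨h1, h2, h3⟩ := w5_sqrt hv
  have hx0 : v < 0 := by linarith
  have hu1 : 0 < -1 / v := div_pos_of_neg_of_neg (by norm_num) hx0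
  have hu2 : -1 / v < 1 := by
    rw [div_lt_one_of_neg hx0]
    exact hv
  obtain ⟨t, ht1, ht2, ht3⟩ := w1_real (u := -1 / v) (by rw [abs_of_pos hu1]; exact hu2)
  rw [ht1]
  have h4 : (t + v) ^ 2 = Real.sqrt (v ^ 2 - 1) ^ 2 := by
    rw [h2]
    have h5 : 2 * t * v = -1 * (1 + t ^ 2) := by
      rw [ht3, mul_right_comm, div_mul_cancel₀ _ hx0.ne]
    linarith
  have h6 := (abs_lt.1 ht2).2
  rcases sq_eq_sq_iff_eq_or_eq_neg.1 h4 with h5 | h5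
  · linarith
  · congr 1
    unfold jb
    linarith

theorem jinv_ofReal {v : ℝ} (hv : v < -1) : jinv (v : ℂ) = (jb v : ℂ) := by
  rw [← w5_real hv]
  unfold jinv
  push_cast
  rfl

theorem jinv_deriv_left {v : ℝ} (hv : v < -1) :
    ∃ κ : ℝ, 0 < κ ∧ HasDerivAt jinv (κ : ℂ) (v : ℂ) := by
  have hx0 : v < 0 := by linarith
  have hv0 : (v : ℂ) ≠ 0 := by exact_mod_cast hx0.ne
  obtain ⟨a1, a2, a3⟩ := jb_mem hv
  have hu1 : 0 < -1 / v := div_pos_of_neg_of_neg (by norm_num) hx0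
  have hu2 : -1 / v < 1 := by
    rw [div_lt_one_of_neg hx0]
    exact hv
  have hoff : ¬((((-1 / v : ℝ) : ℂ)).im = 0 ∧ 1 ≤ |(((-1 / v : ℝ) : ℂ)).re|) := by
    rintro ⟨-, h⟩
    rw [Complex.ofReal_re, abs_of_pos hu1] at h
    linarith
  have h1 := w1_deriv hoff
  have h2 := (w1_diff hoff).hasDerivAt
  rw [w5_real hv] at h1
  have h3 : 0 < 1 - (-1 / v) * jb v := by nlinarith
  have h4 : deriv jaux ((-1 / v : ℝ) : ℂ)
      = (((1 + jb v ^ 2) / (2 * (1 - (-1 / v) * jb v)) : ℝ) : ℂ) := by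
    have h5 : ((2 * (1 - (-1 / v) * jb v) : ℝ) : ℂ) ≠ 0 := by
      exact_mod_cast (mul_pos two_pos h3).ne'
    have h5' : (((1 + jb v ^ 2) / (2 * (1 - (-1 / v) * jb v)) : ℝ) : ℂ)
        = ((1 + jb v ^ 2 : ℝ) : ℂ) / ((2 * (1 - (-1 / v) * jb v) : ℝ) : ℂ) :=
      Complex.ofReal_div _ _
    rw [h5', eq_div_iff h5]
    push_cast at h1 ⊢
    linear_combination h1
  have h6 : HasDerivAt (fun z : ℂ => -1 / z) (1 / (v : ℂ) ^ 2) (v : ℂ) := by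
    have h7 := (hasDerivAt_inv hv0).const_mul (-1)
    have h8 : (fun z : ℂ => -1 / z) = fun z : ℂ => -1 * z⁻¹ := by
      funext z
      rw [div_eq_mul_inv]
    rw [h8]
    have h9 : (1 / (v : ℂ) ^ 2) = -1 * -((v : ℂ) ^ 2)⁻¹ := by
      rw [one_div]
      ring
    rw [h9]
    exact h7
  have h10 : ((-1 / v : ℝ) : ℂ) = -1 / (v : ℂ) := by push_cast; rfl
  rw [h10] at h2 h4
  have h11 := HasDerivAt.comp (v : ℂ) h2 h6
  refine ⟨(1 + jb v ^ 2) / (2 * (1 - (-1 / v) * jb v)) * (1 / v ^ 2), ?_, ?_⟩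
  · refine mul_pos (div_pos (by positivity) (mul_pos two_pos h3)) ?_
    exact div_pos one_pos (by nlinarith)
  · have h12 : (((1 + jb v ^ 2) / (2 * (1 - (-1 / v) * jb v)) * (1 / v ^ 2) : ℝ) : ℂ)
        = deriv jaux (-1 / (v : ℂ)) * (1 / (v : ℂ) ^ 2) := by
      rw [h4]
      push_cast
      ring
    rw [h12]
    exact h11

theorem w5_e1 {b s : ℝ} (h0 : 0 < b) (hs : 0 < s) :
    -1 - jr (b / s) = (s - b) ^ 2 / (2 * s * b) := by
  unfold jr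
  rw [inv_div]
  field_simp
  ring

theorem w5_e2 {b s : ℝ} (h0 : 0 < b) (hs : 0 < s) :
    1 - jr (b / s) = (s + b) ^ 2 / (2 * s * b) := by
  unfold jr
  rw [inv_div]
  field_simp
  ring

theorem w5_e3 {b₁ b₂ s : ℝ} (h0 : 0 < b₁) (h : 0 < b₂) (hs : 0 < s) :
    jr (b₂ / s) - jr (b₁ / s) = (b₂ - b₁) * (s ^ 2 - b₁ * b₂) / (2 * s * b₁ * b₂) := by
  unfold jr
  rw [inv_div, inv_div]
  field_simp
  ring

theorem w5_den {b₁ b₂ s : ℝ} (h0 : 0 < b₁) (h : b₁ < b₂) (hs : b₂ < s) :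
    0 < s ^ 2 - b₁ * b₂ := by
  nlinarith

theorem ea_radius {b₁ b₂ s : ℝ} (h0 : 0 < b₁) (h : b₁ < b₂) (hs : b₂ < s) :
    ea (jr (b₁ / s)) (jr (b₂ / s)) = (s - b₁) ^ 2 * b₂ / ((b₂ - b₁) * (s ^ 2 - b₁ * b₂)) := by
  have h1 := w5_den h0 h hs
  have h2 : 0 < b₂ := h0.trans h
  have h3 : 0 < s := h2.trans hs
  have h4 : b₂ - b₁ ≠ 0 := by linarith
  unfold ea
  rw [w5_e1 h0 h3, w5_e3 h0 h2 h3]
  have h5 := h1.ne'
  field_simp

theorem ec_radius {b₁ b₂ s : ℝ} (h0 : 0 < b₁) (h : b₁ < b₂) (hs : b₂ < s) :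
    ec (jr (b₁ / s)) (jr (b₂ / s)) = (s + b₁) ^ 2 * b₂ / ((b₂ - b₁) * (s ^ 2 - b₁ * b₂)) := by
  have h1 := w5_den h0 h hs
  have h2 : 0 < b₂ := h0.trans h
  have h3 : 0 < s := h2.trans hs
  have h4 : b₂ - b₁ ≠ 0 := by linarith
  unfold ec
  rw [w5_e2 h0 h3, w5_e3 h0 h2 h3]
  have h5 := h1.ne'
  field_simp

theorem ea_strict {b₁ b₂ s t : ℝ} (h0 : 0 < b₁) (h : b₁ < b₂) (hs : b₂ < s) (hst : s < t) :
    ea (jr (b₁ / s)) (jr (b₂ / s)) < ea (jr (b₁ / t)) (jr (b₂ / t)) ∧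
    ec (jr (b₁ / t)) (jr (b₂ / t)) < ec (jr (b₁ / s)) (jr (b₂ / s)) := by
  have h1 := w5_den h0 h hs
  have h2 := w5_den h0 h (hs.trans hst)
  have h3 : 0 < b₂ := h0.trans h
  have h4 : 0 < b₂ - b₁ := by linarith
  have h5 : 0 < t - s := by linarith
  have h6 : 0 < s := h3.trans hs
  rw [ea_radius h0 h hs, ea_radius h0 h (hs.trans hst), ec_radius h0 h hs,
    ec_radius h0 h (hs.trans hst)]
  have hA : 0 < b₂ * ((b₂ - b₁) * ((t - s) * b₁ * ((s - b₁) * (t - b₂) + (s - b₂) * (t - b₁)))) := by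
    have e1 : 0 < (s - b₁) * (t - b₂) := mul_pos (by linarith) (by linarith)
    have e2 : 0 < (s - b₂) * (t - b₁) := mul_pos (by linarith) (by linarith)
    positivity
  have hB : 0 < b₂ * ((b₂ - b₁) * ((t - s) * b₁ * ((s + b₁) * (t + b₂) + (s + b₂) * (t + b₁)))) := by
    have e1 : 0 < t := h6.trans hst
    positivity
  constructor
  · rw [div_lt_div_iff₀ (mul_pos h4 h1) (mul_pos h4 h2)]
    nlinarith
  · rw [div_lt_div_iff₀ (mul_pos h4 h2) (mul_pos h4 h1)]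
    nlinarith

theorem ea_cont {b₁ b₂ s : ℝ} (h0 : 0 < b₁) (h : b₁ < b₂) (hs : b₂ < s) :
    ContinuousAt (fun t : ℝ => ea (jr (b₁ / t)) (jr (b₂ / t))) s ∧
    ContinuousAt (fun t : ℝ => ec (jr (b₁ / t)) (jr (b₂ / t))) s := by
  have h1 := w5_den h0 h hs
  have h4 : 0 < b₂ - b₁ := by linarith
  have h5 : (b₂ - b₁) * (s ^ 2 - b₁ * b₂) ≠ 0 := (mul_pos h4 h1).ne'
  have h6 : ∀ᶠ t in 𝓝 s, b₂ < t := lt_mem_nhds hs
  constructor
  · have h2 : ContinuousAt (fun t : ℝ => (t - b₁) ^ 2 * b₂ / ((b₂ - b₁) * (t ^ 2 - b₁ * b₂))) s :=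
      ContinuousAt.div (by fun_prop) (by fun_prop) h5
    refine h2.congr ?_
    filter_upwards [h6] with t ht using (ea_radius h0 h ht).symm
  · have h2 : ContinuousAt (fun t : ℝ => (t + b₁) ^ 2 * b₂ / ((b₂ - b₁) * (t ^ 2 - b₁ * b₂))) s :=
      ContinuousAt.div (by fun_prop) (by fun_prop) h5
    refine h2.congr ?_
    filter_upwards [h6] with t ht using (ec_radius h0 h ht).symm

end Pool.Agent.Choc
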