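import Pool.Agent.Lib.MP_2b3e36_an.Re.W5
import Pool.Agent.Lib.MP_2b3e36_an.Ex.W3

/-!
W6. Monotonicity (compare W3 and its lemmas `w3_psi_facts`, `w3_psi_eq_zero`, `w3_inj`).

Proof. Let `Sol2 b₁' b₂' r' f'`. By `ea_strict`, `ea_cont` (at `s = 1`, `t = r'` for `b'`) there is `r > 1` with
`ea (jr (b₁/r)) (jr (b₂/r)) ≤ ea (jr (b₁'/r')) (jr (b₂'/r'))` and `≥` for `ec`: at `r = 1`
`ea (b) ≤ ea (b') < ea (b'/r')`, continuity. Put `vᵢ = jr (bᵢ/r)`, `vᵢ' = jr (bᵢ'/r')`, `λ = (v₂'-v₁')/(v₂-v₁) > 0`,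
`μ = v₁' - λ v₁`, so `vᵢ' = λ vᵢ + μ`. `ea ≤ ea'` says `(-1-v₁) λ ≤ -1 - v₁'`, i.e. `μ - λ ≤ -1`... precisely
`-λ + μ ≤ -1`; `ec' ≤ ec` says `1 - v₁' ≤ λ (1 - v₁)`, i.e. `1 ≤ λ + μ`. So `λ ≥ 1 + |μ|`.
`ψ = w3_psi λ μ`: holomorphic from the unit disc to itself, real, `ψ' ≠ 0`, `ψ z = 0` only for `z = 0`, and
`D z * ψ z = z (1 + ψ z ^2)`, `D z = λ (1+z^2) - 2 μ z`; `ψ` is injective (`w3_inj`: `ψ z` determines `D z/z`, so
`z + 1/z`), and `ψ (bᵢ/r) = bᵢ'/r'`: with `z = bᵢ/r`, `D z / z = -2 (λ jr z + μ) = -2 jr (bᵢ'/r')`, so `ψ z` and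
`bᵢ'/r'` both satisfy `w + 1/w = D z/z` in the unit disc, `w3_inj`.
`f z = f' (r' ψ (z/r))` on `ball 0 r`: as in W3.
-/

set_option autoImplicit false

open Complex Set Filter Topology Metric

namespace Pool.Agent.Choc

theorem w6_rel {l m x y : ℝ} (hx : x ≠ 0) (hy : y ≠ 0) (h : jr y = l * jr x + m) :
    w3_D l m (x : ℂ) * (y : ℂ) = (x : ℂ) * (1 + (y : ℂ) ^ 2) := by
  have h1 : (l * (1 + x ^ 2) - 2 * m * x) * y = x * (1 + y ^ 2) := by
    unfold jr at h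
    have h3 : -(y + y⁻¹) / 2 * (2 * x * y) = (l * (-(x + x⁻¹) / 2) + m) * (2 * x * y) := by
      rw [h]
    have h4 : -(y + y⁻¹) / 2 * (2 * x * y) = -(x * (1 + y ^ 2)) := by
      field_simp
      ring
    have h5 : (l * (-(x + x⁻¹) / 2) + m) * (2 * x * y) = -((l * (1 + x ^ 2) - 2 * m * x) * y) := by
      field_simp
      ring
    rw [h4, h5] at h3
    exact (neg_injective h3).symm
  unfold w3_D
  exact_mod_cast h1

theorem w6_psi {l m : ℝ} (hl0 : 0 < l) (hm1 : |m| + 1 ≤ l) {β β' : ℂ} (hβn : ‖β‖ < 1)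
    (hβn' : ‖β'‖ < 1) (hβ0 : β ≠ 0) (hβ0' : β' ≠ 0)
    (hrel : w3_D l m β * β' = β * (1 + β' ^ 2)) :
    w3_psi l m β = β' ∧ ∀ z : ℂ, ‖z‖ < 1 → w3_psi l m z = β' → z = β := by
  constructor
  · obtain ⟨-, -, p3, -, p5⟩ := w3_psi_facts hl0 hm1 hβn
    refine w3_inj p3 hβn' ?_
    refine mul_left_cancel₀ hβ0 ?_
    calc β * (β' * (1 + w3_psi l m β ^ 2)) = β' * (β * (1 + w3_psi l m β ^ 2)) := by ring
      _ = β' * (w3_D l m β * w3_psi l m β) := by rw [p5]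
      _ = (w3_D l m β * β') * w3_psi l m β := by ring
      _ = (β * (1 + β' ^ 2)) * w3_psi l m β := by rw [hrel]
      _ = β * (w3_psi l m β * (1 + β' ^ 2)) := by ring
  · intro z hz h3
    obtain ⟨-, -, -, -, p5⟩ := w3_psi_facts hl0 hm1 hz
    rw [h3] at p5
    refine w3_inj hz hβn ?_
    have h4 : β * (w3_D l m z * β') = z * (w3_D l m β * β') := by
      rw [p5, hrel]
      ring
    have h5 : (l * β') * (β * (1 + z ^ 2)) = (l * β') * (z * (1 + β ^ 2)) := by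
      unfold w3_D at h4
      linear_combination h4
    exact mul_left_cancel₀ (mul_ne_zero (by exact_mod_cast hl0.ne') hβ0') h5

theorem w6_lm {v₁ v₂ v₁' v₂' : ℝ} (h : v₁ < v₂) (h' : v₁' < v₂')
    (hA : ea v₁ v₂ ≤ ea v₁' v₂') (hC : ec v₁' v₂' ≤ ec v₁ v₂) :
    ∃ l m : ℝ, 0 < l ∧ |m| + 1 ≤ l ∧ v₁' = l * v₁ + m ∧ v₂' = l * v₂ + m := by
  have hd : 0 < v₂ - v₁ := sub_pos.2 h
  have hd' : 0 < v₂' - v₁' := sub_pos.2 h'
  obtain ⟨l, hl⟩ : ∃ l : ℝ, l = (v₂' - v₁') / (v₂ - v₁) := ⟨_, rfl⟩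
  have hl0 : 0 < l := by
    rw [hl]
    exact div_pos hd' hd
  have hlv : l * (v₂ - v₁) = v₂' - v₁' := by
    rw [hl]
    field_simp
  unfold ea at hA
  unfold ec at hC
  rw [div_le_div_iff₀ hd hd', ← hlv] at hA
  rw [div_le_div_iff₀ hd' hd, ← hlv] at hC
  have e1 : (-1 - v₁) * l ≤ -1 - v₁' := by
    have : ((-1 - v₁) * l) * (v₂ - v₁) ≤ (-1 - v₁') * (v₂ - v₁) := by linarith
    exact le_of_mul_le_mul_right this hd
  have e2 : 1 - v₁' ≤ (1 - v₁) * l := by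
    have : (1 - v₁') * (v₂ - v₁) ≤ ((1 - v₁) * l) * (v₂ - v₁) := by linarith
    exact le_of_mul_le_mul_right this hd
  refine ⟨l, v₁' - l * v₁, hl0, ?_, by ring, by linarith⟩
  have : |v₁' - l * v₁| ≤ l - 1 := by
    rw [abs_le]
    constructor <;> linarith
  linarith

theorem realp2_mono {b₁ b₂ b₁' b₂' : ℝ} (h0 : 0 < b₁) (h1 : b₁ < b₂) (h2 : b₂ < 1)
    (hR : Realp2 b₁' b₂') (hx : ea (jr b₁) (jr b₂) ≤ ea (jr b₁') (jr b₂'))
    (hw : ec (jr b₁') (jr b₂') ≤ ec (jr b₁) (jr b₂)) : Realp2 b₁ b₂ := by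
  obtain ⟨r', f', hS⟩ := hR
  have hr' := hS.one_lt
  have hr'0 : 0 < r' := by linarith
  have h0' := hS.b1_pos
  have h1' := hS.b_lt
  have h2' := hS.b2_lt
  -- the radius
  obtain ⟨r, hr1, hrA, hrC⟩ : ∃ r : ℝ, 1 < r ∧
      ea (jr (b₁ / r)) (jr (b₂ / r)) ≤ ea (jr (b₁' / r')) (jr (b₂' / r')) ∧
      ec (jr (b₁' / r')) (jr (b₂' / r')) ≤ ec (jr (b₁ / r)) (jr (b₂ / r)) := by
    obtain ⟨m1, m2⟩ := ea_strict h0' h1' h2' hr'
    obtain ⟨c1, c2⟩ := ea_cont h0 h1 h2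
    rw [div_one, div_one] at m1 m2
    have e1 : ∀ᶠ t in 𝓝 (1 : ℝ), ea (jr (b₁ / t)) (jr (b₂ / t)) <
        ea (jr (b₁' / r')) (jr (b₂' / r')) :=
      c1.eventually_lt continuousAt_const (by
        rw [div_one, div_one]
        exact lt_of_le_of_lt hx m1)
    have e2 : ∀ᶠ t in 𝓝 (1 : ℝ), ec (jr (b₁' / r')) (jr (b₂' / r')) <
        ec (jr (b₁ / t)) (jr (b₂ / t)) :=
      continuousAt_const.eventually_lt c2 (by
        rw [div_one, div_one]
        exact lt_of_lt_of_le m2 hw)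
    have e3 : ∀ᶠ t in 𝓝[>] (1 : ℝ), 1 < t := self_mem_nhdsWithin
    obtain ⟨r, hr, h5, h6⟩ := (e3.and ((e1.and e2).filter_mono nhdsWithin_le_nhds)).exists
    exact ⟨r, hr, h5.le, h6.le⟩
  have hr0 : 0 < r := by linarith
  have hrc : (r : ℂ) ≠ 0 := by exact_mod_cast hr0.ne'
  have hrc' : (r' : ℂ) ≠ 0 := by exact_mod_cast hr'0.ne'
  have p1 : 0 < b₁ / r := div_pos h0 hr0
  have p2 : b₁ / r < b₂ / r := by gcongr
  have p3 : b₂ / r < 1 := by
    rw [div_lt_one hr0]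
    linarith
  have p1' : 0 < b₁' / r' := div_pos h0' hr'0
  have p2' : b₁' / r' < b₂' / r' := by gcongr
  have p3' : b₂' / r' < 1 := by
    rw [div_lt_one hr'0]
    linarith
  obtain ⟨l, m, hl0, hm1, q1, q2⟩ := w6_lm (jr_strict p1 p2 p3.le) (jr_strict p1' p2' p3'.le) hrA hrC
  have nn : ∀ x : ℝ, 0 < x → x < 1 → ‖(x : ℂ)‖ < 1 := fun x hx0 hx1 => by
    rw [Complex.norm_real, Real.norm_eq_abs, abs_of_pos hx0]
    exact hx1
  have nz : ∀ x : ℝ, 0 < x → (x : ℂ) ≠ 0 := fun x hx0 => by exact_mod_cast hx0.ne'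
  obtain ⟨k1, i1⟩ := w6_psi hl0 hm1 (nn _ p1 (p2.trans p3)) (nn _ p1' (p2'.trans p3'))
    (nz _ p1) (nz _ p1') (w6_rel p1.ne' p1'.ne' q1)
  obtain ⟨k2, i2⟩ := w6_psi hl0 hm1 (nn _ (p1.trans p2) p3) (nn _ (p1'.trans p2') p3')
    (nz _ (p1.trans p2)) (nz _ (p1'.trans p2')) (w6_rel (p1.trans p2).ne' (p1'.trans p2').ne' q2)
  push_cast at k1 k2 i1 i2
  have hball : ∀ z : ℂ, z ∈ ball (0 : ℂ) r → ‖z / r‖ < 1 := by
    intro z hz
    rw [mem_ball_zero_iff] at hz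
    rw [norm_div, Complex.norm_real, Real.norm_eq_abs, abs_of_pos hr0, div_lt_one hr0]
    exact hz
  have hin : ∀ z : ℂ, z ∈ ball (0 : ℂ) r → (r' : ℂ) * w3_psi l m (z / r) ∈ ball (0 : ℂ) r' := by
    intro z hz
    rw [mem_ball_zero_iff, norm_mul, Complex.norm_real, Real.norm_eq_abs, abs_of_pos hr'0]
    have := (w3_psi_facts hl0 hm1 (hball z hz)).2.2.1
    nlinarith
  have hder : ∀ z : ℂ, z ∈ ball (0 : ℂ) r → HasDerivAt (fun z => f' (r' * w3_psi l m (z / r)))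
      (deriv f' (r' * w3_psi l m (z / r)) * (r' * (deriv (w3_psi l m) (z / r) * (1 / r)))) z := by
    intro z hz
    have d1 : HasDerivAt f' (deriv f' (r' * w3_psi l m (z / r))) (r' * w3_psi l m (z / r)) :=
      (hS.diff.differentiableAt (isOpen_ball.mem_nhds (hin z hz))).hasDerivAt
    have d2 : HasDerivAt (w3_psi l m) (deriv (w3_psi l m) (z / r)) (z / r) :=
      (w3_psi_facts hl0 hm1 (hball z hz)).1.hasDerivAt
    have d3 : HasDerivAt (fun z : ℂ => z / r) (1 / r) z := (hasDerivAt_id z).div_const _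
    have d4 := d2.comp z d3
    have d5 := d4.const_mul (r' : ℂ)
    have d6 := HasDerivAt.comp (h₂ := f')
      (h := fun z : ℂ => (r' : ℂ) * ((w3_psi l m) ∘ fun z : ℂ => z / (r : ℂ)) z) z d1 d5
    exact d6
  have h0mem : (0 : ℂ) ∈ ball (0 : ℂ) r := mem_ball_self hr0
  have bmem : ∀ b : ℝ, 0 < b → b < 1 → (b : ℂ) ∈ ball (0 : ℂ) r := fun b hb0 hb1 => by
    rw [mem_ball_zero_iff]
    have := nn b hb0 hb1
    linarith
  have hb1mem := bmem b₁ h0 (h1.trans h2)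
  have hb2mem := bmem b₂ (h0.trans h1) h2
  have hbr1 : (r' : ℂ) * w3_psi l m (b₁ / r) = b₁' := by
    rw [k1]
    field_simp
  have hbr2 : (r' : ℂ) * w3_psi l m (b₂ / r) = b₂' := by
    rw [k2]
    field_simp
  have hdne : ∀ z : ℂ, z ∈ ball (0 : ℂ) r → deriv f' (r' * w3_psi l m (z / r)) ≠ 0 →
      deriv (fun z => f' (r' * w3_psi l m (z / r))) z ≠ 0 := fun z hz hne => by
    rw [(hder z hz).deriv]
    refine mul_ne_zero hne (mul_ne_zero hrc' (mul_ne_zero ?_ (one_div_ne_zero hrc)))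
    exact (w3_psi_facts hl0 hm1 (hball z hz)).2.1
  refine ⟨r, fun z => f' (r' * w3_psi l m (z / r)), hr1, h0, h1, h2, ?_, ?_, ?_, ?_, ?_, ?_, ?_⟩
  · intro z hz
    exact (hder z hz).differentiableAt.differentiableWithinAt
  · intro z hz
    have h3 : starRingEnd ℂ z / (r : ℂ) = starRingEnd ℂ (z / r) := by simp
    have h4 := (w3_psi_facts hl0 hm1 (hball z hz)).2.2.2.1
    show f' (r' * w3_psi l m (starRingEnd ℂ z / r)) = starRingEnd ℂ (f' (r' * w3_psi l m (z / r)))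
    rw [← hS.real _ (hin z hz), h3, h4]
    simp
  · intro z hz
    rw [hS.zero _ (hin z hz)]
    constructor
    · intro h3
      rcases mul_eq_zero.1 h3 with h4 | h4
      · exact absurd h4 hrc'
      · have h5 := w3_psi_eq_zero hl0 hm1 (hball z hz) h4
        rcases div_eq_zero_iff.1 h5 with h6 | h6
        · exact h6
        · exact absurd h6 hrc
    · rintro rfl
      rw [zero_div, w3_psi_zero, mul_zero]
  · intro z hz
    rw [hS.one _ (hin z hz)]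
    constructor
    · rintro (h3 | h3)
      · left
        have h5 := i1 _ (hball z hz) (by
          rw [← h3]
          field_simp)
        exact (div_left_inj' hrc).1 h5
      · right
        have h5 := i2 _ (hball z hz) (by
          rw [← h3]
          field_simp)
        exact (div_left_inj' hrc).1 h5
    · rintro (h3 | h3)
      · left
        rw [h3]
        exact hbr1
      · right
        rw [h3]
        exact hbr2
  · apply hdne 0 h0mem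
    rw [zero_div, w3_psi_zero, mul_zero]
    exact hS.deriv_zero
  · apply hdne _ hb1mem
    rw [hbr1]
    exact hS.deriv_b1
  · apply hdne _ hb2mem
    rw [hbr2]
    exact hS.deriv_b2

end Pool.Agent.Choc
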