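import Pool.Agent.Lib.MP_2b3e36_an.Re.Defs2

/-!
X1. The region `Wd (2 δ)` in the disc coordinate centred at `P = -1 + i δ`.

`Dt δ z = -1 + i δ (1+z)/(1-z)` maps the unit disc onto the upper half plane, `0` to `P`, with inverse
`Dz δ τ = (τ + 1 - i δ)/(τ + 1 + i δ)`. With `σ = τ + 1`, `σ = i δ (1+z)/(1-z)`:
`Re σ = - 2 δ Im z/|1-z|^2`, `Im σ = δ (1 - |z|^2)/|1-z|^2`, `|σ|^2 = δ^2 |1+z|^2/|1-z|^2`, so
`Re τ < 0` iff `0 < |1-z|^2 + 2 δ Im z`; `-2 < Re τ` iff `0 < |1-z|^2 - 2 δ Im z`;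
`1/2 < |τ + 1/2|` iff `|σ|^2 - Re σ > 0` iff `0 < δ |1+z|^2 + 2 Im z`; `Re τ = -1` and `2 δ ≤ Im τ` iff `z` is real
and `(1+z)/(1-z) ≥ 2`, `z ≥ 1/3`. `|1 ∓ z|^2 = 1 + |z|^2 ∓ 2 Re z`.
Star shape: each of the three inequalities has the form `g z = α (1 + |z|^2) + 2 Re (conj β z) > 0` with
`α > 0`. If `g z > 0`, `|z| < 1` and `0 ≤ t ≤ 1` then `g (t z) > 0`: clear if `Re (conj β z) ≥ 0`; otherwise
`g (t z) > α (1 + t^2|z|^2) - t α (1 + |z|^2) = α (1-t)(1 - t|z|^2) ≥ 0` for `t > 0`, and `g 0 = α > 0`.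
Slit: if `t z` is real `≥ 1/3` with `t > 0` then `z` is real and `z ≥ t z ≥ 1/3`.
-/

set_option autoImplicit false

open Complex Set Filter Topology Metric

namespace Pool.Agent.Choc

noncomputable section

/-- The disc coordinate. -/
def Dz (δ : ℝ) (τ : ℂ) : ℂ := (τ + 1 - δ * I) / (τ + 1 + δ * I)

/-- The inverse of the disc coordinate. -/
def Dt (δ : ℝ) (z : ℂ) : ℂ := -1 + δ * I * ((1 + z) / (1 - z))

/-- The region `Wd (2 δ)` in the disc coordinate. -/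
def V2 (δ : ℝ) : Set ℂ :=
  {z | ‖z‖ < 1 ∧ 0 < 1 + ‖z‖ ^ 2 - 2 * z.re + 2 * δ * z.im ∧
    0 < 1 + ‖z‖ ^ 2 - 2 * z.re - 2 * δ * z.im ∧
    0 < δ * (1 + ‖z‖ ^ 2 + 2 * z.re) + 2 * z.im ∧ ¬(z.im = 0 ∧ 1 / 3 ≤ z.re)}

theorem x1_nsq (z : ℂ) : ‖z‖ ^ 2 = z.re ^ 2 + z.im ^ 2 := by
  rw [Complex.sq_norm, Complex.normSq_apply]; ring

theorem V2_isOpen (δ : ℝ) : IsOpen (V2 δ) := by
  have h1 : IsOpen {z : ℂ | ‖z‖ < 1} := isOpen_lt continuous_norm continuous_const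
  have h2 : IsOpen {z : ℂ | 0 < 1 + ‖z‖ ^ 2 - 2 * z.re + 2 * δ * z.im} :=
    isOpen_lt continuous_const (by fun_prop)
  have h3 : IsOpen {z : ℂ | 0 < 1 + ‖z‖ ^ 2 - 2 * z.re - 2 * δ * z.im} :=
    isOpen_lt continuous_const (by fun_prop)
  have h4 : IsOpen {z : ℂ | 0 < δ * (1 + ‖z‖ ^ 2 + 2 * z.re) + 2 * z.im} :=
    isOpen_lt continuous_const (by fun_prop)
  have h5 : IsClosed {z : ℂ | z.im = 0 ∧ 1 / 3 ≤ z.re} :=
    (isClosed_eq Complex.continuous_im continuous_const).inter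
      (isClosed_le continuous_const Complex.continuous_re)
  have h6 := (((h1.inter h2).inter h3).inter h4).inter h5.isOpen_compl
  have e : V2 δ = ((({z : ℂ | ‖z‖ < 1} ∩ {z : ℂ | 0 < 1 + ‖z‖ ^ 2 - 2 * z.re + 2 * δ * z.im}) ∩
      {z : ℂ | 0 < 1 + ‖z‖ ^ 2 - 2 * z.re - 2 * δ * z.im}) ∩
      {z : ℂ | 0 < δ * (1 + ‖z‖ ^ 2 + 2 * z.re) + 2 * z.im}) ∩
      {z : ℂ | z.im = 0 ∧ 1 / 3 ≤ z.re}ᶜ := by
    ext z
    simp only [V2, mem_ofPred_eq, mem_inter_iff, mem_compl_iff]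
    tauto
  rw [e]
  exact h6

theorem V2_subset (δ : ℝ) : V2 δ ⊆ ball 0 1 := by
  intro z hz
  rw [mem_ball_zero_iff]
  exact hz.1

theorem zero_mem_V2 {δ : ℝ} (hδ : 0 < δ) : (0 : ℂ) ∈ V2 δ := by
  refine ⟨by simp, by simp, by simp, by simpa using hδ, ?_⟩
  rintro ⟨_, h⟩
  simp only [Complex.zero_re] at h
  norm_num at h

theorem x1_star (a n b t : ℝ) (ha : 0 < a) (hn : n < 1) (h : 0 < a * (1 + n) + b)
    (h0 : 0 ≤ t) (h1 : t ≤ 1) (hn0 : 0 ≤ n) : 0 < a * (1 + t ^ 2 * n) + t * b := by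
  have e : a * (1 + t ^ 2 * n) + t * b = t * (a * (1 + n) + b) + a * ((1 - t) * (1 - t * n)) := by
    ring
  rw [e]
  have h2 : t * n < 1 := lt_of_le_of_lt (mul_le_of_le_one_left hn0 h1) hn
  rcases h1.eq_or_lt with h3 | h3
  · rw [h3]
    simp only [one_mul, sub_self, zero_mul, mul_zero, add_zero]
    exact h
  · have h4 : 0 < a * ((1 - t) * (1 - t * n)) :=
      mul_pos ha (mul_pos (by linarith) (by linarith))
    have h5 : 0 ≤ t * (a * (1 + n) + b) := mul_nonneg h0 h.le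
    linarith

theorem V2_star {δ : ℝ} (hδ : 0 < δ) : StarConvex ℝ (0 : ℂ) (V2 δ) := by
  rw [starConvex_zero_iff]
  intro z hz t h0 h1
  obtain ⟨z1, z2, z3, z4, z5⟩ := hz
  have hn : ‖t • z‖ = t * ‖z‖ := by rw [norm_smul, Real.norm_of_nonneg h0]
  have hre : (t • z).re = t * z.re := by simp
  have him : (t • z).im = t * z.im := by simp
  have hz2 : ‖z‖ ^ 2 < 1 := by
    have := norm_nonneg z
    nlinarith
  have hz0 : 0 ≤ ‖z‖ ^ 2 := by positivity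
  refine ⟨?_, ?_, ?_, ?_, ?_⟩
  · rw [hn]
    calc t * ‖z‖ ≤ 1 * ‖z‖ := mul_le_mul_of_nonneg_right h1 (norm_nonneg _)
      _ < 1 := by rw [one_mul]; exact z1
  · rw [hn, hre, him]
    have := x1_star 1 (‖z‖ ^ 2) (-2 * z.re + 2 * δ * z.im) t one_pos hz2 (by linarith) h0 h1 hz0
    nlinarith
  · rw [hn, hre, him]
    have := x1_star 1 (‖z‖ ^ 2) (-2 * z.re - 2 * δ * z.im) t one_pos hz2 (by linarith) h0 h1 hz0
    nlinarith
  · rw [hn, hre, him]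
    have := x1_star δ (‖z‖ ^ 2) (δ * (2 * z.re) + 2 * z.im) t hδ hz2 (by linarith) h0 h1 hz0
    nlinarith
  · rintro ⟨h2, h3⟩
    rw [him] at h2
    rw [hre] at h3
    have ht : 0 < t := by
      rcases h0.eq_or_lt with h | h
      · rw [← h, zero_mul] at h3; norm_num at h3
      · exact h
    apply z5
    refine ⟨?_, ?_⟩
    · rcases mul_eq_zero.1 h2 with h | h
      · exact absurd h ht.ne'
      · exact h
    · have : 0 < z.re := by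
        by_contra hc
        push Not at hc
        nlinarith
      nlinarith

theorem x1_den {z : ℂ} (hz : z ≠ 1) : 0 < ‖1 - z‖ ^ 2 := by
  have : 1 - z ≠ 0 := sub_ne_zero.2 (Ne.symm hz)
  positivity

theorem x1_den_eq (z : ℂ) : ‖1 - z‖ ^ 2 = 1 + ‖z‖ ^ 2 - 2 * z.re := by
  rw [x1_nsq, x1_nsq]
  simp only [Complex.sub_re, Complex.sub_im, Complex.one_re, Complex.one_im]
  ring

theorem x1_cay_re {z : ℂ} (hz : z ≠ 1) :
    ((1 + z) / (1 - z)).re = (1 - ‖z‖ ^ 2) / ‖1 - z‖ ^ 2 := by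
  have h := x1_den hz
  rw [Complex.div_re, ← Complex.sq_norm]
  field_simp
  rw [x1_nsq z]
  simp only [Complex.sub_re, Complex.sub_im, Complex.add_re, Complex.add_im, Complex.one_re,
    Complex.one_im]
  ring

theorem x1_cay_im {z : ℂ} (hz : z ≠ 1) :
    ((1 + z) / (1 - z)).im = 2 * z.im / ‖1 - z‖ ^ 2 := by
  have h := x1_den hz
  rw [Complex.div_im, ← Complex.sq_norm]
  field_simp
  simp only [Complex.sub_re, Complex.sub_im, Complex.add_re, Complex.add_im, Complex.one_re,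
    Complex.one_im]
  ring

theorem Dt_re {δ : ℝ} {z : ℂ} (hz : z ≠ 1) :
    (Dt δ z).re = -1 - 2 * δ * z.im / ‖1 - z‖ ^ 2 := by
  unfold Dt
  have e : ((-1 : ℂ) + δ * I * ((1 + z) / (1 - z))).re = -1 - δ * ((1 + z) / (1 - z)).im := by
    rw [Complex.add_re, mul_assoc, Complex.re_ofReal_mul]
    simp
    ring
  rw [e, x1_cay_im hz]
  ring

theorem Dt_im {δ : ℝ} {z : ℂ} (hz : z ≠ 1) :
    (Dt δ z).im = δ * (1 - ‖z‖ ^ 2) / ‖1 - z‖ ^ 2 := by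
  unfold Dt
  have e : ((-1 : ℂ) + δ * I * ((1 + z) / (1 - z))).im = δ * ((1 + z) / (1 - z)).re := by
    rw [Complex.add_im, mul_assoc, Complex.im_ofReal_mul]
    simp
  rw [e, x1_cay_re hz]
  ring

theorem x1_ne {δ : ℝ} (hδ : 0 < δ) {τ : ℂ} (hτ : 0 ≤ τ.im) : τ + 1 + δ * I ≠ 0 := by
  intro h
  have := congrArg Complex.im h
  simp at this
  linarith

theorem Dt_Dz {δ : ℝ} (hδ : 0 < δ) {τ : ℂ} (hτ : 0 ≤ τ.im) : Dt δ (Dz δ τ) = τ := by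
  have h1 := x1_ne hδ hτ
  have hδc : (δ : ℂ) ≠ 0 := by exact_mod_cast hδ.ne'
  have hI := Complex.I_ne_zero
  unfold Dt Dz
  have e1 : 1 + (τ + 1 - δ * I) / (τ + 1 + δ * I) = 2 * (τ + 1) / (τ + 1 + δ * I) := by
    field_simp
    ring
  have e2 : 1 - (τ + 1 - δ * I) / (τ + 1 + δ * I) = 2 * (δ * I) / (τ + 1 + δ * I) := by
    field_simp
    ring
  rw [e1, e2]
  field_simp
  ring

theorem Dz_Dt {δ : ℝ} (hδ : 0 < δ) {z : ℂ} (hz : z ≠ 1) : Dz δ (Dt δ z) = z := by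
  have h1 : 1 - z ≠ 0 := sub_ne_zero.2 (Ne.symm hz)
  have hδc : (δ : ℂ) ≠ 0 := by exact_mod_cast hδ.ne'
  have hI := Complex.I_ne_zero
  unfold Dt Dz
  have e1 : -1 + δ * I * ((1 + z) / (1 - z)) + 1 - δ * I = δ * I * (2 * z) / (1 - z) := by
    field_simp
    ring
  have e2 : -1 + δ * I * ((1 + z) / (1 - z)) + 1 + δ * I = δ * I * 2 / (1 - z) := by
    field_simp
    ring
  rw [e1, e2]
  field_simp

theorem Dz_norm {δ : ℝ} (hδ : 0 < δ) {τ : ℂ} (hτ : 0 < τ.im) : ‖Dz δ τ‖ < 1 := by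
  have h1 := x1_ne hδ hτ.le
  unfold Dz
  rw [norm_div, div_lt_one (norm_pos_iff.2 h1)]
  have h2 : ‖τ + 1 - δ * I‖ ^ 2 < ‖τ + 1 + δ * I‖ ^ 2 := by
    rw [x1_nsq, x1_nsq]
    simp
    nlinarith
  exact lt_of_pow_lt_pow_left₀ 2 (norm_nonneg _) h2

theorem Dt_mem {δ : ℝ} (hδ : 0 < δ) {z : ℂ} (hz : ‖z‖ < 1) : Dt δ z ∈ Wd (2 * δ) ↔ z ∈ V2 δ := by
  have hz1 : z ≠ 1 := by
    rintro rfl
    simp at hz
  have hN := x1_den hz1
  have hNe := x1_den_eq z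
  have hn2 : ‖z‖ ^ 2 < 1 := by
    have := norm_nonneg z
    nlinarith
  have hnz := x1_nsq z
  have hre := Dt_re (δ := δ) hz1
  have him := Dt_im (δ := δ) hz1
  have hV : z ∈ V2 δ ↔ (‖z‖ < 1 ∧ 0 < 1 + ‖z‖ ^ 2 - 2 * z.re + 2 * δ * z.im ∧
    0 < 1 + ‖z‖ ^ 2 - 2 * z.re - 2 * δ * z.im ∧
    0 < δ * (1 + ‖z‖ ^ 2 + 2 * z.re) + 2 * z.im ∧ ¬(z.im = 0 ∧ 1 / 3 ≤ z.re)) := Iff.rfl
  rw [hV]
  generalize ‖1 - z‖ ^ 2 = N at *
  generalize ‖z‖ ^ 2 = n at *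
  have him0 : 0 < (Dt δ z).im := by
    rw [him]
    exact div_pos (mul_pos hδ (by linarith)) hN
  have c1 : (Dt δ z).re < 0 ↔ 0 < 1 + n - 2 * z.re + 2 * δ * z.im := by
    rw [hre, sub_lt_iff_lt_add, ← hNe]
    rw [← sub_pos]
    have e : 0 + 2 * δ * z.im / N - -1 = (N + 2 * δ * z.im) / N := by field_simp; ring
    rw [e, div_pos_iff_of_pos_right hN]
  have c2 : -2 < (Dt δ z).re ↔ 0 < 1 + n - 2 * z.re - 2 * δ * z.im := by
    rw [hre, ← sub_pos, ← hNe]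
    have e : -1 - 2 * δ * z.im / N - -2 = (N - 2 * δ * z.im) / N := by field_simp; ring
    rw [e, div_pos_iff_of_pos_right hN]
  have c3 : 1 / 2 < ‖Dt δ z + 1 / 2‖ ↔ 0 < δ * (1 + n + 2 * z.re) + 2 * z.im := by
    have e1 : 1 / 2 < ‖Dt δ z + 1 / 2‖ ↔ (1 / 2 : ℝ) ^ 2 < ‖Dt δ z + 1 / 2‖ ^ 2 :=
      (pow_lt_pow_iff_left₀ (by norm_num) (norm_nonneg _) two_ne_zero).symm
    have e2 : ‖Dt δ z + 1 / 2‖ ^ 2 - (1 / 2) ^ 2 =
        δ * (δ * (1 + n + 2 * z.re) + 2 * z.im) / N := by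
      rw [x1_nsq]
      have e3 : (Dt δ z + 1 / 2).re = (Dt δ z).re + 1 / 2 := by
        rw [Complex.add_re]; norm_num
      have e4 : (Dt δ z + 1 / 2).im = (Dt δ z).im := by
        rw [Complex.add_im]; norm_num
      rw [e3, e4, hre, him]
      have key : (1 - n) ^ 2 + 4 * z.im ^ 2 = (1 + n + 2 * z.re) * N := by
        rw [hNe, hnz]; ring
      field_simp
      linear_combination 4 * δ ^ 2 * key
    rw [e1, ← sub_pos, e2, div_pos_iff_of_pos_right hN, mul_pos_iff_of_pos_left hδ]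
  have c4 : ((Dt δ z).re = -1 ∧ 2 * δ ≤ (Dt δ z).im) ↔ (z.im = 0 ∧ 1 / 3 ≤ z.re) := by
    have e1 : (Dt δ z).re = -1 ↔ z.im = 0 := by
      rw [hre]
      constructor
      · intro h
        have h2 : 2 * δ * z.im / N = 0 := by linarith
        rcases div_eq_zero_iff.1 h2 with h3 | h3
        · rcases mul_eq_zero.1 h3 with h4 | h4
          · linarith
          · exact h4
        · exact absurd h3 hN.ne'
      · intro h
        rw [h]; ring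
    rw [e1]
    constructor
    · rintro ⟨h1, h2⟩
      refine ⟨h1, ?_⟩
      rw [him, le_div_iff₀ hN] at h2
      have h3 : 2 * N ≤ 1 - n := by nlinarith
      rw [hNe, hnz, h1] at h3
      have hx : z.re < 1 := by
        have : z.re ^ 2 < 1 := by rw [h1] at hnz; linarith [hnz]
        nlinarith
      by_contra hc
      push Not at hc
      nlinarith [mul_pos (by linarith : 0 < 1 - z.re) (by linarith : 0 < 1 / 3 - z.re)]
    · rintro ⟨h1, h2⟩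
      refine ⟨h1, ?_⟩
      rw [him, le_div_iff₀ hN]
      have hx : z.re < 1 := by
        have : z.re ^ 2 < 1 := by rw [h1] at hnz; linarith [hnz]
        nlinarith
      have h3 : 2 * N ≤ 1 - n := by
        rw [hNe, hnz, h1]
        nlinarith [mul_nonneg (by linarith : 0 ≤ 1 - z.re) (by linarith : 0 ≤ z.re - 1 / 3)]
      nlinarith
  constructor
  · rintro ⟨h1, h2, h3, h4, h5⟩
    exact ⟨hz, c1.1 h3, c2.1 h2, c3.1 h4, fun h => h5 (c4.2 h)⟩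
  · rintro ⟨h1, h2, h3, h4, h5⟩
    exact ⟨him0, c2.2 h3, c1.2 h2, c3.2 h4, fun h => h5 (c4.1 h)⟩

theorem Dt_diffAt {δ : ℝ} {z : ℂ} (hz : z ≠ 1) : DifferentiableAt ℂ (Dt δ) z := by
  have h1 : 1 - z ≠ 0 := sub_ne_zero.2 (Ne.symm hz)
  unfold Dt
  have h2 : DifferentiableAt ℂ (fun z : ℂ => (1 + z) / (1 - z)) z :=
    (by fun_prop : DifferentiableAt ℂ (fun z : ℂ => 1 + z) z).div
      (by fun_prop : DifferentiableAt ℂ (fun z : ℂ => 1 - z) z) h1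
  exact (differentiableAt_const _).add ((differentiableAt_const _).mul h2)

theorem Dt_inj {δ : ℝ} (hδ : 0 < δ) {z w : ℂ} (hz : z ≠ 1) (hw : w ≠ 1) (h : Dt δ z = Dt δ w) :
    z = w := by
  rw [← Dz_Dt hδ hz, h, Dz_Dt hδ hw]

theorem Dt_image {δ : ℝ} (hδ : 0 < δ) : Dt δ '' V2 δ = Wd (2 * δ) := by
  ext τ
  constructor
  · rintro ⟨z, hz, rfl⟩
    exact (Dt_mem hδ hz.1).2 hz
  · intro hτ
    have h1 := Dz_norm hδ hτ.1
    have h2 := Dt_Dz hδ hτ.1.le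
    refine ⟨Dz δ τ, ?_, h2⟩
    rw [← Dt_mem hδ h1, h2]
    exact hτ

end

end Pool.Agent.Choc
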