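import Pool.Agent.Lib.MP_2b3e36_an.Re.X7
import Pool.Agent.Lib.MP_2b3e36_an.Ex.E10

/-!
X10. Local analysis at `-1`, `1` and infinity. Simpler than E10/E11 because all functions have positive
imaginary part (`deriv_pos_of_upper`).

Let `Y = Dt δ ∘ X : UH → Wd (2 δ)`.
`negOne`: `Y → -2` at `-1` (`lim_vertex`). `α = (Y + 2)^2`; `Re (Y+2) > 0`, `Im > 0`, so
`Im α = 2 Re (Y+2) Im Y > 0`. At real `x < -1` near: `Re (Y + 2) → 0` (`pre2_side2`), `Im Y` bounded; at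
`x > -1`: `Im Y → 0` (`pre2_free`); at `-1`: `α → 0`. So `Im α → 0` at all real points: `reflect`;
`α (-1) = 0`, `deriv_pos_of_upper`. `Y + 2` is in the open first quadrant, so `Y + 2 = α^(1/2)`.
`posOne`: `Y → -1` at `1`. `s = -1/Y`, `t = s - 1`; `Im t = Im s > 0`, `Re t < 0` (`Re s < 1` on `Wd`, see X7);
`α = - t^2`, `Im α = - 2 Re t Im t > 0`. At real `x < 1`: `Y` tends to a real number `≠ 0`, so does `t`; at `x > 1`
`Re s → 1` (`pre2_arc`, `Sig`), `Re t → 0`; at `1`: `t → 0`. `reflect`, `α 1 = 0`, `deriv_pos_of_upper`.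
`t = i α^(1/2)`: `(i α^(1/2))^2 = t^2`, and `α^(1/2)` is in the open first quadrant so `i α^(1/2)` has positive
imaginary part, as `t`. `Y = -1/(1 + t)`.
`infty`: chart `v = -1/u`, `Y → 0` as `u → 0` (`lim_vertex` with `lim_infty`, `esc_infty`). `s = -1/Y`: `Re s > 0`
(as `Re Y < 0`), `Re s < 1`, `Im s > 0`; `p = nome s`: `‖p‖ < 1`, `Im p = exp (- pi Im s) sin (pi Re s) > 0`. As
`u → 0` `|s| → ∞` in the strip, `Im s → ∞`, `p → 0`. At real `u > 0` (`-1/u < v₁` for small `u`): `Re Y → 0`,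
`Im Y > 0` (`pre2_side0`), `Re s → 0`; at real `u < 0`: `Y → Sig`, `Re s → 1`: `Im p → 0`. `reflect`, `p 0 = 0`, real
on the reals, `deriv_pos_of_upper`. `log p = pi i s` since `pi Re s ∈ (0,pi)`, so `Y = -1/s = - pi i/log p`.
-/

set_option autoImplicit false

open Complex Set Filter Topology Metric

namespace Pool.Agent.Choc

variable {δ : ℝ} {X : ℂ → ℂ} {v₁ v₂ : ℝ} {Θ : ℝ → ℝ}

lemma x10_tend {x r : ℝ} (hr : 0 < r) {f τ : ℂ → ℂ} (hd : DifferentiableOn ℂ τ (ball (x : ℂ) r))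
    (he : ∀ v ∈ ball (x : ℂ) r, 0 < v.im → f v = τ v) : Tendsto f (𝓝[UH] (x : ℂ)) (𝓝 (τ x)) := by
  have hmem : ball (x : ℂ) r ∈ 𝓝 (x : ℂ) := ball_mem_nhds _ hr
  have h1 : Tendsto τ (𝓝[UH] (x : ℂ)) (𝓝 (τ x)) :=
    (hd.differentiableAt hmem).continuousAt.tendsto.mono_left nhdsWithin_le_nhds
  refine h1.congr' ?_
  filter_upwards [self_mem_nhdsWithin, nhdsWithin_le_nhds hmem] with v h2 h3
  exact (he v h3 h2).symm

lemma x10_Wd (h : Pre2 δ X v₁ v₂ Θ) {v : ℂ} (hv : 0 < v.im) : Dt δ (X v) ∈ Wd (2 * δ) := by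
  rw [← (pre2_Y h).2.2]
  exact mem_image_of_mem _ hv

lemma x10_V2 (h : Pre2 δ X v₁ v₂ Θ) {v : ℂ} (hv : 0 < v.im) : X v ∈ V2 δ := by
  rw [← h.img]
  exact mem_image_of_mem _ hv

lemma x10_ball {x u r : ℝ} (h : |u - x| < r) : (u : ℂ) ∈ ball (x : ℂ) r := e8_mem_ball.2 h

/-- limits of `Y` at the real points -/
lemma x10_side0 (h : Pre2 δ X v₁ v₂ Θ) {u : ℝ} (hu : u < v₁) :
    ∃ ς ∈ Vert 0, Tendsto (fun v => Dt δ (X v)) (𝓝[UH] (u : ℂ)) (𝓝 ς) := by
  obtain ⟨r, hr, τ, hd, he, hs, -⟩ := pre2_side0 h u hu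
  exact ⟨τ u, hs u (mem_ball_self hr), x10_tend hr hd he⟩

lemma x10_side2 (h : Pre2 δ X v₁ v₂ Θ) {u : ℝ} (hu : v₂ < u) (hu' : u < -1) :
    ∃ ς ∈ Vert (-2), Tendsto (fun v => Dt δ (X v)) (𝓝[UH] (u : ℂ)) (𝓝 ς) := by
  obtain ⟨r, hr, τ, hd, he, hs, -⟩ := pre2_side2 h u hu hu'
  exact ⟨τ u, hs u (mem_ball_self hr), x10_tend hr hd he⟩

lemma x10_free (h : Pre2 δ X v₁ v₂ Θ) {u : ℝ} (hu : -1 < u) (hu' : u < 1) :
    ∃ ς : ℂ, ς.im = 0 ∧ -2 < ς.re ∧ ς.re < -1 ∧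
      Tendsto (fun v => Dt δ (X v)) (𝓝[UH] (u : ℂ)) (𝓝 ς) := by
  obtain ⟨r, hr, τ, hd, he, hs, -⟩ := pre2_free h u hu hu'
  obtain ⟨h1, h2, h3⟩ := hs u (mem_ball_self hr)
  exact ⟨τ u, h1, h2, h3, x10_tend hr hd he⟩

lemma x10_arc (h : Pre2 δ X v₁ v₂ Θ) {u : ℝ} (hu : 1 < u) :
    ∃ ς ∈ Sig, Tendsto (fun v => Dt δ (X v)) (𝓝[UH] (u : ℂ)) (𝓝 ς) := by
  obtain ⟨r, hr, τ, hd, he, hs, -⟩ := pre2_arc h u hu
  exact ⟨τ u, hs u (mem_ball_self hr), x10_tend hr hd he⟩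

lemma x10_vertex (h : Pre2 δ X v₁ v₂ Θ) (u : ℝ) :
    (Θ u = -2 * Real.arctan δ → Tendsto (fun a => Dt δ (X a)) (𝓝[UH] (u : ℂ)) (𝓝 0)) ∧
    (Θ u = 2 * Real.arctan δ → Tendsto (fun a => Dt δ (X a)) (𝓝[UH] (u : ℂ)) (𝓝 (-2))) ∧
    (Θ u = Real.pi → Tendsto (fun a => Dt δ (X a)) (𝓝[UH] (u : ℂ)) (𝓝 (-1))) := by
  apply lim_vertex h.d_pos _ (fun K hK hKV => h.esc K hK hKV u) (h.lim u)
  exact eventually_nhdsWithin_of_forall fun v hv => x10_V2 h hv

theorem pre2_negOne (h : Pre2 δ X v₁ v₂ Θ) :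
    ∃ r > 0, ∃ α : ℂ → ℂ, DifferentiableOn ℂ α (ball (-1 : ℂ) r) ∧ α (-1) = 0 ∧
    (∃ κ : ℝ, 0 < κ ∧ deriv α (-1) = κ) ∧
    (∀ v ∈ ball (-1 : ℂ) r, 0 < v.im → 0 < (α v).im ∧
      Dt δ (X v) = -2 + (α v) ^ ((1 : ℂ) / 2)) := by
  have hcast : ((-1 : ℝ) : ℂ) = -1 := by push_cast; rfl
  rw [← hcast]
  set r : ℝ := min (-1 - v₂) 2 with hr
  have hr0 : 0 < r := lt_min (by linarith [h.lt2]) (by norm_num)
  have hY := (pre2_Y h).1
  have hsq : ∀ z : ℂ, ((z + 2) ^ 2).im = 2 * ((z.re + 2) * z.im) := by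
    intro z
    rw [sq, Complex.mul_im, Complex.add_re, Complex.add_im]
    simp
    ring
  have hpos : ∀ v : ℂ, 0 < v.im → 0 < ((Dt δ (X v) + 2) ^ 2).im := by
    intro v hv
    obtain ⟨h1, h2, -⟩ := x10_Wd h hv
    rw [hsq]
    have : 0 < (Dt δ (X v)).re + 2 := by linarith
    positivity
  have hlimv : Tendsto (fun v => (Dt δ (X v) + 2) ^ 2) (𝓝[UH] ((-1 : ℝ) : ℂ)) (𝓝 0) := by
    have h1 := ((((x10_vertex h (-1)).2.1 h.neg).add_const 2).pow 2)
    have e : ((-2 : ℂ) + 2) ^ 2 = 0 := by norm_num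
    rwa [e] at h1
  obtain ⟨α, hαd, hαe, hαr⟩ := reflect (x := -1) hr0 (h := fun v => (Dt δ (X v) + 2) ^ 2)
    (((hY.mono inter_subset_right).add_const 2).pow 2) (by
      intro u hu
      have hu1 : |u - -1| < -1 - v₂ := lt_of_lt_of_le hu (min_le_left _ _)
      have hu2 : |u - -1| < 2 := lt_of_lt_of_le hu (min_le_right _ _)
      rw [abs_lt] at hu1 hu2
      have key : ∀ ς : ℂ, Tendsto (fun v => Dt δ (X v)) (𝓝[UH] (u : ℂ)) (𝓝 ς) →
          (ς.re + 2) * ς.im = 0 →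
          Tendsto (fun z => ((Dt δ (X z) + 2) ^ 2).im) (𝓝[UH] (u : ℂ)) (𝓝 0) := by
        intro ς h1 h2
        have h3 := (Complex.continuous_im.tendsto _).comp ((h1.add_const 2).pow 2)
        rw [hsq, h2, mul_zero] at h3
        exact h3
      rcases lt_trichotomy u (-1) with h1 | h1 | h1
      · obtain ⟨ς, h2, h3⟩ := x10_side2 h (by linarith : v₂ < u) h1
        apply key ς h3
        rw [h2.1]; ring
      · rw [h1]
        have h3 := (Complex.continuous_im.tendsto _).comp hlimv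
        rw [Complex.zero_im] at h3
        exact h3
      · obtain ⟨ς, h2, -, -, h3⟩ := x10_free h h1 (by linarith)
        apply key ς h3
        rw [h2]; ring)
  have hup : ∀ z ∈ ball ((-1 : ℝ) : ℂ) r, 0 < z.im → 0 < (α z).im := by
    intro z hz hz0
    rw [hαe z hz hz0]
    exact hpos z hz0
  refine ⟨r, hr0, α, hαd, ?_, deriv_pos_of_upper hr0 hαd hαr hup, ?_⟩
  · exact e8_value hαd (by simpa using hr0) hαe hlimv
  · intro v hv hv0
    refine ⟨hup v hv hv0, ?_⟩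
    obtain ⟨h2, h3, h4⟩ := e10_sqrt_im (hup v hv hv0)
    have h5 : (Dt δ (X v) + 2) ^ 2 = ((α v) ^ ((1 : ℂ) / 2)) ^ 2 := by rw [h4, hαe v hv hv0]
    have h6 : Dt δ (X v) + 2 = (α v) ^ ((1 : ℂ) / 2) := by
      rcases sq_eq_sq_iff_eq_or_eq_neg.1 h5 with h7 | h7
      · exact h7
      · exfalso
        obtain ⟨h8, -⟩ := x10_Wd h hv0
        have h9 := congrArg Complex.im h7
        rw [Complex.add_im, Complex.neg_im] at h9
        simp at h9
        simp at h2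
        linarith
    rw [← h6]; ring

/-- `- 1/z` in coordinates -/
lemma x10_inv_re (z : ℂ) : (-1 / z).re = -z.re / Complex.normSq z := by
  rw [neg_div, Complex.neg_re, one_div, Complex.inv_re]; ring

lemma x10_inv_im (z : ℂ) : (-1 / z).im = z.im / Complex.normSq z := by
  rw [neg_div, Complex.neg_im, one_div, Complex.inv_im]; ring

lemma x10_strip {η : ℝ} {z : ℂ} (hz : z ∈ Wd η) : z ≠ 0 ∧ 0 < (-1 / z).im ∧ 0 < (-1 / z).re ∧
    (-1 / z).re < 1 := by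
  obtain ⟨h1, h2, h3, h4, -⟩ := hz
  have h0 : z ≠ 0 := by intro h; rw [h] at h1; simp at h1
  have h5 : 0 < Complex.normSq z := Complex.normSq_pos.2 h0
  refine ⟨h0, ?_, ?_, ?_⟩
  · rw [x10_inv_im]; exact div_pos h1 h5
  · rw [x10_inv_re]; exact div_pos (by linarith) h5
  · rw [x10_inv_re, div_lt_one h5]
    have h6 : (1 / 2 : ℝ) ^ 2 < ‖z + 1 / 2‖ ^ 2 := by gcongr
    rw [← Complex.normSq_eq_norm_sq, e8_normSq_add_half] at h6
    linarith

lemma x10_Sig {z : ℂ} (hz : z ∈ Sig) : z ≠ 0 ∧ (-1 / z).re = 1 := by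
  obtain ⟨h1, h2⟩ := hz
  have h0 : z ≠ 0 := by intro h; rw [h] at h1; simp at h1
  have h5 : 0 < Complex.normSq z := Complex.normSq_pos.2 h0
  refine ⟨h0, ?_⟩
  rw [x10_inv_re, div_eq_one_iff_eq h5.ne']
  have h6 : ‖z + 1 / 2‖ ^ 2 = (1 / 2 : ℝ) ^ 2 := by rw [h2]
  rw [← Complex.normSq_eq_norm_sq, e8_normSq_add_half] at h6
  linarith

theorem pre2_posOne (h : Pre2 δ X v₁ v₂ Θ) :
    ∃ r > 0, ∃ α : ℂ → ℂ, DifferentiableOn ℂ α (ball (1 : ℂ) r) ∧ α 1 = 0 ∧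
    (∃ κ : ℝ, 0 < κ ∧ deriv α 1 = κ) ∧
    (∀ v ∈ ball (1 : ℂ) r, 0 < v.im → 0 < (α v).im ∧
      Dt δ (X v) = -1 / (1 + I * (α v) ^ ((1 : ℂ) / 2))) := by
  have hcast : ((1 : ℝ) : ℂ) = 1 := by push_cast; rfl
  suffices hS : ∃ r > 0, ∃ α : ℂ → ℂ, DifferentiableOn ℂ α (ball ((1 : ℝ) : ℂ) r) ∧
      α ((1 : ℝ) : ℂ) = 0 ∧ (∃ κ : ℝ, 0 < κ ∧ deriv α ((1 : ℝ) : ℂ) = κ) ∧
      (∀ v ∈ ball ((1 : ℝ) : ℂ) r, 0 < v.im → 0 < (α v).im ∧
        Dt δ (X v) = -1 / (1 + I * (α v) ^ ((1 : ℂ) / 2))) by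
    rw [hcast] at hS
    exact hS
  have hr0 : (0 : ℝ) < 2 := by norm_num
  have hY := (pre2_Y h).1
  have hsq : ∀ z : ℂ, (-(z - 1) ^ 2).im = -(2 * ((z.re - 1) * z.im)) := by
    intro z
    rw [Complex.neg_im, sq, Complex.mul_im, Complex.sub_re, Complex.sub_im]
    simp
    ring
  have hpos : ∀ v : ℂ, 0 < v.im → 0 < (-(-1 / Dt δ (X v) - 1) ^ 2).im := by
    intro v hv
    obtain ⟨h0, h1, h2, h3⟩ := x10_strip (x10_Wd h hv)
    rw [hsq]
    nlinarith
  have hlimv : Tendsto (fun v => -(-1 / Dt δ (X v) - 1) ^ 2) (𝓝[UH] ((1 : ℝ) : ℂ)) (𝓝 0) := by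
    have h1 := ((((tendsto_const_nhds (x := (-1 : ℂ))).div ((x10_vertex h 1).2.2 h.one)
      (by norm_num)).sub_const 1).pow 2).neg
    have e : -((-1 : ℂ) / (-1) - 1) ^ 2 = 0 := by norm_num
    rwa [e] at h1
  obtain ⟨α, hαd, hαe, hαr⟩ := reflect (x := 1) hr0 (h := fun v => -(-1 / Dt δ (X v) - 1) ^ 2)
    (by
      intro v hv
      exact ((((differentiableWithinAt_const _).div (hY v hv.2 |>.mono inter_subset_right)
        (x10_strip (x10_Wd h hv.2)).1).sub_const 1).pow 2).neg) (by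
      intro u hu
      rw [abs_lt] at hu
      have key : ∀ ς : ℂ, ς ≠ 0 → Tendsto (fun v => Dt δ (X v)) (𝓝[UH] (u : ℂ)) (𝓝 ς) →
          ((-1 / ς).re - 1) * (-1 / ς).im = 0 →
          Tendsto (fun z => (-(-1 / Dt δ (X z) - 1) ^ 2).im) (𝓝[UH] (u : ℂ)) (𝓝 0) := by
        intro ς h0 h1 h2
        have h3 := (Complex.continuous_im.tendsto _).comp
          ((((tendsto_const_nhds (x := (-1 : ℂ))).div h1 h0).sub_const 1).pow 2).neg
        rw [hsq, h2, mul_zero, neg_zero] at h3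
        exact h3
      rcases lt_trichotomy u 1 with h1 | h1 | h1
      · obtain ⟨ς, h2, -, h4, h3⟩ := x10_free h (by linarith : -1 < u) h1
        apply key ς (by intro h0; rw [h0] at h4; simp at h4; linarith) h3
        rw [x10_inv_im, h2]; ring
      · rw [h1]
        have h3 := (Complex.continuous_im.tendsto _).comp hlimv
        rw [Complex.zero_im] at h3
        exact h3
      · obtain ⟨ς, h2, h3⟩ := x10_arc h h1
        obtain ⟨h4, h5⟩ := x10_Sig h2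
        apply key ς h4 h3
        rw [h5]; ring)
  have hup : ∀ z ∈ ball ((1 : ℝ) : ℂ) 2, 0 < z.im → 0 < (α z).im := by
    intro z hz hz0
    rw [hαe z hz hz0]
    exact hpos z hz0
  refine ⟨2, hr0, α, hαd, ?_, deriv_pos_of_upper hr0 hαd hαr hup, ?_⟩
  · exact e8_value hαd (by simp) hαe hlimv
  · intro v hv hv0
    refine ⟨hup v hv hv0, ?_⟩
    obtain ⟨h2, h3, h4⟩ := e10_sqrt_im (hup v hv hv0)
    obtain ⟨h0, h8, -, -⟩ := x10_strip (x10_Wd h hv0)
    have h5 : (-1 / Dt δ (X v) - 1) ^ 2 = (I * (α v) ^ ((1 : ℂ) / 2)) ^ 2 := by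
      rw [mul_pow, h4, Complex.I_sq, hαe v hv hv0]; ring
    have h6 : -1 / Dt δ (X v) - 1 = I * (α v) ^ ((1 : ℂ) / 2) := by
      rcases sq_eq_sq_iff_eq_or_eq_neg.1 h5 with h7 | h7
      · exact h7
      · exfalso
        have h9 := congrArg Complex.im h7
        rw [Complex.sub_im, Complex.one_im, Complex.neg_im, Complex.I_mul_im] at h9
        linarith
    rw [← h6]
    have e : 1 + (-1 / Dt δ (X v) - 1) = -1 / Dt δ (X v) := by ring
    rw [e]
    field_simp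

lemma x10_neginv_UH {w : ℂ} (hw : 0 < w.im) : 0 < (-1 / w).im := by
  have h0 : w ≠ 0 := by intro h; rw [h] at hw; simp at hw
  rw [x10_inv_im]
  exact div_pos hw (Complex.normSq_pos.2 h0)

lemma x10_neginv {u : ℝ} (hu : u ≠ 0) :
    Tendsto (fun w : ℂ => -1 / w) (𝓝[UH] (u : ℂ)) (𝓝[UH] ((-1 / u : ℝ) : ℂ)) := by
  apply tendsto_nhdsWithin_iff.2
  refine ⟨?_, eventually_nhdsWithin_of_forall fun w hw => x10_neginv_UH hw⟩
  have h0 : (u : ℂ) ≠ 0 := by exact_mod_cast hu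
  have h1 : Tendsto (fun w : ℂ => -1 / w) (𝓝 (u : ℂ)) (𝓝 (-1 / (u : ℂ))) :=
    tendsto_const_nhds.div tendsto_id h0
  have e : ((-1 / u : ℝ) : ℂ) = -1 / (u : ℂ) := by push_cast; rfl
  rw [e]
  exact h1.mono_left nhdsWithin_le_nhds

lemma x10_nome_im (s : ℂ) : (nome s).im = Real.exp (-(Real.pi * s.im)) * Real.sin (Real.pi * s.re) := by
  rw [nome, Complex.exp_im]
  simp

lemma x10_nome_norm (s : ℂ) : ‖nome s‖ = Real.exp (-(Real.pi * s.im)) := by
  rw [nome, Complex.norm_exp]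
  simp

theorem pre2_infty (h : Pre2 δ X v₁ v₂ Θ) : InfAt (fun v => Dt δ (X v)) := by
  have hp := Real.pi_pos
  have hv1 : v₁ < -1 := h.lt12.trans h.lt2
  set r : ℝ := min (-1 / v₁) 1 with hr
  have hr0 : 0 < r := lt_min (div_pos_of_neg_of_neg (by norm_num) (by linarith)) one_pos
  have hY := (pre2_Y h).1
  set s : ℂ → ℂ := fun u => -1 / Dt δ (X (-1 / u)) with hs
  have hstrip : ∀ u : ℂ, 0 < u.im → Dt δ (X (-1 / u)) ≠ 0 ∧ 0 < (s u).im ∧ 0 < (s u).re ∧ (s u).re < 1 :=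
    fun u hu => x10_strip (x10_Wd h (x10_neginv_UH hu))
  have hpos : ∀ u : ℂ, 0 < u.im → 0 < (nome (s u)).im := by
    intro u hu
    obtain ⟨-, h1, h2, h3⟩ := hstrip u hu
    rw [x10_nome_im]
    apply mul_pos (Real.exp_pos _)
    apply Real.sin_pos_of_pos_of_lt_pi (by positivity)
    nlinarith
  have hlt : ∀ u : ℂ, 0 < u.im → ‖nome (s u)‖ < 1 := by
    intro u hu
    obtain ⟨-, h1, h2, h3⟩ := hstrip u hu
    rw [x10_nome_norm, Real.exp_lt_one_iff]
    nlinarith [mul_pos hp h1]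
  have hsd : DifferentiableOn ℂ s UH := by
    intro u hu
    have hu' : 0 < u.im := hu
    have hu0 : u ≠ 0 := by intro h0; rw [h0] at hu'; simp at hu'
    have h1 : DifferentiableWithinAt ℂ (fun w : ℂ => -1 / w) UH u :=
      (differentiableWithinAt_const _).div differentiableWithinAt_id hu0
    have h2 : DifferentiableWithinAt ℂ ((fun v => Dt δ (X v)) ∘ fun w : ℂ => -1 / w) UH u :=
      (hY (-1 / u) (x10_neginv_UH hu)).comp u h1 (fun w hw => x10_neginv_UH hw)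
    exact (differentiableWithinAt_const _).div h2 (hstrip u hu).1
  have hpd : DifferentiableOn ℂ (fun u => nome (s u)) UH := by
    intro u hu
    exact ((hsd u hu).const_mul _).cexp
  have hlim0 : Tendsto (fun u => nome (s u)) (𝓝[UH] ((0 : ℝ) : ℂ)) (𝓝 0) := by
    rw [Complex.ofReal_zero]
    have h1 : Tendsto (fun u => Dt δ (X (-1 / u))) (𝓝[UH] (0 : ℂ)) (𝓝 0) := by
      refine (lim_vertex h.d_pos ?_ h.esc_infty h.lim_infty).1 rfl
      exact eventually_nhdsWithin_of_forall fun u hu => x10_V2 h (x10_neginv_UH hu)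
    rw [tendsto_zero_iff_norm_tendsto_zero]
    simp only [x10_nome_norm]
    have h2 : Tendsto (fun u => Real.pi * (s u).im) (𝓝[UH] (0 : ℂ)) atTop := by
      apply Tendsto.const_mul_atTop hp
      have h3 : Tendsto (fun u => ‖Dt δ (X (-1 / u))‖⁻¹ - 1) (𝓝[UH] (0 : ℂ)) atTop := by
        apply tendsto_atTop_add_const_right
        apply Tendsto.inv_tendsto_nhdsGT_zero
        apply tendsto_nhdsWithin_iff.2
        refine ⟨by simpa using h1.norm, ?_⟩
        exact eventually_nhdsWithin_of_forall fun u hu => norm_pos_iff.2 (hstrip u hu).1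
      refine tendsto_atTop_mono' _ ?_ h3
      refine eventually_nhdsWithin_of_forall fun u hu => ?_
      obtain ⟨h4, h5, h6, h7⟩ := hstrip u hu
      have h8 : ‖s u‖ = ‖Dt δ (X (-1 / u))‖⁻¹ := by
        simp only [hs, norm_div, norm_neg, norm_one, one_div]
      have h9 := Complex.norm_le_abs_re_add_abs_im (s u)
      rw [abs_of_pos h5, abs_of_pos h6] at h9
      linarith
    exact Real.tendsto_exp_atBot.comp (tendsto_neg_atTop_atBot.comp h2)
  obtain ⟨p, hpd', hpe, hpr⟩ := reflect (x := 0) hr0 (h := fun u => nome (s u))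
    (hpd.mono inter_subset_right) (by
      intro u hu
      have hu1 : |u - 0| < -1 / v₁ := lt_of_lt_of_le hu (min_le_left _ _)
      have hu2 : |u - 0| < 1 := lt_of_lt_of_le hu (min_le_right _ _)
      rw [sub_zero, abs_lt] at hu1 hu2
      have key : ∀ ς : ℂ, ς ≠ 0 → u ≠ 0 →
          Tendsto (fun v => Dt δ (X v)) (𝓝[UH] ((-1 / u : ℝ) : ℂ)) (𝓝 ς) →
          Real.sin (Real.pi * (-1 / ς).re) = 0 →
          Tendsto (fun z => (nome (s z)).im) (𝓝[UH] (u : ℂ)) (𝓝 0) := by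
        intro ς h0 hu0 h1 h2
        have h3 : Tendsto s (𝓝[UH] (u : ℂ)) (𝓝 (-1 / ς)) :=
          tendsto_const_nhds.div (h1.comp (x10_neginv hu0)) h0
        have hc : Continuous fun z : ℂ => (nome z).im := by
          unfold nome
          fun_prop
        have h4 := (hc.tendsto (-1 / ς)).comp h3
        rw [x10_nome_im, h2, mul_zero] at h4
        exact h4
      rcases lt_trichotomy u 0 with h1 | h1 | h1
      · have hx : 1 < -1 / u := by
          rw [lt_div_iff_of_neg h1]; linarith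
        obtain ⟨ς, h2, h3⟩ := x10_arc h hx
        obtain ⟨h4, h5⟩ := x10_Sig h2
        apply key ς h4 h1.ne h3
        rw [h5, mul_one, Real.sin_pi]
      · rw [h1]
        have h3 := (Complex.continuous_im.tendsto _).comp hlim0
        rw [Complex.zero_im] at h3
        exact h3
      · have hx : -1 / u < v₁ := by
          rw [div_lt_iff₀ h1]
          have h2 := hu1.2
          rw [lt_div_iff_of_neg (by linarith : v₁ < 0)] at h2
          linarith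
        obtain ⟨ς, h2, h3⟩ := x10_side0 h hx
        apply key ς (by intro h0; have := h2.2; rw [h0] at this; simp at this) h1.ne' h3
        rw [x10_inv_re, h2.1]
        simp)
  have hup : ∀ z ∈ ball ((0 : ℝ) : ℂ) r, 0 < z.im → 0 < (p z).im := by
    intro z hz hz0
    rw [hpe z hz hz0]
    exact hpos z hz0
  have hp0 : p ((0 : ℝ) : ℂ) = 0 := e8_value hpd' (by simpa using hr0) hpe hlim0
  have hder := deriv_pos_of_upper hr0 hpd' hpr hup
  rw [Complex.ofReal_zero] at hpd' hpe hup hp0 hder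
  refine ⟨r, hr0, p, hpd', hp0, hder, fun u hu => hpr u (by simpa using hu), ?_⟩
  intro v hv hv0
  refine ⟨hup v hv hv0, ?_, ?_⟩
  · rw [hpe v hv hv0]
    exact hlt v hv0
  · obtain ⟨h4, h5, h6, h7⟩ := hstrip v hv0
    have hlog : log (p v) = Real.pi * I * s v := by
      rw [hpe v hv hv0]
      show log (nome (s v)) = _
      rw [nome, Complex.log_exp]
      · have : (Real.pi * I * s v).im = Real.pi * (s v).re := by simp
        rw [this]
        nlinarith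
      · have : (Real.pi * I * s v).im = Real.pi * (s v).re := by simp
        rw [this]
        nlinarith
    show Dt δ (X (-1 / v)) = -(Real.pi * I) / log (p v)
    rw [hlog]
    have hpi : (Real.pi : ℂ) ≠ 0 := by exact_mod_cast hp.ne'
    simp only [hs]
    field_simp

end Pool.Agent.Choc
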