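import Pool.Agent.Lib.MP_2b3e36_an.Re.X9
import Pool.Agent.Lib.MP_2b3e36_an.Re.X10

/-!
X11. Assembly: for every `η > 0` there is a `Model2 η`. Take `δ = η/2` and `T = Dt δ ∘ X`.

The only global point is `vc`. For `v₁ < x < v₂` let `h x = Im (τ x)` with the local `τ` of `pre2_slit`; it does not
depend on the choice: `Y v → τ x` as `v → x`. `h ≥ η`, continuous, differentiable with `h' u = Im τ' u`,
`τ' u` purely imaginary (`Re τ = -1` on the reals). `h → ∞` at `v₁` and `v₂` (`CuspAt`: `Q → 0`, and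
`Im T = - log ‖Q‖/pi`). So `h` has a minimum at some `vc ∈ (v₁,v₂)`, `h' vc = 0`, `τ' vc = 0`, hence
`τ vc = -1 + η i`, `τ'' vc ≠ 0`. If there were two critical points `x₁ < x₂`, both have `h = η`; `h > η` near
`x₁` off `x₁` (second derivative `≠ 0`, `h ≥ η`); the maximum of `h` on `[x₁, x₂]` is at an interior
point, a critical point with `h > η`: contradiction.
`deriv_ne`: `deriv_ne_of_injOn` (E1a). Side fields: X7, X8, X9, X10.
-/

set_option autoImplicit false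

open Complex Set Filter Topology Metric

namespace Pool.Agent.Choc

/-- Near a cusp the imaginary part tends to infinity. -/
lemma x11_cusp {T : ℂ → ℂ} {x m : ℝ} (h : CuspAt T x m) :
    Tendsto (fun v => (T v).im) (𝓝[UH] (x : ℂ)) atTop := by
  obtain ⟨r, hr, Q, hQd, hQ0, -, -, hQ⟩ := h
  have hmem : ball (x : ℂ) r ∈ 𝓝 (x : ℂ) := ball_mem_nhds _ hr
  have h1 : Tendsto Q (𝓝[UH] (x : ℂ)) (𝓝 0) := by
    have : Tendsto Q (𝓝[UH] (x : ℂ)) (𝓝 (Q x)) :=
      (hQd.differentiableAt hmem).continuousAt.tendsto.mono_left nhdsWithin_le_nhds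
    rwa [hQ0] at this
  have h1' : Tendsto (fun v => ‖Q v‖) (𝓝[UH] (x : ℂ)) (𝓝[>] 0) := by
    refine tendsto_nhdsWithin_iff.2 ⟨by simpa using h1.norm, ?_⟩
    filter_upwards [self_mem_nhdsWithin, nhdsWithin_le_nhds hmem] with v h4 h5
    have h6 := (hQ v h5 h4).1
    have : Q v ≠ 0 := by intro h; rw [h] at h6; simp at h6
    exact norm_pos_iff.2 this
  have h2 : Tendsto (fun v => -Real.log ‖Q v‖) (𝓝[UH] (x : ℂ)) atTop :=
    tendsto_neg_atBot_atTop.comp (Real.tendsto_log_nhdsGT_zero.comp h1')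
  have h3 : Tendsto (fun v => -Real.log ‖Q v‖ / Real.pi) (𝓝[UH] (x : ℂ)) atTop :=
    h2.atTop_div_const Real.pi_pos
  refine h3.congr' ?_
  filter_upwards [self_mem_nhdsWithin, nhdsWithin_le_nhds hmem] with v h4 h5
  rw [(hQ v h5 h4).2.2]
  have e1 : log (Q v) / (Real.pi * I) - m = -(log (Q v) / Real.pi * I) - m := by
    rw [← div_div, Complex.div_I]
  rw [e1]
  have e2 : (log (Q v) / (Real.pi : ℂ)).re = Real.log ‖Q v‖ / Real.pi := by
    rw [Complex.div_ofReal_re, Complex.log_re]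
  simp only [sub_im, neg_im, ofReal_im, sub_zero, mul_im, I_re, I_im, mul_zero, mul_one,
    add_zero]
  rw [e2, neg_div]

/-- Derivative along the reals. -/
lemma x11_deriv {x : ℝ} {τ : ℂ → ℂ} {Tf : ℝ → ℝ} (hd : DifferentiableAt ℂ τ x)
    (he : ∀ᶠ u : ℝ in 𝓝 x, τ u = -1 + (Tf u : ℂ) * I) :
    HasDerivAt Tf (deriv τ x).im x ∧ (deriv τ x).re = 0 := by
  have h1 : HasDerivAt (fun u : ℝ => τ u) (deriv τ x) x := hd.hasDerivAt.comp_ofReal
  have h2 : HasDerivAt (fun u : ℝ => (τ u).im) (deriv τ x).im x :=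
    Complex.imCLM.hasFDerivAt.comp_hasDerivAt x h1
  have h3 : HasDerivAt (fun u : ℝ => (τ u).re) (deriv τ x).re x :=
    Complex.reCLM.hasFDerivAt.comp_hasDerivAt x h1
  refine ⟨h2.congr_of_eventuallyEq ?_, ?_⟩
  · filter_upwards [he] with u hu
    rw [hu]; simp
  · have h4 : HasDerivAt (fun _ : ℝ => (-1 : ℝ)) (deriv τ x).re x := by
      refine h3.congr_of_eventuallyEq ?_
      filter_upwards [he] with u hu
      rw [hu]; simp
    exact h4.unique (hasDerivAt_const x (-1 : ℝ))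

theorem model2_exists {η : ℝ} (hη : 0 < η) :
    ∃ (T : ℂ → ℂ) (v₁ v₂ vc : ℝ), Model2 η T v₁ v₂ vc := by
  obtain ⟨δ, hδ2⟩ : ∃ δ : ℝ, 2 * δ = η := ⟨η / 2, by ring⟩
  have hδ : 0 < δ := by linarith
  obtain ⟨X, v₁, v₂, Θ, h⟩ := pre2_exists hδ
  set Y : ℂ → ℂ := fun v => Dt δ (X v) with hY
  obtain ⟨hYd, hYi, hYim⟩ := pre2_Y h
  have h12 : v₁ < v₂ := h.lt12
  choose! r hr τ hτd hτe hτr hτc using
    fun (x : ℝ) (hx : v₁ < x ∧ x < v₂) => pre2_slit h x hx.1 hx.2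
  set T : ℝ → ℝ := fun x => (τ x x).im with hT
  have hmem : ∀ x : ℝ, v₁ < x ∧ x < v₂ → ball (x : ℂ) (r x) ∈ 𝓝 (x : ℂ) :=
    fun x hx => ball_mem_nhds _ (hr x hx)
  -- the limit of the map
  have hlim : ∀ x : ℝ, v₁ < x ∧ x < v₂ → ∀ u : ℝ, (u : ℂ) ∈ ball (x : ℂ) (r x) →
      Tendsto Y (𝓝[UH] (u : ℂ)) (𝓝 (τ x u)) := by
    intro x hx u hu
    have hm : ball (x : ℂ) (r x) ∈ 𝓝 (u : ℂ) := isOpen_ball.mem_nhds hu
    have h1 : Tendsto (τ x) (𝓝[UH] (u : ℂ)) (𝓝 (τ x u)) :=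
      ((hτd x hx).differentiableAt hm).continuousAt.tendsto.mono_left nhdsWithin_le_nhds
    refine h1.congr' ?_
    filter_upwards [self_mem_nhdsWithin, nhdsWithin_le_nhds hm] with v h6 h7
    exact (hτe x hx v h7 h6).symm
  have hlim' : ∀ x : ℝ, v₁ < x ∧ x < v₂ → ∀ u : ℝ, (u : ℂ) ∈ ball (x : ℂ) (r x) →
      Tendsto (fun v => (Y v).im) (𝓝[UH] (u : ℂ)) (𝓝 (τ x u).im) := fun x hx u hu =>
    (Complex.continuous_im.tendsto _).comp (hlim x hx u hu)
  have hTlim : ∀ x : ℝ, v₁ < x ∧ x < v₂ →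
      Tendsto (fun v => (Y v).im) (𝓝[UH] (x : ℂ)) (𝓝 (T x)) :=
    fun x hx => hlim' x hx x (mem_ball_self (hr x hx))
  have hTeq : ∀ x : ℝ, v₁ < x ∧ x < v₂ → ∀ u : ℝ, v₁ < u ∧ u < v₂ →
      (u : ℂ) ∈ ball (x : ℂ) (r x) → T u = (τ x u).im := by
    intro x hx u hu hux
    have hnb := e8_neBot u
    exact tendsto_nhds_unique (hTlim u hu) (hlim' x hx u hux)
  have hTge : ∀ x : ℝ, v₁ < x ∧ x < v₂ → η ≤ T x := by
    intro x hx
    rw [← hδ2]
    exact (hτr x hx x (mem_ball_self (hr x hx))).2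
  have hev : ∀ x : ℝ, v₁ < x ∧ x < v₂ → ∀ᶠ u : ℝ in 𝓝 x, v₁ < u ∧ u < v₂ := fun x hx =>
    (eventually_gt_nhds hx.1).and (eventually_lt_nhds hx.2)
  have hτT : ∀ x : ℝ, v₁ < x ∧ x < v₂ → ∀ᶠ u : ℝ in 𝓝 x, τ x u = -1 + (T u : ℂ) * I := by
    intro x hx
    have h1 : ∀ᶠ u : ℝ in 𝓝 x, (u : ℂ) ∈ ball (x : ℂ) (r x) :=
      (Complex.continuous_ofReal.tendsto x).eventually (hmem x hx)
    filter_upwards [h1, hev x hx] with u h2 h3
    rw [hTeq x hx u h3 h2]
    apply Complex.ext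
    · simp [(hτr x hx u h2).1]
    · simp
  have hder : ∀ x : ℝ, v₁ < x ∧ x < v₂ →
      HasDerivAt T (deriv (τ x) x).im x ∧ (deriv (τ x) x).re = 0 := fun x hx =>
    x11_deriv ((hτd x hx).differentiableAt (hmem x hx)) (hτT x hx)
  have hcrit : ∀ x : ℝ, v₁ < x ∧ x < v₂ → deriv T x = 0 → deriv (τ x) x = 0 := by
    intro x hx h1
    rw [(hder x hx).1.deriv] at h1
    exact Complex.ext (hder x hx).2 h1
  have hτI : ∀ x : ℝ, v₁ < x ∧ x < v₂ → τ x x = -1 + 2 * δ * I → T x = η := by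
    intro x hx h1
    show (τ x x).im = η
    rw [h1, ← hδ2]; simp
  -- large values near the ends
  have hbig : ∀ (c m : ℝ), CuspAt Y c m → ∀ M : ℝ, ∃ ρ > 0, ∀ x : ℝ, |x - c| < ρ →
      v₁ < x ∧ x < v₂ → M ≤ T x := by
    intro c m hc M
    have h2 : ∀ᶠ v in 𝓝[UH] (c : ℂ), M ≤ (Y v).im := (x11_cusp hc).eventually_ge_atTop M
    rw [eventually_nhdsWithin_iff, Metric.eventually_nhds_iff_ball] at h2
    obtain ⟨ρ, hρ, h2⟩ := h2
    refine ⟨ρ, hρ, fun x hx1 hx2 => ?_⟩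
    have hnb := e8_neBot x
    have hx3 : (x : ℂ) ∈ ball (c : ℂ) ρ := by
      rw [e8_mem_ball]; exact hx1
    refine ge_of_tendsto (hTlim x hx2) ?_
    filter_upwards [self_mem_nhdsWithin, nhdsWithin_le_nhds (isOpen_ball.mem_nhds hx3)] with v h4 h5
    exact h2 v h5 h4
  have hTc : ∀ s : Set ℝ, (∀ x ∈ s, v₁ < x ∧ x < v₂) → ContinuousOn T s := fun s hs x hx =>
    (hder x (hs x hx)).1.continuousAt.continuousWithinAt
  -- the minimum
  obtain ⟨vc, hvc1, hvc2⟩ : ∃ vc, (v₁ < vc ∧ vc < v₂) ∧ ∀ x : ℝ, v₁ < x ∧ x < v₂ → T vc ≤ T x := by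
    set x0 : ℝ := (v₁ + v₂) / 2 with hx0
    have hx0' : v₁ < x0 ∧ x0 < v₂ := ⟨by rw [hx0]; linarith, by rw [hx0]; linarith⟩
    obtain ⟨ρ₁, hρ₁, hb1⟩ := hbig v₁ 1 (pre2_cusp1 h) (T x0 + 1)
    obtain ⟨ρ₂, hρ₂, hb2⟩ := hbig v₂ 2 (pre2_cusp2 h) (T x0 + 1)
    set a : ℝ := v₁ + min (ρ₁ / 2) ((v₂ - v₁) / 4) with ha
    set b : ℝ := v₂ - min (ρ₂ / 2) ((v₂ - v₁) / 4) with hb
    have hm1 : 0 < min (ρ₁ / 2) ((v₂ - v₁) / 4) := lt_min (by linarith) (by linarith)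
    have hm2 : 0 < min (ρ₂ / 2) ((v₂ - v₁) / 4) := lt_min (by linarith) (by linarith)
    have hm3 := min_le_left (ρ₁ / 2) ((v₂ - v₁) / 4)
    have hm4 := min_le_right (ρ₁ / 2) ((v₂ - v₁) / 4)
    have hm5 := min_le_left (ρ₂ / 2) ((v₂ - v₁) / 4)
    have hm6 := min_le_right (ρ₂ / 2) ((v₂ - v₁) / 4)
    have hax : a ≤ x0 := by rw [ha, hx0]; linarith
    have hxb : x0 ≤ b := by rw [hb, hx0]; linarith
    have hIcc : ∀ x ∈ Icc a b, v₁ < x ∧ x < v₂ := fun x hx =>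
      ⟨by have := hx.1; rw [ha] at this; linarith, by have := hx.2; rw [hb] at this; linarith⟩
    obtain ⟨vc, hvc, hmin⟩ := isCompact_Icc.exists_isMinOn (s := Icc a b) (f := T)
      ⟨x0, hax, hxb⟩ (hTc _ hIcc)
    refine ⟨vc, hIcc vc hvc, fun x hx => ?_⟩
    have h3 : T vc ≤ T x0 := hmin ⟨hax, hxb⟩
    rcases lt_or_ge x a with h4 | h4
    · have h5 : |x - v₁| < ρ₁ := by
        rw [abs_of_pos (by linarith [hx.1])]
        rw [ha] at h4
        linarith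
      have := hb1 x h5 hx
      linarith
    · rcases lt_or_ge b x with h5 | h5
      · have h6 : |x - v₂| < ρ₂ := by
          rw [abs_of_neg (by linarith [hx.2])]
          rw [hb] at h5
          linarith
        have := hb2 x h6 hx
        linarith
      · exact hmin ⟨h4, h5⟩
  have hlocal : ∀ x : ℝ, v₁ < x ∧ x < v₂ → IsLocalExtr T x → deriv (τ x) x = 0 :=
    fun x hx hext => hcrit x hx hext.deriv_eq_zero
  have hvcd : deriv (τ vc) vc = 0 := by
    refine hlocal vc hvc1 (Or.inl ?_)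
    filter_upwards [hev vc hvc1] with u hu
    exact hvc2 u hu
  -- uniqueness
  have huniq : ∀ x₁ x₂ : ℝ, x₁ < x₂ → v₁ < x₁ ∧ x₁ < v₂ → v₁ < x₂ ∧ x₂ < v₂ →
      deriv (τ x₁) x₁ = 0 → deriv (τ x₂) x₂ = 0 → False := by
    intro x₁ x₂ h12 hx1 hx2 hd1 hd2
    have hT1 : T x₁ = η := hτI x₁ hx1 (hτc x₁ hx1 hd1).2
    have hT2 : T x₂ = η := hτI x₂ hx2 (hτc x₂ hx2 hd2).2
    have hIcc : ∀ x ∈ Icc x₁ x₂, v₁ < x ∧ x < v₂ := fun x hx =>
      ⟨lt_of_lt_of_le hx1.1 hx.1, lt_of_le_of_lt hx.2 hx2.2⟩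
    obtain ⟨m, hm, hmax⟩ := isCompact_Icc.exists_isMaxOn (s := Icc x₁ x₂) (f := T)
      ⟨x₁, le_rfl, h12.le⟩ (hTc _ hIcc)
    have hm1 := hIcc m hm
    have hmy : η ≤ T m := hTge m hm1
    rcases lt_or_eq_of_le hmy with h3 | h3
    · have hm3 : m ≠ x₁ := by intro h; rw [h, hT1] at h3; exact lt_irrefl _ h3
      have hm4 : m ≠ x₂ := by intro h; rw [h, hT2] at h3; exact lt_irrefl _ h3
      have hmIoo : m ∈ Ioo x₁ x₂ := ⟨lt_of_le_of_ne hm.1 hm3.symm, lt_of_le_of_ne hm.2 hm4⟩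
      have hd := hlocal m hm1 (Or.inr (by
        filter_upwards [Ioo_mem_nhds hmIoo.1 hmIoo.2] with u hu
        exact hmax ⟨hu.1.le, hu.2.le⟩))
      have := hτI m hm1 (hτc m hm1 hd).2
      linarith
    · set m' := (x₁ + x₂) / 2 with hm'
      have hm'1 : x₁ < m' := by rw [hm']; linarith
      have hm'2 : m' < x₂ := by rw [hm']; linarith
      have hm'3 : v₁ < m' ∧ m' < v₂ := hIcc m' ⟨hm'1.le, hm'2.le⟩
      have hTy : ∀ u ∈ Icc x₁ x₂, T u = η := by
        intro u hu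
        apply le_antisymm _ (hTge u (hIcc u hu))
        rw [h3]; exact hmax hu
      have hreal : ∀ᶠ u : ℝ in 𝓝 m', τ m' u - (-1 + η * I) = 0 := by
        filter_upwards [hτT m' hm'3, Ioo_mem_nhds hm'1 hm'2] with u h4 h5
        rw [h4, hTy u ⟨h5.1.le, h5.2.le⟩, sub_self]
      have hana : AnalyticAt ℂ (fun v => τ m' v - (-1 + η * I)) (m' : ℂ) :=
        ((hτd m' hm'3).analyticAt (hmem m' hm'3)).sub analyticAt_const
      have hev : ∀ᶠ v in 𝓝 (m' : ℂ), τ m' v - (-1 + η * I) = 0 := by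
        rcases hana.eventually_eq_zero_or_eventually_ne_zero with h4 | h4
        · exact h4
        · exfalso
          have h5 : Tendsto (fun u : ℝ => (u : ℂ)) (𝓝[≠] m') (𝓝[≠] (m' : ℂ)) := by
            refine tendsto_nhdsWithin_iff.2 ⟨(Complex.continuous_ofReal.tendsto m').mono_left
              nhdsWithin_le_nhds, ?_⟩
            filter_upwards [self_mem_nhdsWithin] with u hu
            intro h6
            exact hu (Complex.ofReal_injective h6)
          have h6 := h5.eventually h4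
          obtain ⟨u, h7, h8⟩ := (h6.and (nhdsWithin_le_nhds hreal)).exists
          exact h7 h8
      have hc : τ m' =ᶠ[𝓝 (m' : ℂ)] fun _ => -1 + (η : ℂ) * I := by
        filter_upwards [hev] with v hv
        exact sub_eq_zero.1 hv
      have hd1 : deriv (τ m') =ᶠ[𝓝 (m' : ℂ)] fun _ => 0 := by
        have := hc.deriv
        filter_upwards [this] with v hv
        rw [hv, deriv_const]
      have hd0 : deriv (τ m') m' = 0 := hd1.self_of_nhds
      have hd2 : deriv (deriv (τ m')) m' = 0 := by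
        rw [hd1.deriv_eq, deriv_const]
      exact (hτc m' hm'3 hd0).1 hd2
  refine ⟨Y, v₁, v₂, vc, ?_⟩
  exact
    { eta_pos := hη
      lt1 := hvc1.1
      lt2 := hvc1.2
      lt3 := h.lt2
      diff := hYd
      inj := hYi
      deriv_ne := deriv_ne_of_injOn e8_isOpen_UH hYd hYi
      img := by rw [← hδ2]; exact hYim
      side0 := fun x hx => pre2_side0 h x hx
      slit := by
        intro x hx1 hx2
        have hx : v₁ < x ∧ x < v₂ := ⟨hx1, hx2⟩
        refine ⟨r x, hr x hx, τ x, hτd x hx, hτe x hx, ?_, ?_, ?_⟩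
        · intro u hu
          rw [← hδ2]
          exact hτr x hx u hu
        · intro hne hd
          rcases lt_or_gt_of_ne hne with h1 | h1
          · exact huniq x vc h1 hx hvc1 hd hvcd
          · exact huniq vc x h1 hvc1 hx hvcd hd
        · intro he
          subst he
          refine ⟨hvcd, (hτc x hx hvcd).1, ?_⟩
          rw [(hτc x hx hvcd).2, ← hδ2]
          push_cast
          ring
      side2 := fun x h1 h2 => pre2_side2 h x h1 h2
      free := fun x h1 h2 => pre2_free h x h1 h2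
      arc := fun x hx => pre2_arc h x hx
      cusp1 := pre2_cusp1 h
      cusp2 := pre2_cusp2 h
      negOne := pre2_negOne h
      posOne := pre2_posOne h
      infty := pre2_infty h }

end Pool.Agent.Choc
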