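import Pool.Agent.Lib.MP_2b3e36_an.Re.Defs2

/-!
X2. Points of a star shaped domain tending to the boundary with convergent direction.

Let `V` be open, star shaped about `0`, `V ⊆ ball 0 1`; `ζ₀ = exp (i θ)`, `0 < ρ`, `t ζ₀ ∈ V` for `0 ≤ t < ρ` and
`t ζ₀ ∉ closure V` for `t > ρ`. If `q` is eventually in `V`, leaves the compact subsets of `V` and
`q/‖q‖ → ζ₀` then `q → ρ ζ₀`.
Proof. Lower bound: for `0 ≤ ρ' < ρ` the point `ρ' ζ₀` is in the open set `V`, so there is `ε > 0` with `ρ' ζ ∈ V`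
for all `‖ζ‖ = 1`, `‖ζ - ζ₀‖ ≤ ε`; by star shape `K = {t ζ : 0 ≤ t ≤ ρ', ‖ζ‖ = 1, ‖ζ - ζ₀‖ ≤ ε}` is a compact
subset of `V`; eventually `q ∉ K` and `‖q/‖q‖ - ζ₀‖ ≤ ε` (and `q ≠ 0`, since `0 ∈ V` gives the compact set `{0}`), so
`‖q‖ > ρ'`. Upper bound: for `ρ' > ρ` the point `ρ' ζ₀` has a neighbourhood disjoint from `V`, so there is
`ε > 0` with `ρ' ζ ∉ V` for `‖ζ - ζ₀‖ ≤ ε`, `‖ζ‖ = 1`; eventually `q = ‖q‖ ζ` with such a `ζ` and `q ∈ V`; if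
`‖q‖ ≥ ρ'` then `ρ' ζ = (ρ'/‖q‖) q ∈ V` by star shape, a contradiction. So `‖q‖ → ρ`, `q = ‖q‖ (q/‖q‖) → ρ ζ₀`.
-/

set_option autoImplicit false

open Complex Set Filter Topology Metric

namespace Pool.Agent.Choc

theorem x2_norm (θ : ℝ) : ‖exp (θ * I)‖ = 1 := Complex.norm_exp_ofReal_mul_I θ

/-- the unit vectors close to `ζ₀` -/
theorem x2_ball {U : Set ℂ} {ζ₀ : ℂ} {r : ℝ} (hU : U ∈ 𝓝 ((r : ℂ) * ζ₀)) :
    ∃ ε > 0, ∀ ζ : ℂ, ‖ζ - ζ₀‖ ≤ ε → (r : ℂ) * ζ ∈ U := by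
  have hc : Continuous fun ζ : ℂ => (r : ℂ) * ζ := by fun_prop
  have h1 : (fun ζ : ℂ => (r : ℂ) * ζ) ⁻¹' U ∈ 𝓝 ζ₀ := hc.continuousAt.preimage_mem_nhds hU
  obtain ⟨ε, hε, h2⟩ := Metric.mem_nhds_iff.1 h1
  refine ⟨ε / 2, half_pos hε, fun ζ hζ => ?_⟩
  apply h2
  rw [mem_ball, dist_eq_norm]
  linarith

/-- lower bound of the norm -/
theorem x2_low {V : Set ℂ} (ho : IsOpen V) (h0 : (0 : ℂ) ∈ V) (hs : StarConvex ℝ (0 : ℂ) V)
    {β : Type*} {l : Filter β} {q : β → ℂ} {ζ₀ : ℂ} {ρ' : ℝ} (hρ0 : 0 ≤ ρ')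
    (hmem : (ρ' : ℂ) * ζ₀ ∈ V)
    (he : ∀ K : Set ℂ, IsCompact K → K ⊆ V → ∀ᶠ a in l, q a ∉ K)
    (ht : Tendsto (fun a => q a / (‖q a‖ : ℂ)) l (𝓝 ζ₀)) : ∀ᶠ a in l, ρ' < ‖q a‖ := by
  have hs' := starConvex_zero_iff.1 hs
  have hq0 : ∀ᶠ a in l, q a ≠ 0 := by
    have := he {0} isCompact_singleton (singleton_subset_iff.2 h0)
    filter_upwards [this] with a ha
    simpa using ha
  have hunit : ∀ᶠ a in l, ‖q a / (‖q a‖ : ℂ)‖ = 1 ∧ q a = (‖q a‖ : ℂ) * (q a / (‖q a‖ : ℂ)) := by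
    filter_upwards [hq0] with a ha
    have h3 : (‖q a‖ : ℂ) ≠ 0 := by exact_mod_cast norm_ne_zero_iff.2 ha
    constructor
    · rw [norm_div, Complex.norm_real, norm_norm, div_self (norm_ne_zero_iff.2 ha)]
    · field_simp
  have hclose : ∀ ε > 0, ∀ᶠ a in l, ‖q a / (‖q a‖ : ℂ) - ζ₀‖ ≤ ε := by
    intro ε hε
    have := (Metric.tendsto_nhds.1 ht) ε hε
    filter_upwards [this] with a ha
    rw [dist_eq_norm] at ha
    exact ha.le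
  obtain ⟨ε, hε, hball⟩ := x2_ball (ho.mem_nhds hmem)
  set K : Set ℂ := (fun p : ℝ × ℂ => (p.1 : ℂ) * p.2) ''
    (Icc 0 ρ' ×ˢ (closedBall ζ₀ ε ∩ sphere 0 1)) with hK
  have hKc : IsCompact K := by
    apply IsCompact.image
    · exact isCompact_Icc.prod ((isCompact_closedBall ζ₀ ε).inter_right isClosed_sphere)
    · fun_prop
  have hKV : K ⊆ V := by
    rintro _ ⟨⟨t, ζ⟩, ⟨ht1, ht2, ht3⟩, rfl⟩
    simp only [mem_closedBall, dist_eq_norm, mem_Icc] at ht1 ht2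
    have h3 := hball ζ ht2
    rcases hρ0.eq_or_lt with h4 | h4
    · have : t = 0 := by linarith [ht1.1, ht1.2]
      simp only [this, Complex.ofReal_zero, zero_mul]
      exact h0
    · have h5 := hs' h3 (div_nonneg ht1.1 hρ0) ((div_le_one h4).2 ht1.2)
      have e : (t / ρ') • ((ρ' : ℂ) * ζ) = (t : ℂ) * ζ := by
        rw [Complex.real_smul]
        push_cast
        have : (ρ' : ℂ) ≠ 0 := by exact_mod_cast h4.ne'
        field_simp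
      rw [e] at h5
      exact h5
  filter_upwards [he K hKc hKV, hclose ε hε, hunit] with a ha1 ha2 ha3
  by_contra hc
  push Not at hc
  apply ha1
  refine ⟨(‖q a‖, q a / (‖q a‖ : ℂ)), ⟨⟨norm_nonneg _, hc⟩, ?_, ?_⟩, ha3.2.symm⟩
  · rw [mem_closedBall, dist_eq_norm]; exact ha2
  · rw [mem_sphere_zero_iff_norm]; exact ha3.1

theorem esc_radial {V : Set ℂ} (ho : IsOpen V) (h0 : (0 : ℂ) ∈ V) (hs : StarConvex ℝ (0 : ℂ) V)
    {β : Type*} {l : Filter β} {q : β → ℂ} {θ ρ : ℝ} (hρ : 0 < ρ)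
    (hq : ∀ᶠ a in l, q a ∈ V)
    (he : ∀ K : Set ℂ, IsCompact K → K ⊆ V → ∀ᶠ a in l, q a ∉ K)
    (ht : Tendsto (fun a => q a / (‖q a‖ : ℂ)) l (𝓝 (exp (θ * I))))
    (h1 : ∀ t : ℝ, 0 ≤ t → t < ρ → (t : ℂ) * exp (θ * I) ∈ V)
    (h2 : ∀ t : ℝ, ρ < t → (t : ℂ) * exp (θ * I) ∉ closure V) :
    Tendsto q l (𝓝 (ρ * exp (θ * I))) := by
  set ζ₀ : ℂ := exp (θ * I) with hζ₀
  have hn0 : ‖ζ₀‖ = 1 := x2_norm θ
  have hs' := starConvex_zero_iff.1 hs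
  -- `q ≠ 0` eventually
  have hq0 : ∀ᶠ a in l, q a ≠ 0 := by
    have := he {0} isCompact_singleton (singleton_subset_iff.2 h0)
    filter_upwards [this] with a ha
    simpa using ha
  have hunit : ∀ᶠ a in l, ‖q a / (‖q a‖ : ℂ)‖ = 1 ∧ q a = (‖q a‖ : ℂ) * (q a / (‖q a‖ : ℂ)) := by
    filter_upwards [hq0] with a ha
    have h3 : (‖q a‖ : ℂ) ≠ 0 := by exact_mod_cast norm_ne_zero_iff.2 ha
    constructor
    · rw [norm_div, Complex.norm_real, norm_norm, div_self (norm_ne_zero_iff.2 ha)]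
    · field_simp
  have hclose : ∀ ε > 0, ∀ᶠ a in l, ‖q a / (‖q a‖ : ℂ) - ζ₀‖ ≤ ε := by
    intro ε hε
    have := (Metric.tendsto_nhds.1 ht) ε hε
    filter_upwards [this] with a ha
    rw [dist_eq_norm] at ha
    exact ha.le
  -- lower bound
  have hlow : ∀ ρ' : ℝ, 0 ≤ ρ' → ρ' < ρ → ∀ᶠ a in l, ρ' < ‖q a‖ := fun ρ' hρ0 hρ' =>
    x2_low ho h0 hs hρ0 (h1 ρ' hρ0 hρ') he ht
  -- upper bound
  have hup : ∀ ρ' : ℝ, ρ < ρ' → ∀ᶠ a in l, ‖q a‖ < ρ' := by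
    intro ρ' hρ'
    have hmem := h2 ρ' hρ'
    obtain ⟨ε, hε, hball⟩ := x2_ball (isClosed_closure.isOpen_compl.mem_nhds hmem)
    filter_upwards [hq, hclose ε hε, hunit, hq0] with a ha1 ha2 ha3 ha4
    by_contra hc
    push Not at hc
    apply hball _ ha2
    apply subset_closure
    have hnp : 0 < ‖q a‖ := norm_pos_iff.2 ha4
    have h5 := hs' ha1 (div_nonneg (by linarith : (0 : ℝ) ≤ ρ') hnp.le) ((div_le_one hnp).2 hc)
    have e : (ρ' / ‖q a‖) • q a = (ρ' : ℂ) * (q a / (‖q a‖ : ℂ)) := by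
      rw [Complex.real_smul]
      push_cast
      ring
    rw [e] at h5
    exact h5
  have hnorm : Tendsto (fun a => ‖q a‖) l (𝓝 ρ) := by
    rw [Metric.tendsto_nhds]
    intro ε hε
    have hm : max 0 (ρ - ε) < ρ := max_lt hρ (by linarith)
    filter_upwards [hlow (max 0 (ρ - ε)) (le_max_left _ _) hm, hup (ρ + ε) (by linarith)]
      with a ha1 ha2
    rw [Real.dist_eq, abs_lt]
    have := le_max_right 0 (ρ - ε)
    constructor <;> linarith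
  have hprod : Tendsto (fun a => (‖q a‖ : ℂ) * (q a / (‖q a‖ : ℂ))) l (𝓝 (ρ * ζ₀)) :=
    ((Complex.continuous_ofReal.tendsto ρ).comp hnorm).mul ht
  refine hprod.congr' ?_
  filter_upwards [hunit] with a ha
  exact ha.2.symm

end Pool.Agent.Choc
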