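import Pool.Agent.Lib.MP_2b3e36_an.Re.X1
import Pool.Agent.Lib.MP_2b3e36_an.Re.X2

/-!
X3. The boundary of `V2 δ` in the direction `exp (i θ)`, in the coordinate `τ = Dt δ z`.

Let `θ₀ = arctan δ`; `Dz δ 0 = (1 - iδ)/(1 + iδ) = exp (- 2 i θ₀)`, `Dz δ (-2) = exp (2 i θ₀)`, `Dz δ (-1) = -1`.
On the ray `t exp (i θ)`, `t > 0`, write the three functions of X1:
`g₁ = 1 + t^2 - 2 t (cos θ - δ sin θ)`, `g₂ = 1 + t^2 - 2 t (cos θ + δ sin θ)`,
`g₃ = δ (1 + t^2) + 2 t (δ cos θ + sin θ)`. A function `1 + t^2 - 2 t A` is positive on `[0,1)` if `A ≤ 1`; for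
`A > 1` it is positive on `[0, ρ)` and negative on `(ρ, 1]`, `ρ = A - (A^2-1)^(1/2) ∈ (0,1)`. With
`cos θ₀ = 1/(1+δ^2)^(1/2)`: `cos θ - δ sin θ = cos (θ + θ₀)/cos θ₀ > 1` iff `-2 θ₀ < θ < 0` (modulo `2 pi`);
`cos θ + δ sin θ = cos (θ - θ₀)/cos θ₀ > 1` iff `0 < θ < 2 θ₀`; `-(δ cos θ + sin θ)/δ = - sin (θ + θ₀)/sin θ₀ > 1`
iff `pi < θ < 2 pi - 2 θ₀`. These intervals are disjoint. So in each direction `exp (iθ) ≠ 1` exactly one of the
boundary parts is met: let `ρ` be the corresponding root (`ρ = 1` in the other directions). For `t < ρ`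
all conditions of `V2` hold (`t exp (i θ)` real `≥ 1/3` is impossible, except `θ = pi` where it is negative);
for `t > ρ` either `t > 1` or some `g_j < 0`, so a neighbourhood of `t exp (i θ)` is outside `V2`. By
`esc_radial` `q → ζ = ρ exp (iθ)`; `ζ ≠ 1`, `Dt δ` is continuous at `ζ`, and `g₁ ζ = 0` means `Re (Dt ζ) = 0`,
`|ζ| < 1` means `Im (Dt ζ) > 0` (X1), etc. `ρ = 1`: `Im (Dt ζ) = 0`, and `Re (Dt ζ) ∈ (-2,-1)` if
`2 θ₀ < θ < pi` (`Re (Dt (e^{iθ})) = -1 - δ cot (θ/2)`: `-1 - 2 δ sin θ/(2 - 2 cos θ)`). `direction`: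
`Dz δ (Dt δ ζ) = ζ = ρ exp (i θ)`.
`Sig`: `g₃ ζ = 0` means `|σ|^2 = Re σ`, i.e. `|τ + 1/2| = 1/2`.
-/

set_option autoImplicit false

open Complex Set Filter Topology Metric

namespace Pool.Agent.Choc

variable {β : Type*} {l : Filter β} {q : β → ℂ} {δ θ : ℝ}

/-! ### one direction -/

theorem x3_re (t θ : ℝ) : ((t : ℂ) * exp (θ * I)).re = t * Real.cos θ := by
  rw [Complex.re_ofReal_mul, Complex.exp_ofReal_mul_I_re]

theorem x3_im (t θ : ℝ) : ((t : ℂ) * exp (θ * I)).im = t * Real.sin θ := by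
  rw [Complex.im_ofReal_mul, Complex.exp_ofReal_mul_I_im]

theorem x3_nrm (t θ : ℝ) : ‖(t : ℂ) * exp (θ * I)‖ = |t| := by
  rw [norm_mul, Complex.norm_exp_ofReal_mul_I, mul_one, Complex.norm_real, Real.norm_eq_abs]

theorem x3_ne (h : exp (θ * I) ≠ 1) : Real.cos θ < 1 := by
  refine lt_of_le_of_ne (Real.cos_le_one θ) fun hc => h ?_
  have h1 := Real.sin_sq_add_cos_sq θ
  rw [hc] at h1
  have h2 : Real.sin θ = 0 := by nlinarith
  apply Complex.ext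
  · rw [Complex.exp_ofReal_mul_I_re, hc, Complex.one_re]
  · rw [Complex.exp_ofReal_mul_I_im, h2, Complex.one_im]

theorem x3_mem {t : ℝ} (h0 : 0 ≤ t) (h1 : t < 1) (hc : Real.cos θ < 1)
    (g1 : 0 < 1 + t ^ 2 - 2 * t * (Real.cos θ - δ * Real.sin θ))
    (g2 : 0 < 1 + t ^ 2 - 2 * t * (Real.cos θ + δ * Real.sin θ))
    (g3 : 0 < δ * (1 + t ^ 2) + 2 * t * (δ * Real.cos θ + Real.sin θ)) :
    (t : ℂ) * exp (θ * I) ∈ V2 δ := by
  refine ⟨?_, ?_, ?_, ?_, ?_⟩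
  · rw [x3_nrm, abs_of_nonneg h0]; exact h1
  · rw [x3_nrm, x3_re, x3_im, sq_abs]; linarith
  · rw [x3_nrm, x3_re, x3_im, sq_abs]; linarith
  · rw [x3_nrm, x3_re, x3_im, sq_abs]; linarith
  · rintro ⟨h2, h3⟩
    rw [x3_im] at h2
    rw [x3_re] at h3
    have ht : t ≠ 0 := by
      rintro rfl
      norm_num at h3
    have hs : Real.sin θ = 0 := by
      rcases mul_eq_zero.1 h2 with h | h
      · exact absurd h ht
      · exact h
    have h4 := Real.sin_sq_add_cos_sq θ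
    rw [hs] at h4
    have h5 : (Real.cos θ - 1) * (Real.cos θ + 1) = 0 := by linarith
    rcases mul_eq_zero.1 h5 with h | h
    · linarith
    · have : Real.cos θ = -1 := by linarith
      rw [this] at h3
      linarith

theorem x3_closure (δ : ℝ) {z : ℂ} (hz : z ∈ closure (V2 δ)) :
    ‖z‖ ≤ 1 ∧ 0 ≤ 1 + ‖z‖ ^ 2 - 2 * z.re + 2 * δ * z.im ∧
      0 ≤ 1 + ‖z‖ ^ 2 - 2 * z.re - 2 * δ * z.im ∧
      0 ≤ δ * (1 + ‖z‖ ^ 2 + 2 * z.re) + 2 * z.im := by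
  have h1 : IsClosed {z : ℂ | ‖z‖ ≤ 1} := isClosed_le continuous_norm continuous_const
  have h2 : IsClosed {z : ℂ | 0 ≤ 1 + ‖z‖ ^ 2 - 2 * z.re + 2 * δ * z.im} :=
    isClosed_le continuous_const (by fun_prop)
  have h3 : IsClosed {z : ℂ | 0 ≤ 1 + ‖z‖ ^ 2 - 2 * z.re - 2 * δ * z.im} :=
    isClosed_le continuous_const (by fun_prop)
  have h4 : IsClosed {z : ℂ | 0 ≤ δ * (1 + ‖z‖ ^ 2 + 2 * z.re) + 2 * z.im} :=
    isClosed_le continuous_const (by fun_prop)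
  have h5 : closure (V2 δ) ⊆ {z : ℂ | ‖z‖ ≤ 1} ∩
      ({z : ℂ | 0 ≤ 1 + ‖z‖ ^ 2 - 2 * z.re + 2 * δ * z.im} ∩
      ({z : ℂ | 0 ≤ 1 + ‖z‖ ^ 2 - 2 * z.re - 2 * δ * z.im} ∩
      {z : ℂ | 0 ≤ δ * (1 + ‖z‖ ^ 2 + 2 * z.re) + 2 * z.im})) := by
    apply closure_minimal _ (h1.inter (h2.inter (h3.inter h4)))
    rintro w ⟨w1, w2, w3, w4, _⟩
    exact ⟨w1.le, w2.le, w3.le, w4.le⟩
  obtain ⟨a, b, c, d⟩ := h5 hz
  exact ⟨a, b, c, d⟩

theorem x3_out {t : ℝ} (h0 : 0 ≤ t)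
    (h : 1 < t ∨ 1 + t ^ 2 - 2 * t * (Real.cos θ - δ * Real.sin θ) < 0 ∨
      1 + t ^ 2 - 2 * t * (Real.cos θ + δ * Real.sin θ) < 0 ∨
      δ * (1 + t ^ 2) + 2 * t * (δ * Real.cos θ + Real.sin θ) < 0) :
    (t : ℂ) * exp (θ * I) ∉ closure (V2 δ) := by
  intro hz
  obtain ⟨a, b, c, d⟩ := x3_closure δ hz
  rw [x3_nrm, abs_of_nonneg h0] at a
  rw [x3_nrm, x3_re, x3_im, sq_abs] at b c d
  rcases h with h | h | h | h <;> linarith

theorem x3_root {A : ℝ} (hA : 1 < A) : ∃ ρ : ℝ, 0 < ρ ∧ ρ < 1 ∧ 1 + ρ ^ 2 - 2 * ρ * A = 0 ∧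
    (∀ t : ℝ, t < ρ → 0 < 1 + t ^ 2 - 2 * t * A) ∧
    (∀ t : ℝ, ρ < t → t ≤ 1 → 1 + t ^ 2 - 2 * t * A < 0) := by
  have hr0 : 0 < A ^ 2 - 1 := by nlinarith
  have hr : √(A ^ 2 - 1) ^ 2 = A ^ 2 - 1 := Real.sq_sqrt hr0.le
  have hrp : 0 < √(A ^ 2 - 1) := Real.sqrt_pos.2 hr0
  set r := √(A ^ 2 - 1) with hrd
  have hrA : r < A := by nlinarith
  have hrA2 : A - 1 < r := by nlinarith
  refine ⟨A - r, by linarith, by linarith, by nlinarith, ?_, ?_⟩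
  · intro t ht
    have e : 1 + t ^ 2 - 2 * t * A = (A - r - t) * (A + r - t) := by nlinarith
    rw [e]
    exact mul_pos (by linarith) (by linarith)
  · intro t h1 h2
    have e : 1 + t ^ 2 - 2 * t * A = -((t - (A - r)) * (A + r - t)) := by nlinarith
    rw [e]
    have := mul_pos (by linarith : 0 < t - (A - r)) (by linarith : 0 < A + r - t)
    linarith

theorem x3_pos {A t : ℝ} (hA : A ≤ 1) (h0 : 0 ≤ t) (h1 : t < 1) :
    0 < 1 + t ^ 2 - 2 * t * A := by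
  have e : 1 + t ^ 2 - 2 * t * A = (1 - t) ^ 2 + 2 * (t * (1 - A)) := by ring
  rw [e]
  have := mul_nonneg h0 (by linarith : 0 ≤ 1 - A)
  have h2 : 0 < (1 - t) ^ 2 := by
    have : 0 < 1 - t := by linarith
    positivity
  linarith

theorem x3_pos3 {t c s : ℝ} (hδ : 0 < δ) (hA : 0 ≤ δ * (1 + c) + s) (h0 : 0 ≤ t) (h1 : t < 1) :
    0 < δ * (1 + t ^ 2) + 2 * t * (δ * c + s) := by
  have e : δ * (1 + t ^ 2) + 2 * t * (δ * c + s) =
      δ * (1 - t) ^ 2 + 2 * (t * (δ * (1 + c) + s)) := by ring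
  rw [e]
  have := mul_nonneg h0 hA
  have h2 : 0 < δ * (1 - t) ^ 2 := by
    have : 0 < 1 - t := by linarith
    positivity
  linarith

theorem x3_L1 {c s : ℝ} (hδ : 0 < δ) (hcs : s ^ 2 + c ^ 2 = 1) (h : 1 < c - δ * s) :
    s < 0 ∧ c + δ * s ≤ 1 ∧ 0 < δ * (1 + c) + s := by
  have hc1 : c ≤ 1 := by nlinarith
  have hc2 : -1 ≤ c := by nlinarith
  have hs : s < 0 := by
    by_contra hs
    push Not at hs
    nlinarith [mul_nonneg hδ.le hs]
  refine ⟨hs, by nlinarith [mul_pos hδ (by linarith : 0 < -s)], ?_⟩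
  by_contra hc
  push Not at hc
  rcases hc2.eq_or_lt with h1 | h1
  · rw [← h1] at hcs
    nlinarith
  · have h2 : (1 - c) * (1 + c) < δ * (-s) * (1 + c) :=
      mul_lt_mul_of_pos_right (by linarith) (by linarith)
    have h3 : δ * (1 + c) * (-s) ≤ (-s) * (-s) :=
      mul_le_mul_of_nonneg_right (by linarith) (by linarith)
    nlinarith

theorem x3_L2 {c s : ℝ} (hδ : 0 < δ) (hcs : s ^ 2 + c ^ 2 = 1) (h : 1 < c + δ * s) :
    0 < s ∧ c - δ * s ≤ 1 ∧ 0 < δ * (1 + c) + s := by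
  have hc1 : c ≤ 1 := by nlinarith
  have hc2 : -1 ≤ c := by nlinarith
  have hs : 0 < s := by
    by_contra hs
    push Not at hs
    nlinarith [mul_nonneg hδ.le (by linarith : 0 ≤ -s)]
  refine ⟨hs, by nlinarith [mul_pos hδ hs], ?_⟩
  have := mul_nonneg hδ.le (by linarith : 0 ≤ 1 + c)
  linarith

theorem x3_L3 {c s : ℝ} (hδ : 0 < δ) (hcs : s ^ 2 + c ^ 2 = 1) (h : δ * (1 + c) + s < 0) :
    s < 0 ∧ c - δ * s ≤ 1 ∧ c + δ * s ≤ 1 := by
  have hc1 : c ≤ 1 := by nlinarith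
  have hc2 : -1 ≤ c := by nlinarith
  have hs : s < 0 := by
    have := mul_nonneg hδ.le (by linarith : 0 ≤ 1 + c)
    linarith
  refine ⟨hs, ?_, ?_⟩
  · by_contra hc
    push Not at hc
    have := (x3_L1 hδ hcs hc).2.2
    linarith
  · have := mul_pos hδ (by linarith : 0 < -s)
    linarith

theorem x3_dir (hδ : 0 < δ) (hc : Real.cos θ < 1) :
    ∃ ρ : ℝ, 0 < ρ ∧ ρ ≤ 1 ∧ (∀ t : ℝ, 0 ≤ t → t < ρ → (t : ℂ) * exp (θ * I) ∈ V2 δ) ∧
      (∀ t : ℝ, ρ < t → (t : ℂ) * exp (θ * I) ∉ closure (V2 δ)) ∧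
      (ρ : ℂ) * exp (θ * I) ∉ V2 δ ∧
      (1 < Real.cos θ - δ * Real.sin θ → ρ < 1 ∧
        1 + ρ ^ 2 - 2 * ρ * (Real.cos θ - δ * Real.sin θ) = 0) ∧
      (1 < Real.cos θ + δ * Real.sin θ → ρ < 1 ∧
        1 + ρ ^ 2 - 2 * ρ * (Real.cos θ + δ * Real.sin θ) = 0) ∧
      (δ * (1 + Real.cos θ) + Real.sin θ < 0 → ρ < 1 ∧
        δ * (1 + ρ ^ 2) + 2 * ρ * (δ * Real.cos θ + Real.sin θ) = 0) ∧
      (Real.cos θ - δ * Real.sin θ ≤ 1 → Real.cos θ + δ * Real.sin θ ≤ 1 →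
        0 ≤ δ * (1 + Real.cos θ) + Real.sin θ → ρ = 1) := by
  have hcs := Real.sin_sq_add_cos_sq θ
  rcases lt_or_ge 1 (Real.cos θ - δ * Real.sin θ) with h1 | h1
  · obtain ⟨l1, l2, l3⟩ := x3_L1 hδ hcs h1
    obtain ⟨ρ, r0, r1, r2, r3, r4⟩ := x3_root h1
    refine ⟨ρ, r0, r1.le, ?_, ?_, ?_, fun _ => ⟨r1, r2⟩, fun h => absurd h (by linarith),
      fun h => absurd h (by linarith), fun h => absurd h (by linarith)⟩
    · intro t t0 t1
      exact x3_mem t0 (by linarith) hc (r3 t t1) (x3_pos l2 t0 (by linarith))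
        (x3_pos3 hδ l3.le t0 (by linarith))
    · intro t ht
      apply x3_out (by linarith)
      rcases lt_or_ge 1 t with h | h
      · exact Or.inl h
      · exact Or.inr (Or.inl (r4 t ht h))
    · intro hm
      have := hm.2.1
      rw [x3_nrm, x3_re, x3_im, sq_abs] at this
      linarith
  rcases lt_or_ge 1 (Real.cos θ + δ * Real.sin θ) with h2 | h2
  · obtain ⟨l1, l2, l3⟩ := x3_L2 hδ hcs h2
    obtain ⟨ρ, r0, r1, r2, r3, r4⟩ := x3_root h2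
    refine ⟨ρ, r0, r1.le, ?_, ?_, ?_, fun h => absurd h (by linarith), fun _ => ⟨r1, r2⟩,
      fun h => absurd h (by linarith), fun _ h => absurd h (by linarith)⟩
    · intro t t0 t1
      exact x3_mem t0 (by linarith) hc (x3_pos h1 t0 (by linarith)) (r3 t t1)
        (x3_pos3 hδ l3.le t0 (by linarith))
    · intro t ht
      apply x3_out (by linarith)
      rcases lt_or_ge 1 t with h | h
      · exact Or.inl h
      · exact Or.inr (Or.inr (Or.inl (r4 t ht h)))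
    · intro hm
      have := hm.2.2.1
      rw [x3_nrm, x3_re, x3_im, sq_abs] at this
      linarith
  rcases lt_or_ge (δ * (1 + Real.cos θ) + Real.sin θ) 0 with h3 | h3
  · have hA : 1 < -(Real.cos θ + Real.sin θ / δ) := by
      have e : -(Real.cos θ + Real.sin θ / δ) - 1 =
          -(δ * (1 + Real.cos θ) + Real.sin θ) / δ := by field_simp; ring
      have : 0 < -(δ * (1 + Real.cos θ) + Real.sin θ) / δ := div_pos (by linarith) hδ
      linarith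
    obtain ⟨ρ, r0, r1, r2, r3, r4⟩ := x3_root hA
    have hg : ∀ t : ℝ, δ * (1 + t ^ 2) + 2 * t * (δ * Real.cos θ + Real.sin θ) =
        δ * (1 + t ^ 2 - 2 * t * -(Real.cos θ + Real.sin θ / δ)) := by
      intro t
      field_simp
      ring
    refine ⟨ρ, r0, r1.le, ?_, ?_, ?_, fun h => absurd h (by linarith),
      fun h => absurd h (by linarith), fun _ => ⟨r1, by rw [hg, r2, mul_zero]⟩,
      fun _ _ h => absurd h (by linarith)⟩
    · intro t t0 t1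
      exact x3_mem t0 (by linarith) hc (x3_pos h1 t0 (by linarith))
        (x3_pos h2 t0 (by linarith)) (by rw [hg]; exact mul_pos hδ (r3 t t1))
    · intro t ht
      apply x3_out (by linarith)
      rcases lt_or_ge 1 t with h | h
      · exact Or.inl h
      · refine Or.inr (Or.inr (Or.inr ?_))
        rw [hg]
        exact mul_neg_of_pos_of_neg hδ (r4 t ht h)
    · intro hm
      have := hm.2.2.2.1
      rw [x3_nrm, x3_re, x3_im, sq_abs] at this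
      have h4 := hg ρ
      rw [r2, mul_zero] at h4
      linarith
  · refine ⟨1, one_pos, le_rfl, ?_, ?_, ?_, fun h => absurd h (by linarith),
      fun h => absurd h (by linarith), fun h => absurd h (by linarith), fun _ _ _ => rfl⟩
    · intro t t0 t1
      exact x3_mem t0 t1 hc (x3_pos h1 t0 t1) (x3_pos h2 t0 t1) (x3_pos3 hδ h3 t0 t1)
    · intro t ht
      exact x3_out (by linarith) (Or.inl ht)
    · intro hm
      have := hm.1
      rw [x3_nrm, abs_one] at this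
      exact lt_irrefl _ this

/-- the limit in the direction `θ` -/
theorem x3_lim (hδ : 0 < δ) (hq : ∀ᶠ a in l, q a ∈ V2 δ)
    (he : ∀ K : Set ℂ, IsCompact K → K ⊆ V2 δ → ∀ᶠ a in l, q a ∉ K)
    (ht : Tendsto (fun a => q a / (‖q a‖ : ℂ)) l (𝓝 (exp (θ * I)))) (hc : Real.cos θ < 1) :
    ∃ ρ : ℝ, 0 < ρ ∧ ρ ≤ 1 ∧ (∀ t : ℝ, 0 ≤ t → t < ρ → (t : ℂ) * exp (θ * I) ∈ V2 δ) ∧
      (ρ : ℂ) * exp (θ * I) ∉ V2 δ ∧
      (1 < Real.cos θ - δ * Real.sin θ → ρ < 1 ∧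
        1 + ρ ^ 2 - 2 * ρ * (Real.cos θ - δ * Real.sin θ) = 0) ∧
      (1 < Real.cos θ + δ * Real.sin θ → ρ < 1 ∧
        1 + ρ ^ 2 - 2 * ρ * (Real.cos θ + δ * Real.sin θ) = 0) ∧
      (δ * (1 + Real.cos θ) + Real.sin θ < 0 → ρ < 1 ∧
        δ * (1 + ρ ^ 2) + 2 * ρ * (δ * Real.cos θ + Real.sin θ) = 0) ∧
      (Real.cos θ - δ * Real.sin θ ≤ 1 → Real.cos θ + δ * Real.sin θ ≤ 1 →
        0 ≤ δ * (1 + Real.cos θ) + Real.sin θ → ρ = 1) ∧
      Tendsto q l (𝓝 (ρ * exp (θ * I))) ∧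
      Tendsto (fun a => Dt δ (q a)) l (𝓝 (Dt δ (ρ * exp (θ * I)))) ∧
      (ρ : ℂ) * exp (θ * I) ≠ 1 := by
  obtain ⟨ρ, r0, r1, r2, r3, r4, r5, r6, r7, r8⟩ := x3_dir hδ hc
  have hlim := esc_radial (V2_isOpen δ) (zero_mem_V2 hδ) (V2_star hδ) r0 hq he ht r2 r3
  have hne : (ρ : ℂ) * exp (θ * I) ≠ 1 := by
    intro h
    have h1 := congrArg Complex.re h
    rw [x3_re, Complex.one_re] at h1
    nlinarith [Real.cos_le_one θ]
  exact ⟨ρ, r0, r1, r2, r4, r5, r6, r7, r8, hlim,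
    ((Dt_diffAt hne).continuousAt.tendsto).comp hlim, hne⟩

theorem x3_N (ρ θ : ℝ) : ‖1 - (ρ : ℂ) * exp (θ * I)‖ ^ 2 = 1 + ρ ^ 2 - 2 * ρ * Real.cos θ := by
  rw [x1_den_eq, x3_nrm, sq_abs, x3_re]
  ring

theorem x3_Dre {ρ : ℝ} (h : (ρ : ℂ) * exp (θ * I) ≠ 1) : (Dt δ (ρ * exp (θ * I))).re =
    -1 - 2 * δ * (ρ * Real.sin θ) / (1 + ρ ^ 2 - 2 * ρ * Real.cos θ) := by
  rw [Dt_re h, x3_N, x3_im]

theorem x3_Dim {ρ : ℝ} (h : (ρ : ℂ) * exp (θ * I) ≠ 1) : (Dt δ (ρ * exp (θ * I))).im =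
    δ * (1 - ρ ^ 2) / (1 + ρ ^ 2 - 2 * ρ * Real.cos θ) := by
  rw [Dt_im h, x3_N, x3_nrm, sq_abs]

theorem x3_unit {ρ : ℝ} (h0 : 0 < ρ) : ((ρ : ℂ) * exp (θ * I)) / (‖(ρ : ℂ) * exp (θ * I)‖ : ℂ) =
    exp (θ * I) := by
  rw [x3_nrm, abs_of_pos h0]
  have : (ρ : ℂ) ≠ 0 := by exact_mod_cast h0.ne'
  field_simp

/-! ### the angles -/

theorem x3_cos0 (δ : ℝ) : Real.sin (Real.arctan δ) = δ * Real.cos (Real.arctan δ) := by
  have h := Real.tan_arctan δ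
  rw [Real.tan_eq_sin_div_cos, div_eq_iff (Real.cos_arctan_pos δ).ne'] at h
  exact h

theorem x3_add (δ θ : ℝ) : Real.cos (θ + Real.arctan δ) =
    Real.cos (Real.arctan δ) * (Real.cos θ - δ * Real.sin θ) := by
  rw [Real.cos_add, x3_cos0]; ring

theorem x3_sub (δ θ : ℝ) : Real.cos (θ - Real.arctan δ) =
    Real.cos (Real.arctan δ) * (Real.cos θ + δ * Real.sin θ) := by
  rw [Real.cos_sub, x3_cos0]; ring

theorem x3_sinadd (δ θ : ℝ) : Real.sin (θ + Real.arctan δ) =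
    Real.cos (Real.arctan δ) * (δ * Real.cos θ + Real.sin θ) := by
  rw [Real.sin_add, x3_cos0]; ring

theorem x3_at (hδ : 0 < δ) : 0 < Real.arctan δ ∧ Real.arctan δ < Real.pi / 2 :=
  ⟨Real.arctan_pos.2 hδ, Real.arctan_lt_pi_div_two δ⟩

theorem x3_div_one {x a : ℝ} (ha : 0 < a) (h : a < a * x) : 1 < x := by
  by_contra hc
  push Not at hc
  nlinarith

/-- `-2 θ₀ < θ < 0` -/
theorem x3_ang0 (hδ : 0 < δ) (h1 : -2 * Real.arctan δ < θ) (h2 : θ < 0) :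
    1 < Real.cos θ - δ * Real.sin θ := by
  obtain ⟨a0, a1⟩ := x3_at hδ
  have hc := Real.cos_arctan_pos δ
  apply x3_div_one hc
  rw [← x3_add, ← Real.cos_abs (θ + Real.arctan δ)]
  apply Real.cos_lt_cos_of_nonneg_of_le_pi (abs_nonneg _) (by linarith)
  rw [abs_lt]
  constructor <;> linarith

/-- `0 < θ < 2 θ₀` -/
theorem x3_ang2 (hδ : 0 < δ) (h1 : 0 < θ) (h2 : θ < 2 * Real.arctan δ) :
    1 < Real.cos θ + δ * Real.sin θ := by
  obtain ⟨a0, a1⟩ := x3_at hδ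
  have hc := Real.cos_arctan_pos δ
  apply x3_div_one hc
  rw [← x3_sub, ← Real.cos_abs (θ - Real.arctan δ)]
  apply Real.cos_lt_cos_of_nonneg_of_le_pi (abs_nonneg _) (by linarith)
  rw [abs_lt]
  constructor <;> linarith

/-- `2 θ₀ < θ < pi` -/
theorem x3_angf (hδ : 0 < δ) (h1 : 2 * Real.arctan δ < θ) (h2 : θ < Real.pi) :
    Real.cos θ + δ * Real.sin θ < 1 ∧ 0 < Real.sin θ := by
  obtain ⟨a0, a1⟩ := x3_at hδ
  have hc := Real.cos_arctan_pos δ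
  refine ⟨?_, Real.sin_pos_of_pos_of_lt_pi (by linarith) h2⟩
  have h3 : Real.cos (θ - Real.arctan δ) < Real.cos (Real.arctan δ) :=
    Real.cos_lt_cos_of_nonneg_of_le_pi a0.le (by linarith) (by linarith)
  rw [x3_sub] at h3
  by_contra hcc
  push Not at hcc
  nlinarith

/-- `pi < θ < 2 pi - 2 θ₀` -/
theorem x3_anga (hδ : 0 < δ) (h1 : Real.pi < θ) (h2 : θ < 2 * Real.pi - 2 * Real.arctan δ) :
    δ * (1 + Real.cos θ) + Real.sin θ < 0 := by
  obtain ⟨a0, a1⟩ := x3_at hδ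
  have hc := Real.cos_arctan_pos δ
  -- `sin (θ + θ₀) < - sin θ₀`
  have h3 : Real.sin (Real.arctan δ) < Real.sin (θ + Real.arctan δ - Real.pi) := by
    set x := θ + Real.arctan δ - Real.pi with hx
    have hx1 : Real.arctan δ < x := by rw [hx]; linarith
    have hx2 : x < Real.pi - Real.arctan δ := by rw [hx]; linarith
    rcases le_total x (Real.pi / 2) with h | h
    · exact Real.sin_lt_sin_of_lt_of_le_pi_div_two (by linarith) h hx1
    · rw [← Real.sin_pi_sub x]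
      exact Real.sin_lt_sin_of_lt_of_le_pi_div_two (by linarith) (by linarith) (by linarith)
  rw [Real.sin_sub_pi, x3_sinadd, x3_cos0] at h3
  by_contra hcc
  push Not at hcc
  nlinarith

theorem lim_side0 (hδ : 0 < δ) (hq : ∀ᶠ a in l, q a ∈ V2 δ)
    (he : ∀ K : Set ℂ, IsCompact K → K ⊆ V2 δ → ∀ᶠ a in l, q a ∉ K)
    (ht : Tendsto (fun a => q a / (‖q a‖ : ℂ)) l (𝓝 (exp (θ * I))))
    (h1 : -2 * Real.arctan δ < θ) (h2 : θ < 0) :
    ∃ ς ∈ Vert 0, Dz δ ς / (‖Dz δ ς‖ : ℂ) = exp (θ * I) ∧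
      Tendsto (fun a => Dt δ (q a)) l (𝓝 ς) := by
  have hA := x3_ang0 hδ h1 h2
  have hcs := Real.sin_sq_add_cos_sq θ
  have hs : Real.sin θ < 0 := (x3_L1 hδ hcs hA).1
  have hc : Real.cos θ < 1 := by nlinarith
  obtain ⟨ρ, r0, r1, r2, r4, r5, r6, r7, r8, hq', hD, hne⟩ := x3_lim hδ hq he ht hc
  obtain ⟨s1, s2⟩ := r5 hA
  have hN : 1 + ρ ^ 2 - 2 * ρ * Real.cos θ = -(2 * δ * (ρ * Real.sin θ)) := by linarith
  have hρs : 0 < -(2 * δ * (ρ * Real.sin θ)) := by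
    have := mul_pos (mul_pos hδ r0) (by linarith : 0 < -Real.sin θ)
    linarith
  refine ⟨_, ⟨?_, ?_⟩, ?_, hD⟩
  · rw [x3_Dre hne, hN]
    have : 2 * δ * (ρ * Real.sin θ) / -(2 * δ * (ρ * Real.sin θ)) = -1 := by
      rw [div_neg, div_self (by linarith)]
    rw [this]; ring
  · rw [x3_Dim hne, hN]
    exact div_pos (mul_pos hδ (by nlinarith)) hρs
  · rw [Dz_Dt hδ hne, x3_unit r0]

theorem lim_side2 (hδ : 0 < δ) (hq : ∀ᶠ a in l, q a ∈ V2 δ)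
    (he : ∀ K : Set ℂ, IsCompact K → K ⊆ V2 δ → ∀ᶠ a in l, q a ∉ K)
    (ht : Tendsto (fun a => q a / (‖q a‖ : ℂ)) l (𝓝 (exp (θ * I))))
    (h1 : 0 < θ) (h2 : θ < 2 * Real.arctan δ) :
    ∃ ς ∈ Vert (-2), Dz δ ς / (‖Dz δ ς‖ : ℂ) = exp (θ * I) ∧
      Tendsto (fun a => Dt δ (q a)) l (𝓝 ς) := by
  have hA := x3_ang2 hδ h1 h2
  have hcs := Real.sin_sq_add_cos_sq θ
  have hs : 0 < Real.sin θ := (x3_L2 hδ hcs hA).1
  have hc : Real.cos θ < 1 := by nlinarith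
  obtain ⟨ρ, r0, r1, r2, r4, r5, r6, r7, r8, hq', hD, hne⟩ := x3_lim hδ hq he ht hc
  obtain ⟨s1, s2⟩ := r6 hA
  have hN : 1 + ρ ^ 2 - 2 * ρ * Real.cos θ = 2 * δ * (ρ * Real.sin θ) := by linarith
  have hρs : 0 < 2 * δ * (ρ * Real.sin θ) := by positivity
  refine ⟨_, ⟨?_, ?_⟩, ?_, hD⟩
  · rw [x3_Dre hne, hN, div_self hρs.ne']; ring
  · rw [x3_Dim hne, hN]
    exact div_pos (mul_pos hδ (by nlinarith)) hρs
  · rw [Dz_Dt hδ hne, x3_unit r0]

theorem lim_free (hδ : 0 < δ) (hq : ∀ᶠ a in l, q a ∈ V2 δ)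
    (he : ∀ K : Set ℂ, IsCompact K → K ⊆ V2 δ → ∀ᶠ a in l, q a ∉ K)
    (ht : Tendsto (fun a => q a / (‖q a‖ : ℂ)) l (𝓝 (exp (θ * I))))
    (h1 : 2 * Real.arctan δ < θ) (h2 : θ < Real.pi) :
    ∃ ς : ℂ, ς.im = 0 ∧ -2 < ς.re ∧ ς.re < -1 ∧ Tendsto (fun a => Dt δ (q a)) l (𝓝 ς) := by
  obtain ⟨hA, hs⟩ := x3_angf hδ h1 h2
  have hcs := Real.sin_sq_add_cos_sq θ
  have hc : Real.cos θ < 1 := by nlinarith
  have hc2 := Real.neg_one_le_cos θ
  obtain ⟨ρ, r0, r1, r2, r4, r5, r6, r7, r8, hq', hD, hne⟩ := x3_lim hδ hq he ht hc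
  have hρ : ρ = 1 := r8 (by nlinarith [mul_pos hδ hs]) hA.le
    (by nlinarith [mul_nonneg hδ.le (by linarith : 0 ≤ 1 + Real.cos θ)])
  subst hρ
  have hre := x3_Dre (δ := δ) hne
  have hN : 1 + (1 : ℝ) ^ 2 - 2 * 1 * Real.cos θ = 2 * (1 - Real.cos θ) := by ring
  rw [hN] at hre
  have e : 2 * δ * (1 * Real.sin θ) / (2 * (1 - Real.cos θ)) =
      δ * Real.sin θ / (1 - Real.cos θ) := by
    have : 1 - Real.cos θ ≠ 0 := by linarith
    field_simp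
  rw [e] at hre
  have h3 : 0 < δ * Real.sin θ / (1 - Real.cos θ) :=
    div_pos (mul_pos hδ hs) (by linarith)
  have h4 : δ * Real.sin θ / (1 - Real.cos θ) < 1 := by
    rw [div_lt_one (by linarith)]; linarith
  refine ⟨_, ?_, ?_, ?_, hD⟩
  · rw [x3_Dim hne]; ring
  · rw [hre]; linarith
  · rw [hre]; linarith

theorem lim_arc (hδ : 0 < δ) (hq : ∀ᶠ a in l, q a ∈ V2 δ)
    (he : ∀ K : Set ℂ, IsCompact K → K ⊆ V2 δ → ∀ᶠ a in l, q a ∉ K)
    (ht : Tendsto (fun a => q a / (‖q a‖ : ℂ)) l (𝓝 (exp (θ * I))))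
    (h1 : Real.pi < θ) (h2 : θ < 2 * Real.pi - 2 * Real.arctan δ) :
    ∃ ς ∈ Sig, Tendsto (fun a => Dt δ (q a)) l (𝓝 ς) := by
  have hA := x3_anga hδ h1 h2
  have hcs := Real.sin_sq_add_cos_sq θ
  have hs : Real.sin θ < 0 := (x3_L3 hδ hcs hA).1
  have hc : Real.cos θ < 1 := by nlinarith
  obtain ⟨ρ, r0, r1, r2, r4, r5, r6, r7, r8, hq', hD, hne⟩ := x3_lim hδ hq he ht hc
  obtain ⟨s1, s2⟩ := r7 hA
  have hNp : 0 < 1 + ρ ^ 2 - 2 * ρ * Real.cos θ := by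
    rw [← x3_N]; exact x1_den hne
  have him : 0 < (Dt δ (ρ * exp (θ * I))).im := by
    rw [x3_Dim hne]
    exact div_pos (mul_pos hδ (by nlinarith)) hNp
  refine ⟨_, ⟨him, ?_⟩, hD⟩
  have e1 : ‖Dt δ (ρ * exp (θ * I)) + 1 / 2‖ ^ 2 = (1 / 2) ^ 2 := by
    rw [x1_nsq]
    have e3 : (Dt δ (ρ * exp (θ * I)) + 1 / 2).re = (Dt δ (ρ * exp (θ * I))).re + 1 / 2 := by
      rw [Complex.add_re]; norm_num
    have e4 : (Dt δ (ρ * exp (θ * I)) + 1 / 2).im = (Dt δ (ρ * exp (θ * I))).im := by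
      rw [Complex.add_im]; norm_num
    rw [e3, e4, x3_Dre hne, x3_Dim hne]
    have hs2 : Real.sin θ ^ 2 = 1 - Real.cos θ ^ 2 := by linarith
    generalize Real.sin θ = s at *
    generalize Real.cos θ = c at *
    field_simp
    have key : δ * (1 + ρ ^ 2 + 2 * ρ * c) + 2 * ρ * s = 0 := by linarith
    have k2 : (1 - ρ ^ 2) ^ 2 + 4 * (ρ * s) ^ 2 =
        (1 + ρ ^ 2 + 2 * ρ * c) * (1 + ρ ^ 2 - 2 * ρ * c) := by
      rw [mul_pow, hs2]; ring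
    linear_combination 4 * δ ^ 2 * k2 + 4 * δ * (1 + ρ ^ 2 - 2 * ρ * c) * key
  exact (pow_left_inj₀ (norm_nonneg _) (by norm_num) two_ne_zero).1 e1

/-- The three vertices. -/
theorem lim_vertex (hδ : 0 < δ) (hq : ∀ᶠ a in l, q a ∈ V2 δ)
    (he : ∀ K : Set ℂ, IsCompact K → K ⊆ V2 δ → ∀ᶠ a in l, q a ∉ K)
    (ht : Tendsto (fun a => q a / (‖q a‖ : ℂ)) l (𝓝 (exp (θ * I)))) :
    (θ = -2 * Real.arctan δ → Tendsto (fun a => Dt δ (q a)) l (𝓝 0)) ∧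
    (θ = 2 * Real.arctan δ → Tendsto (fun a => Dt δ (q a)) l (𝓝 (-2))) ∧
    (θ = Real.pi → Tendsto (fun a => Dt δ (q a)) l (𝓝 (-1))) := by
  obtain ⟨a0, a1⟩ := x3_at hδ
  have hcs := Real.sin_sq_add_cos_sq θ
  have hc0 := Real.cos_arctan_pos δ
  have key : ∀ (_ : Real.cos θ < 1) (_ : Real.cos θ - δ * Real.sin θ ≤ 1)
      (_ : Real.cos θ + δ * Real.sin θ ≤ 1) (_ : 0 ≤ δ * (1 + Real.cos θ) + Real.sin θ),
      Tendsto (fun a => Dt δ (q a)) l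
        (𝓝 (((-1 - δ * Real.sin θ / (1 - Real.cos θ) : ℝ)) : ℂ)) := by
    intro hc k1 k2 k3
    obtain ⟨ρ, r0, r1, r2, r4, r5, r6, r7, r8, hq', hD, hne⟩ := x3_lim hδ hq he ht hc
    have hρ : ρ = 1 := r8 k1 k2 k3
    subst hρ
    have e : Dt δ (((1 : ℝ) : ℂ) * exp (θ * I)) =
        ((-1 - δ * Real.sin θ / (1 - Real.cos θ) : ℝ) : ℂ) := by
      apply Complex.ext
      · rw [x3_Dre hne, Complex.ofReal_re]
        have h1 : 1 - Real.cos θ ≠ 0 := by linarith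
        have h2 : 1 + (1 : ℝ) ^ 2 - 2 * 1 * Real.cos θ = 2 * (1 - Real.cos θ) := by ring
        rw [h2]
        field_simp
      · rw [x3_Dim hne, Complex.ofReal_im]
        ring
    rw [← e]
    exact hD
  refine ⟨?_, ?_, ?_⟩
  · intro h
    have h1 : Real.cos θ - δ * Real.sin θ = 1 := by
      have h2 := x3_add δ θ
      have h3 : θ + Real.arctan δ = -Real.arctan δ := by rw [h]; ring
      rw [h3, Real.cos_neg] at h2
      exact (mul_left_cancel₀ hc0.ne' (by linarith : Real.cos (Real.arctan δ) * 1 =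
        Real.cos (Real.arctan δ) * (Real.cos θ - δ * Real.sin θ))).symm
    have hs : Real.sin θ < 0 := by
      apply Real.sin_neg_of_neg_of_neg_pi_lt <;> linarith
    have hc : Real.cos θ < 1 := by nlinarith
    have hc1 := Real.neg_one_le_cos θ
    have hk3 : 0 ≤ δ * (1 + Real.cos θ) + Real.sin θ := by
      by_contra hcc
      push Not at hcc
      have h4 : (1 - Real.cos θ) * (1 + Real.cos θ) = δ * (-Real.sin θ) * (1 + Real.cos θ) := by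
        rw [show 1 - Real.cos θ = δ * (-Real.sin θ) by linarith]
      have h5 : δ * (1 + Real.cos θ) * (-Real.sin θ) < (-Real.sin θ) * (-Real.sin θ) :=
        mul_lt_mul_of_pos_right (by linarith) (by linarith)
      nlinarith
    have h6 := key hc h1.le (by nlinarith [mul_pos hδ (by linarith : 0 < -Real.sin θ)]) hk3
    have e : (-1 - δ * Real.sin θ / (1 - Real.cos θ) : ℝ) = 0 := by
      have : 1 - Real.cos θ ≠ 0 := by linarith
      field_simp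
      linarith
    rw [e, Complex.ofReal_zero] at h6
    exact h6
  · intro h
    have h1 : Real.cos θ + δ * Real.sin θ = 1 := by
      have h2 := x3_sub δ θ
      have h3 : θ - Real.arctan δ = Real.arctan δ := by rw [h]; ring
      rw [h3] at h2
      exact (mul_left_cancel₀ hc0.ne' (by linarith : Real.cos (Real.arctan δ) * 1 =
        Real.cos (Real.arctan δ) * (Real.cos θ + δ * Real.sin θ))).symm
    have hs : 0 < Real.sin θ := by
      apply Real.sin_pos_of_pos_of_lt_pi <;> linarith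
    have hc : Real.cos θ < 1 := by nlinarith
    have hc1 := Real.neg_one_le_cos θ
    have h6 := key hc (by nlinarith [mul_pos hδ hs]) h1.le
      (by nlinarith [mul_nonneg hδ.le (by linarith : 0 ≤ 1 + Real.cos θ)])
    have e : (-1 - δ * Real.sin θ / (1 - Real.cos θ) : ℝ) = -2 := by
      have : 1 - Real.cos θ ≠ 0 := by linarith
      field_simp
      linarith
    rw [e] at h6
    push_cast at h6
    exact h6
  · intro h
    have h1 : Real.cos θ = -1 := by rw [h, Real.cos_pi]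
    have h2 : Real.sin θ = 0 := by rw [h, Real.sin_pi]
    have h6 := key (by rw [h1]; norm_num) (by rw [h1, h2]; norm_num) (by rw [h1, h2]; norm_num)
      (by rw [h1, h2]; norm_num)
    rw [h1, h2] at h6
    norm_num at h6
    exact h6

/-- In every direction different from `1` there is a limit, different from `1` and `0`. -/
theorem lim_point (hδ : 0 < δ) (hq : ∀ᶠ a in l, q a ∈ V2 δ)
    (he : ∀ K : Set ℂ, IsCompact K → K ⊆ V2 δ → ∀ᶠ a in l, q a ∉ K)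
    (ht : Tendsto (fun a => q a / (‖q a‖ : ℂ)) l (𝓝 (exp (θ * I)))) (h : exp (θ * I) ≠ 1) :
    ∃ ρ : ℝ, 0 < ρ ∧ ρ ≤ 1 ∧ (∀ t : ℝ, 0 ≤ t → t < ρ → (t : ℂ) * exp (θ * I) ∈ V2 δ) ∧
      (ρ : ℂ) * exp (θ * I) ∉ V2 δ ∧ Tendsto q l (𝓝 (ρ * exp (θ * I))) := by
  obtain ⟨ρ, r0, r1, r2, r4, r5, r6, r7, r8, hq', hD, hne⟩ := x3_lim hδ hq he ht (x3_ne h)
  exact ⟨ρ, r0, r1, r2, r4, hq'⟩

/-- High points of the two vertical sides are seen in directions close to `1`, and conversely. -/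
theorem height_side (hδ : 0 < δ) (M : ℝ) : ∃ ε > 0, ∀ ς : ℂ, (ς ∈ Vert 0 ∨ ς ∈ Vert (-2)) →
    ‖Dz δ ς / (‖Dz δ ς‖ : ℂ) - 1‖ < ε → M < ς.im := by
  set E : ℝ := (1 + M ^ 2 + δ ^ 2) ^ 2 + 4 * δ ^ 2 with hE
  have hEp : 0 < E := by positivity
  refine ⟨2 * δ / √E, div_pos (by linarith) (Real.sqrt_pos.2 hEp), ?_⟩
  intro ς hς hd
  by_contra hc
  push Not at hc
  have hy : 0 < ς.im := by rcases hς with h | h <;> exact h.2
  have hy2 : ς.im ^ 2 ≤ M ^ 2 := pow_le_pow_left₀ hy.le hc 2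
  set y := ς.im with hyd
  -- `Dz ς` up to a positive factor
  obtain ⟨κ, hκ, ε, hε, hDz⟩ : ∃ κ : ℝ, 0 < κ ∧ ∃ ε : ℝ, ε ^ 2 = 1 ∧
      Dz δ ς = ((κ : ℝ) : ℂ) * ⟨1 + y ^ 2 - δ ^ 2, ε * (2 * δ)⟩ := by
    have hkp : 0 < 1 + (y + δ) ^ 2 := by positivity
    rcases hς with h | h
    · refine ⟨(1 + (y + δ) ^ 2)⁻¹, inv_pos.2 hkp, -1, by norm_num, ?_⟩
      have hς' : ς = (y : ℂ) * I := by
        apply Complex.ext
        · simp [h.1]
        · simp [hyd]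
      have hne := x1_ne hδ h.2.le
      have e1 : ((1 + (y + δ) ^ 2 : ℝ) : ℂ) = (ς + 1 + δ * I) * (1 - (y + δ) * I) := by
        rw [hς']
        push_cast
        linear_combination ((y + δ : ℂ) ^ 2) * I_sq
      have hkc : ((1 + (y + δ) ^ 2 : ℝ) : ℂ) ≠ 0 := by exact_mod_cast hkp.ne'
      have e2 : (⟨1 + y ^ 2 - δ ^ 2, -1 * (2 * δ)⟩ : ℂ) =
          (ς + 1 - δ * I) * (1 - (y + δ) * I) := by
        rw [hς']
        apply Complex.ext
        · simp [pow_two]; ring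
        · simp; ring
      rw [e2]
      unfold Dz
      rw [Complex.ofReal_inv, e1]
      rw [e1] at hkc
      have h3 : (1 - ((y : ℂ) + δ) * I) ≠ 0 := right_ne_zero_of_mul hkc
      rw [inv_mul_eq_div, mul_div_mul_right _ _ h3]
    · refine ⟨(1 + (y + δ) ^ 2)⁻¹, inv_pos.2 hkp, 1, by norm_num, ?_⟩
      have hς' : ς = -2 + (y : ℂ) * I := by
        apply Complex.ext
        · simp [h.1]
        · simp [hyd]
      have hne := x1_ne hδ h.2.le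
      have e1 : ((1 + (y + δ) ^ 2 : ℝ) : ℂ) = (ς + 1 + δ * I) * (-1 - (y + δ) * I) := by
        rw [hς']
        push_cast
        linear_combination ((y + δ : ℂ) ^ 2) * I_sq
      have hkc : ((1 + (y + δ) ^ 2 : ℝ) : ℂ) ≠ 0 := by exact_mod_cast hkp.ne'
      have e2 : (⟨1 + y ^ 2 - δ ^ 2, 1 * (2 * δ)⟩ : ℂ) =
          (ς + 1 - δ * I) * (-1 - (y + δ) * I) := by
        rw [hς']
        apply Complex.ext
        · simp [pow_two]; ring
        · simp; ring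
      rw [e2]
      unfold Dz
      rw [Complex.ofReal_inv, e1]
      rw [e1] at hkc
      have h3 : (-1 - ((y : ℂ) + δ) * I) ≠ 0 := right_ne_zero_of_mul hkc
      rw [inv_mul_eq_div, mul_div_mul_right _ _ h3]
  set v : ℂ := ⟨1 + y ^ 2 - δ ^ 2, ε * (2 * δ)⟩ with hv
  have hκc : (κ : ℂ) ≠ 0 := by exact_mod_cast hκ.ne'
  have hvn : ‖v‖ ^ 2 ≤ E := by
    rw [x1_nsq, hv]
    simp only
    have e1 : (ε * (2 * δ)) ^ 2 = 4 * δ ^ 2 := by rw [mul_pow, hε]; ring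
    rw [e1, hE]
    have e2 : (1 + y ^ 2 - δ ^ 2) ^ 2 ≤ (1 + M ^ 2 + δ ^ 2) ^ 2 := by
      apply sq_le_sq'
      · nlinarith [sq_nonneg y, sq_nonneg M, sq_nonneg δ]
      · nlinarith [sq_nonneg y, sq_nonneg M, sq_nonneg δ]
    linarith
  have hvim : |v.im| = 2 * δ := by
    rw [hv]
    simp only
    have : |ε| = 1 := by
      have h1 : |ε| ^ 2 = 1 := by rw [sq_abs]; exact hε
      nlinarith [abs_nonneg ε]
    rw [abs_mul, this, one_mul, abs_of_pos (by linarith)]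
  have hv0 : 0 < ‖v‖ := by
    have := Complex.abs_im_le_norm v
    rw [hvim] at this
    linarith
  have hunit : Dz δ ς / (‖Dz δ ς‖ : ℂ) = v / (‖v‖ : ℂ) := by
    rw [hDz, norm_mul, Complex.norm_real, Real.norm_of_nonneg hκ.le]
    have : (‖v‖ : ℂ) ≠ 0 := by exact_mod_cast hv0.ne'
    push_cast
    field_simp
  rw [hunit] at hd
  have h1 := Complex.abs_im_le_norm (v / (‖v‖ : ℂ) - 1)
  have h2 : (v / (‖v‖ : ℂ) - 1).im = v.im / ‖v‖ := by
    rw [Complex.sub_im, Complex.one_im, sub_zero, Complex.div_ofReal_im]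
  rw [h2, abs_div, hvim, abs_of_pos hv0] at h1
  have h3 : ‖v‖ ≤ √E := Real.le_sqrt_of_sq_le hvn
  have h4 : 2 * δ / √E ≤ 2 * δ / ‖v‖ := div_le_div_of_nonneg_left (by linarith) hv0 h3
  linarith

/-- The slit direction: points close to the segment `[1/3, 1]`. -/
theorem lim_slit (hδ : 0 < δ) (hq : ∀ᶠ a in l, q a ∈ V2 δ)
    (he : ∀ K : Set ℂ, IsCompact K → K ⊆ V2 δ → ∀ᶠ a in l, q a ∉ K)
    (ht : Tendsto (fun a => q a / (‖q a‖ : ℂ)) l (𝓝 1)) :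
    ∀ ε > 0, ∀ᶠ a in l, 1 / 3 - ε ≤ ‖q a‖ := by
  intro ε hε
  have hk : max 0 (1 / 3 - ε) < 1 / 3 := max_lt (by norm_num) (by linarith)
  have hk0 : 0 ≤ max 0 (1 / 3 - ε) := le_max_left _ _
  set r := max 0 (1 / 3 - ε) with hr
  have hmem : (r : ℂ) * 1 ∈ V2 δ := by
    rw [mul_one]
    refine ⟨?_, ?_, ?_, ?_, ?_⟩
    · rw [Complex.norm_real, Real.norm_of_nonneg hk0]; linarith
    · rw [Complex.norm_real, Real.norm_of_nonneg hk0, Complex.ofReal_re, Complex.ofReal_im]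
      nlinarith
    · rw [Complex.norm_real, Real.norm_of_nonneg hk0, Complex.ofReal_re, Complex.ofReal_im]
      nlinarith
    · rw [Complex.norm_real, Real.norm_of_nonneg hk0, Complex.ofReal_re, Complex.ofReal_im]
      have : 0 < δ * (1 + r) ^ 2 := by positivity
      nlinarith
    · rintro ⟨_, h⟩
      rw [Complex.ofReal_re] at h
      linarith
  have := x2_low (V2_isOpen δ) (zero_mem_V2 hδ) (V2_star hδ) hk0 hmem he ht
  filter_upwards [this] with a ha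
  exact (le_max_right 0 (1 / 3 - ε)).trans ha.le

end Pool.Agent.Choc
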