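import Pool.Agent.Lib.MP_2b3e36_an.Ex.E1b
import Pool.Agent.Lib.MP_2b3e36_an.Ex.E3
import Pool.Agent.Lib.MP_2b3e36_an.Re.X3

/-!
X4. The conformal map of the unit disc onto `V2 δ` with continuous boundary argument. The same as E5:
`V2 δ` is open, star shaped about `0`, contained in the unit disc: `riemann_star`, `boundary_argument`. `esc`: for
`K ⊆ V2 δ` compact, `X⁻¹ K` is compact in the open disc (`e5_isOpen_image`, copy of `e5_esc`).
-/

set_option autoImplicit false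

open Complex Set Filter Topology Metric

namespace Pool.Agent.Choc

/-- A conformal map of the disc onto `V2 δ` and its boundary argument. -/
structure DiscMap2 (δ : ℝ) (X : ℂ → ℂ) (Θ : ℝ → ℝ) : Prop where
  d_pos : 0 < δ
  diff : DifferentiableOn ℂ X (ball 0 1)
  inj : InjOn X (ball 0 1)
  img : X '' ball 0 1 = V2 δ
  zero : X 0 = 0
  cont : Continuous Θ
  mono : Monotone Θ
  per : ∀ φ, Θ (φ + 2 * Real.pi) = Θ φ + 2 * Real.pi
  lim : ∀ φ : ℝ, Tendsto (fun z => X z / (‖X z‖ : ℂ)) (𝓝[ball (0 : ℂ) 1] (exp (φ * I)))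
    (𝓝 (exp (Θ φ * I)))
  esc : ∀ K : Set ℂ, IsCompact K → K ⊆ V2 δ → ∀ φ : ℝ,
    ∀ᶠ z in 𝓝[ball (0 : ℂ) 1] (exp (φ * I)), X z ∉ K

theorem x4_isOpen_image {X : ℂ → ℂ} (hd : DifferentiableOn ℂ X (ball 0 1))
    (hi : InjOn X (ball 0 1)) {s : Set ℂ} (hs : IsOpen s) (hsub : s ⊆ ball 0 1) :
    IsOpen (X '' s) := by
  have ha : AnalyticOnNhd ℂ X (ball 0 1) := hd.analyticOnNhd isOpen_ball
  rcases ha.is_constant_or_isOpen (convex_ball 0 1).isPreconnected with ⟨w, hw⟩ | h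
  · exfalso
    have h0 : (0 : ℂ) ∈ ball (0 : ℂ) 1 := by simp
    have h1 : (1 / 2 : ℂ) ∈ ball (0 : ℂ) 1 := by
      rw [mem_ball_zero_iff]; norm_num
    have := hi h0 h1 ((hw 0 h0).trans (hw _ h1).symm)
    norm_num at this
  · exact h s hsub hs

theorem x4_esc {V : Set ℂ} {X : ℂ → ℂ} (hd : DifferentiableOn ℂ X (ball 0 1))
    (hi : InjOn X (ball 0 1)) (him : X '' ball 0 1 = V) {K : Set ℂ} (hK : IsCompact K)
    (hKV : K ⊆ V) (φ : ℝ) : ∀ᶠ z in 𝓝[ball (0 : ℂ) 1] (exp (φ * I)), X z ∉ K := by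
  obtain ⟨n, hn⟩ : ∃ n : ℕ, K ⊆ X '' ball 0 (1 - 1 / ((n : ℝ) + 1)) := by
    refine hK.elim_directed_cover (fun n : ℕ => X '' ball 0 (1 - 1 / ((n : ℝ) + 1)))
      (fun n => x4_isOpen_image hd hi isOpen_ball (ball_subset_ball ?_)) ?_ ?_
    · have : 0 < 1 / ((n : ℝ) + 1) := by positivity
      linarith
    · intro w hw
      rw [mem_iUnion]
      obtain ⟨z, hz, rfl⟩ : w ∈ X '' ball 0 1 := by rw [him]; exact hKV hw
      rw [mem_ball_zero_iff] at hz
      obtain ⟨n, hn⟩ := exists_nat_one_div_lt (sub_pos.2 hz)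
      refine ⟨n, z, ?_, rfl⟩
      rw [mem_ball_zero_iff]
      linarith
    · refine (monotone_nat_of_le_succ fun n => image_mono (ball_subset_ball ?_)).directed_le
      have : 1 / (((n + 1 : ℕ) : ℝ) + 1) ≤ 1 / ((n : ℝ) + 1) := by
        apply one_div_le_one_div_of_le (by positivity)
        push_cast
        linarith
      linarith
  have hlt : 1 - 1 / ((n : ℝ) + 1) < 1 := by
    have : 0 < 1 / ((n : ℝ) + 1) := by positivity
    linarith
  have hsub : ball (0 : ℂ) (1 - 1 / ((n : ℝ) + 1)) ⊆ ball 0 1 := ball_subset_ball hlt.le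
  have hnorm : ‖exp (φ * I)‖ = 1 := Complex.norm_exp_ofReal_mul_I φ
  have hev : ∀ᶠ z in 𝓝 (exp (φ * I)), 1 - 1 / ((n : ℝ) + 1) < ‖z‖ := by
    apply (continuous_norm.tendsto _).eventually
    rw [hnorm]
    exact lt_mem_nhds hlt
  filter_upwards [mem_nhdsWithin_of_mem_nhds hev, self_mem_nhdsWithin] with z hz hzb hzK
  obtain ⟨z', hz', he⟩ := hn hzK
  have := hi (hsub hz') hzb he
  subst this
  rw [mem_ball_zero_iff] at hz'
  exact absurd hz' (not_lt.2 (le_of_lt hz))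

theorem discMap2_exists {δ : ℝ} (hδ : 0 < δ) : ∃ (X : ℂ → ℂ) (Θ : ℝ → ℝ), DiscMap2 δ X Θ := by
  have hs := V2_star hδ
  obtain ⟨X, hd, hi, him, h0⟩ := riemann_star (V2_isOpen δ) (zero_mem_V2 hδ) (V2_subset δ) hs
  obtain ⟨Θ, hc, hm, hp, hl⟩ := boundary_argument hs (V2_subset δ) hd hi him h0
  exact ⟨X, Θ, hδ, hd, hi, him, h0, hc, hm, hp, hl, fun K hK hKV φ => x4_esc hd hi him hK hKV φ⟩

end Pool.Agent.Choc
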