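import Pool.Agent.Lib.MP_2b3e36_an.Re.X4
import Pool.Agent.Lib.MP_2b3e36_an.Ex.A2
import Pool.Agent.Lib.MP_2b3e36_an.Ex.E6

/-!
X5. Two facts on the boundary argument. Compare E6.

`not_flat2`: suppose `Θ = θ` on `[φ₁, φ₂]`, `φ₁ < φ₂` (monotone), `exp (i θ) ≠ 1`. By `lim_point` `X` has at all
points of the arc one and the same limit `ζ = ρ exp (iθ)` (`ρ` is determined by `θ`: `t e^{iθ} ∈ V2` for
`t < ρ` and `ρ e^{iθ} ∉ V2`, star shape). In the chart `c w = exp (i (φ + w))`, `φ` in the interior of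
`[φ₁,φ₂]`, `w` in a small upper half disc, `h = X ∘ c - ζ` tends to `0` at the real points. `reflect` for `h` and for
`i h`: the extension `H` of `h` is real on the reals, and `i H` too, so `H = 0`, `X` is constant on an open set:
contradiction to injectivity. (Copy of `not_flat_pi` in E6.)
`flat_zero2`: the set `Z = {φ : Θ φ = 0}` is nonempty and a closed interval (continuity, monotonicity, `per`).
Suppose it is one point `φ₀`. Chart `c w = exp (i (φ₀ + w))`, `h w = nome (Dt δ (X (c w)))` on a small upper half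
disc: holomorphic, `‖h‖ < 1`. At real `u < 0` (small): `Θ (φ₀ + u) ∈ (-2 θ₀, 0)`, `lim_side0`: `Dt (X) → ς ∈ Vert 0`,
`h → nome ς`, real; at `u > 0`: `lim_side2`, `ς ∈ Vert (-2)`, `nome ς` real. `reflect_except`: `h` extends
holomorphically to `0`; so `h` has a limit at `0` along `UH`. But for `1/3 < T < 1` take `q_n ∈ V2 δ`, `q_n → T`
(`q_n = T + i/n`; `T` real in `(1/3,1)` satisfies the three strict inequalities of `V2`: `1 + T^2 ∓ 2T ± 0 > 0`),
`z_n = X⁻¹ q_n`; a subsequence converges to a point of the closed disc, not inside (`X` would map it to `T ∉ V2`),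
so to `exp (i φ)` with `exp (i Θ φ) = lim q_n/‖q_n‖ = 1`, so `Θ φ ∈ 2 pi ℤ`, `φ = φ₀` modulo `2 pi`; so
`w_n → 0`, `Dt (q_n) → Dt T = -1 + i δ (1+T)/(1-T)`, `h → - exp (- pi δ (1+T)/(1-T))`. Different `T` give
different limits. Contradiction. (Compare `flat_zero`, `e6_seq`, `e6_per` in E6.)
-/

set_option autoImplicit false

open Complex Set Filter Topology Metric

namespace Pool.Agent.Choc

/-- The hypotheses of the limit lemmas along the chart. -/
theorem x5_hyps {δ : ℝ} {X : ℂ → ℂ} {Θ : ℝ → ℝ} (h : DiscMap2 δ X Θ) (φ u : ℝ) :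
    (∀ᶠ w in 𝓝[UH] (u : ℂ), X (exp ((φ + w) * I)) ∈ V2 δ) ∧
    (∀ K : Set ℂ, IsCompact K → K ⊆ V2 δ → ∀ᶠ w in 𝓝[UH] (u : ℂ), X (exp ((φ + w) * I)) ∉ K) ∧
    Tendsto (fun w => X (exp ((φ + w) * I)) / (‖X (exp ((φ + w) * I))‖ : ℂ)) (𝓝[UH] (u : ℂ))
      (𝓝 (exp (Θ (φ + u) * I))) := by
  have ht := e6_chart_tendsto φ u
  refine ⟨?_, fun K hK hKV => ht.eventually (h.esc K hK hKV (φ + u)), ?_⟩
  · filter_upwards [self_mem_nhdsWithin] with w hw
    rw [← h.img]
    exact mem_image_of_mem _ (e6_chart_mem φ hw)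
  · exact (h.lim (φ + u)).comp ht

theorem x5_diff {δ : ℝ} {X : ℂ → ℂ} {Θ : ℝ → ℝ} (h : DiscMap2 δ X Θ) (φ : ℝ) :
    DifferentiableOn ℂ (fun w => X (exp ((φ + w) * I))) UH := by
  have hc : Differentiable ℂ (fun w : ℂ => exp ((φ + w) * I)) := by fun_prop
  exact h.diff.comp hc.differentiableOn (fun w hw => e6_chart_mem φ hw)

theorem not_flat2 {δ : ℝ} {X : ℂ → ℂ} {Θ : ℝ → ℝ} (h : DiscMap2 δ X Θ) {φ₁ φ₂ θ : ℝ}
    (h1 : φ₁ < φ₂) (h2 : Θ φ₁ = θ) (hθ : exp (θ * I) ≠ 1) : Θ φ₂ ≠ θ := by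
  intro h3
  obtain ⟨φ₀, hφ₀⟩ : ∃ φ₀ : ℝ, φ₀ = (φ₁ + φ₂) / 2 := ⟨_, rfl⟩
  obtain ⟨ε, hεd⟩ : ∃ ε : ℝ, ε = (φ₂ - φ₁) / 2 := ⟨_, rfl⟩
  have hε : 0 < ε := by rw [hεd]; linarith
  have hflat : ∀ u : ℝ, |u - 0| < ε → Θ (φ₀ + u) = θ := by
    intro u hu
    rw [sub_zero, abs_lt] at hu
    apply le_antisymm
    · rw [← h3]; exact h.mono (by rw [hφ₀]; linarith [hu.2])
    · rw [← h2]; exact h.mono (by rw [hφ₀]; linarith [hu.1])
  have hpt : ∀ u : ℝ, |u - 0| < ε → ∃ ρ : ℝ, 0 < ρ ∧ ρ ≤ 1 ∧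
      (∀ t : ℝ, 0 ≤ t → t < ρ → (t : ℂ) * exp (θ * I) ∈ V2 δ) ∧
      (ρ : ℂ) * exp (θ * I) ∉ V2 δ ∧
      Tendsto (fun w => X (exp ((φ₀ + w) * I))) (𝓝[UH] (u : ℂ)) (𝓝 (ρ * exp (θ * I))) := by
    intro u hu
    obtain ⟨ha, hb, hc⟩ := x5_hyps h φ₀ u
    rw [hflat u hu] at hc
    exact lim_point h.d_pos ha hb hc hθ
  obtain ⟨ρ, hρ0, hρ1, hρV, hρn, -⟩ := hpt 0 (by simpa using hε)
  have hlim : ∀ u : ℝ, |u - 0| < ε →
      Tendsto (fun w => X (exp ((φ₀ + w) * I)) - ρ * exp (θ * I)) (𝓝[UH] (u : ℂ)) (𝓝 0) := by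
    intro u hu
    obtain ⟨ρ', hρ0', hρ1', hρV', hρn', hlim'⟩ := hpt u hu
    have he : ρ' = ρ := by
      rcases lt_trichotomy ρ' ρ with hlt | heq | hgt
      · exact absurd (hρV ρ' hρ0'.le hlt) hρn'
      · exact heq
      · exact absurd (hρV' ρ hρ0.le hgt) hρn
    rw [he] at hlim'
    simpa using hlim'.sub_const ((ρ : ℂ) * exp (θ * I))
  obtain ⟨H, hH, hHe, -⟩ := reflect (x := 0) (r := ε) hε
    (h := fun w => X (exp ((φ₀ + w) * I)) - ρ * exp (θ * I))
    (((x5_diff h φ₀).mono inter_subset_right).sub_const _)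
    (fun u hu => by
      have := (Complex.continuous_im.tendsto _).comp (hlim u hu)
      rw [Complex.zero_im] at this
      exact this)
  have hzero : ∀ u : ℝ, |u - 0| < ε → H u = 0 := by
    intro u hu
    have hmem : (u : ℂ) ∈ ball ((0 : ℝ) : ℂ) ε := by
      rw [mem_ball, dist_eq_norm, ← Complex.ofReal_sub, Complex.norm_real]; exact hu
    have hcont : Tendsto H (𝓝[UH] (u : ℂ)) (𝓝 (H u)) :=
      ((hH.differentiableAt (isOpen_ball.mem_nhds hmem)).continuousAt.tendsto).mono_left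
        nhdsWithin_le_nhds
    have hcong : (fun w => X (exp ((φ₀ + w) * I)) - ρ * exp (θ * I)) =ᶠ[𝓝[UH] (u : ℂ)] H := by
      filter_upwards [self_mem_nhdsWithin,
        mem_nhdsWithin_of_mem_nhds (isOpen_ball.mem_nhds hmem)] with w hw hwb
      exact (hHe w hwb hw).symm
    have := e6_UH_neBot u
    exact tendsto_nhds_unique hcont ((hlim u hu).congr' hcong)
  have hEq : EqOn H 0 (ball ((0 : ℝ) : ℂ) ε) := by
    refine (hH.analyticOnNhd isOpen_ball).eqOn_zero_of_preconnected_of_frequently_eq_zero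
      (convex_ball _ _).isPreconnected (z₀ := ((0 : ℝ) : ℂ)) (mem_ball_self hε) ?_
    apply e6_freq_real
    have : ∀ᶠ u : ℝ in 𝓝 0, |u - 0| < ε := by
      filter_upwards [ball_mem_nhds (0 : ℝ) hε] with u hu
      rwa [mem_ball, Real.dist_eq] at hu
    filter_upwards [mem_nhdsWithin_of_mem_nhds this] with u hu using hzero u hu
  have hval : ∀ s : ℝ, 0 < s → s < ε →
      X (exp ((φ₀ + (s : ℂ) * I) * I)) = ρ * exp (θ * I) := by
    intro s hs hs'
    have hmem : (s : ℂ) * I ∈ ball ((0 : ℝ) : ℂ) ε := by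
      rw [Complex.ofReal_zero, mem_ball_zero_iff, norm_mul, Complex.norm_I, mul_one,
        Complex.norm_real, Real.norm_eq_abs, abs_of_pos hs]
      exact hs'
    have him : 0 < ((s : ℂ) * I).im := by simpa using hs
    have h5 := hHe _ hmem him
    have h6 : H ((s : ℂ) * I) = 0 := hEq hmem
    rw [h6] at h5
    exact sub_eq_zero.1 h5.symm
  have e1 := hval (ε / 2) (by positivity) (by linarith)
  have e2 := hval (ε / 3) (by positivity) (by linarith)
  have m1 : exp ((φ₀ + ((ε / 2 : ℝ) : ℂ) * I) * I) ∈ ball (0 : ℂ) 1 :=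
    e6_chart_mem φ₀ (by simp [hε])
  have m2 : exp ((φ₀ + ((ε / 3 : ℝ) : ℂ) * I) * I) ∈ ball (0 : ℂ) 1 :=
    e6_chart_mem φ₀ (by simp [hε])
  have e3 := h.inj m1 m2 (e1.trans e2.symm)
  have e4 := congrArg norm e3
  rw [e6_chart_norm, e6_chart_norm] at e4
  have e5 := Real.exp_injective e4
  simp at e5
  linarith

theorem x5_slit_closure {δ T : ℝ} (hδ : 0 < δ) (h0 : 1 / 3 < T) (h1 : T < 1) :
    (T : ℂ) ∈ closure (V2 δ) := by
  have hc : Tendsto (fun s : ℝ => (T : ℂ) + s * I) (𝓝[>] 0) (𝓝 (T : ℂ)) := by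
    have h : Continuous (fun s : ℝ => (T : ℂ) + s * I) := by fun_prop
    have := (h.tendsto 0).mono_left (nhdsWithin_le_nhds (s := Ioi (0 : ℝ)))
    simpa using this
  refine mem_closure_of_tendsto hc ?_
  have hT : 0 < 1 - T := by linarith
  have hs : (0 : ℝ) < min (1 - T) ((1 - T) ^ 2 / (2 * δ)) := lt_min hT (by positivity)
  filter_upwards [Ioo_mem_nhdsGT hs] with s hs'
  have hs0 := hs'.1
  have hs1 : s < 1 - T := lt_of_lt_of_le hs'.2 (min_le_left _ _)
  have hs2 : s < (1 - T) ^ 2 / (2 * δ) := lt_of_lt_of_le hs'.2 (min_le_right _ _)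
  rw [lt_div_iff₀ (by positivity)] at hs2
  have hre : ((T : ℂ) + s * I).re = T := by simp
  have him : ((T : ℂ) + s * I).im = s := by simp
  have hn : ‖(T : ℂ) + s * I‖ ^ 2 = T ^ 2 + s ^ 2 := by
    rw [Complex.sq_norm, Complex.normSq_apply, hre, him]; ring
  refine ⟨?_, ?_, ?_, ?_, ?_⟩
  · have h2 : ‖(T : ℂ) + s * I‖ ^ 2 < 1 ^ 2 := by
      rw [hn]; nlinarith
    exact lt_of_pow_lt_pow_left₀ 2 zero_le_one h2
  · rw [hn, hre, him]; nlinarith [mul_pos hδ hs0, sq_nonneg s, mul_pos hT hT]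
  · rw [hn, hre, him]; nlinarith [sq_nonneg s]
  · rw [hn, hre, him]
    have : 0 < δ * (1 + (T ^ 2 + s ^ 2) + 2 * T) := by
      apply mul_pos hδ
      nlinarith [sq_nonneg s, sq_nonneg T]
    linarith
  · rintro ⟨h2, -⟩
    rw [him] at h2
    exact hs0.ne' h2

theorem x5_per {δ : ℝ} {X : ℂ → ℂ} {Θ : ℝ → ℝ} (h : DiscMap2 δ X Θ) (k : ℤ) (φ : ℝ) :
    Θ (φ + k * (2 * Real.pi)) = Θ φ + k * (2 * Real.pi) := by
  induction k using Int.induction_on with
  | zero => simp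
  | succ n ih =>
    have := h.per (φ + (n : ℤ) * (2 * Real.pi))
    push_cast at this ih ⊢
    have e : φ + ((n : ℝ) + 1) * (2 * Real.pi) = φ + n * (2 * Real.pi) + 2 * Real.pi := by ring
    rw [e, this, ih]
    ring
  | pred n ih =>
    have := h.per (φ + (-(n : ℤ) - 1 : ℤ) * (2 * Real.pi))
    push_cast at this ih ⊢
    have e : φ + (-(n : ℝ) - 1) * (2 * Real.pi) + 2 * Real.pi = φ + -n * (2 * Real.pi) := by ring
    rw [e, ih] at this
    linarith

theorem x5_exists_zero {δ : ℝ} {X : ℂ → ℂ} {Θ : ℝ → ℝ} (h : DiscMap2 δ X Θ) :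
    ∃ φ, Θ φ = 0 := by
  have key : (0 : ℝ) ∈ range Θ := by
    obtain ⟨n, hn⟩ := exists_nat_ge |Θ 0|
    have hpi := Real.pi_gt_three
    have hn' := abs_le.1 hn
    apply mem_range_of_exists_le_of_exists_ge h.cont
    · refine ⟨0 + ((-(n : ℤ) : ℤ) : ℝ) * (2 * Real.pi), ?_⟩
      rw [x5_per h]
      push_cast
      nlinarith [hn'.2, (Nat.cast_nonneg n : (0 : ℝ) ≤ n)]
    · refine ⟨0 + (((n : ℤ) : ℤ) : ℝ) * (2 * Real.pi), ?_⟩
      rw [x5_per h]
      push_cast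
      nlinarith [hn'.1, (Nat.cast_nonneg n : (0 : ℝ) ≤ n)]
  exact key

theorem x5_seq {δ : ℝ} {X : ℂ → ℂ} {Θ : ℝ → ℝ} (h : DiscMap2 δ X Θ) {φ₀ : ℝ}
    (huniq : ∀ φ, Θ φ = 0 → φ = φ₀) {T : ℝ} (h0 : 1 / 3 < T) (h1 : T < 1) :
    ∃ w : ℕ → ℂ, (∀ᶠ n in atTop, 0 < (w n).im) ∧ Tendsto w atTop (𝓝 0) ∧
      Tendsto (fun n => X (exp ((φ₀ + w n) * I))) atTop (𝓝 (T : ℂ)) := by
  have hTpos : 0 < T := by linarith
  obtain ⟨q, hq, hqlim⟩ := mem_closure_iff_seq_limit.1 (x5_slit_closure h.d_pos h0 h1)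
  have hz : ∀ n, ∃ z ∈ ball (0 : ℂ) 1, X z = q n := by
    intro n
    have := hq n
    rw [← h.img] at this
    exact this
  choose z hzb hzq using hz
  obtain ⟨zs, hzs, ψ, hψ, hlim⟩ := (isCompact_closedBall (0 : ℂ) 1).tendsto_subseq
    (fun n => ball_subset_closedBall (hzb n))
  have hXlim : Tendsto (fun n => X (z (ψ n))) atTop (𝓝 (T : ℂ)) := by
    simp only [hzq]
    exact hqlim.comp hψ.tendsto_atTop
  have hnorm1 : ‖zs‖ = 1 := by
    rw [mem_closedBall_zero_iff] at hzs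
    rcases hzs.lt_or_eq with hlt | heq
    · exfalso
      have hmem : zs ∈ ball (0 : ℂ) 1 := by rwa [mem_ball_zero_iff]
      have hc := (h.diff.differentiableAt (isOpen_ball.mem_nhds hmem)).continuousAt.tendsto
      have e := tendsto_nhds_unique (hc.comp hlim) hXlim
      have hV : X zs ∈ V2 δ := by rw [← h.img]; exact mem_image_of_mem _ hmem
      rw [e] at hV
      exact hV.2.2.2.2 ⟨Complex.ofReal_im T, by rw [Complex.ofReal_re]; exact h0.le⟩
    · exact heq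
  have hzsexp : exp ((arg zs : ℂ) * I) = zs := by
    have := Complex.norm_mul_exp_arg_mul_I zs
    rwa [hnorm1, Complex.ofReal_one, one_mul] at this
  have hin : Tendsto (fun n => z (ψ n)) atTop (𝓝[ball (0 : ℂ) 1] (exp ((arg zs : ℂ) * I))) := by
    rw [hzsexp]
    exact tendsto_nhdsWithin_of_tendsto_nhds_of_eventually_within _ hlim
      (Eventually.of_forall fun n => hzb _)
  have hp0 : (T : ℂ) ≠ 0 := by exact_mod_cast hTpos.ne'
  have hA := (h.lim (arg zs)).comp hin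
  have hB : Tendsto (fun n => X (z (ψ n)) / (‖X (z (ψ n))‖ : ℂ)) atTop
      (𝓝 ((T : ℂ) / (‖(T : ℂ)‖ : ℂ))) := by
    refine hXlim.div ?_ ?_
    · exact ((Complex.continuous_ofReal.comp continuous_norm).tendsto _).comp hXlim
    · rw [Ne, Complex.ofReal_eq_zero, norm_eq_zero]; exact hp0
  have hone : (T : ℂ) / (‖(T : ℂ)‖ : ℂ) = 1 := by
    rw [Complex.norm_real, Real.norm_eq_abs, abs_of_pos hTpos]
    exact div_self hp0
  rw [hone] at hB
  have hexp : exp ((Θ (arg zs) : ℂ) * I) = 1 := tendsto_nhds_unique hA hB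
  rw [Complex.exp_eq_one_iff] at hexp
  obtain ⟨k, hk⟩ := hexp
  have hk' : Θ (arg zs) = k * (2 * Real.pi) := by
    have e : ((Θ (arg zs) : ℂ) - k * (2 * Real.pi)) * I = 0 := by
      linear_combination hk
    rcases mul_eq_zero.1 e with e | e
    · have e' : (Θ (arg zs) : ℂ) = ((k * (2 * Real.pi) : ℝ) : ℂ) := by
        push_cast
        linear_combination e
      exact_mod_cast e'
    · exact absurd e Complex.I_ne_zero
  have hφ : arg zs + ((-k : ℤ) : ℝ) * (2 * Real.pi) = φ₀ := by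
    apply huniq
    rw [x5_per h, hk']
    push_cast
    ring
  have hzs0 : zs = exp (φ₀ * I) := by
    rw [← hφ, ← hzsexp]
    rw [hzsexp]
    nth_rewrite 1 [← hzsexp]
    rw [Complex.exp_eq_exp_iff_exists_int]
    refine ⟨k, ?_⟩
    push_cast
    ring
  -- the points in the chart
  have hzlim1 : Tendsto (fun n => z (ψ n) * exp (-(φ₀ * I))) atTop (𝓝 1) := by
    have := hlim.mul_const (exp (-(φ₀ * I)))
    rw [hzs0, ← Complex.exp_add] at this
    simpa using this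
  have hne : ∀ᶠ n in atTop, z (ψ n) ≠ 0 := by
    have : ∀ᶠ w in 𝓝 zs, w ≠ 0 := by
      apply isOpen_ne.mem_nhds
      intro h0
      rw [h0, norm_zero] at hnorm1
      exact zero_ne_one hnorm1
    exact hlim.eventually this
  refine ⟨fun n => -I * log (z (ψ n) * exp (-(φ₀ * I))), ?_, ?_, ?_⟩
  · filter_upwards [hne] with n hn
    have e : (-I * log (z (ψ n) * exp (-(φ₀ * I)))).im =
        -Real.log ‖z (ψ n) * exp (-(φ₀ * I))‖ := by
      simp [Complex.log_re]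
    rw [e, norm_mul]
    have e2 : ‖exp (-(φ₀ * I))‖ = 1 := by
      rw [Complex.norm_exp]; simp
    rw [e2, mul_one]
    have hb := hzb (ψ n)
    rw [mem_ball_zero_iff] at hb
    have := Real.log_neg (norm_pos_iff.2 hn) hb
    linarith
  · have hc : ContinuousAt log (1 : ℂ) := continuousAt_clog (by simp)
    have := (hc.tendsto.comp hzlim1).const_mul (-I)
    simpa using this
  · refine hXlim.congr' ?_
    filter_upwards [hne] with n hn
    congr 1
    have e : ((φ₀ : ℂ) + -I * log (z (ψ n) * exp (-(φ₀ * I)))) * I =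
        φ₀ * I + log (z (ψ n) * exp (-(φ₀ * I))) := by
      linear_combination -(log (z (ψ n) * exp (-(φ₀ * I)))) * Complex.I_mul_I
    rw [e, Complex.exp_add, Complex.exp_log (mul_ne_zero hn (exp_ne_zero _)), Complex.exp_neg]
    field_simp

theorem x5_nome_im (τ : ℂ) : (nome τ).im = Real.exp (-(Real.pi * τ.im)) * Real.sin (Real.pi * τ.re)
    := by
  rw [nome, Complex.exp_im]
  simp

theorem x5_nome_norm (τ : ℂ) : ‖nome τ‖ = Real.exp (-(Real.pi * τ.im)) := by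
  rw [nome, Complex.norm_exp]
  simp

theorem x5_nome_cont : Continuous nome := by
  unfold nome
  fun_prop

theorem x5_ne_one {δ : ℝ} {z : ℂ} (hz : z ∈ V2 δ) : z ≠ 1 := by
  rintro rfl
  have := hz.1
  simp at this

theorem flat_zero2 {δ : ℝ} {X : ℂ → ℂ} {Θ : ℝ → ℝ} (h : DiscMap2 δ X Θ) :
    ∃ φ₁ φ₂ : ℝ, φ₁ < φ₂ ∧ Θ φ₁ = 0 ∧ Θ φ₂ = 0 := by
  by_contra hcon
  push Not at hcon
  obtain ⟨φ₀, hφ₀⟩ := x5_exists_zero h
  have huniq : ∀ φ, Θ φ = 0 → φ = φ₀ := by
    intro φ hφ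
    rcases lt_trichotomy φ φ₀ with hlt | heq | hgt
    · exact absurd hφ₀ (hcon φ φ₀ hlt hφ)
    · exact heq
    · exact absurd hφ (hcon φ₀ φ hgt hφ₀)
  have hδ := h.d_pos
  have hpi := Real.pi_pos
  have hat : 0 < 2 * Real.arctan δ := by
    have := Real.arctan_pos.2 hδ
    linarith
  obtain ⟨r, hr, hΘ⟩ : ∃ r > 0, ∀ u : ℝ, |u| < r → |Θ (φ₀ + u)| < 2 * Real.arctan δ := by
    have hcont : ContinuousAt (fun u : ℝ => |Θ (φ₀ + u)|) 0 := by
      have : Continuous (fun u : ℝ => |Θ (φ₀ + u)|) :=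
        (h.cont.comp (continuous_const.add continuous_id)).abs
      exact this.continuousAt
    have hev : ∀ᶠ u : ℝ in 𝓝 0, |Θ (φ₀ + u)| < 2 * Real.arctan δ := by
      refine hcont.tendsto.eventually (p := fun v => v < 2 * Real.arctan δ) ?_
      rw [add_zero, hφ₀, abs_zero]
      exact gt_mem_nhds hat
    obtain ⟨r₂, hr₂, hr⟩ := Metric.eventually_nhds_iff.1 hev
    exact ⟨r₂, hr₂, fun u hu => hr (by rwa [Real.dist_eq, sub_zero])⟩
  have hmem : ∀ w : ℂ, 0 < w.im → X (exp ((φ₀ + w) * I)) ∈ V2 δ := by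
    intro w hw
    rw [← h.img]
    exact mem_image_of_mem _ (e6_chart_mem φ₀ hw)
  have hbound : ∀ w ∈ ball ((0 : ℝ) : ℂ) r, 0 < w.im →
      |(nome (Dt δ (X (exp ((φ₀ + w) * I))))).im| ≤ 1 := by
    intro w _ him
    refine (Complex.abs_im_le_norm _).trans ?_
    rw [x5_nome_norm]
    apply Real.exp_le_one_iff.2
    have hm := hmem w him
    rw [Dt_im (x5_ne_one hm)]
    have h1 : ‖X (exp ((φ₀ + w) * I))‖ < 1 := hm.1
    have h2 : 0 ≤ 1 - ‖X (exp ((φ₀ + w) * I))‖ ^ 2 := by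
      have := norm_nonneg (X (exp ((φ₀ + w) * I)))
      nlinarith
    have h3 : 0 ≤ δ * (1 - ‖X (exp ((φ₀ + w) * I))‖ ^ 2) / ‖1 - X (exp ((φ₀ + w) * I))‖ ^ 2 :=
      div_nonneg (mul_nonneg hδ.le h2) (sq_nonneg _)
    have := mul_nonneg hpi.le h3
    linarith
  have hdiff : DifferentiableOn ℂ (fun w => nome (Dt δ (X (exp ((φ₀ + w) * I)))))
      (ball ((0 : ℝ) : ℂ) r ∩ UH) := by
    intro w hw
    have d1 : DifferentiableWithinAt ℂ (fun w => X (exp ((φ₀ + w) * I)))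
        (ball ((0 : ℝ) : ℂ) r ∩ UH) w := ((x5_diff h φ₀).mono inter_subset_right) w hw
    have d2 : DifferentiableAt ℂ (Dt δ) (X (exp ((φ₀ + w) * I))) :=
      Dt_diffAt (x5_ne_one (hmem w hw.2))
    have d3 : Differentiable ℂ nome := by
      unfold nome
      fun_prop
    have d4 : DifferentiableWithinAt ℂ (Dt δ ∘ fun w => X (exp ((φ₀ + w) * I)))
        (ball ((0 : ℝ) : ℂ) r ∩ UH) w :=
      DifferentiableAt.comp_differentiableWithinAt (g := Dt δ) w d2 d1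
    exact DifferentiableAt.comp_differentiableWithinAt (g := nome) w (d3 _) d4
  have hbd : ∀ u : ℝ, |u - 0| < r → u ≠ 0 →
      Tendsto (fun w => (nome (Dt δ (X (exp ((φ₀ + w) * I))))).im) (𝓝[UH] (u : ℂ)) (𝓝 0) := by
    intro u hu hu0
    rw [sub_zero] at hu
    have hΘu := abs_lt.1 (hΘ u hu)
    obtain ⟨ha', hb', hc'⟩ := x5_hyps h φ₀ u
    rcases lt_or_gt_of_ne hu0 with hneg | hpos
    · have hlt : Θ (φ₀ + u) < 0 := by
        have h1 : Θ (φ₀ + u) ≤ 0 := by rw [← hφ₀]; exact h.mono (by linarith)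
        refine lt_of_le_of_ne h1 fun h2 => ?_
        have := huniq _ h2
        linarith
      obtain ⟨ς, hς, -, hlim⟩ := lim_side0 hδ ha' hb' hc' (by linarith [hΘu.1]) hlt
      have t := (Complex.continuous_im.tendsto _).comp ((x5_nome_cont.tendsto _).comp hlim)
      have e0 : (nome ς).im = 0 := by
        rw [x5_nome_im, hς.1]; simp
      simp only [e0] at t
      exact t
    · have hgt : 0 < Θ (φ₀ + u) := by
        have h1 : 0 ≤ Θ (φ₀ + u) := by rw [← hφ₀]; exact h.mono (by linarith)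
        refine lt_of_le_of_ne h1 fun h2 => ?_
        have := huniq _ h2.symm
        linarith
      obtain ⟨ς, hς, -, hlim⟩ := lim_side2 hδ ha' hb' hc' hgt hΘu.2
      have t := (Complex.continuous_im.tendsto _).comp ((x5_nome_cont.tendsto _).comp hlim)
      have e0 : (nome ς).im = 0 := by
        rw [x5_nome_im, hς.1]
        have : Real.sin (Real.pi * -2) = 0 := by
          rw [show Real.pi * -2 = -(2 * Real.pi) by ring, Real.sin_neg, Real.sin_two_pi, neg_zero]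
        rw [this, mul_zero]
      simp only [e0] at t
      exact t
  obtain ⟨H, hH, hHe, -⟩ := reflect_except (x := 0) (r := r) (M := 1) hr hdiff hbound hbd
  rw [Complex.ofReal_zero] at hH hHe
  have hHc : Tendsto H (𝓝 0) (𝓝 (H 0)) :=
    (hH.differentiableAt (isOpen_ball.mem_nhds (mem_ball_self hr))).continuousAt.tendsto
  have hval : ∀ T : ℝ, 1 / 3 < T → T < 1 → H 0 = nome (Dt δ T) := by
    intro T hT hT1
    obtain ⟨w, hw1, hw2, hw3⟩ := x5_seq h huniq hT hT1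
    have t1 := hHc.comp hw2
    have hT1' : (T : ℂ) ≠ 1 := by exact_mod_cast hT1.ne
    have t2 := (Dt_diffAt (δ := δ) hT1').continuousAt.tendsto.comp hw3
    have t3 := (x5_nome_cont.tendsto _).comp t2
    refine tendsto_nhds_unique t1 (t3.congr' ?_)
    filter_upwards [hw1, hw2.eventually (ball_mem_nhds (0 : ℂ) hr)] with n hn1 hn2
    exact (hHe _ hn2 hn1).symm
  have hnv : ∀ T : ℝ, 1 / 3 < T → T < 1 →
      ‖nome (Dt δ T)‖ = Real.exp (-(Real.pi * (δ * (1 - T ^ 2) / (1 - T) ^ 2))) := by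
    intro T hT hT1
    have hT1' : (T : ℂ) ≠ 1 := by exact_mod_cast hT1.ne
    rw [x5_nome_norm, Dt_im hT1']
    have e1 : ‖(T : ℂ)‖ ^ 2 = T ^ 2 := by
      rw [Complex.norm_real, Real.norm_eq_abs, sq_abs]
    have e2 : ‖(1 : ℂ) - T‖ ^ 2 = (1 - T) ^ 2 := by
      rw [← Complex.ofReal_one, ← Complex.ofReal_sub, Complex.norm_real, Real.norm_eq_abs, sq_abs]
    rw [e1, e2]
  have v1 := hval (1 / 2) (by norm_num) (by norm_num)
  have v2 := hval (2 / 3) (by norm_num) (by norm_num)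
  have v3 := congrArg norm (v1.symm.trans v2)
  rw [hnv _ (by norm_num) (by norm_num), hnv _ (by norm_num) (by norm_num)] at v3
  have v4 := Real.exp_injective v3
  have v5 : Real.pi * (δ * (1 - (1 / 2 : ℝ) ^ 2) / (1 - 1 / 2) ^ 2) =
      Real.pi * (δ * (1 - (2 / 3 : ℝ) ^ 2) / (1 - 2 / 3) ^ 2) := neg_injective v4
  have v6 := mul_left_cancel₀ hpi.ne' v5
  norm_num at v6
  linarith

end Pool.Agent.Choc
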