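import Pool.Agent.Lib.MP_2b3e36_an.Re.X5
import Pool.Agent.Lib.MP_2b3e36_an.Ex.E7

/-!
X6. Normalisation: the map from the upper half plane. Compare E7, whose lemmas on
`e7_C φB v₀ v = exp (i φB) (v - v₀)/(v - conj v₀)` can be used.

Let `θ₀ = arctan δ ∈ (0, pi/2)`. `Θ` is continuous, monotone, unbounded both ways; let `φB` be the point with
`Θ = -2 θ₀`, `φ₁ = min {Θ = 0}`, `φ₂ = max {Θ = 0}`, `φA` the point with `Θ = 2 θ₀`, `φC` the point with
`Θ = pi`; these points are unique by `not_flat2` (`exp (iΘ) ≠ 1` there), `φ₁ < φ₂` by `flat_zero2`, and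
`φB < φ₁ < φ₂ < φA < φC < φB + 2 pi` (`2 θ₀ < pi`; `Θ (φB + 2 pi) = 2 pi - 2 θ₀`). Put `α = (φA - φB)/2`,
`γ = (φC - φB)/2`, `0 < α < γ < pi`, `v₀ = -1 + 2 sin γ / sin (γ - α) * exp (i α)` as in E7: `C = e7_C φB v₀` maps
`UH` onto the disc, real `x` to `exp (i φ x)`, `φ x = φB + 2 arg (v₀ - x)`, increasing continuous from
`φB` to `φB + 2 pi`, `φ (-1) = φA`, `φ 1 = φC`. Let `v₁ < v₂ < -1` be the points with `φ v_j = φ_j`
(intermediate value theorem). `X^ = X ∘ C`, `Θ^ x = Θ (φ x)`. All fields follow (strict inequalities from the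
uniqueness of `φB`, `φA`, `φC` and from the definition of `φ₁, φ₂`). At infinity: `C (-1/u) → exp (i φB)`
(`e7_C_tendsto_inf`).
-/

set_option autoImplicit false

open Complex Set Filter Topology Metric

namespace Pool.Agent.Choc

/-- The conformal map onto `V2 δ` from the upper half plane before the local analysis. -/
structure Pre2 (δ : ℝ) (X : ℂ → ℂ) (v₁ v₂ : ℝ) (Θ : ℝ → ℝ) : Prop where
  d_pos : 0 < δ
  lt12 : v₁ < v₂
  lt2 : v₂ < -1
  diff : DifferentiableOn ℂ X UH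
  inj : InjOn X UH
  img : X '' UH = V2 δ
  cont : Continuous Θ
  s0 : ∀ x : ℝ, x < v₁ → -2 * Real.arctan δ < Θ x ∧ Θ x < 0
  s1 : ∀ x : ℝ, v₁ ≤ x → x ≤ v₂ → Θ x = 0
  s2 : ∀ x : ℝ, v₂ < x → x < -1 → 0 < Θ x ∧ Θ x < 2 * Real.arctan δ
  neg : Θ (-1) = 2 * Real.arctan δ
  mid : ∀ x : ℝ, -1 < x → x < 1 → 2 * Real.arctan δ < Θ x ∧ Θ x < Real.pi
  one : Θ 1 = Real.pi
  s3 : ∀ x : ℝ, 1 < x → Real.pi < Θ x ∧ Θ x < 2 * Real.pi - 2 * Real.arctan δ
  lim : ∀ x : ℝ, Tendsto (fun v => X v / (‖X v‖ : ℂ)) (𝓝[UH] (x : ℂ)) (𝓝 (exp (Θ x * I)))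
  lim_infty : Tendsto (fun u => X (-1 / u) / (‖X (-1 / u)‖ : ℂ)) (𝓝[UH] (0 : ℂ))
    (𝓝 (exp ((-2 * Real.arctan δ : ℝ) * I)))
  esc : ∀ K : Set ℂ, IsCompact K → K ⊆ V2 δ → ∀ x : ℝ, ∀ᶠ v in 𝓝[UH] (x : ℂ), X v ∉ K
  esc_infty : ∀ K : Set ℂ, IsCompact K → K ⊆ V2 δ → ∀ᶠ u in 𝓝[UH] (0 : ℂ), X (-1 / u) ∉ K

theorem x6_exp_ne {θ : ℝ} (h1 : -(2 * Real.pi) < θ) (h2 : θ < 2 * Real.pi) (h3 : θ ≠ 0) :
    exp (θ * I) ≠ 1 := by
  intro h
  obtain ⟨n, hn⟩ := Complex.exp_eq_one_iff.1 h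
  have hpi := Real.pi_pos
  have h4 : (θ : ℂ) = ((n * (2 * Real.pi) : ℝ) : ℂ) := by
    have h5 : (θ : ℂ) * I = ((n * (2 * Real.pi) : ℝ) : ℂ) * I := by
      rw [hn]
      push_cast
      ring
    exact mul_right_cancel₀ Complex.I_ne_zero h5
  have h5 : θ = n * (2 * Real.pi) := by exact_mod_cast h4
  have h6 : (n : ℝ) < 1 := by
    by_contra hc
    push Not at hc
    nlinarith
  have h7 : (-1 : ℝ) < n := by
    by_contra hc
    push Not at hc
    nlinarith
  have h8 : n < 1 := by exact_mod_cast h6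
  have h9 : -1 < n := by exact_mod_cast h7
  have h10 : n = 0 := by omega
  rw [h10] at h5
  apply h3
  rw [h5]
  simp

theorem x6_arg {z : ℂ} (hz : 0 < z.im) {β : ℝ} (h0 : 0 < β) (h1 : β < Real.pi) :
    ∃ x : ℝ, arg (z - x) = β := by
  have hs : 0 < Real.sin β := Real.sin_pos_of_pos_of_lt_pi h0 h1
  refine ⟨z.re - z.im / Real.sin β * Real.cos β, ?_⟩
  have e : z - ((z.re - z.im / Real.sin β * Real.cos β : ℝ) : ℂ) =
      ((z.im / Real.sin β : ℝ) : ℂ) * (Complex.cos (β : ℂ) + Complex.sin (β : ℂ) * I) := by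
    rw [← Complex.ofReal_cos, ← Complex.ofReal_sin]
    apply Complex.ext
    · simp only [Complex.sub_re, Complex.ofReal_re, Complex.mul_re, Complex.add_re,
        Complex.ofReal_im, Complex.I_re, Complex.I_im, Complex.add_im, Complex.mul_im]
      ring
    · simp only [Complex.sub_im, Complex.ofReal_re, Complex.mul_re, Complex.add_re,
        Complex.ofReal_im, Complex.I_re, Complex.I_im, Complex.add_im, Complex.mul_im]
      field_simp
      ring
  rw [e, Complex.arg_mul_cos_add_sin_mul_I (by positivity) ⟨by linarith, by linarith⟩]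

theorem x6_angles {δ : ℝ} {X : ℂ → ℂ} {Θ : ℝ → ℝ} (h : DiscMap2 δ X Θ) :
    ∃ φB φ₁ φ₂ φA φC : ℝ, φB < φ₁ ∧ φ₁ < φ₂ ∧ φ₂ < φA ∧ φA < φC ∧ φC < φB + 2 * Real.pi ∧
      Θ φB = -2 * Real.arctan δ ∧ Θ φ₁ = 0 ∧ Θ φ₂ = 0 ∧ Θ φA = 2 * Real.arctan δ ∧
      Θ φC = Real.pi ∧ (∀ φ, Θ φ = 0 → φ₁ ≤ φ ∧ φ ≤ φ₂) := by
  have hpi := Real.pi_pos
  have ht0 : 0 < Real.arctan δ := Real.arctan_pos.2 h.d_pos
  have ht1 : Real.arctan δ < Real.pi / 2 := Real.arctan_lt_pi_div_two δ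
  have hcl : IsClosed {φ | Θ φ = 0} := isClosed_eq h.cont continuous_const
  obtain ⟨ψ₁, ψ₂, hlt, h1, h2⟩ := flat_zero2 h
  have hper : ∀ φ, Θ (φ - 2 * Real.pi) = Θ φ - 2 * Real.pi := by
    intro φ
    have := h.per (φ - 2 * Real.pi)
    rw [sub_add_cancel] at this
    linarith
  have hbd : {φ | Θ φ = 0} ⊆ Icc (ψ₁ - 2 * Real.pi) (ψ₁ + 2 * Real.pi) := by
    intro φ hφ
    have hφ0 : Θ φ = 0 := hφ
    constructor
    · by_contra hc
      push Not at hc
      have h3 := h.mono hc.le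
      rw [hper, h1, hφ0] at h3
      linarith
    · by_contra hc
      push Not at hc
      have h3 := h.mono hc.le
      rw [h.per, h1, hφ0] at h3
      linarith
  have hcomp : IsCompact {φ | Θ φ = 0} := isCompact_Icc.of_isClosed_subset hcl hbd
  have hnon : {φ | Θ φ = 0}.Nonempty := ⟨ψ₁, h1⟩
  have hB := hcomp.sInf_mem hnon
  have hA := hcomp.sSup_mem hnon
  have hmem : ∀ φ, Θ φ = 0 → sInf {φ | Θ φ = 0} ≤ φ ∧ φ ≤ sSup {φ | Θ φ = 0} := fun φ hφ =>
    ⟨csInf_le hcomp.bddBelow hφ, le_csSup hcomp.bddAbove hφ⟩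
  obtain ⟨φ₁, hφ₁⟩ : ∃ φ₁, φ₁ = sInf {φ | Θ φ = 0} := ⟨_, rfl⟩
  obtain ⟨φ₂, hφ₂⟩ : ∃ φ₂, φ₂ = sSup {φ | Θ φ = 0} := ⟨_, rfl⟩
  rw [← hφ₁] at hB hmem
  rw [← hφ₂] at hA hmem
  have hB0 : Θ φ₁ = 0 := hB
  have hA0 : Θ φ₂ = 0 := hA
  obtain ⟨φB, -, hφB⟩ : -2 * Real.arctan δ ∈ Θ '' Icc (φ₁ - 2 * Real.pi) φ₁ := by
    apply intermediate_value_Icc (by linarith) h.cont.continuousOn
    rw [hper, hB0]
    exact ⟨by linarith, by linarith⟩
  obtain ⟨φA, -, hφA⟩ : 2 * Real.arctan δ ∈ Θ '' Icc φ₁ (φ₁ + 2 * Real.pi) := by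
    apply intermediate_value_Icc (by linarith) h.cont.continuousOn
    rw [h.per, hB0]
    exact ⟨by linarith, by linarith⟩
  obtain ⟨φC, -, hφC⟩ : Real.pi ∈ Θ '' Icc φ₁ (φ₁ + 2 * Real.pi) := by
    apply intermediate_value_Icc (by linarith) h.cont.continuousOn
    rw [h.per, hB0]
    exact ⟨by linarith, by linarith⟩
  refine ⟨φB, φ₁, φ₂, φA, φC, ?_, ?_, ?_, ?_, ?_, hφB, hB0, hA0, hφA, hφC, hmem⟩
  · apply h.mono.reflect_lt
    rw [hφB, hB0]; linarith
  · exact lt_of_le_of_lt (hmem ψ₁ h1).1 (lt_of_lt_of_le hlt (hmem ψ₂ h2).2)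
  · apply h.mono.reflect_lt
    rw [hA0, hφA]; linarith
  · apply h.mono.reflect_lt
    rw [hφA, hφC]; linarith
  · apply h.mono.reflect_lt
    rw [h.per, hφB, hφC]; linarith

theorem pre2_exists {δ : ℝ} (hδ : 0 < δ) :
    ∃ (X : ℂ → ℂ) (v₁ v₂ : ℝ) (Θ : ℝ → ℝ), Pre2 δ X v₁ v₂ Θ := by
  obtain ⟨X, Θ, h⟩ := discMap2_exists hδ
  obtain ⟨φB, φ₁, φ₂, φA, φC, hB1, h12, h2A, hAC, hCB, hB0, h10, h20, hA0, hCpi, hmem⟩ :=
    x6_angles h
  have hpi := Real.pi_pos
  have ht0 : 0 < Real.arctan δ := Real.arctan_pos.2 h.d_pos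
  have ht1 : Real.arctan δ < Real.pi / 2 := Real.arctan_lt_pi_div_two δ
  obtain ⟨α, hα⟩ : ∃ α : ℝ, α = (φA - φB) / 2 := ⟨_, rfl⟩
  obtain ⟨γ, hγ⟩ : ∃ γ : ℝ, γ = (φC - φB) / 2 := ⟨_, rfl⟩
  have h0α : 0 < α := by rw [hα]; linarith
  have hαγ : α < γ := by rw [hα, hγ]; linarith
  have hγπ : γ < Real.pi := by rw [hγ]; linarith
  have s1 : 0 < Real.sin γ := Real.sin_pos_of_pos_of_lt_pi (by linarith) hγπ
  have s2 : 0 < Real.sin α := Real.sin_pos_of_pos_of_lt_pi h0α (by linarith)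
  have s3 : 0 < Real.sin (γ - α) := Real.sin_pos_of_pos_of_lt_pi (by linarith) (by linarith)
  obtain ⟨v₀, hv₀⟩ : ∃ v₀ : ℂ, v₀ = -1 + ((2 * Real.sin γ / Real.sin (γ - α) : ℝ) : ℂ) *
      ((Real.cos α : ℝ) + (Real.sin α : ℝ) * I) := ⟨_, rfl⟩
  have r1 : 0 < 2 * Real.sin γ / Real.sin (γ - α) := by positivity
  have r2 : 0 < 2 * Real.sin α / Real.sin (γ - α) := by positivity
  have him : v₀.im = 2 * Real.sin γ / Real.sin (γ - α) * Real.sin α := by
    rw [hv₀]
    simp only [Complex.add_im, Complex.neg_im, Complex.one_im, Complex.mul_im, Complex.ofReal_re,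
      Complex.ofReal_im, Complex.add_re, Complex.mul_re, Complex.I_re, Complex.I_im]
    ring
  have hre : v₀.re = -1 + 2 * Real.sin γ / Real.sin (γ - α) * Real.cos α := by
    rw [hv₀]
    simp only [Complex.add_im, Complex.neg_re, Complex.one_re, Complex.mul_im, Complex.ofReal_re,
      Complex.ofReal_im, Complex.add_re, Complex.mul_re, Complex.I_re, Complex.I_im]
    ring
  have h0 : 0 < v₀.im := by rw [him]; positivity
  have a1 : arg (v₀ - ((-1 : ℝ) : ℂ)) = α := by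
    have e : v₀ - ((-1 : ℝ) : ℂ) = ((2 * Real.sin γ / Real.sin (γ - α) : ℝ) : ℂ) *
        (Complex.cos (α : ℂ) + Complex.sin (α : ℂ) * I) := by
      rw [hv₀, ← Complex.ofReal_cos, ← Complex.ofReal_sin]
      push_cast
      ring
    rw [e, Complex.arg_mul_cos_add_sin_mul_I r1 ⟨by linarith, by linarith⟩]
  have a2 : arg (v₀ - ((1 : ℝ) : ℂ)) = γ := by
    have e : v₀ - ((1 : ℝ) : ℂ) = ((2 * Real.sin α / Real.sin (γ - α) : ℝ) : ℂ) *
        (Complex.cos (γ : ℂ) + Complex.sin (γ : ℂ) * I) := by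
      rw [← Complex.ofReal_cos, ← Complex.ofReal_sin]
      apply Complex.ext
      · simp only [Complex.sub_re, hre, Complex.ofReal_re, Complex.mul_re, Complex.add_re,
          Complex.ofReal_im, Complex.I_re, Complex.I_im, Complex.add_im, Complex.mul_im]
        field_simp
        rw [Real.sin_sub]
        ring
      · simp only [Complex.sub_im, him, Complex.ofReal_re, Complex.mul_re, Complex.add_re,
          Complex.ofReal_im, Complex.I_re, Complex.I_im, Complex.add_im, Complex.mul_im]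
        ring
    rw [e, Complex.arg_mul_cos_add_sin_mul_I r2 ⟨by linarith, by linarith⟩]
  obtain ⟨v₁, b1⟩ := x6_arg h0 (β := (φ₁ - φB) / 2) (by linarith) (by linarith)
  obtain ⟨v₂, b2⟩ := x6_arg h0 (β := (φ₂ - φB) / 2) (by linarith) (by linarith)
  have hrefl : ∀ {x x' : ℝ}, arg (v₀ - x) < arg (v₀ - x') → x < x' := by
    intro x x' hx
    by_contra hc
    push Not at hc
    rcases hc.lt_or_eq with h3 | h3
    · exact absurd (e7_arg_lt h0 h3) (not_lt.2 hx.le)
    · rw [h3] at hx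
      exact lt_irrefl _ hx
  have hpos : ∀ x : ℝ, 0 < arg (v₀ - x) := by
    intro x
    have h1 := e7_arg_lt h0 (show x - 1 < x by linarith)
    have h2 : 0 ≤ arg (v₀ - ((x - 1 : ℝ) : ℂ)) := by
      apply Complex.arg_nonneg_iff.2
      simpa using h0.le
    linarith
  have hltpi : ∀ x : ℝ, arg (v₀ - x) < Real.pi := by
    intro x
    apply Complex.arg_lt_pi_iff.2
    right
    simpa using h0.ne'
  have hmono := h.mono
  have hperB : Θ (φB + 2 * Real.pi) = 2 * Real.pi - 2 * Real.arctan δ := by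
    rw [h.per, hB0]; ring
  have n1 : exp (((-2 * Real.arctan δ : ℝ) : ℂ) * I) ≠ 1 :=
    x6_exp_ne (by linarith) (by linarith) (by linarith)
  have n2 : exp (((2 * Real.arctan δ : ℝ) : ℂ) * I) ≠ 1 :=
    x6_exp_ne (by linarith) (by linarith) (by linarith)
  have n3 : exp ((Real.pi : ℂ) * I) ≠ 1 :=
    x6_exp_ne (by linarith) (by linarith) (by linarith)
  have n4 : exp (((2 * Real.pi - 2 * Real.arctan δ : ℝ) : ℂ) * I) ≠ 1 :=
    x6_exp_ne (by linarith) (by linarith) (by linarith)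
  refine ⟨fun v => X (e7_C φB v₀ v), v₁, v₂, fun x => Θ (φB + 2 * arg (v₀ - x)), ?_⟩
  refine
    { d_pos := hδ
      lt12 := ?_
      lt2 := ?_
      diff := ?_
      inj := ?_
      img := ?_
      cont := ?_
      s0 := ?_
      s1 := ?_
      s2 := ?_
      neg := ?_
      mid := ?_
      one := ?_
      s3 := ?_
      lim := ?_
      lim_infty := ?_
      esc := ?_
      esc_infty := ?_ }
  · apply hrefl
    rw [b1, b2]; linarith
  · apply hrefl
    rw [b2, a1, hα]; linarith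
  · intro v hv
    have hd := (h.diff.differentiableAt (isOpen_ball.mem_nhds (e7_C_mem (φB := φB) h0 hv)))
    exact (hd.comp v (e7_C_diff h0 (le_of_lt hv))).differentiableWithinAt
  · intro v hv w hw he
    exact e7_C_inj h0 hv hw (h.inj (e7_C_mem h0 hv) (e7_C_mem h0 hw) he)
  · rw [← h.img, ← e7_C_image (φB := φB) h0, image_image]
  · apply h.cont.comp
    have : Continuous (fun x : ℝ => arg (v₀ - x)) := by
      rw [continuous_iff_continuousAt]
      intro x
      have hs : v₀ - x ∈ slitPlane := Or.inr (by simpa using h0.ne')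
      have hc : ContinuousAt (fun x : ℝ => v₀ - (x : ℂ)) x := by fun_prop
      exact ContinuousAt.comp (f := fun x : ℝ => v₀ - (x : ℂ)) (Complex.continuousAt_arg hs) hc
    exact continuous_const.add (continuous_const.mul this)
  · intro x hx
    have c1 := hpos x
    have c2 := e7_arg_lt h0 hx
    rw [b1] at c2
    have c3 : φB < φB + 2 * arg (v₀ - x) := by linarith
    have c4 : φB + 2 * arg (v₀ - x) < φ₁ := by linarith
    constructor
    · have c5 := hmono c3.le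
      rw [hB0] at c5
      refine lt_of_le_of_ne c5 fun he => ?_
      exact not_flat2 h c3 hB0 n1 he.symm
    · have c5 := hmono c4.le
      rw [h10] at c5
      refine lt_of_le_of_ne c5 fun he => ?_
      have := (hmem _ he).1
      linarith
  · intro x hx hx'
    have c1 : (φ₁ - φB) / 2 ≤ arg (v₀ - x) := by
      rcases hx.lt_or_eq with h3 | h3
      · rw [← b1]; exact (e7_arg_lt h0 h3).le
      · rw [← b1, h3]
    have c2 : arg (v₀ - x) ≤ (φ₂ - φB) / 2 := by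
      rcases hx'.lt_or_eq with h3 | h3
      · rw [← b2]; exact (e7_arg_lt h0 h3).le
      · rw [← b2, h3]
    apply le_antisymm
    · rw [← h20]
      apply hmono
      linarith
    · rw [← h10]
      apply hmono
      linarith
  · intro x hx hx'
    have c1 := e7_arg_lt h0 hx
    have c2 := e7_arg_lt h0 hx'
    rw [b2] at c1
    rw [a1, hα] at c2
    have c3 : φ₂ < φB + 2 * arg (v₀ - x) := by linarith
    have c4 : φB + 2 * arg (v₀ - x) < φA := by linarith
    constructor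
    · have c5 := hmono c3.le
      rw [h20] at c5
      refine lt_of_le_of_ne c5 fun he => ?_
      have := (hmem _ he.symm).2
      linarith
    · have c5 := hmono c4.le
      rw [hA0] at c5
      refine lt_of_le_of_ne c5 fun he => ?_
      exact not_flat2 h c4 he n2 hA0
  · show Θ (φB + 2 * arg (v₀ - ((-1 : ℝ) : ℂ))) = _
    rw [a1, hα, ← hA0]
    congr 1
    ring
  · intro x hx1 hx2
    have c1 : α < arg (v₀ - x) := by rw [← a1]; exact e7_arg_lt h0 hx1
    have c2 : arg (v₀ - x) < γ := by rw [← a2]; exact e7_arg_lt h0 hx2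
    have c3 : φA < φB + 2 * arg (v₀ - x) := by rw [hα] at c1; linarith
    have c4 : φB + 2 * arg (v₀ - x) < φC := by rw [hγ] at c2; linarith
    constructor
    · have c5 := hmono c3.le
      rw [hA0] at c5
      refine lt_of_le_of_ne c5 fun he => ?_
      exact not_flat2 h c3 hA0 n2 he.symm
    · have c5 := hmono c4.le
      rw [hCpi] at c5
      refine lt_of_le_of_ne c5 fun he => ?_
      exact not_flat2 h c4 he n3 hCpi
  · show Θ (φB + 2 * arg (v₀ - ((1 : ℝ) : ℂ))) = Real.pi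
    rw [a2, hγ, ← hCpi]
    congr 1
    ring
  · intro x hx
    have c1 : γ < arg (v₀ - x) := by rw [← a2]; exact e7_arg_lt h0 hx
    have c2 := hltpi x
    have c3 : φC < φB + 2 * arg (v₀ - x) := by rw [hγ] at c1; linarith
    have c4 : φB + 2 * arg (v₀ - x) < φB + 2 * Real.pi := by linarith
    constructor
    · have c5 := hmono c3.le
      rw [hCpi] at c5
      refine lt_of_le_of_ne c5 fun he => ?_
      exact not_flat2 h c3 hCpi n3 he.symm
    · have c5 := hmono c4.le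
      rw [hperB] at c5
      refine lt_of_le_of_ne c5 fun he => ?_
      exact not_flat2 h c4 he n4 hperB
  · intro x
    exact (h.lim _).comp (e7_C_tendsto h0 x)
  · have := (h.lim φB).comp (e7_C_tendsto_inf h0)
    rw [hB0] at this
    exact this
  · intro K hK hKV x
    exact (e7_C_tendsto h0 x).eventually (h.esc K hK hKV _)
  · intro K hK hKV
    exact (e7_C_tendsto_inf h0).eventually (h.esc K hK hKV φB)

end Pool.Agent.Choc
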