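import Pool.Agent.Lib.MP_2b3e36_an.Re.X6
import Pool.Agent.Lib.MP_2b3e36_an.Ex.E8

/-!
X7. Local analysis on the sides and on the free arc. `Y = Dt δ ∘ X : UH → Wd (2 δ)` is holomorphic,
injective, onto (X1). Compare E8 (`pre_free`, `pre_arc`); `deriv_pos_of_upper` is proved there.

side0, `x < v₁`: at real `u` near `x` `Y → ς ∈ Vert 0` (`lim_side0` with `esc`, `lim`); `h = -i Y`,
`Im h = - Re Y > 0` on `UH`, `→ 0` at the real points. `reflect` gives `H`, real on the reals; `Y = i H`;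
`deriv H x > 0` by `deriv_pos_of_upper`. The extension `τ = i H` has at `u` the value `ς ∈ Vert 0` (continuity of
`H` and `UH` accumulates at `u`).
side2, `v₂ < x < -1`: `h = i (Y + 2)`, `Im h = Re Y + 2 > 0`, `→ 0`. `τ = - i H - 2`.
free, `-1 < x < 1`: `h = Y`, `Im Y > 0`, `→ 0` (`lim_free`).
arc, `1 < x`: `Θ x ∈ (pi, 2 pi - 2 θ₀)`, `lim_arc`: `Y → ς ∈ Sig`. `s = -1/Y`, `Re s < 1` on `Wd` since
`‖τ + 1/2‖ > 1/2`, and `Re s = 1` on `Sig`; `h = i (1 - s)`, `Im h = 1 - Re s > 0`, `→ 0`; `reflect`, `H' > 0`;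
`s = 1 + i H`, `τ = -1/s`, `τ' = s'/s^2 = i H' τ^2`; with `c = τ + 1/2`, `|c| = 1/2`: `τ^2 = - c (1 - 2 Re c)`
(see E8), so `τ' = - i H' (1 - 2 Re c) c`, `κ = H' (1 - 2 Re c) > 0`.
-/

set_option autoImplicit false

open Complex Set Filter Topology Metric

namespace Pool.Agent.Choc

variable {δ : ℝ} {X : ℂ → ℂ} {v₁ v₂ : ℝ} {Θ : ℝ → ℝ}

lemma x7_mem (h : Pre2 δ X v₁ v₂ Θ) {v : ℂ} (hv : v ∈ UH) : X v ∈ V2 δ := by
  rw [← h.img]; exact mem_image_of_mem _ hv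

lemma x7_ne_one (h : Pre2 δ X v₁ v₂ Θ) {v : ℂ} (hv : v ∈ UH) : X v ≠ 1 := by
  intro h1
  have h2 := V2_subset δ (x7_mem h hv)
  rw [h1, mem_ball, dist_zero_right, norm_one] at h2
  exact lt_irrefl _ h2

theorem pre2_Y (h : Pre2 δ X v₁ v₂ Θ) : DifferentiableOn ℂ (fun v => Dt δ (X v)) UH ∧
    InjOn (fun v => Dt δ (X v)) UH ∧ (fun v => Dt δ (X v)) '' UH = Wd (2 * δ) := by
  refine ⟨?_, ?_, ?_⟩
  · intro v hv
    exact (Dt_diffAt (x7_ne_one h hv)).comp_differentiableWithinAt v (h.diff v hv)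
  · intro v hv w hw hvw
    exact h.inj hv hw (Dt_inj h.d_pos (x7_ne_one h hv) (x7_ne_one h hw) hvw)
  · rw [← Dt_image h.d_pos, ← h.img, image_image]

lemma x7_Wd (h : Pre2 δ X v₁ v₂ Θ) {v : ℂ} (hv : v ∈ UH) : Dt δ (X v) ∈ Wd (2 * δ) := by
  rw [← (pre2_Y h).2.2]
  exact mem_image_of_mem (fun v => Dt δ (X v)) hv

lemma x7_ev (h : Pre2 δ X v₁ v₂ Θ) (u : ℝ) : ∀ᶠ v in 𝓝[UH] (u : ℂ), X v ∈ V2 δ :=
  eventually_nhdsWithin_of_forall fun _ hv => x7_mem h hv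

/-- the common part: reflection of `a (Y + b)` -/
lemma x7_nd {Y : ℂ → ℂ} {S : Set ℂ} {x r : ℝ} {a b : ℂ} (ha : a ≠ 0) (hr : 0 < r)
    (hd : DifferentiableOn ℂ Y (ball (x : ℂ) r ∩ UH))
    (hpos : ∀ z ∈ ball (x : ℂ) r, 0 < z.im → 0 < (a * (Y z + b)).im)
    (hlim : ∀ u : ℝ, |u - x| < r → ∃ ς ∈ S, Tendsto Y (𝓝[UH] (u : ℂ)) (𝓝 ς))
    (hS : ∀ ς ∈ S, (a * (ς + b)).im = 0) :
    ∃ κ : ℝ, 0 < κ ∧ ∃ τ : ℂ → ℂ, DifferentiableOn ℂ τ (ball (x : ℂ) r) ∧
      (∀ v ∈ ball (x : ℂ) r, 0 < v.im → Y v = τ v) ∧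
      (∀ u : ℝ, (u : ℂ) ∈ ball (x : ℂ) r → τ u ∈ S) ∧ deriv τ x = κ / a := by
  obtain ⟨H, hHd, hHe, hHr⟩ := reflect (x := x) hr (h := fun v => a * (Y v + b))
    ((hd.add_const b).const_mul a) (fun u hu => by
      obtain ⟨ς, hς, ht⟩ := hlim u hu
      have h3 : Tendsto (fun v => a * (Y v + b)) (𝓝[UH] (u : ℂ)) (𝓝 (a * (ς + b))) :=
        (ht.add_const b).const_mul a
      have h4 := (Complex.continuous_im.tendsto _).comp h3
      rw [hS ς hς] at h4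
      exact h4)
  have hup : ∀ z ∈ ball (x : ℂ) r, 0 < z.im → 0 < (H z).im := by
    intro z hz hz0
    rw [hHe z hz hz0]
    exact hpos z hz hz0
  obtain ⟨κ, hκ, hκd⟩ := deriv_pos_of_upper hr hHd hHr hup
  have hτd : DifferentiableOn ℂ (fun v => H v / a - b) (ball (x : ℂ) r) :=
    (hHd.div_const a).sub_const b
  have hτe : ∀ v ∈ ball (x : ℂ) r, 0 < v.im → H v / a - b = Y v := by
    intro v hv hv0
    rw [hHe v hv hv0]
    field_simp
    ring
  refine ⟨κ, hκ, fun v => H v / a - b, hτd, fun v hv hv0 => (hτe v hv hv0).symm, ?_, ?_⟩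
  · intro u hu
    have hu' := e8_mem_ball.1 hu
    obtain ⟨ς, hς, ht⟩ := hlim u hu'
    have h6 : H u / a - b = ς := e8_value hτd hu' hτe ht
    show H u / a - b ∈ S
    rw [h6]
    exact hς
  · have h5 : HasDerivAt H (κ : ℂ) x := by
      rw [← hκd]; exact (hHd.differentiableAt (ball_mem_nhds _ hr)).hasDerivAt
    exact ((h5.div_const a).sub_const b).deriv

theorem pre2_side0 (h : Pre2 δ X v₁ v₂ Θ) (x : ℝ) (hx : x < v₁) :
    SideNd (fun v => Dt δ (X v)) (Vert 0) x := by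
  have hr : 0 < v₁ - x := by linarith
  obtain ⟨κ, hκ, τ, h1, h2, h3, h4⟩ := x7_nd (Y := fun v => Dt δ (X v)) (S := Vert 0) (x := x)
    (r := v₁ - x) (a := -I) (b := 0) (neg_ne_zero.2 Complex.I_ne_zero) hr
    ((pre2_Y h).1.mono inter_subset_right)
    (fun z _ hz0 => by
      have h5 := (x7_Wd h (v := z) hz0).2.2.1
      rw [add_zero, neg_mul, Complex.neg_im, Complex.I_mul_im]
      linarith)
    (fun u hu => by
      have h5 : u < v₁ := by
        have := (abs_lt.1 hu).2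
        linarith
      obtain ⟨h6, h7⟩ := h.s0 u h5
      obtain ⟨ς, hς, _, ht⟩ := lim_side0 h.d_pos (x7_ev h u) (fun K hK hKV => h.esc K hK hKV u)
        (h.lim u) h6 h7
      exact ⟨ς, hς, ht⟩)
    (fun ς hς => by
      have h5 : ς.re = 0 := hς.1
      rw [add_zero, neg_mul, Complex.neg_im, Complex.I_mul_im, h5, neg_zero])
  refine ⟨v₁ - x, hr, τ, h1, h2, h3, ?_⟩
  rw [h4]
  exact div_ne_zero (by exact_mod_cast hκ.ne') (neg_ne_zero.2 Complex.I_ne_zero)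

theorem pre2_side2 (h : Pre2 δ X v₁ v₂ Θ) (x : ℝ) (hx : v₂ < x) (hx' : x < -1) :
    SideNd (fun v => Dt δ (X v)) (Vert (-2)) x := by
  have hr : 0 < min (x - v₂) (-1 - x) := lt_min (by linarith) (by linarith)
  obtain ⟨κ, hκ, τ, h1, h2, h3, h4⟩ := x7_nd (Y := fun v => Dt δ (X v)) (S := Vert (-2)) (x := x)
    (r := min (x - v₂) (-1 - x)) (a := I) (b := 2) Complex.I_ne_zero hr
    ((pre2_Y h).1.mono inter_subset_right)
    (fun z _ hz0 => by
      have h5 := (x7_Wd h (v := z) hz0).2.1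
      rw [Complex.I_mul_im, Complex.add_re]
      have : ((2 : ℂ)).re = 2 := by simp
      rw [this]
      linarith)
    (fun u hu => by
      have h5 := abs_lt.1 hu
      have h8 := min_le_left (x - v₂) (-1 - x)
      have h9 := min_le_right (x - v₂) (-1 - x)
      obtain ⟨h6, h7⟩ := h.s2 u (by linarith [h5.1]) (by linarith [h5.2])
      obtain ⟨ς, hς, _, ht⟩ := lim_side2 h.d_pos (x7_ev h u) (fun K hK hKV => h.esc K hK hKV u)
        (h.lim u) h6 h7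
      exact ⟨ς, hς, ht⟩)
    (fun ς hς => by
      have h5 : ς.re = -2 := hς.1
      rw [Complex.I_mul_im, Complex.add_re, h5]
      simp)
  refine ⟨_, hr, τ, h1, h2, h3, ?_⟩
  rw [h4]
  exact div_ne_zero (by exact_mod_cast hκ.ne') Complex.I_ne_zero

theorem pre2_free (h : Pre2 δ X v₁ v₂ Θ) (x : ℝ) (hx : -1 < x) (hx' : x < 1) :
    ∃ r > 0, ∃ τ : ℂ → ℂ, DifferentiableOn ℂ τ (ball (x : ℂ) r) ∧
    (∀ v ∈ ball (x : ℂ) r, 0 < v.im → Dt δ (X v) = τ v) ∧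
    (∀ u : ℝ, (u : ℂ) ∈ ball (x : ℂ) r → (τ u).im = 0 ∧ -2 < (τ u).re ∧ (τ u).re < -1) ∧
    ∃ κ : ℝ, 0 < κ ∧ deriv τ x = κ := by
  have hr : 0 < min (x + 1) (1 - x) := lt_min (by linarith) (by linarith)
  obtain ⟨κ, hκ, τ, h1, h2, h3, h4⟩ := x7_nd (Y := fun v => Dt δ (X v))
    (S := {ς : ℂ | ς.im = 0 ∧ -2 < ς.re ∧ ς.re < -1}) (x := x)
    (r := min (x + 1) (1 - x)) (a := 1) (b := 0) one_ne_zero hr
    ((pre2_Y h).1.mono inter_subset_right)
    (fun z _ hz0 => by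
      have h5 := (x7_Wd h (v := z) hz0).1
      rw [one_mul, add_zero]
      exact h5)
    (fun u hu => by
      have h5 := abs_lt.1 hu
      have h8 := min_le_left (x + 1) (1 - x)
      have h9 := min_le_right (x + 1) (1 - x)
      obtain ⟨h6, h7⟩ := h.mid u (by linarith [h5.1]) (by linarith [h5.2])
      obtain ⟨ς, a1, a2, a3, ht⟩ := lim_free h.d_pos (x7_ev h u)
        (fun K hK hKV => h.esc K hK hKV u) (h.lim u) h6 h7
      exact ⟨ς, ⟨a1, a2, a3⟩, ht⟩)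
    (fun ς hς => by
      rw [one_mul, add_zero]
      exact hς.1)
  refine ⟨_, hr, τ, h1, h2, h3, κ, hκ, ?_⟩
  rw [h4, div_one]

theorem pre2_arc (h : Pre2 δ X v₁ v₂ Θ) (x : ℝ) (hx : 1 < x) :
    ∃ r > 0, ∃ τ : ℂ → ℂ, DifferentiableOn ℂ τ (ball (x : ℂ) r) ∧
    (∀ v ∈ ball (x : ℂ) r, 0 < v.im → Dt δ (X v) = τ v) ∧
    (∀ u : ℝ, (u : ℂ) ∈ ball (x : ℂ) r → τ u ∈ Sig) ∧
    ∃ κ : ℝ, 0 < κ ∧ deriv τ x = -(κ * I) * (τ x + 1 / 2) := by
  have hr : 0 < x - 1 := by linarith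
  have hY0 : ∀ z : ℂ, 0 < z.im → Dt δ (X z) ≠ 0 := by
    intro z hz h0
    have h5 := (x7_Wd h (v := z) hz).1
    rw [h0] at h5
    simp at h5
  have hSig0 : ∀ τ ∈ Sig, τ ≠ 0 := by
    intro τ hτ h0
    have := hτ.1
    rw [h0] at this
    simp at this
  have hSn : ∀ τ ∈ Sig, Complex.normSq (τ + 1 / 2) = 1 / 4 := by
    intro τ hτ
    rw [Complex.normSq_eq_norm_sq, hτ.2]; norm_num
  obtain ⟨κ, hκ, g, h1, h2, h3, h4⟩ := x7_nd (Y := fun v => 1 / Dt δ (X v))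
    (S := (fun ς : ℂ => 1 / ς) '' Sig) (x := x)
    (r := x - 1) (a := I) (b := 1) Complex.I_ne_zero hr
    (by
      intro v hv
      exact (differentiableWithinAt_const _).div
        (((pre2_Y h).1 v hv.2).mono inter_subset_right) (hY0 v hv.2))
    (fun z _ hz0 => by
      have h5 := (x7_Wd h (v := z) hz0).2.2.2.1
      have e : I * (1 / Dt δ (X z) + 1) = I * (1 + 1 / Dt δ (X z)) := by ring
      rw [e, e8_im_h (hY0 z hz0)]
      refine div_pos ?_ (Complex.normSq_pos.2 (hY0 z hz0))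
      rw [Complex.normSq_eq_norm_sq]
      nlinarith)
    (fun u hu => by
      have h5 := abs_lt.1 hu
      obtain ⟨h6, h7⟩ := h.s3 u (by linarith [h5.1])
      obtain ⟨ς, hς, ht⟩ := lim_arc h.d_pos (x7_ev h u)
        (fun K hK hKV => h.esc K hK hKV u) (h.lim u) h6 h7
      exact ⟨1 / ς, mem_image_of_mem _ hς, tendsto_const_nhds.div ht (hSig0 ς hς)⟩)
    (fun s hs => by
      obtain ⟨ς, hς, rfl⟩ := hs
      have e : I * (1 / ς + 1) = I * (1 + 1 / ς) := by ring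
      show (I * (1 / ς + 1)).im = 0
      rw [e, e8_im_h (hSig0 ς hς), hSn ς hς]
      simp)
  have hball : ball (x : ℂ) (x - 1) ∈ 𝓝 (x : ℂ) := ball_mem_nhds _ hr
  have hgc : ContinuousAt g x := (h1.differentiableAt hball).continuousAt
  obtain ⟨ς, hς, hgx⟩ := h3 x (mem_ball_self hr)
  have hgx' : g x = 1 / ς := hgx.symm
  have hgx0 : g x ≠ 0 := by rw [hgx']; exact one_div_ne_zero (hSig0 ς hς)
  obtain ⟨ρ, hρ, hne⟩ := Metric.eventually_nhds_iff_ball.1 (hgc.eventually_ne hgx0)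
  have hsub : ball (x : ℂ) (min (x - 1) ρ) ⊆ ball (x : ℂ) (x - 1) :=
    ball_subset_ball (min_le_left _ _)
  have hsub' : ball (x : ℂ) (min (x - 1) ρ) ⊆ ball (x : ℂ) ρ :=
    ball_subset_ball (min_le_right _ _)
  refine ⟨min (x - 1) ρ, lt_min hr hρ, fun v => 1 / g v, ?_, ?_, ?_, ?_⟩
  · intro v hv
    exact (differentiableWithinAt_const _).div ((h1 v (hsub hv)).mono hsub) (hne v (hsub' hv))
  · intro v hv hv0
    show Dt δ (X v) = 1 / g v
    have h5 : 1 / Dt δ (X v) = g v := h2 v (hsub hv) hv0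
    rw [← h5, one_div_one_div]
  · intro u hu
    obtain ⟨ς', hς', h5⟩ := h3 u (hsub hu)
    have h6 : g u = 1 / ς' := h5.symm
    show 1 / g u ∈ Sig
    rw [h6, one_div_one_div]
    exact hς'
  · have hτx : 1 / g x = ς := by rw [hgx', one_div_one_div]
    have hre : ς.re < 0 := by
      have h5 := hSn ς hς
      rw [e8_normSq_add_half] at h5
      have h6 : 0 < Complex.normSq ς := Complex.normSq_pos.2 (hSig0 _ hς)
      linarith
    refine ⟨κ * (-(2 * ς.re)), by nlinarith, ?_⟩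
    have h5 : HasDerivAt g (κ / I) x := by
      rw [← h4]; exact (h1.differentiableAt hball).hasDerivAt
    have h6 : HasDerivAt (fun v => 1 / g v) ((0 * g x - 1 * (κ / I)) / g x ^ 2) x :=
      (hasDerivAt_const (x : ℂ) (1 : ℂ)).div h5 hgx0
    show deriv (fun v => 1 / g v) x = -(((κ * (-(2 * ς.re)) : ℝ) : ℂ) * I) * (1 / g x + 1 / 2)
    rw [h6.deriv, hτx]
    have e1 : (0 * g x - 1 * (κ / I)) / g x ^ 2 = I * κ * ς ^ 2 := by
      rw [hgx']
      have := hSig0 ς hς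
      have hI := Complex.I_ne_zero
      field_simp
      rw [Complex.I_sq]
      ring
    have e2 : ς ^ 2 = 2 * (ς.re : ℂ) * (ς + 1 / 2) := by
      have h7 := hSn ς hς
      rw [e8_normSq_add_half, Complex.normSq_apply] at h7
      apply Complex.ext
      · simp [sq, Complex.add_re, Complex.mul_re]
        nlinarith
      · simp [sq, Complex.add_im, Complex.mul_im]
        ring
    rw [e1, e2]
    push_cast
    ring

end Pool.Agent.Choc
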