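import Pool.Agent.Lib.MP_2b3e36_an.Re.X6
import Pool.Agent.Lib.MP_2b3e36_an.Ex.E9

/-!
X8. Local analysis on the slit. Compare E9 (`pre_slit`), lemma by lemma.

`v₁ < x < v₂`. On a small upper half ball `X/‖X‖` is near `1`, `Re X > 0`, `X ≠ 0`; `h = Log X`,
`Im h = arg X → 0` at all real points near `x` (`Θ = 0` there): `reflect` gives `H`, real on the reals.
`Re h = log ‖X‖ < 0` above, so `H u ≤ 0`, and `exp (H u) ≥ 1/3` (`lim_slit`). `H u < 0`: if `H x = 0` write
`H v = a (v - x)^k + ...`, `a` real `≠ 0`: the real part takes positive values in the upper half ball,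
contradicting `Re H < 0` above. So `X` extends by `Z = exp H`, `Z u ∈ [1/3, 1)` on the reals, and
`τ = Dt δ ∘ Z`: on the reals `Re τ = -1`, `Im τ = δ (1 + Z)/(1 - Z) ≥ 2 δ` (`Dt` is holomorphic off `1`,
`Dt' ≠ 0`: `Dt' z = 2 i δ/(1-z)^2`).
Critical points: as in E9: let `deriv τ x = 0`; then `H' x = 0`, `H v = H x + a (v - x)^k + ...`, `k ≥ 2`, `a` real
`≠ 0`. The segment `[1/3, 1)` is not in `V2 δ`: if `v ∈ UH` and `H v` is real then `exp (H v) < 1/3`. `k ≥ 3` gives
real values on both sides of `H x`, contradiction with `exp (H x) ≥ 1/3`; `k = 2`: real values on the side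
`- a` of `H x` arbitrarily close to `H x`; so `a > 0` and `exp (H x) ≤ 1/3`, so `Z x = 1/3`,
`τ x = -1 + 2 δ i`, and `τ'' x = Dt'(Z x) Z'' x ≠ 0` since `Z' x = 0`, `Z'' x = Z x H'' x = 2 a Z x ≠ 0`.
-/

set_option autoImplicit false

open Complex Set Filter Topology Metric

namespace Pool.Agent.Choc

/-- Critical points at the boundary of a slit. -/
lemma x8_crit {x y : ℝ} {H : ℂ → ℂ} (hHa : AnalyticAt ℂ H x)
    (hHreal : ∀ᶠ u : ℝ in 𝓝 x, (H u).im = 0) (hHx : (H x).im = 0)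
    (hP : ∀ᶠ v in 𝓝[UH] (x : ℂ), (H v).im = 0 → (H v).re < -y) (hlow : -y ≤ (H x).re)
    (hder : deriv H x = 0) : (H x).re = -y ∧ deriv (deriv H) x ≠ 0 := by
  have hp := Real.pi_pos
  have hFa : AnalyticAt ℂ (fun v => H v - H x) x := hHa.sub analyticAt_const
  have hFreal : ∀ᶠ u : ℝ in 𝓝 x, (H u - H x).im = 0 := by
    filter_upwards [hHreal] with u hu
    rw [Complex.sub_im, hHx, hu, sub_zero]
  have hne : ¬ ∀ᶠ v in 𝓝 (x : ℂ), H v - H x = 0 := by
    intro hall
    have hnb := e8_neBot x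
    -- H is constant near x, so -y > H x at a point above
    have h2 : ∀ᶠ v in 𝓝[UH] (x : ℂ), False := by
      filter_upwards [hP, nhdsWithin_le_nhds hall] with v h2 h3
      have h4 : H v = H x := sub_eq_zero.1 h3
      rw [h4] at h2
      have := h2 hHx
      linarith [hlow]
    exact h2.exists.elim fun _ h => h
  obtain ⟨k, σ, ζ, κ, hk, hσ, hζa, hζ0, hκ, hζd, hF, hζr⟩ := e8_nf hFa (by simp) hne hFreal
  have hζr' : ∀ᶠ u : ℝ in 𝓝 x, (ζ u).im = 0 := hζr.mono fun u hu => hu.1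
  have hκ0 : (κ : ℂ) ≠ 0 := by exact_mod_cast hκ.ne'
  have hk1 : k ≠ 1 := by
    intro hk1
    have hF' : (fun v => H v - H x) =ᶠ[𝓝 (x : ℂ)] fun v => (σ : ℂ) * ζ v := by
      filter_upwards [hF] with v hv
      rw [hv, hk1, pow_one]
    have h2 := hF'.deriv_eq
    rw [deriv_sub_const, deriv_const_mul_field, hζd, hder] at h2
    rcases mul_eq_zero.1 h2.symm with h3 | h3
    · rcases hσ with h4 | h4 <;> rw [h4] at h3 <;> simp at h3
    · exact hκ0 h3
  have hk2 : 2 ≤ k := by omega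
  have hk2' : (2 : ℝ) ≤ k := by exact_mod_cast hk2
  have hk0 : (0 : ℝ) < k := by linarith
  have hPF := hP.and (nhdsWithin_le_nhds hF)
  have key : ∀ (φ s : ℝ), 0 < φ → φ < Real.pi → exp (((k * φ : ℝ) : ℂ) * I) = (s : ℂ) →
      ∀ᶠ ε : ℝ in 𝓝[>] 0, (H x).re + σ * (ε ^ k * s) < -y := by
    intro φ s h2 h3 h4
    filter_upwards [e8_dir hζa hζ0 hζr' hκ hζd hPF h2 h3] with ε hε
    obtain ⟨v, hv, ⟨hPv, hFv⟩, hζv⟩ := hε
    have e : (k : ℂ) * (φ * I) = ((k * φ : ℝ) : ℂ) * I := by push_cast; ring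
    rw [hζv, mul_pow, ← Complex.exp_nat_mul, e, h4] at hFv
    have e2 : H v = H x + ((σ * (ε ^ k * s) : ℝ) : ℂ) := by
      rw [sub_eq_iff_eq_add] at hFv
      rw [hFv]; push_cast; ring
    rw [e2] at hPv
    have h5 := hPv (by rw [Complex.add_im, hHx, Complex.ofReal_im, add_zero])
    rwa [Complex.add_re, Complex.ofReal_re] at h5
  have hpos : ∀ᶠ ε : ℝ in 𝓝[>] 0, 0 < ε ^ k := by
    filter_upwards [self_mem_nhdsWithin] with ε hε
    exact pow_pos hε k
  have hbad : ¬ ∀ᶠ ε : ℝ in 𝓝[>] 0, (H x).re + ε ^ k < -y := by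
    intro hall
    obtain ⟨ε, h2, h3⟩ := (hall.and hpos).exists
    linarith [hlow]
  have hσ1 : σ = 1 := by
    rcases hσ with h2 | h2
    · exact h2
    · exfalso
      have := key (Real.pi / k) (-1) (by positivity) (by
        rw [div_lt_iff₀ hk0]; nlinarith) (by
          have e : (k : ℝ) * (Real.pi / k) = Real.pi := by field_simp
          rw [e, Complex.exp_pi_mul_I]; push_cast; ring)
      apply hbad
      filter_upwards [this] with ε hε
      rw [h2] at hε
      linarith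
  have hk22 : k = 2 := by
    by_contra hk3
    have hk3' : 3 ≤ k := by omega
    have hk3'' : (3 : ℝ) ≤ k := by exact_mod_cast hk3'
    have := key (2 * Real.pi / k) 1 (by positivity) (by
      rw [div_lt_iff₀ hk0]; nlinarith) (by
        have e : (k : ℝ) * (2 * Real.pi / k) = 2 * Real.pi := by field_simp
        rw [e]; push_cast; exact Complex.exp_two_pi_mul_I)
    apply hbad
    filter_upwards [this] with ε hε
    rw [hσ1] at hε
    linarith
  have hHxy : (H x).re = -y := by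
    have h2 := key (Real.pi / 2) (-1) (by positivity) (by linarith) (by
      rw [hk22]
      have e : ((2 : ℕ) : ℝ) * (Real.pi / 2) = Real.pi := by push_cast; ring
      rw [e, Complex.exp_pi_mul_I]; push_cast; ring)
    have h3 : Tendsto (fun ε : ℝ => (H x).re + σ * (ε ^ k * (-1))) (𝓝[>] 0)
        (𝓝 ((H x).re + σ * (0 ^ k * (-1)))) := by
      have : ContinuousAt (fun ε : ℝ => (H x).re + σ * (ε ^ k * (-1))) 0 := by fun_prop
      exact this.tendsto.mono_left nhdsWithin_le_nhds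
    have h4 := le_of_tendsto h3 (h2.mono fun ε hε => hε.le)
    rw [zero_pow (by omega)] at h4
    have := hlow
    linarith
  refine ⟨hHxy, ?_⟩
  have hF' : (fun v => H v - H x) =ᶠ[𝓝 (x : ℂ)] fun v => ζ v ^ 2 := by
    filter_upwards [hF] with v hv
    rw [hv, hσ1, hk22]; simp
  have hF2 : deriv H =ᶠ[𝓝 (x : ℂ)] fun v => 2 * ζ v * deriv ζ v := by
    have h3 := hF'.deriv
    have h4 : ∀ᶠ v in 𝓝 (x : ℂ), AnalyticAt ℂ ζ v := hζa.eventually_analyticAt
    filter_upwards [h3, h4] with v h5 h6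
    rw [deriv_sub_const] at h5
    rw [h5]
    have h7 : HasDerivAt (fun v => ζ v ^ 2) (((2 : ℕ) : ℂ) * ζ v ^ (2 - 1) * deriv ζ v) v :=
      (h6.differentiableAt.hasDerivAt).pow 2
    rw [h7.deriv]
    push_cast
    ring
  rw [hF2.deriv_eq]
  have h8 : HasDerivAt (fun v => 2 * ζ v * deriv ζ v)
      (2 * deriv ζ x * deriv ζ x + 2 * ζ x * deriv (deriv ζ) x) x :=
    (hζa.differentiableAt.hasDerivAt.const_mul 2).mul hζa.deriv.differentiableAt.hasDerivAt
  rw [h8.deriv, hζ0, hζd]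
  simp only [mul_zero, zero_mul, add_zero]
  exact mul_ne_zero (mul_ne_zero two_ne_zero hκ0) hκ0

lemma x8_Dt_deriv {δ : ℝ} {z : ℂ} (hz : 1 - z ≠ 0) :
    HasDerivAt (Dt δ) (δ * I * (2 / (1 - z) ^ 2)) z := by
  have h1 : HasDerivAt (fun z : ℂ => (1 + z) / (1 - z))
      ((1 * (1 - z) - (1 + z) * (-1)) / (1 - z) ^ 2) z :=
    ((hasDerivAt_id z).const_add 1).div ((hasDerivAt_id z).const_sub 1) hz
  have h2 : HasDerivAt (Dt δ) (δ * I * ((1 * (1 - z) - (1 + z) * (-1)) / (1 - z) ^ 2)) z :=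
    (h1.const_mul (δ * I : ℂ)).const_add (-1)
  convert h2 using 1
  ring

theorem pre2_slit {δ : ℝ} {X : ℂ → ℂ} {v₁ v₂ : ℝ} {Θ : ℝ → ℝ} (h : Pre2 δ X v₁ v₂ Θ) (x : ℝ)
    (h1 : v₁ < x) (h2 : x < v₂) :
    ∃ r > 0, ∃ τ : ℂ → ℂ, DifferentiableOn ℂ τ (ball (x : ℂ) r) ∧
    (∀ v ∈ ball (x : ℂ) r, 0 < v.im → Dt δ (X v) = τ v) ∧
    (∀ u : ℝ, (u : ℂ) ∈ ball (x : ℂ) r → (τ u).re = -1 ∧ 2 * δ ≤ (τ u).im) ∧
    (deriv τ x = 0 → deriv (deriv τ) x ≠ 0 ∧ τ x = -1 + 2 * δ * I) := by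
  have hp := Real.pi_pos
  have hδ := h.d_pos
  have hXV : ∀ v ∈ UH, X v ∈ V2 δ := fun v hv => by rw [← h.img]; exact mem_image_of_mem _ hv
  have hlimΘ : ∀ u : ℝ, v₁ ≤ u → u ≤ v₂ → Tendsto (fun v => X v / (‖X v‖ : ℂ)) (𝓝[UH] (u : ℂ))
      (𝓝 (exp ((0 : ℝ) * I))) := by
    intro u hu hu'
    have := h.lim u
    rwa [h.s1 u hu hu'] at this
  obtain ⟨r₁, hr₁, -, hd₁, hv₁⟩ := e8_lift (x := x) (θ₀ := 0) one_pos
    (h.diff.mono inter_subset_right) (fun v hv => (hXV v hv.2).1) (hlimΘ x h1.le h2.le) one_pos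
  set r := min r₁ (min (x - v₁) (v₂ - x)) with hr
  have hr0 : 0 < r := lt_min hr₁ (lt_min (by linarith) (by linarith))
  have hsub : ball (x : ℂ) r ⊆ ball (x : ℂ) r₁ := ball_subset_ball (min_le_left _ _)
  set T : ℂ → ℂ := fun v => Real.pi * I * e4_lift 0 (X v) with hT
  have hTre : ∀ v, (T v).re = -(Real.pi * (e4_lift 0 (X v)).im) := by
    intro v
    show ((Real.pi : ℂ) * I * e4_lift 0 (X v)).re = _
    rw [mul_assoc, Complex.re_ofReal_mul, Complex.I_mul_re]; ring
  have hTim : ∀ v, (T v).im = Real.pi * (e4_lift 0 (X v)).re := by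
    intro v
    show ((Real.pi : ℂ) * I * e4_lift 0 (X v)).im = _
    rw [mul_assoc, Complex.im_ofReal_mul, Complex.I_mul_im]
  have hTX : ∀ v ∈ ball (x : ℂ) r, 0 < v.im → exp (T v) = X v := by
    intro v hv hv0
    exact (hv₁ v (hsub hv) hv0).2.1
  have hu1 : ∀ u : ℝ, |u - x| < r → v₁ ≤ u ∧ u ≤ v₂ := by
    intro u hu
    have h3 : |u - x| < min (x - v₁) (v₂ - x) := lt_of_lt_of_le hu (min_le_right _ _)
    have h4 : |u - x| < x - v₁ := lt_of_lt_of_le h3 (min_le_left _ _)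
    have h5 : |u - x| < v₂ - x := lt_of_lt_of_le h3 (min_le_right _ _)
    rw [abs_lt] at h4 h5
    constructor <;> linarith
  have himT : ∀ u : ℝ, |u - x| < r → Tendsto (fun v => (T v).im) (𝓝[UH] (u : ℂ)) (𝓝 0) := by
    intro u hu
    obtain ⟨h3, h4⟩ := hu1 u hu
    have h5 := e4_lift_tendsto (θ₀ := 0) (hlimΘ u h3 h4) (by simpa using hp)
    have h6 := h5.const_mul Real.pi
    rw [zero_div, mul_zero] at h6
    exact h6.congr fun v => (hTim v).symm
  obtain ⟨H, hHd, hHe, hHr⟩ := reflect (x := x) hr0 (h := T)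
    (by
      intro v hv
      have hTd : DifferentiableWithinAt ℂ (fun v => e4_lift 0 (X v)) (ball (x : ℂ) r ∩ UH) v :=
        (hd₁.mono (inter_subset_inter_left _ hsub)) v hv
      exact hTd.const_mul (Real.pi * I : ℂ))
    himT
  have hmem : ∀ u : ℝ, |u - x| < r → ball (x : ℂ) r ∈ 𝓝 (u : ℂ) := fun u hu =>
    isOpen_ball.mem_nhds (e8_mem_ball.2 hu)
  have hHa : ∀ u : ℝ, |u - x| < r → AnalyticAt ℂ H u := fun u hu => hHd.analyticAt (hmem u hu)
  have hcast : ∀ u : ℝ, |u - x| < r → ∀ᶠ w : ℝ in 𝓝 u, |w - x| < r := by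
    intro u hu
    have : ContinuousAt (fun w : ℝ => |w - x|) u := by fun_prop
    exact this.eventually_lt_const hu
  have hHreal : ∀ u : ℝ, |u - x| < r → ∀ᶠ w : ℝ in 𝓝 u, (H w).im = 0 := fun u hu =>
    (hcast u hu).mono fun w hw => hHr w hw
  have hHneg : ∀ z ∈ ball (x : ℂ) r, 0 < z.im → (H z).re < 0 := by
    intro z hz hz0
    rw [hHe z hz hz0, hTre]
    have := (hv₁ z (hsub hz) hz0).2.2.1
    nlinarith
  have hHneg' : ∀ u : ℝ, |u - x| < r → ∀ᶠ v in 𝓝[UH] (u : ℂ), (H v).re < 0 := by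
    intro u hu
    filter_upwards [self_mem_nhdsWithin, nhdsWithin_le_nhds (hmem u hu)] with v h2 h3
    exact hHneg v h3 h2
  have hHlim : ∀ u : ℝ, |u - x| < r → Tendsto H (𝓝[UH] (u : ℂ)) (𝓝 (H u)) := fun u hu =>
    (hHa u hu).continuousAt.tendsto.mono_left nhdsWithin_le_nhds
  have hx0 : |x - x| < r := by simpa using hr0
  have hre0 : (H x).re < 0 := by
    have hnb := e8_neBot x
    have h2 : (H x).re ≤ 0 := by
      refine le_of_tendsto ((Complex.continuous_re.tendsto _).comp (hHlim x hx0)) ?_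
      exact (hHneg' x hx0).mono fun v hv => hv.le
    rcases lt_or_eq_of_le h2 with h3 | h3
    · exact h3
    · exfalso
      have := e9_ne_zero (hHa x hx0) (hHreal x hx0) (hHneg' x hx0)
      exact this (Complex.ext h3 (hHr x hx0))
  have hrey : ∀ u : ℝ, |u - x| < r → 1 / 3 ≤ Real.exp (H u).re := by
    intro u hu
    have hnb := e8_neBot u
    obtain ⟨hu2, hu3⟩ := hu1 u hu
    have hl : Tendsto (fun v => X v / (‖X v‖ : ℂ)) (𝓝[UH] (u : ℂ)) (𝓝 1) := by
      have := hlimΘ u hu2 hu3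
      simpa using this
    have h2 := lim_slit hδ (eventually_nhdsWithin_of_forall fun _ hv => hXV _ hv)
      (fun K hK hKV => h.esc K hK hKV u) hl
    have h3 : Tendsto (fun v => Real.exp (H v).re) (𝓝[UH] (u : ℂ)) (𝓝 (Real.exp (H u).re)) := by
      have : Tendsto (fun v => (H v).re) (𝓝[UH] (u : ℂ)) (𝓝 (H u).re) :=
        (Complex.continuous_re.tendsto _).comp (hHlim u hu)
      exact (Real.continuous_exp.tendsto _).comp this
    refine le_of_forall_pos_le_add fun ε hε => ?_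
    have h4 : 1 / 3 - ε ≤ Real.exp (H u).re := by
      refine ge_of_tendsto h3 ?_
      filter_upwards [h2 ε hε, self_mem_nhdsWithin, nhdsWithin_le_nhds (hmem u hu)] with v h5 h6 h7
      have h9 : ‖X v‖ = Real.exp (H v).re := by
        rw [← hTX v h7 h6, Complex.norm_exp, hHe v h7 h6]
      rw [← h9]; exact h5
    linarith
  -- shrink the ball
  have hsh : ∀ᶠ v in 𝓝 (x : ℂ), (H v).re < 0 := by
    have : ContinuousAt (fun v => (H v).re) (x : ℂ) :=
      Complex.continuous_re.continuousAt.comp (hHa x hx0).continuousAt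
    exact this.eventually_lt_const hre0
  obtain ⟨r₃, hr₃, hsh⟩ := Metric.eventually_nhds_iff_ball.1 hsh
  set r' := min r r₃ with hr'
  have hr'0 : 0 < r' := lt_min hr0 hr₃
  have hsub1 : ball (x : ℂ) r' ⊆ ball (x : ℂ) r := ball_subset_ball (min_le_left _ _)
  have hsub3 : ball (x : ℂ) r' ⊆ ball (x : ℂ) r₃ := ball_subset_ball (min_le_right _ _)
  have hne1 : ∀ v ∈ ball (x : ℂ) r', 1 - exp (H v) ≠ 0 := by
    intro v hv h0
    have h3 : exp (H v) = 1 := (sub_eq_zero.1 h0).symm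
    have h4 := congrArg norm h3
    rw [Complex.norm_exp, norm_one, Real.exp_eq_one_iff] at h4
    have := hsh v (hsub3 hv)
    linarith
  set τ : ℂ → ℂ := fun v => Dt δ (exp (H v)) with hτ
  have hτder : ∀ v ∈ ball (x : ℂ) r', HasDerivAt τ
      (δ * I * (2 / (1 - exp (H v)) ^ 2) * (exp (H v) * deriv H v)) v := by
    intro v hv
    have h3 : HasDerivAt H (deriv H v) v :=
      (hHd.differentiableAt (isOpen_ball.mem_nhds (hsub1 hv))).hasDerivAt
    have h4 := x8_Dt_deriv (δ := δ) (hne1 v hv)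
    have h5 : HasDerivAt (Dt δ ∘ fun v => exp (H v))
        (δ * I * (2 / (1 - exp (H v)) ^ 2) * (exp (H v) * deriv H v)) v := h4.comp v h3.cexp
    exact h5
  refine ⟨r', hr'0, τ, fun v hv => (hτder v hv).differentiableAt.differentiableWithinAt, ?_, ?_, ?_⟩
  · intro v hv hv0
    show Dt δ (X v) = Dt δ (exp (H v))
    rw [hHe v (hsub1 hv) hv0, hTX v (hsub1 hv) hv0]
  · intro u hu
    have hu' := e8_mem_ball.1 (hsub1 hu)
    have h3 : (H u).im = 0 := hHr u hu'
    have h4 : H u = ((H u).re : ℂ) := by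
      apply Complex.ext
      · simp
      · simp [h3]
    have h5 : (H u).re < 0 := hsh u (hsub3 hu)
    have h6 := hrey u hu'
    obtain ⟨Z, hZ⟩ : ∃ Z : ℝ, Z = Real.exp (H u).re := ⟨_, rfl⟩
    rw [← hZ] at h6
    have h7 : Z < 1 := by rw [hZ, Real.exp_lt_one_iff]; exact h5
    have h8 : exp (H u) = (Z : ℂ) := by
      rw [hZ, Complex.ofReal_exp]
      exact congrArg exp h4
    have h9 : τ u = -1 + ((δ * ((1 + Z) / (1 - Z)) : ℝ) : ℂ) * I := by
      show Dt δ (exp (H u)) = _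
      rw [h8, Dt]
      push_cast
      ring
    rw [h9]
    constructor
    · rw [Complex.add_re, Complex.re_ofReal_mul, Complex.I_re, mul_zero, add_zero]
      simp
    · have h10 : (2 : ℝ) ≤ (1 + Z) / (1 - Z) := by
        rw [le_div_iff₀ (by linarith)]; linarith
      have h11 : (-1 + ((δ * ((1 + Z) / (1 - Z)) : ℝ) : ℂ) * I).im = δ * ((1 + Z) / (1 - Z)) := by
        rw [Complex.add_im, Complex.im_ofReal_mul, Complex.I_im, mul_one]
        simp only [Complex.neg_im, Complex.one_im, neg_zero, zero_add]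
      rw [h11]
      nlinarith
  · intro hder
    have hmem' : ball (x : ℂ) r' ∈ 𝓝 (x : ℂ) := ball_mem_nhds _ hr'0
    have hxm : (x : ℂ) ∈ ball (x : ℂ) r' := mem_ball_self hr'0
    have hδc : (δ : ℂ) ≠ 0 := by exact_mod_cast hδ.ne'
    have hG : ∀ v ∈ ball (x : ℂ) r', (δ : ℂ) * I * (2 / (1 - exp (H v)) ^ 2) * exp (H v) ≠ 0 := by
      intro v hv
      exact mul_ne_zero (mul_ne_zero (mul_ne_zero hδc Complex.I_ne_zero)
        (div_ne_zero two_ne_zero (pow_ne_zero _ (hne1 v hv)))) (Complex.exp_ne_zero _)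
    have hderH : deriv H x = 0 := by
      rw [(hτder x hxm).deriv, ← mul_assoc] at hder
      rcases mul_eq_zero.1 hder with h3 | h3
      · exact absurd h3 (hG x hxm)
      · exact h3
    have hP : ∀ᶠ v in 𝓝[UH] (x : ℂ), (H v).im = 0 → (H v).re < -Real.log 3 := by
      filter_upwards [self_mem_nhdsWithin, nhdsWithin_le_nhds (hmem x hx0)] with v h2 h3 h4
      have h5 := (hXV v h2).2.2.2.2
      have h6 : X v = exp (H v) := by rw [hHe v h3 h2, hTX v h3 h2]
      rw [h6, Complex.exp_im, Complex.exp_re, h4, Real.sin_zero, Real.cos_zero, mul_zero,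
        mul_one] at h5
      push Not at h5
      have h7 := h5 rfl
      rw [← Real.log_inv, Real.lt_log_iff_exp_lt (by norm_num)]
      linarith
    have hlow : -Real.log 3 ≤ (H x).re := by
      have := hrey x hx0
      rw [← Real.log_inv]
      have h3 := Real.log_le_log (by norm_num) this
      rw [Real.log_exp] at h3
      rwa [one_div] at h3
    obtain ⟨h3, h4⟩ := x8_crit (hHa x hx0) (hHreal x hx0) (hHr x hx0) hP hlow hderH
    have hexp : exp (H x) = 1 / 3 := by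
      have h5 : H x = ((-Real.log 3 : ℝ) : ℂ) := by
        apply Complex.ext
        · rw [Complex.ofReal_re]; exact h3
        · rw [Complex.ofReal_im]; exact hHr x hx0
      rw [h5, ← Complex.ofReal_exp, Real.exp_neg, Real.exp_log (by norm_num)]
      push_cast
      norm_num
    refine ⟨?_, ?_⟩
    · have h5 : deriv τ =ᶠ[𝓝 (x : ℂ)] fun v =>
          (δ * I * (2 / (1 - exp (H v)) ^ 2) * exp (H v)) * deriv H v := by
        filter_upwards [hmem'] with v hv
        rw [(hτder v hv).deriv, ← mul_assoc]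
      have hGd : DifferentiableAt ℂ (fun v => (δ : ℂ) * I * (2 / (1 - exp (H v)) ^ 2) * exp (H v))
          (x : ℂ) := by
        have h6 : DifferentiableAt ℂ (fun v => exp (H v)) (x : ℂ) :=
          (hHa x hx0).differentiableAt.cexp
        exact (((differentiableAt_const _).div ((h6.const_sub 1).pow 2)
          (pow_ne_zero _ (hne1 x hxm))).const_mul _).mul h6
      have h7 := hGd.hasDerivAt.mul (hHa x hx0).deriv.differentiableAt.hasDerivAt
      rw [h5.deriv_eq]
      have h8 : deriv (fun v => (δ * I * (2 / (1 - exp (H v)) ^ 2) * exp (H v)) * deriv H v)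
          (x : ℂ) = (δ * I * (2 / (1 - exp (H x)) ^ 2) * exp (H x)) * deriv (deriv H) x := by
        rw [show (fun v => (δ * I * (2 / (1 - exp (H v)) ^ 2) * exp (H v)) * deriv H v) =
          ((fun v => (δ : ℂ) * I * (2 / (1 - exp (H v)) ^ 2) * exp (H v)) * deriv H) from rfl,
          h7.deriv, hderH, mul_zero, zero_add]
      rw [h8]
      exact mul_ne_zero (hG x hxm) h4
    · show Dt δ (exp (H x)) = _
      rw [hexp, Dt]
      norm_num
      ring

end Pool.Agent.Choc
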