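import Pool.Agent.Lib.MP_2b3e36_an.Re.X7
import Pool.Agent.Lib.MP_2b3e36_an.Re.X8

/-!
X9. Local analysis at `v₁`, `v₂` (mapped to `i ∞`).

Let `Y = Dt δ ∘ X : UH → Wd (2 δ)`.
`cusp2`: `Q v = nome (Y v + 2)`. `‖Q‖ < 1`. At real `x < v₂` near `v₂`: `Y → τ x` with `Re τ x = -1`
(`pre2_slit`), so `Q →` a negative real number; at real `x > v₂`: `Re = -2` (`pre2_side2`), `Q →` a positive real number.
So `Im Q → 0` at all real `x ≠ v₂` near `v₂` and `|Im Q| ≤ 1`: `reflect_except` gives the extension, real on the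
reals. `Q v₂ = 0`: as real `x → v₂+`: `Θ x → 0+`, `exp (i Θ x) → 1`, by `lim_side2` the limit `ς` of `Y` at `x` has
`Dz ς/‖Dz ς‖ = exp (iΘ x)`, so `Im ς → ∞` (`height_side`), `Q x = exp (- pi Im ς) → 0`. So `Q → 0` at `v₂` along `UH`,
i.e. `Im Y → ∞`. On a small upper half ball `Im Y > 2 δ`, so `Re Y ≠ -1` there (`Wd`), and by connectedness
`Re Y < -1` throughout or `Re Y > -1` throughout; near a real point `x > v₂` `Re Y` is near `-2`. So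
`-2 < Re Y < -1`, `Im Q = exp (- pi Im Y) sin (pi (Re Y + 2)) > 0`. `deriv_pos_of_upper`: `deriv Q v₂ > 0`.
`T = Y = log Q/(pi i) - 2`: `log Q = pi i (Y + 2)` since `pi Re (Y+2) ∈ (0, pi)` is the principal argument.
`cusp1`: `Q v = nome (Y v + 1)`; at `x < v₁` (`pre2_side0`, `Re Y = 0`) `Q →` negative; at `x > v₁` (slit, `Re Y = -1`)
`Q →` positive; `Q v₁ = 0` from `x → v₁-` and `lim_side0`, `height_side`; on a small upper half ball
`-1 < Re Y < 0`; `Im Q > 0`; `Y = log Q/(pi i) - 1`.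
-/

set_option autoImplicit false

open Complex Set Filter Topology Metric

namespace Pool.Agent.Choc

lemma x9_nd : Differentiable ℂ nome := by
  intro z
  unfold nome
  fun_prop

lemma x9_nome_im {ς : ℂ} {m : ℝ} {n : ℤ} (h : ς.re = n - m) : (nome (ς + m)).im = 0 := by
  rw [e4_nome_re]
  have e : (ς + (m : ℂ)).re = (n : ℝ) := by
    rw [Complex.add_re, Complex.ofReal_re, h]; ring
  rw [e]
  have e2 : exp ((Real.pi * (n : ℝ) : ℝ) * I) = ((Real.cos (Real.pi * n) : ℝ) : ℂ) := by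
    rw [Complex.exp_mul_I, ← Complex.ofReal_cos, ← Complex.ofReal_sin, mul_comm Real.pi,
      Real.sin_int_mul_pi]
    simp
  rw [e2, ← Complex.ofReal_mul, Complex.ofReal_im]

/-- The common part: a real point mapped to `i ∞`. -/
lemma x9_cusp {Y : ℂ → ℂ} {x r₀ M₀ m : ℝ} {l : Filter ℝ} [l.NeBot] (hr₀ : 0 < r₀)
    (hd : DifferentiableOn ℂ Y UH) (him : ∀ v ∈ UH, 0 < (Y v).im)
    (hb : ∀ u : ℝ, |u - x| < r₀ → u ≠ x → ∃ ς : ℂ, (nome (ς + m)).im = 0 ∧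
      Tendsto Y (𝓝[UH] (u : ℂ)) (𝓝 ς))
    (hl : l ≤ 𝓝 x)
    (hh : ∀ M : ℝ, ∀ᶠ u : ℝ in l, ∃ ς : ℂ, Tendsto Y (𝓝[UH] (u : ℂ)) (𝓝 ς) ∧ M < ς.im)
    (hs : ∀ ρ : ℝ, 0 < ρ → ρ ≤ r₀ → (∀ v ∈ ball (x : ℂ) ρ, 0 < v.im → M₀ < (Y v).im) →
      ∀ v ∈ ball (x : ℂ) ρ, 0 < v.im → -m < (Y v).re ∧ (Y v).re < 1 - m) :
    CuspAt Y x m := by
  have hp := Real.pi_pos
  obtain ⟨Q, hQd, hQe, hQr⟩ := reflect_except (x := x) (M := 1) hr₀
    (h := fun v => nome (Y v + m))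
    (by
      intro v hv
      have h1 : DifferentiableWithinAt ℂ (fun v => Y v + (m : ℂ)) (ball (x : ℂ) r₀ ∩ UH) v :=
        ((hd.mono inter_subset_right) v hv).add_const _
      exact DifferentiableAt.comp_differentiableWithinAt (g := nome) v (x9_nd (Y v + m)) h1)
    (fun z _ hz0 => by
      refine (Complex.abs_im_le_norm _).trans ?_
      rw [e4_norm_nome, Real.exp_le_one_iff, Complex.add_im, Complex.ofReal_im, add_zero]
      have := him z hz0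
      nlinarith)
    (fun u hu hu0 => by
      obtain ⟨ς, h1, h2⟩ := hb u hu hu0
      have h3 : Tendsto (fun v => nome (Y v + m)) (𝓝[UH] (u : ℂ)) (𝓝 (nome (ς + m))) :=
        (x9_nd.continuous.tendsto _).comp (h2.add_const _)
      have h4 := (Complex.continuous_im.tendsto _).comp h3
      rw [h1] at h4
      exact h4)
  have hnorm : ∀ v ∈ ball (x : ℂ) r₀, 0 < v.im → ‖Q v‖ = Real.exp (-Real.pi * (Y v).im) := by
    intro v hv hv0
    rw [hQe v hv hv0, e4_norm_nome, Complex.add_im, Complex.ofReal_im, add_zero]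
  have hmem : ball (x : ℂ) r₀ ∈ 𝓝 (x : ℂ) := ball_mem_nhds _ hr₀
  have hQc : ContinuousAt Q x := (hQd.differentiableAt hmem).continuousAt
  have hofr : Tendsto (fun u : ℝ => (u : ℂ)) l (𝓝 (x : ℂ)) :=
    (Complex.continuous_ofReal.tendsto x).mono_left hl
  have hnear : ∀ᶠ u : ℝ in l, |u - x| < r₀ := by
    have h1 : ∀ᶠ u : ℝ in 𝓝 x, |u - x| < r₀ := by
      filter_upwards [ball_mem_nhds x hr₀] with u hu
      rwa [mem_ball_iff_norm, Real.norm_eq_abs] at hu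
    exact hl h1
  have hQ0 : Q x = 0 := by
    rw [← norm_le_zero_iff]
    refine le_of_forall_pos_le_add fun ε hε => ?_
    have h1 : Tendsto (fun u : ℝ => ‖Q u‖) l (𝓝 ‖Q x‖) := (hQc.tendsto.comp hofr).norm
    refine le_of_tendsto h1 ?_
    filter_upwards [hh (-Real.log ε / Real.pi), hnear] with u hu hu'
    obtain ⟨ς, h2, h3⟩ := hu
    have h4 : Tendsto (fun v => nome (Y v + m)) (𝓝[UH] (u : ℂ)) (𝓝 (nome (ς + m))) :=
      (x9_nd.continuous.tendsto _).comp (h2.add_const _)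
    rw [e8_value hQd hu' hQe h4, e4_norm_nome, Complex.add_im, Complex.ofReal_im, add_zero,
      zero_add]
    have h5 : -Real.pi * ς.im < Real.log ε := by
      rw [div_lt_iff₀ hp] at h3
      linarith
    calc Real.exp (-Real.pi * ς.im) ≤ Real.exp (Real.log ε) := Real.exp_le_exp.2 h5.le
      _ = ε := Real.exp_log hε
  -- a small ball
  have hsm : ∀ᶠ v in 𝓝 (x : ℂ), ‖Q v‖ < Real.exp (-Real.pi * M₀) := by
    have h1 : Tendsto (fun v => ‖Q v‖) (𝓝 (x : ℂ)) (𝓝 ‖Q x‖) := hQc.tendsto.norm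
    rw [hQ0, norm_zero] at h1
    exact h1.eventually_lt_const (Real.exp_pos _)
  obtain ⟨r₁, hr₁, hsm⟩ := Metric.eventually_nhds_iff_ball.1 hsm
  set ρ := min r₀ r₁ with hρ
  have hρ0 : 0 < ρ := lt_min hr₀ hr₁
  have hsub0 : ball (x : ℂ) ρ ⊆ ball (x : ℂ) r₀ := ball_subset_ball (min_le_left _ _)
  have hsub1 : ball (x : ℂ) ρ ⊆ ball (x : ℂ) r₁ := ball_subset_ball (min_le_right _ _)
  have hhigh : ∀ v ∈ ball (x : ℂ) ρ, 0 < v.im → M₀ < (Y v).im := by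
    intro v hv hv0
    have h1 := hsm v (hsub1 hv)
    rw [hnorm v (hsub0 hv) hv0, Real.exp_lt_exp] at h1
    nlinarith
  have hstrip := hs ρ hρ0 (min_le_left _ _) hhigh
  have hQup : ∀ z ∈ ball (x : ℂ) ρ, 0 < z.im → 0 < (Q z).im := by
    intro z hz hz0
    rw [hQe z (hsub0 hz) hz0, e4_nome_re, Complex.im_ofReal_mul,
      Complex.exp_ofReal_mul_I_im, Complex.add_re, Complex.ofReal_re]
    obtain ⟨h1, h2⟩ := hstrip z hz hz0
    refine mul_pos (Real.exp_pos _) (Real.sin_pos_of_pos_of_lt_pi ?_ ?_)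
    · exact mul_pos hp (by linarith)
    · nlinarith
  obtain ⟨κ, hκ, hκd⟩ := deriv_pos_of_upper hρ0 (hQd.mono hsub0)
    (fun u hu => hQr u (lt_of_lt_of_le hu (min_le_left _ _))) hQup
  refine ⟨ρ, hρ0, Q, hQd.mono hsub0, hQ0, ⟨κ, hκ, hκd⟩,
    fun u hu => hQr u (lt_of_lt_of_le hu (min_le_left _ _)), fun v hv hv0 => ⟨hQup v hv hv0, ?_, ?_⟩⟩
  · rw [hnorm v (hsub0 hv) hv0, Real.exp_lt_one_iff]
    have := him v hv0
    nlinarith
  · obtain ⟨h1, h2⟩ := hstrip v hv hv0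
    have e1 : (Real.pi * I * (Y v + m)).im = Real.pi * ((Y v).re + m) := by
      rw [mul_assoc, Complex.im_ofReal_mul, Complex.I_mul_im, Complex.add_re, Complex.ofReal_re]
    have h3 : log (Q v) = Real.pi * I * (Y v + m) := by
      rw [hQe v (hsub0 hv) hv0, nome]
      apply Complex.log_exp
      · rw [e1]
        have : 0 < Real.pi * ((Y v).re + m) := mul_pos hp (by linarith)
        linarith
      · rw [e1]
        nlinarith
    have hpc : (Real.pi : ℂ) * I ≠ 0 :=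
      mul_ne_zero (by exact_mod_cast hp.ne') Complex.I_ne_zero
    rw [h3, mul_div_cancel_left₀ _ hpc]
    ring

lemma x9_conn {Y : ℂ → ℂ} {x ρ : ℝ} (hd : DifferentiableOn ℂ Y UH)
    (hne : ∀ v ∈ ball (x : ℂ) ρ, 0 < v.im → (Y v).re ≠ -1) {v₀ : ℂ} (h0 : v₀ ∈ ball (x : ℂ) ρ)
    (h0' : 0 < v₀.im) {v : ℂ} (h1 : v ∈ ball (x : ℂ) ρ) (h1' : 0 < v.im) :
    ((Y v₀).re < -1 → (Y v).re < -1) ∧ (-1 < (Y v₀).re → -1 < (Y v).re) := by
  set B : Set ℂ := ball (x : ℂ) ρ ∩ UH with hB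
  have hBconv : Convex ℝ B := (convex_ball _ _).inter (convex_halfSpace_im_gt 0)
  have hpre : IsPreconnected B := hBconv.isPreconnected
  have hc : ContinuousOn (fun v => (Y v).re) B :=
    Complex.continuous_re.comp_continuousOn (hd.continuousOn.mono inter_subset_right)
  have hv0 : v₀ ∈ B := ⟨h0, h0'⟩
  have hv1 : v ∈ B := ⟨h1, h1'⟩
  constructor
  · intro h2
    by_contra h3
    push Not at h3
    obtain ⟨w, hw, hw2⟩ := hpre.intermediate_value hv0 hv1 hc ⟨h2.le, h3⟩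
    exact hne w hw.1 hw.2 hw2
  · intro h2
    by_contra h3
    push Not at h3
    obtain ⟨w, hw, hw2⟩ := hpre.intermediate_value hv1 hv0 hc ⟨h3, h2.le⟩
    exact hne w hw.1 hw.2 hw2

variable {δ : ℝ} {X : ℂ → ℂ} {v₁ v₂ : ℝ} {Θ : ℝ → ℝ}

lemma x9_slit_lim (h : Pre2 δ X v₁ v₂ Θ) {u : ℝ} (h1 : v₁ < u) (h2 : u < v₂) :
    ∃ ς : ℂ, ς.re = -1 ∧ Tendsto (fun v => Dt δ (X v)) (𝓝[UH] (u : ℂ)) (𝓝 ς) := by
  obtain ⟨r, hr, τ, hτd, hτe, hτr, -⟩ := pre2_slit h u h1 h2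
  have hmem : ball (u : ℂ) r ∈ 𝓝 (u : ℂ) := ball_mem_nhds _ hr
  refine ⟨τ u, (hτr u (mem_ball_self hr)).1, ?_⟩
  have h3 : Tendsto τ (𝓝[UH] (u : ℂ)) (𝓝 (τ u)) :=
    (hτd.differentiableAt hmem).continuousAt.tendsto.mono_left nhdsWithin_le_nhds
  refine h3.congr' ?_
  filter_upwards [self_mem_nhdsWithin, nhdsWithin_le_nhds hmem] with v h4 h5
  exact (hτe v h5 h4).symm

lemma x9_side0_lim (h : Pre2 δ X v₁ v₂ Θ) {u : ℝ} (hu : u < v₁) :
    ∃ ς ∈ Vert 0, Dz δ ς / (‖Dz δ ς‖ : ℂ) = exp (Θ u * I) ∧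
      Tendsto (fun v => Dt δ (X v)) (𝓝[UH] (u : ℂ)) (𝓝 ς) := by
  obtain ⟨h6, h7⟩ := h.s0 u hu
  exact lim_side0 h.d_pos (x7_ev h u) (fun K hK hKV => h.esc K hK hKV u) (h.lim u) h6 h7

lemma x9_side2_lim (h : Pre2 δ X v₁ v₂ Θ) {u : ℝ} (hu : v₂ < u) (hu' : u < -1) :
    ∃ ς ∈ Vert (-2), Dz δ ς / (‖Dz δ ς‖ : ℂ) = exp (Θ u * I) ∧
      Tendsto (fun v => Dt δ (X v)) (𝓝[UH] (u : ℂ)) (𝓝 ς) := by
  obtain ⟨h6, h7⟩ := h.s2 u hu hu'
  exact lim_side2 h.d_pos (x7_ev h u) (fun K hK hKV => h.esc K hK hKV u) (h.lim u) h6 h7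

lemma x9_theta (h : Pre2 δ X v₁ v₂ Θ) {x : ℝ} (hx : Θ x = 0) {ε : ℝ} (hε : 0 < ε) :
    ∀ᶠ u in 𝓝 x, ‖exp (Θ u * I) - 1‖ < ε := by
  have h1 : Continuous (fun u : ℝ => ‖exp (Θ u * I) - 1‖) := by
    have := h.cont
    fun_prop
  have h2 := h1.tendsto x
  rw [hx] at h2
  simp only [Complex.ofReal_zero, zero_mul, Complex.exp_zero, sub_self, norm_zero] at h2
  exact h2.eventually_lt_const hε

lemma x9_ne (h : Pre2 δ X v₁ v₂ Θ) {v : ℂ} (hv : 0 < v.im) (hM : 2 * δ < (Dt δ (X v)).im) :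
    (Dt δ (X v)).re ≠ -1 := by
  intro h1
  exact (x7_Wd h (v := v) hv).2.2.2.2 ⟨h1, hM.le⟩

theorem pre2_cusp1 (h : Pre2 δ X v₁ v₂ Θ) : CuspAt (fun v => Dt δ (X v)) v₁ 1 := by
  have hr₀ : 0 < v₂ - v₁ := by linarith [h.lt12]
  refine x9_cusp (M₀ := 2 * δ) (l := 𝓝[<] v₁) hr₀ (pre2_Y h).1 (fun v hv => (x7_Wd h hv).1)
    ?_ nhdsWithin_le_nhds ?_ ?_
  · intro u hu hne
    rcases lt_or_gt_of_ne hne with h1 | h1
    · obtain ⟨ς, hς, -, ht⟩ := x9_side0_lim h h1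
      exact ⟨ς, x9_nome_im (n := 1) (by rw [hς.1]; norm_num), ht⟩
    · have h2 : u < v₂ := by
        have := (abs_lt.1 hu).2
        linarith
      obtain ⟨ς, hς, ht⟩ := x9_slit_lim h h1 h2
      exact ⟨ς, x9_nome_im (n := 0) (by rw [hς]; norm_num), ht⟩
  · intro M
    obtain ⟨ε, hε, hM⟩ := height_side h.d_pos M
    filter_upwards [self_mem_nhdsWithin, nhdsWithin_le_nhds
      (x9_theta h (h.s1 v₁ le_rfl h.lt12.le) hε)] with u hu hu2
    obtain ⟨ς, hς, he, ht⟩ := x9_side0_lim h hu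
    exact ⟨ς, ht, hM ς (Or.inl hς) (by rw [he]; exact hu2)⟩
  · intro ρ hρ hρr hhigh v hv hv0
    have hW := x7_Wd h (v := v) hv0
    -- a point with real part near 0
    obtain ⟨ς, hς, -, ht⟩ := x9_side0_lim h (u := v₁ - ρ / 2) (by linarith)
    have h1 : ∀ᶠ w in 𝓝[UH] ((v₁ - ρ / 2 : ℝ) : ℂ), -1 < (Dt δ (X w)).re := by
      have h2 := (Complex.continuous_re.tendsto _).comp ht
      rw [hς.1] at h2
      exact h2.eventually_const_lt (by norm_num)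
    have h3 : ball (v₁ : ℂ) ρ ∈ 𝓝 ((v₁ - ρ / 2 : ℝ) : ℂ) := by
      refine isOpen_ball.mem_nhds (e8_mem_ball.2 ?_)
      rw [abs_lt]; constructor <;> linarith
    have hnb := e8_neBot (v₁ - ρ / 2)
    obtain ⟨w, ⟨h4, h5⟩, h6⟩ := ((h1.and self_mem_nhdsWithin).and (nhdsWithin_le_nhds h3)).exists
    have h7 := (x9_conn (pre2_Y h).1 (fun v hv hv0 => x9_ne h hv0 (hhigh v hv hv0)) h6 h5
      hv hv0).2 h4
    exact ⟨h7, by linarith [hW.2.2.1]⟩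

theorem pre2_cusp2 (h : Pre2 δ X v₁ v₂ Θ) : CuspAt (fun v => Dt δ (X v)) v₂ 2 := by
  have hr₀ : 0 < min (v₂ - v₁) (-1 - v₂) := lt_min (by linarith [h.lt12]) (by linarith [h.lt2])
  refine x9_cusp (M₀ := 2 * δ) (l := 𝓝[>] v₂) hr₀ (pre2_Y h).1 (fun v hv => (x7_Wd h hv).1)
    ?_ nhdsWithin_le_nhds ?_ ?_
  · intro u hu hne
    have h3 := abs_lt.1 (lt_of_lt_of_le hu (min_le_left _ _))
    have h4 := abs_lt.1 (lt_of_lt_of_le hu (min_le_right _ _))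
    rcases lt_or_gt_of_ne hne with h1 | h1
    · obtain ⟨ς, hς, ht⟩ := x9_slit_lim h (u := u) (by linarith) h1
      exact ⟨ς, x9_nome_im (n := 1) (by rw [hς]; norm_num), ht⟩
    · obtain ⟨ς, hς, -, ht⟩ := x9_side2_lim h h1 (by linarith)
      exact ⟨ς, x9_nome_im (n := 0) (by rw [hς.1]; norm_num), ht⟩
  · intro M
    obtain ⟨ε, hε, hM⟩ := height_side h.d_pos M
    have h8 : ∀ᶠ u : ℝ in 𝓝 v₂, u < -1 := eventually_lt_nhds h.lt2
    filter_upwards [self_mem_nhdsWithin, nhdsWithin_le_nhds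
      (x9_theta h (h.s1 v₂ h.lt12.le le_rfl) hε), nhdsWithin_le_nhds h8] with u hu hu2 hu3
    obtain ⟨ς, hς, he, ht⟩ := x9_side2_lim h hu hu3
    exact ⟨ς, ht, hM ς (Or.inr hς) (by rw [he]; exact hu2)⟩
  · intro ρ hρ hρr hhigh v hv hv0
    have hW := x7_Wd h (v := v) hv0
    have hρ2 : ρ ≤ -1 - v₂ := hρr.trans (min_le_right _ _)
    obtain ⟨ς, hς, -, ht⟩ := x9_side2_lim h (u := v₂ + ρ / 2) (by linarith) (by linarith)
    have h1 : ∀ᶠ w in 𝓝[UH] ((v₂ + ρ / 2 : ℝ) : ℂ), (Dt δ (X w)).re < -1 := by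
      have h2 := (Complex.continuous_re.tendsto _).comp ht
      rw [hς.1] at h2
      exact h2.eventually_lt_const (by norm_num)
    have h3 : ball (v₂ : ℂ) ρ ∈ 𝓝 ((v₂ + ρ / 2 : ℝ) : ℂ) := by
      refine isOpen_ball.mem_nhds (e8_mem_ball.2 ?_)
      rw [abs_lt]; constructor <;> linarith
    have hnb := e8_neBot (v₂ + ρ / 2)
    obtain ⟨w, ⟨h4, h5⟩, h6⟩ := ((h1.and self_mem_nhdsWithin).and (nhdsWithin_le_nhds h3)).exists
    have h7 := (x9_conn (pre2_Y h).1 (fun v hv hv0 => x9_ne h hv0 (hhigh v hv hv0)) h6 h5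
      hv hv0).1 h4
    exact ⟨hW.2.1, by linarith⟩

end Pool.Agent.Choc
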