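import Pool.Agent.Lib.MP_2b3e36_an.Re.RC
import Pool.Agent.Lib.MP_2b3e36_an.Re.X11
import Pool.Agent.Lib.MP_2b3e36_an.Re.PG2
import Pool.Agent.Lib.MP_2b3e36_an.Re.PH3
import Pool.Agent.Lib.MP_2b3e36_an.Re.PK2
import Pool.Agent.Lib.MP_2b3e36_an.Re.PL2
import Pool.Agent.Lib.MP_2b3e36_an.Re.PM
import Pool.Agent.Lib.MP_2b3e36_an.Re.PO
import Pool.Agent.Lib.MP_2b3e36_an.Re.D8
import Pool.Agent.Lib.MP_2b3e36_an.Re.W5
import Pool.Agent.Lib.MP_2b3e36_an.Re.W6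
import Pool.Agent.Lib.MP_2b3e36_an.Re.F3

/-!
Y1. The criterion for two real ones.
-/

set_option autoImplicit false

open Complex Set Filter Topology Metric

namespace Pool.Agent.Choc

theorem y1_not_realp2 {η : ℝ} {T : ℂ → ℂ} {v₁ v₂ vc : ℝ} (hT : Model2 η T v₁ v₂ vc) :
    ¬ Realp2 (jb v₁) (jb v₂) := by
  rintro ⟨r, f, hs⟩
  obtain ⟨g, hg⟩ := lift2_exists hs
  rw [(jb_mem ((hT.lt1.trans hT.lt2).trans hT.lt3)).2.2, (jb_mem hT.lt3).2.2] at hg
  exact rigidity2 hT hg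

/-- The invariants as functions of the scaling, at the extremal pair. -/
theorem y1_scale_cont {v₁ v₂ : ℝ} (h1 : v₁ < v₂) (h2 : v₂ < -1) :
    Tendsto (fun ρ : ℝ => ea (jr (jb v₁ / ρ)) (jr (jb v₂ / ρ))) (𝓝[<] 1) (𝓝 (ea v₁ v₂)) ∧
    Tendsto (fun ρ : ℝ => ec (jr (jb v₁ / ρ)) (jr (jb v₂ / ρ))) (𝓝[<] 1) (𝓝 (ec v₁ v₂)) := by
  obtain ⟨ha, hb, hc⟩ := jb_mem (h1.trans h2)
  obtain ⟨ha', hb', hc'⟩ := jb_mem h2
  have hd : jr (jb v₂) - jr (jb v₁) ≠ 0 := by rw [hc, hc']; linarith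
  have hk : ∀ {b : ℝ}, 0 < b → ContinuousAt (fun ρ : ℝ => jr (b / ρ)) 1 := by
    intro b hb0
    unfold jr
    have h3 : b / (1 : ℝ) ≠ 0 := by simpa using hb0.ne'
    have h4 : ContinuousAt (fun ρ : ℝ => b / ρ) 1 := continuousAt_const.div continuousAt_id one_ne_zero
    exact ((h4.add (h4.inv₀ h3)).neg).div_const 2
  have e1 : ContinuousAt (fun ρ : ℝ => ea (jr (jb v₁ / ρ)) (jr (jb v₂ / ρ))) 1 := by
    unfold ea
    exact (continuousAt_const.sub (hk ha)).div ((hk ha').sub (hk ha)) (by simpa using hd)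
  have e2 : ContinuousAt (fun ρ : ℝ => ec (jr (jb v₁ / ρ)) (jr (jb v₂ / ρ))) 1 := by
    unfold ec
    exact (continuousAt_const.sub (hk ha)).div ((hk ha').sub (hk ha)) (by simpa using hd)
  constructor
  · have := e1.tendsto
    simp only [div_one, hc, hc'] at this
    exact this.mono_left nhdsWithin_le_nhds
  · have := e2.tendsto
    simp only [div_one, hc, hc'] at this
    exact this.mono_left nhdsWithin_le_nhds

/-- The criterion. -/
theorem criterion2 {b₁ b₂ : ℝ} (h1 : 0 < b₁) (h2 : b₁ < b₂) (h3 : b₂ < 1) :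
    Realp2 b₁ b₂ ↔ Crit2 b₁ b₂ := by
  have j1 := jr_strict h1 h2 h3.le
  have j2 := jr_lt (h1.trans h2) h3
  have hea : 1 < ea (jr b₁) (jr b₂) := by
    unfold ea
    rw [lt_div_iff₀ (by linarith)]
    linarith
  constructor
  · intro hR
    by_contra hno
    set a0 := ea (jr b₁) (jr b₂) with ha0
    set c0 := ec (jr b₁) (jr b₂) with hc0
    let S : Set ℝ := {η | 0 < η ∧ ∀ (T : ℂ → ℂ) (v₁ v₂ vc : ℝ), Model2 η T v₁ v₂ vc → ea v₁ v₂ ≤ a0}
    have hne : S.Nonempty := by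
      obtain ⟨η₀, hη₀, h⟩ := ends_small (ε := a0 - 1) (by linarith)
      refine ⟨η₀ / 2, by positivity, fun T v₁ v₂ vc hT => ?_⟩
      have := (h (η₀ / 2) T v₁ v₂ vc (by linarith) hT).1
      linarith
    have hbd : BddAbove S := by
      obtain ⟨η₀, h⟩ := ends_large (a0 + 1)
      refine ⟨η₀, fun η hη => ?_⟩
      by_contra hlt
      push Not at hlt
      obtain ⟨T, v₁, v₂, vc, hT⟩ := model2_exists hη.1
      have e1 := (h η T v₁ v₂ vc hlt hT).1
      have e2 := hη.2 T v₁ v₂ vc hT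
      linarith
    set η0 := sSup S with hη0
    have hη0pos : 0 < η0 := by
      obtain ⟨η, hη⟩ := hne
      exact lt_of_lt_of_le hη.1 (le_csSup hbd hη)
    obtain ⟨T, v₁, v₂, vc, hT⟩ := model2_exists hη0pos
    have e1 : ea v₁ v₂ ≤ a0 := by
      by_contra hlt
      push Not at hlt
      obtain ⟨d, hd, h⟩ := ends_left hT (ε := (ea v₁ v₂ - a0) / 2) (by linarith)
      obtain ⟨η', hη', hlt'⟩ := exists_lt_of_lt_csSup hne (show η0 - d < sSup S by linarith)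
      obtain ⟨T', v₁', v₂', vc', hT'⟩ := model2_exists hη'.1
      have h5 := h η' T' v₁' v₂' vc' hlt' (le_csSup hbd hη') hT'
      have h6 := hη'.2 T' v₁' v₂' vc' hT'
      linarith [h5.1]
    have e2 : c0 ≤ ec v₁ v₂ := by
      by_contra hlt
      push Not at hlt
      obtain ⟨d, hd, h⟩ := ends_right hT (ε := (c0 - ec v₁ v₂) / 2) (by linarith)
      have hpos : 0 < η0 + d / 2 := by linarith
      have h4 : η0 + d / 2 ∉ S := fun hm => by
        have := le_csSup hbd hm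
        linarith
      have h5 : ∃ (T' : ℂ → ℂ) (v₁' v₂' vc' : ℝ), Model2 (η0 + d / 2) T' v₁' v₂' vc' ∧
          a0 < ea v₁' v₂' := by
        by_contra hle
        push Not at hle
        exact h4 ⟨hpos, hle⟩
      obtain ⟨T', v₁', v₂', vc', hT', hlt2⟩ := h5
      have h6 := (h (η0 + d / 2) T' v₁' v₂' vc' (by linarith) (by linarith) hT').2
      exact hno ⟨η0 + d / 2, _, _, hpos, ends_of_model hT', hlt2, by linarith⟩
    have hr1 := jb_mem ((hT.lt1.trans hT.lt2).trans hT.lt3)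
    have hr2 := jb_mem hT.lt3
    refine y1_not_realp2 hT (realp2_mono hr1.1 (jb_lt (hT.lt1.trans hT.lt2) hT.lt3)
      hr2.2.1 hR ?_ ?_)
    · rw [hr1.2.2, hr2.2.2]
      exact e1
    · rw [hr1.2.2, hr2.2.2]
      exact e2
  · rintro ⟨η, x, w, hη, hE, hx, hw⟩
    obtain ⟨T, v₁, v₂, vc, hT⟩ := model2_exists hη
    obtain ⟨e1, e2⟩ := ends_unique hE hT
    have hr1 := jb_mem ((hT.lt1.trans hT.lt2).trans hT.lt3)
    have hr2 := jb_mem hT.lt3
    obtain ⟨c1, c2⟩ := y1_scale_cont (hT.lt1.trans hT.lt2) hT.lt3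
    rw [e1] at hx
    rw [e2] at hw
    have hev : ∀ᶠ ρ : ℝ in 𝓝[<] 1, ea (jr b₁) (jr b₂) < ea (jr (jb v₁ / ρ)) (jr (jb v₂ / ρ)) ∧
        ec (jr (jb v₁ / ρ)) (jr (jb v₂ / ρ)) < ec (jr b₁) (jr b₂) ∧ jb v₂ < ρ ∧ ρ < 1 := by
      filter_upwards [c1.eventually (lt_mem_nhds hx), c2.eventually (gt_mem_nhds hw),
        nhdsWithin_le_nhds (lt_mem_nhds hr2.2.1), self_mem_nhdsWithin] with ρ h4 h5 h6 h7
      exact ⟨h4, h5, h6, h7⟩
    obtain ⟨ρ, h4, h5, h6, h7⟩ := hev.exists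
    exact realp2_mono h1 h2 h3 (realp2_extremal hT h6 h7) h4.le h5.le

/-- The limits of the ends. -/
theorem endsLim : EndsLim where
  small := by
    intro ε hε
    obtain ⟨η₀, hη₀, h⟩ := ends_small hε
    obtain ⟨T, v₁, v₂, vc, hT⟩ := model2_exists (η := η₀ / 2) (by positivity)
    obtain ⟨e1, e2⟩ := h _ T v₁ v₂ vc (by linarith) hT
    exact ⟨η₀ / 2, _, _, by positivity, ends_of_model hT, e1, e2⟩
  large := by
    intro M
    obtain ⟨η₀, h⟩ := ends_large M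
    have hpos : 0 < max η₀ 0 + 1 := by positivity
    obtain ⟨T, v₁, v₂, vc, hT⟩ := model2_exists hpos
    have e1 := h _ T v₁ v₂ vc (lt_of_le_of_lt (le_max_left _ _) (lt_add_one _)) hT
    exact ⟨_, _, _, hpos, ends_of_model hT, e1.1⟩

end Pool.Agent.Choc
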